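import Pool.Agent.MaxTerm59b.Sp

/-! Elementary facts on the operations of the check. Unfold and use `Nat.add_eq`, `Nat.sub_eq`, `Nat.div_eq_div`,
`Nat.shiftRight_eq_div_pow`, `omega`, `nlinarith`. -/

namespace Pool.Agent.MaxTerm59b

/-- Newton step from above. Hint: with `m = (g + n/g)/2` one has `2m + 2 > g + n/g`, `n < g (n/g + 1)`, and
`(g + n/g + 1)^2 ≥ 4 g (n/g + 1) ...`; work with `4 n < 4 g (n/g+1) ≤ (g + n/g + 1)^2 ≤ (2 m + 2)^2`. -/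
theorem nwt_sq (n g : ℕ) (hg : 0 < g) : n ≤ nwt n g ^ 2 := by
  have h0 : nwt n g = (g + n / g) / 2 + 1 := rfl
  rw [h0]
  have h1 : n < g * (n / g + 1) := Nat.lt_mul_div_succ n hg
  obtain ⟨q, hq⟩ : ∃ q, q = n / g := ⟨_, rfl⟩
  rw [← hq] at h1 ⊢
  obtain ⟨m, hm⟩ : ∃ m, m = (g + q) / 2 := ⟨_, rfl⟩
  rw [← hm]
  have h2 : g + q + 1 ≤ 2 * (m + 1) := by omega
  have h3 : 4 * (g * (q + 1)) ≤ (g + q + 1) ^ 2 := by
    have : (4 * (g * (q + 1)) : ℤ) ≤ (g + q + 1) ^ 2 := by nlinarith [sq_nonneg ((g : ℤ) - (q + 1))]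
    exact_mod_cast this
  have h4 : (g + q + 1) ^ 2 ≤ (2 * (m + 1)) ^ 2 := Nat.pow_le_pow_left h2 2
  nlinarith

theorem nwt_pos (n g : ℕ) : 0 < nwt n g := Nat.succ_pos _

theorem maxN_eq (a b : ℕ) : maxN a b = max a b := by
  have h0 : maxN a b = a + (b - a) := rfl
  rw [h0]
  omega

theorem minN_eq (a b : ℕ) : minN a b = min a b := by
  have h0 : minN a b = a - (a - b) := rfl
  rw [h0]
  omega

theorem absS_eq (x o : ℕ) : (absS x o : ℤ) = |(x : ℤ) - o| := by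
  have h0 : absS x o = (x - o) + (o - x) := rfl
  rw [h0]
  rcases abs_cases ((x : ℤ) - o) with ⟨h1, h2⟩ | ⟨h1, h2⟩ <;> rw [h1] <;> omega

theorem dist_eq (x o : ℕ) : (dist x o : ℤ) = |(x : ℤ) - o| := by
  have h0 : dist x o = (x - o) + (o - x) := rfl
  rw [h0]
  rcases abs_cases ((x : ℤ) - o) with ⟨h1, h2⟩ | ⟨h1, h2⟩ <;> rw [h1] <;> omega

theorem hyp_sq (x y : ℕ) : x ^ 2 + y ^ 2 ≤ hyp x y ^ 2 := by
  rw [sq x, sq y]
  exact nwt_sq (x * x + y * y) _ (nwt_pos _ _)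

theorem sqP_sq (a b : ℕ) : a * b ≤ sqP a b ^ 2 := nwt_sq (a * b) _ (nwt_pos _ _)

/-- Hint: if `B ≤ 2 L` the left side is at most `B²/(4 L)` (complete the square; `L = 0` forces `B = 0`), otherwise
`b x - L x² ≤ B - L` as `B x - L x^2` is increasing on `[0, 1]`. -/
theorem hub_le (L B : ℕ) (b x : ℝ) (hb : b ≤ B) (hx : 0 ≤ x) (hx1 : x ≤ 1) : b * x - L * x ^ 2 ≤ hub L B := by
  have h0 : hub L B = cond (Nat.ble B (2 * L)) (B * B / (4 * L) + 1) (B - L) := rfl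
  have hbx : b * x ≤ B * x := mul_le_mul_of_nonneg_right hb hx
  rw [h0]
  by_cases h : B ≤ 2 * L
  · rw [Nat.ble_eq_true_of_le h]
    change b * x - L * x ^ 2 ≤ ((B * B / (4 * L) + 1 : ℕ) : ℝ)
    rcases Nat.eq_zero_or_pos L with hL | hL
    · subst hL
      have hB : B = 0 := by omega
      subst hB
      simp only [Nat.cast_zero, zero_mul] at hbx ⊢
      push_cast
      have : (0 : ℝ) ≤ ((0 * 0 / (4 * 0) : ℕ) : ℝ) := Nat.cast_nonneg _
      linarith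
    · have hLr : (0 : ℝ) < L := by exact_mod_cast hL
      have h1 : (B : ℝ) * B < ((B * B / (4 * L) + 1 : ℕ) : ℝ) * (4 * L) := by
        have h2 : B * B < (4 * L) * (B * B / (4 * L) + 1) := Nat.lt_mul_div_succ _ (by omega)
        have h3 : ((B * B : ℕ) : ℝ) < (((4 * L) * (B * B / (4 * L) + 1) : ℕ) : ℝ) := by
          exact_mod_cast h2
        push_cast at h3 ⊢
        nlinarith [h3]
      have h4 : (B * x - L * x ^ 2) * (4 * L) ≤ B * B := by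
        nlinarith [sq_nonneg ((B : ℝ) - 2 * L * x)]
      have h5 : (B * x - L * x ^ 2) * (4 * L) ≤ ((B * B / (4 * L) + 1 : ℕ) : ℝ) * (4 * L) :=
        h4.trans h1.le
      have h6 := le_of_mul_le_mul_right h5 (by linarith)
      linarith
  · have hble : Nat.ble B (2 * L) = false := by
      rw [Bool.eq_false_iff]
      intro hc
      exact h (Nat.le_of_ble_eq_true hc)
    rw [hble]
    change b * x - L * x ^ 2 ≤ ((B - L : ℕ) : ℝ)
    have hBL : L ≤ B := by omega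
    rw [Nat.cast_sub hBL]
    have h1 : (2 * L : ℝ) ≤ B := by
      have : 2 * L ≤ B := by omega
      exact_mod_cast this
    have hL0 : (0 : ℝ) ≤ L := Nat.cast_nonneg _
    nlinarith [mul_nonneg (sub_nonneg.2 hx1) (sub_nonneg.2 h1), mul_nonneg (mul_nonneg (sub_nonneg.2 hx1) (sub_nonneg.2 hx1)) hL0]

theorem norm_hyp (x y : ℤ) (a b : ℕ) (ha : |x| ≤ a) (hb : |y| ≤ b) : ‖(⟨(x : ℝ), (y : ℝ)⟩ : ℂ)‖ ≤ hyp a b := by
  rw [Complex.norm_eq_sqrt_sq_add_sq, Real.sqrt_le_iff]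
  refine ⟨Nat.cast_nonneg _, ?_⟩
  simp only
  have h1 : x ^ 2 ≤ (a : ℤ) ^ 2 := sq_le_sq' (by linarith [neg_abs_le x]) ((le_abs_self x).trans ha)
  have h2 : y ^ 2 ≤ (b : ℤ) ^ 2 := sq_le_sq' (by linarith [neg_abs_le y]) ((le_abs_self y).trans hb)
  have h3 : ((a : ℤ) ^ 2 + (b : ℤ) ^ 2) ≤ (hyp a b : ℤ) ^ 2 := by exact_mod_cast hyp_sq a b
  have h4 : x ^ 2 + y ^ 2 ≤ (hyp a b : ℤ) ^ 2 := by linarith
  exact_mod_cast h4

end Pool.Agent.MaxTerm59b
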