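import Pool.Agent.MaxTerm59b.F2CovD

/-! Extremal matched vertex with a generic right neighbour: no configuration. -/

namespace Pool.Agent.MaxTerm59b
open Finset Pool.Agent.MaxTerm58
open scoped ComplexConjugate

private theorem F2Final_pos {g b : ℕ} {s t : ℂ} {v : ℤ → ℂ} (H : HypF g b s t v) (hU : InU2 (s ^ g).re |(s ^ g).im|)
    (hi : 0 ≤ (s ^ g).im) (hq0 : 17 / 50 ≤ ‖s‖ ^ g) : False := by
  have hu := exists_th H.G.s0 hU hi
  have hq1 := H.q1
  have htl := H.G.tl
  have htu := H.G.tu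
  have q0 : ((22282 : ℕ) : ℝ) ≤ 65536 * ‖s‖ ^ g := by
    push_cast
    linarith
  have q1 : 65536 * ‖s‖ ^ g ≤ ((46203 : ℕ) : ℝ) := by
    push_cast
    linarith
  have l0 : ((41943 : ℕ) : ℝ) * ‖s‖ ^ g ≤ 65536 * ‖t‖ ^ g := by
    push_cast
    linarith
  have l1 : 65536 * ‖t‖ ^ g ≤ ((58985 : ℕ) : ℝ) * ‖s‖ ^ g := by
    push_cast
    linarith
  have hb := H.hb
  have r0 : 54 * g ≤ 64 * b := by omega
  rcases le_total (64 * b) (64 * g) with h | h
  · exact bad_f54 g b s t v H hU ⟨hu, q0, q1, l0, l1, r0, Or.inr h, by norm_num, by norm_num, by norm_num, by norm_num⟩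
  rcases le_total (64 * b) (77 * g) with h1 | h1
  · exact bad_f64 g b s t v H hU ⟨hu, q0, q1, l0, l1, h, Or.inr h1, by norm_num, by norm_num, by norm_num, by norm_num⟩
  rcases le_total (64 * b) (96 * g) with h2 | h2
  · exact bad_f77 g b s t v H hU ⟨hu, q0, q1, l0, l1, h1, Or.inr h2, by norm_num, by norm_num, by norm_num, by norm_num⟩
  rcases le_total (64 * b) (112 * g) with h3 | h3
  · exact bad_f96 g b s t v H hU ⟨hu, q0, q1, l0, l1, h2, Or.inr h3, by norm_num, by norm_num, by norm_num, by norm_num⟩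
  rcases le_total (64 * b) (128 * g) with h4 | h4
  · exact bad_f112 g b s t v H hU ⟨hu, q0, q1, l0, l1, h3, Or.inr h4, by norm_num, by norm_num, by norm_num, by norm_num⟩
  rcases le_total (64 * b) (160 * g) with h5 | h5
  · exact bad_f128 g b s t v H hU ⟨hu, q0, q1, l0, l1, h4, Or.inr h5, by norm_num, by norm_num, by norm_num, by norm_num⟩
  · exact bad_f160 g b s t v H hU ⟨hu, q0, q1, l0, l1, h5, Or.inl rfl, by norm_num, by norm_num, by norm_num, by norm_num⟩

/-- An extremal matched vertex whose right neighbour is mismatched with a ratio different from `1/2`-type special values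
does not exist. -/
theorem f2g_final {g b : ℕ} {s t : ℂ} {v : ℤ → ℂ} (hg : 0 < g) (hb : 17 * g < 20 * b) (h1 : b ≠ g) (h2 : b ≠ 2 * g)
    (h3 : b ≠ 3 * g) (h32 : 2 * b ≠ 3 * g) (H : HypG g b s t v) (hq0 : 17 / 50 ≤ ‖s‖ ^ g) (hq1 : ‖s‖ ^ g ≤ 141 / 200)
    (hU : InU2 (s ^ g).re |(s ^ g).im|) : False := by
  have HF : HypF g b s t v := ⟨hg, hb, h1, h2, h3, h32, hq1, H⟩
  rcases le_total 0 (s ^ g).im with hi | hi
  · exact F2Final_pos HF hU hi hq0
  · have e : (conj s) ^ g = conj (s ^ g) := by rw [map_pow]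
    refine F2Final_pos HF.conj ?_ ?_ ?_
    · rw [e, Complex.conj_re, Complex.conj_im, abs_neg]
      exact hU
    · rw [e, Complex.conj_im]
      linarith
    · rw [RCLike.norm_conj]
      exact hq0

end Pool.Agent.MaxTerm59b
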