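import Pool.Agent.MaxTerm58.THyp

/-! Hypotheses for the generic ratios. -/

namespace Pool.Agent.MaxTerm59b
open Pool.Agent.MaxTerm58

/-- outer coefficients beyond a vertex with the quotient `y` whose inner gap is `g`; nothing is known about the outer
gap (`u`: the next unit, if it is one of the positions) -/
def OutA (g : ℕ) (D : ℝ) (r : ℕ → ℂ) : Prop :=
  ∃ (y : ℝ) (c : ℕ → ℝ) (u : ℕ), 0 ≤ y ∧ y ^ g ≤ D ∧ (∀ i, 0 ≤ c i) ∧ (∀ i, c i ≤ 1) ∧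
    (∀ S : Finset ℕ, u ∉ S → ∑ i ∈ S, c i ^ 2 ≤ (170919 / 100000) ^ 2 - 2 - y ^ (2 * g)) ∧
    ∀ i, ‖r i‖ ≤ c i * y ^ (i + 1)

/-- outer coefficients beyond a vertex both of whose gaps are `g`: sizes and ball (the next unit has the index `g - 1`) -/
def OutU (g : ℕ) (D : ℝ) (r : ℕ → ℂ) : Prop :=
  OutM g D r ∧ ∃ (y : ℝ) (c : ℕ → ℝ), 0 ≤ y ∧ y ^ g ≤ D ∧ (∀ i, 0 ≤ c i) ∧ (∀ i, c i ≤ 1) ∧
    (∀ S : Finset ℕ, g - 1 ∉ S → ∑ i ∈ S, c i ^ 2 ≤ (170919 / 100000) ^ 2 - 2 - y ^ (2 * g)) ∧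
    ∀ i, ‖r i‖ ≤ c i * y ^ (i + 1)

theorem OutU.toA {g : ℕ} {D : ℝ} {r : ℕ → ℂ} (h : OutU g D r) : OutA g D r := by
  obtain ⟨-, y, c, h0, h1, h2, h3, h4, h5⟩ := h
  exact ⟨y, c, g - 1, h0, h1, h2, h3, h4, h5⟩

theorem outN_toA {g : ℕ} {D : ℝ} {r : ℕ → ℂ} (h : OutN g D r) : OutA g D r := by
  obtain ⟨y, c, u, h0, h1, h2, h3, -, h4, h5⟩ := h
  exact ⟨y, c, u, h0, h1, h2, h3, h4, h5⟩

/-- extremal matched vertex `-g` (gaps `g`), right neighbour `0` with the gaps `g`, `b`, quotient `t`, left neighbour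
`-2g` mismatched with a quotient at most `|t|`; `s` is the quotient of the extremal vertex (`s^g` its parameter) -/
structure HypG (g b : ℕ) (s t : ℂ) (v : ℤ → ℂ) : Prop where
  v2 : v (-(2 * (g : ℤ))) = 1
  v1 : v (-(g : ℤ)) = 1
  v0 : v 0 = 1
  vb : v b = 1
  s0 : s ≠ 0
  t0 : t ≠ 0
  tl : 64 / 100 * ‖s‖ ^ g < ‖t‖ ^ g
  tu : ‖t‖ ^ g ≤ 9 / 10 * (‖s‖ ^ g + 1 / 100000)
  oL : OutN g (‖t‖ ^ g) (fun i => v (-(2 * (g : ℤ)) - 1 - (i : ℤ)))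
  oR : OutA b (‖s‖ ^ g + 1 / 100000) (fun i => v (b + 1 + (i : ℤ)))
  bd : ∀ X < 3, ∀ z : ℂ, ‖z‖ = 1 →
    ‖∑' n : ℤ, v n * (s ^ eaZ g X n * t ^ ebZ 1 X n) * z ^ n‖ ≤ 170919 / 100000

end Pool.Agent.MaxTerm59b
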