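import Pool.Agent.MaxTerm59b.MvFinal
import Pool.Agent.MaxTerm59b.F2Final
import Pool.Agent.MaxTerm58.EFinal
import Pool.Agent.MaxTerm58.TFinal
import Pool.Agent.MaxTerm58.MFinal
import Pool.Agent.MaxTerm58.FinalTI
import Pool.Agent.MaxTerm58.FinalF3
import Pool.Agent.MaxTerm58.FinalS
import Pool.Agent.MaxTerm8.AsmC
import Pool.Agent.MaxTerm8.RedBox
import Pool.Agent.MaxTerm8.RedMG
import Pool.Agent.MaxTerm8.RedG
import Pool.Agent.MaxTerm8.ResultForm

/-! All configurations are excluded; the theorem on chains. -/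

namespace Pool.Agent.MaxTerm59b
open Pool.Agent.MaxTerm8 Pool.Agent.MaxTerm58

theorem boxes : Wd.Boxes (64 / 100) where
  ti := fun _ _ H h1 hU => ti_final H h1 hU
  f3 := fun _ _ _ _ H h1 h2 hU => f3_final H h1 h2 hU
  sA := fun _ _ _ _ _ H h1 h2 hU => sA_final H h1 h2 hU
  sB := fun _ _ _ _ _ H h1 h2 hU => sB_final H h1 h2 hU
  e3 := fun _ _ _ _ H hmd h1 h2 hU ht => e3_final H hmd h1 h2 hU ht
  e32 := fun _ _ _ _ H hmd h1 h2 hU ht => e32_final H hmd h1 h2 hU ht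
  t1out := Wd.t1out_of t1out_final
  t1in := Wd.t1in_of t1in_final
  f2s := Wd.f2small_of f2small_final
  f2g := Wd.f2g_of fun g b s t v hg _ H h1 h2 hU h17 hb1 hb2 hb3 h32 =>
    f2g_final hg h17 hb1 hb2 hb3 h32 H (by rwa [norm_pow] at h1) (by rwa [norm_pow] at h2) hU
  mvg := Wd.mvg_of fun a b x D v ha hab h2 h3 h32 H hD3 hR hL => mvg_final ha hab h2 h3 h32 H hD3 hR hL
  mvs := Wd.mvs_of mvs_final

theorem chain : Chain := Wd.chain_of_boxes boxes

end Pool.Agent.MaxTerm59b
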