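import Pool.Agent.MaxTerm59b.Sp

/-! The affine combination at a vertex. -/

namespace Pool.Agent.MaxTerm59b
open Finset

theorem sg_eq (T h u : ℕ) (b : Bool) (hT : T = 2 * h) (hu : u ≤ T) :
    (sg T u b : ℤ) = (if b then 1 else -1) * ((u : ℤ) - h) + h := by
  cases b
  · have h0 : sg T u false = T - u := rfl
    rw [h0]
    simp only [Bool.false_eq_true, if_false]
    omega
  · have h0 : sg T u true = u := rfl
    rw [h0]
    simp

/-- digits with offset `h` -/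
theorem comb_eq (cx : Bool) (T h : ℕ) (u : ℕ → ℕ) (b1 b2 b3 : Bool) (hT : T = 2 * h) (hu : ∀ k < Kc cx, u k ≤ T) :
    (comb cx T (u 0) (u 1) (u 2) (u 3) b1 b2 b3 : ℤ) =
      ∑ k ∈ range (Kc cx), sv b1 b2 b3 k * ((u k : ℤ) - h) + Kc cx * h := by
  cases cx
  · have h0 : comb false T (u 0) (u 1) (u 2) (u 3) b1 b2 b3 = (u 0 + sg T (u 1) b1) + sg T (u 2) b2 := rfl
    have hK : Kc false = 3 := rfl
    rw [hK] at hu ⊢
    rw [h0]
    push_cast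
    rw [sg_eq T h (u 1) b1 hT (hu 1 (by norm_num)), sg_eq T h (u 2) b2 hT (hu 2 (by norm_num))]
    simp only [Finset.sum_range_succ, Finset.sum_range_zero, sv]
    norm_num
    ring
  · have h0 : comb true T (u 0) (u 1) (u 2) (u 3) b1 b2 b3 =
        (u 0 + sg T (u 1) b1) + (sg T (u 2) b2 + sg T (u 3) b3) := rfl
    have hK : Kc true = 4 := rfl
    rw [hK] at hu ⊢
    rw [h0]
    push_cast
    rw [sg_eq T h (u 1) b1 hT (hu 1 (by norm_num)), sg_eq T h (u 2) b2 hT (hu 2 (by norm_num)),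
      sg_eq T h (u 3) b3 hT (hu 3 (by norm_num))]
    simp only [Finset.sum_range_succ, Finset.sum_range_zero, sv]
    norm_num
    ring

theorem w1_nonneg (s : ℝ) (hs : |s| ≤ 1) (b : Bool) : 0 ≤ w1 s b := by
  rw [abs_le] at hs
  unfold w1
  split_ifs
  · linarith [hs.1]
  · linarith [hs.2]

theorem wt_nonneg (s1 s2 s3 : ℝ) (h1 : |s1| ≤ 1) (h2 : |s2| ≤ 1) (h3 : |s3| ≤ 1) (b1 b2 b3 : Bool) :
    0 ≤ wt s1 s2 s3 b1 b2 b3 :=
  mul_nonneg (mul_nonneg (w1_nonneg s1 h1 b1) (w1_nonneg s2 h2 b2)) (w1_nonneg s3 h3 b3)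

theorem vs_one (s1 s2 s3 : ℝ) : vs s1 s2 s3 (fun _ _ _ => 1) = 1 := by
  unfold vs wt w1
  simp only [Fintype.sum_bool, if_true, Bool.false_eq_true, if_false]
  ring

/-- Hint: `interval_cases`-like on `k`: `k = 0, 1, 2` or `3 ≤ k` (then `k = 3`). -/
theorem vs_sv (s1 s2 s3 : ℝ) (k : ℕ) (hk : k < 4) :
    vs s1 s2 s3 (fun b1 b2 b3 => (sv b1 b2 b3 k : ℝ)) = sig s1 s2 s3 k := by
  unfold vs wt w1 sv sig
  have : k = 0 ∨ k = 1 ∨ k = 2 ∨ k = 3 := by omega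
  rcases this with rfl | rfl | rfl | rfl <;>
    simp only [Fintype.sum_bool, if_true, Bool.false_eq_true, if_false, OfNat.ofNat_ne_zero,
      OfNat.ofNat_ne_one, one_ne_zero, Nat.reduceEqDiff] <;> push_cast <;> ring

theorem vsC_sv (s1 s2 s3 : ℝ) (k : ℕ) (hk : k < 4) :
    vsC s1 s2 s3 (fun b1 b2 b3 => (sv b1 b2 b3 k : ℂ)) = (sig s1 s2 s3 k : ℂ) := by
  rw [← vs_sv s1 s2 s3 k hk]
  unfold vsC vs
  push_cast
  rfl

/-- convexity of the norm of an affine function -/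
theorem norm_sig_le (cx : Bool) (s1 s2 s3 : ℝ) (h1 : |s1| ≤ 1) (h2 : |s2| ≤ 1) (h3 : |s3| ≤ 1) (m : ℕ → ℂ) :
    ‖∑ k ∈ range (Kc cx), (sig s1 s2 s3 k : ℂ) * m k‖ ≤
      vs s1 s2 s3 (fun b1 b2 b3 => ‖∑ k ∈ range (Kc cx), (sv b1 b2 b3 k : ℂ) * m k‖) := by
  have hK : Kc cx ≤ 4 := by
    cases cx
    · exact (by norm_num : (3 : ℕ) ≤ 4)
    · exact le_rfl
  have h0 : ∑ k ∈ range (Kc cx), (sig s1 s2 s3 k : ℂ) * m k =
      ∑ b1 : Bool, ∑ b2 : Bool, ∑ b3 : Bool, (wt s1 s2 s3 b1 b2 b3 : ℂ) *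
        ∑ k ∈ range (Kc cx), (sv b1 b2 b3 k : ℂ) * m k := by
    have h5 : ∀ k ∈ range (Kc cx), (sig s1 s2 s3 k : ℂ) * m k =
        ∑ b1 : Bool, ∑ b2 : Bool, ∑ b3 : Bool, (wt s1 s2 s3 b1 b2 b3 : ℂ) *
          ((sv b1 b2 b3 k : ℂ) * m k) := by
      intro k hk
      rw [← vsC_sv s1 s2 s3 k (lt_of_lt_of_le (Finset.mem_range.1 hk) hK)]
      unfold vsC
      simp only [Finset.sum_mul, mul_assoc]
    rw [Finset.sum_congr rfl h5, Finset.sum_comm]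
    refine Finset.sum_congr rfl fun b1 _ => ?_
    rw [Finset.sum_comm]
    refine Finset.sum_congr rfl fun b2 _ => ?_
    rw [Finset.sum_comm]
    refine Finset.sum_congr rfl fun b3 _ => ?_
    rw [Finset.mul_sum]
  rw [h0]
  unfold vs
  refine (norm_sum_le _ _).trans (Finset.sum_le_sum fun b1 _ => ?_)
  refine (norm_sum_le _ _).trans (Finset.sum_le_sum fun b2 _ => ?_)
  refine (norm_sum_le _ _).trans (Finset.sum_le_sum fun b3 _ => ?_)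
  rw [norm_mul, Complex.norm_real, Real.norm_of_nonneg (wt_nonneg s1 s2 s3 h1 h2 h3 b1 b2 b3)]

theorem vs_mono (s1 s2 s3 : ℝ) (h1 : |s1| ≤ 1) (h2 : |s2| ≤ 1) (h3 : |s3| ≤ 1) (f g : Bool → Bool → Bool → ℝ)
    (h : ∀ b1 b2 b3, wt s1 s2 s3 b1 b2 b3 ≠ 0 → f b1 b2 b3 ≤ g b1 b2 b3) : vs s1 s2 s3 f ≤ vs s1 s2 s3 g := by
  unfold vs
  refine Finset.sum_le_sum fun b1 _ => Finset.sum_le_sum fun b2 _ => Finset.sum_le_sum fun b3 _ => ?_
  by_cases h0 : wt s1 s2 s3 b1 b2 b3 = 0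
  · rw [h0, zero_mul, zero_mul]
  · exact mul_le_mul_of_nonneg_left (h b1 b2 b3 h0) (wt_nonneg s1 s2 s3 h1 h2 h3 b1 b2 b3)

theorem wt_false (s1 s2 : ℝ) (b1 b2 b3 : Bool) (h : wt s1 s2 (-1) b1 b2 b3 ≠ 0) : b3 = false := by
  cases b3
  · rfl
  · exact absurd (by unfold wt w1; simp) h

end Pool.Agent.MaxTerm59b
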