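import Mathlib.Util.CompileInductive

/-! Integer check of affine dual certificates (generic part). All arithmetic is in `Nat`; signed numbers carry
offsets. Table digits have 100 bits (offset `2^99`), the trigonometric table has 48-bit fields (offset `2^41`,
scale `2^40`). The flag `cx` distinguishes the two uses: `cx = false`: three multiplier components, real functionals;
`cx = true`: four components, complex functionals. A vertex is given by three Booleans. -/

namespace Pool.Agent.MaxTerm59b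

def nwt (n g : Nat) : Nat := Nat.succ (Nat.div (Nat.add g (Nat.div n g)) 2)

def absS (x o : Nat) : Nat := Nat.add (Nat.sub x o) (Nat.sub o x)
def maxN (a b : Nat) : Nat := Nat.add a (Nat.sub b a)
def minN (a b : Nat) : Nat := Nat.sub a (Nat.sub a b)

/-- upper bound for the square root of a product (accurate if the factors differ by a factor at most `8`) -/
def sqP (a b : Nat) : Nat := (fun n => nwt n (nwt n (nwt n (Nat.succ (Nat.div (Nat.add a b) 2))))) (Nat.mul a b)

/-- upper bound for `√(x² + y²)` -/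
def hyp (x y : Nat) : Nat :=
  (fun n => nwt n (nwt n (Nat.add (maxN x y) (Nat.succ (Nat.div (Nat.mul 3 (minN x y)) 8))))) (Nat.add (Nat.mul x x) (Nat.mul y y))

/-- signed digit -/
def sg (T u : Nat) (b : Bool) : Nat := cond b u (Nat.sub T u)

/-- affine combination at a vertex, digits with offset `T/2` -/
def comb (cx : Bool) (T u0 u1 u2 u3 : Nat) (b1 b2 b3 : Bool) : Nat :=
  Nat.add (Nat.add u0 (sg T u1 b1)) (cond cx (Nat.add (sg T u2 b2) (sg T u3 b3)) (sg T u2 b2))

/-- number of components -/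
def Kc (cx : Bool) : Nat := cond cx 4 3

/-- read `c` pairs of fields of size `W` (low end first), Horner with multiplier `Z`; `q`: sum of the squares of the
fields, `s`: sum of the fields; the continuation gets the rest -/
def rd {β : Type} (W Z c : Nat) : Nat → Nat → Nat → Nat → Nat → (Nat → Nat → Nat → Nat → Nat → β) → β :=
  Nat.rec (motive := fun _ => Nat → Nat → Nat → Nat → Nat → (Nat → Nat → Nat → Nat → Nat → β) → β)
    (fun x re im q s k => k x re im q s)
    (fun _ ih x re im q s k =>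
      ih (Nat.div (Nat.div x W) W) (Nat.add (Nat.mul re Z) (Nat.mod x W))
        (Nat.add (Nat.mul im Z) (Nat.mod (Nat.div x W) W))
        (Nat.add q (Nat.add (Nat.mul (Nat.mod x W) (Nat.mod x W))
          (Nat.mul (Nat.mod (Nat.div x W) W) (Nat.mod (Nat.div x W) W))))
        (Nat.add s (Nat.add (Nat.mod x W) (Nat.mod (Nat.div x W) W))) k) c

/-- constants of a side: `n`, digits `D = K (2n+1)`, `M = 2^(100 D)`, step `Z = 2^(100(2n+1))`,
`o1 = 1024 (1 + Y + ... + Y^n)`, `o2 = 2^25 (1 + Z + ... + Z^(K-1))`, `OFF = 2^99 (1 + Y + ... + Y^(D-1))`,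
`q0 = 2 (n+1) 2^20` -/
structure SC where
  n1 : Nat
  M : Nat
  Z : Nat
  o1 : Nat
  o2 : Nat
  OFF : Nat
  q0 : Nat
  D : Nat
  w : Nat

def Y100 : Nat := 1267650600228229401496703205376

def mkSC (cx : Bool) (n : Nat) : SC :=
  let w := Nat.succ (Nat.mul 2 n)
  let D := Nat.mul (Kc cx) w
  let M := Nat.pow 2 (Nat.mul 100 D)
  ⟨Nat.succ n, M, Nat.pow 2 (Nat.mul 100 w),
    Nat.mul 1024 (Nat.div (Nat.sub (Nat.pow 2 (Nat.mul 100 (Nat.succ n))) 1) (Nat.sub Y100 1)),
    Nat.mul 33554432 (Nat.div (Nat.sub M 1) (Nat.sub (Nat.pow 2 (Nat.mul 100 w)) 1)),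
    Nat.mul 633825300114114700748351602688 (Nat.div (Nat.sub M 1) (Nat.sub Y100 1)),
    Nat.mul 2097152 (Nat.succ n), D, w⟩

/-- a decoded row: product with the multipliers (real and imaginary part, modulo `M`), upper bound of the product of
the norms (scale `2^20`), packed multipliers -/
structure RowD where
  pr : Nat
  pi : Nat
  nn : Nat
  mr : Nat
  mi : Nat

/-- `x - y` modulo `M` -/
def subM (M x y : Nat) : Nat := Nat.add x (Nat.sub M (Nat.mod y M))

def decode (cx : Bool) (c : SC) (x : Nat) : RowD :=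
  rd 2048 Y100 c.n1 x 0 0 0 0 fun x1 gr gi gq gs =>
    rd 2048 Y100 c.n1 x1 0 0 0 0 fun x2 hr hi hq hs =>
      rd 67108864 c.Z (Kc cx) x2 0 0 0 0 fun _ mr mi _ _ =>
        (fun Gr Gi Hr Hi Mr Mi =>
          (fun Pr Pi =>
            (⟨Nat.mod (Nat.add (Nat.mul Pr Mr) (subM c.M 0 (Nat.mul Pi Mi))) c.M,
              Nat.mod (Nat.add (Nat.mul Pr Mi) (Nat.mul Pi Mr)) c.M,
              sqP (Nat.sub (Nat.add gq c.q0) (Nat.mul 2048 gs)) (Nat.sub (Nat.add hq c.q0) (Nat.mul 2048 hs)),
              mr, mi⟩ : RowD))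
            (Nat.mod (Nat.add (Nat.mul Gr Hr) (Nat.mul Gi Hi)) c.M)
            (Nat.mod (Nat.add (Nat.mul Gi Hr) (subM c.M 0 (Nat.mul Gr Hi))) c.M))
          (subM c.M gr c.o1) (subM c.M gi c.o1) (subM c.M hr c.o1) (subM c.M hi c.o1)
          (subM c.M mr c.o2) (subM c.M mi c.o2)

/-- digit of a packed number in steps of `Z` -/
def dgZ (c : SC) (x k : Nat) : Nat := Nat.mod (Nat.shiftRight x (Nat.mul (Nat.mul 100 c.w) k)) 67108864

/-- cost of a row at a vertex (scale `2^46`) -/
def rowCost (cx : Bool) (c : SC) (r : RowD) (b1 b2 b3 : Bool) : Nat :=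
  Nat.mul r.nn (hyp
    (absS (comb cx 67108864 (dgZ c r.mr 0) (dgZ c r.mr 1) (dgZ c r.mr 2) (dgZ c r.mr 3) b1 b2 b3) (Nat.mul (Kc cx) 33554432))
    (absS (comb cx 67108864 (dgZ c r.mi 0) (dgZ c r.mi 1) (dgZ c r.mi 2) (dgZ c r.mi 3) b1 b2 b3) (Nat.mul (Kc cx) 33554432)))

/-- node: index `k + 31`, decoded rows -/
structure Nd where
  k : Nat
  rows : List RowD

def nodes (cx : Bool) (c : SC) (l : List (Nat × List Nat)) : List Nd :=
  List.rec (motive := fun _ => List Nd) [] (fun x _ ih => ⟨x.1, x.2.map (decode cx c)⟩ :: ih) l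

def costRows (cx : Bool) (c : SC) (b1 b2 b3 : Bool) (l : List RowD) : Nat → Nat :=
  List.rec (motive := fun _ => Nat → Nat) (fun a => a)
    (fun r _ ih a => ih (Nat.add a (rowCost cx c r b1 b2 b3))) l

def costNodes (cx : Bool) (c : SC) (b1 b2 b3 : Bool) (l : List Nd) : Nat → Nat :=
  List.rec (motive := fun _ => Nat → Nat) (fun a => a)
    (fun x _ ih a => ih (costRows cx c b1 b2 b3 x.rows a)) l

/-- summed node -/
structure Ns where
  k : Nat
  pr : Nat
  pi : Nat

def sumRows (l : List RowD) : Nat → Nat → (Nat → Nat → Ns) → Ns :=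
  List.rec (motive := fun _ => Nat → Nat → (Nat → Nat → Ns) → Ns) (fun a b k => k a b)
    (fun r _ ih a b k => ih (Nat.add a r.pr) (Nat.add b r.pi) k) l

def nsum (M : Nat) (l : List Nd) : List Ns :=
  List.rec (motive := fun _ => List Ns) []
    (fun x _ ih => sumRows x.rows 0 0 (fun a b => ⟨x.k, Nat.mod a M, Nat.mod b M⟩) :: ih) l

def tabG (T j : Nat) : Nat := Nat.mod (Nat.shiftRight T (Nat.mul 48 j)) 281474976710656

/-- sums over the nodes for the power `p`: `(Σ Pr C, Σ Pr S, Σ Pi C, Σ Pi S)` -/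
def momS {β : Type} (TC TS p : Nat) (nd : List Ns) : Nat → Nat → Nat → Nat → (Nat → Nat → Nat → Nat → β) → β :=
  List.rec (motive := fun _ => Nat → Nat → Nat → Nat → (Nat → Nat → Nat → Nat → β) → β)
    (fun rc rs ic is k => k rc rs ic is)
    (fun x _ ih rc rs ic is k =>
      (fun c s => ih (Nat.add rc (Nat.mul x.pr c)) (Nat.add rs (Nat.mul x.pr s))
        (Nat.add ic (Nat.mul x.pi c)) (Nat.add is (Nat.mul x.pi s)) k)
        (tabG TC (Nat.mul (absS x.k 31) p))
        (sg 4398046511104 (tabG TS (Nat.mul (absS x.k 31) p)) (Nat.ble 31 x.k))) nd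

def totR (nd : List Ns) : Nat := List.rec (motive := fun _ => Nat) 0 (fun x _ ih => Nat.add x.pr ih) nd
def totI (nd : List Ns) : Nat := List.rec (motive := fun _ => Nat) 0 (fun x _ ih => Nat.add x.pi ih) nd

/-- real part table: positions `P - p` and `P + p` for `p ≤ P` -/
def momR (TC TS P : Nat) (c : SC) (nd : List Ns) (a b : Nat) (cnt : Nat) : Nat → Nat :=
  Nat.rec (motive := fun _ => Nat → Nat) (fun acc => acc)
    (fun p ih acc => momS TC TS p nd 0 0 0 0 fun rc _ _ is =>
      -- `a = 2^41 Σ Pr`, `b = 2^41 Σ Pi`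
      ih (Nat.add acc (Nat.add
        (Nat.shiftLeft (Nat.mod (Nat.add (Nat.add rc b) (subM c.M c.OFF (Nat.add is a))) c.M)
          (Nat.mul (Nat.mul 100 c.D) (Nat.add P p)))
        (cond (Nat.beq p 0) 0
          (Nat.shiftLeft (Nat.mod (Nat.add (Nat.add rc is) (subM c.M c.OFF (Nat.add a b))) c.M)
            (Nat.mul (Nat.mul 100 c.D) (Nat.sub P p))))))) cnt

/-- imaginary part table -/
def momI (TC TS P : Nat) (c : SC) (nd : List Ns) (a b : Nat) (cnt : Nat) : Nat → Nat :=
  Nat.rec (motive := fun _ => Nat → Nat) (fun acc => acc)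
    (fun p ih acc => momS TC TS p nd 0 0 0 0 fun _ rs ic _ =>
      ih (Nat.add acc (Nat.add
        (Nat.shiftLeft (Nat.mod (Nat.add (Nat.add rs ic) (subM c.M c.OFF (Nat.add a b))) c.M)
          (Nat.mul (Nat.mul 100 c.D) (Nat.add P p)))
        (cond (Nat.beq p 0) 0
          (Nat.shiftLeft (Nat.mod (Nat.add (Nat.add ic a) (subM c.M c.OFF (Nat.add rs b))) c.M)
            (Nat.mul (Nat.mul 100 c.D) (Nat.sub P p))))))) cnt

/-- tables of a side -/
structure Tab where
  re : Nat
  im : Nat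
  P : Nat
  c : SC

def mkTab (cx : Bool) (TC TS P : Nat) (c : SC) (nd : List Ns) : Tab :=
  ⟨momR TC TS P c nd (Nat.mul 2199023255552 (totR nd)) (Nat.mul 2199023255552 (totI nd)) (Nat.succ P) 0,
    cond cx (momI TC TS P c nd (Nat.mul 2199023255552 (totR nd)) (Nat.mul 2199023255552 (totI nd)) (Nat.succ P) 0) 0,
    P, c⟩

/-- digit: class `cl' = cl + n`, power `pw' = pw + P`, component `k` -/
def dg (T : Nat) (c : SC) (cl pw k : Nat) : Nat :=
  Nat.mod (Nat.shiftRight T (Nat.mul 100 (Nat.add (Nat.mul (Nat.add (Nat.mul pw (Nat.div c.D c.w)) k) c.w) cl))) Y100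

/-- a slot: table, class, power, values at the vertices (scale `2^40`), errors -/
structure Slot where
  t : Tab
  cl : Nat
  pw : Nat
  ph : Bool → Bool → Bool → Nat
  e0 : Nat
  e1 : Nat
  e2 : Nat
  e3 : Nat

def O99 : Nat := 633825300114114700748351602688

/-- value of the functional (component form) at a vertex, offset `K 2^99` -/
def valT (cx : Bool) (T : Nat) (s : Slot) (b1 b2 b3 : Bool) : Nat :=
  comb cx Y100 (dg T s.t.c s.cl s.pw 0) (dg T s.t.c s.cl s.pw 1) (dg T s.t.c s.cl s.pw 2) (dg T s.t.c s.cl s.pw 3)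
    b1 b2 b3

def absD (cx : Bool) (s : Slot) (k : Nat) : Nat :=
  cond cx (hyp (absS (dg s.t.re s.t.c s.cl s.pw k) O99) (absS (dg s.t.im s.t.c s.cl s.pw k) O99))
    (absS (dg s.t.re s.t.c s.cl s.pw k) O99)

/-- interpolation error of a slot -/
def errS (cx : Bool) (s : Slot) : Nat :=
  Nat.add (Nat.add (Nat.mul s.e0 (absD cx s 0)) (Nat.mul s.e1 (absD cx s 1)))
    (cond cx (Nat.add (Nat.mul s.e2 (absD cx s 2)) (Nat.mul s.e3 (absD cx s 3))) (Nat.mul s.e2 (absD cx s 2)))

structure Item where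
  sl : List Slot
  grp : Nat
  cu : Bool

def sumRe (cx : Bool) (b1 b2 b3 : Bool) (l : List Slot) : Nat :=
  List.rec (motive := fun _ => Nat) 0
    (fun s _ ih => Nat.add (Nat.mul (s.ph b1 b2 b3) (valT cx s.t.re s b1 b2 b3)) ih) l
def sumIm (cx : Bool) (b1 b2 b3 : Bool) (l : List Slot) : Nat :=
  List.rec (motive := fun _ => Nat) 0
    (fun s _ ih => Nat.add (Nat.mul (s.ph b1 b2 b3) (valT cx s.t.im s b1 b2 b3)) ih) l
def sumPh (b1 b2 b3 : Bool) (l : List Slot) : Nat :=
  List.rec (motive := fun _ => Nat) 0 (fun s _ ih => Nat.add (s.ph b1 b2 b3) ih) l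
def sumErr (cx : Bool) (l : List Slot) : Nat :=
  List.rec (motive := fun _ => Nat) 0 (fun s _ ih => Nat.add (errS cx s) ih) l

/-- upper bound of the coefficient of an item at a vertex (scale `2^50`), errors included -/
def itemB (cx : Bool) (b1 b2 b3 : Bool) (l : List Slot) : Nat :=
  (fun o => Nat.add (Nat.succ (Nat.shiftRight (cond cx
      (hyp (absS (sumRe cx b1 b2 b3 l) o) (absS (sumIm cx b1 b2 b3 l) o))
      (absS (sumRe cx b1 b2 b3 l) o)) 76)) (Nat.succ (Nat.shiftRight (sumErr cx l) 76)))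
    (Nat.mul (sumPh b1 b2 b3 l) (Nat.mul (Kc cx) O99))

def hub (L B : Nat) : Nat :=
  cond (Nat.ble B (Nat.mul 2 L)) (Nat.succ (Nat.div (Nat.mul B B) (Nat.mul 4 L))) (Nat.sub B L)

/-- penalties at a vertex: total and the two maxima -/
def runI {β : Type} (cx : Bool) (b1 b2 b3 : Bool) (l1 l2 : Nat) (l : List Item) :
    Nat → Nat → Nat → (Nat → Nat → Nat → β) → β :=
  List.rec (motive := fun _ => Nat → Nat → Nat → (Nat → Nat → Nat → β) → β) (fun t x y k => k t x y)
    (fun it _ ih t x y k =>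
      (fun B => cond (Nat.beq it.grp 0) (ih (Nat.add t B) x y k)
        (cond (Nat.beq it.grp 1)
          ((fun H => ih (Nat.add t H) (cond it.cu (maxN x (Nat.sub B H)) x) y k) (hub l1 B))
          ((fun H => ih (Nat.add t H) x (cond it.cu (maxN y (Nat.sub B H)) y) k) (hub l2 B))))
        (itemB cx b1 b2 b3 it.sl)) l

/-- a constant: slot and its phase at the vertices (real and imaginary part of `value * phase`, offset `2^41`) -/
structure CSlot where
  s : Slot
  re : Bool → Bool → Bool → Nat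
  im : Bool → Bool → Bool → Nat

/-- main terms: positive part and negative part (the difference is the value) -/
def mainP (cx : Bool) (b1 b2 b3 : Bool) (l : List CSlot) : Nat :=
  List.rec (motive := fun _ => Nat) 0
    (fun s _ ih => Nat.add ih (Nat.add
      (Nat.add (Nat.mul (s.re b1 b2 b3) (valT cx s.s.t.re s.s b1 b2 b3)) (Nat.mul 2199023255552 (Nat.mul (Kc cx) O99)))
      (cond cx (Nat.add (Nat.mul 2199023255552 (valT cx s.s.t.im s.s b1 b2 b3))
        (Nat.mul (s.im b1 b2 b3) (Nat.mul (Kc cx) O99))) 0))) l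
def mainN (cx : Bool) (b1 b2 b3 : Bool) (l : List CSlot) : Nat :=
  List.rec (motive := fun _ => Nat) 0
    (fun s _ ih => Nat.add ih (Nat.add
      (Nat.add (Nat.mul 2199023255552 (valT cx s.s.t.re s.s b1 b2 b3)) (Nat.mul (s.re b1 b2 b3) (Nat.mul (Kc cx) O99)))
      (cond cx (Nat.add (Nat.mul (s.im b1 b2 b3) (valT cx s.s.t.im s.s b1 b2 b3))
        (Nat.mul 2199023255552 (Nat.mul (Kc cx) O99))) 0))) l
def mainE (cx : Bool) (l : List CSlot) : Nat :=
  List.rec (motive := fun _ => Nat) 0 (fun s _ ih => Nat.add (errS cx s.s) ih) l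

/-- final comparison at a vertex: `c` cost (scale `2^46`) -/
def finV (tail E1 E2 ec c m o t x y l1 l2 : Nat) : Bool :=
  (fun cost => Nat.blt (Nat.add o (Nat.shiftLeft (Nat.add (Nat.add ec (Nat.add t (Nat.add x y)))
    (Nat.add (Nat.succ (Nat.div (Nat.mul cost 170919) 100000)) (Nat.add (Nat.succ (Nat.shiftRight (Nat.mul tail cost) 40))
      (Nat.add (Nat.succ (Nat.shiftRight cost 27)) (Nat.add (Nat.succ (Nat.shiftRight (Nat.mul l1 E1) 40))
        (Nat.succ (Nat.shiftRight (Nat.mul l2 E2) 40))))))) 76)) m) (Nat.mul 16 c)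

end Pool.Agent.MaxTerm59b
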