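import Pool.Agent.MaxTerm59b.DecC
import Pool.Agent.MaxTerm59b.Cmb

/-! The cost of the rows. -/

namespace Pool.Agent.MaxTerm59b
open Finset

private theorem costS_comb (cx : Bool) (u : ℕ → ℕ) (v : ℕ → ℤ) (b1 b2 b3 : Bool)
    (hu : ∀ k < Kc cx, (u k : ℤ) = v k + 33554432) (hl : ∀ k < Kc cx, u k < 67108864) :
    (absS (comb cx 67108864 (u 0) (u 1) (u 2) (u 3) b1 b2 b3) (Kc cx * 33554432) : ℤ) =
      |∑ k ∈ range (Kc cx), sv b1 b2 b3 k * v k| := by
  rw [absS_eq, comb_eq cx 67108864 33554432 u b1 b2 b3 (by norm_num) (fun k hk => (hl k hk).le)]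
  congr 1
  have h1 : ∑ k ∈ range (Kc cx), sv b1 b2 b3 k * ((u k : ℤ) - (33554432 : ℕ)) =
      ∑ k ∈ range (Kc cx), sv b1 b2 b3 k * v k := by
    refine Finset.sum_congr rfl fun k hk => ?_
    rw [hu k (Finset.mem_range.1 hk)]
    push_cast
    ring
  rw [h1]
  push_cast
  ring

/-- a row at a vertex. Hint: `dgZ_mr`, `dgZ_mi`, `comb_eq` (`h = 2^25`), `absS_eq`, `hyp_sq`/`norm_hyp`. -/
theorem rowCost_ge (cx : Bool) (n x : ℕ) (b1 b2 b3 : Bool) :
    ((decode cx (mkSC cx n) x).nn : ℝ) *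
      ‖∑ k ∈ range (Kc cx), (sv b1 b2 b3 k : ℂ) * ((mF cx n x k : GI) : ℂ)‖ ≤
      rowCost cx (mkSC cx n) (decode cx (mkSC cx n) x) b1 b2 b3 := by
  have hlt : ∀ y k, dgZ (mkSC cx n) y k < 67108864 := fun y k => by
    unfold dgZ
    exact Nat.mod_lt _ (by norm_num)
  have h1 := costS_comb cx (fun k => dgZ (mkSC cx n) (decode cx (mkSC cx n) x).mr k)
    (fun k => (mF cx n x k).re) b1 b2 b3 (fun k hk => dgZ_mr cx n x k hk) (fun k _ => hlt _ k)
  have h2 := costS_comb cx (fun k => dgZ (mkSC cx n) (decode cx (mkSC cx n) x).mi k)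
    (fun k => (mF cx n x k).im) b1 b2 b3 (fun k hk => dgZ_mi cx n x k hk) (fun k _ => hlt _ k)
  have h3 : ∑ k ∈ range (Kc cx), (sv b1 b2 b3 k : ℂ) * ((mF cx n x k : GI) : ℂ) =
      (⟨((∑ k ∈ range (Kc cx), sv b1 b2 b3 k * (mF cx n x k).re : ℤ) : ℝ),
        ((∑ k ∈ range (Kc cx), sv b1 b2 b3 k * (mF cx n x k).im : ℤ) : ℝ)⟩ : ℂ) := by
    apply Complex.ext
    · rw [Complex.re_sum]
      push_cast
      refine Finset.sum_congr rfl fun k _ => ?_
      simp [Complex.mul_re]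
    · rw [Complex.im_sum]
      push_cast
      refine Finset.sum_congr rfl fun k _ => ?_
      simp [Complex.mul_im]
  rw [h3]
  unfold rowCost
  simp only [Nat.mul_eq, Nat.cast_mul]
  refine mul_le_mul_of_nonneg_left ?_ (Nat.cast_nonneg _)
  exact norm_hyp _ _ _ _ h1.ge h2.ge

private theorem costRows_gen (g : RowD → ℕ) (l : List RowD) (a : ℕ) :
    (List.rec (motive := fun _ => ℕ → ℕ) (fun a => a)
      (fun r _ ih a => ih (Nat.add a (g r))) l : ℕ → ℕ) a = a + (l.map g).sum := by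
  induction l generalizing a with
  | nil => simp
  | cons r l ih =>
    have h := ih (a + g r)
    rw [List.map_cons, List.sum_cons, ← Nat.add_assoc]
    exact h

private theorem costRows_eq (cx : Bool) (c : SC) (b1 b2 b3 : Bool) (l : List RowD) (a : ℕ) :
    costRows cx c b1 b2 b3 l a = a + (l.map fun r => rowCost cx c r b1 b2 b3).sum :=
  costRows_gen (fun r => rowCost cx c r b1 b2 b3) l a

/-- the rows of a list of nodes -/
theorem costNodes_eq (cx : Bool) (n : ℕ) (b1 b2 b3 : Bool) (l : List (ℕ × List ℕ)) (a : ℕ) :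
    costNodes cx (mkSC cx n) b1 b2 b3 (nodes cx (mkSC cx n) l) a =
      a + (l.map fun nd => (nd.2.map fun x =>
        rowCost cx (mkSC cx n) (decode cx (mkSC cx n) x) b1 b2 b3).sum).sum := by
  induction l generalizing a with
  | nil => simp [costNodes, nodes]
  | cons x l ih =>
    have h : costNodes cx (mkSC cx n) b1 b2 b3 (nodes cx (mkSC cx n) (x :: l)) a =
        costNodes cx (mkSC cx n) b1 b2 b3 (nodes cx (mkSC cx n) l)
          (costRows cx (mkSC cx n) b1 b2 b3 (x.2.map (decode cx (mkSC cx n))) a) := rfl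
    rw [h, ih, costRows_eq, List.map_cons, List.sum_cons, List.map_map, Nat.add_assoc]
    rfl

/-- total cost of a side for the affine parameters -/
noncomputable def costS (cx : Bool) (n : ℕ) (s1 s2 s3 : ℝ) (l : List (ℕ × List ℕ)) : ℝ :=
  (l.map fun nd => (nd.2.map fun x => ((decode cx (mkSC cx n) x).nn : ℝ) *
    ‖∑ k ∈ range (Kc cx), (sig s1 s2 s3 k : ℂ) * ((mF cx n x k : GI) : ℂ)‖).sum).sum

theorem costS_nonneg (cx : Bool) (n : ℕ) (s1 s2 s3 : ℝ) (l : List (ℕ × List ℕ)) : 0 ≤ costS cx n s1 s2 s3 l := by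
  unfold costS
  refine List.sum_nonneg fun y hy => ?_
  obtain ⟨nd, _, rfl⟩ := List.mem_map.1 hy
  refine List.sum_nonneg fun z hz => ?_
  obtain ⟨x, _, rfl⟩ := List.mem_map.1 hz
  positivity

private theorem costS_vs_zero (s1 s2 s3 : ℝ) : vs s1 s2 s3 (fun _ _ _ => 0) = 0 := by
  simp [vs]

private theorem costS_vs_add (s1 s2 s3 : ℝ) (f g : Bool → Bool → Bool → ℝ) :
    vs s1 s2 s3 (fun b1 b2 b3 => f b1 b2 b3 + g b1 b2 b3) = vs s1 s2 s3 f + vs s1 s2 s3 g := by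
  unfold vs
  simp only [mul_add, Finset.sum_add_distrib]

private theorem costS_vs_mul (s1 s2 s3 c : ℝ) (f : Bool → Bool → Bool → ℝ) :
    vs s1 s2 s3 (fun b1 b2 b3 => c * f b1 b2 b3) = c * vs s1 s2 s3 f := by
  unfold vs
  simp only [Finset.mul_sum]
  refine Finset.sum_congr rfl fun b1 _ => Finset.sum_congr rfl fun b2 _ =>
    Finset.sum_congr rfl fun b3 _ => ?_
  ring

private theorem costS_vs_list {α : Type*} (s1 s2 s3 : ℝ) (F : Bool → Bool → Bool → α → ℝ)
    (l : List α) :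
    vs s1 s2 s3 (fun b1 b2 b3 => (l.map (F b1 b2 b3)).sum) =
      (l.map fun x => vs s1 s2 s3 (fun b1 b2 b3 => F b1 b2 b3 x)).sum := by
  induction l with
  | nil => simp [costS_vs_zero]
  | cons x l ih =>
    simp only [List.map_cons, List.sum_cons]
    rw [costS_vs_add, ih]

/-- Hint: `norm_sig_le`, `rowCost_ge`, `costNodes_eq`; `vs` commutes with list sums. -/
theorem costS_le (cx : Bool) (n : ℕ) (s1 s2 s3 : ℝ) (h1 : |s1| ≤ 1) (h2 : |s2| ≤ 1) (h3 : |s3| ≤ 1)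
    (l : List (ℕ × List ℕ)) :
    costS cx n s1 s2 s3 l ≤
      vs s1 s2 s3 (fun b1 b2 b3 => (costNodes cx (mkSC cx n) b1 b2 b3 (nodes cx (mkSC cx n) l) 0 : ℝ)) := by
  have e1 : (fun b1 b2 b3 => (costNodes cx (mkSC cx n) b1 b2 b3 (nodes cx (mkSC cx n) l) 0 : ℝ)) =
      fun b1 b2 b3 => (l.map fun nd => (nd.2.map fun x =>
        (rowCost cx (mkSC cx n) (decode cx (mkSC cx n) x) b1 b2 b3 : ℝ)).sum).sum := by
    funext b1 b2 b3
    rw [costNodes_eq, Nat.zero_add, Nat.cast_list_sum, List.map_map]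
    congr 1
    refine List.map_congr_left fun nd _ => ?_
    simp only [Function.comp_apply, Nat.cast_list_sum, List.map_map]
    rfl
  rw [e1, costS_vs_list s1 s2 s3 (fun b1 b2 b3 (nd : ℕ × List ℕ) => (nd.2.map fun x =>
        (rowCost cx (mkSC cx n) (decode cx (mkSC cx n) x) b1 b2 b3 : ℝ)).sum)]
  unfold costS
  refine List.sum_le_sum fun nd _ => ?_
  rw [costS_vs_list s1 s2 s3 (fun b1 b2 b3 (x : ℕ) =>
        (rowCost cx (mkSC cx n) (decode cx (mkSC cx n) x) b1 b2 b3 : ℝ))]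
  refine List.sum_le_sum fun x _ => ?_
  refine (mul_le_mul_of_nonneg_left (norm_sig_le cx s1 s2 s3 h1 h2 h3
    (fun k => ((mF cx n x k : GI) : ℂ))) (Nat.cast_nonneg _)).trans ?_
  rw [← costS_vs_mul]
  exact vs_mono s1 s2 s3 h1 h2 h3 _ _ fun b1 b2 b3 _ => rowCost_ge cx n x b1 b2 b3

end Pool.Agent.MaxTerm59b
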