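import Pool.Agent.MaxTerm59b.ScA

/-! The constants of a side. -/

namespace Pool.Agent.MaxTerm59b
open Finset

/-- subtraction modulo `M` -/
theorem subM_modEq (M x y : ℕ) (hM : 0 < M) : ((subM M x y : ℕ) : ℤ) ≡ (x : ℤ) - y [ZMOD M] := by
  have h1 : subM M x y = x + (M - y % M) := rfl
  have h2 : y % M ≤ M := (Nat.mod_lt y hM).le
  rw [h1, Nat.cast_add, Nat.cast_sub h2, Int.natCast_mod]
  have h3 : ((y : ℤ) % (M : ℤ)) ≡ (y : ℤ) [ZMOD M] := Int.mod_modEq _ _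
  have h4 : ((M : ℤ) - (y : ℤ) % M) ≡ 0 - (y : ℤ) [ZMOD M] :=
    Int.ModEq.sub (by simp [Int.ModEq]) h3
  have h5 := (Int.ModEq.refl (x : ℤ)).add h4
  have h6 : (x : ℤ) + (0 - (y : ℤ)) = x - y := by ring
  rw [h6] at h5
  exact h5

/-- digit of a packed number with nonnegative digits -/
theorem digit_nat (B D : ℕ) (hB : 0 < B) (f : ℕ → ℕ) (hf : ∀ i < D, f i < B) (i : ℕ) (hi : i < D) :
    (∑ j ∈ range D, f j * B ^ j) / B ^ i % B = f i := by
  induction i generalizing f D with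
  | zero =>
    obtain ⟨D', rfl⟩ : ∃ D', D = D' + 1 := ⟨D - 1, by omega⟩
    rw [Finset.sum_range_succ', pow_zero, Nat.div_one, mul_one]
    have h1 : ∑ k ∈ range D', f (k + 1) * B ^ (k + 1) = B * ∑ k ∈ range D', f (k + 1) * B ^ k := by
      rw [Finset.mul_sum]
      exact Finset.sum_congr rfl (fun k _ => by ring)
    rw [h1, Nat.mul_add_mod, Nat.mod_eq_of_lt (hf 0 (by omega))]
  | succ i ih =>
    obtain ⟨D', rfl⟩ : ∃ D', D = D' + 1 := ⟨D - 1, by omega⟩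
    rw [Finset.sum_range_succ', pow_zero, mul_one]
    have h1 : ∑ k ∈ range D', f (k + 1) * B ^ (k + 1) = B * ∑ k ∈ range D', f (k + 1) * B ^ k := by
      rw [Finset.mul_sum]
      exact Finset.sum_congr rfl (fun k _ => by ring)
    rw [h1, pow_succ', ← Nat.div_div_eq_div_mul, Nat.mul_add_div hB,
      Nat.div_eq_of_lt (hf 0 (by omega)), add_zero]
    exact ih D' (fun k => f (k + 1)) (fun k hk => hf (k + 1) (by omega)) (by omega)

theorem packed_lt (B D : ℕ) (hB : 0 < B) (f : ℕ → ℕ) (hf : ∀ i < D, f i < B) :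
    ∑ j ∈ range D, f j * B ^ j < B ^ D := by
  induction D with
  | zero => simp
  | succ D ih =>
    rw [Finset.sum_range_succ]
    have h1 := ih (fun i hi => hf i (by omega))
    have h2 := hf D (by omega)
    have h3 : f D * B ^ D + B ^ D ≤ B * B ^ D := by
      have : (f D + 1) * B ^ D ≤ B * B ^ D := Nat.mul_le_mul_right _ h2
      linarith [this, Nat.add_mul (f D) 1 (B ^ D)]
    rw [pow_succ']
    omega

/-- digit of a number congruent to a packed integer plus offset; `x < M = Y^D` -/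
theorem digit_off (D x : ℕ) (f : ℕ → ℤ) (hf : ∀ i < D, |f i| < 2 ^ 99) (hx : x < Y100 ^ D)
    (h : (x : ℤ) ≡ ∑ j ∈ range D, f j * (Y100 : ℤ) ^ j + 2 ^ 99 * ∑ j ∈ range D, (Y100 : ℤ) ^ j
      [ZMOD ((Y100 : ℤ) ^ D)]) (i : ℕ) (hi : i < D) :
    ((x / Y100 ^ i % Y100 : ℕ) : ℤ) = f i + 2 ^ 99 := by
  have hY : Y100 = 2 ^ 100 := Y100_eq
  have hYpos : 0 < Y100 := by rw [hY]; positivity
  have hnn : ∀ j < D, 0 ≤ f j + 2 ^ 99 := by
    intro j hj
    have := (abs_lt.1 (hf j hj)).1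
    linarith
  set g : ℕ → ℕ := fun j => (f j + 2 ^ 99).toNat with hg
  have hgc : ∀ j < D, ((g j : ℕ) : ℤ) = f j + 2 ^ 99 := fun j hj => Int.toNat_of_nonneg (hnn j hj)
  have hglt : ∀ j < D, g j < Y100 := by
    intro j hj
    have h1 := (abs_lt.1 (hf j hj)).2
    have h2 : ((g j : ℕ) : ℤ) < 2 ^ 100 := by
      rw [hgc j hj]
      have : (2 : ℤ) ^ 100 = 2 ^ 99 + 2 ^ 99 := by norm_num
      linarith
    rw [hY]
    exact_mod_cast h2
  have hsum : ((∑ j ∈ range D, g j * Y100 ^ j : ℕ) : ℤ) =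
      ∑ j ∈ range D, f j * (Y100 : ℤ) ^ j + 2 ^ 99 * ∑ j ∈ range D, (Y100 : ℤ) ^ j := by
    rw [Nat.cast_sum, Finset.mul_sum, ← Finset.sum_add_distrib]
    apply Finset.sum_congr rfl
    intro j hj
    rw [Nat.cast_mul, Nat.cast_pow, hgc j (Finset.mem_range.1 hj)]
    ring
  rw [← hsum] at h
  have hlt := packed_lt Y100 D hYpos g hglt
  have h2 : x = ∑ j ∈ range D, g j * Y100 ^ j := by
    have h3 : ((x : ℕ) : ℤ) ≡ ((∑ j ∈ range D, g j * Y100 ^ j : ℕ) : ℤ)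
        [ZMOD ((Y100 ^ D : ℕ) : ℤ)] := by
      rw [Nat.cast_pow]
      exact h
    exact Nat.ModEq.eq_of_lt_of_lt (Int.natCast_modEq_iff.1 h3) hx hlt
  rw [h2, digit_nat Y100 D hYpos g hglt i hi]
  exact hgc i hi

end Pool.Agent.MaxTerm59b
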