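import Pool.Agent.MaxTerm59b.RdS
import Pool.Agent.MaxTerm59b.DigA
import Pool.Agent.MaxTerm59b.Ar

/-! Decoded rows. -/

namespace Pool.Agent.MaxTerm59b
open Finset

/-- packed product of a row with its multipliers -/
def rowP (cx : Bool) (n x : ℕ) : GI :=
  ∑ k ∈ range (Kc cx), ∑ e ∈ range (2 * n + 1), gam n x e * mF cx n x k * ((Y100 : ℤ) : GI) ^ (k * (2 * n + 1) + e)

/-- Algebra: `(∑ g_a Y^a) (∑ conj h_b Y^(n-b)) = ∑ gam e Y^e`. -/
theorem gam_conv (n x : ℕ) (Y : GI) :
    (∑ a ∈ range (n + 1), gF n x a * Y ^ a) * (∑ b ∈ range (n + 1), star (hF n x b) * Y ^ (n - b)) =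
      ∑ e ∈ range (2 * n + 1), gam n x e * Y ^ e := by
  have hR : ∀ e ∈ range (2 * n + 1), gam n x e * Y ^ e =
      ∑ a ∈ range (n + 1), ∑ b ∈ range (n + 1),
        if e = a + (n - b) then star (hF n x b) * gF n x a * Y ^ e else 0 := by
    intro e _
    rw [gam, Finset.sum_mul]
    refine Finset.sum_congr rfl fun a _ => ?_
    rw [Finset.sum_mul]
    refine Finset.sum_congr rfl fun b hb => ?_
    have hb' : b ≤ n := by
      have := Finset.mem_range.1 hb
      omega
    by_cases h : a + n = e + b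
    · rw [if_pos h, if_pos (by omega)]
    · rw [if_neg h, if_neg (by omega), zero_mul]
  rw [Finset.sum_congr rfl hR, Finset.sum_comm, Finset.sum_mul]
  refine Finset.sum_congr rfl fun a ha => ?_
  rw [Finset.sum_comm, Finset.mul_sum]
  refine Finset.sum_congr rfl fun b hb => ?_
  have ha' : a < n + 1 := Finset.mem_range.1 ha
  have hb' : b < n + 1 := Finset.mem_range.1 hb
  rw [Finset.sum_ite_eq' (range (2 * n + 1)) (a + (n - b))
    (fun e => star (hF n x b) * gF n x a * Y ^ e), if_pos (Finset.mem_range.2 (by omega)), pow_add]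
  ring

theorem rowP_eq (cx : Bool) (n x : ℕ) :
    rowP cx n x = (∑ a ∈ range (n + 1), gF n x a * ((Y100 : ℤ) : GI) ^ a) *
      (∑ b ∈ range (n + 1), star (hF n x b) * ((Y100 : ℤ) : GI) ^ (n - b)) *
      (∑ k ∈ range (Kc cx), mF cx n x k * (((Y100 : ℤ) : GI) ^ (2 * n + 1)) ^ k) := by
  rw [gam_conv, rowP, Finset.mul_sum]
  refine Finset.sum_congr rfl fun k _ => ?_
  rw [Finset.sum_mul]
  refine Finset.sum_congr rfl fun e _ => ?_
  rw [pow_add, ← pow_mul, mul_comm (2 * n + 1) k]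
  ring

end Pool.Agent.MaxTerm59b
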