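import Pool.Agent.MaxTerm59b.DecA

/-! Decoded rows. -/

namespace Pool.Agent.MaxTerm59b
open Finset

private theorem DecB_mod (M a : ℕ) : ((a % M : ℕ) : ℤ) ≡ (a : ℤ) [ZMOD M] := by
  rw [Int.natCast_mod]
  exact Int.mod_modEq _ _

private theorem DecB_sub (M x y : ℕ) (hM : 0 < M) (a : ℤ) (h : (x : ℤ) - y = a) :
    ((subM M x y : ℕ) : ℤ) ≡ a [ZMOD M] := by
  have h1 := subM_modEq M x y hM
  rwa [h] at h1

private theorem DecB_add {M x y : ℕ} {a b : ℤ} (hx : (x : ℤ) ≡ a [ZMOD M]) (hy : (y : ℤ) ≡ b [ZMOD M]) :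
    ((x + y : ℕ) : ℤ) ≡ a + b [ZMOD M] := by
  push_cast
  exact hx.add hy

private theorem DecB_mul {M x y : ℕ} {a b : ℤ} (hx : (x : ℤ) ≡ a [ZMOD M]) (hy : (y : ℤ) ≡ b [ZMOD M]) :
    ((x * y : ℕ) : ℤ) ≡ a * b [ZMOD M] := by
  push_cast
  exact hx.mul hy

private theorem DecB_neg {M x : ℕ} (hM : 0 < M) {a : ℤ} (hx : (x : ℤ) ≡ a [ZMOD M]) :
    ((subM M 0 x : ℕ) : ℤ) ≡ -a [ZMOD M] := by
  have h1 := subM_modEq M 0 x hM
  refine h1.trans ?_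
  have h2 := hx.neg
  simpa using h2

/-- the arithmetic of `decode` -/
private theorem DecB_core {M Gr Gi Hr Hi Mr Mi : ℕ} (hM : 0 < M) {ar ai br bi cr ci : ℤ}
    (h1 : (Gr : ℤ) ≡ ar [ZMOD M]) (h2 : (Gi : ℤ) ≡ ai [ZMOD M])
    (h3 : (Hr : ℤ) ≡ br [ZMOD M]) (h4 : (Hi : ℤ) ≡ bi [ZMOD M])
    (h5 : (Mr : ℤ) ≡ cr [ZMOD M]) (h6 : (Mi : ℤ) ≡ ci [ZMOD M]) :
    (((((Gr * Hr + Gi * Hi) % M) * Mr + subM M 0 (((Gi * Hr + subM M 0 (Gr * Hi)) % M) * Mi)) % M : ℕ) : ℤ) ≡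
      (ar * br + ai * bi) * cr + -((ai * br + -(ar * bi)) * ci) [ZMOD M] ∧
    (((((Gr * Hr + Gi * Hi) % M) * Mi + ((Gi * Hr + subM M 0 (Gr * Hi)) % M) * Mr) % M : ℕ) : ℤ) ≡
      (ar * br + ai * bi) * ci + (ai * br + -(ar * bi)) * cr [ZMOD M] := by
  have hP : (((Gr * Hr + Gi * Hi) % M : ℕ) : ℤ) ≡ ar * br + ai * bi [ZMOD M] :=
    (DecB_mod M _).trans (DecB_add (DecB_mul h1 h3) (DecB_mul h2 h4))
  have hQ : (((Gi * Hr + subM M 0 (Gr * Hi)) % M : ℕ) : ℤ) ≡ ai * br + -(ar * bi) [ZMOD M] :=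
    (DecB_mod M _).trans (DecB_add (DecB_mul h2 h3) (DecB_neg hM (DecB_mul h1 h4)))
  exact ⟨(DecB_mod M _).trans (DecB_add (DecB_mul hP h5) (DecB_neg hM (DecB_mul hQ h6))),
    (DecB_mod M _).trans (DecB_add (DecB_mul hP h6) (DecB_mul hQ h5))⟩

private theorem DecB_re (s : Finset ℕ) (f : ℕ → GI) : (∑ i ∈ s, f i).re = ∑ i ∈ s, (f i).re := by
  classical
  induction s using Finset.induction_on with
  | empty => simp
  | insert a s ha ih => rw [sum_insert ha, sum_insert ha, Zsqrtd.re_add, ih]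

private theorem DecB_im (s : Finset ℕ) (f : ℕ → GI) : (∑ i ∈ s, f i).im = ∑ i ∈ s, (f i).im := by
  classical
  induction s using Finset.induction_on with
  | empty => simp
  | insert a s ha ih => rw [sum_insert ha, sum_insert ha, Zsqrtd.im_add, ih]

private theorem DecB_mulre (z : GI) (y : ℤ) (k : ℕ) : (z * ((y : ℤ) : GI) ^ k).re = z.re * y ^ k := by
  rw [← Int.cast_pow, Zsqrtd.re_mul, Zsqrtd.re_intCast, Zsqrtd.im_intCast]
  ring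

private theorem DecB_mulim (z : GI) (y : ℤ) (k : ℕ) : (z * ((y : ℤ) : GI) ^ k).im = z.im * y ^ k := by
  rw [← Int.cast_pow, Zsqrtd.im_mul, Zsqrtd.re_intCast, Zsqrtd.im_intCast]
  ring

private theorem DecB_sumre (s : Finset ℕ) (f : ℕ → GI) (y : ℤ) (e : ℕ → ℕ) :
    (∑ i ∈ s, f i * ((y : ℤ) : GI) ^ e i).re = ∑ i ∈ s, (f i).re * y ^ e i := by
  rw [DecB_re]
  exact sum_congr rfl fun i _ => DecB_mulre _ _ _

private theorem DecB_sumim (s : Finset ℕ) (f : ℕ → GI) (y : ℤ) (e : ℕ → ℕ) :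
    (∑ i ∈ s, f i * ((y : ℤ) : GI) ^ e i).im = ∑ i ∈ s, (f i).im * y ^ e i := by
  rw [DecB_im]
  exact sum_congr rfl fun i _ => DecB_mulim _ _ _

private theorem DecB_both (cx : Bool) (n x : ℕ) :
    ((decode cx (mkSC cx n) x).pr : ℤ) ≡ (rowP cx n x).re [ZMOD ((Y100 : ℤ) ^ (Kc cx * (2 * n + 1)))] ∧
    ((decode cx (mkSC cx n) x).pi : ℤ) ≡ (rowP cx n x).im [ZMOD ((Y100 : ℤ) ^ (Kc cx * (2 * n + 1)))] := by
  have hM : (mkSC cx n).M = Y100 ^ (Kc cx * (2 * n + 1)) := mkSC_M cx n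
  have hM0 : 0 < (mkSC cx n).M := by
    rw [hM]
    exact pow_pos (by norm_num [Y100]) _
  have hMc : ((Y100 : ℤ) ^ (Kc cx * (2 * n + 1))) = (((mkSC cx n).M : ℕ) : ℤ) := by
    rw [hM]
    push_cast
    rfl
  have hn1 : (mkSC cx n).n1 = n + 1 := mkSC_n1 cx n
  have ho1 : (((mkSC cx n).o1 : ℕ) : ℤ) = 1024 * ∑ a ∈ range (n + 1), (Y100 : ℤ) ^ a := by
    rw [mkSC_o1]
    push_cast
    rfl
  have ho2 : (((mkSC cx n).o2 : ℕ) : ℤ) =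
      33554432 * ∑ k ∈ range (Kc cx), (((mkSC cx n).Z : ℕ) : ℤ) ^ k := by
    rw [mkSC_o2, mkSC_Z]
    push_cast
    rfl
  obtain ⟨g1, g2⟩ := packG n x
  obtain ⟨h1, h2⟩ := packH n x
  obtain ⟨m1, m2⟩ := packM cx n x (mkSC cx n).Z
  have hZ : (((mkSC cx n).Z : ℕ) : ℤ) = (Y100 : ℤ) ^ (2 * n + 1) := by
    rw [mkSC_Z]
    push_cast
    rfl
  have e : ∀ w : GI → ℤ, ∑ k ∈ range (Kc cx), (w (mF cx n x k) + 33554432) * (((mkSC cx n).Z : ℕ) : ℤ) ^ k =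
      ∑ k ∈ range (Kc cx), w (mF cx n x k) * (((mkSC cx n).Z : ℕ) : ℤ) ^ k +
        33554432 * ∑ k ∈ range (Kc cx), (((mkSC cx n).Z : ℕ) : ℤ) ^ k := by
    intro w
    rw [mul_sum, ← sum_add_distrib]
    exact sum_congr rfl fun k _ => by ring
  have key := DecB_core hM0
    (DecB_sub (mkSC cx n).M _ (mkSC cx n).o1 hM0 _ (sub_eq_iff_eq_add.2 (g1.trans (congrArg _ ho1.symm))))
    (DecB_sub (mkSC cx n).M _ (mkSC cx n).o1 hM0 _ (sub_eq_iff_eq_add.2 (g2.trans (congrArg _ ho1.symm))))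
    (DecB_sub (mkSC cx n).M _ (mkSC cx n).o1 hM0 _ (sub_eq_iff_eq_add.2 (h1.trans (congrArg _ ho1.symm))))
    (DecB_sub (mkSC cx n).M _ (mkSC cx n).o1 hM0 _ (sub_eq_iff_eq_add.2 (h2.trans (congrArg _ ho1.symm))))
    (DecB_sub (mkSC cx n).M _ (mkSC cx n).o2 hM0 _
      (sub_eq_iff_eq_add.2 ((m1.trans (e fun z => z.re)).trans (congrArg _ ho2.symm))))
    (DecB_sub (mkSC cx n).M _ (mkSC cx n).o2 hM0 _
      (sub_eq_iff_eq_add.2 ((m2.trans (e fun z => z.im)).trans (congrArg _ ho2.symm))))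
  have hrow : (rowP cx n x).re =
      ((∑ a ∈ range (n + 1), (gF n x a).re * (Y100 : ℤ) ^ a) *
        (∑ b ∈ range (n + 1), (hF n x b).re * (Y100 : ℤ) ^ (n - b)) +
      (∑ a ∈ range (n + 1), (gF n x a).im * (Y100 : ℤ) ^ a) *
        (∑ b ∈ range (n + 1), (hF n x b).im * (Y100 : ℤ) ^ (n - b))) *
        (∑ k ∈ range (Kc cx), (mF cx n x k).re * (((mkSC cx n).Z : ℕ) : ℤ) ^ k) +
      -(((∑ a ∈ range (n + 1), (gF n x a).im * (Y100 : ℤ) ^ a) *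
        (∑ b ∈ range (n + 1), (hF n x b).re * (Y100 : ℤ) ^ (n - b)) +
      -((∑ a ∈ range (n + 1), (gF n x a).re * (Y100 : ℤ) ^ a) *
        (∑ b ∈ range (n + 1), (hF n x b).im * (Y100 : ℤ) ^ (n - b)))) *
        (∑ k ∈ range (Kc cx), (mF cx n x k).im * (((mkSC cx n).Z : ℕ) : ℤ) ^ k)) ∧
      (rowP cx n x).im =
      ((∑ a ∈ range (n + 1), (gF n x a).re * (Y100 : ℤ) ^ a) *
        (∑ b ∈ range (n + 1), (hF n x b).re * (Y100 : ℤ) ^ (n - b)) +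
      (∑ a ∈ range (n + 1), (gF n x a).im * (Y100 : ℤ) ^ a) *
        (∑ b ∈ range (n + 1), (hF n x b).im * (Y100 : ℤ) ^ (n - b))) *
        (∑ k ∈ range (Kc cx), (mF cx n x k).im * (((mkSC cx n).Z : ℕ) : ℤ) ^ k) +
      ((∑ a ∈ range (n + 1), (gF n x a).im * (Y100 : ℤ) ^ a) *
        (∑ b ∈ range (n + 1), (hF n x b).re * (Y100 : ℤ) ^ (n - b)) +
      -((∑ a ∈ range (n + 1), (gF n x a).re * (Y100 : ℤ) ^ a) *
        (∑ b ∈ range (n + 1), (hF n x b).im * (Y100 : ℤ) ^ (n - b)))) *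
        (∑ k ∈ range (Kc cx), (mF cx n x k).re * (((mkSC cx n).Z : ℕ) : ℤ) ^ k) := by
    have eM : ∀ k, (((Y100 : ℤ) : GI) ^ (2 * n + 1)) ^ k = (((((mkSC cx n).Z : ℕ) : ℤ)) : GI) ^ k := fun k => by
      rw [hZ]
      push_cast
      rfl
    rw [rowP_eq]
    simp only [eM]
    rw [Zsqrtd.re_mul, Zsqrtd.re_mul, Zsqrtd.im_mul, Zsqrtd.im_mul, Zsqrtd.re_mul, Zsqrtd.im_mul,
      DecB_sumre _ _ _ (fun a => a), DecB_sumim _ _ _ (fun a => a),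
      DecB_sumre _ _ _ (fun b => n - b), DecB_sumim _ _ _ (fun b => n - b),
      DecB_sumre _ _ _ (fun k => k), DecB_sumim _ _ _ (fun k => k)]
    simp only [Zsqrtd.re_star, Zsqrtd.im_star, neg_mul, sum_neg_distrib]
    constructor <;> ring
  rw [hMc, hrow.1, hrow.2]
  unfold decode
  rw [hn1, rd_eq, rd_eq, rd_eq]
  exact key

/-- Hint: unfold `decode`, rewrite with `rd_eq` (three times), `packG`, `packH`, `packM`, `subM_modEq`; the offsets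
cancel (`mkSC_o1`, `mkSC_o2`); then `rowP_eq` and `Zsqrtd` `re`, `im` of products, `Int.ModEq` arithmetic. -/
theorem decode_pr (cx : Bool) (n x : ℕ) :
    ((decode cx (mkSC cx n) x).pr : ℤ) ≡ (rowP cx n x).re [ZMOD ((Y100 : ℤ) ^ (Kc cx * (2 * n + 1)))] :=
  (DecB_both cx n x).1

theorem decode_pi (cx : Bool) (n x : ℕ) :
    ((decode cx (mkSC cx n) x).pi : ℤ) ≡ (rowP cx n x).im [ZMOD ((Y100 : ℤ) ^ (Kc cx * (2 * n + 1)))] :=
  (DecB_both cx n x).2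

end Pool.Agent.MaxTerm59b
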