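import Pool.Agent.MaxTerm59b.DecA

/-! Decoded rows. -/

namespace Pool.Agent.MaxTerm59b
open Finset

private theorem DecC_sub (N : ℕ) (u v : ℕ → ℕ) :
    (((0 + ∑ i ∈ range N, ((u i) ^ 2 + (v i) ^ 2) + 2 * N * 1024 ^ 2 -
        2048 * (0 + ∑ i ∈ range N, (u i + v i)) : ℕ)) : ℤ) =
      ∑ i ∈ range N, (((u i : ℤ) - 1024) ^ 2 + ((v i : ℤ) - 1024) ^ 2) := by
  have h1 : ((∑ i ∈ range N, ((u i) ^ 2 + (v i) ^ 2) + 2 * N * 1024 ^ 2 : ℕ) : ℤ) -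
      ((2048 * ∑ i ∈ range N, (u i + v i) : ℕ) : ℤ) =
      ∑ i ∈ range N, (((u i : ℤ) - 1024) ^ 2 + ((v i : ℤ) - 1024) ^ 2) := by
    induction N with
    | zero => simp
    | succ N ih =>
      rw [sum_range_succ, sum_range_succ, sum_range_succ, ← ih]
      push_cast
      ring
  have h2 : (0 : ℤ) ≤ ∑ i ∈ range N, (((u i : ℤ) - 1024) ^ 2 + ((v i : ℤ) - 1024) ^ 2) :=
    sum_nonneg fun i _ => by positivity
  rw [zero_add, zero_add, Nat.cast_sub]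
  · exact h1
  · have h3 : ((2048 * ∑ i ∈ range N, (u i + v i) : ℕ) : ℤ) ≤
        ((∑ i ∈ range N, ((u i) ^ 2 + (v i) ^ 2) + 2 * N * 1024 ^ 2 : ℕ) : ℤ) := by
      linarith
    exact_mod_cast h3

private theorem DecC_norm (a b : ℤ) : (⟨a, b⟩ : GI).norm = a ^ 2 + b ^ 2 := by
  rw [Zsqrtd.norm_def]
  ring

/-- the product of the norms; `norm` of a Gaussian integer is `re^2 + im^2` -/
theorem decode_nn (cx : Bool) (n x : ℕ) :
    (∑ a ∈ range (n + 1), (gF n x a).norm) * (∑ b ∈ range (n + 1), (hF n x b).norm) ≤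
      ((decode cx (mkSC cx n) x).nn : ℤ) ^ 2 := by
  have hA : ∑ a ∈ range (n + 1), (gF n x a).norm =
      ((0 + ∑ i ∈ range (n + 1), ((x / 2048 ^ (2 * i) % 2048) ^ 2 + (x / 2048 ^ (2 * i + 1) % 2048) ^ 2) +
        2 * (n + 1) * 1024 ^ 2 -
        2048 * (0 + ∑ i ∈ range (n + 1), (x / 2048 ^ (2 * i) % 2048 + x / 2048 ^ (2 * i + 1) % 2048)) : ℕ) : ℤ) := by
    rw [DecC_sub, ← sum_range_reflect]
    refine sum_congr rfl fun a ha => ?_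
    rw [gF, DecC_norm]
    have h : n - (n + 1 - 1 - a) = a := by
      have := mem_range.1 ha
      omega
    rw [h]
  have hB : ∑ b ∈ range (n + 1), (hF n x b).norm =
      ((0 + ∑ i ∈ range (n + 1), ((x / 2048 ^ (2 * (n + 1)) / 2048 ^ (2 * i) % 2048) ^ 2 +
          (x / 2048 ^ (2 * (n + 1)) / 2048 ^ (2 * i + 1) % 2048) ^ 2) +
        2 * (n + 1) * 1024 ^ 2 -
        2048 * (0 + ∑ i ∈ range (n + 1), (x / 2048 ^ (2 * (n + 1)) / 2048 ^ (2 * i) % 2048 +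
          x / 2048 ^ (2 * (n + 1)) / 2048 ^ (2 * i + 1) % 2048)) : ℕ) : ℤ) := by
    rw [DecC_sub]
    refine sum_congr rfl fun a _ => ?_
    rw [hF, DecC_norm]
  rw [hA, hB]
  have h := sqP_sq
    (0 + ∑ i ∈ range (n + 1), ((x / 2048 ^ (2 * i) % 2048) ^ 2 + (x / 2048 ^ (2 * i + 1) % 2048) ^ 2) +
        2 * (n + 1) * 1024 ^ 2 -
        2048 * (0 + ∑ i ∈ range (n + 1), (x / 2048 ^ (2 * i) % 2048 + x / 2048 ^ (2 * i + 1) % 2048)))
    (0 + ∑ i ∈ range (n + 1), ((x / 2048 ^ (2 * (n + 1)) / 2048 ^ (2 * i) % 2048) ^ 2 +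
          (x / 2048 ^ (2 * (n + 1)) / 2048 ^ (2 * i + 1) % 2048) ^ 2) +
        2 * (n + 1) * 1024 ^ 2 -
        2048 * (0 + ∑ i ∈ range (n + 1), (x / 2048 ^ (2 * (n + 1)) / 2048 ^ (2 * i) % 2048 +
          x / 2048 ^ (2 * (n + 1)) / 2048 ^ (2 * i + 1) % 2048)))
  have hnn : (decode cx (mkSC cx n) x).nn = sqP
    (0 + ∑ i ∈ range (n + 1), ((x / 2048 ^ (2 * i) % 2048) ^ 2 + (x / 2048 ^ (2 * i + 1) % 2048) ^ 2) +
        2 * (n + 1) * 1024 ^ 2 -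
        2048 * (0 + ∑ i ∈ range (n + 1), (x / 2048 ^ (2 * i) % 2048 + x / 2048 ^ (2 * i + 1) % 2048)))
    (0 + ∑ i ∈ range (n + 1), ((x / 2048 ^ (2 * (n + 1)) / 2048 ^ (2 * i) % 2048) ^ 2 +
          (x / 2048 ^ (2 * (n + 1)) / 2048 ^ (2 * i + 1) % 2048) ^ 2) +
        2 * (n + 1) * 1024 ^ 2 -
        2048 * (0 + ∑ i ∈ range (n + 1), (x / 2048 ^ (2 * (n + 1)) / 2048 ^ (2 * i) % 2048 +
          x / 2048 ^ (2 * (n + 1)) / 2048 ^ (2 * i + 1) % 2048))) := by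
    simp only [decode, rd_eq, mkSC_n1, mkSC_q0, Nat.add_eq, Nat.sub_eq, Nat.mul_eq]
  rw [hnn]
  exact_mod_cast h

theorem decode_mr (cx : Bool) (n x : ℕ) :
    ((decode cx (mkSC cx n) x).mr : ℤ) =
      ∑ k ∈ range (Kc cx), ((mF cx n x k).re + 33554432) * ((Y100 : ℤ) ^ (2 * n + 1)) ^ k := by
  have h := (packM cx n x (Y100 ^ (2 * n + 1))).1
  have hm : (decode cx (mkSC cx n) x).mr =
      0 * (Y100 ^ (2 * n + 1)) ^ Kc cx + ∑ i ∈ range (Kc cx),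
        x / 2048 ^ (2 * (n + 1)) / 2048 ^ (2 * (n + 1)) / 67108864 ^ (2 * i) %
        67108864 * (Y100 ^ (2 * n + 1)) ^ (Kc cx - 1 - i) := by
    simp only [decode, rd_eq, mkSC_n1, mkSC_Z]
  rw [hm, h]
  push_cast
  rfl

theorem decode_mi (cx : Bool) (n x : ℕ) :
    ((decode cx (mkSC cx n) x).mi : ℤ) =
      ∑ k ∈ range (Kc cx), ((mF cx n x k).im + 33554432) * ((Y100 : ℤ) ^ (2 * n + 1)) ^ k := by
  have h := (packM cx n x (Y100 ^ (2 * n + 1))).2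
  have hm : (decode cx (mkSC cx n) x).mi =
      0 * (Y100 ^ (2 * n + 1)) ^ Kc cx + ∑ i ∈ range (Kc cx),
        x / 2048 ^ (2 * (n + 1)) / 2048 ^ (2 * (n + 1)) / 67108864 ^ (2 * i + 1) %
        67108864 * (Y100 ^ (2 * n + 1)) ^ (Kc cx - 1 - i) := by
    simp only [decode, rd_eq, mkSC_n1, mkSC_Z]
  rw [hm, h]
  push_cast
  rfl

private theorem DecC_dgZ (cx : Bool) (n X k : ℕ) (f : ℕ → ℕ) (hf : ∀ i, f i < 67108864)
    (hX : X = ∑ i ∈ range (Kc cx), f i * (Y100 ^ (2 * n + 1)) ^ i) (hk : k < Kc cx) :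
    dgZ (mkSC cx n) X k = f k := by
  have hB : 67108864 ∣ Y100 ^ (2 * n + 1) := by
    rw [Y100_eq]
    have h1 : (67108864 : ℕ) = 2 ^ 26 := by norm_num
    rw [h1, ← pow_mul]
    exact pow_dvd_pow 2 (by omega)
  have hB0 : 0 < Y100 ^ (2 * n + 1) := by
    rw [Y100_eq]
    positivity
  have hfB : ∀ i < Kc cx, f i < Y100 ^ (2 * n + 1) := fun i _ =>
    lt_of_lt_of_le (hf i) (Nat.le_of_dvd hB0 hB)
  have hd := digit_nat (Y100 ^ (2 * n + 1)) (Kc cx) hB0 f hfB k hk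
  rw [← hX] at hd
  have h2 : dgZ (mkSC cx n) X k = X / (Y100 ^ (2 * n + 1)) ^ k % 67108864 := by
    change (X >>> (100 * (mkSC cx n).w * k)) % 67108864 = _
    rw [mkSC_w, Nat.shiftRight_eq_div_pow, Y100_eq, ← pow_mul, ← pow_mul, mul_assoc]
  rw [h2, ← Nat.mod_mod_of_dvd _ hB, hd]
  exact Nat.mod_eq_of_lt (hf k)

theorem dgZ_mr (cx : Bool) (n x k : ℕ) (hk : k < Kc cx) :
    (dgZ (mkSC cx n) (decode cx (mkSC cx n) x).mr k : ℤ) = (mF cx n x k).re + 33554432 := by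
  have hfe : ∀ k, (mF cx n x k).re + 33554432 =
      ((x / 2048 ^ (4 * (n + 1)) / 67108864 ^ (2 * (Kc cx - 1 - k)) % 67108864 : ℕ) : ℤ) := by
    intro k
    change (((x / 2048 ^ (4 * (n + 1)) / 67108864 ^ (2 * (Kc cx - 1 - k)) % 67108864 : ℕ) : ℤ) - 33554432) +
      33554432 = _
    ring
  have h := decode_mr cx n x
  have hX : (decode cx (mkSC cx n) x).mr = ∑ k ∈ range (Kc cx),
      (x / 2048 ^ (4 * (n + 1)) / 67108864 ^ (2 * (Kc cx - 1 - k)) % 67108864) *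
        (Y100 ^ (2 * n + 1)) ^ k := by
    have h3 : ((decode cx (mkSC cx n) x).mr : ℤ) = ((∑ k ∈ range (Kc cx),
      (x / 2048 ^ (4 * (n + 1)) / 67108864 ^ (2 * (Kc cx - 1 - k)) % 67108864) *
        (Y100 ^ (2 * n + 1)) ^ k : ℕ) : ℤ) := by
      rw [h, Nat.cast_sum]
      refine sum_congr rfl fun i _ => ?_
      rw [hfe, Nat.cast_mul, Nat.cast_pow, Nat.cast_pow]
    exact Nat.cast_injective h3
  rw [DecC_dgZ cx n _ k _ (fun i => Nat.mod_lt _ (by norm_num)) hX hk, hfe]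

theorem dgZ_mi (cx : Bool) (n x k : ℕ) (hk : k < Kc cx) :
    (dgZ (mkSC cx n) (decode cx (mkSC cx n) x).mi k : ℤ) = (mF cx n x k).im + 33554432 := by
  have hfe : ∀ k, (mF cx n x k).im + 33554432 =
      ((x / 2048 ^ (4 * (n + 1)) / 67108864 ^ (2 * (Kc cx - 1 - k) + 1) % 67108864 : ℕ) : ℤ) := by
    intro k
    change (((x / 2048 ^ (4 * (n + 1)) / 67108864 ^ (2 * (Kc cx - 1 - k) + 1) % 67108864 : ℕ) : ℤ) - 33554432) +
      33554432 = _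
    ring
  have h := decode_mi cx n x
  have hX : (decode cx (mkSC cx n) x).mi = ∑ k ∈ range (Kc cx),
      (x / 2048 ^ (4 * (n + 1)) / 67108864 ^ (2 * (Kc cx - 1 - k) + 1) % 67108864) *
        (Y100 ^ (2 * n + 1)) ^ k := by
    have h3 : ((decode cx (mkSC cx n) x).mi : ℤ) = ((∑ k ∈ range (Kc cx),
      (x / 2048 ^ (4 * (n + 1)) / 67108864 ^ (2 * (Kc cx - 1 - k) + 1) % 67108864) *
        (Y100 ^ (2 * n + 1)) ^ k : ℕ) : ℤ) := by
      rw [h, Nat.cast_sum]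
      refine sum_congr rfl fun i _ => ?_
      rw [hfe, Nat.cast_mul, Nat.cast_pow, Nat.cast_pow]
    exact Nat.cast_injective h3
  rw [DecC_dgZ cx n _ k _ (fun i => Nat.mod_lt _ (by norm_num)) hX hk, hfe]

end Pool.Agent.MaxTerm59b
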