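import Pool.Agent.MaxTerm59b.Ar

/-! The penalties at a vertex. -/

namespace Pool.Agent.MaxTerm59b
open Finset

/-- the ball inequality at a vertex: `B` the bounds, `X l = ‖x l‖`; `u` is the exceptional label -/
theorem ball_vertex {α : Type} [DecidableEq α] (labs : Finset α) (B H : α → ℕ) (X : α → ℝ) (L x' : ℕ) (E : ℝ)
    (hX0 : ∀ l ∈ labs, 0 ≤ X l) (hX1 : ∀ l ∈ labs, X l ≤ 1) (hH : ∀ l ∈ labs, H l = hub L (B l)) (u : α)
    (hball : ∑ l ∈ labs.erase u, X l ^ 2 ≤ E) (hE : 0 ≤ E) (hu : u ∈ labs → B u ≤ H u + x') :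
    ∑ l ∈ labs, (B l : ℝ) * X l ≤ ∑ l ∈ labs, (H l : ℝ) + x' + L * E := by
  have h1 : ∀ l ∈ labs.erase u, (B l : ℝ) * X l ≤ H l + L * X l ^ 2 := by
    intro l hl
    have hl' : l ∈ labs := Finset.mem_of_mem_erase hl
    have := hub_le L (B l) (B l) (X l) le_rfl (hX0 l hl') (hX1 l hl')
    rw [hH l hl']
    linarith
  have h2 : ∑ l ∈ labs.erase u, (B l : ℝ) * X l ≤ ∑ l ∈ labs.erase u, (H l : ℝ) + L * E := by
    calc ∑ l ∈ labs.erase u, (B l : ℝ) * X l ≤ ∑ l ∈ labs.erase u, ((H l : ℝ) + L * X l ^ 2) :=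
          Finset.sum_le_sum h1
      _ = ∑ l ∈ labs.erase u, (H l : ℝ) + L * ∑ l ∈ labs.erase u, X l ^ 2 := by
          rw [Finset.sum_add_distrib, Finset.mul_sum]
      _ ≤ ∑ l ∈ labs.erase u, (H l : ℝ) + L * E := by
          have := mul_le_mul_of_nonneg_left hball (Nat.cast_nonneg L : (0 : ℝ) ≤ L)
          linarith
  have hx' : (0 : ℝ) ≤ x' := Nat.cast_nonneg _
  by_cases h : u ∈ labs
  · rw [← Finset.add_sum_erase labs (fun l => (B l : ℝ) * X l) h,
      ← Finset.add_sum_erase labs (fun l => (H l : ℝ)) h]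
    have h3 : (B u : ℝ) * X u ≤ B u := by
      have := mul_le_mul_of_nonneg_left (hX1 u h) (Nat.cast_nonneg (B u) : (0 : ℝ) ≤ B u)
      linarith
    have h4 : (B u : ℝ) ≤ H u + x' := by exact_mod_cast hu h
    linarith
  · rw [Finset.erase_eq_of_notMem h] at h2
    linarith

end Pool.Agent.MaxTerm59b
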