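import Pool.Agent.MaxTerm59b.RunA
import Pool.Agent.MaxTerm59b.RunB

/-! The dual inequality of a leaf. -/

namespace Pool.Agent.MaxTerm59b
open Finset

/-- all labels at a vertex: from the check of the vertex. `G g` are the labels of the group `g`. -/
theorem vertex_sum {α : Type} [DecidableEq α] (cx : Bool) (b1 b2 b3 : Bool) (l1 l2 : ℕ) (labs : List α)
    (hnd : labs.Nodup) (it : α → Item) (hg : ∀ l ∈ labs, (it l).grp ≤ 2) (X : α → ℝ) (hX0 : ∀ l ∈ labs, 0 ≤ X l)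
    (hX1 : ∀ l ∈ labs, X l ≤ 1) (E1 E2 : ℝ) (hE1 : 0 ≤ E1) (hE2 : 0 ≤ E2)
    (hb1 : ∃ u : α, ∑ l ∈ (labs.toFinset.filter fun l => (it l).grp = 1).erase u, X l ^ 2 ≤ E1 ∧
      (u ∈ labs → (it u).grp = 1 → (it u).cu = true))
    (hb2 : ∃ u : α, ∑ l ∈ (labs.toFinset.filter fun l => (it l).grp = 2).erase u, X l ^ 2 ≤ E2 ∧
      (u ∈ labs → (it u).grp = 2 → (it u).cu = true))
    (tail e1 e2 ec c m o : ℕ) (he1 : E1 ≤ e1 / 2 ^ 40) (he2 : E2 ≤ e2 / 2 ^ 40)
    (h : runI cx b1 b2 b3 l1 l2 (labs.map it) 0 0 0 (fun t x y => finV tail e1 e2 ec c m o t x y l1 l2) = true) :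
    (o : ℝ) + 2 ^ 76 * ((ec : ℝ) + (labs.map fun l => (itemB cx b1 b2 b3 (it l).sl : ℝ) * X l).sum +
      16 * c * (170919 / 100000 + tail / 2 ^ 40 + 1 / 2 ^ 27)) < m := by
  obtain ⟨x', y', hk, -, -, hcx, hcy⟩ := runI_eq cx b1 b2 b3 l1 l2 (labs.map it) 0 0 0
    (fun t x y => finV tail e1 e2 ec c m o t x y l1 l2)
  rw [hk] at h
  have hfin := finV_real _ _ _ _ _ _ _ _ _ _ _ _ h
  rw [Nat.zero_add, List.map_map] at hfin
  set B : α → ℕ := fun l => itemB cx b1 b2 b3 (it l).sl with hB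
  set P : α → ℕ := fun l => pen l1 l2 (it l) (B l) with hP
  have hPsum : ((labs.map ((fun it => pen l1 l2 it (itemB cx b1 b2 b3 it.sl)) ∘ it)).sum : ℕ) =
      ∑ l ∈ labs.toFinset, P l := by
    rw [List.sum_toFinset _ hnd]
    rfl
  rw [hPsum] at hfin
  have hBsum : (labs.map fun l => (itemB cx b1 b2 b3 (it l).sl : ℝ) * X l).sum =
      ∑ l ∈ labs.toFinset, (B l : ℝ) * X l := by
    rw [List.sum_toFinset _ hnd]
  rw [hBsum]
  -- splitting
  set S := labs.toFinset with hS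
  have hmem : ∀ l, l ∈ S ↔ l ∈ labs := fun l => List.mem_toFinset
  have hsplit : ∀ f : α → ℝ, ∑ l ∈ S, f l = ∑ l ∈ S.filter (fun l => (it l).grp = 0), f l +
      ∑ l ∈ S.filter (fun l => (it l).grp = 1), f l + ∑ l ∈ S.filter (fun l => (it l).grp = 2), f l := by
    intro f
    rw [Finset.sum_filter, Finset.sum_filter, Finset.sum_filter, ← Finset.sum_add_distrib,
      ← Finset.sum_add_distrib]
    refine Finset.sum_congr rfl fun l hl => ?_
    have h2 := hg l ((hmem l).1 hl)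
    have h3 : (it l).grp = 0 ∨ (it l).grp = 1 ∨ (it l).grp = 2 := by omega
    rcases h3 with h3 | h3 | h3 <;> simp [h3]
  -- group 0
  have g0 : ∑ l ∈ S.filter (fun l => (it l).grp = 0), (B l : ℝ) * X l ≤
      ∑ l ∈ S.filter (fun l => (it l).grp = 0), (P l : ℝ) := by
    refine Finset.sum_le_sum fun l hl => ?_
    rw [Finset.mem_filter] at hl
    have hl1 := (hmem l).1 hl.1
    have hPl : P l = B l := by simp [hP, pen, hl.2]
    rw [hPl]
    have := hX1 l hl1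
    have hB0 : (0 : ℝ) ≤ B l := Nat.cast_nonneg _
    nlinarith
  have g1 : ∑ l ∈ S.filter (fun l => (it l).grp = 1), (B l : ℝ) * X l ≤
      ∑ l ∈ S.filter (fun l => (it l).grp = 1), (P l : ℝ) + x' + l1 * E1 := by
    obtain ⟨u, hu1, hu2⟩ := hb1
    refine ball_vertex _ B P X l1 x' E1 ?_ ?_ ?_ u hu1 hE1 ?_
    · intro l hl
      exact hX0 l ((hmem l).1 (Finset.mem_filter.1 hl).1)
    · intro l hl
      exact hX1 l ((hmem l).1 (Finset.mem_filter.1 hl).1)
    · intro l hl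
      simp [hP, pen, (Finset.mem_filter.1 hl).2]
    · intro hu
      have hu' := Finset.mem_filter.1 hu
      have hul := (hmem u).1 hu'.1
      have := hcx (it u) (List.mem_map_of_mem hul) hu'.2 (hu2 hul hu'.2)
      simpa [hP, pen, hu'.2, hB] using this
  have g2 : ∑ l ∈ S.filter (fun l => (it l).grp = 2), (B l : ℝ) * X l ≤
      ∑ l ∈ S.filter (fun l => (it l).grp = 2), (P l : ℝ) + y' + l2 * E2 := by
    obtain ⟨u, hu1, hu2⟩ := hb2
    refine ball_vertex _ B P X l2 y' E2 ?_ ?_ ?_ u hu1 hE2 ?_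
    · intro l hl
      exact hX0 l ((hmem l).1 (Finset.mem_filter.1 hl).1)
    · intro l hl
      exact hX1 l ((hmem l).1 (Finset.mem_filter.1 hl).1)
    · intro l hl
      simp [hP, pen, (Finset.mem_filter.1 hl).2]
    · intro hu
      have hu' := Finset.mem_filter.1 hu
      have hul := (hmem u).1 hu'.1
      have := hcy (it u) (List.mem_map_of_mem hul) hu'.2 (hu2 hul hu'.2)
      simpa [hP, pen, hu'.2, hB] using this
  have htot : ∑ l ∈ S, (B l : ℝ) * X l ≤ ((∑ l ∈ S, P l : ℕ) : ℝ) + x' + y' + l1 * E1 + l2 * E2 := by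
    rw [hsplit, Nat.cast_sum, hsplit (fun l => (P l : ℝ))]
    linarith
  have h1 : (l1 : ℝ) * E1 ≤ l1 * e1 / 2 ^ 40 := by
    rw [mul_div_assoc]
    exact mul_le_mul_of_nonneg_left he1 (Nat.cast_nonneg _)
  have h2 : (l2 : ℝ) * E2 ≤ l2 * e2 / 2 ^ 40 := by
    rw [mul_div_assoc]
    exact mul_le_mul_of_nonneg_left he2 (Nat.cast_nonneg _)
  refine lt_of_le_of_lt ?_ hfin
  have h76 : (0 : ℝ) ≤ 2 ^ 76 := by positivity
  have := mul_le_mul_of_nonneg_left (le_trans htot (add_le_add (add_le_add le_rfl h1) h2)) h76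
  nlinarith [this]

end Pool.Agent.MaxTerm59b
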