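import Pool.Agent.MaxTerm59b.ItB

/-! Items and constants at the vertices. `slD` are the digits minus `2^99`; `dg` is smaller than `Y100 = 2^100`, so
`comb_eq` applies with `h = 2^99`. -/

namespace Pool.Agent.MaxTerm59b
open Finset

private theorem ItD_vs_add (s1 s2 s3 : ℝ) (f g : Bool → Bool → Bool → ℝ) :
    vs s1 s2 s3 (fun b1 b2 b3 => f b1 b2 b3 + g b1 b2 b3) = vs s1 s2 s3 f + vs s1 s2 s3 g := by
  unfold vs
  simp only [mul_add, Finset.sum_add_distrib]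

private theorem ItD_vsC_re (s1 s2 s3 : ℝ) (f : Bool → Bool → Bool → ℂ) :
    (vsC s1 s2 s3 f).re = vs s1 s2 s3 (fun b1 b2 b3 => (f b1 b2 b3).re) := by
  unfold vsC vs
  simp only [Complex.re_sum, Complex.re_ofReal_mul]

private theorem ItD_im_false (s : Slot) (b1 b2 b3 : Bool) :
    (∑ k ∈ range (Kc false), (sv b1 b2 b3 k : ℂ) * slD false s k).im = 0 := by
  rw [Complex.im_sum]
  refine Finset.sum_eq_zero fun k _ => ?_
  have h1 : (slD false s k).im = 0 := by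
    unfold slD
    simp
  have h2 : ((sv b1 b2 b3 k : ℤ) : ℂ).im = 0 := Complex.intCast_im _
  rw [Complex.mul_im, h1, h2]
  ring

/-- positive part of a constant -/
private def ItD_A (cx : Bool) (b1 b2 b3 : Bool) (s : CSlot) : ℕ :=
  (s.re b1 b2 b3 * valT cx s.s.t.re s.s b1 b2 b3 + 2199023255552 * (Kc cx * O99)) +
    cond cx (2199023255552 * valT cx s.s.t.im s.s b1 b2 b3 + s.im b1 b2 b3 * (Kc cx * O99)) 0

/-- negative part of a constant -/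
private def ItD_B (cx : Bool) (b1 b2 b3 : Bool) (s : CSlot) : ℕ :=
  (2199023255552 * valT cx s.s.t.re s.s b1 b2 b3 + s.re b1 b2 b3 * (Kc cx * O99)) +
    cond cx (s.im b1 b2 b3 * valT cx s.s.t.im s.s b1 b2 b3 + 2199023255552 * (Kc cx * O99)) 0

private theorem ItD_key (re im v1 v2 K : ℕ) :
    (((re * v1 + 2199023255552 * (K * 2 ^ 99)) + (2199023255552 * v2 + im * (K * 2 ^ 99)) : ℕ) : ℝ) -
      (((2199023255552 * v1 + re * (K * 2 ^ 99)) + (im * v2 + 2199023255552 * (K * 2 ^ 99)) : ℕ) : ℝ) =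
    ((re : ℝ) - 2199023255552) * ((v1 : ℝ) - K * 2 ^ 99) -
      ((im : ℝ) - 2199023255552) * ((v2 : ℝ) - K * 2 ^ 99) := by
  push_cast
  ring

private theorem ItD_keyF (re im v1 K : ℕ) :
    (((re * v1 + 2199023255552 * (K * 2 ^ 99)) + 0 : ℕ) : ℝ) -
      (((2199023255552 * v1 + re * (K * 2 ^ 99)) + 0 : ℕ) : ℝ) =
    ((re : ℝ) - 2199023255552) * ((v1 : ℝ) - K * 2 ^ 99) -
      ((im : ℝ) - 2199023255552) * 0 := by
  push_cast
  ring

private theorem ItD_AB (cx : Bool) (b1 b2 b3 : Bool) (s : CSlot) :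
    (ItD_A cx b1 b2 b3 s : ℝ) - ItD_B cx b1 b2 b3 s =
      ((⟨(s.re b1 b2 b3 : ℝ) - 2199023255552, (s.im b1 b2 b3 : ℝ) - 2199023255552⟩ : ℂ) *
        ∑ k ∈ range (Kc cx), (sv b1 b2 b3 k : ℂ) * slD cx s.s k).re := by
  obtain ⟨S, hS⟩ : ∃ S, S = ∑ k ∈ range (Kc cx), (sv b1 b2 b3 k : ℂ) * slD cx s.s k := ⟨_, rfl⟩
  have h1 := valT_re cx s.s b1 b2 b3
  rw [← hS] at h1 ⊢
  rw [Complex.mul_re, ← h1]
  unfold ItD_A ItD_B
  rw [O99_eq]
  cases cx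
  · have h2 := ItD_im_false s.s b1 b2 b3
    rw [← hS] at h2
    rw [h2, Bool.cond_false]
    dsimp only
    exact ItD_keyF _ _ _ _
  · have h2 := valT_im s.s b1 b2 b3
    rw [← hS] at h2
    rw [← h2, Bool.cond_true, Bool.cond_true]
    dsimp only
    exact ItD_key _ _ _ _ _

private theorem ItD_one (cx : Bool) (s1 s2 s3 : ℝ) (s : CSlot) (ζ : ℂ)
    (h : CSlotOK cx s1 s2 s3 s ζ) :
    vs s1 s2 s3 (fun b1 b2 b3 => (ItD_A cx b1 b2 b3 s : ℝ) - ItD_B cx b1 b2 b3 s) - errS cx s.s ≤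
      2 ^ 40 * (slT cx s1 s2 s3 s.s * ζ).re := by
  have h1 := cslot_err cx s1 s2 s3 s ζ h
  have h2 := (Complex.abs_re_le_norm _).trans h1
  rw [Complex.sub_re, ItD_vsC_re] at h2
  have h3 : ((2 : ℂ) ^ 40 * (slT cx s1 s2 s3 s.s * ζ)).re = 2 ^ 40 * (slT cx s1 s2 s3 s.s * ζ).re := by
    have : ((2 : ℂ) ^ 40) = (((2 : ℝ) ^ 40 : ℝ) : ℂ) := by push_cast; rfl
    rw [this, Complex.re_ofReal_mul]
  rw [h3] at h2
  have h4 : vs s1 s2 s3 (fun b1 b2 b3 => (ItD_A cx b1 b2 b3 s : ℝ) - ItD_B cx b1 b2 b3 s) =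
      vs s1 s2 s3 (fun b1 b2 b3 => ((⟨(s.re b1 b2 b3 : ℝ) - 2199023255552,
        (s.im b1 b2 b3 : ℝ) - 2199023255552⟩ : ℂ) *
        ∑ k ∈ range (Kc cx), (sv b1 b2 b3 k : ℂ) * slD cx s.s k).re) := by
    congr 1
    funext b1 b2 b3
    exact ItD_AB cx b1 b2 b3 s
  rw [h4]
  have h5 := (abs_le.1 h2).1
  linarith

/-- the constants -/
theorem main_ge (cx : Bool) (s1 s2 s3 : ℝ) (h1 : |s1| ≤ 1) (h2 : |s2| ≤ 1) (h3 : |s3| ≤ 1) (l : List CSlot)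
    (ζ : CSlot → ℂ) (hζ : ∀ s ∈ l, CSlotOK cx s1 s2 s3 s (ζ s)) :
    vs s1 s2 s3 (fun b1 b2 b3 => (mainP cx b1 b2 b3 l : ℝ) - mainN cx b1 b2 b3 l) - mainE cx l ≤
      2 ^ 40 * ((l.map fun s => slT cx s1 s2 s3 s.s * ζ s).sum).re := by
  have _ := h1
  have _ := h2
  have _ := h3
  induction l with
  | nil =>
    have h4 : ∀ b1 b2 b3, mainP cx b1 b2 b3 [] = 0 := fun _ _ _ => rfl
    have h5 : ∀ b1 b2 b3, mainN cx b1 b2 b3 [] = 0 := fun _ _ _ => rfl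
    have h6 : mainE cx [] = 0 := rfl
    simp only [h4, h5, h6, List.map_nil, List.sum_nil]
    unfold vs
    simp
  | cons s l ih =>
    have h4 := ih fun t ht => hζ t (List.mem_cons_of_mem _ ht)
    have h5 := ItD_one cx s1 s2 s3 s (ζ s) (hζ s (List.mem_cons_self ..))
    have h6 : ∀ b1 b2 b3, mainP cx b1 b2 b3 (s :: l) = mainP cx b1 b2 b3 l + ItD_A cx b1 b2 b3 s :=
      fun _ _ _ => rfl
    have h7 : ∀ b1 b2 b3, mainN cx b1 b2 b3 (s :: l) = mainN cx b1 b2 b3 l + ItD_B cx b1 b2 b3 s :=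
      fun _ _ _ => rfl
    have h8 : mainE cx (s :: l) = errS cx s.s + mainE cx l := rfl
    have h9 : vs s1 s2 s3 (fun b1 b2 b3 => (mainP cx b1 b2 b3 (s :: l) : ℝ) -
        mainN cx b1 b2 b3 (s :: l)) =
        vs s1 s2 s3 (fun b1 b2 b3 => (mainP cx b1 b2 b3 l : ℝ) - mainN cx b1 b2 b3 l) +
        vs s1 s2 s3 (fun b1 b2 b3 => (ItD_A cx b1 b2 b3 s : ℝ) - ItD_B cx b1 b2 b3 s) := by
      rw [← ItD_vs_add]
      congr 1
      funext b1 b2 b3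
      rw [h6, h7]
      push_cast
      ring
    rw [h9, h8]
    simp only [List.map_cons, List.sum_cons]
    rw [Complex.add_re, Nat.cast_add]
    linarith

end Pool.Agent.MaxTerm59b
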