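import Pool.Agent.MaxTerm59b.ItC
import Pool.Agent.MaxTerm59b.ItD

/-! Items and constants at the vertices: versions with lists of pairs (slot, value). The proofs are the ones of
`itemB_ge` (file `ItC`) and `main_ge` (file `ItD`). -/

namespace Pool.Agent.MaxTerm59b
open Finset

private theorem ItE_vs_add (s1 s2 s3 : ℝ) (f g : Bool → Bool → Bool → ℝ) :
    vs s1 s2 s3 (fun b1 b2 b3 => f b1 b2 b3 + g b1 b2 b3) = vs s1 s2 s3 f + vs s1 s2 s3 g := by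
  unfold vs
  simp only [mul_add, Finset.sum_add_distrib]

private theorem ItE_vs_mul (s1 s2 s3 c : ℝ) (f : Bool → Bool → Bool → ℝ) :
    vs s1 s2 s3 (fun b1 b2 b3 => c * f b1 b2 b3) = c * vs s1 s2 s3 f := by
  unfold vs
  simp only [Finset.mul_sum]
  refine Finset.sum_congr rfl fun b1 _ => Finset.sum_congr rfl fun b2 _ =>
    Finset.sum_congr rfl fun b3 _ => ?_
  ring

private theorem ItE_vsC_add (s1 s2 s3 : ℝ) (f g : Bool → Bool → Bool → ℂ) :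
    vsC s1 s2 s3 (fun b1 b2 b3 => f b1 b2 b3 + g b1 b2 b3) = vsC s1 s2 s3 f + vsC s1 s2 s3 g := by
  unfold vsC
  simp only [mul_add, Finset.sum_add_distrib]

private theorem ItE_vsC_zero (s1 s2 s3 : ℝ) : vsC s1 s2 s3 (fun _ _ _ => 0) = 0 := by
  unfold vsC
  simp

private theorem ItE_norm_vsC (s1 s2 s3 : ℝ) (h1 : |s1| ≤ 1) (h2 : |s2| ≤ 1) (h3 : |s3| ≤ 1)
    (f : Bool → Bool → Bool → ℂ) :
    ‖vsC s1 s2 s3 f‖ ≤ vs s1 s2 s3 (fun b1 b2 b3 => ‖f b1 b2 b3‖) := by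
  unfold vsC vs
  refine (norm_sum_le _ _).trans (Finset.sum_le_sum fun b1 _ => ?_)
  refine (norm_sum_le _ _).trans (Finset.sum_le_sum fun b2 _ => ?_)
  refine (norm_sum_le _ _).trans (Finset.sum_le_sum fun b3 _ => ?_)
  rw [norm_mul, Complex.norm_real, Real.norm_of_nonneg (wt_nonneg s1 s2 s3 h1 h2 h3 b1 b2 b3)]

/-- the value of a slot at a vertex -/
private noncomputable def ItE_V (cx : Bool) (s : Slot) (b1 b2 b3 : Bool) : ℂ :=
  ∑ k ∈ range (Kc cx), (sv b1 b2 b3 k : ℂ) * slD cx s k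

private theorem ItE_V_im_false (s : Slot) (b1 b2 b3 : Bool) : (ItE_V false s b1 b2 b3).im = 0 := by
  unfold ItE_V
  rw [Complex.im_sum]
  refine Finset.sum_eq_zero fun k _ => ?_
  have h1 : (slD false s k).im = 0 := by
    unfold slD
    simp
  have h2 : ((sv b1 b2 b3 k : ℤ) : ℂ).im = 0 := Complex.intCast_im _
  rw [Complex.mul_im, h1, h2]
  ring

private theorem ItE_err (cx : Bool) (s1 s2 s3 : ℝ) (l : List (Slot × ℝ))
    (hψ : ∀ q ∈ l, SlotOK cx s1 s2 s3 q.1 q.2) :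
    ‖2 ^ 40 * (l.map fun q => slT cx s1 s2 s3 q.1 * (q.2 : ℂ)).sum -
      vsC s1 s2 s3 (fun b1 b2 b3 => ((l.map Prod.fst).map fun s => ((s.ph b1 b2 b3 : ℝ) : ℂ) *
        ItE_V cx s b1 b2 b3).sum)‖ ≤ (sumErr cx (l.map Prod.fst) : ℝ) := by
  induction l with
  | nil =>
    simp only [List.map_nil, List.sum_nil, mul_zero, ItE_vsC_zero, sub_zero, norm_zero]
    exact Nat.cast_nonneg _
  | cons q l ih =>
    have h1 := ih fun t ht => hψ t (List.mem_cons_of_mem _ ht)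
    have h2 := slot_err cx s1 s2 s3 q.1 q.2 (hψ q (List.mem_cons_self ..))
    have h3 : sumErr cx ((q :: l).map Prod.fst) = errS cx q.1 + sumErr cx (l.map Prod.fst) := rfl
    rw [h3]
    simp only [List.map_cons, List.sum_cons]
    rw [ItE_vsC_add, Nat.cast_add]
    have h4 : 2 ^ 40 * (slT cx s1 s2 s3 q.1 * (q.2 : ℂ) +
        (l.map fun q => slT cx s1 s2 s3 q.1 * (q.2 : ℂ)).sum) -
        (vsC s1 s2 s3 (fun b1 b2 b3 => ((q.1.ph b1 b2 b3 : ℝ) : ℂ) * ItE_V cx q.1 b1 b2 b3) +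
          vsC s1 s2 s3 (fun b1 b2 b3 => ((l.map Prod.fst).map fun s => ((s.ph b1 b2 b3 : ℝ) : ℂ) *
            ItE_V cx s b1 b2 b3).sum)) =
        (2 ^ 40 * (slT cx s1 s2 s3 q.1 * (q.2 : ℂ)) -
          vsC s1 s2 s3 (fun b1 b2 b3 => ((q.1.ph b1 b2 b3 : ℝ) : ℂ) * ItE_V cx q.1 b1 b2 b3)) +
        (2 ^ 40 * (l.map fun q => slT cx s1 s2 s3 q.1 * (q.2 : ℂ)).sum -
          vsC s1 s2 s3 (fun b1 b2 b3 => ((l.map Prod.fst).map fun s => ((s.ph b1 b2 b3 : ℝ) : ℂ) *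
            ItE_V cx s b1 b2 b3).sum)) := by ring
    rw [h4]
    exact (norm_add_le _ _).trans (add_le_add h2 h1)

private theorem ItE_re (cx : Bool) (b1 b2 b3 : Bool) (l : List Slot) :
    ((l.map fun s => ((s.ph b1 b2 b3 : ℝ) : ℂ) * ItE_V cx s b1 b2 b3).sum).re =
      (((sumRe cx b1 b2 b3 l : ℤ) - (sumPh b1 b2 b3 l * (Kc cx * O99) : ℕ) : ℤ) : ℝ) := by
  induction l with
  | nil =>
    have h1 : sumRe cx b1 b2 b3 [] = 0 := rfl
    have h2 : sumPh b1 b2 b3 [] = 0 := rfl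
    rw [h1, h2]
    simp
  | cons s l ih =>
    have h1 : sumRe cx b1 b2 b3 (s :: l) = s.ph b1 b2 b3 * valT cx s.t.re s b1 b2 b3 +
      sumRe cx b1 b2 b3 l := rfl
    have h2 : sumPh b1 b2 b3 (s :: l) = s.ph b1 b2 b3 + sumPh b1 b2 b3 l := rfl
    have h3 := valT_re cx s b1 b2 b3
    simp only [List.map_cons, List.sum_cons]
    rw [Complex.add_re, ih, Complex.re_ofReal_mul, h1, h2]
    have h4 : (ItE_V cx s b1 b2 b3).re = (valT cx s.t.re s b1 b2 b3 : ℝ) - Kc cx * 2 ^ 99 :=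
      h3.symm
    rw [h4, O99_eq]
    push_cast
    ring

private theorem ItE_im (b1 b2 b3 : Bool) (l : List Slot) :
    ((l.map fun s => ((s.ph b1 b2 b3 : ℝ) : ℂ) * ItE_V true s b1 b2 b3).sum).im =
      (((sumIm true b1 b2 b3 l : ℤ) - (sumPh b1 b2 b3 l * (Kc true * O99) : ℕ) : ℤ) : ℝ) := by
  induction l with
  | nil =>
    have h1 : sumIm true b1 b2 b3 [] = 0 := rfl
    have h2 : sumPh b1 b2 b3 [] = 0 := rfl
    rw [h1, h2]
    simp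
  | cons s l ih =>
    have h1 : sumIm true b1 b2 b3 (s :: l) = s.ph b1 b2 b3 * valT true s.t.im s b1 b2 b3 +
      sumIm true b1 b2 b3 l := rfl
    have h2 : sumPh b1 b2 b3 (s :: l) = s.ph b1 b2 b3 + sumPh b1 b2 b3 l := rfl
    have h3 := valT_im s b1 b2 b3
    simp only [List.map_cons, List.sum_cons]
    rw [Complex.add_im, ih, Complex.im_ofReal_mul, h1, h2]
    have h4 : (ItE_V true s b1 b2 b3).im = (valT true s.t.im s b1 b2 b3 : ℝ) - Kc true * 2 ^ 99 :=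
      h3.symm
    rw [h4, O99_eq]
    push_cast
    ring

private theorem ItE_im_false (b1 b2 b3 : Bool) (l : List Slot) :
    ((l.map fun s => ((s.ph b1 b2 b3 : ℝ) : ℂ) * ItE_V false s b1 b2 b3).sum).im = 0 := by
  induction l with
  | nil => simp
  | cons s l ih =>
    simp only [List.map_cons, List.sum_cons]
    rw [Complex.add_im, ih, Complex.im_ofReal_mul, ItE_V_im_false]
    ring

private theorem ItE_hyp (Z : ℂ) (r m o : ℕ) (h1 : Z.re = (((r : ℤ) - (o : ℕ) : ℤ) : ℝ))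
    (h2 : Z.im = (((m : ℤ) - (o : ℕ) : ℤ) : ℝ)) :
    ‖Z‖ ≤ ((hyp (absS r o) (absS m o) : ℕ) : ℝ) := by
  have h3 : Z = ⟨Z.re, Z.im⟩ := rfl
  rw [h3, h1, h2]
  refine norm_hyp _ _ _ _ ?_ ?_
  · exact (absS_eq r o).ge
  · exact (absS_eq m o).ge

private theorem ItE_abs (Z : ℂ) (r o : ℕ) (h1 : Z.re = (((r : ℤ) - (o : ℕ) : ℤ) : ℝ))
    (h2 : Z.im = 0) : ‖Z‖ ≤ ((absS r o : ℕ) : ℝ) := by
  have h3 : Z = ((Z.re : ℝ) : ℂ) := by
    apply Complex.ext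
    · simp
    · simp [h2]
  rw [h3, Complex.norm_real, h1, Real.norm_eq_abs, ← Int.cast_abs, ← absS_eq]
  exact le_rfl

private theorem ItE_vertex (cx : Bool) (b1 b2 b3 : Bool) (l : List Slot) :
    ‖(l.map fun s => ((s.ph b1 b2 b3 : ℝ) : ℂ) * ItE_V cx s b1 b2 b3).sum‖ ≤
      ((cond cx
        (hyp (absS (sumRe cx b1 b2 b3 l) (sumPh b1 b2 b3 l * (Kc cx * O99)))
          (absS (sumIm cx b1 b2 b3 l) (sumPh b1 b2 b3 l * (Kc cx * O99))))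
        (absS (sumRe cx b1 b2 b3 l) (sumPh b1 b2 b3 l * (Kc cx * O99))) : ℕ) : ℝ) := by
  have h1 := ItE_re cx b1 b2 b3 l
  obtain ⟨o, ho⟩ : ∃ o, o = sumPh b1 b2 b3 l * (Kc cx * O99) := ⟨_, rfl⟩
  rw [← ho] at h1 ⊢
  cases cx
  · rw [Bool.cond_false]
    exact ItE_abs _ _ _ h1 (ItE_im_false b1 b2 b3 l)
  · have h2 := ItE_im b1 b2 b3 l
    rw [← ho] at h2
    rw [Bool.cond_true]
    exact ItE_hyp _ _ _ _ h1 h2

private theorem ItE_vsC_re (s1 s2 s3 : ℝ) (f : Bool → Bool → Bool → ℂ) :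
    (vsC s1 s2 s3 f).re = vs s1 s2 s3 (fun b1 b2 b3 => (f b1 b2 b3).re) := by
  unfold vsC vs
  simp only [Complex.re_sum, Complex.re_ofReal_mul]

private theorem ItE_imfalse2 (s : Slot) (b1 b2 b3 : Bool) :
    (∑ k ∈ range (Kc false), (sv b1 b2 b3 k : ℂ) * slD false s k).im = 0 := by
  rw [Complex.im_sum]
  refine Finset.sum_eq_zero fun k _ => ?_
  have h1 : (slD false s k).im = 0 := by
    unfold slD
    simp
  have h2 : ((sv b1 b2 b3 k : ℤ) : ℂ).im = 0 := Complex.intCast_im _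
  rw [Complex.mul_im, h1, h2]
  ring

/-- positive part of a constant -/
private def ItE_A (cx : Bool) (b1 b2 b3 : Bool) (s : CSlot) : ℕ :=
  (s.re b1 b2 b3 * valT cx s.s.t.re s.s b1 b2 b3 + 2199023255552 * (Kc cx * O99)) +
    cond cx (2199023255552 * valT cx s.s.t.im s.s b1 b2 b3 + s.im b1 b2 b3 * (Kc cx * O99)) 0

/-- negative part of a constant -/
private def ItE_B (cx : Bool) (b1 b2 b3 : Bool) (s : CSlot) : ℕ :=
  (2199023255552 * valT cx s.s.t.re s.s b1 b2 b3 + s.re b1 b2 b3 * (Kc cx * O99)) +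
    cond cx (s.im b1 b2 b3 * valT cx s.s.t.im s.s b1 b2 b3 + 2199023255552 * (Kc cx * O99)) 0

private theorem ItE_key (re im v1 v2 K : ℕ) :
    (((re * v1 + 2199023255552 * (K * 2 ^ 99)) + (2199023255552 * v2 + im * (K * 2 ^ 99)) : ℕ) : ℝ) -
      (((2199023255552 * v1 + re * (K * 2 ^ 99)) + (im * v2 + 2199023255552 * (K * 2 ^ 99)) : ℕ) : ℝ) =
    ((re : ℝ) - 2199023255552) * ((v1 : ℝ) - K * 2 ^ 99) -
      ((im : ℝ) - 2199023255552) * ((v2 : ℝ) - K * 2 ^ 99) := by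
  push_cast
  ring

private theorem ItE_keyF (re im v1 K : ℕ) :
    (((re * v1 + 2199023255552 * (K * 2 ^ 99)) + 0 : ℕ) : ℝ) -
      (((2199023255552 * v1 + re * (K * 2 ^ 99)) + 0 : ℕ) : ℝ) =
    ((re : ℝ) - 2199023255552) * ((v1 : ℝ) - K * 2 ^ 99) -
      ((im : ℝ) - 2199023255552) * 0 := by
  push_cast
  ring

private theorem ItE_AB (cx : Bool) (b1 b2 b3 : Bool) (s : CSlot) :
    (ItE_A cx b1 b2 b3 s : ℝ) - ItE_B cx b1 b2 b3 s =
      ((⟨(s.re b1 b2 b3 : ℝ) - 2199023255552, (s.im b1 b2 b3 : ℝ) - 2199023255552⟩ : ℂ) *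
        ∑ k ∈ range (Kc cx), (sv b1 b2 b3 k : ℂ) * slD cx s.s k).re := by
  obtain ⟨S, hS⟩ : ∃ S, S = ∑ k ∈ range (Kc cx), (sv b1 b2 b3 k : ℂ) * slD cx s.s k := ⟨_, rfl⟩
  have h1 := valT_re cx s.s b1 b2 b3
  rw [← hS] at h1 ⊢
  rw [Complex.mul_re, ← h1]
  unfold ItE_A ItE_B
  rw [O99_eq]
  cases cx
  · have h2 := ItE_imfalse2 s.s b1 b2 b3
    rw [← hS] at h2
    rw [h2, Bool.cond_false]
    dsimp only
    exact ItE_keyF _ _ _ _
  · have h2 := valT_im s.s b1 b2 b3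
    rw [← hS] at h2
    rw [← h2, Bool.cond_true, Bool.cond_true]
    dsimp only
    exact ItE_key _ _ _ _ _

private theorem ItE_one (cx : Bool) (s1 s2 s3 : ℝ) (s : CSlot) (ζ : ℂ)
    (h : CSlotOK cx s1 s2 s3 s ζ) :
    vs s1 s2 s3 (fun b1 b2 b3 => (ItE_A cx b1 b2 b3 s : ℝ) - ItE_B cx b1 b2 b3 s) - errS cx s.s ≤
      2 ^ 40 * (slT cx s1 s2 s3 s.s * ζ).re := by
  have h1 := cslot_err cx s1 s2 s3 s ζ h
  have h2 := (Complex.abs_re_le_norm _).trans h1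
  rw [Complex.sub_re, ItE_vsC_re] at h2
  have h3 : ((2 : ℂ) ^ 40 * (slT cx s1 s2 s3 s.s * ζ)).re = 2 ^ 40 * (slT cx s1 s2 s3 s.s * ζ).re := by
    have : ((2 : ℂ) ^ 40) = (((2 : ℝ) ^ 40 : ℝ) : ℂ) := by push_cast; rfl
    rw [this, Complex.re_ofReal_mul]
  rw [h3] at h2
  have h4 : vs s1 s2 s3 (fun b1 b2 b3 => (ItE_A cx b1 b2 b3 s : ℝ) - ItE_B cx b1 b2 b3 s) =
      vs s1 s2 s3 (fun b1 b2 b3 => ((⟨(s.re b1 b2 b3 : ℝ) - 2199023255552,
        (s.im b1 b2 b3 : ℝ) - 2199023255552⟩ : ℂ) *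
        ∑ k ∈ range (Kc cx), (sv b1 b2 b3 k : ℂ) * slD cx s.s k).re) := by
    congr 1
    funext b1 b2 b3
    exact ItE_AB cx b1 b2 b3 s
  rw [h4]
  have h5 := (abs_le.1 h2).1
  linarith

theorem itemB_ge2 (cx : Bool) (s1 s2 s3 : ℝ) (h1 : |s1| ≤ 1) (h2 : |s2| ≤ 1) (h3 : |s3| ≤ 1) (l : List (Slot × ℝ))
    (hψ : ∀ q ∈ l, SlotOK cx s1 s2 s3 q.1 q.2) :
    2 ^ 40 * ‖(l.map fun q => slT cx s1 s2 s3 q.1 * (q.2 : ℂ)).sum‖ ≤
      2 ^ 76 * vs s1 s2 s3 (fun b1 b2 b3 => (itemB cx b1 b2 b3 (l.map Prod.fst) : ℝ)) := by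
  have hsh : ∀ x : ℕ, (x : ℝ) ≤ (2 : ℝ) ^ 76 * ((x >>> 76 + 1 : ℕ) : ℝ) := by
    intro x
    have h4 : x < 2 ^ 76 * (x / 2 ^ 76 + 1) := Nat.lt_mul_div_succ _ (by positivity)
    rw [Nat.shiftRight_eq_div_pow]
    exact_mod_cast h4.le
  obtain ⟨S, hS⟩ : ∃ S, S = (l.map fun q => slT cx s1 s2 s3 q.1 * (q.2 : ℂ)).sum := ⟨_, rfl⟩
  have herr := ItE_err cx s1 s2 s3 l hψ
  rw [← hS] at herr ⊢
  obtain ⟨F, hF⟩ : ∃ F : Bool → Bool → Bool → ℂ, F = fun b1 b2 b3 =>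
    ((l.map Prod.fst).map fun s => ((s.ph b1 b2 b3 : ℝ) : ℂ) * ItE_V cx s b1 b2 b3).sum := ⟨_, rfl⟩
  rw [← hF] at herr
  have h5 : 2 ^ 40 * ‖S‖ ≤ (sumErr cx (l.map Prod.fst) : ℝ) + ‖vsC s1 s2 s3 F‖ := by
    have h6 : (2 : ℝ) ^ 40 * ‖S‖ = ‖(2 : ℂ) ^ 40 * S‖ := by
      rw [norm_mul, norm_pow]
      simp
    rw [h6]
    have h7 : (2 : ℂ) ^ 40 * S = ((2 : ℂ) ^ 40 * S - vsC s1 s2 s3 F) + vsC s1 s2 s3 F := by ring
    rw [h7]
    exact (norm_add_le _ _).trans (add_le_add_left herr _)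
  refine h5.trans ?_
  have h8 : (sumErr cx (l.map Prod.fst) : ℝ) = vs s1 s2 s3 (fun _ _ _ => (sumErr cx (l.map Prod.fst) : ℝ)) := by
    have := ItE_vs_mul s1 s2 s3 (sumErr cx (l.map Prod.fst) : ℝ) (fun _ _ _ => 1)
    rw [vs_one] at this
    simp only [mul_one] at this
    exact this.symm
  have h9 := ItE_norm_vsC s1 s2 s3 h1 h2 h3 F
  calc (sumErr cx (l.map Prod.fst) : ℝ) + ‖vsC s1 s2 s3 F‖
      ≤ vs s1 s2 s3 (fun _ _ _ => (sumErr cx (l.map Prod.fst) : ℝ)) +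
        vs s1 s2 s3 (fun b1 b2 b3 => ‖F b1 b2 b3‖) := by rw [← h8]; linarith
    _ = vs s1 s2 s3 (fun b1 b2 b3 => (sumErr cx (l.map Prod.fst) : ℝ) + ‖F b1 b2 b3‖) :=
        (ItE_vs_add s1 s2 s3 _ _).symm
    _ ≤ vs s1 s2 s3 (fun b1 b2 b3 => 2 ^ 76 * (itemB cx b1 b2 b3 (l.map Prod.fst) : ℝ)) := by
        refine vs_mono s1 s2 s3 h1 h2 h3 _ _ fun b1 b2 b3 _ => ?_
        have h10 : itemB cx b1 b2 b3 (l.map Prod.fst) = ((cond cx
          (hyp (absS (sumRe cx b1 b2 b3 (l.map Prod.fst)) (sumPh b1 b2 b3 (l.map Prod.fst) * (Kc cx * O99)))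
            (absS (sumIm cx b1 b2 b3 (l.map Prod.fst)) (sumPh b1 b2 b3 (l.map Prod.fst) * (Kc cx * O99))))
          (absS (sumRe cx b1 b2 b3 (l.map Prod.fst)) (sumPh b1 b2 b3 (l.map Prod.fst) * (Kc cx * O99)))) >>> 76 + 1) +
          (sumErr cx (l.map Prod.fst) >>> 76 + 1) := rfl
        have h11 := ItE_vertex cx b1 b2 b3 (l.map Prod.fst)
        rw [h10, Nat.cast_add, mul_add, hF]
        simp only
        have h12 := hsh (sumErr cx (l.map Prod.fst))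
        have h13 := h11.trans (hsh _)
        linarith
    _ = 2 ^ 76 * vs s1 s2 s3 (fun b1 b2 b3 => (itemB cx b1 b2 b3 (l.map Prod.fst) : ℝ)) :=
        ItE_vs_mul s1 s2 s3 _ _

theorem main_ge2 (cx : Bool) (s1 s2 s3 : ℝ) (h1 : |s1| ≤ 1) (h2 : |s2| ≤ 1) (h3 : |s3| ≤ 1) (l : List (CSlot × ℂ))
    (hζ : ∀ q ∈ l, CSlotOK cx s1 s2 s3 q.1 q.2) :
    vs s1 s2 s3 (fun b1 b2 b3 => (mainP cx b1 b2 b3 (l.map Prod.fst) : ℝ) - mainN cx b1 b2 b3 (l.map Prod.fst)) -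
        mainE cx (l.map Prod.fst) ≤
      2 ^ 40 * ((l.map fun q => slT cx s1 s2 s3 q.1.s * q.2).sum).re := by
  have _ := h1
  have _ := h2
  have _ := h3
  induction l with
  | nil =>
    have h4 : ∀ b1 b2 b3, mainP cx b1 b2 b3 [] = 0 := fun _ _ _ => rfl
    have h5 : ∀ b1 b2 b3, mainN cx b1 b2 b3 [] = 0 := fun _ _ _ => rfl
    have h6 : mainE cx [] = 0 := rfl
    simp only [h4, h5, h6, List.map_nil, List.sum_nil]
    unfold vs
    simp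
  | cons q l ih =>
    have h4 := ih fun t ht => hζ t (List.mem_cons_of_mem _ ht)
    have h5 := ItE_one cx s1 s2 s3 q.1 q.2 (hζ q (List.mem_cons_self ..))
    have h6 : ∀ b1 b2 b3, mainP cx b1 b2 b3 ((q :: l).map Prod.fst) =
        mainP cx b1 b2 b3 (l.map Prod.fst) + ItE_A cx b1 b2 b3 q.1 :=
      fun _ _ _ => rfl
    have h7 : ∀ b1 b2 b3, mainN cx b1 b2 b3 ((q :: l).map Prod.fst) =
        mainN cx b1 b2 b3 (l.map Prod.fst) + ItE_B cx b1 b2 b3 q.1 :=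
      fun _ _ _ => rfl
    have h8 : mainE cx ((q :: l).map Prod.fst) = errS cx q.1.s + mainE cx (l.map Prod.fst) := rfl
    have h9 : vs s1 s2 s3 (fun b1 b2 b3 => (mainP cx b1 b2 b3 ((q :: l).map Prod.fst) : ℝ) -
        mainN cx b1 b2 b3 ((q :: l).map Prod.fst)) =
        vs s1 s2 s3 (fun b1 b2 b3 => (mainP cx b1 b2 b3 (l.map Prod.fst) : ℝ) -
          mainN cx b1 b2 b3 (l.map Prod.fst)) +
        vs s1 s2 s3 (fun b1 b2 b3 => (ItE_A cx b1 b2 b3 q.1 : ℝ) - ItE_B cx b1 b2 b3 q.1) := by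
      rw [← ItE_vs_add]
      congr 1
      funext b1 b2 b3
      rw [h6, h7]
      push_cast
      ring
    rw [h9, h8]
    simp only [List.map_cons, List.sum_cons]
    rw [Complex.add_re, Nat.cast_add]
    linarith

end Pool.Agent.MaxTerm59b
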