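import Pool.Agent.MaxTerm59b.DualB
import Pool.Agent.MaxTerm59b.ItE

/-! The dual inequality of a leaf: version with lists of pairs. The proof is the one of `dual_core` (file `DualB`). -/

namespace Pool.Agent.MaxTerm59b
open Finset

private theorem DualC_vs_add (s1 s2 s3 : ℝ) (f g : Bool → Bool → Bool → ℝ) :
    vs s1 s2 s3 (fun b1 b2 b3 => f b1 b2 b3 + g b1 b2 b3) = vs s1 s2 s3 f + vs s1 s2 s3 g := by
  simp only [vs, mul_add, Finset.sum_add_distrib]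

private theorem DualC_vs_smul (s1 s2 s3 : ℝ) (a : ℝ) (f : Bool → Bool → Bool → ℝ) :
    vs s1 s2 s3 (fun b1 b2 b3 => a * f b1 b2 b3) = a * vs s1 s2 s3 f := by
  simp only [vs, Finset.mul_sum]
  refine Finset.sum_congr rfl fun _ _ => Finset.sum_congr rfl fun _ _ => Finset.sum_congr rfl fun _ _ => ?_
  ring

private theorem DualC_vs_const (s1 s2 s3 : ℝ) (a : ℝ) :
    vs s1 s2 s3 (fun _ _ _ => a) = a := by
  have := DualC_vs_smul s1 s2 s3 a (fun _ _ _ => 1)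
  rw [vs_one] at this
  simpa using this

private theorem DualC_vs_list {α : Type} (s1 s2 s3 : ℝ) (labs : List α)
    (f : α → Bool → Bool → Bool → ℝ) :
    vs s1 s2 s3 (fun b1 b2 b3 => (labs.map fun l => f l b1 b2 b3).sum) =
      (labs.map fun l => vs s1 s2 s3 (f l)).sum := by
  induction labs with
  | nil => simpa using DualC_vs_const s1 s2 s3 0
  | cons a t ih =>
    simp only [List.map_cons, List.sum_cons]
    rw [DualC_vs_add, ih]

theorem dual_core2 {α : Type} [DecidableEq α] (cx : Bool) (s1 s2 s3 : ℝ) (h1 : |s1| ≤ 1) (h2 : |s2| ≤ 1)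
    (h3 : |s3| ≤ 1) (h3' : cx = false → s3 = -1) (labs : List α) (hnd : labs.Nodup) (it : α → Item)
    (hg : ∀ l ∈ labs, (it l).grp ≤ 2) (cz : List (CSlot × ℂ)) (tail e1 e2 : ℕ) (l1 l2 : Bool → Bool → Bool → ℕ)
    (cost : Bool → Bool → Bool → ℕ)
    (hv : ∀ b1 b2 b3, (cx = false → b3 = false) → runI cx b1 b2 b3 (l1 b1 b2 b3) (l2 b1 b2 b3) (labs.map it) 0 0 0
      (fun t x y => finV tail e1 e2 (Nat.succ (Nat.shiftRight (mainE cx (cz.map Prod.fst)) 76)) (cost b1 b2 b3)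
        (mainP cx b1 b2 b3 (cz.map Prod.fst)) (mainN cx b1 b2 b3 (cz.map Prod.fst)) t x y
        (l1 b1 b2 b3) (l2 b1 b2 b3)) = true)
    (x : α → ℂ) (hx : ∀ l ∈ labs, ‖x l‖ ≤ 1) (sz : α → List (Slot × ℝ))
    (hsz : ∀ l ∈ labs, (it l).sl = (sz l).map Prod.fst)
    (hψ : ∀ l ∈ labs, ∀ q ∈ sz l, SlotOK cx s1 s2 s3 q.1 q.2)
    (hζ : ∀ q ∈ cz, CSlotOK cx s1 s2 s3 q.1 q.2)
    (E1 E2 : ℝ) (hE1 : 0 ≤ E1) (hE2 : 0 ≤ E2) (he1 : E1 ≤ e1 / 2 ^ 40) (he2 : E2 ≤ e2 / 2 ^ 40)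
    (hb1 : ∃ u : α, ∑ l ∈ (labs.toFinset.filter fun l => (it l).grp = 1).erase u, ‖x l‖ ^ 2 ≤ E1 ∧
      (u ∈ labs → (it u).grp = 1 → (it u).cu = true))
    (hb2 : ∃ u : α, ∑ l ∈ (labs.toFinset.filter fun l => (it l).grp = 2).erase u, ‖x l‖ ^ 2 ≤ E2 ∧
      (u ∈ labs → (it u).grp = 2 → (it u).cu = true))
    (hmain : ‖(cz.map fun q => slT cx s1 s2 s3 q.1.s * q.2).sum +
        (labs.map fun l => ((sz l).map fun q => slT cx s1 s2 s3 q.1 * (q.2 : ℂ)).sum * x l).sum‖ ≤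
      (170919 / 100000 + tail / 2 ^ 40 + 1 / 2 ^ 28) * 2 ^ 40 *
        vs s1 s2 s3 (fun b1 b2 b3 => (cost b1 b2 b3 : ℝ))) : False := by
  set co : List CSlot := cz.map Prod.fst with hco
  set ec : ℕ := Nat.succ (Nat.shiftRight (mainE cx co) 76) with hec
  set K : ℝ := 170919 / 100000 + tail / 2 ^ 40 with hK
  set C : ℝ := vs s1 s2 s3 (fun b1 b2 b3 => (cost b1 b2 b3 : ℝ)) with hC
  set A : ℂ := (cz.map fun q => slT cx s1 s2 s3 q.1.s * q.2).sum with hA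
  set F : α → ℂ := fun l => ((sz l).map fun q => slT cx s1 s2 s3 q.1 * (q.2 : ℂ)).sum with hF
  set I : α → ℝ := fun l => vs s1 s2 s3 (fun b1 b2 b3 => (itemB cx b1 b2 b3 (it l).sl : ℝ)) with hI
  -- cost nonneg
  have hC0 : 0 ≤ C := by
    refine Finset.sum_nonneg fun b1 _ => Finset.sum_nonneg fun b2 _ => Finset.sum_nonneg fun b3 _ => ?_
    exact mul_nonneg (wt_nonneg s1 s2 s3 h1 h2 h3 b1 b2 b3) (Nat.cast_nonneg _)
  -- the vertices
  have hvert : ∀ b1 b2 b3, wt s1 s2 s3 b1 b2 b3 ≠ 0 →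
      2 ^ 76 * ((ec : ℝ) + (labs.map fun l => (itemB cx b1 b2 b3 (it l).sl : ℝ) * ‖x l‖).sum +
        16 * (cost b1 b2 b3 : ℝ) * (K + 1 / 2 ^ 27)) ≤
      (mainP cx b1 b2 b3 co : ℝ) - mainN cx b1 b2 b3 co := by
    intro b1 b2 b3 hw
    have hb3 : cx = false → b3 = false := by
      intro hcx
      rw [h3' hcx] at hw
      exact wt_false s1 s2 b1 b2 b3 hw
    have hh := vertex_sum cx b1 b2 b3 (l1 b1 b2 b3) (l2 b1 b2 b3) labs hnd it hg (fun l => ‖x l‖)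
      (fun l _ => norm_nonneg _) hx E1 E2 hE1 hE2 hb1 hb2 tail e1 e2 ec (cost b1 b2 b3)
      (mainP cx b1 b2 b3 co) (mainN cx b1 b2 b3 co) he1 he2 (hv b1 b2 b3 hb3)
    rw [hK]
    linarith
  have hmono := vs_mono s1 s2 s3 h1 h2 h3 _ _ hvert
  -- linearity
  have hlin : vs s1 s2 s3 (fun b1 b2 b3 => 2 ^ 76 * ((ec : ℝ) +
      (labs.map fun l => (itemB cx b1 b2 b3 (it l).sl : ℝ) * ‖x l‖).sum +
        16 * (cost b1 b2 b3 : ℝ) * (K + 1 / 2 ^ 27))) =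
      2 ^ 76 * ((ec : ℝ) + (labs.map fun l => I l * ‖x l‖).sum + 16 * C * (K + 1 / 2 ^ 27)) := by
    rw [DualC_vs_smul, DualC_vs_add, DualC_vs_add, DualC_vs_const, DualC_vs_list]
    have e1 : ∀ l, vs s1 s2 s3 (fun b1 b2 b3 => (itemB cx b1 b2 b3 (it l).sl : ℝ) * ‖x l‖) = I l * ‖x l‖ := by
      intro l
      rw [hI, mul_comm, ← DualC_vs_smul]
      congr 1
      funext b1 b2 b3
      ring
    have e2 : vs s1 s2 s3 (fun b1 b2 b3 => 16 * (cost b1 b2 b3 : ℝ) * (K + 1 / 2 ^ 27)) =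
        16 * C * (K + 1 / 2 ^ 27) := by
      rw [hC, mul_right_comm, ← DualC_vs_smul]
      congr 1
      funext b1 b2 b3
      ring
    rw [e2]
    simp only [e1]
  rw [hlin] at hmono
  -- the constants
  have hmg := main_ge2 cx s1 s2 s3 h1 h2 h3 cz hζ
  rw [← hA, ← hco] at hmg
  have hre : A.re ≤ ‖A‖ := Complex.re_le_norm A
  have htri : ‖A‖ ≤ ‖A + (labs.map fun l => F l * x l).sum‖ + ‖(labs.map fun l => F l * x l).sum‖ := by
    have := norm_sub_le (A + (labs.map fun l => F l * x l).sum) (labs.map fun l => F l * x l).sum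
    simpa using this
  have hsum : ∀ L : List α, (∀ l ∈ L, l ∈ labs) →
      2 ^ 40 * ‖(L.map fun l => F l * x l).sum‖ ≤ 2 ^ 76 * (L.map fun l => I l * ‖x l‖).sum := by
    intro L hL
    induction L with
    | nil => simp
    | cons a t ih =>
      simp only [List.map_cons, List.sum_cons]
      have ha : a ∈ labs := hL a (by simp)
      have ih' := ih (fun l hl => hL l (by simp [hl]))
      have hit := itemB_ge2 cx s1 s2 s3 h1 h2 h3 (sz a) (hψ a ha)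
      rw [← hsz a ha] at hit
      have hit2 : 2 ^ 40 * ‖F a * x a‖ ≤ 2 ^ 76 * (I a * ‖x a‖) := by
        rw [norm_mul, ← mul_assoc, ← mul_assoc]
        exact mul_le_mul_of_nonneg_right hit (norm_nonneg _)
      have htr := norm_add_le (F a * x a) (t.map fun l => F l * x l).sum
      have h40 : (0 : ℝ) ≤ 2 ^ 40 := by positivity
      have := mul_le_mul_of_nonneg_left htr h40
      rw [mul_add] at this ⊢
      linarith
  have hs := hsum labs (fun l hl => hl)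
  have hmain' : ‖A + (labs.map fun l => F l * x l).sum‖ ≤ (K + 1 / 2 ^ 28) * 2 ^ 40 * C := hmain
  have hE : (mainE cx co : ℝ) < 2 ^ 76 * (ec : ℝ) := by
    have hnat : mainE cx co < 2 ^ 76 * ec := by
      have h76 : Nat.shiftRight (mainE cx co) 76 = mainE cx co / 2 ^ 76 := Nat.shiftRight_eq_div_pow _ _
      have hlt := Nat.lt_mul_div_succ (mainE cx co) (b := 2 ^ 76) (by positivity)
      rw [hec, h76]
      exact hlt
    have hcast : ((mainE cx co : ℕ) : ℝ) < ((2 ^ 76 * ec : ℕ) : ℝ) := Nat.cast_lt.2 hnat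
    rwa [Nat.cast_mul, Nat.cast_pow, Nat.cast_ofNat] at hcast
  have h40 : (0 : ℝ) ≤ 2 ^ 40 := by positivity
  have t1 := mul_le_mul_of_nonneg_left (le_trans hre (le_trans htri (add_le_add hmain' le_rfl))) h40
  rw [mul_add] at t1
  have t2 : (2 : ℝ) ^ 40 * ((K + 1 / 2 ^ 28) * 2 ^ 40 * C) = 2 ^ 80 * (K + 1 / 2 ^ 28) * C := by ring
  have t3 : (2 : ℝ) ^ 76 * ((ec : ℝ) + (labs.map fun l => I l * ‖x l‖).sum + 16 * C * (K + 1 / 2 ^ 27)) =
      2 ^ 76 * (ec : ℝ) + 2 ^ 76 * (labs.map fun l => I l * ‖x l‖).sum + 2 ^ 80 * (K + 1 / 2 ^ 27) * C := by ring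
  have t4 : (2 : ℝ) ^ 80 * (K + 1 / 2 ^ 27) * C = 2 ^ 80 * (K + 1 / 2 ^ 28) * C + 2 ^ 52 * C := by
    ring
  have t5 : (0 : ℝ) ≤ 2 ^ 52 * C := mul_nonneg (pow_nonneg zero_le_two _) hC0
  rw [t2] at t1
  rw [t3, t4] at hmono
  linarith

end Pool.Agent.MaxTerm59b
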