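import Pool.Agent.MaxTerm59b.Sp

/-! The inequality of a row and of a side. -/

namespace Pool.Agent.MaxTerm59b
open Finset
open scoped ComplexConjugate

private theorem RowD_inj (M : ℕ) (hM : 0 < M) (j : ℤ) :
    Function.Injective fun i : ℤ => j + i * M := by
  intro a b h
  have h1 : a * (M : ℤ) = b * M := add_left_cancel h
  exact mul_right_cancel₀ (by exact_mod_cast hM.ne') h1

private theorem RowD_root (M : ℕ) (hM : 0 < M) (k : ℤ) :
    ∑ s ∈ Finset.range M, (Complex.exp (2 * Real.pi * Complex.I / (M : ℂ)) ^ s) ^ k =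
      if (M : ℤ) ∣ k then (M : ℂ) else 0 := by
  have hprim := Complex.isPrimitiveRoot_exp M hM.ne'
  set ζ := Complex.exp (2 * Real.pi * Complex.I / (M : ℂ)) with hζ
  have h1 : ∀ s : ℕ, (ζ ^ s) ^ k = (ζ ^ k) ^ s := by
    intro s
    rw [← zpow_natCast, ← zpow_natCast, ← zpow_mul, ← zpow_mul, mul_comm]
  simp only [h1]
  split_ifs with hk
  · have h2 : ζ ^ k = 1 := (hprim.zpow_eq_one_iff_dvd k).2 hk
    simp [h2]
  · have h2 : ζ ^ k ≠ 1 := fun h => hk ((hprim.zpow_eq_one_iff_dvd k).1 h)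
    have h3 : (ζ ^ k) ^ M = 1 := by
      rw [← h1, hprim.pow_eq_one, one_zpow]
    rw [geom_sum_eq h2, h3, sub_self, zero_div]

private theorem RowD_norm_root (M : ℕ) (hM : 0 < M) {z w : ℂ} (hz : ‖z‖ = 1) (hw : w ^ M = z)
    (s : ℕ) : ‖w * Complex.exp (2 * Real.pi * Complex.I / (M : ℂ)) ^ s‖ = 1 := by
  have hprim := Complex.isPrimitiveRoot_exp M hM.ne'
  have h1 : ‖w‖ = 1 := by
    have h2 : ‖w‖ ^ M = 1 := by rw [← norm_pow, hw, hz]
    exact (pow_eq_one_iff_of_nonneg (norm_nonneg _) hM.ne').1 h2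
  rw [norm_mul, norm_pow, hprim.norm'_eq_one hM.ne', one_pow, mul_one, h1]

/-- The averaging identity. -/
private theorem RowD_avg (c : ℤ → ℂ) (hs : Summable fun n => ‖c n‖) (M : ℕ) (hM : 0 < M)
    (j : ℤ) {z w : ℂ} (hz : ‖z‖ = 1) (hw : w ^ M = z) :
    ∑ s ∈ Finset.range M,
      (w * Complex.exp (2 * Real.pi * Complex.I / (M : ℂ)) ^ s) ^ (-j) *
        ∑' n : ℤ, c n * (w * Complex.exp (2 * Real.pi * Complex.I / (M : ℂ)) ^ s) ^ n =
      M * ∑' i : ℤ, c (j + i * M) * z ^ i := by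
  set ζ := Complex.exp (2 * Real.pi * Complex.I / (M : ℂ)) with hζ
  have hnorm : ∀ s : ℕ, ‖w * ζ ^ s‖ = 1 := RowD_norm_root M hM hz hw
  have hne : ∀ s : ℕ, w * ζ ^ s ≠ 0 := by
    intro s h
    have := hnorm s
    rw [h, norm_zero] at this
    exact zero_ne_one this
  have hw0 : w ≠ 0 := by
    have := hne 0
    simpa using this
  have h1 : ∀ s : ℕ, (w * ζ ^ s) ^ (-j) * ∑' n : ℤ, c n * (w * ζ ^ s) ^ n =
      ∑' n : ℤ, c n * w ^ (n - j) * (ζ ^ s) ^ (n - j) := by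
    intro s
    rw [← tsum_mul_left]
    congr 1
    ext n
    have h2 : (w * ζ ^ s) ^ (n - j) = w ^ (n - j) * (ζ ^ s) ^ (n - j) := mul_zpow _ _ _
    rw [mul_assoc, ← h2, zpow_sub₀ (hne s), zpow_neg]
    field_simp
  have hsum : ∀ s : ℕ, Summable fun n : ℤ => c n * w ^ (n - j) * (ζ ^ s) ^ (n - j) := by
    intro s
    apply Summable.of_norm
    refine hs.congr fun n => ?_
    rw [mul_assoc, ← mul_zpow, norm_mul, norm_zpow, hnorm s, one_zpow, mul_one]
  rw [Finset.sum_congr rfl fun s _ => h1 s, ← Summable.tsum_finsetSum fun s _ => hsum s]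
  have h3 : ∀ n : ℤ, ∑ s ∈ Finset.range M, c n * w ^ (n - j) * (ζ ^ s) ^ (n - j) =
      c n * w ^ (n - j) * (if (M : ℤ) ∣ (n - j) then (M : ℂ) else 0) := by
    intro n
    rw [← Finset.mul_sum, RowD_root M hM]
  simp only [h3]
  have hsupp : Function.support (fun n : ℤ => c n * w ^ (n - j) *
      (if (M : ℤ) ∣ (n - j) then (M : ℂ) else 0)) ⊆ Set.range fun i : ℤ => j + i * M := by
    intro n hn
    rw [Function.mem_support] at hn
    by_cases hd : (M : ℤ) ∣ (n - j)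
    · obtain ⟨i, hi⟩ := hd
      refine ⟨i, ?_⟩
      simp only
      linarith [mul_comm (M : ℤ) i]
    · simp [hd] at hn
  rw [← (RowD_inj M hM j).tsum_eq hsupp, ← tsum_mul_left]
  congr 1
  ext i
  have h4 : j + i * (M : ℤ) - j = i * M := by ring
  rw [h4, if_pos (Dvd.intro_left i rfl), mul_comm i (M : ℤ), zpow_mul, zpow_natCast, hw]
  ring

private theorem RowD_exists_root (M : ℕ) (hM : 0 < M) (z : ℂ) : ∃ w : ℂ, w ^ M = z :=
  ⟨z ^ ((M : ℂ)⁻¹), Complex.cpow_nat_inv_pow z hM.ne'⟩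

/-- orthogonality of the powers of `th s = η (w ζ ^ s) ^ (-k)` -/
private theorem RowD_orth (M : ℕ) (hM : 0 < M) (k : ℤ) (n : ℕ) (hord : ∀ d : ℤ, 0 < d → d ≤ n → ¬ (M : ℤ) ∣ d * k)
    (η : ℂ) (hη : ‖η‖ = 1) {z w : ℂ} (hz : ‖z‖ = 1) (hw : w ^ M = z) (g : ℕ → ℂ) :
    ∑ s ∈ range M, ‖∑ a ∈ range (n + 1), g a *
      (η * (w * Complex.exp (2 * Real.pi * Complex.I / (M : ℂ)) ^ s) ^ (-k)) ^ a‖ ^ 2 =
      M * ∑ a ∈ range (n + 1), ‖g a‖ ^ 2 := by
  have hnorm := RowD_norm_root M hM hz hw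
  set ζ := Complex.exp (2 * Real.pi * Complex.I / (M : ℂ)) with hζ
  have hwn : ‖w‖ = 1 := by simpa using hnorm 0
  have hw0 : w ≠ 0 := by
    intro h
    rw [h, norm_zero] at hwn
    exact zero_ne_one hwn
  have hη0 : η ≠ 0 := by
    intro h
    rw [h, norm_zero] at hη
    exact zero_ne_one hη
  have hthn : ∀ s, ‖η * (w * ζ ^ s) ^ (-k)‖ = 1 := by
    intro s
    rw [norm_mul, norm_zpow, hnorm s, hη, one_zpow, one_mul]
  have hth0 : ∀ s, η * (w * ζ ^ s) ^ (-k) ≠ 0 := by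
    intro s h
    have := hthn s
    rw [h, norm_zero] at this
    exact zero_ne_one this
  have hcast : ((∑ s ∈ range M, ‖∑ a ∈ range (n + 1), g a * (η * (w * ζ ^ s) ^ (-k)) ^ a‖ ^ 2 : ℝ) : ℂ) =
      ((M * ∑ a ∈ range (n + 1), ‖g a‖ ^ 2 : ℝ) : ℂ) := by
    push_cast
    have h1 : ∀ s, ((‖∑ a ∈ range (n + 1), g a * (η * (w * ζ ^ s) ^ (-k)) ^ a‖ : ℂ)) ^ 2 =
        ∑ a ∈ range (n + 1), ∑ b ∈ range (n + 1), g a * conj (g b) *
          (η * (w * ζ ^ s) ^ (-k)) ^ ((a : ℤ) - b) := by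
      intro s
      rw [← Complex.mul_conj', map_sum, Finset.sum_mul_sum]
      refine Finset.sum_congr rfl fun a _ => Finset.sum_congr rfl fun b _ => ?_
      rw [map_mul, map_pow, zpow_sub₀ (hth0 s), zpow_natCast, zpow_natCast,
        ← Complex.inv_eq_conj (hthn s), inv_pow]
      field_simp
    rw [Finset.sum_congr rfl fun s _ => h1 s, Finset.sum_comm, Finset.mul_sum]
    refine Finset.sum_congr rfl fun a ha => ?_
    rw [Finset.sum_comm]
    have h2 : ∀ b ∈ range (n + 1), ∑ s ∈ range M, g a * conj (g b) * (η * (w * ζ ^ s) ^ (-k)) ^ ((a : ℤ) - b) =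
        if a = b then g a * conj (g b) * M else 0 := by
      intro b hb
      have h3 : ∀ s : ℕ, (η * (w * ζ ^ s) ^ (-k)) ^ ((a : ℤ) - b) =
          (η * w ^ (-k)) ^ ((a : ℤ) - b) * (ζ ^ s) ^ (-k * ((a : ℤ) - b)) := by
        intro s
        rw [mul_zpow w, ← mul_assoc, mul_zpow, ← zpow_mul]
      rw [← Finset.mul_sum, Finset.sum_congr rfl fun s _ => h3 s, ← Finset.mul_sum, RowD_root M hM]
      rw [Finset.mem_range] at ha hb
      by_cases hab : a = b
      · subst hab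
        simp
      · rw [if_neg hab, if_neg]
        · simp
        · intro hd
          rcases lt_or_gt_of_ne hab with h | h
          · refine hord ((b : ℤ) - a) (by omega) (by omega) ?_
            have : ((b : ℤ) - a) * k = -k * ((a : ℤ) - b) := by ring
            rw [this]
            exact hd
          · refine hord ((a : ℤ) - b) (by omega) (by omega) ?_
            have : ((a : ℤ) - b) * k = -(-k * ((a : ℤ) - b)) := by ring
            rw [this]
            exact (dvd_neg).2 hd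
    rw [Finset.sum_congr rfl h2, Finset.sum_ite_eq, if_pos ha, Complex.mul_conj']
    ring
  exact_mod_cast hcast

/-- averaging: a bounded function on the circle gives the row inequality for the classes modulo `m` -/
theorem rowHyp_of_bound (m : ℕ) (hm : 0 < m) (k : ℤ) (f : ℤ → ℂ) (hf : Summable fun i => ‖f i‖)
    (hB : ∀ z : ℂ, ‖z‖ = 1 → ‖∑' i : ℤ, f i * z ^ i‖ ≤ 170919 / 100000) (n : ℕ)
    (hord : ∀ d : ℤ, 0 < d → d ≤ n → ¬ (m : ℤ) ∣ d * k) (η : ℂ) (hη : ‖η‖ = 1) :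
    RowHyp n (fun d p => f (d * k + p * m) * η ^ d) := by
  refine ⟨fun d _ => ?_, fun z hz g h => ?_⟩
  · refine (hf.comp_injective (RowD_inj m hm (d * k))).congr fun p => ?_
    rw [norm_mul, norm_zpow, hη, one_zpow, mul_one]
    rfl
  · obtain ⟨w, hw⟩ := RowD_exists_root m hm z
    have hnorm := RowD_norm_root m hm hz hw
    have hG := RowD_orth m hm k n hord η hη hz hw g
    have hH := RowD_orth m hm k n hord η hη hz hw h
    set ζ := Complex.exp (2 * Real.pi * Complex.I / (m : ℂ)) with hζ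
    have hη0 : η ≠ 0 := by
      intro h
      rw [h, norm_zero] at hη
      exact zero_ne_one hη
    have hthn : ∀ s, ‖η * (w * ζ ^ s) ^ (-k)‖ = 1 := by
      intro s
      rw [norm_mul, norm_zpow, hnorm s, hη, one_zpow, one_mul]
    have hth0 : ∀ s, η * (w * ζ ^ s) ^ (-k) ≠ 0 := by
      intro s h
      have := hthn s
      rw [h, norm_zero] at this
      exact zero_ne_one this
    have hmpos : (0 : ℝ) < m := by exact_mod_cast hm
    -- the identity
    have hid : (m : ℂ) * ∑ a ∈ range (n + 1), ∑ b ∈ range (n + 1), conj (h b) * g a *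
        ∑' p : ℤ, f (((a : ℤ) - b) * k + p * m) * η ^ ((a : ℤ) - b) * z ^ p =
        ∑ s ∈ range m, (∑' i : ℤ, f i * (w * ζ ^ s) ^ i) *
          ((∑ a ∈ range (n + 1), g a * (η * (w * ζ ^ s) ^ (-k)) ^ a) *
            conj (∑ b ∈ range (n + 1), h b * (η * (w * ζ ^ s) ^ (-k)) ^ b)) := by
      have e1 : ∀ s, (∑' i : ℤ, f i * (w * ζ ^ s) ^ i) *
          ((∑ a ∈ range (n + 1), g a * (η * (w * ζ ^ s) ^ (-k)) ^ a) *
            conj (∑ b ∈ range (n + 1), h b * (η * (w * ζ ^ s) ^ (-k)) ^ b)) =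
          ∑ a ∈ range (n + 1), ∑ b ∈ range (n + 1), conj (h b) * g a * η ^ ((a : ℤ) - b) *
            ((w * ζ ^ s) ^ (-(((a : ℤ) - b) * k)) * ∑' i : ℤ, f i * (w * ζ ^ s) ^ i) := by
        intro s
        rw [map_sum, Finset.sum_mul_sum, Finset.mul_sum]
        refine Finset.sum_congr rfl fun a _ => ?_
        rw [Finset.mul_sum]
        refine Finset.sum_congr rfl fun b _ => ?_
        have e2 : (w * ζ ^ s) ^ (-(((a : ℤ) - b) * k)) * η ^ ((a : ℤ) - b) =
            (η * (w * ζ ^ s) ^ (-k)) ^ ((a : ℤ) - b) := by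
          rw [mul_zpow η ((w * ζ ^ s) ^ (-k)), ← zpow_mul, mul_comm (η ^ ((a : ℤ) - b))]
          congr 2
          ring
        have e3 : (η * (w * ζ ^ s) ^ (-k)) ^ ((a : ℤ) - b) =
            (η * (w * ζ ^ s) ^ (-k)) ^ a * conj ((η * (w * ζ ^ s) ^ (-k)) ^ b) := by
          rw [zpow_sub₀ (hth0 s), zpow_natCast, zpow_natCast, map_pow, ← Complex.inv_eq_conj (hthn s), inv_pow,
            div_eq_mul_inv]
        rw [map_mul]
        calc _ = conj (h b) * g a * ((η * (w * ζ ^ s) ^ (-k)) ^ a * conj ((η * (w * ζ ^ s) ^ (-k)) ^ b)) *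
              ∑' i : ℤ, f i * (w * ζ ^ s) ^ i := by ring
          _ = _ := by
            rw [← e3, ← e2]
            ring
      rw [Finset.sum_congr rfl fun s _ => e1 s]
      conv_rhs => rw [Finset.sum_comm]
      rw [Finset.mul_sum]
      refine Finset.sum_congr rfl fun a _ => ?_
      conv_rhs => rw [Finset.sum_comm]
      rw [Finset.mul_sum]
      refine Finset.sum_congr rfl fun b _ => ?_
      rw [← Finset.mul_sum, RowD_avg f hf m hm (((a : ℤ) - b) * k) hz hw]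
      have e4 : ∑' p : ℤ, f (((a : ℤ) - b) * k + p * m) * η ^ ((a : ℤ) - b) * z ^ p =
          η ^ ((a : ℤ) - b) * ∑' p : ℤ, f (((a : ℤ) - b) * k + p * m) * z ^ p := by
        rw [← tsum_mul_left]
        congr 1
        ext p
        ring
      rw [e4]
      ring
    have hle : (m : ℝ) * ‖∑ a ∈ range (n + 1), ∑ b ∈ range (n + 1), conj (h b) * g a *
        ∑' p : ℤ, f (((a : ℤ) - b) * k + p * m) * η ^ ((a : ℤ) - b) * z ^ p‖ ≤
        170919 / 100000 * (m * (Real.sqrt (∑ a ∈ range (n + 1), ‖g a‖ ^ 2) *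
          Real.sqrt (∑ b ∈ range (n + 1), ‖h b‖ ^ 2))) := by
      have e5 : (m : ℝ) * ‖∑ a ∈ range (n + 1), ∑ b ∈ range (n + 1), conj (h b) * g a *
          ∑' p : ℤ, f (((a : ℤ) - b) * k + p * m) * η ^ ((a : ℤ) - b) * z ^ p‖ =
          ‖(m : ℂ) * ∑ a ∈ range (n + 1), ∑ b ∈ range (n + 1), conj (h b) * g a *
          ∑' p : ℤ, f (((a : ℤ) - b) * k + p * m) * η ^ ((a : ℤ) - b) * z ^ p‖ := by
        rw [norm_mul, Complex.norm_natCast]
      rw [e5, hid]
      refine (norm_sum_le _ _).trans ?_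
      have e6 : ∀ s ∈ range m, ‖(∑' i : ℤ, f i * (w * ζ ^ s) ^ i) *
          ((∑ a ∈ range (n + 1), g a * (η * (w * ζ ^ s) ^ (-k)) ^ a) *
            conj (∑ b ∈ range (n + 1), h b * (η * (w * ζ ^ s) ^ (-k)) ^ b))‖ ≤
          170919 / 100000 * (‖∑ a ∈ range (n + 1), g a * (η * (w * ζ ^ s) ^ (-k)) ^ a‖ *
            ‖∑ b ∈ range (n + 1), h b * (η * (w * ζ ^ s) ^ (-k)) ^ b‖) := by
        intro s _
        rw [norm_mul, norm_mul, RCLike.norm_conj]
        exact mul_le_mul_of_nonneg_right (hB _ (hnorm s)) (by positivity)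
      refine (Finset.sum_le_sum e6).trans ?_
      rw [← Finset.mul_sum]
      refine mul_le_mul_of_nonneg_left ?_ (by norm_num)
      refine (Real.sum_mul_le_sqrt_mul_sqrt _ _ _).trans ?_
      rw [hG, hH, Real.sqrt_mul hmpos.le, Real.sqrt_mul hmpos.le]
      have e7 := Real.mul_self_sqrt hmpos.le
      refine le_of_eq ?_
      calc _ = (Real.sqrt m * Real.sqrt m) * (Real.sqrt (∑ a ∈ range (n + 1), ‖g a‖ ^ 2) *
            Real.sqrt (∑ b ∈ range (n + 1), ‖h b‖ ^ 2)) := by ring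
        _ = _ := by rw [e7]
    have : (m : ℝ) * ‖∑ a ∈ range (n + 1), ∑ b ∈ range (n + 1), conj (h b) * g a *
        ∑' p : ℤ, f (((a : ℤ) - b) * k + p * m) * η ^ ((a : ℤ) - b) * z ^ p‖ ≤
        m * (170919 / 100000 * (Real.sqrt (∑ a ∈ range (n + 1), ‖g a‖ ^ 2) *
          Real.sqrt (∑ b ∈ range (n + 1), ‖h b‖ ^ 2))) := by
      refine hle.trans (le_of_eq ?_)
      ring
    exact le_of_mul_le_mul_left this hmpos

end Pool.Agent.MaxTerm59b
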