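import Pool.Agent.MaxTerm59b.MvDef
import Pool.Agent.MaxTerm59b.RowD

/-! Mismatched vertex with a generic ratio: basic facts. -/

namespace Pool.Agent.MaxTerm59b
open Finset Pool.Agent.MaxTerm58

theorem OutX.toA {md g : ℕ} {D : ℝ} {r : ℕ → ℂ} (h : OutX md g D r) : OutA g D r := by
  rcases h with ⟨-, h⟩ | ⟨-, h⟩ | ⟨-, h⟩
  · exact h
  · exact h.toA
  · exact outN_toA h

private theorem MvA_summ (r : ℕ → ℂ) (ρ : ℝ) (h0 : 0 ≤ ρ) (h1 : ρ < 1)
    (h : ∀ i, ‖r i‖ ≤ ρ ^ (i + 1)) : Summable fun i => ‖r i‖ :=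
  Summable.of_nonneg_of_le (fun _ => norm_nonneg _) h
    ((summable_nat_add_iff 1).2 (summable_geometric_of_lt_one h0 h1))

private theorem MvA_summV (v : ℤ → ℂ) (k l : ℕ) (hR : Summable fun i : ℕ => ‖v (k + (i : ℤ))‖)
    (hL : Summable fun i : ℕ => ‖v (-(l : ℤ) - (i : ℤ))‖) : Summable fun n => ‖v n‖ := by
  have h1 : Summable fun n : ℕ => ‖v (n : ℤ)‖ := by
    refine (summable_nat_add_iff k).1 (hR.congr fun i => ?_)
    congr 2
    push_cast
    ring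
  have h2 : Summable fun n : ℕ => ‖v (-(n : ℤ))‖ := by
    refine (summable_nat_add_iff l).1 (hL.congr fun i => ?_)
    congr 2
    push_cast
    ring
  exact Summable.of_nat_of_neg h1 h2

private theorem MvA_bd {m1 : ℕ} {s : ℂ} {v : ℤ → ℂ}
    (H : ∀ X < 2, ∀ z : ℂ, ‖z‖ = 1 → ‖∑' n : ℤ, v n * s ^ eaZ m1 X n * z ^ n‖ ≤ 170919 / 100000) :
    ∀ X < 3, ∀ z : ℂ, ‖z‖ = 1 →
      ‖∑' n : ℤ, v n * (s ^ eaZ m1 X n * (0 : ℂ) ^ ebZ 0 X n) * z ^ n‖ ≤ 170919 / 100000 := by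
  intro X hX z hz
  have h0 : ∀ n : ℤ, ebZ 0 X n = 0 := fun n => by
    unfold ebZ
    rw [if_pos rfl]
  simp_rw [h0, pow_zero, mul_one]
  rcases Nat.lt_or_ge X 2 with h | h
  · exact H X h z hz
  · have h2 : X = 2 := by omega
    subst h2
    have h3 : ∀ n : ℤ, eaZ m1 2 n = eaZ m1 1 n := fun n => by
      unfold eaZ
      rw [if_neg (by norm_num), if_neg (by norm_num)]
    simp_rw [h3]
    exact H 1 (by norm_num) z hz

/-- outer coefficients: bound by a power of a number smaller than one -/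
private theorem MvA_outA {g : ℕ} {D : ℝ} (hD : D ≤ 7601 / 10000) {r : ℕ → ℂ}
    (h : OutA g D r) : ∃ y : ℝ, 0 ≤ y ∧ y < 1 ∧ ∀ i, ‖r i‖ ≤ y ^ (i + 1) := by
  obtain ⟨y, c, u, hy0, hyD, hc0, hc1, -, hr⟩ := h
  have hy1 : y < 1 := by
    by_contra hc
    push Not at hc
    have := one_le_pow₀ hc (n := g)
    linarith
  exact ⟨y, hy0, hy1, fun i => (hr i).trans (mul_le_of_le_one_left (pow_nonneg hy0 _) (hc1 i))⟩

variable {RM LM a b : ℕ} {x : ℂ} {D : ℝ} {v : ℤ → ℂ}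

theorem HypMV.x01 (H : HypMV RM LM a b x D v) : 0 < ‖x‖ ∧ ‖x‖ < 1 := by
  refine ⟨norm_pos_iff.2 H.M.x0, ?_⟩
  by_contra hc
  push Not at hc
  have h1 := one_le_pow₀ hc (n := a)
  have h2 := H.M.ht
  linarith

theorem HypMV.D01 (H : HypMV RM LM a b x D v) : 0 ≤ D ∧ D ≤ 7601 / 10000 := by
  refine ⟨?_, H.M.hD1⟩
  obtain ⟨y, c, u, hy0, hyD, -⟩ := H.oR.toA
  exact (pow_nonneg hy0 _).trans hyD

/-- Hint: the coefficients beyond the units are at most `y ^ (i + 1)` with `y < 1`. -/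
theorem HypMV.summ (H : HypMV RM LM a b x D v) : Summable fun n => ‖v n‖ := by
  obtain ⟨y, hy0, hy1, hy⟩ := MvA_outA H.M.hD1 H.oR.toA
  obtain ⟨w, hw0, hw1, hw⟩ := MvA_outA H.M.hD1 H.oL.toA
  refine MvA_summV v (b + 1) (a + 1) ?_ ?_
  · refine (MvA_summ _ y hy0 hy1 hy).congr fun i => ?_
    congr 2
  · refine (MvA_summ _ w hw0 hw1 hw).congr fun i => ?_
    congr 2
    push_cast
    ring

/-- Hint: between the units: `Pool.Agent.MaxTerm58.HypM.innR`, `HypM.innL` (build `HypV 0 0 x 0 v` as in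
`Pool.Agent.MaxTerm58.HypM.toV`, with `HypMV.summ`); beyond the units: `c i ≤ 1`, `y ≤ 1`. -/
theorem HypMV.v_le_one (H : HypMV RM LM a b x D v) (n : ℤ) : ‖v n‖ ≤ 1 := by
  have ha := H.ha
  have hab := H.hab
  have HV : HypV 0 0 x 0 v := ⟨H.x01.2.le, by simp, H.summ, MvA_bd H.M.bd⟩
  have hx0 : ∀ k : ℕ, 0 ≤ ‖x‖ ^ k := fun k => pow_nonneg (norm_nonneg _) k
  have hsq : ∀ t : ℝ, 0 ≤ t → t ^ 2 ≤ 1 → t ≤ 1 := fun t h0 h1 => by nlinarith
  rcases lt_trichotomy n 0 with hn | hn | hn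
  · -- negative
    rcases lt_trichotomy n (-(a : ℤ)) with hna | hna | hna
    · obtain ⟨w, hw0, hw1, hw⟩ := MvA_outA H.M.hD1 H.oL.toA
      have h1 := hw (-(a : ℤ) - 1 - n).toNat
      have h2 : -(a : ℤ) - 1 - (((-(a : ℤ) - 1 - n).toNat : ℕ) : ℤ) = n := by
        rw [Int.toNat_of_nonneg (by omega)]; ring
      rw [h2] at h1
      exact h1.trans (pow_le_one₀ hw0 hw1.le)
    · rw [hna, H.M.va, norm_one]
    · have h1 := H.M.innL (by omega) HV n.natAbs (by omega) (by omega)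
      have h2 : -((n.natAbs : ℕ) : ℤ) = n := by omega
      rw [h2] at h1
      refine hsq _ (norm_nonneg _) ?_
      have h3 := hx0 (2 * b)
      norm_num at h1
      linarith
  · rw [hn, H.M.v0, norm_one]
  · -- positive
    rcases lt_trichotomy n (b : ℤ) with hnb | hnb | hnb
    · have h1 := H.M.innR ha HV n.natAbs (by omega) (by omega)
      have h2 : ((n.natAbs : ℕ) : ℤ) = n := by omega
      rw [h2] at h1
      refine hsq _ (norm_nonneg _) ?_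
      have h3 := hx0 (2 * a)
      norm_num at h1
      linarith
    · rw [hnb, H.M.vb, norm_one]
    · obtain ⟨w, hw0, hw1, hw⟩ := MvA_outA H.M.hD1 H.oR.toA
      have h1 := hw (n - (b + 1)).toNat
      have h2 : (b : ℤ) + 1 + (((n - (b + 1)).toNat : ℕ) : ℤ) = n := by
        rw [Int.toNat_of_nonneg (by omega)]; ring
      rw [h2] at h1
      exact h1.trans (pow_le_one₀ hw0 hw1.le)

private theorem MvA_om (hx : x ≠ 0) : ‖x / (‖x‖ : ℂ)‖ = 1 := by
  rw [norm_div, Complex.norm_real, norm_norm]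
  exact div_self (norm_ne_zero_iff.2 hx)

private theorem MvA_om0 (hx : x ≠ 0) : x / (‖x‖ : ℂ) ≠ 0 := by
  rw [← norm_ne_zero_iff, MvA_om hx]
  exact one_ne_zero

theorem cR_norm (hx : x ≠ 0) (d p : ℤ) : ‖cR a b x v d p‖ = ‖v (d * a + p * b)‖ * ‖x‖ ^ (-(d * a + p * b)).toNat := by
  unfold cR
  rw [norm_mul, norm_mul, norm_pow, norm_zpow, norm_pow, MvA_om hx, one_pow, one_zpow, mul_one]

theorem cL_norm (hx : x ≠ 0) (d p : ℤ) : ‖cL a b x v d p‖ = ‖v (d * b + p * a)‖ * ‖x‖ ^ (d * b + p * a).toNat := by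
  unfold cL
  rw [norm_mul, norm_mul, norm_pow, norm_zpow, norm_inv, norm_pow, MvA_om hx, one_pow, inv_one,
    one_zpow, mul_one]

theorem HypMV.cR_le_one (H : HypMV RM LM a b x D v) (d p : ℤ) : ‖cR a b x v d p‖ ≤ 1 := by
  rw [cR_norm H.M.x0]
  exact mul_le_one₀ (H.v_le_one _) (pow_nonneg (norm_nonneg _) _)
    (pow_le_one₀ (norm_nonneg _) H.x01.2.le)

theorem HypMV.cL_le_one (H : HypMV RM LM a b x D v) (d p : ℤ) : ‖cL a b x v d p‖ ≤ 1 := by
  rw [cL_norm H.M.x0]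
  exact mul_le_one₀ (H.v_le_one _) (pow_nonneg (norm_nonneg _) _)
    (pow_le_one₀ (norm_nonneg _) H.x01.2.le)

/-- the two corners: `x ^ n = ‖x‖ ^ n * (x / ‖x‖) ^ n` -/
theorem cL_eq (hx : x ≠ 0) (I J : ℤ) :
    cL a b x v I J = ((‖x‖ ^ (I * b + J * a) : ℝ) : ℂ) * cR a b x v J I := by
  have hω0 := MvA_om0 hx
  have hnx : (‖x‖ : ℂ) ≠ 0 := by
    rw [Ne, Complex.ofReal_eq_zero]
    exact norm_ne_zero_iff.2 hx
  have hxe : x = (‖x‖ : ℂ) * (x / (‖x‖ : ℂ)) := by field_simp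
  unfold cL cR
  have hn : J * (a : ℤ) + I * b = I * b + J * a := by ring
  rw [hn]
  generalize hN : I * (b : ℤ) + J * a = n
  have h1 : x ^ n.toNat = x ^ n * x ^ (-n).toNat := by
    rw [← zpow_natCast, ← zpow_natCast, ← zpow_add₀ hx]
    congr 1
    omega
  have h2 : x ^ n = ((‖x‖ ^ n : ℝ) : ℂ) * (x / (‖x‖ : ℂ)) ^ n := by
    conv_lhs => rw [hxe]
    rw [mul_zpow, Complex.ofReal_zpow]
  have h3 : (x / (‖x‖ : ℂ)) ^ n * (((x / (‖x‖ : ℂ)) ^ b)⁻¹) ^ I = ((x / (‖x‖ : ℂ)) ^ a) ^ J := by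
    rw [← zpow_natCast, ← zpow_natCast, ← zpow_neg, ← zpow_mul, ← zpow_mul, ← zpow_add₀ hω0]
    congr 1
    rw [← hN]
    ring
  calc v n * x ^ n.toNat * (((x / (‖x‖ : ℂ)) ^ b)⁻¹) ^ I
      = v n * (((‖x‖ ^ n : ℝ) : ℂ) * (x / (‖x‖ : ℂ)) ^ n * x ^ (-n).toNat) *
        (((x / (‖x‖ : ℂ)) ^ b)⁻¹) ^ I := by rw [h1, h2]
    _ = ((‖x‖ ^ n : ℝ) : ℂ) * (v n * x ^ (-n).toNat *
        ((x / (‖x‖ : ℂ)) ^ n * (((x / (‖x‖ : ℂ)) ^ b)⁻¹) ^ I)) := by ring
    _ = ((‖x‖ ^ n : ℝ) : ℂ) * (v n * x ^ (-n).toNat * ((x / (‖x‖ : ℂ)) ^ a) ^ J) := by rw [h3]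

theorem xpow_eq (ha : 0 < a) (hx : x ≠ 0) (n : ℤ) : ‖x‖ ^ n = (‖x‖ ^ a) ^ ((n : ℝ) / a) := by
  have h0 : (0 : ℝ) ≤ ‖x‖ := norm_nonneg _
  have ha' : (a : ℝ) ≠ 0 := by exact_mod_cast ha.ne'
  rw [← Real.rpow_natCast ‖x‖ a, ← Real.rpow_mul h0, mul_div_cancel₀ _ ha', Real.rpow_intCast]

/-- Hint: `rowHyp_of_bound` with `m = b`, `k = a`, `f i = v i * x ^ (-i).toNat` (`HypM.bd` for `X = 1`),
`η = (x / ‖x‖) ^ a`; `d a` is not divisible by `b` for `d = 1, 2, 3`. -/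
theorem HypMV.rightHyp (H : HypMV RM LM a b x D v) : RowHyp 3 (cR a b x v) := by
  have ha := H.ha
  have hab := H.hab
  have h2 := H.h2
  have h3 := H.h3
  have h32 := H.h32
  have hη : ‖(x / (‖x‖ : ℂ)) ^ a‖ = 1 := by rw [norm_pow, MvA_om H.M.x0, one_pow]
  refine rowHyp_of_bound b (by omega) a (fun i => v i * x ^ (-i).toNat) ?_ ?_ 3 ?_
    ((x / (‖x‖ : ℂ)) ^ a) hη
  · refine Summable.of_nonneg_of_le (fun _ => norm_nonneg _) (fun n => ?_) H.summ
    rw [norm_mul, norm_pow]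
    exact mul_le_of_le_one_right (norm_nonneg _) (pow_le_one₀ (norm_nonneg _) H.x01.2.le)
  · intro z hz
    have h := H.M.bd 1 (by norm_num) z hz
    have he : ∀ n : ℤ, eaZ 0 1 n = (-n).toNat := fun n => by
      unfold eaZ
      rw [if_neg (by norm_num)]
      congr 1
      push_cast
      ring
    simp_rw [he] at h
    exact h
  · intro d hd0 hd3 hdvd
    obtain ⟨k, hk⟩ := hdvd
    have hd : d = 1 ∨ d = 2 ∨ d = 3 := by omega
    have hb' : (0 : ℤ) < b := by omega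
    have hk1 : 0 < k := by
      by_contra hc
      push Not at hc
      have : (b : ℤ) * k ≤ 0 := mul_nonpos_of_nonneg_of_nonpos hb'.le hc
      have h4 : 0 < d * (a : ℤ) := mul_pos hd0 (by omega)
      omega
    have hk3 : k < 3 := by
      by_contra hc
      push Not at hc
      have h4 : (b : ℤ) * 3 ≤ b * k := mul_le_mul_of_nonneg_left hc hb'.le
      have h5 : d * (a : ℤ) ≤ 3 * a := mul_le_mul_of_nonneg_right (by omega) (by omega)
      omega
    have hk' : k = 1 ∨ k = 2 := by omega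
    rcases hd with rfl | rfl | rfl <;> rcases hk' with rfl | rfl <;> omega

/-- Hint: `rowHyp_of_bound` with `m = a`, `k = b`, `f i = v i * x ^ i.toNat` (`HypM.bd` for `X = 0`). -/
theorem HypMV.leftHyp (H : HypMV RM LM a b x D v) (nL : ℕ)
    (hnL : nL = 0 ∨ (nL = 1 ∧ b ≤ 3 * a) ∨ (nL = 2 ∧ b ≤ 2 * a)) : RowHyp nL (cL a b x v) := by
  have ha := H.ha
  have hab := H.hab
  have h2 := H.h2
  have h3 := H.h3
  have h32 := H.h32
  have hη : ‖((x / (‖x‖ : ℂ)) ^ b)⁻¹‖ = 1 := by rw [norm_inv, norm_pow, MvA_om H.M.x0, one_pow, inv_one]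
  refine rowHyp_of_bound a ha b (fun i => v i * x ^ i.toNat) ?_ ?_ nL ?_
    (((x / (‖x‖ : ℂ)) ^ b)⁻¹) hη
  · refine Summable.of_nonneg_of_le (fun _ => norm_nonneg _) (fun n => ?_) H.summ
    rw [norm_mul, norm_pow]
    exact mul_le_of_le_one_right (norm_nonneg _) (pow_le_one₀ (norm_nonneg _) H.x01.2.le)
  · intro z hz
    have h := H.M.bd 0 (by norm_num) z hz
    have he : ∀ n : ℤ, eaZ 0 0 n = n.toNat := fun n => by
      unfold eaZ
      rw [if_pos rfl]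
      congr 1
      push_cast
      ring
    simp_rw [he] at h
    exact h
  · intro d hd0 hd3 hdvd
    obtain ⟨k, hk⟩ := hdvd
    have ha' : (0 : ℤ) < a := by omega
    have hk0 : 0 < k := by
      by_contra hc
      push Not at hc
      have : (a : ℤ) * k ≤ 0 := mul_nonpos_of_nonneg_of_nonpos ha'.le hc
      have h4 : 0 < d * (b : ℤ) := mul_pos hd0 (by omega)
      omega
    have hk4 : k < 5 := by
      by_contra hc
      push Not at hc
      have h4 : (a : ℤ) * 5 ≤ a * k := mul_le_mul_of_nonneg_left hc ha'.le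
      rcases hnL with h | ⟨h, h'⟩ | ⟨h, h'⟩
      · subst h; omega
      · subst h
        have : d = 1 := by omega
        subst this; omega
      · subst h
        have h5 : d * (b : ℤ) ≤ 2 * b := mul_le_mul_of_nonneg_right (by omega) (by omega)
        omega
    have hk' : k = 1 ∨ k = 2 ∨ k = 3 ∨ k = 4 := by omega
    rcases hnL with h | ⟨h, h'⟩ | ⟨h, h'⟩
    · subst h; omega
    · subst h
      have hd : d = 1 := by omega
      subst hd
      rcases hk' with rfl | rfl | rfl | rfl <;> omega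
    · subst h
      have hd : d = 1 ∨ d = 2 := by omega
      rcases hd with rfl | rfl <;> rcases hk' with rfl | rfl | rfl | rfl <;> omega

/-- the constants -/
theorem HypMV.consts (H : HypMV RM LM a b x D v) :
    cR a b x v 0 0 = 1 ∧ cR a b x v 0 1 = 1 ∧ cR a b x v (-1) 0 = ((‖x‖ ^ a : ℝ) : ℂ) ∧
    cL a b x v 0 0 = 1 ∧ cL a b x v 0 (-1) = 1 ∧ cL a b x v 1 0 = ((‖x‖ ^ b : ℝ) : ℂ) := by
  have hx := H.M.x0
  have hω0 := MvA_om0 hx
  have hnx : (‖x‖ : ℂ) ≠ 0 := by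
    rw [Ne, Complex.ofReal_eq_zero]
    exact norm_ne_zero_iff.2 hx
  refine ⟨?_, ?_, ?_, ?_, ?_, ?_⟩
  · unfold cR
    simp [H.M.v0]
  · unfold cR
    have h1 : (0 : ℤ) * a + 1 * b = b := by ring
    have h2 : (-(b : ℤ)).toNat = 0 := by omega
    rw [h1, h2, H.M.vb]
    simp
  · unfold cR
    have h1 : (-1 : ℤ) * a + 0 * b = -(a : ℤ) := by ring
    have h2 : (- -(a : ℤ)).toNat = a := by omega
    rw [h1, h2, H.M.va, one_mul, zpow_neg_one, div_pow, inv_div, mul_div_cancel₀ _ (pow_ne_zero a hx),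
      Complex.ofReal_pow]
  · unfold cL
    simp [H.M.v0]
  · unfold cL
    have h1 : (0 : ℤ) * b + (-1) * a = -(a : ℤ) := by ring
    have h2 : (-(a : ℤ)).toNat = 0 := by omega
    rw [h1, h2, H.M.va]
    simp
  · unfold cL
    have h1 : (1 : ℤ) * b + 0 * a = (b : ℤ) := by ring
    rw [h1, Int.toNat_natCast, H.M.vb, one_mul, zpow_one, div_pow, inv_div,
      mul_div_cancel₀ _ (pow_ne_zero b hx), Complex.ofReal_pow]

end Pool.Agent.MaxTerm59b
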