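import Pool.Agent.MaxTerm59b.F2Def
import Pool.Agent.MaxTerm59b.MvA

/-! Extremal matched vertex with a generic right neighbour: basic facts. -/

namespace Pool.Agent.MaxTerm59b
open Finset Pool.Agent.MaxTerm58

variable {g b : ℕ} {s t : ℂ} {v : ℤ → ℂ}

private theorem F2A_summ (r : ℕ → ℂ) (ρ : ℝ) (h0 : 0 ≤ ρ) (h1 : ρ < 1)
    (h : ∀ i, ‖r i‖ ≤ ρ ^ (i + 1)) : Summable fun i => ‖r i‖ :=
  Summable.of_nonneg_of_le (fun _ => norm_nonneg _) h
    ((summable_nat_add_iff 1).2 (summable_geometric_of_lt_one h0 h1))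

private theorem F2A_summV (v : ℤ → ℂ) (k l : ℕ) (hR : Summable fun i : ℕ => ‖v (k + (i : ℤ))‖)
    (hL : Summable fun i : ℕ => ‖v (-(l : ℤ) - (i : ℤ))‖) : Summable fun n => ‖v n‖ := by
  have h1 : Summable fun n : ℕ => ‖v (n : ℤ)‖ := by
    refine (summable_nat_add_iff k).1 (hR.congr fun i => ?_)
    congr 2
    push_cast
    ring
  have h2 : Summable fun n : ℕ => ‖v (-(n : ℤ))‖ := by
    refine (summable_nat_add_iff l).1 (hL.congr fun i => ?_)
    congr 2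
    push_cast
    ring
  exact Summable.of_nat_of_neg h1 h2

/-- outer coefficients: bound by a power of a number smaller than one -/
private theorem F2A_outA {g : ℕ} {D : ℝ} (hD : D ≤ 7601 / 10000) {r : ℕ → ℂ}
    (h : OutA g D r) : ∃ y : ℝ, 0 ≤ y ∧ y < 1 ∧ ∀ i, ‖r i‖ ≤ y ^ (i + 1) := by
  obtain ⟨y, c, u, hy0, hyD, hc0, hc1, -, hr⟩ := h
  have hy1 : y < 1 := by
    by_contra hc
    push Not at hc
    have := one_le_pow₀ hc (n := g)
    linarith
  exact ⟨y, hy0, hy1, fun i => (hr i).trans (mul_le_of_le_one_left (pow_nonneg hy0 _) (hc1 i))⟩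

theorem HypF.b0 (H : HypF g b s t v) : 0 < b := by
  have h1 := H.hg
  have h2 := H.hb
  omega

theorem HypF.s01 (H : HypF g b s t v) : 0 < ‖s‖ ∧ ‖s‖ < 1 ∧ 0 < ‖s‖ ^ g ∧ ‖s‖ ^ g < 1 := by
  have h0 : 0 < ‖s‖ := norm_pos_iff.2 H.G.s0
  have h1 : ‖s‖ ^ g < 1 := by
    have := H.q1
    linarith
  refine ⟨h0, ?_, pow_pos h0 g, h1⟩
  by_contra hc
  push Not at hc
  have := one_le_pow₀ hc (n := g)
  linarith

/-- Hint: if `t` were of norm `≥ 1`, then `1 ≤ ‖t‖ ^ g ≤ 9/10 (141/200 + 1/100000)`. -/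
theorem HypF.t01 (H : HypF g b s t v) : 0 < ‖t‖ ∧ ‖t‖ < 1 ∧ 0 < ‖t‖ ^ g ∧ ‖t‖ ^ g < 1 ∧ ‖t‖ ^ g ≤ ‖s‖ ^ g + 1 / 100000 := by
  have h0 : 0 < ‖t‖ := norm_pos_iff.2 H.G.t0
  have hp : 0 < ‖t‖ ^ g := pow_pos h0 g
  have hu := H.G.tu
  have hq := H.q1
  have h1 : ‖t‖ ^ g < 1 := by linarith
  refine ⟨h0, ?_, hp, h1, by linarith⟩
  by_contra hc
  push Not at hc
  have := one_le_pow₀ hc (n := g)
  linarith

private theorem HypF.F2A_R (H : HypF g b s t v) :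
    ∃ y : ℝ, 0 ≤ y ∧ y < 1 ∧ ∀ i : ℕ, ‖v (b + 1 + (i : ℤ))‖ ≤ y ^ (i + 1) := by
  have hq := H.q1
  exact F2A_outA (by linarith) H.G.oR

private theorem HypF.F2A_L (H : HypF g b s t v) :
    ∃ y : ℝ, 0 ≤ y ∧ y < 1 ∧ ∀ i : ℕ, ‖v (-(2 * (g : ℤ)) - 1 - (i : ℤ))‖ ≤ y ^ (i + 1) := by
  have hq := H.q1
  have hu := H.G.tu
  exact F2A_outA (by linarith) (outN_toA H.G.oL)

/-- Hint: the coefficients beyond the units are at most `y ^ (i + 1)` with `y < 1`. -/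
theorem HypF.summ (H : HypF g b s t v) : Summable fun n => ‖v n‖ := by
  obtain ⟨y, hy0, hy1, hy⟩ := H.F2A_R
  obtain ⟨w, hw0, hw1, hw⟩ := H.F2A_L
  refine F2A_summV v (b + 1) (2 * g + 1) ?_ ?_
  · refine (F2A_summ _ y hy0 hy1 hy).congr fun i => ?_
    congr 2
  · refine (F2A_summ _ w hw0 hw1 hw).congr fun i => ?_
    congr 2
    push_cast
    ring

private theorem HypF.F2A_sumX (H : HypF g b s t v) (X : ℕ) :
    Summable fun n : ℤ => ‖v n * (s ^ eaZ g X n * t ^ ebZ 1 X n)‖ := by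
  refine Summable.of_nonneg_of_le (fun _ => norm_nonneg _) (fun n => ?_) H.summ
  rw [norm_mul, norm_mul, norm_pow, norm_pow]
  exact mul_le_of_le_one_right (norm_nonneg _) (mul_le_one₀ (pow_le_one₀ (norm_nonneg _) H.s01.2.1.le)
    (pow_nonneg (norm_nonneg _) _) (pow_le_one₀ (norm_nonneg _) H.t01.2.1.le))

private theorem HypF.F2A_in (H : HypF g b s t v) (X : ℕ) (hX : X < 3) (p q n : ℤ)
    (hpq : p ≠ q) (hpn : p ≠ n) (hqn : q ≠ n) (hp : v p = 1) (hq : v q = 1)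
    (hep : eaZ g X p = 0 ∧ ebZ 1 X p = 0) (heq : eaZ g X q = 0 ∧ ebZ 1 X q = 0)
    (hen : eaZ g X n = 0 ∧ ebZ 1 X n = 0) : ‖v n‖ ≤ 1 := by
  have h := Pool.Agent.MaxTerm59.parseval_le (fun n => v n * (s ^ eaZ g X n * t ^ ebZ 1 X n))
    (H.F2A_sumX X) (170919 / 100000) (H.G.bd X hX) {p, q, n}
  rw [Finset.sum_insert (by simp only [Finset.mem_insert, Finset.mem_singleton]; tauto),
    Finset.sum_insert (by simp only [Finset.mem_singleton]; exact hqn), Finset.sum_singleton,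
    hep.1, hep.2, heq.1, heq.2, hen.1, hen.2, hp, hq] at h
  simp only [pow_zero, mul_one, norm_one, one_pow] at h
  have h0 := norm_nonneg (v n)
  norm_num at h
  nlinarith

/-- Hint: between the units: `Pool.Agent.MaxTerm59.parseval_le` for the corner coefficients
`v n * (s ^ eaZ g X n * t ^ ebZ 1 X n)`: `X = 0` for `-2 g < n < -g` (units `-2 g, -g`), `X = 1` for `-g < n < 0`
(units `-g, 0`), `X = 2` for `0 < n < b` (units `0, b`): `‖v n‖ ^ 2 ≤ (170919/100000) ^ 2 - 2`; compare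
`Pool.Agent.MaxTerm58.HypM.innR`. Beyond the units: `c i ≤ 1`, `y ≤ 1`. -/
theorem HypF.v_le_one (H : HypF g b s t v) (n : ℤ) : ‖v n‖ ≤ 1 := by
  have hg := H.hg
  have hb := H.b0
  have ea0 : ∀ m : ℤ, m ≤ -(g : ℤ) → eaZ g 0 m = 0 ∧ ebZ 1 0 m = 0 := by
    intro m hm
    unfold eaZ ebZ
    rw [if_pos rfl, if_neg (by norm_num), if_neg (by norm_num)]
    constructor <;> omega
  have ea1 : ∀ m : ℤ, -(g : ℤ) ≤ m → m ≤ 0 → eaZ g 1 m = 0 ∧ ebZ 1 1 m = 0 := by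
    intro m hm hm'
    unfold eaZ ebZ
    rw [if_neg (by norm_num), if_neg (by norm_num), if_neg (by norm_num)]
    constructor <;> omega
  have ea2 : ∀ m : ℤ, 0 ≤ m → eaZ g 2 m = 0 ∧ ebZ 1 2 m = 0 := by
    intro m hm
    unfold eaZ ebZ
    rw [if_neg (by norm_num), if_neg (by norm_num), if_pos rfl]
    constructor <;> omega
  rcases lt_trichotomy n (-(2 * (g : ℤ))) with hn | hn | hn
  · obtain ⟨w, hw0, hw1, hw⟩ := H.F2A_L
    have h1 := hw (-(2 * (g : ℤ)) - 1 - n).toNat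
    have h2 : -(2 * (g : ℤ)) - 1 - (((-(2 * (g : ℤ)) - 1 - n).toNat : ℕ) : ℤ) = n := by
      rw [Int.toNat_of_nonneg (by omega)]; ring
    rw [h2] at h1
    exact h1.trans (pow_le_one₀ hw0 hw1.le)
  · rw [hn, H.G.v2, norm_one]
  rcases lt_trichotomy n (-(g : ℤ)) with hn1 | hn1 | hn1
  · exact H.F2A_in 0 (by norm_num) (-(2 * (g : ℤ))) (-(g : ℤ)) n (by omega) (by omega) (by omega)
      H.G.v2 H.G.v1 (ea0 _ (by omega)) (ea0 _ le_rfl) (ea0 _ hn1.le)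
  · rw [hn1, H.G.v1, norm_one]
  rcases lt_trichotomy n 0 with hn2 | hn2 | hn2
  · exact H.F2A_in 1 (by norm_num) (-(g : ℤ)) 0 n (by omega) (by omega) (by omega)
      H.G.v1 H.G.v0 (ea1 _ le_rfl (by omega)) (ea1 _ (by omega) le_rfl) (ea1 _ hn1.le hn2.le)
  · rw [hn2, H.G.v0, norm_one]
  rcases lt_trichotomy n (b : ℤ) with hn3 | hn3 | hn3
  · exact H.F2A_in 2 (by norm_num) 0 (b : ℤ) n (by omega) (by omega) (by omega)
      H.G.v0 H.G.vb (ea2 _ le_rfl) (ea2 _ (by omega)) (ea2 _ hn2.le)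
  · rw [hn3, H.G.vb, norm_one]
  · obtain ⟨w, hw0, hw1, hw⟩ := H.F2A_R
    have h1 := hw (n - (b + 1)).toNat
    have h2 : (b : ℤ) + 1 + (((n - (b + 1)).toNat : ℕ) : ℤ) = n := by
      rw [Int.toNat_of_nonneg (by omega)]; ring
    rw [h2] at h1
    exact h1.trans (pow_le_one₀ hw0 hw1.le)

theorem uph_norm {z : ℂ} (hz : z ≠ 0) : ‖uph z‖ = 1 := by
  unfold uph
  rw [norm_div, Complex.norm_real, norm_norm]
  exact div_self (norm_ne_zero_iff.2 hz)

theorem c1_norm (hs : s ≠ 0) (d p : ℤ) :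
    ‖c1 g s t v d p‖ = ‖v (p * g)‖ * (‖s‖ ^ (p * g + g).toNat * ‖t‖ ^ (p * g).toNat) := by
  unfold c1
  rw [norm_mul, norm_mul, norm_mul, norm_pow, norm_pow, norm_zpow, norm_inv, norm_pow, uph_norm hs,
    one_pow, inv_one, one_zpow, mul_one]

theorem c2_norm (d p : ℤ) :
    ‖c2 g s t v d p‖ = ‖v (p * g)‖ * (‖s‖ ^ (-(p * g) - g).toNat * ‖t‖ ^ (p * g).toNat) := by
  unfold c2
  rw [norm_mul, norm_mul, norm_pow, norm_pow]

theorem c3_norm (ht : t ≠ 0) (d p : ℤ) :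
    ‖c3 g b s t v d p‖ =
      ‖v (d * g + p * b)‖ * (‖s‖ ^ (-(d * g + p * b) - g).toNat * ‖t‖ ^ (-(d * g + p * b)).toNat) := by
  unfold c3
  rw [norm_mul, norm_mul, norm_mul, norm_pow, norm_pow, norm_zpow, norm_pow, uph_norm ht,
    one_pow, one_zpow, mul_one]

theorem HypF.c_le_one (H : HypF g b s t v) (d p : ℤ) :
    ‖c1 g s t v d p‖ ≤ 1 ∧ ‖c2 g s t v d p‖ ≤ 1 ∧ ‖c3 g b s t v d p‖ ≤ 1 := by
  have hb : ∀ (m : ℤ) (k l : ℕ), ‖v m‖ * (‖s‖ ^ k * ‖t‖ ^ l) ≤ 1 := fun m k l =>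
    mul_le_one₀ (H.v_le_one m) (mul_nonneg (pow_nonneg (norm_nonneg _) _)
      (pow_nonneg (norm_nonneg _) _))
      (mul_le_one₀ (pow_le_one₀ (norm_nonneg _) H.s01.2.1.le) (pow_nonneg (norm_nonneg _) _)
        (pow_le_one₀ (norm_nonneg _) H.t01.2.1.le))
  refine ⟨?_, ?_, ?_⟩
  · rw [c1_norm H.G.s0]
    exact hb _ _ _
  · rw [c2_norm]
    exact hb _ _ _
  · rw [c3_norm H.G.t0]
    exact hb _ _ _

/-- multiplication by a power of a number on the circle -/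
private theorem F2A_twist {c c' : ℤ → ℤ → ℂ} (h : RowHyp 0 c') (ω : ℂ) (hω : ‖ω‖ = 1) (k : ℤ)
    (hc : ∀ d p, c d p = c' d p * ω ^ (p + k)) : RowHyp 0 c := by
  have hω0 : ω ≠ 0 := by
    rw [← norm_ne_zero_iff, hω]
    exact one_ne_zero
  refine ⟨?_, ?_⟩
  · intro d hd
    refine (h.summ d hd).congr fun p => ?_
    rw [hc, norm_mul, norm_zpow, hω, one_zpow, mul_one]
  · intro z hz g' h'
    have hz2 : ‖z * ω‖ = 1 := by rw [norm_mul, hz, hω, mul_one]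
    have h1 := h.row (z * ω) hz2 g' h'
    simp only [zero_add, Finset.sum_range_one, Nat.cast_zero, sub_zero] at h1 ⊢
    have h2 : ∑' p : ℤ, c 0 p * z ^ p = ω ^ k * ∑' p : ℤ, c' 0 p * (z * ω) ^ p := by
      rw [← tsum_mul_left]
      refine tsum_congr fun p => ?_
      rw [hc, zpow_add₀ hω0, mul_zpow]
      ring
    rw [h2]
    have h3 : ‖ω ^ k‖ = 1 := by rw [norm_zpow, hω, one_zpow]
    calc _ = ‖ω ^ k‖ * ‖(starRingEnd ℂ) (h' 0) * g' 0 * ∑' p : ℤ, c' 0 p * (z * ω) ^ p‖ := by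
          rw [← norm_mul]
          congr 1
          ring
      _ ≤ _ := by
          rw [h3, one_mul]
          exact h1

/-- Hint: `rowHyp_of_bound` with `m = g`, `k = 0`, `η = 1` for `f n = v n * (s ^ eaZ g 0 n * t ^ ebZ 1 0 n)`; then replace
`z` by `z * (uph s ^ g)⁻¹` (for `n = 0` only the class `d = 0` matters). -/
theorem HypF.row1 (H : HypF g b s t v) : RowHyp 0 (c1 g s t v) := by
  have h := rowHyp_of_bound g H.hg 0 (fun n => v n * (s ^ eaZ g 0 n * t ^ ebZ 1 0 n))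
    (H.F2A_sumX 0) (H.G.bd 0 (by norm_num)) 0 (fun d hd0 hd1 => by
      have : d ≤ 0 := by exact_mod_cast hd1
      omega) 1 norm_one
  have hω : ‖(uph s ^ g)⁻¹‖ = 1 := by rw [norm_inv, norm_pow, uph_norm H.G.s0, one_pow, inv_one]
  refine F2A_twist h ((uph s ^ g)⁻¹) hω 1 fun d p => ?_
  unfold c1
  have e1 : d * 0 + p * (g : ℤ) = p * g := by ring
  rw [e1, one_zpow, mul_one]
  have e2 : eaZ g 0 (p * g) = (p * (g : ℤ) + g).toNat := by
    unfold eaZ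
    rw [if_pos rfl]
  have e3 : ebZ 1 0 (p * g) = (p * (g : ℤ)).toNat := by
    unfold ebZ
    rw [if_neg (by norm_num), if_neg (by norm_num)]
  rw [e2, e3]

theorem HypF.row2 (H : HypF g b s t v) : RowHyp 0 (c2 g s t v) := by
  have h := rowHyp_of_bound g H.hg 0 (fun n => v n * (s ^ eaZ g 1 n * t ^ ebZ 1 1 n))
    (H.F2A_sumX 1) (H.G.bd 1 (by norm_num)) 0 (fun d hd0 hd1 => by
      have : d ≤ 0 := by exact_mod_cast hd1
      omega) 1 norm_one
  refine F2A_twist h 1 norm_one 0 fun d p => ?_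
  unfold c2
  have e1 : d * 0 + p * (g : ℤ) = p * g := by ring
  rw [e1, one_zpow, one_zpow, mul_one, mul_one]
  have e2 : eaZ g 1 (p * g) = (-(p * (g : ℤ)) - g).toNat := by
    unfold eaZ
    rw [if_neg (by norm_num)]
  have e3 : ebZ 1 1 (p * g) = (p * (g : ℤ)).toNat := by
    unfold ebZ
    rw [if_neg (by norm_num), if_neg (by norm_num)]
  rw [e2, e3]

/-- Hint: `rowHyp_of_bound` with `m = b`, `k = g`, `η = uph t ^ g`, corner `X = 2`; `d g` is not divisible by `b` for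
`d = 1, 2, 3`, as `17 g < 20 b` and `b ≠ g, 2 g, 3 g`, `2 b ≠ 3 g`. -/
theorem HypF.row3 (H : HypF g b s t v) : RowHyp 3 (c3 g b s t v) := by
  have hg := H.hg
  have hb := H.b0
  have hgb := H.hb
  have h1 := H.h1
  have h2 := H.h2
  have h3 := H.h3
  have h32 := H.h32
  have hη : ‖uph t ^ g‖ = 1 := by rw [norm_pow, uph_norm H.G.t0, one_pow]
  have h := rowHyp_of_bound b hb (g : ℤ) (fun n => v n * (s ^ eaZ g 2 n * t ^ ebZ 1 2 n))
    (H.F2A_sumX 2) (H.G.bd 2 (by norm_num)) 3 (fun d hd0 hd3 hdvd => by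
      obtain ⟨k, hk⟩ := hdvd
      have hd3' : d ≤ 3 := by exact_mod_cast hd3
      have hd : d = 1 ∨ d = 2 ∨ d = 3 := by omega
      have hb' : (0 : ℤ) < b := by omega
      have hk1 : 0 < k := by
        by_contra hc
        push Not at hc
        have : (b : ℤ) * k ≤ 0 := mul_nonpos_of_nonneg_of_nonpos hb'.le hc
        have h4 : 0 < d * (g : ℤ) := mul_pos hd0 (by omega)
        omega
      have hk4 : k < 4 := by
        by_contra hc
        push Not at hc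
        have h4 : (b : ℤ) * 4 ≤ b * k := mul_le_mul_of_nonneg_left hc hb'.le
        have h5 : d * (g : ℤ) ≤ 3 * g := mul_le_mul_of_nonneg_right hd3' (by omega)
        omega
      have hk' : k = 1 ∨ k = 2 ∨ k = 3 := by omega
      rcases hd with rfl | rfl | rfl <;> rcases hk' with rfl | rfl | rfl <;> omega)
    (uph t ^ g) hη
  have e : c3 g b s t v = fun d p => (fun n => v n * (s ^ eaZ g 2 n * t ^ ebZ 1 2 n)) (d * (g : ℤ) + p * b) *
      (uph t ^ g) ^ d := by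
    funext d p
    unfold c3
    have e2 : eaZ g 2 (d * (g : ℤ) + p * b) = (-(d * (g : ℤ) + p * b) - g).toNat := by
      unfold eaZ
      rw [if_neg (by norm_num)]
    have e3 : ebZ 1 2 (d * (g : ℤ) + p * b) = (-(d * (g : ℤ) + p * b)).toNat := by
      unfold ebZ
      rw [if_neg (by norm_num), if_pos rfl]
    simp only [e2, e3]
  rw [e]
  exact h

end Pool.Agent.MaxTerm59b
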