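import Pool.Agent.MaxTerm59b.MvA

/-! Mismatched vertex with a generic ratio: sizes. -/

namespace Pool.Agent.MaxTerm59b
open Finset Pool.Agent.MaxTerm58

/-- Hint: `y ^ (i + 1) = (y ^ g) ^ ((i + 1)/g)`; `OutM`: take the `g`-th root. -/
theorem OutX.size {md g : ℕ} (hg : 0 < g) {D : ℝ} (hD0 : 0 ≤ D) (hD1 : D ≤ 1) {r : ℕ → ℂ} (h : OutX md g D r)
    (i : ℕ) (e : ℝ) (he0 : 0 ≤ e) (he : e * g ≤ (i : ℝ) + 1) :
    ‖r i‖ ≤ D ^ e ∧ (md = 1 → 1 ≤ e → ‖r i‖ ≤ D ^ (2 * e - 1)) := by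
  have hg' : (0 : ℝ) < g := by exact_mod_cast hg
  constructor
  · obtain ⟨y, c, u, h0, h1, h2, h3, -, h5⟩ := h.toA
    have h6 : ‖r i‖ ≤ y ^ (i + 1) := by
      refine (h5 i).trans ?_
      have h7 : 0 ≤ y ^ (i + 1) := by positivity
      have := mul_le_mul_of_nonneg_right (h3 i) h7
      rwa [one_mul] at this
    refine le_of_pow_le_pow_left₀ hg.ne' (Real.rpow_nonneg hD0 _) ?_
    calc ‖r i‖ ^ g ≤ (y ^ (i + 1)) ^ g := pow_le_pow_left₀ (norm_nonneg _) h6 g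
      _ = (y ^ g) ^ (i + 1) := by rw [← pow_mul, ← pow_mul, mul_comm]
      _ ≤ D ^ (i + 1) := pow_le_pow_left₀ (by positivity) h1 _
      _ = D ^ ((i + 1 : ℕ) : ℝ) := (Real.rpow_natCast D (i + 1)).symm
      _ ≤ D ^ (e * g) := by
          refine Real.rpow_le_rpow_of_exponent_ge' hD0 hD1 (by positivity) ?_
          push_cast
          exact he
      _ = (D ^ e) ^ g := by rw [Real.rpow_mul_natCast hD0]
  · intro hmd he1
    have hM : OutM g D r := by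
      rcases h with ⟨h7, -⟩ | ⟨-, h8⟩ | ⟨h7, -⟩
      · omega
      · exact h8.1
      · omega
    have h6 := hM i
    have h7 : (g : ℝ) ≤ (i : ℝ) + 1 := by nlinarith
    have h8 : g ≤ i + 1 := by exact_mod_cast h7
    have h9 : ((i + 1 + (i + 1 - g) : ℕ) : ℝ) = 2 * ((i : ℝ) + 1) - g := by
      rw [Nat.cast_add, Nat.cast_sub h8]
      push_cast
      ring
    refine le_of_pow_le_pow_left₀ hg.ne' (Real.rpow_nonneg hD0 _) ?_
    calc ‖r i‖ ^ g ≤ D ^ (i + 1 + (i + 1 - g)) := h6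
      _ = D ^ ((i + 1 + (i + 1 - g) : ℕ) : ℝ) := (Real.rpow_natCast D _).symm
      _ ≤ D ^ ((2 * e - 1) * g) := by
          refine Real.rpow_le_rpow_of_exponent_ge' hD0 hD1 ?_ ?_
          · exact mul_nonneg (by linarith) hg'.le
          · rw [h9]
            nlinarith
      _ = (D ^ (2 * e - 1)) ^ g := by rw [Real.rpow_mul_natCast hD0]

variable {RM LM a b : ℕ} {x : ℂ} {D : ℝ} {v : ℤ → ℂ}

theorem HypMV.size_R (H : HypMV RM LM a b x D v) (n : ℤ) (hn : (b : ℤ) ≤ n) (e : ℝ) (he0 : 0 ≤ e)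
    (he : e * b ≤ (n : ℝ) - b) : ‖v n‖ ≤ D ^ e ∧ (RM = 1 → 1 ≤ e → ‖v n‖ ≤ D ^ (2 * e - 1)) := by
  have hb : 0 < b := lt_trans H.ha H.hab
  have hb' : (0 : ℝ) < b := by exact_mod_cast hb
  obtain ⟨hD0, hD1⟩ := H.D01
  rcases hn.eq_or_lt with h | h
  · have h1 : (n : ℝ) = b := by rw [← h]; simp
    rw [h1, sub_self] at he
    have h2 : e = 0 := le_antisymm (by nlinarith) he0
    rw [← h, H.M.vb, norm_one, h2, Real.rpow_zero]
    exact ⟨le_rfl, fun _ h3 => absurd h3 (by norm_num)⟩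
  · obtain ⟨i, hi⟩ : ∃ i : ℕ, n = b + 1 + (i : ℤ) := ⟨(n - b - 1).toNat, by omega⟩
    have h1 := H.oR.size hb hD0 (by linarith) i e he0 (by
      have h2 : (n : ℝ) = b + 1 + i := by rw [hi]; push_cast; ring
      rw [h2] at he
      linarith)
    rw [hi]
    exact h1

theorem HypMV.size_L (H : HypMV RM LM a b x D v) (n : ℤ) (hn : n ≤ -(a : ℤ)) (e : ℝ) (he0 : 0 ≤ e)
    (he : e * a ≤ -(n : ℝ) - a) : ‖v n‖ ≤ D ^ e ∧ (LM = 1 → 1 ≤ e → ‖v n‖ ≤ D ^ (2 * e - 1)) := by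
  have ha : 0 < a := H.ha
  have ha' : (0 : ℝ) < a := by exact_mod_cast ha
  obtain ⟨hD0, hD1⟩ := H.D01
  rcases hn.eq_or_lt with h | h
  · have h1 : (n : ℝ) = -a := by rw [h]; simp
    rw [h1, neg_neg, sub_self] at he
    have h2 : e = 0 := le_antisymm (by nlinarith) he0
    rw [h, H.M.va, norm_one, h2, Real.rpow_zero]
    exact ⟨le_rfl, fun _ h3 => absurd h3 (by norm_num)⟩
  · obtain ⟨i, hi⟩ : ∃ i : ℕ, n = -(a : ℤ) - 1 - (i : ℤ) := ⟨(-n - a - 1).toNat, by omega⟩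
    have h1 := H.oL.size ha hD0 (by linarith) i e he0 (by
      have h2 : (n : ℝ) = -a - 1 - i := by rw [hi]; push_cast; ring
      rw [h2] at he
      linarith)
    rw [hi]
    exact h1

end Pool.Agent.MaxTerm59b
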