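import Pool.Agent.MaxTerm59b.F2A
import Pool.Agent.MaxTerm59b.MvB

/-! Extremal matched vertex with a generic right neighbour: constants and sizes. -/

namespace Pool.Agent.MaxTerm59b
open Finset Pool.Agent.MaxTerm58

variable {g b : ℕ} {s t : ℂ} {v : ℤ → ℂ}

private theorem F2B_uph0 {z : ℂ} (hz : z ≠ 0) : uph z ≠ 0 := by
  unfold uph
  refine div_ne_zero hz ?_
  rw [Ne, Complex.ofReal_eq_zero]
  exact norm_ne_zero_iff.2 hz

private theorem F2B_eq {z : ℂ} (hz : z ≠ 0) : (‖z‖ : ℂ) * uph z = z := by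
  unfold uph
  have : (‖z‖ : ℂ) ≠ 0 := by
    rw [Ne, Complex.ofReal_eq_zero]
    exact norm_ne_zero_iff.2 hz
  field_simp

/-- `z ^ (g k) = (|z|^g)^k (uph z ^ g)^k` -/
private theorem F2B_pow {z : ℂ} (hz : z ≠ 0) (g k : ℕ) :
    z ^ (k * g) = (((‖z‖ ^ g) ^ k : ℝ) : ℂ) * (uph z ^ g) ^ k := by
  conv_lhs => rw [← F2B_eq hz]
  rw [mul_pow]
  push_cast
  rw [← pow_mul, ← pow_mul, mul_comm g k]

private theorem F2B_pow1 {z : ℂ} (hz : z ≠ 0) (g : ℕ) :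
    z ^ g = ((‖z‖ ^ g : ℝ) : ℂ) * uph z ^ g := by
  have := F2B_pow hz g 1
  simpa using this

/-- the constants -/
theorem HypF.consts (H : HypF g b s t v) :
    c1 g s t v 0 (-2) = uph s ^ g ∧ c1 g s t v 0 (-1) = 1 ∧ c1 g s t v 0 0 = ((‖s‖ ^ g : ℝ) : ℂ) ∧
    c2 g s t v 0 (-2) = ((‖s‖ ^ g : ℝ) : ℂ) * uph s ^ g ∧ c2 g s t v 0 (-1) = 1 ∧ c2 g s t v 0 0 = 1 ∧
    c3 g b s t v 0 0 = 1 ∧ c3 g b s t v 0 1 = 1 ∧ c3 g b s t v (-1) 0 = ((‖t‖ ^ g : ℝ) : ℂ) ∧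
    c3 g b s t v (-2) 0 = ((‖s‖ ^ g * (‖t‖ ^ g) ^ 2 : ℝ) : ℂ) * uph s ^ g := by
  have hs := H.G.s0
  have ht := H.G.t0
  have us := F2B_uph0 hs
  have ut := F2B_uph0 ht
  have usg : uph s ^ g ≠ 0 := pow_ne_zero _ us
  have utg : uph t ^ g ≠ 0 := pow_ne_zero _ ut
  have e2 : (-2 : ℤ) * g = -(2 * (g : ℤ)) := by ring
  have e1 : (-1 : ℤ) * g = -(g : ℤ) := by ring
  refine ⟨?_, ?_, ?_, ?_, ?_, ?_, ?_, ?_, ?_, ?_⟩
  · unfold c1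
    rw [e2, H.G.v2, show (-(2 * (g : ℤ)) + g).toNat = 0 by omega, show (-(2 * (g : ℤ))).toNat = 0 by omega,
      show (-2 + 1 : ℤ) = -1 by norm_num, zpow_neg_one, inv_inv]
    simp
  · unfold c1
    rw [e1, H.G.v1, show (-(g : ℤ) + g).toNat = 0 by omega, show (-(g : ℤ)).toNat = 0 by omega]
    simp
  · unfold c1
    rw [zero_mul, H.G.v0, zero_add, Int.toNat_natCast, Int.toNat_zero, pow_zero, mul_one, one_mul, zero_add, zpow_one,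
      F2B_pow1 hs, mul_assoc, mul_inv_cancel₀ usg, mul_one]
  · unfold c2
    rw [e2, H.G.v2, show (-(-(2 * (g : ℤ))) - g).toNat = g by omega, show (-(2 * (g : ℤ))).toNat = 0 by omega,
      F2B_pow1 hs]
    simp
  · unfold c2
    rw [e1, H.G.v1, show (-(-(g : ℤ)) - g).toNat = 0 by omega, show (-(g : ℤ)).toNat = 0 by omega]
    simp
  · unfold c2
    rw [zero_mul, H.G.v0, show (-(0 : ℤ) - g).toNat = 0 by omega]
    simp
  · unfold c3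
    rw [show (0 : ℤ) * g + 0 * b = 0 by ring, H.G.v0, show (-(0 : ℤ) - g).toNat = 0 by omega]
    simp
  · unfold c3
    rw [show (0 : ℤ) * g + 1 * b = b by ring, H.G.vb, show (-(b : ℤ) - g).toNat = 0 by omega,
      show (-(b : ℤ)).toNat = 0 by omega]
    simp
  · unfold c3
    rw [show (-1 : ℤ) * g + 0 * b = -(g : ℤ) by ring, H.G.v1, show (-(-(g : ℤ)) - g).toNat = 0 by omega,
      show (-(-(g : ℤ))).toNat = g by omega, pow_zero, one_mul, one_mul, zpow_neg_one,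
      F2B_pow1 ht, mul_assoc, mul_inv_cancel₀ utg, mul_one]
  · unfold c3
    rw [show (-2 : ℤ) * g + 0 * b = -(2 * (g : ℤ)) by ring, H.G.v2, show (-(-(2 * (g : ℤ))) - g).toNat = g by omega,
      show (-(-(2 * (g : ℤ)))).toNat = 2 * g by omega, one_mul, F2B_pow1 hs, F2B_pow ht,
      show (-2 : ℤ) = -((2 : ℕ) : ℤ) by norm_num, zpow_neg, zpow_natCast]
    have h2 : (uph t ^ g) ^ 2 * ((uph t ^ g) ^ 2)⁻¹ = 1 := mul_inv_cancel₀ (pow_ne_zero _ utg)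
    calc ((‖s‖ ^ g : ℝ) : ℂ) * uph s ^ g * ((((‖t‖ ^ g) ^ 2 : ℝ) : ℂ) * (uph t ^ g) ^ 2) * ((uph t ^ g) ^ 2)⁻¹
        = ((‖s‖ ^ g : ℝ) : ℂ) * uph s ^ g * (((‖t‖ ^ g) ^ 2 : ℝ) : ℂ) * ((uph t ^ g) ^ 2 * ((uph t ^ g) ^ 2)⁻¹) := by ring
      _ = ((‖s‖ ^ g * (‖t‖ ^ g) ^ 2 : ℝ) : ℂ) * uph s ^ g := by
          rw [h2, mul_one]
          push_cast
          ring

/-- Hint: `OutX.size` with the mode `0`. -/
theorem HypF.size_R (H : HypF g b s t v) (n : ℤ) (hn : (b : ℤ) ≤ n) (e : ℝ) (he0 : 0 ≤ e)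
    (he : e * b ≤ (n : ℝ) - b) : ‖v n‖ ≤ (‖s‖ ^ g + 1 / 100000) ^ e := by
  have hb : 0 < b := H.b0
  have hb' : (0 : ℝ) < b := by exact_mod_cast hb
  have hq := H.q1
  have hs := H.s01
  have hD0 : 0 ≤ ‖s‖ ^ g + 1 / 100000 := by linarith [hs.2.2.1]
  have hD1 : ‖s‖ ^ g + 1 / 100000 ≤ 1 := by linarith
  rcases hn.eq_or_lt with h | h
  · have h1 : (n : ℝ) = b := by rw [← h]; simp
    rw [h1, sub_self] at he
    have h2 : e = 0 := le_antisymm (by nlinarith) he0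
    rw [← h, H.G.vb, norm_one, h2, Real.rpow_zero]
  · obtain ⟨i, hi⟩ : ∃ i : ℕ, n = b + 1 + (i : ℤ) := ⟨(n - b - 1).toNat, by omega⟩
    have h0 : OutX 0 b (‖s‖ ^ g + 1 / 100000) (fun i => v (b + 1 + (i : ℤ))) := Or.inl ⟨rfl, H.G.oR⟩
    have h1 := h0.size hb hD0 hD1 i e he0 (by
      have h2 : (n : ℝ) = b + 1 + i := by rw [hi]; push_cast; ring
      rw [h2] at he
      linarith)
    rw [hi]
    exact h1.1

/-- Hint: `OutX.size` with the mode `2`. -/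
theorem HypF.size_L (H : HypF g b s t v) (n : ℤ) (hn : n ≤ -(2 * (g : ℤ))) (e : ℝ) (he0 : 0 ≤ e)
    (he : e * g ≤ -(n : ℝ) - 2 * g) : ‖v n‖ ≤ (‖t‖ ^ g) ^ e := by
  have hg : 0 < g := H.hg
  have hg' : (0 : ℝ) < g := by exact_mod_cast hg
  have ht := H.t01
  have hD0 : 0 ≤ ‖t‖ ^ g := ht.2.2.1.le
  have hD1 : ‖t‖ ^ g ≤ 1 := ht.2.2.2.1.le
  rcases hn.eq_or_lt with h | h
  · have h1 : (n : ℝ) = -(2 * g) := by rw [h]; push_cast; ring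
    rw [h1] at he
    have h2 : e = 0 := le_antisymm (by nlinarith) he0
    rw [h, H.G.v2, norm_one, h2, Real.rpow_zero]
  · obtain ⟨i, hi⟩ : ∃ i : ℕ, n = -(2 * (g : ℤ)) - 1 - (i : ℤ) := ⟨(-n - 2 * g - 1).toNat, by omega⟩
    have h0 : OutX 2 g (‖t‖ ^ g) (fun i => v (-(2 * (g : ℤ)) - 1 - (i : ℤ))) := Or.inr (Or.inr ⟨rfl, H.G.oL⟩)
    have h1 := h0.size hg hD0 hD1 i e he0 (by
      have h2 : (n : ℝ) = -(2 * g) - 1 - i := by rw [hi]; push_cast; ring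
      rw [h2] at he
      linarith)
    rw [hi]
    exact h1.1

private theorem F2B_powle (x : ℝ) (hx0 : 0 ≤ x) (hx1 : x ≤ 1) (g k : ℕ) (hg : 0 < g) (e : ℝ) (he0 : 0 ≤ e)
    (he : e * g ≤ k) : x ^ k ≤ (x ^ g) ^ e := by
  have h0 : 0 ≤ x ^ g := pow_nonneg hx0 g
  have h1 : x ^ g ≤ 1 := pow_le_one₀ hx0 hx1
  refine le_of_pow_le_pow_left₀ hg.ne' (Real.rpow_nonneg h0 _) ?_
  calc (x ^ k) ^ g = (x ^ g) ^ k := by rw [← pow_mul, ← pow_mul, mul_comm]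
    _ = (x ^ g) ^ (k : ℝ) := (Real.rpow_natCast _ k).symm
    _ ≤ (x ^ g) ^ (e * g) := Real.rpow_le_rpow_of_exponent_ge' h0 h1 (by positivity) he
    _ = ((x ^ g) ^ e) ^ g := by rw [Real.rpow_mul_natCast h0]

/-- a coefficient of the corner `C3` at a position `n ≤ -P g` -/
theorem HypF.c3_left (H : HypF g b s t v) (d p : ℤ) (P : ℝ) (hP : 0 ≤ P) (h : P * g ≤ -((d * g + p * b : ℤ) : ℝ)) :
    ‖c3 g b s t v d p‖ ≤ (‖s‖ ^ g) ^ (max (P - 1) 0) * (‖t‖ ^ g) ^ (P + max (P - 2) 0) := by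
  have hg : 0 < g := H.hg
  have hg' : (0 : ℝ) < g := by exact_mod_cast hg
  rw [c3_norm H.G.t0]
  obtain ⟨s0, s1, sg0, sg1⟩ := H.s01
  obtain ⟨t0, t1, tg0, tg1, -⟩ := H.t01
  generalize d * (g : ℤ) + p * b = n at h ⊢
  have a1 : ‖s‖ ^ (-n - g).toNat ≤ (‖s‖ ^ g) ^ (max (P - 1) 0) := by
    refine F2B_powle _ s0.le s1.le g _ hg _ (le_max_right _ _) ?_
    have hk : (-(n : ℝ) - g) ≤ ((-n - g).toNat : ℝ) := by
      have : -n - (g : ℤ) ≤ ((-n - g).toNat : ℤ) := Int.self_le_toNat _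
      exact_mod_cast this
    rcases le_total (P - 1) 0 with h1 | h1
    · rw [max_eq_right h1, zero_mul]
      positivity
    · rw [max_eq_left h1]
      linarith
  have a2 : ‖t‖ ^ (-n).toNat ≤ (‖t‖ ^ g) ^ P := by
    refine F2B_powle _ t0.le t1.le g _ hg _ hP ?_
    have hk : -(n : ℝ) ≤ ((-n).toNat : ℝ) := by
      have : -n ≤ ((-n).toNat : ℤ) := Int.self_le_toNat _
      exact_mod_cast this
    linarith
  have a3 : ‖v n‖ ≤ (‖t‖ ^ g) ^ (max (P - 2) 0) := by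
    rcases le_total (P - 2) 0 with h1 | h1
    · rw [max_eq_right h1, Real.rpow_zero]
      exact H.v_le_one n
    · rw [max_eq_left h1]
      refine H.size_L n ?_ (P - 2) h1 ?_
      · have : (n : ℝ) ≤ -(2 * (g : ℝ)) := by nlinarith
        exact_mod_cast this
      · linarith
  rw [Real.rpow_add tg0]
  calc ‖v n‖ * (‖s‖ ^ (-n - (g : ℤ)).toNat * ‖t‖ ^ (-n).toNat)
      ≤ (‖t‖ ^ g) ^ (max (P - 2) 0) * ((‖s‖ ^ g) ^ (max (P - 1) 0) * (‖t‖ ^ g) ^ P) := by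
        refine mul_le_mul a3 (mul_le_mul a1 a2 (by positivity) (by positivity)) (by positivity) (by positivity)
    _ = (‖s‖ ^ g) ^ (max (P - 1) 0) * ((‖t‖ ^ g) ^ P * (‖t‖ ^ g) ^ (max (P - 2) 0)) := by ring

/-- labels of the unit lattice, `1 ≤ j` -/
theorem HypF.unitJ (H : HypF g b s t v) (j : ℕ) (hj : 1 ≤ j) :
    c1 g s t v 0 j = (((‖s‖ ^ g) ^ (j + 1) * (‖t‖ ^ g) ^ j : ℝ) : ℂ) * (v ((j : ℤ) * g) * (uph t ^ g) ^ j) ∧
    c2 g s t v 0 j = (((‖t‖ ^ g) ^ j : ℝ) : ℂ) * (v ((j : ℤ) * g) * (uph t ^ g) ^ j) ∧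
    c3 g b s t v j 0 = v ((j : ℤ) * g) * (uph t ^ g) ^ j := by
  have hs := H.G.s0
  have ht := H.G.t0
  have usg : uph s ^ g ≠ 0 := pow_ne_zero _ (F2B_uph0 hs)
  have n1 : ((j : ℤ) * g + g).toNat = (j + 1) * g := by
    rw [show (j : ℤ) * g + g = (((j + 1) * g : ℕ) : ℤ) by push_cast; ring, Int.toNat_natCast]
  have n2 : ((j : ℤ) * g).toNat = j * g := by
    rw [show (j : ℤ) * g = ((j * g : ℕ) : ℤ) by push_cast; ring, Int.toNat_natCast]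
  have n0 : (0 : ℤ) ≤ (j : ℤ) * g := by positivity
  have n3 : (-((j : ℤ) * g) - g).toNat = 0 := by
    apply Int.toNat_of_nonpos
    omega
  have n4 : (-((j : ℤ) * g)).toNat = 0 := by
    apply Int.toNat_of_nonpos
    omega
  refine ⟨?_, ?_, ?_⟩
  · unfold c1
    rw [n1, n2, F2B_pow hs, F2B_pow ht, show ((j : ℤ) + 1) = ((j + 1 : ℕ) : ℤ) by push_cast; ring, zpow_natCast,
      inv_pow]
    have h2 : (uph s ^ g) ^ (j + 1) * ((uph s ^ g) ^ (j + 1))⁻¹ = 1 := mul_inv_cancel₀ (pow_ne_zero _ usg)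
    calc v ((j : ℤ) * g) * ((((‖s‖ ^ g) ^ (j + 1) : ℝ) : ℂ) * (uph s ^ g) ^ (j + 1) *
          ((((‖t‖ ^ g) ^ j : ℝ) : ℂ) * (uph t ^ g) ^ j)) * ((uph s ^ g) ^ (j + 1))⁻¹
        = v ((j : ℤ) * g) * (((‖s‖ ^ g) ^ (j + 1) : ℝ) : ℂ) * ((((‖t‖ ^ g) ^ j : ℝ) : ℂ) * (uph t ^ g) ^ j) *
          ((uph s ^ g) ^ (j + 1) * ((uph s ^ g) ^ (j + 1))⁻¹) := by ring
      _ = _ := by
          rw [h2, mul_one]
          push_cast
          ring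
  · unfold c2
    rw [n3, n2, F2B_pow ht]
    ring
  · unfold c3
    rw [show (j : ℤ) * g + 0 * b = (j : ℤ) * g by ring, n3, n4, zpow_natCast]
    ring

/-- labels of the unit lattice, position `-(2 + k) g` -/
theorem HypF.unitK (H : HypF g b s t v) (k : ℕ) :
    c1 g s t v 0 (-(2 + (k : ℤ))) = v (-(2 + (k : ℤ)) * g) * (uph s ^ g) ^ (k + 1) ∧
    c2 g s t v 0 (-(2 + (k : ℤ))) = (((‖s‖ ^ g) ^ (k + 1) : ℝ) : ℂ) * (v (-(2 + (k : ℤ)) * g) * (uph s ^ g) ^ (k + 1)) ∧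
    c3 g b s t v (-(2 + (k : ℤ))) 0 = (((‖s‖ ^ g) ^ (k + 1) * (‖t‖ ^ g) ^ (k + 2) : ℝ) : ℂ) *
      (v (-(2 + (k : ℤ)) * g) * (uph s ^ g) ^ (k + 1)) := by
  have hs := H.G.s0
  have ht := H.G.t0
  have usg : uph s ^ g ≠ 0 := pow_ne_zero _ (F2B_uph0 hs)
  have utg : uph t ^ g ≠ 0 := pow_ne_zero _ (F2B_uph0 ht)
  have k0 : (0 : ℤ) ≤ (k : ℤ) * g := by positivity
  have e0 : -(2 + (k : ℤ)) * g = -(2 * (g : ℤ) + k * g) := by ring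
  have n1 : (-(2 + (k : ℤ)) * g + g).toNat = 0 := by
    apply Int.toNat_of_nonpos
    rw [e0]
    omega
  have n2 : (-(2 + (k : ℤ)) * g).toNat = 0 := by
    apply Int.toNat_of_nonpos
    rw [e0]
    omega
  have n3 : (-(-(2 + (k : ℤ)) * g) - g).toNat = (k + 1) * g := by
    rw [show -(-(2 + (k : ℤ)) * g) - g = (((k + 1) * g : ℕ) : ℤ) by push_cast; ring, Int.toNat_natCast]
  have n4 : (-(-(2 + (k : ℤ)) * g)).toNat = (k + 2) * g := by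
    rw [show -(-(2 + (k : ℤ)) * g) = (((k + 2) * g : ℕ) : ℤ) by push_cast; ring, Int.toNat_natCast]
  refine ⟨?_, ?_, ?_⟩
  · unfold c1
    rw [n1, n2, show (-(2 + (k : ℤ)) + 1) = -((k + 1 : ℕ) : ℤ) by push_cast; ring, inv_zpow, zpow_neg, inv_inv,
      zpow_natCast]
    ring
  · unfold c2
    rw [n3, n2, F2B_pow hs]
    ring
  · unfold c3
    rw [show -(2 + (k : ℤ)) * g + 0 * b = -(2 + (k : ℤ)) * g by ring, n3, n4, F2B_pow hs, F2B_pow ht,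
      show -(2 + (k : ℤ)) = -((k + 2 : ℕ) : ℤ) by push_cast; ring, zpow_neg, zpow_natCast]
    have h2 : (uph t ^ g) ^ (k + 2) * ((uph t ^ g) ^ (k + 2))⁻¹ = 1 := mul_inv_cancel₀ (pow_ne_zero _ utg)
    calc v (-((k + 2 : ℕ) : ℤ) * g) * ((((‖s‖ ^ g) ^ (k + 1) : ℝ) : ℂ) * (uph s ^ g) ^ (k + 1) *
          ((((‖t‖ ^ g) ^ (k + 2) : ℝ) : ℂ) * (uph t ^ g) ^ (k + 2))) * ((uph t ^ g) ^ (k + 2))⁻¹
        = v (-((k + 2 : ℕ) : ℤ) * g) * ((((‖s‖ ^ g) ^ (k + 1) : ℝ) : ℂ) * (uph s ^ g) ^ (k + 1)) *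
          (((‖t‖ ^ g) ^ (k + 2) : ℝ) : ℂ) * ((uph t ^ g) ^ (k + 2) * ((uph t ^ g) ^ (k + 2))⁻¹) := by ring
      _ = _ := by
          rw [h2, mul_one]
          push_cast
          ring

end Pool.Agent.MaxTerm59b
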