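import Pool.Agent.MaxTerm59b.MvDef

/-! Tables of powers. `powr p m = ⌊2^40 (a/2^50)^u (b/2^50)^v (c/2^50)^w⌋`, `m = 256 u + 16 v + w`. -/

namespace Pool.Agent.MaxTerm59b

private theorem PwS_pow_diff (a b : ℝ) (hb : 0 ≤ b) (hab : b ≤ a) (ha : a ≤ 1) (n : ℕ) :
    a ^ n - b ^ n ≤ n * (a - b) := by
  induction n with
  | zero => simp
  | succ n ih =>
    have ha0 : 0 ≤ a := hb.trans hab
    have h0 : 0 ≤ a ^ n - b ^ n := sub_nonneg.2 (pow_le_pow_left₀ hb hab n)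
    have h1 : a * (a ^ n - b ^ n) ≤ a ^ n - b ^ n := by nlinarith
    have h2 : b ^ n * (a - b) ≤ a - b := by
      have : b ^ n ≤ 1 := pow_le_one₀ hb (hab.trans ha)
      nlinarith [sub_nonneg.2 hab, pow_nonneg hb n]
    have h3 : a ^ (n + 1) - b ^ (n + 1) = a * (a ^ n - b ^ n) + b ^ n * (a - b) := by ring
    rw [h3]
    push_cast
    linarith

/-- real form of the splitting of the exponent -/
private theorem PwS_split (x : ℝ) (hx : 0 < x) (m : ℕ) :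
    x ^ ((m : ℝ) / 256) = x ^ (m / 256) * ((x ^ ((1 : ℝ) / 16)) ^ (m / 16 % 16) *
      ((x ^ ((1 : ℝ) / 16)) ^ ((1 : ℝ) / 16)) ^ (m % 16)) := by
  have hm : m = 256 * (m / 256) + 16 * (m / 16 % 16) + m % 16 := by omega
  have hr : (m : ℝ) = 256 * ((m / 256 : ℕ) : ℝ) + 16 * ((m / 16 % 16 : ℕ) : ℝ) + ((m % 16 : ℕ) : ℝ) := by
    exact_mod_cast hm
  have he : (m : ℝ) / 256 = ((m / 256 : ℕ) : ℝ) + ((1 : ℝ) / 16 * ((m / 16 % 16 : ℕ) : ℝ) +
      (1 : ℝ) / 16 * ((1 : ℝ) / 16) * ((m % 16 : ℕ) : ℝ)) := by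
    rw [hr]; ring
  rw [he, Real.rpow_add hx, Real.rpow_add hx, Real.rpow_natCast, Real.rpow_mul hx.le, Real.rpow_natCast,
    Real.rpow_mul hx.le ((1 : ℝ) / 16 * ((1 : ℝ) / 16)), Real.rpow_natCast, Real.rpow_mul hx.le]

/-- the value before rounding -/
private noncomputable def PwS_val (p : Pw) (m : ℕ) : ℝ :=
  ((p.a : ℝ) / 2 ^ 50) ^ (m / 256) * (((p.b : ℝ) / 2 ^ 50) ^ (m / 16 % 16) * ((p.c : ℝ) / 2 ^ 50) ^ (m % 16))

private theorem PwS_powr (p : Pw) (m : ℕ) :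
    (powr p m : ℝ) ≤ 2 ^ 40 * PwS_val p m ∧ 2 ^ 40 * PwS_val p m < powr p m + 1 := by
  set u := m / 256 with hu
  set v := m / 16 % 16 with hv
  set w := m % 16 with hw
  have h1 : powr p m = 1099511627776 * (p.a ^ u * (p.b ^ v * p.c ^ w)) / 2 ^ (50 * (u + (v + w))) := by
    show Nat.shiftRight (1099511627776 * (p.a ^ u * (p.b ^ v * p.c ^ w))) (50 * (u + (v + w))) = _
    exact Nat.shiftRight_eq_div_pow _ _
  set N := 1099511627776 * (p.a ^ u * (p.b ^ v * p.c ^ w)) with hN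
  set D := 2 ^ (50 * (u + (v + w))) with hD
  have hD0 : 0 < D := by positivity
  have h2 : 2 ^ 40 * PwS_val p m = (N : ℝ) / D := by
    rw [eq_div_iff (by positivity), hN, hD]
    unfold PwS_val
    rw [← hu, ← hv, ← hw]
    push_cast
    rw [div_pow, div_pow, div_pow, pow_mul, pow_add, pow_add]
    field_simp
    norm_num
    ring
  rw [h1, h2]
  constructor
  · exact Nat.cast_div_le
  · rw [div_lt_iff₀ (by exact_mod_cast hD0)]
    have : N < (N / D + 1) * D := by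
      have := Nat.lt_mul_div_succ N hD0
      rw [mul_comm]; exact this
    exact_mod_cast this

private theorem PwS_root_pow (x : ℝ) (hx : 0 ≤ x) : (x ^ ((1 : ℝ) / 16)) ^ 16 = x := by
  rw [← Real.rpow_natCast, ← Real.rpow_mul hx]
  norm_num

private theorem PwS_pow750 : ((Nat.pow 2 750 : ℕ) : ℝ) = ((2 : ℝ) ^ 50) ^ 15 := by
  have h1 : ((Nat.pow 2 750 : ℕ) : ℝ) = ((2 : ℕ) : ℝ) ^ (50 * 15) := Nat.cast_pow 2 (50 * 15)
  rw [h1, pow_mul, Nat.cast_ofNat]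

private theorem PwS_ge (x r P q : ℝ) (hx : 0 ≤ x) (hq : 0 < q) (hP : P = q ^ 15) (h : r ^ 16 ≤ x * P) :
    r / q ≤ (x / q) ^ ((1 : ℝ) / 16) := by
  have hx0 : 0 ≤ x / q := by positivity
  refine le_of_pow_le_pow_left₀ (n := 16) (by norm_num) (Real.rpow_nonneg hx0 _) ?_
  rw [PwS_root_pow _ hx0, div_pow, div_le_div_iff₀ (by positivity) hq]
  have : x * q ^ 16 = x * P * q := by rw [hP]; ring
  rw [this]
  exact mul_le_mul_of_nonneg_right h hq.le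

private theorem PwS_lt (x r P q : ℝ) (hx : 0 ≤ x) (hr : 0 ≤ r) (hq : 0 < q) (hP : P = q ^ 15) (h : x * P < r ^ 16) :
    (x / q) ^ ((1 : ℝ) / 16) < r / q := by
  have hx0 : 0 ≤ x / q := by positivity
  refine lt_of_pow_lt_pow_left₀ 16 (by positivity) ?_
  rw [PwS_root_pow _ hx0, div_pow, div_lt_div_iff₀ hq (by positivity)]
  have : x * q ^ 16 = x * P * q := by rw [hP]; ring
  rw [this]
  exact mul_lt_mul_of_pos_right h hq

private theorem PwS_le (x r P q : ℝ) (hx : 0 ≤ x) (hr : 0 ≤ r) (hq : 0 < q) (hP : P = q ^ 15) (h : x * P ≤ r ^ 16) :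
    (x / q) ^ ((1 : ℝ) / 16) ≤ r / q := by
  have hx0 : 0 ≤ x / q := by positivity
  refine le_of_pow_le_pow_left₀ (n := 16) (by norm_num) (by positivity) ?_
  rw [PwS_root_pow _ hx0, div_pow, div_le_div_iff₀ hq (by positivity)]
  have : x * q ^ 16 = x * P * q := by rw [hP]; ring
  rw [this]
  exact mul_le_mul_of_nonneg_right h hq.le

private theorem PwS_rootF {x r : ℕ} (h : rootF x r = true) :
    (r : ℝ) / 2 ^ 50 ≤ ((x : ℝ) / 2 ^ 50) ^ ((1 : ℝ) / 16) ∧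
      ((x : ℝ) / 2 ^ 50) ^ ((1 : ℝ) / 16) < (r : ℝ) / 2 ^ 50 + 1 / 2 ^ 50 := by
  unfold rootF at h
  rw [Bool.and_eq_true] at h
  have hP := PwS_pow750
  obtain ⟨h1, h2⟩ := h
  rw [Nat.ble_eq] at h1
  rw [Nat.blt_eq] at h2
  generalize Nat.pow 2 750 = P at h1 h2 hP
  have h1' : (r : ℝ) ^ 16 ≤ x * P := by
    have h3 : r ^ 16 ≤ x * P := h1
    exact_mod_cast h3
  have h2' : (x : ℝ) * P < ((r : ℝ) + 1) ^ 16 := by
    have h3 : x * P < (r + 1) ^ 16 := h2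
    exact_mod_cast h3
  refine ⟨PwS_ge x r P (2 ^ 50) (Nat.cast_nonneg x) (by positivity) hP h1', ?_⟩
  rw [← add_div]
  exact PwS_lt x (r + 1) P (2 ^ 50) (Nat.cast_nonneg x) (by positivity) (by positivity) hP h2'

private theorem PwS_rootC {x r : ℕ} (h : rootC x r = true) :
    ((x : ℝ) / 2 ^ 50) ^ ((1 : ℝ) / 16) ≤ (r : ℝ) / 2 ^ 50 := by
  unfold rootC at h
  have hP := PwS_pow750
  rw [Nat.ble_eq] at h
  generalize Nat.pow 2 750 = P at h hP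
  have h1' : (x : ℝ) * P ≤ (r : ℝ) ^ 16 := by
    have h3 : x * P ≤ r ^ 16 := h
    exact_mod_cast h3
  exact PwS_le x r P (2 ^ 50) (Nat.cast_nonneg x) (Nat.cast_nonneg r) (by positivity) hP h1'

/-- table rounded down: `a = 2^50 x`, `b = ⌊2^50 x^(1/16)⌋`, `c = ⌊2^50 (b/2^50)^(1/16)⌋` (from `rootF`) -/
theorem powr_floor (p : Pw) (x : ℝ) (ha : (p.a : ℝ) = 2 ^ 50 * x) (hx : 1 / 64 ≤ x) (hx1 : x < 1)
    (h1 : rootF p.a p.b = true) (h2 : rootF p.b p.c = true) (m : ℕ) :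
    |(powr p m : ℝ) - 2 ^ 40 * x ^ ((m : ℝ) / 256)| ≤ 5 / 4 ∧ (powr p m : ℝ) ≤ 2 ^ 40 * x ^ ((m : ℝ) / 256) := by
  have hx0 : 0 < x := by linarith
  have hA : (p.a : ℝ) / 2 ^ 50 = x := by rw [ha]; field_simp
  obtain ⟨hB1, hB2⟩ := PwS_rootF h1
  obtain ⟨hC1, hC2⟩ := PwS_rootF h2
  rw [hA] at hB1 hB2
  have hv := PwS_powr p m
  rw [PwS_split x hx0 m]
  unfold PwS_val at hv
  rw [hA] at hv
  set β := x ^ ((1 : ℝ) / 16) with hβ
  set γ := β ^ ((1 : ℝ) / 16) with hγ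
  set B := (p.b : ℝ) / 2 ^ 50 with hB
  set C := (p.c : ℝ) / 2 ^ 50 with hC
  set δ := B ^ ((1 : ℝ) / 16) with hδ
  set ε : ℝ := 1 / 2 ^ 50 with hε
  have hB0 : 0 ≤ B := by rw [hB]; positivity
  have hC0 : 0 ≤ C := by rw [hC]; positivity
  have hβ0 : 0 ≤ β := hB0.trans hB1
  have hβ1 : β ≤ 1 := Real.rpow_le_one hx0.le hx1.le (by norm_num)
  have hβp : β ^ 16 = x := PwS_root_pow x hx0.le
  have hγp : γ ^ 16 = β := PwS_root_pow β hβ0
  have hδp : δ ^ 16 = B := PwS_root_pow B hB0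
  have hγ0 : 0 ≤ γ := Real.rpow_nonneg hβ0 _
  have hδ0 : 0 ≤ δ := Real.rpow_nonneg hB0 _
  have hγ1 : γ ≤ 1 := Real.rpow_le_one hβ0 hβ1 (by norm_num)
  have hδγ : δ ≤ γ := Real.rpow_le_rpow hB0 hB1 (by norm_num)
  have hβh : 1 / 2 ≤ β := by
    by_contra hc
    push Not at hc
    have : β ^ 16 < (1 / 2) ^ 16 := pow_lt_pow_left₀ hc hβ0 (by norm_num)
    rw [hβp] at this
    norm_num at this
    linarith
  have hγ15 : 1 / 2 ≤ γ ^ 15 := by
    have h3 : γ ^ 16 ≤ γ ^ 15 := pow_le_pow_of_le_one hγ0 hγ1 (by norm_num)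
    rw [hγp] at h3
    linarith
  have hγδ : γ - δ ≤ 2 * ε := by
    have h3 : (γ - δ) * γ ^ 15 ≤ γ ^ 16 - δ ^ 16 := by
      have h4 : δ ^ 15 ≤ γ ^ 15 := pow_le_pow_left₀ hδ0 hδγ 15
      have h5 : γ ^ 16 - δ ^ 16 - (γ - δ) * γ ^ 15 = δ * (γ ^ 15 - δ ^ 15) := by ring
      have h6 : 0 ≤ δ * (γ ^ 15 - δ ^ 15) := mul_nonneg hδ0 (by linarith)
      linarith
    rw [hγp, hδp] at h3
    have h7 : (γ - δ) * (1 / 2) ≤ (γ - δ) * γ ^ 15 :=
      mul_le_mul_of_nonneg_left hγ15 (by linarith)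
    linarith
  have hγC : γ - C ≤ 3 * ε := by linarith
  have hCγ : C ≤ γ := hC1.trans hδγ
  set u := m / 256
  set v := m / 16 % 16 with hvd
  set w := m % 16 with hwd
  have hv16 : v ≤ 15 := by omega
  have hw16 : w ≤ 15 := by omega
  have hle : x ^ u * (B ^ v * C ^ w) ≤ x ^ u * (β ^ v * γ ^ w) := by
    gcongr
  have hdiff : x ^ u * (β ^ v * γ ^ w) - x ^ u * (B ^ v * C ^ w) ≤ 60 * ε := by
    have e1 : β ^ v - B ^ v ≤ v * (β - B) := PwS_pow_diff β B hB0 hB1 hβ1 v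
    have e2 : γ ^ w - C ^ w ≤ w * (γ - C) := PwS_pow_diff γ C hC0 hCγ hγ1 w
    have e1' : β ^ v - B ^ v ≤ 15 * ε := by
      refine e1.trans ?_
      have : (v : ℝ) ≤ 15 := by exact_mod_cast hv16
      have h0 : 0 ≤ β - B := by linarith
      have h1 : β - B ≤ ε := by linarith
      calc (v : ℝ) * (β - B) ≤ 15 * (β - B) := mul_le_mul_of_nonneg_right this h0
        _ ≤ 15 * ε := by linarith
    have e2' : γ ^ w - C ^ w ≤ 45 * ε := by
      refine e2.trans ?_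
      have : (w : ℝ) ≤ 15 := by exact_mod_cast hw16
      have h0 : 0 ≤ γ - C := by linarith
      calc (w : ℝ) * (γ - C) ≤ 15 * (γ - C) := mul_le_mul_of_nonneg_right this h0
        _ ≤ 45 * ε := by linarith
    have hBv : B ^ v ≤ 1 := pow_le_one₀ hB0 (hB1.trans hβ1)
    have hBv0 : 0 ≤ B ^ v := pow_nonneg hB0 v
    have hγw : γ ^ w ≤ 1 := pow_le_one₀ hγ0 hγ1
    have hγw0 : 0 ≤ γ ^ w := pow_nonneg hγ0 w
    have d1 : 0 ≤ β ^ v - B ^ v := sub_nonneg.2 (pow_le_pow_left₀ hB0 hB1 v)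
    have d2 : 0 ≤ γ ^ w - C ^ w := sub_nonneg.2 (pow_le_pow_left₀ hC0 hCγ w)
    have hxu : x ^ u ≤ 1 := pow_le_one₀ hx0.le hx1.le
    have hxu0 : 0 ≤ x ^ u := pow_nonneg hx0.le u
    have e3 : β ^ v * γ ^ w - B ^ v * C ^ w = (β ^ v - B ^ v) * γ ^ w + B ^ v * (γ ^ w - C ^ w) := by ring
    have e4 : (β ^ v - B ^ v) * γ ^ w ≤ β ^ v - B ^ v := mul_le_of_le_one_right d1 hγw
    have e5 : B ^ v * (γ ^ w - C ^ w) ≤ γ ^ w - C ^ w := mul_le_of_le_one_left d2 hBv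
    have e6 : 0 ≤ β ^ v * γ ^ w - B ^ v * C ^ w := by
      rw [e3]; positivity
    have e7 : x ^ u * (β ^ v * γ ^ w) - x ^ u * (B ^ v * C ^ w) ≤ β ^ v * γ ^ w - B ^ v * C ^ w := by
      rw [← mul_sub]
      exact mul_le_of_le_one_left e6 hxu
    linarith
  have hε' : 2 ^ 40 * (60 * ε) ≤ 1 / 4 := by rw [hε]; norm_num
  have hlo : (powr p m : ℝ) ≤ 2 ^ 40 * (x ^ u * (β ^ v * γ ^ w)) :=
    hv.1.trans (mul_le_mul_of_nonneg_left hle (by positivity))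
  refine ⟨?_, hlo⟩
  rw [abs_le]
  constructor
  · have := hv.2
    have h9 : 2 ^ 40 * (x ^ u * (β ^ v * γ ^ w)) - 2 ^ 40 * (x ^ u * (B ^ v * C ^ w)) ≤ 2 ^ 40 * (60 * ε) := by
      rw [← mul_sub]
      exact mul_le_mul_of_nonneg_left hdiff (by positivity)
    have key : ∀ P X Y E : ℝ, Y < P + 1 → X - Y ≤ E → E ≤ 1 / 4 → -(5 / 4) ≤ P - X := by
      intros
      linarith
    exact key _ _ _ _ this h9 hε'
  · have key : ∀ P X : ℝ, P ≤ X → P - X ≤ 5 / 4 := by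
      intros
      linarith
    exact key _ _ hlo

/-- table rounded up -/
theorem powr_ceil (p : Pw) (h1 : rootC p.a p.b = true) (h2 : rootC p.b p.c = true) (hb : p.b ≤ 2 ^ 50) (hc : p.c ≤ 2 ^ 50)
    (ha : p.a < 2 ^ 50) (ha0 : 0 < p.a) (m : ℕ) :
    2 ^ 40 * ((p.a : ℝ) / 2 ^ 50) ^ ((m : ℝ) / 256) ≤ (Nat.succ (powr p m) : ℝ) ∧ powr p m ≤ 2 ^ 40 := by
  have hv := PwS_powr p m
  have hA0 : 0 < (p.a : ℝ) / 2 ^ 50 := by
    have : (0 : ℝ) < p.a := by exact_mod_cast ha0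
    positivity
  have hA1 : (p.a : ℝ) / 2 ^ 50 ≤ 1 := by
    rw [div_le_one (by positivity)]
    exact_mod_cast ha.le
  have hB1 : (p.b : ℝ) / 2 ^ 50 ≤ 1 := by
    rw [div_le_one (by positivity)]
    exact_mod_cast hb
  have hC1 : (p.c : ℝ) / 2 ^ 50 ≤ 1 := by
    rw [div_le_one (by positivity)]
    exact_mod_cast hc
  have hB0 : 0 ≤ (p.b : ℝ) / 2 ^ 50 := by positivity
  have hC0 : 0 ≤ (p.c : ℝ) / 2 ^ 50 := by positivity
  have r1 := PwS_rootC h1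
  have r2 := PwS_rootC h2
  constructor
  · rw [PwS_split _ hA0 m]
    have hle : ((p.a : ℝ) / 2 ^ 50) ^ (m / 256) * ((((p.a : ℝ) / 2 ^ 50) ^ ((1 : ℝ) / 16)) ^ (m / 16 % 16) *
        ((((p.a : ℝ) / 2 ^ 50) ^ ((1 : ℝ) / 16)) ^ ((1 : ℝ) / 16)) ^ (m % 16)) ≤ PwS_val p m := by
      unfold PwS_val
      have h0 : 0 ≤ ((p.a : ℝ) / 2 ^ 50) ^ ((1 : ℝ) / 16) := Real.rpow_nonneg hA0.le _
      have r3 : (((p.a : ℝ) / 2 ^ 50) ^ ((1 : ℝ) / 16)) ^ ((1 : ℝ) / 16) ≤ (p.c : ℝ) / 2 ^ 50 :=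
        (Real.rpow_le_rpow h0 r1 (by norm_num)).trans r2
      have h00 : 0 ≤ (((p.a : ℝ) / 2 ^ 50) ^ ((1 : ℝ) / 16)) ^ ((1 : ℝ) / 16) := Real.rpow_nonneg h0 _
      gcongr
    have h3 := mul_le_mul_of_nonneg_left hle (by positivity : (0 : ℝ) ≤ 2 ^ 40)
    have h4 := hv.2
    push_cast
    linarith
  · have h5 : PwS_val p m ≤ 1 := by
      unfold PwS_val
      exact mul_le_one₀ (pow_le_one₀ hA0.le hA1) (by positivity)
        (mul_le_one₀ (pow_le_one₀ hB0 hB1) (by positivity) (pow_le_one₀ hC0 hC1))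
    have h6 : (powr p m : ℝ) ≤ 2 ^ 40 := by
      calc (powr p m : ℝ) ≤ 2 ^ 40 * PwS_val p m := hv.1
        _ ≤ 2 ^ 40 * 1 := mul_le_mul_of_nonneg_left h5 (by positivity)
        _ = 2 ^ 40 := mul_one _
    exact_mod_cast h6

/-- facts on a good leaf -/
theorem GoodL.facts {L : LMV} (H : GoodL L) :
    rootF L.t0.a L.t0.b = true ∧ rootF L.t0.b L.t0.c = true ∧ rootF L.t1.a L.t1.b = true ∧ rootF L.t1.b L.t1.c = true ∧
    rootC L.D0.a L.D0.b = true ∧ rootC L.D0.b L.D0.c = true ∧ rootC L.D1.a L.D1.b = true ∧ rootC L.D1.b L.D1.c = true ∧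
    okD L.T0 (Nat.ble 44237 L.T0) L.D0.a = true ∧ okD L.T1 (Nat.ble 44237 L.T0) L.D1.a = true ∧
    L.D0.a ≤ L.D1.a ∧ L.T0 ≤ L.T1 ∧ L.D1.a < 2 ^ 50 ∧
    L.D0.b ≤ 2 ^ 50 ∧ L.D0.c ≤ 2 ^ 50 ∧ L.D1.b ≤ 2 ^ 50 ∧ L.D1.c ≤ 2 ^ 50 ∧ 0 < L.D0.a := by
  have h := H.ok
  unfold okT at h
  simp only [Bool.and_eq_true, Nat.ble_eq, Nat.blt_eq] at h
  obtain ⟨⟨⟨⟨a1, a2⟩, ⟨a3, a4⟩⟩, ⟨⟨a5, a6⟩, ⟨a7, a8⟩⟩⟩, ⟨⟨b1, b2⟩, ⟨⟨c1, ⟨c2, c3⟩⟩, ⟨⟨d1, d2⟩, ⟨d3, d4⟩⟩⟩⟩⟩ := h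
  refine ⟨a1, a2, a3, a4, a5, a6, a7, a8, b1, b2, c1, c2, by simpa using c3, by simpa using d1, by simpa using d2,
    by simpa using d3, by simpa using d4, ?_⟩
  by_contra hc
  have h0 : L.D0.a = 0 := by omega
  rw [h0] at b1
  unfold okD at b1
  rcases hb : Nat.ble 44237 L.T0 with _ | _
  · rw [hb] at b1
    simp at b1
  · rw [hb] at b1
    simp at b1

/-- the size is at least the power of the bound -/
theorem szV_ge {L : LMV} (H : GoodL L) (m : ℕ) (b : Bool) :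
    (((if b then L.D1.a else L.D0.a : ℕ) : ℝ) / 2 ^ 50) ^ ((m : ℝ) / 256) ≤ szV L m b := by
  obtain ⟨a1, a2, a3, a4, a5, a6, a7, a8, b1, b2, c1, c2, c3, d1, d2, d3, d4, e1⟩ := H.facts
  unfold szV sizeS
  rcases Nat.eq_zero_or_pos m with hm | hm
  · subst hm
    simp
    norm_num
  · have hb : Nat.beq m 0 = false := by
      rcases m with _ | k
      · omega
      · rfl
    rw [hb, cond_false, le_div_iff₀ (by positivity), mul_comm]
    cases b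
    · simpa using (powr_ceil L.D0 a5 a6 d1 d2 (lt_of_le_of_lt c1 c3) e1 m).1
    · simpa using (powr_ceil L.D1 a7 a8 d3 d4 c3 (lt_of_lt_of_le e1 c1) m).1

theorem szV_pos {L : LMV} (m : ℕ) (b : Bool) : 0 < szV L m b := by
  unfold szV sizeS
  rcases hb : Nat.beq m 0 with _ | _
  · rw [cond_false]
    positivity
  · rw [cond_true]
    positivity

theorem szV_le {L : LMV} (H : GoodL L) (m : ℕ) (b : Bool) : szV L m b ≤ 2 := by
  obtain ⟨a1, a2, a3, a4, a5, a6, a7, a8, b1, b2, c1, c2, c3, d1, d2, d3, d4, e1⟩ := H.facts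
  unfold szV sizeS
  rw [div_le_iff₀ (by positivity)]
  rcases hb : Nat.beq m 0 with _ | _
  · rw [cond_false]
    have h1 : powr (cond b L.D1 L.D0) m ≤ 2 ^ 40 := by
      cases b
      · exact (powr_ceil L.D0 a5 a6 d1 d2 (lt_of_le_of_lt c1 c3) e1 m).2
      · exact (powr_ceil L.D1 a7 a8 d3 d4 c3 (lt_of_lt_of_le e1 c1) m).2
    have h2 : (powr (cond b L.D1 L.D0) m : ℝ) ≤ 2 ^ 40 := by exact_mod_cast h1
    push_cast
    linarith
  · rw [cond_true]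
    norm_num

theorem szV_zero {L : LMV} (b : Bool) : szV L 0 b = 1 := by
  unfold szV sizeS
  norm_num

/-- interpolated sizes -/
theorem psB_ge {L : LMV} (H : GoodL L) (s1 : ℝ) (h1 : |s1| ≤ 1) (i j : ℕ) :
    Dt L s1 ^ ((lm2 L i j : ℝ) / 256) ≤ psB L i j s1 := by
  obtain ⟨a1, a2, a3, a4, a5, a6, a7, a8, b1, b2, c1, c2, c3, d1, d2, d3, d4, e1⟩ := H.facts
  have p0 : 0 < (L.D0.a : ℝ) / 2 ^ 50 := by
    have : (0 : ℝ) < L.D0.a := by exact_mod_cast e1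
    positivity
  have p1 : 0 < (L.D1.a : ℝ) / 2 ^ 50 := by
    have : (0 : ℝ) < L.D1.a := by exact_mod_cast lt_of_lt_of_le e1 c1
    positivity
  unfold Dt psB
  rw [← gi_rpow _ _ _ _ p0 p1]
  refine gi_mono _ _ _ _ s1 h1 (Real.rpow_pos_of_pos p0 _) (Real.rpow_pos_of_pos p1 _) ?_ ?_
  · simpa using szV_ge H (lm2 L i j) false
  · simpa using szV_ge H (lm2 L i j) true

theorem psB_pos {L : LMV} (i j : ℕ) (s1 : ℝ) : 0 < psB L i j s1 :=
  gi_pos _ _ _ (szV_pos _ _) (szV_pos _ _)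

/-- superadditivity of the geometric interpolation -/
private theorem PwS_gi_add (A0 A1 B0 B1 s : ℝ) (hs : |s| ≤ 1) (h0 : 0 < A0) (h1 : 0 < A1) (h2 : 0 < B0) (h3 : 0 < B1) :
    gi A0 A1 s + gi B0 B1 s ≤ gi (A0 + B0) (A1 + B1) s := by
  have hG : 0 < gi (A0 + B0) (A1 + B1) s := gi_pos _ _ _ (by positivity) (by positivity)
  have e1 : gi A0 A1 s = gi (A0 + B0) (A1 + B1) s * gi (A0 / (A0 + B0)) (A1 / (A1 + B1)) s := by
    rw [← gi_mul _ _ _ _ s (by positivity) (by positivity) (by positivity) (by positivity)]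
    congr 1 <;> field_simp
  have e2 : gi B0 B1 s = gi (A0 + B0) (A1 + B1) s * gi (B0 / (A0 + B0)) (B1 / (A1 + B1)) s := by
    rw [← gi_mul _ _ _ _ s (by positivity) (by positivity) (by positivity) (by positivity)]
    congr 1 <;> field_simp
  have f1 := gi_le_ai (A0 / (A0 + B0)) (A1 / (A1 + B1)) s hs (by positivity) (by positivity)
  have f2 := gi_le_ai (B0 / (A0 + B0)) (B1 / (A1 + B1)) s hs (by positivity) (by positivity)
  have f3 : ai (A0 / (A0 + B0)) (A1 / (A1 + B1)) s + ai (B0 / (A0 + B0)) (B1 / (A1 + B1)) s = 1 := by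
    unfold ai
    field_simp
    ring
  rw [e1, e2, ← mul_add]
  calc gi (A0 + B0) (A1 + B1) s * (gi (A0 / (A0 + B0)) (A1 / (A1 + B1)) s + gi (B0 / (A0 + B0)) (B1 / (A1 + B1)) s)
      ≤ gi (A0 + B0) (A1 + B1) s * 1 := mul_le_mul_of_nonneg_left (by linarith) hG.le
    _ = _ := mul_one _

/-- the bound `D`. Hint: `D ≤ 17/50 + 1/100000` or `D ≤ 10/9 t`; if `T0 ≥ 44237` use `hD3` and
`t + ε ≤ gi (t0 + ε) (t1 + ε) s1` (weighted AM-GM / Hölder) for `t = gi t0 t1 s1`. -/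
theorem D_le_Dt {L : LMV} (H : GoodL L) (a : ℕ) (x : ℂ) (D : ℝ) (s1 : ℝ) (h1 : |s1| ≤ 1)
    (ht : ‖x‖ ^ a = gi ((L.T0 : ℝ) / 65536) ((L.T1 : ℝ) / 65536) s1)
    (hD : D ≤ 17 / 50 + 1 / 100000 ∨ D ≤ 10 / 9 * ‖x‖ ^ a) (hD3 : D ≤ 7501 / 10000 ∨ D ≤ ‖x‖ ^ a + 1 / 10000) :
    D ≤ Dt L s1 := by
  obtain ⟨a1, a2, a3, a4, a5, a6, a7, a8, b1, b2, c1, c2, c3, d1, d2, d3, d4, e1⟩ := H.facts
  have p0 : 0 < (L.D0.a : ℝ) / 2 ^ 50 := by
    have : (0 : ℝ) < L.D0.a := by exact_mod_cast e1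
    positivity
  have p1 : 0 < (L.D1.a : ℝ) / 2 ^ 50 := by
    have : (0 : ℝ) < L.D1.a := by exact_mod_cast lt_of_lt_of_le e1 c1
    positivity
  have hT0 : (1024 : ℝ) ≤ L.T0 := by exact_mod_cast H.T
  have hT1 : (1024 : ℝ) ≤ L.T1 := by exact_mod_cast H.T.trans c2
  have t0 : 0 < (L.T0 : ℝ) / 65536 := by positivity
  have t1 : 0 < (L.T1 : ℝ) / 65536 := by positivity
  unfold Dt
  rcases hb : Nat.ble 44237 L.T0 with _ | _
  · -- small
    rw [hb] at b1 b2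
    unfold okD at b1 b2
    rw [cond_false, Bool.and_eq_true, Nat.ble_eq, Nat.ble_eq] at b1 b2
    simp only [Nat.mul_eq] at b1 b2
    obtain ⟨b11, b12⟩ := b1
    obtain ⟨b21, b22⟩ := b2
    have r11 : (34001 : ℝ) * 1125899906842624 ≤ L.D0.a * 100000 := by exact_mod_cast b11
    have r21 : (34001 : ℝ) * 1125899906842624 ≤ L.D1.a * 100000 := by exact_mod_cast b21
    have r12 : (10 : ℝ) * L.T0 * 17179869184 ≤ 9 * L.D0.a := by exact_mod_cast b12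
    have r22 : (10 : ℝ) * L.T1 * 17179869184 ≤ 9 * L.D1.a := by exact_mod_cast b22
    rcases hD with hD | hD
    · refine le_trans ?_ (le_gi _ _ s1 h1 p0 p1)
      rw [le_min_iff]
      constructor
      · rw [le_div_iff₀ (by positivity)]
        norm_num at r11 ⊢
        linarith
      · rw [le_div_iff₀ (by positivity)]
        norm_num at r21 ⊢
        linarith
    · refine hD.trans ?_
      rw [ht]
      have e : 10 / 9 * gi ((L.T0 : ℝ) / 65536) ((L.T1 : ℝ) / 65536) s1 =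
          gi (10 / 9 * ((L.T0 : ℝ) / 65536)) (10 / 9 * ((L.T1 : ℝ) / 65536)) s1 := by
        rw [gi_mul _ _ _ _ s1 (by norm_num) (by norm_num) t0 t1, gi_self _ _ (by norm_num)]
      rw [e]
      refine gi_mono _ _ _ _ s1 h1 (by positivity) (by positivity) ?_ ?_
      · rw [le_div_iff₀ (by positivity)]
        norm_num at r12 ⊢
        linarith
      · rw [le_div_iff₀ (by positivity)]
        norm_num at r22 ⊢
        linarith
  · rw [hb] at b1 b2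
    unfold okD at b1 b2
    rw [cond_true, Bool.and_eq_true, Nat.ble_eq, Nat.ble_eq] at b1 b2
    simp only [Nat.mul_eq, Nat.add_eq] at b1 b2
    obtain ⟨b11, b12⟩ := b1
    obtain ⟨b21, b22⟩ := b2
    have r11 : (7501 : ℝ) * 1125899906842624 ≤ L.D0.a * 10000 := by exact_mod_cast b11
    have r21 : (7501 : ℝ) * 1125899906842624 ≤ L.D1.a * 10000 := by exact_mod_cast b21
    have r12 : (L.T0 : ℝ) * 17179869184 + 112589990685 ≤ L.D0.a := by exact_mod_cast b12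
    have r22 : (L.T1 : ℝ) * 17179869184 + 112589990685 ≤ L.D1.a := by exact_mod_cast b22
    rcases hD3 with hD | hD
    · refine le_trans ?_ (le_gi _ _ s1 h1 p0 p1)
      rw [le_min_iff]
      constructor
      · rw [le_div_iff₀ (by positivity)]
        norm_num at r11 ⊢
        linarith
      · rw [le_div_iff₀ (by positivity)]
        norm_num at r21 ⊢
        linarith
    · refine hD.trans ?_
      rw [ht]
      have e : gi ((L.T0 : ℝ) / 65536) ((L.T1 : ℝ) / 65536) s1 + 1 / 10000 ≤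
          gi ((L.T0 : ℝ) / 65536 + 1 / 10000) ((L.T1 : ℝ) / 65536 + 1 / 10000) s1 := by
        have := PwS_gi_add ((L.T0 : ℝ) / 65536) ((L.T1 : ℝ) / 65536) (1 / 10000) (1 / 10000) s1 h1 t0 t1
          (by norm_num) (by norm_num)
        rwa [gi_self _ _ (by norm_num)] at this
      refine e.trans ?_
      refine gi_mono _ _ _ _ s1 h1 (by positivity) (by positivity) ?_ ?_
      · rw [le_div_iff₀ (by positivity)]
        norm_num at r12 ⊢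
        linarith
      · rw [le_div_iff₀ (by positivity)]
        norm_num at r22 ⊢
        linarith

theorem Dt_lt {L : LMV} (H : GoodL L) (s1 : ℝ) (h1 : |s1| ≤ 1) :
    (L.D0.a : ℝ) / 2 ^ 50 ≤ Dt L s1 ∧ Dt L s1 ≤ (L.D1.a : ℝ) / 2 ^ 50 ∧ 0 < Dt L s1 ∧ Dt L s1 < 1 := by
  obtain ⟨a1, a2, a3, a4, a5, a6, a7, a8, b1, b2, c1, c2, c3, d1, d2, d3, d4, e1⟩ := H.facts
  have p0 : 0 < (L.D0.a : ℝ) / 2 ^ 50 := by
    have : (0 : ℝ) < L.D0.a := by exact_mod_cast e1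
    positivity
  have p1 : 0 < (L.D1.a : ℝ) / 2 ^ 50 := by
    have : (0 : ℝ) < L.D1.a := by exact_mod_cast lt_of_lt_of_le e1 c1
    positivity
  have h01 : (L.D0.a : ℝ) / 2 ^ 50 ≤ (L.D1.a : ℝ) / 2 ^ 50 := by
    have : (L.D0.a : ℝ) ≤ L.D1.a := by exact_mod_cast c1
    gcongr
  have h2 := le_gi _ _ s1 h1 p0 p1
  rw [min_eq_left h01] at h2
  have h3 := gi_le_max _ _ s1 h1 p0 p1
  rw [max_eq_right h01] at h3
  have h4 : (L.D1.a : ℝ) / 2 ^ 50 < 1 := by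
    rw [div_lt_one (by positivity)]
    exact_mod_cast c3
  exact ⟨h2, h3, lt_of_lt_of_le p0 h2, lt_of_le_of_lt h3 h4⟩

end Pool.Agent.MaxTerm59b
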