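import Pool.Agent.MaxTerm59b.GiB

/-! Interpolation errors of the slots. -/

namespace Pool.Agent.MaxTerm59b
open Finset

private theorem SlC_dist (a b : ℕ) : |(a : ℝ) - b| = (dist a b : ℝ) := by
  have h := dist_eq a b
  have h' : ((dist a b : ℤ) : ℝ) = ((|(a : ℤ) - b| : ℤ) : ℝ) := by rw [h]
  rw [Int.cast_abs] at h'
  push_cast at h'
  exact h'.symm

private theorem SlC_conv (s a b M : ℝ) (hs : |s| ≤ 1) (ha : a ≤ M) (hb : b ≤ M) :
    (1 - s) / 2 * a + (1 + s) / 2 * b ≤ M := by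
  have h := abs_le.1 hs
  have c0 : 0 ≤ (1 - s) / 2 := by linarith
  have c1 : 0 ≤ (1 + s) / 2 := by linarith
  calc _ ≤ (1 - s) / 2 * M + (1 + s) / 2 * M := add_le_add (mul_le_mul_of_nonneg_left ha c0) (mul_le_mul_of_nonneg_left hb c1)
    _ = M := by ring

/-- the real estimate -/
private theorem SlC_real (s1 s2 Q c e d1 d2 a00 a10 a01 a11 ψ S : ℝ) (h1 : |s1| ≤ 1) (h2 : |s2| ≤ 1)
    (hS : S = (1 - s1) / 2 * ((1 - s2) / 2) * a00 + (1 + s1) / 2 * ((1 - s2) / 2) * a10 +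
      ((1 - s1) / 2 * ((1 + s2) / 2) * a01 + (1 + s1) / 2 * ((1 + s2) / 2) * a11))
    (hl : -6 ≤ S - 2 ^ 40 * ψ) (hu : S - 2 ^ 40 * ψ ≤ Q + 6) (hc : 2 * c ≤ Q) (he : Q - c + 8 ≤ e)
    (d1a : |a00 - a10| ≤ d1) (d1b : |a01 - a11| ≤ d1) (d2a : |a00 - a01| ≤ d2) (d2b : |a10 - a11| ≤ d2) :
    |ψ * 2 ^ 40 - (S - c)| ≤ e ∧
    |ψ * s1 * 2 ^ 40 - ((1 - s1) / 2 * ((1 - s2) / 2) * (-(a00 - c)) + (1 + s1) / 2 * ((1 - s2) / 2) * (a10 - c) +
      ((1 - s1) / 2 * ((1 + s2) / 2) * (-(a01 - c)) + (1 + s1) / 2 * ((1 + s2) / 2) * (a11 - c)))| ≤ e + d1 / 2 ∧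
    |ψ * s2 * 2 ^ 40 - ((1 - s1) / 2 * ((1 - s2) / 2) * (-(a00 - c)) + (1 + s1) / 2 * ((1 - s2) / 2) * (-(a10 - c)) +
      ((1 - s1) / 2 * ((1 + s2) / 2) * (a01 - c) + (1 + s1) / 2 * ((1 + s2) / 2) * (a11 - c)))| ≤ e + d2 / 2 := by
  have m : |ψ * 2 ^ 40 - (S - c)| ≤ e := by
    rw [abs_le]; constructor <;> linarith
  have he0 : 0 ≤ e := (abs_nonneg _).trans m
  have hd1 : 0 ≤ d1 := (abs_nonneg _).trans d1a
  have hd2 : 0 ≤ d2 := (abs_nonneg _).trans d2a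
  have q1 := abs_le.1 h1
  have q2 := abs_le.1 h2
  refine ⟨m, ?_, ?_⟩
  · have e1 : ψ * s1 * 2 ^ 40 - ((1 - s1) / 2 * ((1 - s2) / 2) * (-(a00 - c)) + (1 + s1) / 2 * ((1 - s2) / 2) * (a10 - c) +
      ((1 - s1) / 2 * ((1 + s2) / 2) * (-(a01 - c)) + (1 + s1) / 2 * ((1 + s2) / 2) * (a11 - c))) =
      s1 * (ψ * 2 ^ 40 - (S - c)) + (1 - s1 ^ 2) / 2 *
        ((1 - s2) / 2 * (a00 - a10) + (1 + s2) / 2 * (a01 - a11)) := by rw [hS]; ring
    rw [e1]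
    have k1 : |s1 * (ψ * 2 ^ 40 - (S - c))| ≤ (e : ℝ) := by
      rw [abs_mul]
      calc |s1| * |ψ * 2 ^ 40 - (S - c)| ≤ 1 * e := mul_le_mul h1 m (abs_nonneg _) (by norm_num)
        _ = e := one_mul _
    have k2 : |(1 - s2) / 2 * (a00 - a10) + (1 + s2) / 2 * (a01 - a11)| ≤ d1 := by
      refine (abs_add_le _ _).trans ?_
      rw [abs_mul, abs_mul, abs_of_nonneg (by linarith : 0 ≤ (1 - s2) / 2), abs_of_nonneg (by linarith : 0 ≤ (1 + s2) / 2)]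
      exact SlC_conv s2 _ _ _ h2 d1a d1b
    have k3 : |(1 - s1 ^ 2) / 2| ≤ 1 / 2 := by
      rw [abs_le]; constructor <;> nlinarith
    calc _ ≤ |s1 * (ψ * 2 ^ 40 - (S - c))| + |(1 - s1 ^ 2) / 2 *
        ((1 - s2) / 2 * (a00 - a10) + (1 + s2) / 2 * (a01 - a11))| := abs_add_le _ _
      _ ≤ e + 1 / 2 * d1 := by
          refine add_le_add k1 ?_
          rw [abs_mul]; exact mul_le_mul k3 k2 (abs_nonneg _) (by norm_num)
      _ = e + d1 / 2 := by ring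
  · have e1 : ψ * s2 * 2 ^ 40 - ((1 - s1) / 2 * ((1 - s2) / 2) * (-(a00 - c)) + (1 + s1) / 2 * ((1 - s2) / 2) * (-(a10 - c)) +
      ((1 - s1) / 2 * ((1 + s2) / 2) * (a01 - c) + (1 + s1) / 2 * ((1 + s2) / 2) * (a11 - c))) =
      s2 * (ψ * 2 ^ 40 - (S - c)) + (1 - s2 ^ 2) / 2 *
        ((1 - s1) / 2 * (a00 - a01) + (1 + s1) / 2 * (a10 - a11)) := by rw [hS]; ring
    rw [e1]
    have k1 : |s2 * (ψ * 2 ^ 40 - (S - c))| ≤ e := by
      rw [abs_mul]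
      calc |s2| * |ψ * 2 ^ 40 - (S - c)| ≤ 1 * e := mul_le_mul h2 m (abs_nonneg _) (by norm_num)
        _ = e := one_mul _
    have k2 : |(1 - s1) / 2 * (a00 - a01) + (1 + s1) / 2 * (a10 - a11)| ≤ d2 := by
      refine (abs_add_le _ _).trans ?_
      rw [abs_mul, abs_mul, abs_of_nonneg (by linarith : 0 ≤ (1 - s1) / 2), abs_of_nonneg (by linarith : 0 ≤ (1 + s1) / 2)]
      exact SlC_conv s1 _ _ _ h1 d2a d2b
    have k3 : |(1 - s2 ^ 2) / 2| ≤ 1 / 2 := by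
      rw [abs_le]; constructor <;> nlinarith
    calc _ ≤ |s2 * (ψ * 2 ^ 40 - (S - c))| + |(1 - s2 ^ 2) / 2 *
        ((1 - s1) / 2 * (a00 - a01) + (1 + s1) / 2 * (a10 - a11))| := abs_add_le _ _
      _ ≤ e + 1 / 2 * d2 := by
          refine add_le_add k1 ?_
          rw [abs_mul]; exact mul_le_mul k3 k2 (abs_nonneg _) (by norm_num)
      _ = e + d2 / 2 := by ring

private theorem SlC_half (e d : ℕ) : (e : ℝ) + d / 2 ≤ ((Nat.add e (Nat.div (Nat.add d 16) 2) : ℕ) : ℝ) := by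
  have h : d ≤ 2 * ((d + 16) / 2) := by omega
  have h' : (d : ℝ) ≤ 2 * (((d + 16) / 2 : ℕ) : ℝ) := by exact_mod_cast h
  have e1 : (Nat.add e (Nat.div (Nat.add d 16) 2)) = e + (d + 16) / 2 := rfl
  rw [e1]
  push_cast [Nat.cast_add] at h' ⊢
  linarith

private theorem SlC_prod (F0 F1 G s : ℝ) (hF0 : 0 < F0) (hF1 : 0 < F1) (hG : 0 < G) :
    ai (F0 * G) (F1 * G) s - gi (F0 * G) (F1 * G) s = (ai F0 F1 s - gi F0 F1 s) * G := by
  rw [gi_mul _ _ _ _ _ hF0 hF1 hG hG, gi_self _ _ hG]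
  unfold ai; ring

private theorem SlC_prod' (F0 F1 G s : ℝ) (hF0 : 0 < F0) (hF1 : 0 < F1) (hG : 0 < G) :
    ai (G * F0) (G * F1) s - gi (G * F0) (G * F1) s = G * (ai F0 F1 s - gi F0 F1 s) := by
  rw [gi_mul _ _ _ _ _ hG hG hF0 hF1, gi_self _ _ hG]
  unfold ai; ring

/-- slots of the second family: product of two geometric interpolations -/
theorem slotOK_f2 (F0 F1 G0 G1 s1 s2 s3 : ℝ) (hF0 : 0 < F0) (hF1 : 0 < F1) (hG0 : 0 < G0) (hG1 : 0 < G1)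
    (h1 : |s1| ≤ 1) (h2 : |s2| ≤ 1) (h3 : |s3| ≤ 1) (v : Bool → Bool → ℕ)
    (hv : ∀ b2 b3, |(v b2 b3 : ℝ) - 2 ^ 40 * ((if b2 then F1 else F0) * (if b3 then G1 else G0))| ≤ 6)
    (t : Tab) (cl pw : ℕ) :
    SlotOK true s1 s2 s3 (mkSlF t cl pw v) (gi F0 F1 s2 * gi G0 G1 s3) := by
  have hff : |(v false false : ℝ) - 2 ^ 40 * (F0 * G0)| ≤ 6 := by simpa using hv false false
  have hft : |(v false true : ℝ) - 2 ^ 40 * (F0 * G1)| ≤ 6 := by simpa using hv false true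
  have htf : |(v true false : ℝ) - 2 ^ 40 * (F1 * G0)| ≤ 6 := by simpa using hv true false
  have htt : |(v true true : ℝ) - 2 ^ 40 * (F1 * G1)| ≤ 6 := by simpa using hv true true
  have pff : 0 < F0 * G0 := by positivity
  have pft : 0 < F0 * G1 := by positivity
  have ptf : 0 < F1 * G0 := by positivity
  have ptt : 0 < F1 * G1 := by positivity
  have pgF : 0 < gi F0 F1 s2 := gi_pos _ _ _ hF0 hF1
  have pgG : 0 < gi G0 G1 s3 := gi_pos _ _ _ hG0 hG1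
  -- the data of the slot
  set Q1 : ℕ := maxN (qf (dist (v false false) (v true false)) (minN (v false false) (v true false)))
        (qf (dist (v false true) (v true true)) (minN (v false true) (v true true))) with hQ1
  set Q2 : ℕ := maxN (qf (dist (v false false) (v false true)) (minN (v false false) (v false true)))
        (qf (dist (v true false) (v true true)) (minN (v true false) (v true true))) with hQ2
  set q : ℕ := Q1 + Q2 with hq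
  set c : ℕ := minN (q / 2) (minN (minN (v false false) (v true false)) (minN (v false true) (v true true))) with hc
  set e : ℕ := (q - c) + 8 with he
  set d1 : ℕ := maxN (dist (v false false) (v true false)) (dist (v false true) (v true true)) with hd1
  set d2 : ℕ := maxN (dist (v false false) (v false true)) (dist (v true false) (v true true)) with hd2
  have hmk : mkSlF t cl pw v = ⟨t, cl, pw, fun _ b2 b3 => Nat.sub (v b2 b3) c, e, e,
        Nat.add e (Nat.div (Nat.add d1 16) 2), Nat.add e (Nat.div (Nat.add d2 16) 2)⟩ := rfl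
  rw [hmk]
  have cq : c ≤ q / 2 := by rw [hc, minN_eq]; exact min_le_left _ _
  have cq' : 2 * c ≤ q := by omega
  have cm : c ≤ minN (minN (v false false) (v true false)) (minN (v false true) (v true true)) := by
    rw [hc, minN_eq (q / 2)]; exact min_le_right _ _
  rw [minN_eq, minN_eq, minN_eq] at cm
  have cv : ∀ b1 b2, c ≤ v b1 b2 := by
    intro b1 b2
    cases b1 <;> cases b2 <;> omega
  have sub : ∀ b1 b2, ((Nat.sub (v b1 b2) c : ℕ) : ℝ) = v b1 b2 - c := by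
    intro b1 b2
    exact Nat.cast_sub (cv b1 b2)
  have er : (q : ℝ) - c + 8 ≤ e := by
    have h3 : q + 8 ≤ e + c := by omega
    have h4 : (q : ℝ) + 8 ≤ e + c := by exact_mod_cast h3
    linarith
  have cqr : 2 * (c : ℝ) ≤ q := by exact_mod_cast cq'
  have D1a : |(v false false : ℝ) - v true false| ≤ d1 := by
    rw [SlC_dist, hd1, maxN_eq]; exact_mod_cast le_max_left _ _
  have D1b : |(v false true : ℝ) - v true true| ≤ d1 := by
    rw [SlC_dist, hd1, maxN_eq]; exact_mod_cast le_max_right _ _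
  have D2a : |(v false false : ℝ) - v false true| ≤ d2 := by
    rw [SlC_dist, hd2, maxN_eq]; exact_mod_cast le_max_left _ _
  have D2b : |(v true false : ℝ) - v true true| ≤ d2 := by
    rw [SlC_dist, hd2, maxN_eq]; exact_mod_cast le_max_right _ _
  have r1 := abs_le.1 h1
  have r2 := abs_le.1 h2
  have r3 := abs_le.1 h3
  -- interpolation
  set T : ℝ := ai F0 F1 s2 * ai G0 G1 s3 with hT
  have aF : gi F0 F1 s2 ≤ ai F0 F1 s2 := gi_le_ai _ _ _ h2 hF0 hF1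
  have aG : gi G0 G1 s3 ≤ ai G0 G1 s3 := gi_le_ai _ _ _ h3 hG0 hG1
  have I1 : gi F0 F1 s2 * gi G0 G1 s3 ≤ T := mul_le_mul aF aG pgG.le (pgF.le.trans aF)
  have u1 : 2 ^ 40 * ((ai F0 F1 s2 - gi F0 F1 s2) * G0) ≤ (Q1 : ℕ) := by
    rw [← SlC_prod _ _ _ _ hF0 hF1 hG0]
    refine (qf_ge _ _ _ _ hff htf pff ptf s2 h2).trans ?_
    rw [hQ1, maxN_eq]; exact_mod_cast le_max_left _ _
  have u2 : 2 ^ 40 * ((ai F0 F1 s2 - gi F0 F1 s2) * G1) ≤ (Q1 : ℕ) := by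
    rw [← SlC_prod _ _ _ _ hF0 hF1 hG1]
    refine (qf_ge _ _ _ _ hft htt pft ptt s2 h2).trans ?_
    rw [hQ1, maxN_eq]; exact_mod_cast le_max_right _ _
  have u3 : 2 ^ 40 * (F0 * (ai G0 G1 s3 - gi G0 G1 s3)) ≤ (Q2 : ℕ) := by
    rw [← SlC_prod' _ _ _ _ hG0 hG1 hF0]
    refine (qf_ge _ _ _ _ hff hft pff pft s3 h3).trans ?_
    rw [hQ2, maxN_eq]; exact_mod_cast le_max_left _ _
  have u4 : 2 ^ 40 * (F1 * (ai G0 G1 s3 - gi G0 G1 s3)) ≤ (Q2 : ℕ) := by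
    rw [← SlC_prod' _ _ _ _ hG0 hG1 hF1]
    refine (qf_ge _ _ _ _ htf htt ptf ptt s3 h3).trans ?_
    rw [hQ2, maxN_eq]; exact_mod_cast le_max_right _ _
  have I2 : 2 ^ 40 * (T - gi F0 F1 s2 * gi G0 G1 s3) ≤ (q : ℕ) := by
    have e1 : 2 ^ 40 * (T - gi F0 F1 s2 * gi G0 G1 s3) =
        ((1 - s3) / 2 * (2 ^ 40 * ((ai F0 F1 s2 - gi F0 F1 s2) * G0)) +
          (1 + s3) / 2 * (2 ^ 40 * ((ai F0 F1 s2 - gi F0 F1 s2) * G1))) +
        2 ^ 40 * (gi F0 F1 s2 * (ai G0 G1 s3 - gi G0 G1 s3)) := by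
      rw [hT]
      have : ai G0 G1 s3 = (1 - s3) / 2 * G0 + (1 + s3) / 2 * G1 := rfl
      rw [this]; ring
    rw [e1, hq, Nat.cast_add]
    refine add_le_add (SlC_conv s3 _ _ _ h3 u1 u2) ?_
    have dG : 0 ≤ ai G0 G1 s3 - gi G0 G1 s3 := by linarith
    have e2 : 2 ^ 40 * (gi F0 F1 s2 * (ai G0 G1 s3 - gi G0 G1 s3)) ≤
        2 ^ 40 * (max F0 F1 * (ai G0 G1 s3 - gi G0 G1 s3)) :=
      mul_le_mul_of_nonneg_left (mul_le_mul_of_nonneg_right (gi_le_max _ _ _ h2 hF0 hF1) dG) (by norm_num)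
    refine e2.trans ?_
    rcases max_cases F0 F1 with h | h <;> rw [h.1]
    · exact u3
    · exact u4
  have wn : ∀ b, 0 ≤ w1 s2 b := by intro b; cases b <;> simp [w1] <;> linarith
  have wn' : ∀ b, 0 ≤ w1 s3 b := by intro b; cases b <;> simp [w1] <;> linarith
  set S : ℝ := (1 - s2) / 2 * ((1 - s3) / 2) * v false false + (1 + s2) / 2 * ((1 - s3) / 2) * v true false +
      ((1 - s2) / 2 * ((1 + s3) / 2) * v false true + (1 + s2) / 2 * ((1 + s3) / 2) * v true true) with hS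
  have hSS : |S - 2 ^ 40 * T| ≤ 6 := by
    have e1 : S - 2 ^ 40 * T = ∑ b2 : Bool, ∑ b3 : Bool, w1 s2 b2 * w1 s3 b3 *
        ((v b2 b3 : ℝ) - 2 ^ 40 * ((if b2 then F1 else F0) * (if b3 then G1 else G0))) := by
      rw [hS, hT]
      simp only [Fintype.sum_bool, w1, ai]
      simp
      ring
    rw [e1]
    calc _ ≤ ∑ b1 : Bool, ∑ b2 : Bool, w1 s2 b1 * w1 s3 b2 * 6 := by
          refine (Finset.abs_sum_le_sum_abs _ _).trans (Finset.sum_le_sum fun b1 _ => ?_)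
          refine (Finset.abs_sum_le_sum_abs _ _).trans (Finset.sum_le_sum fun b2 _ => ?_)
          rw [abs_mul, abs_of_nonneg (mul_nonneg (wn b1) (wn' b2))]
          exact mul_le_mul_of_nonneg_left (hv b1 b2) (mul_nonneg (wn b1) (wn' b2))
      _ = 6 := by simp only [Fintype.sum_bool, w1]; simp; ring
  rw [abs_le] at hSS
  set ψ := gi F0 F1 s2 * gi G0 G1 s3 with hψ
  obtain ⟨R0, R1, R2⟩ := SlC_real s2 s3 q c e d1 d2 (v false false) (v true false) (v false true) (v true true) ψ S h2 h3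
    hS (by linarith) (by linarith) cqr er D1a D1b D2a D2b
  intro k hk
  have hk' : k < 4 := hk
  interval_cases k
  · have e1 : ψ * sig s1 s2 s3 0 * 2 ^ 40 - vs s1 s2 s3 (fun b1 b2 b3 =>
        ((Nat.sub (v b2 b3) c : ℕ) : ℝ) * (sv b1 b2 b3 0 : ℝ)) = ψ * 2 ^ 40 - (S - c) := by
      rw [hS]
      simp only [vs, wt, sub, Fintype.sum_bool, w1, sig, sv]
      simp
      ring
    have e2 : slE ⟨t, cl, pw, fun _ b2 b3 => Nat.sub (v b2 b3) c, e, e,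
        Nat.add e (Nat.div (Nat.add d1 16) 2), Nat.add e (Nat.div (Nat.add d2 16) 2)⟩ 0 = e := rfl
    rw [e2]
    refine le_trans (le_of_eq ?_) R0
    rw [← e1]
  · have e1 : ψ * sig s1 s2 s3 1 * 2 ^ 40 - vs s1 s2 s3 (fun b1 b2 b3 =>
        ((Nat.sub (v b2 b3) c : ℕ) : ℝ) * (sv b1 b2 b3 1 : ℝ)) = s1 * (ψ * 2 ^ 40 - (S - c)) := by
      rw [hS]
      simp only [vs, wt, sub, Fintype.sum_bool, w1, sig, sv]
      simp
      ring
    have e2 : slE ⟨t, cl, pw, fun _ b2 b3 => Nat.sub (v b2 b3) c, e, e,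
        Nat.add e (Nat.div (Nat.add d1 16) 2), Nat.add e (Nat.div (Nat.add d2 16) 2)⟩ 1 = e := rfl
    rw [e2]
    have k1 : |s1 * (ψ * 2 ^ 40 - (S - c))| ≤ (e : ℝ) := by
      rw [abs_mul]
      calc |s1| * |ψ * 2 ^ 40 - (S - c)| ≤ 1 * (e : ℝ) := mul_le_mul h1 R0 (abs_nonneg _) (by norm_num)
        _ = e := one_mul _
    refine le_trans (le_of_eq ?_) k1
    rw [← e1]
  · have e1 : ψ * sig s1 s2 s3 2 * 2 ^ 40 - vs s1 s2 s3 (fun b1 b2 b3 =>
        ((Nat.sub (v b2 b3) c : ℕ) : ℝ) * (sv b1 b2 b3 2 : ℝ)) =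
        ψ * s2 * 2 ^ 40 - ((1 - s2) / 2 * ((1 - s3) / 2) * (-((v false false : ℝ) - c)) + (1 + s2) / 2 * ((1 - s3) / 2) * ((v true false : ℝ) - c) +
      ((1 - s2) / 2 * ((1 + s3) / 2) * (-((v false true : ℝ) - c)) + (1 + s2) / 2 * ((1 + s3) / 2) * ((v true true : ℝ) - c))) := by
      simp only [vs, wt, sub, Fintype.sum_bool, w1, sig, sv]
      simp
      ring
    have e2 : slE ⟨t, cl, pw, fun _ b2 b3 => Nat.sub (v b2 b3) c, e, e,
        Nat.add e (Nat.div (Nat.add d1 16) 2), Nat.add e (Nat.div (Nat.add d2 16) 2)⟩ 2 =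
        Nat.add e (Nat.div (Nat.add d1 16) 2) := rfl
    rw [e2]
    refine le_trans (le_of_eq ?_) (R1.trans (SlC_half e d1))
    rw [← e1]
  · have e1 : ψ * sig s1 s2 s3 3 * 2 ^ 40 - vs s1 s2 s3 (fun b1 b2 b3 =>
        ((Nat.sub (v b2 b3) c : ℕ) : ℝ) * (sv b1 b2 b3 3 : ℝ)) =
        ψ * s3 * 2 ^ 40 - ((1 - s2) / 2 * ((1 - s3) / 2) * (-((v false false : ℝ) - c)) + (1 + s2) / 2 * ((1 - s3) / 2) * (-((v true false : ℝ) - c)) +
      ((1 - s2) / 2 * ((1 + s3) / 2) * ((v false true : ℝ) - c) + (1 + s2) / 2 * ((1 + s3) / 2) * ((v true true : ℝ) - c))) := by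
      simp only [vs, wt, sub, Fintype.sum_bool, w1, sig, sv]
      simp
      ring
    have e2 : slE ⟨t, cl, pw, fun _ b2 b3 => Nat.sub (v b2 b3) c, e, e,
        Nat.add e (Nat.div (Nat.add d1 16) 2), Nat.add e (Nat.div (Nat.add d2 16) 2)⟩ 3 =
        Nat.add e (Nat.div (Nat.add d2 16) 2) := rfl
    rw [e2]
    refine le_trans (le_of_eq ?_) (R2.trans (SlC_half e d2))
    rw [← e1]

/-- from slots to constants -/
theorem cslot_of_slot (cx : Bool) (s1 s2 s3 : ℝ) (s : Slot) (ψ : ℝ) (h : SlotOK cx s1 s2 s3 s ψ) :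
    CSlotOK cx s1 s2 s3 ⟨s, fun b1 b2 b3 => Nat.add (s.ph b1 b2 b3) 2199023255552, fun _ _ _ => 2199023255552⟩ ψ := by
  refine ⟨fun _ _ _ _ => rfl, fun k hk => ?_⟩
  have h' := h k hk
  have e : (ψ : ℂ) * (sig s1 s2 s3 k : ℂ) * 2 ^ 40 - vsC s1 s2 s3 (fun b1 b2 b3 =>
      (⟨((Nat.add (s.ph b1 b2 b3) 2199023255552 : ℕ) : ℝ) - 2199023255552, ((2199023255552 : ℕ) : ℝ) - 2199023255552⟩ : ℂ) *
        (sv b1 b2 b3 k : ℂ)) =
      ((ψ * sig s1 s2 s3 k * 2 ^ 40 - vs s1 s2 s3 (fun b1 b2 b3 => (s.ph b1 b2 b3 : ℝ) * (sv b1 b2 b3 k : ℝ)) : ℝ) : ℂ) := by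
    have e0 : ∀ b1 b2 b3, (⟨((Nat.add (s.ph b1 b2 b3) 2199023255552 : ℕ) : ℝ) - 2199023255552,
        ((2199023255552 : ℕ) : ℝ) - 2199023255552⟩ : ℂ) = ((s.ph b1 b2 b3 : ℝ) : ℂ) := by
      intro b1 b2 b3
      apply Complex.ext
      · show ((Nat.add (s.ph b1 b2 b3) 2199023255552 : ℕ) : ℝ) - 2199023255552 = ((s.ph b1 b2 b3 : ℝ) : ℂ).re
        rw [Complex.ofReal_re]
        show ((s.ph b1 b2 b3 + 2199023255552 : ℕ) : ℝ) - 2199023255552 = _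
        push_cast; ring
      · show ((2199023255552 : ℕ) : ℝ) - 2199023255552 = ((s.ph b1 b2 b3 : ℝ) : ℂ).im
        rw [Complex.ofReal_im]; norm_num
    simp only [e0]
    unfold vsC vs
    push_cast
    rfl
  rw [e, Complex.norm_real]
  exact h'

end Pool.Agent.MaxTerm59b
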