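import Pool.Agent.MaxTerm59b.GiB

/-! Interpolation errors of the slots. -/

namespace Pool.Agent.MaxTerm59b
open Finset

private lemma SlD_cos (s u : ℝ) (hs : 0 ≤ s) (hs1 : s ≤ 1) (hu : 0 ≤ u) :
    |Real.cos (s * u) - Real.cos u| ≤ (1 - s ^ 2) * u ^ 2 / 2 := by
  have h1 : Real.cos (s * u) - Real.cos u =
      -2 * Real.sin ((s * u + u) / 2) * Real.sin ((s * u - u) / 2) := by
    rw [Real.cos_sub_cos]
  have h2 : |Real.sin ((s * u + u) / 2)| ≤ (s * u + u) / 2 := by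
    refine (Real.abs_sin_le_abs).trans (le_of_eq ?_)
    rw [abs_of_nonneg (by positivity)]
  have h3 : |Real.sin ((s * u - u) / 2)| ≤ (u - s * u) / 2 := by
    refine (Real.abs_sin_le_abs).trans (le_of_eq ?_)
    rw [abs_of_nonpos (by nlinarith)]
    ring
  rw [h1, abs_mul, abs_mul, abs_neg, abs_two]
  have h4 := mul_le_mul h2 h3 (abs_nonneg _) (by positivity)
  calc 2 * |Real.sin ((s * u + u) / 2)| * |Real.sin ((s * u - u) / 2)|
      = 2 * (|Real.sin ((s * u + u) / 2)| * |Real.sin ((s * u - u) / 2)|) := by ring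
    _ ≤ 2 * ((s * u + u) / 2 * ((u - s * u) / 2)) := by linarith
    _ = (1 - s ^ 2) * u ^ 2 / 2 := by ring

private lemma SlD_sin (s u : ℝ) (hs : 0 ≤ s) (hs1 : s ≤ 1) (hu : 0 ≤ u) :
    |Real.sin (s * u) - s * Real.sin u| ≤ s * u ^ 3 / 6 := by
  have hsu : 0 ≤ s * u := mul_nonneg hs hu
  have h1 := Real.sin_le hsu
  have h2 := Real.sin_ge_sub_cube hsu
  have h3 := mul_le_mul_of_nonneg_left (Real.sin_le hu) hs
  have h4 := mul_le_mul_of_nonneg_left (Real.sin_ge_sub_cube hu) hs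
  have h5 : (s * u) ^ 3 ≤ s * u ^ 3 := by
    have : s ^ 3 ≤ s := by
      have := pow_le_pow_of_le_one hs hs1 (show 1 ≤ 3 by norm_num)
      simpa using this
    have := mul_le_mul_of_nonneg_right this (pow_nonneg hu 3)
    calc (s * u) ^ 3 = s ^ 3 * u ^ 3 := by ring
      _ ≤ s * u ^ 3 := this
  rw [abs_le]
  constructor <;> linarith

private lemma SlD_norm (s u : ℝ) (hs : 0 ≤ s) (hs1 : s ≤ 1) (hu : 0 ≤ u) :
    (Real.cos (s * u) - Real.cos u) ^ 2 + (Real.sin (s * u) - s * Real.sin u) ^ 2 ≤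
      (u ^ 2 / 2) ^ 2 := by
  rcases le_total 2 u with h2 | h2
  · have e1 := Real.cos_sq_add_sin_sq (s * u)
    have e2 := Real.cos_sq_add_sin_sq u
    have hs2 : s ^ 2 ≤ 1 := by nlinarith
    have e3 : (s * Real.sin u) ^ 2 ≤ Real.sin u ^ 2 := by
      have := mul_le_mul_of_nonneg_right hs2 (sq_nonneg (Real.sin u))
      calc (s * Real.sin u) ^ 2 = s ^ 2 * Real.sin u ^ 2 := by ring
        _ ≤ 1 * Real.sin u ^ 2 := this
        _ = Real.sin u ^ 2 := one_mul _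
    have e4 : (Real.cos (s * u) - Real.cos u) ^ 2 + (Real.sin (s * u) - s * Real.sin u) ^ 2 ≤ 4 := by
      nlinarith [sq_nonneg (Real.cos (s * u) + Real.cos u),
        sq_nonneg (Real.sin (s * u) + s * Real.sin u)]
    have e5 : 2 ≤ u ^ 2 / 2 := by nlinarith
    have e6 : (2 : ℝ) ^ 2 ≤ (u ^ 2 / 2) ^ 2 := pow_le_pow_left₀ (by norm_num) e5 2
    linarith
  · have h1 := SlD_cos s u hs hs1 hu
    have h3 := SlD_sin s u hs hs1 hu
    have hs2 : s ^ 2 ≤ 1 := by nlinarith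
    have a1 : (Real.cos (s * u) - Real.cos u) ^ 2 ≤ ((1 - s ^ 2) * u ^ 2 / 2) ^ 2 := by
      rw [← sq_abs]
      exact pow_le_pow_left₀ (abs_nonneg _) h1 2
    have a2 : (Real.sin (s * u) - s * Real.sin u) ^ 2 ≤ (s * u ^ 3 / 6) ^ 2 := by
      rw [← sq_abs]
      exact pow_le_pow_left₀ (abs_nonneg _) h3 2
    have hu2 : u ^ 2 ≤ 4 := by nlinarith
    have key : 0 ≤ s ^ 2 * (2 - s ^ 2 - u ^ 2 / 9) := mul_nonneg (sq_nonneg s) (by linarith)
    have key2 : 0 ≤ u ^ 4 / 4 * (s ^ 2 * (2 - s ^ 2 - u ^ 2 / 9)) :=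
      mul_nonneg (by positivity) key
    nlinarith [key2]

/-- the error of the chord of the circle, squared -/
private lemma SlD_norm' (s u : ℝ) (hs : |s| ≤ 1) :
    (Real.cos (s * u) - Real.cos u) ^ 2 + (Real.sin (s * u) - s * Real.sin u) ^ 2 ≤
      (u ^ 2 / 2) ^ 2 := by
  have h := SlD_norm |s| |u| (abs_nonneg _) hs (abs_nonneg _)
  rw [Real.cos_abs, sq_abs] at h
  have h1 : Real.cos (|s| * |u|) = Real.cos (s * u) := by rw [← abs_mul, Real.cos_abs]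
  rw [h1] at h
  have h2 : (Real.sin (|s| * |u|) - |s| * Real.sin |u|) ^ 2 =
      (Real.sin (s * u) - s * Real.sin u) ^ 2 := by
    rcases abs_cases s with ⟨e1, _⟩ | ⟨e1, _⟩ <;> rcases abs_cases u with ⟨e2, _⟩ | ⟨e2, _⟩ <;>
      rw [e1, e2]
    · rw [mul_neg, Real.sin_neg, Real.sin_neg]
      ring
    · rw [neg_mul, Real.sin_neg]
      ring
    · rw [neg_mul_neg, Real.sin_neg]
      ring
  rw [h2] at h
  exact h

private lemma SlD_floor (a b : ℕ) (hb : 0 < b) :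
    |((Nat.div a b : ℕ) : ℝ) - (a : ℝ) / b| ≤ 1 := by
  have hb' : (0 : ℝ) < b := by exact_mod_cast hb
  have h0 : Nat.div a b = a / b := rfl
  rw [h0]
  have h1 : ((a / b : ℕ) : ℝ) ≤ (a : ℝ) / b := Nat.cast_div_le
  have h2 : (a : ℝ) / b < ((a / b : ℕ) : ℝ) + 1 := by
    rw [div_lt_iff₀ hb']
    have := Nat.lt_div_mul_add (a := a) hb
    have h3 : a < (a / b + 1) * b := by
      rw [add_mul, one_mul]
      exact this
    exact_mod_cast h3
  rw [abs_le]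
  constructor <;> linarith

/-- chord of the unit circle: `θ = ai θ0 θ1 s`, `u = |θ1 - θ0|/2 ≤ π/2`, `τ ≥ tan u ≥ u, sin u` -/
theorem circ0 (θ0 θ1 s τ : ℝ) (hs : |s| ≤ 1) (hτ : |θ1 - θ0| / 2 ≤ τ) :
    ‖Complex.exp (ai θ0 θ1 s * Complex.I) -
      ((1 - s) / 2 * Complex.exp (θ0 * Complex.I) + (1 + s) / 2 * Complex.exp (θ1 * Complex.I))‖ ≤ τ ^ 2 / 2 := by
  set m : ℝ := (θ0 + θ1) / 2 with hm
  set u : ℝ := (θ1 - θ0) / 2 with hu
  have hai : (ai θ0 θ1 s : ℝ) = m + s * u := by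
    rw [ai, hm, hu]
    ring
  have h0 : θ0 = m - u := by rw [hm, hu]; ring
  have h1 : θ1 = m + u := by rw [hm, hu]; ring
  have hexp : ∀ x : ℝ, Complex.exp (((m + x : ℝ) : ℂ) * Complex.I) =
      Complex.exp ((m : ℂ) * Complex.I) * ⟨Real.cos x, Real.sin x⟩ := by
    intro x
    rw [Complex.ofReal_add, add_mul, Complex.exp_add]
    congr 1
    rw [Complex.exp_mul_I]
    apply Complex.ext
    · simp [← Complex.ofReal_cos, ← Complex.ofReal_sin]
    · simp [← Complex.ofReal_cos, ← Complex.ofReal_sin]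
  have e0 : Complex.exp ((θ0 : ℂ) * Complex.I) =
      Complex.exp ((m : ℂ) * Complex.I) * ⟨Real.cos u, -Real.sin u⟩ := by
    have := hexp (-u)
    rw [Real.cos_neg, Real.sin_neg] at this
    rw [← this, h0]
    congr 2
  have e1 : Complex.exp ((θ1 : ℂ) * Complex.I) =
      Complex.exp ((m : ℂ) * Complex.I) * ⟨Real.cos u, Real.sin u⟩ := by
    rw [← hexp u, ← h1]
  have key : Complex.exp (ai θ0 θ1 s * Complex.I) -
      ((1 - s) / 2 * Complex.exp (θ0 * Complex.I) + (1 + s) / 2 * Complex.exp (θ1 * Complex.I)) =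
      Complex.exp ((m : ℂ) * Complex.I) *
        ⟨Real.cos (s * u) - Real.cos u, Real.sin (s * u) - s * Real.sin u⟩ := by
    rw [e0, e1, hai, hexp (s * u)]
    have : (⟨Real.cos (s * u) - Real.cos u, Real.sin (s * u) - s * Real.sin u⟩ : ℂ) =
        ⟨Real.cos (s * u), Real.sin (s * u)⟩ - ((1 - s) / 2 * ⟨Real.cos u, -Real.sin u⟩ +
          (1 + s) / 2 * ⟨Real.cos u, Real.sin u⟩) := by
      apply Complex.ext
      · simp
        ring
      · simp
        ring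
    rw [this]
    ring
  rw [key, norm_mul, Complex.norm_exp_ofReal_mul_I, one_mul]
  have h2 := SlD_norm' s u hs
  have h3 : |u| ≤ τ := by
    rw [hu, abs_div, abs_two]
    exact hτ
  have h4 : u ^ 2 ≤ τ ^ 2 := by
    rw [← sq_abs]
    exact pow_le_pow_left₀ (abs_nonneg _) h3 2
  have h5 : ‖(⟨Real.cos (s * u) - Real.cos u, Real.sin (s * u) - s * Real.sin u⟩ : ℂ)‖ ≤
      u ^ 2 / 2 := by
    rw [Complex.norm_def]
    refine Real.sqrt_le_iff.2 ⟨by positivity, ?_⟩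
    rw [Complex.normSq_mk]
    nlinarith [h2]
  linarith

theorem circ1 (θ0 θ1 τ : ℝ) (hτ : |θ1 - θ0| / 2 ≤ τ) :
    ‖Complex.exp (θ1 * Complex.I) - Complex.exp (θ0 * Complex.I)‖ ≤ 2 * τ := by
  have h1 : Complex.exp (θ1 * Complex.I) - Complex.exp (θ0 * Complex.I) =
      Complex.exp (θ0 * Complex.I) * (Complex.exp (Complex.I * ((θ1 - θ0 : ℝ) : ℂ)) - 1) := by
    rw [mul_sub, mul_one, ← Complex.exp_add]
    congr 2
    push_cast
    ring
  rw [h1, norm_mul, Complex.norm_exp_ofReal_mul_I, one_mul]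
  have h2 := Real.norm_exp_I_mul_ofReal_sub_one_le (x := θ1 - θ0)
  rw [Real.norm_eq_abs] at h2
  linarith

theorem cosU_close (u : ℕ) (hu : u ≤ 80) : |(cosU u : ℝ) - 2 ^ 40 * Real.cos (2 * Real.arctan (u / 128))| ≤ 1 := by
  have hu2 : u * u ≤ 6400 := by nlinarith
  have h1 : Real.cos (2 * Real.arctan (u / 128)) =
      (16384 - (u : ℝ) * u) / (16384 + (u : ℝ) * u) := by
    rw [Real.cos_two_mul, Real.cos_sq_arctan]
    field_simp
    ring
  have h2 := SlD_floor (1099511627776 * (16384 - u * u)) (16384 + u * u) (by omega)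
  have h3 : (((1099511627776 * (16384 - u * u) : ℕ) : ℝ)) / ((16384 + u * u : ℕ) : ℝ) =
      2 ^ 40 * Real.cos (2 * Real.arctan (u / 128)) := by
    rw [h1, Nat.cast_mul, Nat.cast_sub (by omega)]
    push_cast
    ring
  rw [h3] at h2
  exact h2

theorem sinU_close (u : ℕ) (hu : u ≤ 80) : |(sinU u : ℝ) - 2 ^ 40 * Real.sin (2 * Real.arctan (u / 128))| ≤ 1 := by
  have h1 : Real.sin (2 * Real.arctan (u / 128)) =
      (256 * (u : ℝ)) / (16384 + (u : ℝ) * u) := by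
    rw [Real.sin_two_mul, Real.sin_arctan, Real.cos_arctan]
    have h0 : (0 : ℝ) < 1 + ((u : ℝ) / 128) ^ 2 := by positivity
    have hsq : √(1 + ((u : ℝ) / 128) ^ 2) * √(1 + ((u : ℝ) / 128) ^ 2) = 1 + ((u : ℝ) / 128) ^ 2 :=
      Real.mul_self_sqrt h0.le
    have hpos : 0 < √(1 + ((u : ℝ) / 128) ^ 2) := Real.sqrt_pos.2 h0
    calc 2 * ((u : ℝ) / 128 / √(1 + ((u : ℝ) / 128) ^ 2)) * (1 / √(1 + ((u : ℝ) / 128) ^ 2))
        = 2 * ((u : ℝ) / 128) / (√(1 + ((u : ℝ) / 128) ^ 2) * √(1 + ((u : ℝ) / 128) ^ 2)) := by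
          field_simp
      _ = 2 * ((u : ℝ) / 128) / (1 + ((u : ℝ) / 128) ^ 2) := by rw [hsq]
      _ = _ := by
          field_simp
          ring
  have h2 := SlD_floor (1099511627776 * (256 * u)) (16384 + u * u) (by omega)
  have h3 : (((1099511627776 * (256 * u) : ℕ) : ℝ)) / ((16384 + u * u : ℕ) : ℝ) =
      2 ^ 40 * Real.sin (2 * Real.arctan (u / 128)) := by
    rw [h1]
    push_cast
    ring
  rw [h3] at h2
  exact h2

/-- angle of a cell -/
noncomputable def thU (u : ℕ) : ℝ := Real.pi - 2 * Real.arctan (u / 128)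

theorem tauF_ge (L : LF2) (h : L.U0 ≤ L.U1) (h2 : L.U1 ≤ 80) :
    |thU L.U1 - thU L.U0| / 2 ≤ (tauF L : ℝ) / 2 ^ 40 := by
  have hx0 : (0 : ℝ) ≤ (L.U0 : ℝ) / 128 := by positivity
  have hle : (L.U0 : ℝ) / 128 ≤ (L.U1 : ℝ) / 128 := by
    have : (L.U0 : ℝ) ≤ L.U1 := by exact_mod_cast h
    linarith
  have hmono : Real.arctan ((L.U0 : ℝ) / 128) ≤ Real.arctan ((L.U1 : ℝ) / 128) :=
    Real.arctan_mono hle
  have h1 : |thU L.U1 - thU L.U0| / 2 =
      Real.arctan ((L.U1 : ℝ) / 128) - Real.arctan ((L.U0 : ℝ) / 128) := by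
    rw [thU, thU, abs_of_nonpos (by linarith)]
    ring
  have h3 : Real.arctan ((L.U1 : ℝ) / 128) - Real.arctan ((L.U0 : ℝ) / 128) =
      Real.arctan (((L.U1 : ℝ) / 128 - (L.U0 : ℝ) / 128) /
        (1 + (L.U1 : ℝ) / 128 * ((L.U0 : ℝ) / 128))) := by
    have hlt : (L.U1 : ℝ) / 128 * (-((L.U0 : ℝ) / 128)) < 1 := by
      have : 0 ≤ (L.U1 : ℝ) / 128 * ((L.U0 : ℝ) / 128) := mul_nonneg (hx0.trans hle) hx0
      linarith
    have := Real.arctan_add hlt
    rw [Real.arctan_neg] at this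
    rw [sub_eq_add_neg, this]
    congr 1
    ring
  have h4 : ((L.U1 : ℝ) / 128 - (L.U0 : ℝ) / 128) / (1 + (L.U1 : ℝ) / 128 * ((L.U0 : ℝ) / 128)) =
      (128 * ((L.U1 : ℝ) - L.U0)) / (16384 + (L.U0 : ℝ) * L.U1) := by
    have hp : (0 : ℝ) < 1 + (L.U1 : ℝ) / 128 * ((L.U0 : ℝ) / 128) := by
      have : 0 ≤ (L.U1 : ℝ) / 128 * ((L.U0 : ℝ) / 128) := mul_nonneg (hx0.trans hle) hx0
      linarith
    have hq : (0 : ℝ) < 16384 + (L.U0 : ℝ) * L.U1 := by positivity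
    rw [div_eq_div_iff hp.ne' hq.ne']
    ring
  have h5 : 0 ≤ (128 * ((L.U1 : ℝ) - L.U0)) / (16384 + (L.U0 : ℝ) * L.U1) := by
    have : (L.U0 : ℝ) ≤ L.U1 := by exact_mod_cast h
    exact div_nonneg (by linarith) (by positivity)
  have harc : ∀ x : ℝ, 0 ≤ x → Real.arctan x ≤ x := by
    intro x hx
    have := Real.le_tan (Real.arctan_nonneg.2 hx) (Real.arctan_lt_pi_div_two x)
    rwa [Real.tan_arctan] at this
  have h6 := SlD_floor (1099511627776 * (128 * (L.U1 - L.U0))) (16384 + L.U0 * L.U1) (by omega)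
  have h7 : (((1099511627776 * (128 * (L.U1 - L.U0)) : ℕ) : ℝ)) / ((16384 + L.U0 * L.U1 : ℕ) : ℝ) =
      2 ^ 40 * ((128 * ((L.U1 : ℝ) - L.U0)) / (16384 + (L.U0 : ℝ) * L.U1)) := by
    rw [Nat.cast_mul, Nat.cast_mul, Nat.cast_sub h]
    push_cast
    ring
  rw [h7] at h6
  have h8 : (tauF L : ℝ) = ((Nat.div (1099511627776 * (128 * (L.U1 - L.U0)))
      (16384 + L.U0 * L.U1) : ℕ) : ℝ) + 1 := by
    rw [← Nat.cast_succ]
    rfl
  rw [h1, h3, h4, h8, le_div_iff₀ (by positivity)]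
  have h9 := harc _ h5
  have h10 := (abs_le.1 h6).1
  nlinarith [h9, h10]

end Pool.Agent.MaxTerm59b
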