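import Pool.Agent.MaxTerm59b.SlC
import Pool.Agent.MaxTerm59b.SlD

/-! Interpolation errors of the slots. -/

namespace Pool.Agent.MaxTerm59b
open Finset

private theorem SlE_vsC_close (s1 s2 s3 δ : ℝ) (h1 : |s1| ≤ 1) (h2 : |s2| ≤ 1) (h3 : |s3| ≤ 1)
    (f g : Bool → Bool → Bool → ℂ) (h : ∀ b1 b2 b3, ‖f b1 b2 b3 - g b1 b2 b3‖ ≤ δ) :
    ‖vsC s1 s2 s3 f - vsC s1 s2 s3 g‖ ≤ δ := by
  have e : vsC s1 s2 s3 f - vsC s1 s2 s3 g =
      ∑ b1 : Bool, ∑ b2 : Bool, ∑ b3 : Bool, (wt s1 s2 s3 b1 b2 b3 : ℂ) * (f b1 b2 b3 - g b1 b2 b3) := by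
    unfold vsC
    rw [← Finset.sum_sub_distrib]
    refine Finset.sum_congr rfl fun b1 _ => ?_
    rw [← Finset.sum_sub_distrib]
    refine Finset.sum_congr rfl fun b2 _ => ?_
    rw [← Finset.sum_sub_distrib]
    refine Finset.sum_congr rfl fun b3 _ => ?_
    ring
  rw [e]
  have h1' : ‖∑ b1 : Bool, ∑ b2 : Bool, ∑ b3 : Bool, (wt s1 s2 s3 b1 b2 b3 : ℂ) * (f b1 b2 b3 - g b1 b2 b3)‖ ≤
      ∑ b1 : Bool, ∑ b2 : Bool, ∑ b3 : Bool, wt s1 s2 s3 b1 b2 b3 * δ := by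
    refine (norm_sum_le _ _).trans (Finset.sum_le_sum fun b1 _ => ?_)
    refine (norm_sum_le _ _).trans (Finset.sum_le_sum fun b2 _ => ?_)
    refine (norm_sum_le _ _).trans (Finset.sum_le_sum fun b3 _ => ?_)
    rw [norm_mul, Complex.norm_real, Real.norm_of_nonneg (wt_nonneg s1 s2 s3 h1 h2 h3 b1 b2 b3)]
    exact mul_le_mul_of_nonneg_left (h b1 b2 b3) (wt_nonneg s1 s2 s3 h1 h2 h3 b1 b2 b3)
  refine h1'.trans (le_of_eq ?_)
  have h2' := vs_one s1 s2 s3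
  unfold vs at h2'
  simp only [mul_one] at h2'
  calc _ = (∑ b1 : Bool, ∑ b2 : Bool, ∑ b3 : Bool, wt s1 s2 s3 b1 b2 b3) * δ := by
        simp only [Finset.sum_mul]
    _ = δ := by rw [h2', one_mul]

/-- rounding of a product -/
private theorem SlE_round (p c : ℕ) (x : ℝ) (hp : p ≤ 2 ^ 40 + 6) (hc : |(c : ℝ) - 2 ^ 40 * x| ≤ 1) :
    |(((p * c) >>> 40 : ℕ) : ℝ) - p * x| ≤ 21 / 10 := by
  rw [Nat.shiftRight_eq_div_pow]
  have h1 : (p * c) / 2 ^ 40 * 2 ^ 40 ≤ p * c := Nat.div_mul_le_self _ _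
  have h2 : p * c < ((p * c) / 2 ^ 40 + 1) * 2 ^ 40 := by
    have := Nat.lt_mul_div_succ (p * c) (by norm_num : 0 < 2 ^ 40)
    rw [mul_comm (2 ^ 40)] at this; exact this
  have h1' : ((p * c / 2 ^ 40 : ℕ) : ℝ) * 2 ^ 40 ≤ p * c := by exact_mod_cast h1
  have h2' : (p : ℝ) * c < (((p * c / 2 ^ 40 : ℕ) : ℝ) + 1) * 2 ^ 40 := by exact_mod_cast h2
  have hp' : (p : ℝ) ≤ 2 ^ 40 + 6 := by exact_mod_cast hp
  have hp0 : (0 : ℝ) ≤ p := Nat.cast_nonneg _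
  generalize ((p * c / 2 ^ 40 : ℕ) : ℝ) = y at *
  rw [abs_le] at hc ⊢
  have h3 : (p : ℝ) * c ≤ p * (2 ^ 40 * x + 1) := mul_le_mul_of_nonneg_left (by linarith) hp0
  have h4 : (p : ℝ) * (2 ^ 40 * x - 1) ≤ p * c := mul_le_mul_of_nonneg_left (by linarith) hp0
  constructor
  · have : (p : ℝ) * x * 2 ^ 40 ≤ (y + 21 / 10) * 2 ^ 40 := by
      calc (p : ℝ) * x * 2 ^ 40 = p * (2 ^ 40 * x - 1) + p := by ring
        _ ≤ (y + 1) * 2 ^ 40 + (2 ^ 40 + 6) := by linarith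
        _ ≤ (y + 21 / 10) * 2 ^ 40 := by norm_num; linarith
    have := le_of_mul_le_mul_right this (by norm_num)
    linarith
  · have : y * 2 ^ 40 ≤ ((p : ℝ) * x + 21 / 10) * 2 ^ 40 := by
      calc y * 2 ^ 40 ≤ p * (2 ^ 40 * x + 1) := by linarith
        _ = (p : ℝ) * x * 2 ^ 40 + p := by ring
        _ ≤ ((p : ℝ) * x + 21 / 10) * 2 ^ 40 := by linarith
    have := le_of_mul_le_mul_right this (by norm_num)
    linarith

private theorem SlE_norm (z : ℂ) (a b : ℝ) (ha : |z.re| ≤ a) (hb : |z.im| ≤ b) : ‖z‖ ≤ a + b :=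
  (Complex.norm_le_abs_re_add_abs_im z).trans (add_le_add ha hb)

private theorem SlE_exp (u : ℕ) : Complex.exp (thU u * Complex.I) =
    ⟨-Real.cos (2 * Real.arctan (u / 128)), Real.sin (2 * Real.arctan (u / 128))⟩ := by
  rw [Complex.exp_mul_I]
  apply Complex.ext
  · simp only [Complex.add_re, Complex.mul_re, Complex.I_re, Complex.I_im, mul_zero, mul_one, zero_sub]
    rw [← Complex.ofReal_cos, ← Complex.ofReal_sin, Complex.ofReal_re, Complex.ofReal_im]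
    unfold thU
    rw [Real.cos_pi_sub]; ring
  · simp only [Complex.add_im, Complex.mul_im, Complex.I_re, Complex.I_im, mul_zero, mul_one]
    rw [← Complex.ofReal_cos, ← Complex.ofReal_sin, Complex.ofReal_re, Complex.ofReal_im]
    unfold thU
    rw [Real.sin_pi_sub]; ring

private theorem SlE_cosU_le (u : ℕ) : cosU u ≤ 2 ^ 40 := by
  have h : cosU u = (2 ^ 40 * (16384 - u * u)) / (16384 + u * u) := rfl
  rw [h]
  apply Nat.div_le_of_le_mul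
  calc 2 ^ 40 * (16384 - u * u) ≤ 2 ^ 40 * (16384 + u * u) := Nat.mul_le_mul_left _ (by omega)
    _ = (16384 + u * u) * 2 ^ 40 := by ring

/-- shifts -/
private theorem SlE_shift (a n : ℕ) (x : ℝ) (h : x ≤ (a : ℝ) / 2 ^ n) : x + 7 ≤ ((Nat.add 8 (a >>> n) : ℕ) : ℝ) := by
  have h2 : a < (a / 2 ^ n + 1) * 2 ^ n := by
    have := Nat.lt_mul_div_succ a (by positivity : 0 < 2 ^ n)
    rw [mul_comm]; exact this
  have h2' : (a : ℝ) < (((a / 2 ^ n : ℕ) : ℝ) + 1) * 2 ^ n := by exact_mod_cast h2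
  have h3 : (a : ℝ) / 2 ^ n < ((a / 2 ^ n : ℕ) : ℝ) + 1 := by
    rw [div_lt_iff₀ (by positivity)]; exact h2'
  have e : (Nat.add 8 (a >>> n) : ℕ) = 8 + a / 2 ^ n := by
    rw [Nat.shiftRight_eq_div_pow]; rfl
  rw [e, Nat.cast_add]
  norm_num
  have h3' : (a : ℝ) / 2 ^ n < ((a / 2 ^ n : ℕ) : ℝ) + 1 := h3
  linarith

private theorem SlE_fin (A S X Y : ℝ) (h1 : A ≤ S + X) (h2 : X + 7 ≤ Y) : A + 5 ≤ S + Y := by linarith

/-- constants with the phase -/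
theorem cslotP_ok (L : LF2) (hU : L.U0 ≤ L.U1) (hU1 : L.U1 ≤ 80) (F0 F1 G0 G1 s1 s2 s3 : ℝ) (hF0 : 0 < F0)
    (hF1 : 0 < F1) (hG0 : 0 < G0) (hG1 : 0 < G1) (hF0' : F0 ≤ 1) (hF1' : F1 ≤ 1) (hG0' : G0 ≤ 1) (hG1' : G1 ≤ 1)
    (h1 : |s1| ≤ 1) (h2 : |s2| ≤ 1) (h3 : |s3| ≤ 1) (v : Bool → Bool → ℕ)
    (hv : ∀ b2 b3, |(v b2 b3 : ℝ) - 2 ^ 40 * ((if b2 then F1 else F0) * (if b3 then G1 else G0))| ≤ 6)
    (t : Tab) (cl pw : ℕ) :
    CSlotOK true s1 s2 s3 (cstP L t cl pw v)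
      (((gi F0 F1 s2 * gi G0 G1 s3 : ℝ) : ℂ) * Complex.exp (ai (thU L.U0) (thU L.U1) s1 * Complex.I)) := by
  have hso := slotOK_f2 F0 F1 G0 G1 s1 s2 s3 hF0 hF1 hG0 hG1 h1 h2 h3 v hv t cl pw
  set φ : ℝ := gi F0 F1 s2 * gi G0 G1 s3 with hφ
  set s := mkSlF t cl pw v with hs
  set p : Bool → Bool → ℕ := s.ph false with hp
  have hph : ∀ b1 b2 b3, s.ph b1 b2 b3 = p b2 b3 := fun _ _ _ => rfl
  have hpv : ∀ b2 b3, p b2 b3 ≤ v b2 b3 := fun b2 b3 => Nat.sub_le _ _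
  -- bounds of the values
  have hmx : ∀ b2 b3, v b2 b3 ≤ mx4 v := by
    intro b2 b3
    unfold mx4
    rw [maxN_eq, maxN_eq, maxN_eq]
    cases b2 <;> cases b3 <;> omega
  have hV1 : ∀ b2 b3 : Bool, (if b2 then F1 else F0) * (if b3 then G1 else G0) ≤ 1 := by
    intro b2 b3
    have a1 : (if b2 then F1 else F0) ≤ 1 := by split_ifs <;> assumption
    have a2 : (if b3 then G1 else G0) ≤ 1 := by split_ifs <;> assumption
    have a3 : 0 ≤ (if b3 then G1 else G0) := by split_ifs <;> positivity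
    calc _ ≤ 1 * (1 : ℝ) := mul_le_mul a1 a2 a3 (by norm_num)
      _ = 1 := one_mul _
  have hv1 : ∀ b2 b3, v b2 b3 ≤ 2 ^ 40 + 6 := by
    intro b2 b3
    have a1 := (abs_le.1 (hv b2 b3)).2
    have a2 := hV1 b2 b3
    have a3 : (v b2 b3 : ℝ) ≤ 2 ^ 40 + 6 := by linarith
    exact_mod_cast a3
  have hp1 : ∀ b2 b3, p b2 b3 ≤ 2 ^ 40 + 6 := fun b2 b3 => (hpv b2 b3).trans (hv1 b2 b3)
  have hφ0 : 0 < φ := mul_pos (gi_pos _ _ _ hF0 hF1) (gi_pos _ _ _ hG0 hG1)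
  have hφm : 2 ^ 40 * φ ≤ (mx4 v : ℝ) + 8 := by
    have a1 : φ ≤ max F0 F1 * max G0 G1 :=
      mul_le_mul (gi_le_max _ _ _ h2 hF0 hF1) (gi_le_max _ _ _ h3 hG0 hG1) (gi_pos _ _ _ hG0 hG1).le
        (le_max_of_le_left hF0.le)
    have b00 := (abs_le.1 (hv false false)).1
    have b01 := (abs_le.1 (hv false true)).1
    have b10 := (abs_le.1 (hv true false)).1
    have b11 := (abs_le.1 (hv true true)).1
    have m00 : (v false false : ℝ) ≤ mx4 v := by exact_mod_cast hmx false false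
    have m01 : (v false true : ℝ) ≤ mx4 v := by exact_mod_cast hmx false true
    have m10 : (v true false : ℝ) ≤ mx4 v := by exact_mod_cast hmx true false
    have m11 : (v true true : ℝ) ≤ mx4 v := by exact_mod_cast hmx true true
    simp only [if_true, if_false, Bool.false_eq_true] at b00 b01 b10 b11
    rcases max_cases F0 F1 with h | h <;> rcases max_cases G0 G1 with h' | h' <;> rw [h.1, h'.1] at a1 <;> linarith
  -- the circle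
  set τ : ℝ := (tauF L : ℝ) / 2 ^ 40 with hτ
  have hτ' : |thU L.U1 - thU L.U0| / 2 ≤ τ := tauF_ge L hU hU1
  have hτ0 : 0 ≤ τ := le_trans (by positivity) hτ'
  set E : Bool → ℂ := fun b => Complex.exp (thU (cond b L.U1 L.U0) * Complex.I) with hE
  set w : ℂ := Complex.exp (ai (thU L.U0) (thU L.U1) s1 * Complex.I) with hw
  have hc0 : ‖w - ((1 - s1) / 2 * E false + (1 + s1) / 2 * E true)‖ ≤ τ ^ 2 / 2 := by
    have := circ0 (thU L.U0) (thU L.U1) s1 τ h1 hτ'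
    simpa [hE, hw] using this
  have hc1 : ‖E true - E false‖ ≤ 2 * τ := circ1 (thU L.U0) (thU L.U1) τ hτ'
  have hEn : ∀ b, ‖E b‖ = 1 := fun b => Complex.norm_exp_ofReal_mul_I _
  have r1 := abs_le.1 h1
  have r2 := abs_le.1 h2
  have r3 := abs_le.1 h3
  set C : ℂ := (1 - s1) / 2 * E false + (1 + s1) / 2 * E true with hC
  have hCn : ‖C‖ ≤ 1 := by
    have e1 : C = (((1 - s1) / 2 : ℝ) : ℂ) * E false + (((1 + s1) / 2 : ℝ) : ℂ) * E true := by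
      rw [hC]; push_cast; ring
    rw [e1]
    refine (norm_add_le _ _).trans ?_
    rw [norm_mul, norm_mul, Complex.norm_real, Complex.norm_real, hEn, hEn,
      Real.norm_of_nonneg (by linarith : 0 ≤ (1 - s1) / 2), Real.norm_of_nonneg (by linarith : 0 ≤ (1 + s1) / 2)]
    linarith
  -- the data of the slot
  set x : ℕ := Nat.add 8 (Nat.shiftRight (Nat.mul (Nat.add (mx4 v) 8) (Nat.pow (tauF L) 2)) 81) with hx
  set y : ℕ := Nat.add 8 (Nat.shiftRight (Nat.mul (Nat.add (mx4 v) 8) (tauF L)) 40) with hy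
  have hcs : cstP L t cl pw v = ⟨⟨s.t, s.cl, s.pw, s.ph, Nat.add s.e0 x, Nat.add s.e1 (Nat.add x y), Nat.add s.e2 x,
      Nat.add s.e3 x⟩,
    fun b1 b2 b3 => Nat.sub 2199023255552 (Nat.shiftRight (Nat.mul (s.ph b1 b2 b3) (cosU (cond b1 L.U1 L.U0))) 40),
    fun b1 b2 b3 => Nat.add 2199023255552 (Nat.shiftRight (Nat.mul (s.ph b1 b2 b3) (sinU (cond b1 L.U1 L.U0))) 40)⟩ := rfl
  rw [hcs]
  have hxr : φ * 2 ^ 40 * (τ ^ 2 / 2) + 7 ≤ (x : ℝ) := by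
    refine SlE_shift _ 81 _ ?_
    have e1 : ((Nat.mul (Nat.add (mx4 v) 8) (Nat.pow (tauF L) 2) : ℕ) : ℝ) = ((mx4 v : ℝ) + 8) * (tauF L : ℝ) ^ 2 := by
      show (((mx4 v + 8) * tauF L ^ 2 : ℕ) : ℝ) = _
      push_cast; ring
    rw [e1]
    have e2 : ((mx4 v : ℝ) + 8) * (tauF L : ℝ) ^ 2 / 2 ^ 81 = ((mx4 v : ℝ) + 8) * (τ ^ 2 / 2) := by
      rw [hτ]; ring
    rw [e2]
    exact mul_le_mul_of_nonneg_right (by linarith) (by positivity)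
  have hyr : ((mx4 v : ℝ) + 8) * τ + 7 ≤ (y : ℝ) := by
    refine SlE_shift _ 40 _ ?_
    have e1 : ((Nat.mul (Nat.add (mx4 v) 8) (tauF L) : ℕ) : ℝ) = ((mx4 v : ℝ) + 8) * (tauF L : ℝ) := by
      show (((mx4 v + 8) * tauF L : ℕ) : ℝ) = _
      push_cast; ring
    rw [e1, hτ]
    apply le_of_eq; ring
  -- closeness of the phases
  have hU' : ∀ b : Bool, cond b L.U1 L.U0 ≤ 80 := by intro b; cases b <;> simp <;> omega
  have close : ∀ b1 b2 b3, ‖(⟨((Nat.sub 2199023255552 (Nat.shiftRight (Nat.mul (s.ph b1 b2 b3)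
      (cosU (cond b1 L.U1 L.U0))) 40) : ℕ) : ℝ) - 2199023255552, ((Nat.add 2199023255552 (Nat.shiftRight
        (Nat.mul (s.ph b1 b2 b3) (sinU (cond b1 L.U1 L.U0))) 40) : ℕ) : ℝ) - 2199023255552⟩ : ℂ) -
      (p b2 b3 : ℂ) * E b1‖ ≤ 5 := by
    intro b1 b2 b3
    rw [hph]
    have k1 := SlE_round (p b2 b3) (cosU (cond b1 L.U1 L.U0)) _ (hp1 b2 b3) (cosU_close _ (hU' b1))
    have k2 := SlE_round (p b2 b3) (sinU (cond b1 L.U1 L.U0)) _ (hp1 b2 b3) (sinU_close _ (hU' b1))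
    have k3 : (p b2 b3 * cosU (cond b1 L.U1 L.U0)) >>> 40 ≤ 2199023255552 := by
      rw [Nat.shiftRight_eq_div_pow]
      apply Nat.div_le_of_le_mul
      calc p b2 b3 * cosU (cond b1 L.U1 L.U0) ≤ (2 ^ 40 + 6) * 2 ^ 40 := Nat.mul_le_mul (hp1 b2 b3) (SlE_cosU_le _)
        _ ≤ _ := by norm_num
    have k4 : ((Nat.sub 2199023255552 (Nat.shiftRight (Nat.mul (p b2 b3) (cosU (cond b1 L.U1 L.U0))) 40) : ℕ) : ℝ) =
        2199023255552 - (((p b2 b3 * cosU (cond b1 L.U1 L.U0)) >>> 40 : ℕ) : ℝ) := by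
      have := Nat.cast_sub (R := ℝ) k3
      rw [show ((2199023255552 : ℕ) : ℝ) = 2199023255552 by norm_num] at this
      exact this
    have k5 : ((Nat.add 2199023255552 (Nat.shiftRight (Nat.mul (p b2 b3) (sinU (cond b1 L.U1 L.U0))) 40) : ℕ) : ℝ) =
        2199023255552 + (((p b2 b3 * sinU (cond b1 L.U1 L.U0)) >>> 40 : ℕ) : ℝ) := by
      have := Nat.cast_add (R := ℝ) 2199023255552 ((p b2 b3 * sinU (cond b1 L.U1 L.U0)) >>> 40)
      rw [show ((2199023255552 : ℕ) : ℝ) = 2199023255552 by norm_num] at this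
      exact this
    rw [k4, k5, hE]
    simp only []
    rw [SlE_exp]
    have n1 : (5 : ℝ) ≥ 21 / 10 + 21 / 10 := by norm_num
    refine le_trans (SlE_norm _ (21 / 10) (21 / 10) ?_ ?_) n1
    · refine le_trans (le_of_eq ?_) k1
      rw [← abs_neg]
      congr 1
      simp only [Complex.sub_re, Complex.mul_re, Complex.natCast_re, Complex.natCast_im]
      ring
    · refine le_trans (le_of_eq ?_) k2
      congr 1
      simp only [Complex.sub_im, Complex.mul_im, Complex.natCast_re, Complex.natCast_im]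
      ring
  have wn : ∀ b, 0 ≤ w1 s2 b := by intro b; cases b <;> simp [w1] <;> linarith
  have wn' : ∀ b, 0 ≤ w1 s3 b := by intro b; cases b <;> simp [w1] <;> linarith
  -- a slot function with the sign `k`
  have svn : ∀ b1 b2 b3 k, ‖(sv b1 b2 b3 k : ℂ)‖ ≤ 1 := by
    intro b1 b2 b3 k
    unfold sv
    split_ifs <;> simp
  have gen : ∀ k, ‖vsC s1 s2 s3 (fun b1 b2 b3 => (⟨((Nat.sub 2199023255552 (Nat.shiftRight (Nat.mul (s.ph b1 b2 b3)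
      (cosU (cond b1 L.U1 L.U0))) 40) : ℕ) : ℝ) - 2199023255552, ((Nat.add 2199023255552 (Nat.shiftRight
        (Nat.mul (s.ph b1 b2 b3) (sinU (cond b1 L.U1 L.U0))) 40) : ℕ) : ℝ) - 2199023255552⟩ : ℂ) * (sv b1 b2 b3 k : ℂ)) -
      vsC s1 s2 s3 (fun b1 b2 b3 => (p b2 b3 : ℂ) * E b1 * (sv b1 b2 b3 k : ℂ))‖ ≤ 5 := by
    intro k
    apply SlE_vsC_close s1 s2 s3 5 h1 h2 h3
    intro b1 b2 b3
    rw [← sub_mul, norm_mul]
    calc _ ≤ 5 * (1 : ℝ) := mul_le_mul (close b1 b2 b3) (svn b1 b2 b3 k) (norm_nonneg _) (by norm_num)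
      _ = 5 := mul_one _
  -- the chord
  have mainE : ∀ k, ∀ e : ℝ, |φ * sig s1 s2 s3 k * 2 ^ 40 -
      vs s1 s2 s3 (fun b1 b2 b3 => (s.ph b1 b2 b3 : ℝ) * (sv b1 b2 b3 k : ℝ))| ≤ e → |sig s1 s2 s3 k| ≤ 1 →
      ‖(φ : ℂ) * w * (sig s1 s2 s3 k : ℂ) * 2 ^ 40 -
        C * ((vs s1 s2 s3 (fun b1 b2 b3 => (s.ph b1 b2 b3 : ℝ) * (sv b1 b2 b3 k : ℝ)) : ℝ) : ℂ)‖ ≤
      e + φ * 2 ^ 40 * (τ ^ 2 / 2) := by
    intro k e he hk
    set P := vs s1 s2 s3 (fun b1 b2 b3 => (s.ph b1 b2 b3 : ℝ) * (sv b1 b2 b3 k : ℝ)) with hP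
    have e1 : (φ : ℂ) * w * (sig s1 s2 s3 k : ℂ) * 2 ^ 40 - C * (P : ℂ) =
        ((φ * 2 ^ 40 : ℝ) : ℂ) * (sig s1 s2 s3 k : ℂ) * (w - C) +
          C * ((φ * sig s1 s2 s3 k * 2 ^ 40 - P : ℝ) : ℂ) := by push_cast; ring
    rw [e1]
    refine (norm_add_le _ _).trans ?_
    rw [norm_mul, norm_mul, norm_mul, Complex.norm_real, Complex.norm_real, Complex.norm_real,
      Real.norm_of_nonneg (by positivity : 0 ≤ φ * 2 ^ 40), Real.norm_eq_abs, Real.norm_eq_abs]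
    have a1 : φ * 2 ^ 40 * |sig s1 s2 s3 k| * ‖w - C‖ ≤ φ * 2 ^ 40 * (τ ^ 2 / 2) := by
      calc φ * 2 ^ 40 * |sig s1 s2 s3 k| * ‖w - C‖ ≤ φ * 2 ^ 40 * 1 * (τ ^ 2 / 2) :=
            mul_le_mul (mul_le_mul_of_nonneg_left hk (by positivity)) hc0 (norm_nonneg _) (by positivity)
        _ = _ := by ring
    have a2 : ‖C‖ * |φ * sig s1 s2 s3 k * 2 ^ 40 - P| ≤ e := by
      calc _ ≤ 1 * e := mul_le_mul hCn he (abs_nonneg _) (by norm_num)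
        _ = e := one_mul _
    clear_value τ x y C w E P φ
    rw [add_comm e]
    exact add_le_add a1 a2
  refine ⟨fun h => absurd h (by decide), fun k hk => ?_⟩
  have hk' : k < 4 := hk
  have hso' := hso k hk
  have g := gen k
  interval_cases k
  · have e1 : vsC s1 s2 s3 (fun b1 b2 b3 => (p b2 b3 : ℂ) * E b1 * (sv b1 b2 b3 0 : ℂ)) =
        C * ((vs s1 s2 s3 (fun b1 b2 b3 => (s.ph b1 b2 b3 : ℝ) * (sv b1 b2 b3 0 : ℝ)) : ℝ) : ℂ) := by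
      simp only [hph, hC, vs, vsC, wt, Fintype.sum_bool, w1, sv]
      simp
      ring
    have m := mainE 0 _ hso' (by simp [sig])
    rw [← e1] at m
    have e2 : ((slE s 0 : ℕ) : ℝ) + x = ((s.e0 + x : ℕ) : ℝ) := by push_cast; rfl
    calc _ ≤ ‖(φ : ℂ) * w * (sig s1 s2 s3 0 : ℂ) * 2 ^ 40 - vsC s1 s2 s3 (fun b1 b2 b3 => (p b2 b3 : ℂ) * E b1 * (sv b1 b2 b3 0 : ℂ))‖ + 5 := by
          rw [← sub_add_sub_cancel _ (vsC s1 s2 s3 (fun b1 b2 b3 => (p b2 b3 : ℂ) * E b1 * (sv b1 b2 b3 0 : ℂ))) _]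
          refine (norm_add_le _ _).trans (add_le_add le_rfl ?_)
          rw [norm_sub_rev]; exact g
      _ ≤ (slE s 0 : ℝ) + x := SlE_fin _ _ _ _ m hxr
      _ = _ := e2
  · have e1 : vsC s1 s2 s3 (fun b1 b2 b3 => (p b2 b3 : ℂ) * E b1 * (sv b1 b2 b3 1 : ℂ)) =
        C * ((vs s1 s2 s3 (fun b1 b2 b3 => (s.ph b1 b2 b3 : ℝ) * (sv b1 b2 b3 1 : ℝ)) : ℝ) : ℂ) +
        (1 - s1 ^ 2) / 2 * (E true - E false) *
          ((∑ b2 : Bool, ∑ b3 : Bool, w1 s2 b2 * w1 s3 b3 * (p b2 b3 : ℝ) : ℝ) : ℂ) := by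
      simp only [hph, hC, vs, vsC, wt, Fintype.sum_bool, w1, sv]
      simp
      ring
    have m := mainE 1 _ hso' (by simpa [sig] using h1)
    have n0 : 0 ≤ ∑ b2 : Bool, ∑ b3 : Bool, w1 s2 b2 * w1 s3 b3 * (p b2 b3 : ℝ) :=
      Finset.sum_nonneg fun b2 _ => Finset.sum_nonneg fun b3 _ =>
        mul_nonneg (mul_nonneg (wn b2) (wn' b3)) (Nat.cast_nonneg _)
    have n1 : ∑ b2 : Bool, ∑ b3 : Bool, w1 s2 b2 * w1 s3 b3 * (p b2 b3 : ℝ) ≤ mx4 v := by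
      calc _ ≤ ∑ b2 : Bool, ∑ b3 : Bool, w1 s2 b2 * w1 s3 b3 * (mx4 v : ℝ) := by
            refine Finset.sum_le_sum fun b2 _ => Finset.sum_le_sum fun b3 _ => ?_
            refine mul_le_mul_of_nonneg_left ?_ (mul_nonneg (wn b2) (wn' b3))
            exact_mod_cast (hpv b2 b3).trans (hmx b2 b3)
        _ = mx4 v := by simp only [Fintype.sum_bool, w1]; simp; ring
    have n2 : ‖((1 : ℂ) - s1 ^ 2) / 2 * (E true - E false) *
          ((∑ b2 : Bool, ∑ b3 : Bool, w1 s2 b2 * w1 s3 b3 * (p b2 b3 : ℝ) : ℝ) : ℂ)‖ ≤ ((mx4 v : ℝ) + 8) * τ := by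
      rw [norm_mul, norm_mul, Complex.norm_real, Real.norm_of_nonneg n0]
      have e3 : ((1 : ℂ) - s1 ^ 2) / 2 = (((1 - s1 ^ 2) / 2 : ℝ) : ℂ) := by push_cast; ring
      have e4 : ‖((1 : ℂ) - s1 ^ 2) / 2‖ ≤ 1 / 2 := by
        rw [e3, Complex.norm_real, Real.norm_eq_abs, abs_le]; constructor <;> nlinarith
      calc _ ≤ 1 / 2 * (2 * τ) * (mx4 v : ℝ) :=
            mul_le_mul (mul_le_mul e4 hc1 (norm_nonneg _) (by norm_num)) n1 n0 (by positivity)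
        _ ≤ ((mx4 v : ℝ) + 8) * τ := by nlinarith
    have e2 : ((slE s 1 : ℕ) : ℝ) + (x + y) = ((s.e1 + (x + y) : ℕ) : ℝ) := by push_cast; rfl
    calc _ ≤ ‖(φ : ℂ) * w * (sig s1 s2 s3 1 : ℂ) * 2 ^ 40 - vsC s1 s2 s3 (fun b1 b2 b3 => (p b2 b3 : ℂ) * E b1 * (sv b1 b2 b3 1 : ℂ))‖ + 5 := by
          rw [← sub_add_sub_cancel _ (vsC s1 s2 s3 (fun b1 b2 b3 => (p b2 b3 : ℂ) * E b1 * (sv b1 b2 b3 1 : ℂ))) _]
          refine (norm_add_le _ _).trans (add_le_add le_rfl ?_)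
          rw [norm_sub_rev]; exact g
      _ ≤ (slE s 1 : ℝ) + (x + y) := by
          rw [e1, ← sub_sub]
          have := norm_sub_le ((φ : ℂ) * w * (sig s1 s2 s3 1 : ℂ) * 2 ^ 40 -
            C * ((vs s1 s2 s3 (fun b1 b2 b3 => (s.ph b1 b2 b3 : ℝ) * (sv b1 b2 b3 1 : ℝ)) : ℝ) : ℂ))
            (((1 : ℂ) - s1 ^ 2) / 2 * (E true - E false) *
              ((∑ b2 : Bool, ∑ b3 : Bool, w1 s2 b2 * w1 s3 b3 * (p b2 b3 : ℝ) : ℝ) : ℂ))
          linarith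
      _ = _ := e2
  · have e1 : vsC s1 s2 s3 (fun b1 b2 b3 => (p b2 b3 : ℂ) * E b1 * (sv b1 b2 b3 2 : ℂ)) =
        C * ((vs s1 s2 s3 (fun b1 b2 b3 => (s.ph b1 b2 b3 : ℝ) * (sv b1 b2 b3 2 : ℝ)) : ℝ) : ℂ) := by
      simp only [hph, hC, vs, vsC, wt, Fintype.sum_bool, w1, sv]
      simp
      ring
    have m := mainE 2 _ hso' (by simpa [sig] using h2)
    rw [← e1] at m
    have e2 : ((slE s 2 : ℕ) : ℝ) + x = ((s.e2 + x : ℕ) : ℝ) := by push_cast; rfl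
    calc _ ≤ ‖(φ : ℂ) * w * (sig s1 s2 s3 2 : ℂ) * 2 ^ 40 - vsC s1 s2 s3 (fun b1 b2 b3 => (p b2 b3 : ℂ) * E b1 * (sv b1 b2 b3 2 : ℂ))‖ + 5 := by
          rw [← sub_add_sub_cancel _ (vsC s1 s2 s3 (fun b1 b2 b3 => (p b2 b3 : ℂ) * E b1 * (sv b1 b2 b3 2 : ℂ))) _]
          refine (norm_add_le _ _).trans (add_le_add le_rfl ?_)
          rw [norm_sub_rev]; exact g
      _ ≤ (slE s 2 : ℝ) + x := SlE_fin _ _ _ _ m hxr
      _ = _ := e2
  · have e1 : vsC s1 s2 s3 (fun b1 b2 b3 => (p b2 b3 : ℂ) * E b1 * (sv b1 b2 b3 3 : ℂ)) =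
        C * ((vs s1 s2 s3 (fun b1 b2 b3 => (s.ph b1 b2 b3 : ℝ) * (sv b1 b2 b3 3 : ℝ)) : ℝ) : ℂ) := by
      simp only [hph, hC, vs, vsC, wt, Fintype.sum_bool, w1, sv]
      simp
      ring
    have m := mainE 3 _ hso' (by simpa [sig] using h3)
    rw [← e1] at m
    have e2 : ((slE s 3 : ℕ) : ℝ) + x = ((s.e3 + x : ℕ) : ℝ) := by push_cast; rfl
    calc _ ≤ ‖(φ : ℂ) * w * (sig s1 s2 s3 3 : ℂ) * 2 ^ 40 - vsC s1 s2 s3 (fun b1 b2 b3 => (p b2 b3 : ℂ) * E b1 * (sv b1 b2 b3 3 : ℂ))‖ + 5 := by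
          rw [← sub_add_sub_cancel _ (vsC s1 s2 s3 (fun b1 b2 b3 => (p b2 b3 : ℂ) * E b1 * (sv b1 b2 b3 3 : ℂ))) _]
          refine (norm_add_le _ _).trans (add_le_add le_rfl ?_)
          rw [norm_sub_rev]; exact g
      _ ≤ (slE s 3 : ℝ) + x := SlE_fin _ _ _ _ m hxr
      _ = _ := e2

end Pool.Agent.MaxTerm59b
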