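import Pool.Agent.MaxTerm59b.F2Def
import Pool.Agent.MaxTerm59b.PwS
import Pool.Agent.MaxTerm59b.SlC
import Pool.Agent.MaxTerm59b.SlE

/-! Extremal matched vertex with a generic right neighbour: values of the slots. -/

namespace Pool.Agent.MaxTerm59b
open Finset Pool.Agent.MaxTerm58

/-- the facts of `okTF` (and `D0.a > 0`) -/
theorem GoodF.facts {L : LF2} (H : GoodF L) :
    (rootF L.q0.a L.q0.b = true ∧ rootF L.q0.b L.q0.c = true ∧ rootF L.q1.a L.q1.b = true ∧ rootF L.q1.b L.q1.c = true) ∧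
    (rootF L.l0.a L.l0.b = true ∧ rootF L.l0.b L.l0.c = true ∧ rootF L.l1.a L.l1.b = true ∧ rootF L.l1.b L.l1.c = true) ∧
    (rootC L.D0.a L.D0.b = true ∧ rootC L.D0.b L.D0.c = true ∧ rootC L.D1.a L.D1.b = true ∧ rootC L.D1.b L.D1.c = true) ∧
    (L.D0.b ≤ 2 ^ 50 ∧ L.D0.c ≤ 2 ^ 50 ∧ L.D1.b ≤ 2 ^ 50 ∧ L.D1.c ≤ 2 ^ 50) ∧
    okDF L.Q0 L.D0.a = true ∧ okDF L.Q1 L.D1.a = true ∧ L.D0.a ≤ L.D1.a ∧ L.Q0 ≤ L.Q1 ∧ L.L0 ≤ L.L1 ∧
    L.D1.a < 2 ^ 50 ∧ L.U0 ≤ L.U1 ∧ L.U1 ≤ 80 ∧ L.L1 ≤ 60000 ∧ 100 * (L.Q1 * L.L1) ^ 2 ≤ 46 * 2 ^ 64 ∧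
    L.Q1 < 65536 ∧ 0 < L.D0.a := by
  have h := H.ok
  unfold okTF at h
  simp only [Bool.and_eq_true, Nat.ble_eq, Nat.blt_eq] at h
  obtain ⟨⟨⟨⟨a1, a2⟩, ⟨a3, a4⟩⟩, ⟨⟨a5, a6⟩, ⟨a7, a8⟩⟩⟩, ⟨⟨⟨c1, c2⟩, ⟨c3, c4⟩⟩, ⟨⟨⟨d1, d2⟩, ⟨d3, d4⟩⟩,
    ⟨⟨e1, e2⟩, ⟨f1, ⟨⟨f2, f3⟩, ⟨f4, ⟨⟨f5, f6⟩, ⟨f7, f8⟩⟩⟩⟩⟩⟩⟩⟩⟩ := h
  have g4 : L.D1.a < 2 ^ 50 := by simpa using f4
  have x1 : L.Q1 * 17179869184 + 11258999069 ≤ L.D1.a := by
    unfold okDF at e2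
    rw [Nat.ble_eq] at e2
    exact e2
  have x0 : L.Q0 * 17179869184 + 11258999069 ≤ L.D0.a := by
    unfold okDF at e1
    rw [Nat.ble_eq] at e1
    exact e1
  refine ⟨⟨a1, a2, a3, a4⟩, ⟨a5, a6, a7, a8⟩, ⟨c1, c2, c3, c4⟩, ⟨by simpa using d1, by simpa using d2,
    by simpa using d3, by simpa using d4⟩, e1, e2, f1, f2, f3, g4, f5, f6, f7, ?_, ?_, ?_⟩
  · have f8' : 100 * (L.Q1 * L.L1) ^ 2 ≤ 46 * 18446744073709551616 := f8
    exact f8'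
  · by_contra hc
    push Not at hc
    have : (2 : ℕ) ^ 50 = 65536 * 17179869184 := by norm_num
    omega
  · omega

theorem szF_pos {L : LF2} (m : ℕ) (b : Bool) : 0 < szF L m b := by
  unfold szF one40
  rcases hb : Nat.beq m 0 with _ | _
  · rw [cond_false]
    positivity
  · rw [cond_true]
    positivity

theorem szF_zero {L : LF2} (b : Bool) : szF L 0 b = 1 := by
  unfold szF one40
  norm_num

/-- Hint: `powr_ceil`. -/
theorem szF_ge {L : LF2} (H : GoodF L) (m : ℕ) (b : Bool) :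
    (((if b then L.D1.a else L.D0.a : ℕ) : ℝ) / 2 ^ 50) ^ ((m : ℝ) / 256) ≤ szF L m b := by
  obtain ⟨-, -, ⟨a5, a6, a7, a8⟩, ⟨d1, d2, d3, d4⟩, -, -, c1, -, -, c3, -, -, -, -, -, e1⟩ := H.facts
  unfold szF one40
  rcases Nat.eq_zero_or_pos m with hm | hm
  · subst hm
    simp
    norm_num
  · have hb : Nat.beq m 0 = false := by
      rcases m with _ | k
      · omega
      · rfl
    rw [hb, cond_false, le_div_iff₀ (by positivity), mul_comm]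
    cases b
    · simpa using (powr_ceil L.D0 a5 a6 d1 d2 (lt_of_le_of_lt c1 c3) e1 m).1
    · simpa using (powr_ceil L.D1 a7 a8 d3 d4 c3 (lt_of_lt_of_le e1 c1) m).1

private theorem F2C_szF_le {L : LF2} (H : GoodF L) (m : ℕ) (b : Bool) : szF L m b * 2 ^ 40 ≤ 2 ^ 40 + 1 := by
  obtain ⟨-, -, ⟨a5, a6, a7, a8⟩, ⟨d1, d2, d3, d4⟩, -, -, c1, -, -, c3, -, -, -, -, -, e1⟩ := H.facts
  unfold szF one40
  rw [div_mul_cancel₀ _ (by positivity)]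
  rcases hb : Nat.beq m 0 with _ | _
  · rw [cond_false]
    have h1 : powr (cond b L.D1 L.D0) m ≤ 2 ^ 40 := by
      cases b
      · exact (powr_ceil L.D0 a5 a6 d1 d2 (lt_of_le_of_lt c1 c3) e1 m).2
      · exact (powr_ceil L.D1 a7 a8 d3 d4 c3 (lt_of_lt_of_le e1 c1) m).2
    have h2 : (powr (cond b L.D1 L.D0) m : ℝ) ≤ 2 ^ 40 := by exact_mod_cast h1
    push_cast
    linarith
  · rw [cond_true]
    norm_num

theorem psD_ge {L : LF2} (H : GoodF L) (s2 : ℝ) (h2 : |s2| ≤ 1) (m : ℕ) : DtF L s2 ^ ((m : ℝ) / 256) ≤ psD L m s2 := by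
  obtain ⟨-, -, -, -, -, -, c1, -, -, c3, -, -, -, -, -, e1⟩ := H.facts
  have p0 : 0 < (L.D0.a : ℝ) / 2 ^ 50 := by
    have : (0 : ℝ) < L.D0.a := by exact_mod_cast e1
    positivity
  have p1 : 0 < (L.D1.a : ℝ) / 2 ^ 50 := by
    have : (0 : ℝ) < L.D1.a := by exact_mod_cast lt_of_lt_of_le e1 c1
    positivity
  unfold DtF psD
  rw [← gi_rpow _ _ _ _ p0 p1]
  refine gi_mono _ _ _ _ s2 h2 (Real.rpow_pos_of_pos p0 _) (Real.rpow_pos_of_pos p1 _) ?_ ?_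
  · simpa using szF_ge H m false
  · simpa using szF_ge H m true

theorem psD_pos {L : LF2} (m : ℕ) (s2 : ℝ) : 0 < psD L m s2 :=
  gi_pos _ _ _ (szF_pos _ _) (szF_pos _ _)

theorem psD_zero {L : LF2} (s2 : ℝ) : psD L 0 s2 = 1 := by
  unfold psD
  rw [szF_zero, szF_zero, gi_self _ _ one_pos]

/-- superadditivity of the geometric interpolation -/
private theorem F2C_gi_add (A0 A1 B0 B1 s : ℝ) (hs : |s| ≤ 1) (h0 : 0 < A0) (h1 : 0 < A1) (h2 : 0 < B0) (h3 : 0 < B1) :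
    gi A0 A1 s + gi B0 B1 s ≤ gi (A0 + B0) (A1 + B1) s := by
  have hG : 0 < gi (A0 + B0) (A1 + B1) s := gi_pos _ _ _ (by positivity) (by positivity)
  have e1 : gi A0 A1 s = gi (A0 + B0) (A1 + B1) s * gi (A0 / (A0 + B0)) (A1 / (A1 + B1)) s := by
    rw [← gi_mul _ _ _ _ s (by positivity) (by positivity) (by positivity) (by positivity)]
    congr 1 <;> field_simp
  have e2 : gi B0 B1 s = gi (A0 + B0) (A1 + B1) s * gi (B0 / (A0 + B0)) (B1 / (A1 + B1)) s := by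
    rw [← gi_mul _ _ _ _ s (by positivity) (by positivity) (by positivity) (by positivity)]
    congr 1 <;> field_simp
  have f1 := gi_le_ai (A0 / (A0 + B0)) (A1 / (A1 + B1)) s hs (by positivity) (by positivity)
  have f2 := gi_le_ai (B0 / (A0 + B0)) (B1 / (A1 + B1)) s hs (by positivity) (by positivity)
  have f3 : ai (A0 / (A0 + B0)) (A1 / (A1 + B1)) s + ai (B0 / (A0 + B0)) (B1 / (A1 + B1)) s = 1 := by
    unfold ai
    field_simp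
    ring
  rw [e1, e2, ← mul_add]
  calc gi (A0 + B0) (A1 + B1) s * (gi (A0 / (A0 + B0)) (A1 / (A1 + B1)) s + gi (B0 / (A0 + B0)) (B1 / (A1 + B1)) s)
      ≤ gi (A0 + B0) (A1 + B1) s * 1 := mul_le_mul_of_nonneg_left (by linarith) hG.le
    _ = _ := mul_one _

/-- Hint: `Q0/65536 + ε ≤ D0`, `Q1/65536 + ε ≤ D1`, and `gi x y s + ε ≤ gi (x + ε) (y + ε) s` (weighted AM-GM). -/
theorem DtF_facts {L : LF2} (H : GoodF L) (s2 : ℝ) (h2 : |s2| ≤ 1) :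
    gi ((L.Q0 : ℝ) / 65536) ((L.Q1 : ℝ) / 65536) s2 + 1 / 100000 ≤ DtF L s2 ∧
    (L.D0.a : ℝ) / 2 ^ 50 ≤ DtF L s2 ∧ DtF L s2 ≤ (L.D1.a : ℝ) / 2 ^ 50 ∧ 0 < DtF L s2 ∧ DtF L s2 < 1 := by
  obtain ⟨-, -, -, -, x1, x2, c1, c2, -, c3, -, -, -, -, -, e1⟩ := H.facts
  have p0 : 0 < (L.D0.a : ℝ) / 2 ^ 50 := by
    have : (0 : ℝ) < L.D0.a := by exact_mod_cast e1
    positivity
  have p1 : 0 < (L.D1.a : ℝ) / 2 ^ 50 := by
    have : (0 : ℝ) < L.D1.a := by exact_mod_cast lt_of_lt_of_le e1 c1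
    positivity
  have hQ0 : (1024 : ℝ) ≤ L.Q0 := by exact_mod_cast H.Q
  have hQ1 : (1024 : ℝ) ≤ L.Q1 := by exact_mod_cast H.Q.trans c2
  have q0 : 0 < (L.Q0 : ℝ) / 65536 := by positivity
  have q1 : 0 < (L.Q1 : ℝ) / 65536 := by positivity
  have h01 : (L.D0.a : ℝ) / 2 ^ 50 ≤ (L.D1.a : ℝ) / 2 ^ 50 := by
    have : (L.D0.a : ℝ) ≤ L.D1.a := by exact_mod_cast c1
    gcongr
  have k2 := le_gi _ _ s2 h2 p0 p1
  rw [min_eq_left h01] at k2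
  have k3 := gi_le_max _ _ s2 h2 p0 p1
  rw [max_eq_right h01] at k3
  have k4 : (L.D1.a : ℝ) / 2 ^ 50 < 1 := by
    rw [div_lt_one (by positivity)]
    exact_mod_cast c3
  refine ⟨?_, k2, k3, lt_of_lt_of_le p0 k2, lt_of_le_of_lt k3 k4⟩
  have r1 : (L.Q0 : ℝ) * 17179869184 + 11258999069 ≤ L.D0.a := by
    unfold okDF at x1
    rw [Nat.ble_eq] at x1
    exact_mod_cast x1
  have r2 : (L.Q1 : ℝ) * 17179869184 + 11258999069 ≤ L.D1.a := by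
    unfold okDF at x2
    rw [Nat.ble_eq] at x2
    exact_mod_cast x2
  have e : gi ((L.Q0 : ℝ) / 65536) ((L.Q1 : ℝ) / 65536) s2 + 1 / 100000 ≤
      gi ((L.Q0 : ℝ) / 65536 + 1 / 100000) ((L.Q1 : ℝ) / 65536 + 1 / 100000) s2 := by
    have := F2C_gi_add ((L.Q0 : ℝ) / 65536) ((L.Q1 : ℝ) / 65536) (1 / 100000) (1 / 100000) s2 h2 q0 q1
      (by norm_num) (by norm_num)
    rwa [gi_self _ _ (by norm_num)] at this
  refine e.trans ?_
  unfold DtF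
  refine gi_mono _ _ _ _ s2 h2 (by positivity) (by positivity) ?_ ?_
  · rw [le_div_iff₀ (by positivity)]
    norm_num at r1 ⊢
    linarith
  · rw [le_div_iff₀ (by positivity)]
    norm_num at r2 ⊢
    linarith

private theorem F2C_pw0 (p : Pw) (x : ℝ) (ha : (p.a : ℝ) = 2 ^ 50 * x) (hx : 1 / 64 ≤ x) (hx1 : x < 1)
    (h1 : rootF p.a p.b = true) (h2 : rootF p.b p.c = true) (n : ℕ) :
    2 ^ 40 * x ^ ((n : ℝ) / 64) - 5 / 4 ≤ (pw0 p (Nat.mul 4 n) : ℝ) ∧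
      (pw0 p (Nat.mul 4 n) : ℝ) ≤ 2 ^ 40 * x ^ ((n : ℝ) / 64) := by
  rcases Nat.eq_zero_or_pos n with hn | hn
  · subst hn
    have : pw0 p (Nat.mul 4 0) = 1099511627776 := rfl
    rw [this, Nat.cast_zero, zero_div, Real.rpow_zero]
    constructor <;> norm_num
  · have hb : Nat.beq (Nat.mul 4 n) 0 = false := by
      rw [Bool.eq_false_iff]
      intro hh
      have h3 : Nat.mul 4 n = 0 := Nat.eq_of_beq_eq_true hh
      have h4 : 4 * n = 0 := h3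
      omega
    have h3 := powr_floor p x ha hx hx1 h1 h2 (Nat.mul 4 n)
    have h4 : ((Nat.mul 4 n : ℕ) : ℝ) / 256 = (n : ℝ) / 64 := by
      rw [Nat.mul_eq]
      push_cast
      ring
    rw [h4] at h3
    unfold pw0
    rw [hb, cond_false]
    refine ⟨?_, h3.2⟩
    have := (abs_le.1 h3.1).1
    linarith

private theorem F2C_shift (X : ℕ) : ((Nat.shiftRight X 40 : ℕ) : ℝ) ≤ (X : ℝ) / 2 ^ 40 ∧
    (X : ℝ) / 2 ^ 40 < ((Nat.shiftRight X 40 : ℕ) : ℝ) + 1 := by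
  have e : Nat.shiftRight X 40 = X / 2 ^ 40 := by
    show X >>> 40 = _
    exact Nat.shiftRight_eq_div_pow X 40
  rw [e]
  constructor
  · have h1 : ((X / 2 ^ 40 : ℕ) : ℝ) ≤ (X : ℝ) / ((2 ^ 40 : ℕ) : ℝ) := Nat.cast_div_le
    have h2 : ((2 ^ 40 : ℕ) : ℝ) = 2 ^ 40 := by norm_num
    rwa [h2] at h1
  · rw [div_lt_iff₀ (by positivity)]
    have h := Nat.lt_div_mul_add (a := X) (b := 2 ^ 40) (by positivity)
    have h3 : X < (X / 2 ^ 40 + 1) * 2 ^ 40 := by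
      rw [add_mul, one_mul]
      exact h
    exact_mod_cast h3

/-- the real estimate: two products rounded down -/
private theorem F2C_est (α β γ A B C X Y : ℝ) (hα : 0 ≤ α) (hβ : 0 ≤ β) (hβ1 : β ≤ 1) (hγ : 0 ≤ γ) (hγ1 : γ ≤ 1)
    (hA : A = 2 ^ 40 * α) (hA1 : A ≤ 2 ^ 40 + 1)
    (hB : 2 ^ 40 * β - 5 / 4 ≤ B) (hB' : B ≤ 2 ^ 40 * β)
    (hC : 2 ^ 40 * γ - 5 / 4 ≤ C) (hC' : C ≤ 2 ^ 40 * γ) (hX0 : 0 ≤ X)
    (hX : X ≤ A * B / 2 ^ 40) (hX' : A * B / 2 ^ 40 < X + 1)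
    (hY : Y ≤ X * C / 2 ^ 40) (hY' : X * C / 2 ^ 40 < Y + 1) :
    |Y - 2 ^ 40 * (α * β * γ)| ≤ 6 := by
  have hα1 : α ≤ 1 + 1 / 2 ^ 40 := by
    have : 2 ^ 40 * α ≤ 2 ^ 40 + 1 := hA ▸ hA1
    have h2 : (2 : ℝ) ^ 40 * α ≤ 2 ^ 40 * (1 + 1 / 2 ^ 40) := by
      rw [mul_add, mul_one_div_cancel (by positivity)]
      linarith
    exact le_of_mul_le_mul_left h2 (by positivity)
  have hα2 : α ≤ 101 / 100 := hα1.trans (by norm_num)
  have eAB : A * B / 2 ^ 40 = α * B := by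
    rw [hA]
    field_simp
  rw [eAB] at hX hX'
  have x1 : X ≤ 2 ^ 40 * (α * β) := by
    have := mul_le_mul_of_nonneg_left hB' hα
    calc X ≤ α * B := hX
      _ ≤ α * (2 ^ 40 * β) := this
      _ = 2 ^ 40 * (α * β) := by ring
  have x2 : 2 ^ 40 * (α * β) - 23 / 10 ≤ X := by
    have h1 := mul_le_mul_of_nonneg_left hB hα
    have h2 : α * (2 ^ 40 * β - 5 / 4) = 2 ^ 40 * (α * β) - α * (5 / 4) := by ring
    rw [h2] at h1
    linarith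
  have x3 : X ≤ 2 ^ 40 * (101 / 100) := by
    have : α * β ≤ 101 / 100 * 1 := mul_le_mul hα2 hβ1 hβ (by norm_num)
    linarith [mul_le_mul_of_nonneg_left this (by positivity : (0 : ℝ) ≤ 2 ^ 40)]
  have y1 : Y ≤ 2 ^ 40 * (α * β * γ) := by
    have h1 : X * C / 2 ^ 40 ≤ X * γ := by
      rw [div_le_iff₀ (by positivity)]
      have := mul_le_mul_of_nonneg_left hC' hX0
      linarith
    have h2 := mul_le_mul_of_nonneg_right x1 hγ
    linarith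
  have y2 : 2 ^ 40 * (α * β * γ) - 5 ≤ Y := by
    have h1 : X * γ - 13 / 10 ≤ X * C / 2 ^ 40 := by
      rw [le_div_iff₀ (by positivity)]
      have := mul_le_mul_of_nonneg_left hC hX0
      have h3 : X * (5 / 4) ≤ 2 ^ 40 * (101 / 100) * (5 / 4) := mul_le_mul_of_nonneg_right x3 (by norm_num)
      have h4 : (2 : ℝ) ^ 40 * (101 / 100) * (5 / 4) ≤ 13 / 10 * 2 ^ 40 := by norm_num
      nlinarith
    have h2 : (2 ^ 40 * (α * β) - 23 / 10) * γ ≤ X * γ := mul_le_mul_of_nonneg_right x2 hγ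
    have h3 : (2 ^ 40 * (α * β) - 23 / 10) * γ = 2 ^ 40 * (α * β * γ) - 23 / 10 * γ := by ring
    rw [h3] at h2
    linarith
  rw [abs_le]
  constructor <;> linarith

private theorem F2C_Q {L : LF2} (H : GoodF L) (b : Bool) : 1 / 64 ≤ ((cond b L.Q1 L.Q0 : ℕ) : ℝ) / 65536 ∧
    ((cond b L.Q1 L.Q0 : ℕ) : ℝ) / 65536 < 1 := by
  obtain ⟨-, -, -, -, -, -, -, c2, -, -, -, -, -, -, c5, -⟩ := H.facts
  have hQ := H.Q
  have h1 : 1024 ≤ cond b L.Q1 L.Q0 ∧ cond b L.Q1 L.Q0 < 65536 := by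
    cases b
    · exact ⟨hQ, by show L.Q0 < 65536; omega⟩
    · exact ⟨by show 1024 ≤ L.Q1; omega, c5⟩
  have h2 : (1024 : ℝ) ≤ (cond b L.Q1 L.Q0 : ℕ) := by exact_mod_cast h1.1
  have h3 : ((cond b L.Q1 L.Q0 : ℕ) : ℝ) < 65536 := by exact_mod_cast h1.2
  constructor
  · rw [le_div_iff₀ (by norm_num)]
    linarith
  · rw [div_lt_one (by norm_num)]
    exact h3

private theorem F2C_L {L : LF2} (H : GoodF L) (b : Bool) : 1 / 64 ≤ ((cond b L.L1 L.L0 : ℕ) : ℝ) / 65536 ∧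
    ((cond b L.L1 L.L0 : ℕ) : ℝ) / 65536 < 1 := by
  obtain ⟨-, -, -, -, -, -, -, -, c2, -, -, -, c5, -, -, -⟩ := H.facts
  have hQ := H.L'
  have h1 : 1024 ≤ cond b L.L1 L.L0 ∧ cond b L.L1 L.L0 < 65536 := by
    cases b
    · exact ⟨hQ, by show L.L0 < 65536; omega⟩
    · exact ⟨by show 1024 ≤ L.L1; omega, by show L.L1 < 65536; omega⟩
  have h2 : (1024 : ℝ) ≤ (cond b L.L1 L.L0 : ℕ) := by exact_mod_cast h1.1
  have h3 : ((cond b L.L1 L.L0 : ℕ) : ℝ) < 65536 := by exact_mod_cast h1.2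
  constructor
  · rw [le_div_iff₀ (by norm_num)]
    linarith
  · rw [div_lt_one (by norm_num)]
    exact h3

/-- the values of `valF`. Hint: `powr_floor`, `powr_ceil` (size at most `2^40 + 1`). -/
theorem valF_close {L : LF2} (H : GoodF L) (m a b : ℕ) (b2 b3 : Bool) :
    |(valF L m a b b2 b3 : ℝ) - 2 ^ 40 *
      ((if b2 then szF L m true * ((L.Q1 : ℝ) / 65536) ^ ((a + b : ℕ) / 64 : ℝ)
          else szF L m false * ((L.Q0 : ℝ) / 65536) ^ ((a + b : ℕ) / 64 : ℝ)) *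
        (if b3 then ((L.L1 : ℝ) / 65536) ^ ((b : ℝ) / 64) else ((L.L0 : ℝ) / 65536) ^ ((b : ℝ) / 64)))| ≤ 6 := by
  obtain ⟨⟨r1, r2, r3, r4⟩, ⟨r5, r6, r7, r8⟩, -⟩ := H.facts
  have hQ := F2C_Q H b2
  have hL := F2C_L H b3
  have eQ : ((cond b2 L.q1 L.q0).a : ℝ) = 2 ^ 50 * (((cond b2 L.Q1 L.Q0 : ℕ) : ℝ) / 65536) := by
    cases b2
    · show (L.q0.a : ℝ) = 2 ^ 50 * ((L.Q0 : ℝ) / 65536)
      rw [H.q0a]
      push_cast
      ring
    · show (L.q1.a : ℝ) = 2 ^ 50 * ((L.Q1 : ℝ) / 65536)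
      rw [H.q1a]
      push_cast
      ring
  have eL : ((cond b3 L.l1 L.l0).a : ℝ) = 2 ^ 50 * (((cond b3 L.L1 L.L0 : ℕ) : ℝ) / 65536) := by
    cases b3
    · show (L.l0.a : ℝ) = 2 ^ 50 * ((L.L0 : ℝ) / 65536)
      rw [H.l0a]
      push_cast
      ring
    · show (L.l1.a : ℝ) = 2 ^ 50 * ((L.L1 : ℝ) / 65536)
      rw [H.l1a]
      push_cast
      ring
  have hB := F2C_pw0 (cond b2 L.q1 L.q0) _ eQ hQ.1 hQ.2 (by cases b2 <;> assumption) (by cases b2 <;> assumption) (a + b)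
  have hC := F2C_pw0 (cond b3 L.l1 L.l0) _ eL hL.1 hL.2 (by cases b3 <;> assumption) (by cases b3 <;> assumption) b
  have eT : (if b2 then szF L m true * ((L.Q1 : ℝ) / 65536) ^ ((a + b : ℕ) / 64 : ℝ)
          else szF L m false * ((L.Q0 : ℝ) / 65536) ^ ((a + b : ℕ) / 64 : ℝ)) *
        (if b3 then ((L.L1 : ℝ) / 65536) ^ ((b : ℝ) / 64) else ((L.L0 : ℝ) / 65536) ^ ((b : ℝ) / 64)) =
      szF L m b2 * (((cond b2 L.Q1 L.Q0 : ℕ) : ℝ) / 65536) ^ (((a + b : ℕ) : ℝ) / 64) *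
        (((cond b3 L.L1 L.L0 : ℕ) : ℝ) / 65536) ^ ((b : ℝ) / 64) := by
    cases b2 <;> cases b3 <;> simp
  rw [eT]
  have hβ0 : 0 ≤ (((cond b2 L.Q1 L.Q0 : ℕ) : ℝ) / 65536) ^ (((a + b : ℕ) : ℝ) / 64) := by positivity
  have hβ1 : (((cond b2 L.Q1 L.Q0 : ℕ) : ℝ) / 65536) ^ (((a + b : ℕ) : ℝ) / 64) ≤ 1 :=
    Real.rpow_le_one (by positivity) hQ.2.le (by positivity)
  have hγ0 : 0 ≤ (((cond b3 L.L1 L.L0 : ℕ) : ℝ) / 65536) ^ ((b : ℝ) / 64) := by positivity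
  have hγ1 : (((cond b3 L.L1 L.L0 : ℕ) : ℝ) / 65536) ^ ((b : ℝ) / 64) ≤ 1 :=
    Real.rpow_le_one (by positivity) hL.2.le (by positivity)
  have hA : ((cond (Nat.beq m 0) one40 (Nat.succ (powr (cond b2 L.D1 L.D0) m)) : ℕ) : ℝ) = 2 ^ 40 * szF L m b2 := by
    unfold szF
    field_simp
  have hA1 := F2C_szF_le H m b2
  rw [mul_comm, ← hA] at hA1
  unfold valF
  set A := cond (Nat.beq m 0) one40 (Nat.succ (powr (cond b2 L.D1 L.D0) m)) with hAd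
  have e1 : Nat.add a b = a + b := rfl
  rw [e1]
  set B := pw0 (cond b2 L.q1 L.q0) (Nat.mul 4 (a + b)) with hBd
  set C := pw0 (cond b3 L.l1 L.l0) (Nat.mul 4 b) with hCd
  have s1 := F2C_shift (Nat.mul A B)
  have s2 := F2C_shift (Nat.mul (Nat.shiftRight (Nat.mul A B) 40) C)
  have m1 : ((Nat.mul A B : ℕ) : ℝ) = A * B := by
    rw [Nat.mul_eq]
    push_cast
    rfl
  have m2 : ((Nat.mul (Nat.shiftRight (Nat.mul A B) 40) C : ℕ) : ℝ) = (Nat.shiftRight (Nat.mul A B) 40 : ℕ) * C := by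
    rw [Nat.mul_eq]
    push_cast
    rfl
  rw [m1] at s1
  rw [m2] at s2
  exact F2C_est (szF L m b2) _ _ A B C _ _ (szF_pos m b2).le hβ0 hβ1 hγ0 hγ1 hA hA1
    hB.1 hB.2 hC.1 hC.2 (Nat.cast_nonneg _) s1.1 s1.2 s2.1 s2.2

private theorem F2C_pos {L : LF2} (H : GoodF L) (m a b : ℕ) :
    0 < szF L m false * ((L.Q0 : ℝ) / 65536) ^ ((a + b : ℕ) / 64 : ℝ) ∧
    0 < szF L m true * ((L.Q1 : ℝ) / 65536) ^ ((a + b : ℕ) / 64 : ℝ) ∧
    0 < ((L.L0 : ℝ) / 65536) ^ ((b : ℝ) / 64) ∧ 0 < ((L.L1 : ℝ) / 65536) ^ ((b : ℝ) / 64) := by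
  have q0 := (F2C_Q H false).1
  have q1 := (F2C_Q H true).1
  have l0 := (F2C_L H false).1
  have l1 := (F2C_L H true).1
  rw [cond_false] at q0 l0
  rw [cond_true] at q1 l1
  have z0 := szF_pos (L := L) m false
  have z1 := szF_pos (L := L) m true
  refine ⟨mul_pos z0 (Real.rpow_pos_of_pos (by linarith) _), mul_pos z1 (Real.rpow_pos_of_pos (by linarith) _),
    Real.rpow_pos_of_pos (by linarith) _, Real.rpow_pos_of_pos (by linarith) _⟩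

/-- slots. Hint: `slotOK_f2`. -/
theorem slF_ok {L : LF2} (H : GoodF L) (m a b : ℕ) (s1 s2 s3 : ℝ) (h1 : |s1| ≤ 1) (h2 : |s2| ≤ 1) (h3 : |s3| ≤ 1)
    (t : Tab) (cl pw : ℕ) : SlotOK true s1 s2 s3 (mkSlF t cl pw (valF L m a b)) (psF L m a b s2 s3) := by
  obtain ⟨p0, p1, p2, p3⟩ := F2C_pos H m a b
  exact slotOK_f2 _ _ _ _ s1 s2 s3 p0 p1 p2 p3 h1 h2 h3 (valF L m a b) (valF_close H m a b) t cl pw

theorem slF_one (s1 s2 s3 : ℝ) (h1 : |s1| ≤ 1) (h2 : |s2| ≤ 1) (h3 : |s3| ≤ 1) (t : Tab) (cl pw : ℕ) :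
    SlotOK true s1 s2 s3 (mkSlF t cl pw (fun _ _ => one40)) 1 := by
  have h := slotOK_f2 1 1 1 1 s1 s2 s3 one_pos one_pos one_pos one_pos h1 h2 h3 (fun _ _ => one40) (by
    intro b2 b3
    unfold one40
    cases b2 <;> cases b3 <;> norm_num) t cl pw
  rwa [gi_self _ _ one_pos, gi_self _ _ one_pos, one_mul] at h

/-- constants. Hint: `cslot_of_slot`, `cslotP_ok`. -/
theorem cstF_ok {L : LF2} (H : GoodF L) (a b : ℕ) (s1 s2 s3 : ℝ) (h1 : |s1| ≤ 1) (h2 : |s2| ≤ 1) (h3 : |s3| ≤ 1)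
    (t : Tab) (cl pw : ℕ) : CSlotOK true s1 s2 s3 (cstF t cl pw (valF L 0 a b)) (psF L 0 a b s2 s3 : ℝ) :=
  cslot_of_slot true s1 s2 s3 _ _ (slF_ok H 0 a b s1 s2 s3 h1 h2 h3 t cl pw)

theorem cstP_ok {L : LF2} (H : GoodF L) (a b : ℕ) (s1 s2 s3 : ℝ) (h1 : |s1| ≤ 1) (h2 : |s2| ≤ 1) (h3 : |s3| ≤ 1)
    (t : Tab) (cl pw : ℕ) : CSlotOK true s1 s2 s3 (cstP L t cl pw (valF L 0 a b))
      (((psF L 0 a b s2 s3 : ℝ) : ℂ) * Complex.exp ((ai (thU L.U0) (thU L.U1) s1 : ℝ) * Complex.I)) := by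
  obtain ⟨-, -, -, -, -, -, -, -, -, -, u1, u2, -⟩ := H.facts
  obtain ⟨p0, p1, p2, p3⟩ := F2C_pos H 0 a b
  have q0 := F2C_Q H false
  have q1 := F2C_Q H true
  have l0 := F2C_L H false
  have l1 := F2C_L H true
  rw [cond_false] at q0 l0
  rw [cond_true] at q1 l1
  refine cslotP_ok L u1 u2 _ _ _ _ s1 s2 s3 p0 p1 p2 p3 ?_ ?_ ?_ ?_ h1 h2 h3 (valF L 0 a b) (valF_close H 0 a b) t cl pw
  · rw [szF_zero, one_mul]
    exact Real.rpow_le_one (by positivity) q0.2.le (by positivity)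
  · rw [szF_zero, one_mul]
    exact Real.rpow_le_one (by positivity) q1.2.le (by positivity)
  · exact Real.rpow_le_one (by positivity) l0.2.le (by positivity)
  · exact Real.rpow_le_one (by positivity) l1.2.le (by positivity)

/-- the interpolated value -/
theorem psF_eq {L : LF2} (H : GoodF L) (m a b : ℕ) (s2 s3 Q T : ℝ)
    (hq : Q = gi ((L.Q0 : ℝ) / 65536) ((L.Q1 : ℝ) / 65536) s2)
    (hl : T = Q * gi ((L.L0 : ℝ) / 65536) ((L.L1 : ℝ) / 65536) s3) :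
    psF L m a b s2 s3 = psD L m s2 * (Q ^ ((a : ℝ) / 64) * T ^ ((b : ℝ) / 64)) := by
  have q0 := (F2C_Q H false).1
  have q1 := (F2C_Q H true).1
  have l0 := (F2C_L H false).1
  have l1 := (F2C_L H true).1
  rw [cond_false] at q0 l0
  rw [cond_true] at q1 l1
  have q0' : 0 < (L.Q0 : ℝ) / 65536 := by linarith
  have q1' : 0 < (L.Q1 : ℝ) / 65536 := by linarith
  have l0' : 0 < (L.L0 : ℝ) / 65536 := by linarith
  have l1' : 0 < (L.L1 : ℝ) / 65536 := by linarith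
  have hQ : 0 < Q := hq ▸ gi_pos _ _ _ q0' q1'
  have hG : 0 < gi ((L.L0 : ℝ) / 65536) ((L.L1 : ℝ) / 65536) s3 := gi_pos _ _ _ l0' l1'
  unfold psF psD
  rw [gi_mul _ _ _ _ _ (szF_pos m false) (szF_pos m true) (Real.rpow_pos_of_pos q0' _) (Real.rpow_pos_of_pos q1' _),
    gi_rpow _ _ _ _ q0' q1', gi_rpow _ _ _ _ l0' l1', ← hq, hl, Real.mul_rpow hQ.le hG.le]
  have e : Q ^ (((a + b : ℕ) : ℝ) / 64) = Q ^ ((a : ℝ) / 64) * Q ^ ((b : ℝ) / 64) := by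
    rw [← Real.rpow_add hQ]
    congr 1
    push_cast
    ring
  rw [e]
  ring

/-- the value is at most the maximum over the corners of the cell -/
theorem psF_le {L : LF2} (H : GoodF L) (m a b : ℕ) (s2 s3 : ℝ) (h2 : |s2| ≤ 1) (h3 : |s3| ≤ 1) :
    psF L m a b s2 s3 ≤ ((mx4 (valF L m a b) : ℕ) + 8 : ℝ) / 2 ^ 40 := by
  obtain ⟨p0, p1, p2, p3⟩ := F2C_pos H m a b
  have hc := valF_close H m a b
  have hmx : ∀ b2 b3, valF L m a b b2 b3 ≤ mx4 (valF L m a b) := by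
    intro b2 b3
    unfold mx4
    rw [maxN_eq, maxN_eq, maxN_eq]
    cases b2 <;> cases b3 <;> omega
  unfold psF
  generalize szF L m false * ((L.Q0 : ℝ) / 65536) ^ ((a + b : ℕ) / 64 : ℝ) = F0 at *
  generalize szF L m true * ((L.Q1 : ℝ) / 65536) ^ ((a + b : ℕ) / 64 : ℝ) = F1 at *
  generalize ((L.L0 : ℝ) / 65536) ^ ((b : ℝ) / 64) = G0 at *
  generalize ((L.L1 : ℝ) / 65536) ^ ((b : ℝ) / 64) = G1 at *
  have h4 : ∀ b2 b3 : Bool, (if b2 then F1 else F0) * (if b3 then G1 else G0) ≤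
      ((mx4 (valF L m a b) : ℕ) + 8 : ℝ) / 2 ^ 40 := by
    intro b2 b3
    rw [le_div_iff₀ (by positivity)]
    have h5 := (abs_le.1 (hc b2 b3)).1
    have h6 : (valF L m a b b2 b3 : ℝ) ≤ mx4 (valF L m a b) := by exact_mod_cast hmx b2 b3
    linarith
  have h5 := gi_le_max F0 F1 s2 h2 p0 p1
  have h6 := gi_le_max G0 G1 s3 h3 p2 p3
  have h7 : gi F0 F1 s2 * gi G0 G1 s3 ≤ max F0 F1 * max G0 G1 :=
    mul_le_mul h5 h6 (gi_pos _ _ _ p2 p3).le (p0.le.trans (le_max_left _ _))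
  refine h7.trans ?_
  rcases max_cases F0 F1 with h | h <;> rcases max_cases G0 G1 with h' | h' <;> rw [h.1, h'.1]
  · simpa using h4 false false
  · simpa using h4 false true
  · simpa using h4 true false
  · simpa using h4 true true

end Pool.Agent.MaxTerm59b
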