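import Pool.Agent.MaxTerm59b.F2J
import Pool.Agent.MaxTerm58.EHyp

/-! Extremal matched vertex with a generic right neighbour: covering by leaves. -/

namespace Pool.Agent.MaxTerm59b
open Finset Pool.Agent.MaxTerm58
open scoped ComplexConjugate

/-- the cell contains no configuration -/
def Bad2 (U0 U1 Q0 Q1 L0 L1 R0 R1 : ℕ) : Prop :=
  ∀ (g b : ℕ) (s t : ℂ) (v : ℤ → ℂ), HypF g b s t v → InU2 (s ^ g).re |(s ^ g).im| →
    InCellF U0 U1 Q0 Q1 L0 L1 R0 R1 g b s t → False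

theorem Bad2.chk {U0 U1 Q0 Q1 L0 L1 R0 R1 : ℕ} {C : CF2} (h : chkF2 TC TS U0 U1 Q0 Q1 L0 L1 R0 R1 C = true) :
    Bad2 U0 U1 Q0 Q1 L0 L1 R0 R1 := fun _ _ _ _ _ H _ I => chkF2_sound h H I

theorem Bad2.splitU {U0 U1 Q0 Q1 L0 L1 R0 R1 : ℕ} (m : ℕ) (h1 : Bad2 U0 m Q0 Q1 L0 L1 R0 R1)
    (h2 : Bad2 m U1 Q0 Q1 L0 L1 R0 R1) : Bad2 U0 U1 Q0 Q1 L0 L1 R0 R1 := by
  intro g b s t v H hU I
  obtain ⟨th, h3, h4, h5⟩ := I.u
  rcases le_total (thU m) th with hc | hc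
  · exact h1 g b s t v H hU ⟨⟨th, hc, h4, h5⟩, I.q0, I.q1, I.l0, I.l1, I.r0, I.r1, I.Q0', I.L0', I.R0', I.Rinf⟩
  · exact h2 g b s t v H hU ⟨⟨th, h3, hc, h5⟩, I.q0, I.q1, I.l0, I.l1, I.r0, I.r1, I.Q0', I.L0', I.R0', I.Rinf⟩

theorem Bad2.splitQ {U0 U1 Q0 Q1 L0 L1 R0 R1 : ℕ} (m : ℕ) (h : Q0 ≤ m) (h1 : Bad2 U0 U1 Q0 m L0 L1 R0 R1)
    (h2 : Bad2 U0 U1 m Q1 L0 L1 R0 R1) : Bad2 U0 U1 Q0 Q1 L0 L1 R0 R1 := by
  intro g b s t v H hU I
  rcases le_total (65536 * ‖s‖ ^ g) (m : ℝ) with hc | hc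
  · exact h1 g b s t v H hU ⟨I.u, I.q0, hc, I.l0, I.l1, I.r0, I.r1, I.Q0', I.L0', I.R0', I.Rinf⟩
  · exact h2 g b s t v H hU ⟨I.u, hc, I.q1, I.l0, I.l1, I.r0, I.r1, I.Q0'.trans h, I.L0', I.R0', I.Rinf⟩

theorem Bad2.splitL {U0 U1 Q0 Q1 L0 L1 R0 R1 : ℕ} (m : ℕ) (h : L0 ≤ m) (h1 : Bad2 U0 U1 Q0 Q1 L0 m R0 R1)
    (h2 : Bad2 U0 U1 Q0 Q1 m L1 R0 R1) : Bad2 U0 U1 Q0 Q1 L0 L1 R0 R1 := by
  intro g b s t v H hU I
  rcases le_total (65536 * ‖t‖ ^ g) ((m : ℝ) * ‖s‖ ^ g) with hc | hc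
  · exact h1 g b s t v H hU ⟨I.u, I.q0, I.q1, I.l0, hc, I.r0, I.r1, I.Q0', I.L0', I.R0', I.Rinf⟩
  · exact h2 g b s t v H hU ⟨I.u, I.q0, I.q1, hc, I.l1, I.r0, I.r1, I.Q0', I.L0'.trans h, I.R0', I.Rinf⟩

theorem Bad2.splitR {U0 U1 Q0 Q1 L0 L1 R0 R1 : ℕ} (m : ℕ) (h : R0 ≤ m) (h' : R1 = 0 ∨ m ≤ R1)
    (h1 : Bad2 U0 U1 Q0 Q1 L0 L1 R0 m) (h2 : Bad2 U0 U1 Q0 Q1 L0 L1 m R1) : Bad2 U0 U1 Q0 Q1 L0 L1 R0 R1 := by
  intro g b s t v H hU I
  have hR := I.R0'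
  rcases le_total (64 * b) (m * g) with hc | hc
  · exact h1 g b s t v H hU ⟨I.u, I.q0, I.q1, I.l0, I.l1, I.r0, Or.inr hc, I.Q0', I.L0', I.R0', fun h => by omega⟩
  · refine h2 g b s t v H hU ⟨I.u, I.q0, I.q1, I.l0, I.l1, hc, I.r1, I.Q0', I.L0', I.R0'.trans h, fun h1 => ?_⟩
    have := I.Rinf h1
    omega

private theorem F2Cov_pow {g : ℕ} {s : ℂ} {th : ℝ} (hs : s ≠ 0)
    (h : uph s ^ g = Complex.exp (th * Complex.I)) :
    s ^ g = ((‖s‖ ^ g : ℝ) : ℂ) * Complex.exp (th * Complex.I) := by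
  rw [← h, uph, div_pow]
  have : ((‖s‖ : ℝ) : ℂ) ^ g ≠ 0 := pow_ne_zero _ (by exact_mod_cast norm_ne_zero_iff.2 hs)
  rw [Complex.ofReal_pow]
  field_simp

private theorem F2Cov_sin : Real.sin (2 * Real.arctan (58 / 128)) = 2 * (58 / 128) / (1 + (58 / 128) ^ 2) := by
  rw [Real.sin_two_mul, Real.sin_arctan, Real.cos_arctan]
  have h : (0 : ℝ) < 1 + (58 / 128) ^ 2 := by positivity
  have h2 := Real.mul_self_sqrt h.le
  have h3 : 0 < Real.sqrt (1 + (58 / 128) ^ 2) := Real.sqrt_pos.2 h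
  have h4 : 2 * (58 / 128 / Real.sqrt (1 + (58 / 128) ^ 2)) * (1 / Real.sqrt (1 + (58 / 128) ^ 2)) =
      2 * (58 / 128) / (Real.sqrt (1 + (58 / 128) ^ 2) * Real.sqrt (1 + (58 / 128) ^ 2)) := by
    generalize Real.sqrt (1 + (58 / 128) ^ 2) = w
    ring
  rw [h4, h2]

private theorem F2Cov_lt : 2 * Real.arctan (78 / 128) < Real.pi / 2 := by
  have h : Real.arctan (78 / 128) < Real.arctan 1 := Real.arctan_strictMono (by norm_num)
  rw [Real.arctan_one] at h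
  linarith

private theorem F2Cov_tan : 11 / 6 < Real.tan (2 * Real.arctan (78 / 128)) := by
  rw [Real.tan_two_mul, Real.tan_arctan]
  norm_num

/-- outside of the region: `|Im q| ≥ 35500/65536 · sin (2 arctan (58/128)) > 13/32`. Hint: `sin (2 arctan x) =
2 x / (1 + x^2)`, and `π - th` lies in `[2 arctan (58/128), 2 arctan (78/128)] ⊂ [0, π/2]`. -/
theorem Bad2.out {U1 Q1 L0 L1 R0 R1 : ℕ} (hU : U1 ≤ 78) : Bad2 58 U1 35500 Q1 L0 L1 R0 R1 := by
  intro g b s t v H hY I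
  obtain ⟨th, h3, h4, h5⟩ := I.u
  have hq := I.q0
  have hs : s ≠ 0 := H.G.s0
  have hz := F2Cov_pow hs h5
  have him : (s ^ g).im = ‖s‖ ^ g * Real.sin th := by
    rw [hz, Complex.im_ofReal_mul, Complex.exp_ofReal_mul_I_im]
  have hy : |(s ^ g).im| ≤ 13 / 32 := by
    rcases hY with h | h | h | h <;> linarith [h.2.2]
  have hpi := Real.pi_pos
  have h6 : 2 * Real.arctan (58 / 128) ≤ Real.pi - th := by
    unfold thU at h4
    push_cast at h4
    linarith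
  have h7 : Real.pi - th ≤ 2 * Real.arctan (78 / 128) := by
    unfold thU at h3
    have h8 : Real.arctan ((U1 : ℝ) / 128) ≤ Real.arctan (78 / 128) := by
      apply Real.arctan_strictMono.monotone
      have : (U1 : ℝ) ≤ 78 := by exact_mod_cast hU
      linarith
    linarith
  have h8 := F2Cov_lt
  have h9 : 0 < Real.arctan (58 / 128) := Real.arctan_pos.2 (by norm_num)
  have h10 : Real.sin (2 * Real.arctan (58 / 128)) ≤ Real.sin (Real.pi - th) :=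
    Real.sin_le_sin_of_le_of_le_pi_div_two (by linarith) (by linarith) h6
  rw [Real.sin_pi_sub, F2Cov_sin] at h10
  have h11 : (0 : ℝ) < ‖s‖ ^ g := by
    push_cast at hq
    linarith
  rw [him] at hy
  have h12 := (abs_le.1 hy).2
  have h13 : ‖s‖ ^ g * (2 * (58 / 128) / (1 + (58 / 128) ^ 2)) ≤ ‖s‖ ^ g * Real.sin th :=
    mul_le_mul_of_nonneg_left h10 h11.le
  norm_num at h13 hq
  linarith

/-- the conjugate configuration -/
theorem HypF.conj {g b : ℕ} {s t : ℂ} {v : ℤ → ℂ} (H : HypF g b s t v) :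
    HypF g b (conj s) (conj t) (fun n => conj (v n)) := by
  refine ⟨H.hg, H.hb, H.h1, H.h2, H.h3, H.h32, ?_, ?_⟩
  · rw [RCLike.norm_conj]
    exact H.q1
  · have G := H.G
    refine ⟨?_, ?_, ?_, ?_, ?_, ?_, ?_, ?_, ?_, ?_, ?_⟩
    · simp only [G.v2, map_one]
    · simp only [G.v1, map_one]
    · simp only [G.v0, map_one]
    · simp only [G.vb, map_one]
    · exact (map_ne_zero _).2 G.s0
    · exact (map_ne_zero _).2 G.t0
    · simp only [RCLike.norm_conj]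
      exact G.tl
    · simp only [RCLike.norm_conj]
      exact G.tu
    · have h := G.oL
      simp only [OutN, RCLike.norm_conj] at h ⊢
      exact h
    · have h := G.oR
      simp only [OutA, RCLike.norm_conj] at h ⊢
      exact h
    · intro X hX z hz
      have h := G.bd X hX (conj z) (by rw [RCLike.norm_conj, hz])
      have h2 : ∑' n : ℤ, conj (v n) * (conj s ^ eaZ g X n * conj t ^ ebZ 1 X n) * z ^ n =
          conj (∑' n : ℤ, v n * (s ^ eaZ g X n * t ^ ebZ 1 X n) * (conj z) ^ n) := by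
        rw [Complex.conj_tsum]
        refine tsum_congr fun n => ?_
        simp only [map_mul, map_pow, map_zpow₀, Complex.conj_conj]
      rw [h2, RCLike.norm_conj]
      exact h

/-- the angle: `th = arg (s ^ g)`; in `InU2`: `|Im| / |Re| ≤ 11/6 < tan (2 arctan (78/128))` -/
theorem exists_th {g : ℕ} {s : ℂ} (hs : s ≠ 0) (hU : InU2 (s ^ g).re |(s ^ g).im|) (hi : 0 ≤ (s ^ g).im) :
    ∃ th : ℝ, thU 78 ≤ th ∧ th ≤ thU 0 ∧ uph s ^ g = Complex.exp (th * Complex.I) := by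
  set z := s ^ g with hz
  have hz0 : z ≠ 0 := pow_ne_zero _ hs
  have hre : z.re < 0 := by
    rcases hU with h | h | h | h <;> linarith [h.2.1]
  have hr : z.im ≤ 11 / 6 * (-z.re) := by
    rw [abs_of_nonneg hi] at hU
    rcases hU with h | h | h | h <;> linarith [h.1, h.2.1, h.2.2]
  have hpi := Real.pi_pos
  have h1 : Real.pi / 2 < Complex.arg z := by
    by_contra h
    rw [not_lt, Complex.arg_le_pi_div_two_iff] at h
    rcases h with h | h <;> linarith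
  have h2 : Complex.arg z ≤ Real.pi := Complex.arg_le_pi z
  refine ⟨Complex.arg z, ?_, ?_, ?_⟩
  · unfold thU
    push_cast
    by_contra h3
    have h4 : 2 * Real.arctan (78 / 128) < Real.pi - Complex.arg z := by linarith
    have h5 : 0 < Real.arctan (78 / 128) := Real.arctan_pos.2 (by norm_num)
    have h6 := Real.tan_lt_tan_of_lt_of_lt_pi_div_two (by linarith) (by linarith) h4
    have h7 := F2Cov_tan
    rw [Real.tan_pi_sub, Complex.tan_arg] at h6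
    have h8 : -(z.im / z.re) ≤ 11 / 6 := by
      rw [← div_neg, div_le_iff₀ (by linarith)]
      exact hr
    linarith
  · unfold thU
    simp only [Nat.cast_zero, zero_div, Real.arctan_zero, mul_zero, sub_zero]
    exact h2
  · have h3 := Complex.norm_mul_exp_arg_mul_I z
    have h4 : ((‖z‖ : ℝ) : ℂ) ≠ 0 := by exact_mod_cast norm_ne_zero_iff.2 hz0
    have h5 : uph s ^ g = z / (‖z‖ : ℂ) := by
      rw [uph, div_pow, hz, norm_pow, Complex.ofReal_pow]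
    rw [h5, div_eq_iff h4, mul_comm]
    exact h3.symm

end Pool.Agent.MaxTerm59b
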