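import Pool.Agent.MaxTerm59b.F2Cov
import Pool.Agent.MaxTerm59b.DF0
import Pool.Agent.MaxTerm59b.DF1
import Pool.Agent.MaxTerm59b.DF2
import Pool.Agent.MaxTerm59b.DF3
import Pool.Agent.MaxTerm59b.DF4
import Pool.Agent.MaxTerm59b.DF5
import Pool.Agent.MaxTerm59b.DF6
import Pool.Agent.MaxTerm59b.DF7
import Pool.Agent.MaxTerm59b.DF8
import Pool.Agent.MaxTerm59b.DF9
import Pool.Agent.MaxTerm59b.DF10
import Pool.Agent.MaxTerm59b.DF11
import Pool.Agent.MaxTerm59b.DF12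
import Pool.Agent.MaxTerm59b.DF13
import Pool.Agent.MaxTerm59b.DF14
import Pool.Agent.MaxTerm59b.DF15
import Pool.Agent.MaxTerm59b.DF16
import Pool.Agent.MaxTerm59b.DF17
import Pool.Agent.MaxTerm59b.DF18
import Pool.Agent.MaxTerm59b.DF19
import Pool.Agent.MaxTerm59b.DF20
import Pool.Agent.MaxTerm59b.DF21
import Pool.Agent.MaxTerm59b.DF22
import Pool.Agent.MaxTerm59b.DF23
import Pool.Agent.MaxTerm59b.DF24
import Pool.Agent.MaxTerm59b.DF25
import Pool.Agent.MaxTerm59b.DF26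
import Pool.Agent.MaxTerm59b.DF27
import Pool.Agent.MaxTerm59b.DF28
import Pool.Agent.MaxTerm59b.DF29
import Pool.Agent.MaxTerm59b.DF30
import Pool.Agent.MaxTerm59b.DF31
import Pool.Agent.MaxTerm59b.DF32
import Pool.Agent.MaxTerm59b.DF33
import Pool.Agent.MaxTerm59b.DF34
import Pool.Agent.MaxTerm59b.DF35
import Pool.Agent.MaxTerm59b.DF36
import Pool.Agent.MaxTerm59b.DF37
import Pool.Agent.MaxTerm59b.DF38
import Pool.Agent.MaxTerm59b.DF39
import Pool.Agent.MaxTerm59b.DF40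

/-! Extremal matched vertex with a generic right neighbour: the coverings (generated). -/

namespace Pool.Agent.MaxTerm59b
set_option linter.style.longLine false

theorem cvf_0 : Bad2 0 26 22282 46203 41943 58985 54 64 :=
  Bad2.splitU 13 (Bad2.splitL 49739 (by norm_num) (Bad2.splitQ 32086 (by norm_num) (Bad2.splitQ 26738 (by norm_num) (Bad2.chk df_0_ok) (Bad2.chk df_1_ok)) (Bad2.splitQ 36600 (by norm_num) (Bad2.chk df_2_ok) (Bad2.splitQ 41200 (by norm_num) (Bad2.chk df_3_ok) (Bad2.chk df_4_ok)))) (Bad2.splitQ 35037 (by norm_num) (Bad2.splitQ 29300 (by norm_num) (Bad2.splitQ 26000 (by norm_num) (Bad2.chk df_5_ok) (Bad2.chk df_6_ok)) (Bad2.splitQ 33000 (by norm_num) (Bad2.chk df_7_ok) (Bad2.chk df_8_ok))) (Bad2.splitQ 41500 (by norm_num) (Bad2.splitQ 37200 (by norm_num) (Bad2.chk df_9_ok) (Bad2.chk df_10_ok)) (Bad2.splitQ 43788 (by norm_num) (Bad2.chk df_11_ok) (Bad2.chk df_12_ok))))) (Bad2.splitL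 49739 (by norm_num) (Bad2.splitQ 32086 (by norm_num) (Bad2.splitQ 26738 (by norm_num) (Bad2.chk df_13_ok) (Bad2.chk df_14_ok)) (Bad2.splitQ 36600 (by norm_num) (Bad2.chk df_15_ok) (Bad2.splitQ 41200 (by norm_num) (Bad2.chk df_16_ok) (Bad2.chk df_17_ok)))) (Bad2.splitQ 37200 (by norm_num) (Bad2.splitQ 29300 (by norm_num) (Bad2.splitQ 26000 (by norm_num) (Bad2.chk df_18_ok) (Bad2.chk df_19_ok)) (Bad2.splitQ 33000 (by norm_num) (Bad2.chk df_20_ok) (Bad2.chk df_21_ok))) (Bad2.splitQ 41500 (by norm_num) (Bad2.splitQ 39291 (by norm_num) (Bad2.chk df_22_ok) (Bad2.chk df_23_ok)) (Bad2.splitQ 43788 (by norm_num) (Bad2.chk df_24_ok) (Bad2.splitL 54165 (by norm_num) (Bad2.chk df_25_ok) (Bad2.chk df_26_ok))))))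

theorem cvf_1 : Bad2 26 78 22282 46203 41943 58985 54 64 :=
  Bad2.splitU 39 (Bad2.splitL 49739 (by norm_num) (Bad2.splitQ 32086 (by norm_num) (Bad2.splitQ 26738 (by norm_num) (Bad2.chk df_27_ok) (Bad2.chk df_28_ok)) (Bad2.splitQ 36600 (by norm_num) (Bad2.chk df_29_ok) (Bad2.splitQ 41200 (by norm_num) (Bad2.chk df_30_ok) (Bad2.chk df_31_ok)))) (Bad2.splitQ 33000 (by norm_num) (Bad2.splitQ 26000 (by norm_num) (Bad2.chk df_32_ok) (Bad2.splitQ 29300 (by norm_num) (Bad2.chk df_33_ok) (Bad2.chk df_34_ok))) (Bad2.splitQ 41500 (by norm_num) (Bad2.splitQ 37200 (by norm_num) (Bad2.chk df_35_ok) (Bad2.chk df_36_ok)) (Bad2.splitQ 43788 (by norm_num) (Bad2.chk df_37_ok) (Bad2.chk df_38_ok))))) (Bad2.splitU 58 (Bad2.splitL 49739 (by norm_num) (Bad2.splitQ 35500 (by norm_num) (Bad2.splitQ 28000 (by norm_num) (Bad2.chk df_39_ok) (Bad2.chk df_40_ok)) (Bad2.splitQ 40499 (by norm_num) (Bad2.chk df_41_ok) (Bad2.chk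 df_42_ok))) (Bad2.splitQ 35500 (by norm_num) (Bad2.splitQ 28000 (by norm_num) (Bad2.chk df_43_ok) (Bad2.chk df_44_ok)) (Bad2.splitQ 40499 (by norm_num) (Bad2.chk df_45_ok) (Bad2.chk df_46_ok)))) (Bad2.splitL 49739 (by norm_num) (Bad2.splitQ 28000 (by norm_num) (Bad2.chk df_47_ok) (Bad2.splitQ 35500 (by norm_num) (Bad2.chk df_48_ok) (Bad2.out (by norm_num)))) (Bad2.splitQ 28000 (by norm_num) (Bad2.chk df_49_ok) (Bad2.splitQ 35500 (by norm_num) (Bad2.chk df_50_ok) (Bad2.out (by norm_num))))))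

theorem cvf_2 : Bad2 0 26 22282 46203 41943 58985 64 77 :=
  Bad2.splitU 13 (Bad2.splitL 49739 (by norm_num) (Bad2.splitQ 32086 (by norm_num) (Bad2.splitQ 26738 (by norm_num) (Bad2.chk df_51_ok) (Bad2.chk df_52_ok)) (Bad2.splitQ 36600 (by norm_num) (Bad2.chk df_53_ok) (Bad2.splitQ 41200 (by norm_num) (Bad2.chk df_54_ok) (Bad2.chk df_55_ok)))) (Bad2.splitQ 33000 (by norm_num) (Bad2.splitQ 26000 (by norm_num) (Bad2.chk df_56_ok) (Bad2.splitQ 29300 (by norm_num) (Bad2.chk df_57_ok) (Bad2.chk df_58_ok))) (Bad2.splitQ 37200 (by norm_num) (Bad2.chk df_59_ok) (Bad2.splitQ 41500 (by norm_num) (Bad2.chk df_60_ok) (Bad2.chk df_61_ok))))) (Bad2.splitL 49739 (by norm_num) (Bad2.splitQ 32086 (by norm_num) (Bad2.splitQ 26738 (by norm_num) (Bad2.chk df_62_ok) (Bad2.chk df_63_ok)) (Bad2.splitQ 36600 (by norm_num) (Bad2.chk df_64_ok) (Bad2.splitQ 41200 (by norm_num) (Bad2.chk df_65_ok) (Bad2.chk df_66_ok))))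 (Bad2.splitQ 33000 (by norm_num) (Bad2.splitQ 26000 (by norm_num) (Bad2.chk df_67_ok) (Bad2.splitQ 29300 (by norm_num) (Bad2.chk df_68_ok) (Bad2.chk df_69_ok))) (Bad2.splitQ 41500 (by norm_num) (Bad2.splitQ 37200 (by norm_num) (Bad2.chk df_70_ok) (Bad2.chk df_71_ok)) (Bad2.splitQ 43788 (by norm_num) (Bad2.chk df_72_ok) (Bad2.chk df_73_ok)))))

theorem cvf_3 : Bad2 26 78 22282 46203 41943 58985 64 77 :=
  Bad2.splitU 39 (Bad2.splitL 49739 (by norm_num) (Bad2.splitQ 32086 (by norm_num) (Bad2.splitQ 26738 (by norm_num) (Bad2.chk df_74_ok) (Bad2.chk df_75_ok)) (Bad2.splitQ 36600 (by norm_num) (Bad2.chk df_76_ok) (Bad2.splitQ 41200 (by norm_num) (Bad2.chk df_77_ok) (Bad2.chk df_78_ok)))) (Bad2.splitQ 33000 (by norm_num) (Bad2.splitQ 26000 (by norm_num) (Bad2.chk df_79_ok) (Bad2.splitQ 29300 (by norm_num) (Bad2.chk df_80_ok) (Bad2.chk df_81_ok))) (Bad2.splitQ 37200 (by norm_num) (Bad2.chk df_82_ok)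 (Bad2.splitQ 41500 (by norm_num) (Bad2.chk df_83_ok) (Bad2.chk df_84_ok))))) (Bad2.splitU 58 (Bad2.splitL 49739 (by norm_num) (Bad2.splitQ 35500 (by norm_num) (Bad2.splitQ 28000 (by norm_num) (Bad2.chk df_85_ok) (Bad2.chk df_86_ok)) (Bad2.splitQ 40499 (by norm_num) (Bad2.chk df_87_ok) (Bad2.chk df_88_ok))) (Bad2.splitQ 35500 (by norm_num) (Bad2.splitQ 28000 (by norm_num) (Bad2.chk df_89_ok) (Bad2.chk df_90_ok)) (Bad2.splitQ 40499 (by norm_num) (Bad2.chk df_91_ok) (Bad2.chk df_92_ok)))) (Bad2.splitL 49739 (by norm_num) (Bad2.splitQ 28000 (by norm_num) (Bad2.chk df_93_ok) (Bad2.splitQ 35500 (by norm_num) (Bad2.chk df_94_ok) (Bad2.out (by norm_num)))) (Bad2.splitQ 28000 (by norm_num) (Bad2.chk df_95_ok) (Bad2.splitQ 35500 (by norm_num) (Bad2.chk df_96_ok) (Bad2.out (by norm_num))))))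

theorem cvf_4 : Bad2 0 26 22282 46203 41943 58985 77 96 :=
  Bad2.splitU 13 (Bad2.splitL 49739 (by norm_num) (Bad2.splitQ 32086 (by norm_num) (Bad2.splitQ 26738 (by norm_num) (Bad2.chk df_97_ok) (Bad2.chk df_98_ok)) (Bad2.splitQ 36600 (by norm_num) (Bad2.chk df_99_ok) (Bad2.splitQ 41200 (by norm_num) (Bad2.chk df_100_ok) (Bad2.chk df_101_ok)))) (Bad2.splitQ 33000 (by norm_num) (Bad2.splitQ 26000 (by norm_num) (Bad2.chk df_102_ok) (Bad2.splitQ 29300 (by norm_num) (Bad2.chk df_103_ok) (Bad2.chk df_104_ok))) (Bad2.splitQ 37200 (by norm_num) (Bad2.chk df_105_ok) (Bad2.splitQ 41500 (by norm_num) (Bad2.chk df_106_ok) (Bad2.chk df_107_ok))))) (Bad2.splitL 49739 (by norm_num) (Bad2.splitQ 32086 (by norm_num) (Bad2.splitQ 26738 (by norm_num) (Bad2.chk df_108_ok) (Bad2.chk df_109_ok)) (Bad2.splitQ 36600 (by norm_num) (Bad2.chk df_110_ok) (Bad2.splitQ 41200 (by norm_num) (Bad2.chk df_111_ok) (Bad2.chk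 df_112_ok)))) (Bad2.splitQ 33000 (by norm_num) (Bad2.splitQ 26000 (by norm_num) (Bad2.chk df_113_ok) (Bad2.splitQ 29300 (by norm_num) (Bad2.chk df_114_ok) (Bad2.chk df_115_ok))) (Bad2.splitQ 37200 (by norm_num) (Bad2.chk df_116_ok) (Bad2.splitQ 41500 (by norm_num) (Bad2.chk df_117_ok) (Bad2.chk df_118_ok)))))

theorem cvf_5 : Bad2 26 78 22282 46203 41943 58985 77 96 :=
  Bad2.splitU 39 (Bad2.splitL 49739 (by norm_num) (Bad2.splitQ 32086 (by norm_num) (Bad2.splitQ 26738 (by norm_num) (Bad2.chk df_119_ok) (Bad2.chk df_120_ok)) (Bad2.splitQ 36600 (by norm_num) (Bad2.chk df_121_ok) (Bad2.splitQ 41200 (by norm_num) (Bad2.chk df_122_ok) (Bad2.chk df_123_ok)))) (Bad2.splitQ 33000 (by norm_num) (Bad2.splitQ 26000 (by norm_num) (Bad2.chk df_124_ok) (Bad2.splitQ 29300 (by norm_num) (Bad2.chk df_125_ok) (Bad2.chk df_126_ok))) (Bad2.splitQ 37200 (by norm_num) (Bad2.chk df_127_ok) (Bad2.splitQ 41500 (by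 norm_num) (Bad2.chk df_128_ok) (Bad2.chk df_129_ok))))) (Bad2.splitU 58 (Bad2.splitL 49739 (by norm_num) (Bad2.splitQ 35500 (by norm_num) (Bad2.splitQ 28000 (by norm_num) (Bad2.chk df_130_ok) (Bad2.chk df_131_ok)) (Bad2.splitQ 40499 (by norm_num) (Bad2.chk df_132_ok) (Bad2.chk df_133_ok))) (Bad2.splitQ 35500 (by norm_num) (Bad2.splitQ 28000 (by norm_num) (Bad2.chk df_134_ok) (Bad2.chk df_135_ok)) (Bad2.splitQ 40499 (by norm_num) (Bad2.chk df_136_ok) (Bad2.chk df_137_ok)))) (Bad2.splitL 49739 (by norm_num) (Bad2.splitQ 28000 (by norm_num) (Bad2.chk df_138_ok) (Bad2.splitQ 35500 (by norm_num) (Bad2.chk df_139_ok) (Bad2.out (by norm_num)))) (Bad2.splitQ 28000 (by norm_num) (Bad2.chk df_140_ok) (Bad2.splitQ 35500 (by norm_num) (Bad2.chk df_141_ok) (Bad2.out (by norm_num))))))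

theorem cvf_6 : Bad2 0 26 22282 46203 41943 58985 96 112 :=
  Bad2.splitU 13 (Bad2.splitL 49739 (by norm_num) (Bad2.splitQ 32086 (by norm_num) (Bad2.splitQ 26738 (by norm_num) (Bad2.chk df_142_ok) (Bad2.chk df_143_ok)) (Bad2.splitQ 36600 (by norm_num) (Bad2.chk df_144_ok) (Bad2.splitQ 41200 (by norm_num) (Bad2.chk df_145_ok) (Bad2.chk df_146_ok)))) (Bad2.splitQ 33000 (by norm_num) (Bad2.splitQ 26000 (by norm_num) (Bad2.chk df_147_ok) (Bad2.splitQ 29300 (by norm_num) (Bad2.chk df_148_ok) (Bad2.chk df_149_ok))) (Bad2.splitQ 37200 (by norm_num) (Bad2.chk df_150_ok) (Bad2.splitQ 41500 (by norm_num) (Bad2.chk df_151_ok) (Bad2.chk df_152_ok))))) (Bad2.splitL 49739 (by norm_num) (Bad2.splitQ 32086 (by norm_num) (Bad2.splitQ 26738 (by norm_num) (Bad2.chk df_153_ok) (Bad2.chk df_154_ok)) (Bad2.splitQ 36600 (by norm_num) (Bad2.chk df_155_ok) (Bad2.splitQ 41200 (by norm_num) (Bad2.chk df_156_ok) (Bad2.chk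 df_157_ok)))) (Bad2.splitQ 33000 (by norm_num) (Bad2.splitQ 26000 (by norm_num) (Bad2.chk df_158_ok) (Bad2.splitQ 29300 (by norm_num) (Bad2.chk df_159_ok) (Bad2.chk df_160_ok))) (Bad2.splitQ 37200 (by norm_num) (Bad2.chk df_161_ok) (Bad2.splitQ 41500 (by norm_num) (Bad2.chk df_162_ok) (Bad2.chk df_163_ok)))))

theorem cvf_7 : Bad2 26 78 22282 46203 41943 58985 96 112 :=
  Bad2.splitU 39 (Bad2.splitL 49739 (by norm_num) (Bad2.splitQ 32086 (by norm_num) (Bad2.splitQ 26738 (by norm_num) (Bad2.chk df_164_ok) (Bad2.chk df_165_ok)) (Bad2.splitQ 36600 (by norm_num) (Bad2.chk df_166_ok) (Bad2.splitQ 41200 (by norm_num) (Bad2.chk df_167_ok) (Bad2.chk df_168_ok)))) (Bad2.splitQ 33000 (by norm_num) (Bad2.splitQ 26000 (by norm_num) (Bad2.chk df_169_ok) (Bad2.splitQ 29300 (by norm_num) (Bad2.chk df_170_ok) (Bad2.chk df_171_ok))) (Bad2.splitQ 37200 (by norm_num) (Bad2.chk df_172_ok) (Bad2.splitQ 41500 (by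 norm_num) (Bad2.chk df_173_ok) (Bad2.chk df_174_ok))))) (Bad2.splitU 58 (Bad2.splitL 49739 (by norm_num) (Bad2.splitQ 35500 (by norm_num) (Bad2.splitQ 28000 (by norm_num) (Bad2.chk df_175_ok) (Bad2.chk df_176_ok)) (Bad2.splitQ 40499 (by norm_num) (Bad2.chk df_177_ok) (Bad2.chk df_178_ok))) (Bad2.splitQ 35500 (by norm_num) (Bad2.splitQ 28000 (by norm_num) (Bad2.chk df_179_ok) (Bad2.chk df_180_ok)) (Bad2.splitQ 40499 (by norm_num) (Bad2.chk df_181_ok) (Bad2.chk df_182_ok)))) (Bad2.splitL 49739 (by norm_num) (Bad2.splitQ 28000 (by norm_num) (Bad2.chk df_183_ok) (Bad2.splitQ 35500 (by norm_num) (Bad2.chk df_184_ok) (Bad2.out (by norm_num)))) (Bad2.splitQ 28000 (by norm_num) (Bad2.chk df_185_ok) (Bad2.splitQ 35500 (by norm_num) (Bad2.chk df_186_ok) (Bad2.out (by norm_num))))))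

theorem cvf_8 : Bad2 0 26 22282 46203 41943 58985 112 128 :=
  Bad2.splitU 13 (Bad2.splitL 49739 (by norm_num) (Bad2.splitQ 36600 (by norm_num) (Bad2.splitQ 26738 (by norm_num) (Bad2.chk df_187_ok) (Bad2.splitQ 32086 (by norm_num) (Bad2.chk df_188_ok) (Bad2.chk df_189_ok))) (Bad2.splitQ 41200 (by norm_num) (Bad2.chk df_190_ok) (Bad2.splitQ 43630 (by norm_num) (Bad2.chk df_191_ok) (Bad2.chk df_192_ok)))) (Bad2.splitQ 33000 (by norm_num) (Bad2.splitQ 26000 (by norm_num) (Bad2.chk df_193_ok) (Bad2.splitQ 29300 (by norm_num) (Bad2.chk df_194_ok) (Bad2.chk df_195_ok))) (Bad2.splitQ 37200 (by norm_num) (Bad2.splitQ 35037 (by norm_num) (Bad2.chk df_196_ok) (Bad2.chk df_197_ok)) (Bad2.splitQ 41500 (by norm_num) (Bad2.chk df_198_ok) (Bad2.chk df_199_ok))))) (Bad2.splitL 49739 (by norm_num) (Bad2.splitQ 32086 (by norm_num) (Bad2.splitQ 26738 (by norm_num) (Bad2.chk df_200_ok) (Bad2.chk df_201_ok)) (Bad2.splitQ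 36600 (by norm_num) (Bad2.chk df_202_ok) (Bad2.splitQ 41200 (by norm_num) (Bad2.chk df_203_ok) (Bad2.chk df_204_ok)))) (Bad2.splitQ 33000 (by norm_num) (Bad2.splitQ 26000 (by norm_num) (Bad2.chk df_205_ok) (Bad2.splitQ 29300 (by norm_num) (Bad2.chk df_206_ok) (Bad2.chk df_207_ok))) (Bad2.splitQ 37200 (by norm_num) (Bad2.chk df_208_ok) (Bad2.splitQ 41500 (by norm_num) (Bad2.chk df_209_ok) (Bad2.chk df_210_ok)))))

theorem cvf_9 : Bad2 26 78 22282 46203 41943 58985 112 128 :=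
  Bad2.splitU 39 (Bad2.splitL 49739 (by norm_num) (Bad2.splitQ 32086 (by norm_num) (Bad2.splitQ 26738 (by norm_num) (Bad2.chk df_211_ok) (Bad2.chk df_212_ok)) (Bad2.splitQ 36600 (by norm_num) (Bad2.chk df_213_ok) (Bad2.splitQ 41200 (by norm_num) (Bad2.chk df_214_ok) (Bad2.chk df_215_ok)))) (Bad2.splitQ 33000 (by norm_num) (Bad2.splitQ 26000 (by norm_num) (Bad2.chk df_216_ok) (Bad2.splitQ 29300 (by norm_num) (Bad2.chk df_217_ok) (Bad2.chk df_218_ok))) (Bad2.splitQ 37200 (by norm_num) (Bad2.chk df_219_ok) (Bad2.splitQ 41500 (by norm_num) (Bad2.chk df_220_ok) (Bad2.chk df_221_ok))))) (Bad2.splitU 58 (Bad2.splitL 49739 (by norm_num) (Bad2.splitQ 35500 (by norm_num) (Bad2.splitQ 28000 (by norm_num) (Bad2.chk df_222_ok) (Bad2.chk df_223_ok)) (Bad2.splitQ 40499 (by norm_num) (Bad2.chk df_224_ok) (Bad2.chk df_225_ok))) (Bad2.splitQ 35500 (by norm_num) (Bad2.splitQ 28000 (by norm_num) (Bad2.chk df_226_ok)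 (Bad2.chk df_227_ok)) (Bad2.splitQ 40499 (by norm_num) (Bad2.chk df_228_ok) (Bad2.chk df_229_ok)))) (Bad2.splitL 49739 (by norm_num) (Bad2.splitQ 28000 (by norm_num) (Bad2.chk df_230_ok) (Bad2.splitQ 35500 (by norm_num) (Bad2.chk df_231_ok) (Bad2.out (by norm_num)))) (Bad2.splitQ 28000 (by norm_num) (Bad2.chk df_232_ok) (Bad2.splitQ 35500 (by norm_num) (Bad2.chk df_233_ok) (Bad2.out (by norm_num))))))

theorem cvf_10 : Bad2 0 26 22282 46203 41943 58985 128 160 :=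
  Bad2.splitU 13 (Bad2.splitL 49739 (by norm_num) (Bad2.splitQ 32086 (by norm_num) (Bad2.splitQ 26738 (by norm_num) (Bad2.chk df_234_ok) (Bad2.chk df_235_ok)) (Bad2.splitQ 36600 (by norm_num) (Bad2.chk df_236_ok) (Bad2.splitQ 41200 (by norm_num) (Bad2.chk df_237_ok) (Bad2.chk df_238_ok)))) (Bad2.splitQ 33000 (by norm_num) (Bad2.splitQ 26000 (by norm_num) (Bad2.chk df_239_ok) (Bad2.splitQ 29300 (by norm_num) (Bad2.chk df_240_ok) (Bad2.chk df_241_ok))) (Bad2.splitQ 41500 (by norm_num) (Bad2.splitQ 37200 (by norm_num) (Bad2.chk df_242_ok) (Bad2.chk df_243_ok)) (Bad2.splitQ 43788 (by norm_num) (Bad2.chk df_244_ok) (Bad2.chk df_245_ok))))) (Bad2.splitL 49739 (by norm_num) (Bad2.splitQ 32086 (by norm_num) (Bad2.splitQ 26738 (by norm_num) (Bad2.chk df_246_ok) (Bad2.chk df_247_ok)) (Bad2.splitQ 36600 (by norm_num) (Bad2.chk df_248_ok) (Bad2.splitQ 41200 (by norm_num) (Bad2.chk df_249_ok) (Bad2.chk df_250_ok))))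 (Bad2.splitQ 33000 (by norm_num) (Bad2.splitQ 26000 (by norm_num) (Bad2.chk df_251_ok) (Bad2.splitQ 29300 (by norm_num) (Bad2.chk df_252_ok) (Bad2.chk df_253_ok))) (Bad2.splitQ 37200 (by norm_num) (Bad2.chk df_254_ok) (Bad2.splitQ 41500 (by norm_num) (Bad2.chk df_255_ok) (Bad2.chk df_256_ok)))))

theorem cvf_11 : Bad2 26 78 22282 46203 41943 58985 128 160 :=
  Bad2.splitU 39 (Bad2.splitL 49739 (by norm_num) (Bad2.splitQ 32086 (by norm_num) (Bad2.splitQ 26738 (by norm_num) (Bad2.chk df_257_ok) (Bad2.chk df_258_ok)) (Bad2.splitQ 36600 (by norm_num) (Bad2.chk df_259_ok) (Bad2.splitQ 41200 (by norm_num) (Bad2.chk df_260_ok) (Bad2.chk df_261_ok)))) (Bad2.splitQ 33000 (by norm_num) (Bad2.splitQ 26000 (by norm_num) (Bad2.chk df_262_ok) (Bad2.splitQ 29300 (by norm_num) (Bad2.chk df_263_ok) (Bad2.chk df_264_ok))) (Bad2.splitQ 37200 (by norm_num) (Bad2.chk df_265_ok) (Bad2.splitQ 41500 (by norm_num) (Bad2.chk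 df_266_ok) (Bad2.chk df_267_ok))))) (Bad2.splitU 58 (Bad2.splitL 49739 (by norm_num) (Bad2.splitQ 35500 (by norm_num) (Bad2.splitQ 28000 (by norm_num) (Bad2.chk df_268_ok) (Bad2.chk df_269_ok)) (Bad2.splitQ 40499 (by norm_num) (Bad2.chk df_270_ok) (Bad2.chk df_271_ok))) (Bad2.splitQ 35500 (by norm_num) (Bad2.splitQ 28000 (by norm_num) (Bad2.chk df_272_ok) (Bad2.chk df_273_ok)) (Bad2.splitQ 40499 (by norm_num) (Bad2.chk df_274_ok) (Bad2.chk df_275_ok)))) (Bad2.splitL 49739 (by norm_num) (Bad2.splitQ 28000 (by norm_num) (Bad2.chk df_276_ok) (Bad2.splitQ 35500 (by norm_num) (Bad2.chk df_277_ok) (Bad2.out (by norm_num)))) (Bad2.splitQ 28000 (by norm_num) (Bad2.chk df_278_ok) (Bad2.splitQ 35500 (by norm_num) (Bad2.chk df_279_ok) (Bad2.out (by norm_num))))))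

theorem cvf_12 : Bad2 0 26 22282 46203 41943 58985 160 0 :=
  Bad2.splitU 13 (Bad2.splitL 49739 (by norm_num) (Bad2.splitQ 36600 (by norm_num) (Bad2.splitQ 26738 (by norm_num) (Bad2.chk df_280_ok) (Bad2.splitQ 32086 (by norm_num) (Bad2.chk df_281_ok) (Bad2.chk df_282_ok))) (Bad2.splitQ 41200 (by norm_num) (Bad2.chk df_283_ok) (Bad2.splitQ 43630 (by norm_num) (Bad2.chk df_284_ok) (Bad2.chk df_285_ok)))) (Bad2.splitQ 33000 (by norm_num) (Bad2.splitQ 26000 (by norm_num) (Bad2.chk df_286_ok) (Bad2.splitQ 29300 (by norm_num) (Bad2.chk df_287_ok) (Bad2.chk df_288_ok))) (Bad2.splitQ 41500 (by norm_num) (Bad2.splitQ 37200 (by norm_num) (Bad2.chk df_289_ok) (Bad2.chk df_290_ok)) (Bad2.splitQ 43788 (by norm_num) (Bad2.chk df_291_ok) (Bad2.chk df_292_ok))))) (Bad2.splitL 49739 (by norm_num) (Bad2.splitQ 32086 (by norm_num) (Bad2.splitQ 26738 (by norm_num) (Bad2.chk df_293_ok) (Bad2.chk df_294_ok)) (Bad2.splitQ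 36600 (by norm_num) (Bad2.chk df_295_ok) (Bad2.splitQ 41200 (by norm_num) (Bad2.chk df_296_ok) (Bad2.chk df_297_ok)))) (Bad2.splitQ 33000 (by norm_num) (Bad2.splitQ 26000 (by norm_num) (Bad2.chk df_298_ok) (Bad2.splitQ 29300 (by norm_num) (Bad2.chk df_299_ok) (Bad2.chk df_300_ok))) (Bad2.splitQ 41500 (by norm_num) (Bad2.splitQ 37200 (by norm_num) (Bad2.chk df_301_ok) (Bad2.chk df_302_ok)) (Bad2.splitQ 43788 (by norm_num) (Bad2.chk df_303_ok) (Bad2.chk df_304_ok)))))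

theorem cvf_13 : Bad2 26 78 22282 46203 41943 58985 160 0 :=
  Bad2.splitU 39 (Bad2.splitL 49739 (by norm_num) (Bad2.splitQ 32086 (by norm_num) (Bad2.splitQ 26738 (by norm_num) (Bad2.chk df_305_ok) (Bad2.chk df_306_ok)) (Bad2.splitQ 36600 (by norm_num) (Bad2.chk df_307_ok) (Bad2.splitQ 41200 (by norm_num) (Bad2.chk df_308_ok) (Bad2.chk df_309_ok)))) (Bad2.splitQ 33000 (by norm_num) (Bad2.splitQ 26000 (by norm_num) (Bad2.chk df_310_ok) (Bad2.splitQ 29300 (by norm_num) (Bad2.chk df_311_ok) (Bad2.chk df_312_ok))) (Bad2.splitQ 37200 (by norm_num) (Bad2.chk df_313_ok) (Bad2.splitQ 41500 (by norm_num) (Bad2.chk df_314_ok) (Bad2.chk df_315_ok))))) (Bad2.splitU 58 (Bad2.splitL 49739 (by norm_num) (Bad2.splitQ 35500 (by norm_num) (Bad2.splitQ 28000 (by norm_num) (Bad2.chk df_316_ok) (Bad2.chk df_317_ok)) (Bad2.splitQ 40499 (by norm_num) (Bad2.chk df_318_ok) (Bad2.chk df_319_ok))) (Bad2.splitQ 35500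 (by norm_num) (Bad2.splitQ 28000 (by norm_num) (Bad2.chk df_320_ok) (Bad2.chk df_321_ok)) (Bad2.splitQ 40499 (by norm_num) (Bad2.chk df_322_ok) (Bad2.chk df_323_ok)))) (Bad2.splitL 49739 (by norm_num) (Bad2.splitQ 28000 (by norm_num) (Bad2.chk df_324_ok) (Bad2.splitQ 35500 (by norm_num) (Bad2.chk df_325_ok) (Bad2.out (by norm_num)))) (Bad2.splitQ 28000 (by norm_num) (Bad2.chk df_326_ok) (Bad2.splitQ 35500 (by norm_num) (Bad2.chk df_327_ok) (Bad2.out (by norm_num))))))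

theorem bad_f54 : Bad2 0 78 22282 46203 41943 58985 54 64 :=
  Bad2.splitU 26 (cvf_0) (cvf_1)

theorem bad_f64 : Bad2 0 78 22282 46203 41943 58985 64 77 :=
  Bad2.splitU 26 (cvf_2) (cvf_3)

theorem bad_f77 : Bad2 0 78 22282 46203 41943 58985 77 96 :=
  Bad2.splitU 26 (cvf_4) (cvf_5)

theorem bad_f96 : Bad2 0 78 22282 46203 41943 58985 96 112 :=
  Bad2.splitU 26 (cvf_6) (cvf_7)

theorem bad_f112 : Bad2 0 78 22282 46203 41943 58985 112 128 :=
  Bad2.splitU 26 (cvf_8) (cvf_9)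

theorem bad_f128 : Bad2 0 78 22282 46203 41943 58985 128 160 :=
  Bad2.splitU 26 (cvf_10) (cvf_11)

theorem bad_f160 : Bad2 0 78 22282 46203 41943 58985 160 0 :=
  Bad2.splitU 26 (cvf_12) (cvf_13)

end Pool.Agent.MaxTerm59b
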