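import Pool.Agent.MaxTerm59b.F2A

/-! Extremal matched vertex with a generic right neighbour: positions of the labels (compare `MvC.lean`). The position of
the label `(i, j)` is `nI g b i j = (i - 32) b + (j - 64) g`. -/

namespace Pool.Agent.MaxTerm59b
open Finset Pool.Agent.MaxTerm58

variable {L : LF2} {g b : ℕ} {s t : ℂ}

private theorem F2D_posP (R i j : ℕ) : (posP R i j : ℤ) = max (iI i * R + 64 * jI j) 0 := by
  have h : iI i * R + 64 * jI j = ((i * R + 64 * j : ℕ) : ℤ) - ((32 * R + 4096 : ℕ) : ℤ) := by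
    unfold iI jI
    push_cast
    ring
  rw [h]
  have h2 : posP R i j = (i * R + 64 * j) - (32 * R + 4096) := rfl
  rw [h2]
  generalize i * R + 64 * j = u
  generalize 32 * R + 4096 = w
  omega

private theorem F2D_posN (R i j : ℕ) : (posN R i j : ℤ) = max (-(iI i * R + 64 * jI j)) 0 := by
  have h : iI i * R + 64 * jI j = ((i * R + 64 * j : ℕ) : ℤ) - ((32 * R + 4096 : ℕ) : ℤ) := by
    unfold iI jI
    push_cast
    ring
  rw [h]
  have h2 : posN R i j = (32 * R + 4096) - (i * R + 64 * j) := rfl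
  rw [h2]
  generalize i * R + 64 * j = u
  generalize 32 * R + 4096 = w
  omega

attribute [local irreducible] posP posN

private theorem F2D_aff (α β X Y0 Y1 : ℤ) (h0 : Y0 ≤ X) (h1 : X ≤ Y1) (e0 : 0 ≤ α * Y0 + β)
    (e1 : 0 ≤ α * Y1 + β) : 0 ≤ α * X + β := by
  rcases le_total 0 α with h | h <;> nlinarith

private theorem F2D_minN (u w : ℕ) : minN u w = min u w := by
  have h : minN u w = u - (u - w) := rfl
  rw [h]
  omega

private theorem F2D_fR (p R m : ℕ) (hm : m ≤ fR p R) (hm0 : m ≠ 0) :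
    R < p ∧ (m : ℤ) * R ≤ 256 * ((p : ℤ) - R) := by
  have h1 : fR p R = 256 * (p - R) / R := rfl
  rw [h1] at hm
  have h2 : m * R ≤ 256 * (p - R) := (Nat.mul_le_mul_right R hm).trans (Nat.div_mul_le_self _ _)
  have h3 : R < p := by
    by_contra h
    have : p - R = 0 := by omega
    rw [this] at hm
    simp at hm
    exact hm0 hm
  refine ⟨h3, ?_⟩
  have h4 : ((m * R : ℕ) : ℤ) ≤ ((256 * (p - R) : ℕ) : ℤ) := by exact_mod_cast h2
  push_cast [Nat.cast_sub h3.le] at h4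
  exact h4

private theorem F2D_beq0 {n : ℕ} (h : n ≠ 0) : Nat.beq n 0 = false := by
  rcases n with _ | k
  · exact absurd rfl h
  · rfl

private theorem F2D_n1_zero (L : LF2) (i j : ℕ) (h : L.R1 = 0) :
    n1F L i j = if i < 32 then posN L.R0 i j + 1 else 0 := by
  unfold n1F
  have hb : Nat.beq L.R1 0 = true := by rw [h]; rfl
  rw [hb, cond_true]
  by_cases hi : i < 32
  · have : Nat.blt i 32 = true := by rw [Nat.blt_eq]; exact hi
    rw [this, cond_true, if_pos hi]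
  · have : Nat.blt i 32 = false := by
      rw [Bool.eq_false_iff]
      intro hh
      rw [Nat.blt_eq] at hh
      exact hi hh
    rw [this, cond_false, if_neg hi]

private theorem F2D_p1_zero (L : LF2) (i j : ℕ) (h : L.R1 = 0) :
    p1F L i j = if 32 < i then 1 else 0 := by
  unfold p1F
  have hb : Nat.beq L.R1 0 = true := by rw [h]; rfl
  rw [hb, cond_true]
  by_cases hi : 32 < i
  · have : Nat.blt 32 i = true := by rw [Nat.blt_eq]; exact hi
    rw [this, cond_true, if_pos hi]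
  · have : Nat.blt 32 i = false := by
      rw [Bool.eq_false_iff]
      intro hh
      rw [Nat.blt_eq] at hh
      exact hi hh
    rw [this, cond_false, if_neg hi]

private theorem F2D_n1_pos (L : LF2) (i j : ℕ) (h : L.R1 ≠ 0) : n1F L i j = posN L.R1 i j := by
  unfold n1F
  rw [F2D_beq0 h, cond_false]

private theorem F2D_p1_pos (L : LF2) (i j : ℕ) (h : L.R1 ≠ 0) : p1F L i j = posP L.R1 i j := by
  unfold p1F
  rw [F2D_beq0 h, cond_false]

private theorem F2D_rt (L : LF2) (i j : ℕ) : rtF L i j = true ↔ posN L.R0 i j = 0 ∧ n1F L i j = 0 := by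
  unfold rtF
  constructor
  · intro h
    have h1 : (Nat.beq (posN L.R0 i j) 0 && Nat.beq (n1F L i j) 0) = true := h
    rw [Bool.and_eq_true] at h1
    exact ⟨Nat.eq_of_beq_eq_true h1.1, Nat.eq_of_beq_eq_true h1.2⟩
  · rintro ⟨h1, h2⟩
    rw [h1, h2]
    rfl

private theorem F2D_lt (L : LF2) (i j : ℕ) : ltF L i j = true ↔ posP L.R0 i j = 0 ∧ p1F L i j = 0 := by
  unfold ltF
  constructor
  · intro h
    have h1 : (Nat.beq (posP L.R0 i j) 0 && Nat.beq (p1F L i j) 0) = true := h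
    rw [Bool.and_eq_true] at h1
    exact ⟨Nat.eq_of_beq_eq_true h1.1, Nat.eq_of_beq_eq_true h1.2⟩
  · rintro ⟨h1, h2⟩
    rw [h1, h2]
    rfl

private theorem F2D_posN_zero {R i j : ℕ} (h : posN R i j = 0) : 0 ≤ iI i * R + 64 * jI j := by
  have e := F2D_posN R i j
  rw [h] at e
  have := le_max_left (-(iI i * R + 64 * jI j)) 0
  rw [← e] at this
  simp only [Nat.cast_zero] at this
  linarith

private theorem F2D_posP_zero {R i j : ℕ} (h : posP R i j = 0) : iI i * R + 64 * jI j ≤ 0 := by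
  have e := F2D_posP R i j
  rw [h] at e
  have := le_max_left (iI i * R + 64 * jI j) 0
  rw [← e] at this
  simpa using this

private theorem F2D_r0 (H : InCellF L.U0 L.U1 L.Q0 L.Q1 L.L0 L.L1 L.R0 L.R1 g b s t) :
    (L.R0 : ℤ) * g ≤ 64 * b := by exact_mod_cast H.r0

private theorem F2D_r1 (H : InCellF L.U0 L.U1 L.Q0 L.Q1 L.L0 L.L1 L.R0 L.R1 g b s t) (h : L.R1 ≠ 0) :
    64 * (b : ℤ) ≤ L.R1 * g := by
  rcases H.r1 with h1 | h1
  · exact absurd h1 h
  · exact_mod_cast h1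

private theorem F2D_mX (L : LF2) (i j : ℕ) : mXF L i j = min (fR (posP L.R0 i j) L.R0)
    (cond (Nat.beq L.R1 0) (cond (Nat.blt j 64) (fR (posP L.R0 i j) L.R0) (256 * (i - 33)))
      (fR (p1F L i j) L.R1)) := by
  unfold mXF mexF
  rw [F2D_minN]
  rfl

private theorem F2D_kX (L : LF2) (i j : ℕ) : kXF L i j = min (posN L.R0 i j) (n1F L i j) := by
  unfold kXF
  rw [F2D_minN]

/-- right type. Hint: `nI / g` is affine in `ρ = b / g`; for `R1 = 0` the type is `i > 32`. The exponent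
`(n - b)/b = (i - 33) + (j - 64)/ρ` is affine in `1/ρ`. -/
theorem labF_right (hg : 0 < g) (H : InCellF L.U0 L.U1 L.Q0 L.Q1 L.L0 L.L1 L.R0 L.R1 g b s t) {i j : ℕ}
    (hi : i ≠ 32) (h : rtF L i j = true) :
    0 ≤ nI g b i j ∧
    (mXF L i j = 0 ∨ ((b : ℤ) ≤ nI g b i j ∧ (mXF L i j : ℤ) * b ≤ 256 * (nI g b i j - b))) := by
  have hg0 : (0 : ℤ) ≤ g := Int.natCast_nonneg g
  have hb0 : (0 : ℤ) ≤ b := Int.natCast_nonneg b
  have hr0 := F2D_r0 H
  obtain ⟨h1, h2⟩ := (F2D_rt L i j).1 h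
  have hX0 := F2D_posN_zero h1
  have hends : (L.R1 = 0 ∧ 1 ≤ iI i) ∨ (L.R1 ≠ 0 ∧ 0 ≤ iI i * L.R1 + 64 * jI j) := by
    by_cases h0 : L.R1 = 0
    · left
      refine ⟨h0, ?_⟩
      rw [F2D_n1_zero L i j h0] at h2
      unfold iI
      split_ifs at h2 with h3
      omega
    · right
      refine ⟨h0, ?_⟩
      rw [F2D_n1_pos L i j h0] at h2
      exact F2D_posN_zero h2
  have e0 : (posP L.R0 i j : ℤ) = iI i * L.R0 + 64 * jI j := by
    rw [F2D_posP, max_eq_left hX0]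
  constructor
  · unfold nI
    rcases hends with ⟨h3, h4⟩ | ⟨h3, h4⟩
    · nlinarith [mul_le_mul_of_nonneg_left hr0 (by linarith : (0 : ℤ) ≤ iI i), mul_le_mul_of_nonneg_right hX0 hg0]
    · have hr1 := F2D_r1 H h3
      have := F2D_aff (iI i) (64 * jI j * g) (64 * b) (L.R0 * g) (L.R1 * g) hr0 hr1
        (by nlinarith [mul_nonneg hX0 hg0])
        (by nlinarith [mul_nonneg h4 hg0])
      linarith
  · by_cases hm : mXF L i j = 0
    · exact Or.inl hm
    right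
    suffices h5 : (mXF L i j : ℤ) * b ≤ 256 * (nI g b i j - b) by
      refine ⟨?_, h5⟩
      have : (0 : ℤ) ≤ (mXF L i j : ℤ) * b := by positivity
      linarith
    have hlm := F2D_mX L i j
    have hm0 : mXF L i j ≤ fR (posP L.R0 i j) L.R0 := hlm ▸ min_le_left _ _
    have hm1 : mXF L i j ≤ (cond (Nat.beq L.R1 0) (cond (Nat.blt j 64) (fR (posP L.R0 i j) L.R0)
        (256 * (i - 33))) (fR (p1F L i j) L.R1)) := hlm ▸ min_le_right _ _
    generalize mXF L i j = m at hm hm0 hm1 ⊢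
    obtain ⟨g1, g2⟩ := F2D_fR _ _ m hm0 hm
    rw [e0] at g2
    unfold nI
    rcases hends with ⟨h3, h4⟩ | ⟨h3, h4⟩
    · rw [h3] at hm1
      have hb1 : Nat.beq 0 0 = true := rfl
      rw [hb1, cond_true] at hm1
      by_cases hj : j < 64
      · have hj1 : jI j ≤ -1 := by
          unfold jI
          omega
        have hR0 : (0 : ℤ) < L.R0 := by
          have := H.R0'
          omega
        have hco : 0 < 256 * (iI i - 1) - m := by
          by_contra hc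
          nlinarith
        nlinarith [mul_le_mul_of_nonneg_left hr0 hco.le, mul_le_mul_of_nonneg_right g2 hg0]
      · have hbl : Nat.blt j 64 = false := by
          rw [Bool.eq_false_iff]
          intro hh
          have : j + 1 ≤ 64 := Nat.le_of_ble_eq_true hh
          omega
        rw [hbl, cond_false] at hm1
        have hj1 : 0 ≤ jI j := by
          unfold jI
          omega
        have hm2 : m ≤ 256 * (i - 33) := hm1
        have hm3 : (m : ℤ) ≤ 256 * (iI i - 1) := by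
          unfold iI
          omega
        nlinarith [mul_le_mul_of_nonneg_right hm3 hb0, mul_nonneg hj1 hg0]
    · rw [F2D_beq0 h3, cond_false] at hm1
      obtain ⟨g3, g4⟩ := F2D_fR _ _ m hm1 hm
      have e1 : (p1F L i j : ℤ) = iI i * L.R1 + 64 * jI j := by
        rw [F2D_p1_pos L i j h3, F2D_posP, max_eq_left h4]
      rw [e1] at g4
      have hr1 := F2D_r1 H h3
      have := F2D_aff (256 * (iI i - 1) - m) (256 * (64 * jI j * g)) (64 * b) (L.R0 * g) (L.R1 * g) hr0 hr1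
        (by nlinarith [mul_le_mul_of_nonneg_right g2 hg0])
        (by nlinarith [mul_le_mul_of_nonneg_right g4 hg0])
      linarith

/-- left type -/
theorem labF_left (hg : 0 < g) (H : InCellF L.U0 L.U1 L.Q0 L.Q1 L.L0 L.L1 L.R0 L.R1 g b s t) {i j : ℕ}
    (hi : i ≠ 32) (h : ltF L i j = true) :
    nI g b i j ≤ 0 ∧ (kXF L i j : ℤ) * g ≤ -(64 * nI g b i j) := by
  have hg0 : (0 : ℤ) ≤ g := Int.natCast_nonneg g
  have hr0 := F2D_r0 H
  obtain ⟨h1, h2⟩ := (F2D_lt L i j).1 h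
  have hX0 := F2D_posP_zero h1
  have hends : (L.R1 = 0 ∧ iI i ≤ -1) ∨ (L.R1 ≠ 0 ∧ iI i * L.R1 + 64 * jI j ≤ 0) := by
    by_cases h0 : L.R1 = 0
    · left
      refine ⟨h0, ?_⟩
      rw [F2D_p1_zero L i j h0] at h2
      unfold iI
      split_ifs at h2 with h3
      omega
    · right
      refine ⟨h0, ?_⟩
      rw [F2D_p1_pos L i j h0] at h2
      exact F2D_posP_zero h2
  suffices hmain : (kXF L i j : ℤ) * g ≤ -(64 * nI g b i j) by
    refine ⟨?_, hmain⟩
    have : (0 : ℤ) ≤ (kXF L i j : ℤ) * g := by positivity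
    linarith
  rw [F2D_kX]
  have e0 : (posN L.R0 i j : ℤ) = -(iI i * L.R0 + 64 * jI j) := by
    rw [F2D_posN, max_eq_left (by linarith)]
  have m0 : ((min (posN L.R0 i j) (n1F L i j) : ℕ) : ℤ) ≤ posN L.R0 i j := by
    exact_mod_cast min_le_left _ _
  have m1 : ((min (posN L.R0 i j) (n1F L i j) : ℕ) : ℤ) ≤ n1F L i j := by
    exact_mod_cast min_le_right _ _
  generalize ((min (posN L.R0 i j) (n1F L i j) : ℕ) : ℤ) = m at m0 m1 ⊢
  rw [e0] at m0
  unfold nI
  rcases hends with ⟨h3, h4⟩ | ⟨h3, h4⟩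
  · nlinarith [mul_le_mul_of_nonneg_left hr0 (by linarith : (0 : ℤ) ≤ -iI i), mul_le_mul_of_nonneg_right m0 hg0]
  · have e1 : (n1F L i j : ℤ) = -(iI i * L.R1 + 64 * jI j) := by
      rw [F2D_n1_pos L i j h3, F2D_posN, max_eq_left (by linarith)]
    rw [e1] at m1
    have hr1 := F2D_r1 H h3
    have := F2D_aff (-iI i) (-(64 * jI j * g) - m * g) (64 * b) (L.R0 * g) (L.R1 * g) hr0 hr1
      (by nlinarith [mul_le_mul_of_nonneg_right m0 hg0])
      (by nlinarith [mul_le_mul_of_nonneg_right m1 hg0])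
    linarith

/-- labels `(32, 64 + j)` -/
theorem mexJ_le (hg : 0 < g) (H : InCellF L.U0 L.U1 L.Q0 L.Q1 L.L0 L.L1 L.R0 L.R1 g b s t) (j : ℕ) :
    mexJ L j = 0 ∨ (b ≤ j * g ∧ mexJ L j * b ≤ 256 * (j * g - b)) := by
  have hg0 : (0 : ℤ) ≤ g := Int.natCast_nonneg g
  by_cases hm : mexJ L j = 0
  · exact Or.inl hm
  right
  have hdef : mexJ L j = min (fR (64 * j) L.R0) (cond (Nat.beq L.R1 0) 0 (fR (64 * j) L.R1)) := by
    unfold mexJ
    rw [F2D_minN]
    rfl
  have hm1 : mexJ L j ≤ cond (Nat.beq L.R1 0) 0 (fR (64 * j) L.R1) := hdef ▸ min_le_right _ _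
  generalize mexJ L j = m at hm hm1 ⊢
  have h3 : L.R1 ≠ 0 := by
    intro h0
    rw [h0] at hm1
    have hb1 : Nat.beq 0 0 = true := rfl
    rw [hb1, cond_true] at hm1
    omega
  rw [F2D_beq0 h3, cond_false] at hm1
  obtain ⟨g3, g4⟩ := F2D_fR _ _ m hm1 hm
  have hr1 := F2D_r1 H h3
  push_cast at g4
  have h5 : ((m : ℤ) + 256) * (64 * b) ≤ (m + 256) * (L.R1 * g) :=
    mul_le_mul_of_nonneg_left hr1 (by positivity)
  have h6 : ((m : ℤ) + 256) * (L.R1 * g) ≤ 256 * 64 * (j * g) := by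
    have : ((m : ℤ) + 256) * L.R1 ≤ 256 * 64 * j := by linarith
    have h7 := mul_le_mul_of_nonneg_right this hg0
    linarith
  have h8 : ((m : ℤ) + 256) * b ≤ 256 * (j * g) := by linarith
  have hb0 : (0 : ℤ) ≤ b := Int.natCast_nonneg b
  have hm0 : (0 : ℤ) ≤ (m : ℤ) * b := by positivity
  have h9 : (b : ℤ) ≤ j * g := by linarith
  have h9' : b ≤ j * g := by exact_mod_cast h9
  refine ⟨h9', ?_⟩
  have h10 : ((m * b : ℕ) : ℤ) ≤ ((256 * (j * g - b) : ℕ) : ℤ) := by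
    push_cast [Nat.cast_sub h9']
    linarith
  exact_mod_cast h10

/-- distinct labels with the same position -/
theorem nIF_inj (hg : 0 < g) (hb : 17 * g < 20 * b) (h1 : b ≠ g) (h2 : b ≠ 2 * g) (h3 : b ≠ 3 * g) (h32 : 2 * b ≠ 3 * g)
    {i j i' j' : ℕ} (he : nI g b i j = nI g b i' j') (hc : |jI j - jI j'| ≤ 3) : i = i' ∧ j = j' := by
  unfold nI at he
  have hg0 : (0 : ℤ) < g := by exact_mod_cast hg
  have hb' : (17 : ℤ) * g < 20 * b := by exact_mod_cast hb
  have h1' : (b : ℤ) ≠ g := by exact_mod_cast h1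
  have h2' : (b : ℤ) ≠ 2 * g := by exact_mod_cast h2
  have h3' : (b : ℤ) ≠ 3 * g := by exact_mod_cast h3
  have h32' : (2 : ℤ) * b ≠ 3 * g := by exact_mod_cast h32
  obtain ⟨u, hu⟩ : ∃ u : ℤ, u = iI i - iI i' := ⟨_, rfl⟩
  obtain ⟨w, hw⟩ : ∃ w : ℤ, w = jI j - jI j' := ⟨_, rfl⟩
  rw [← hw] at hc
  have hrel : u * b + w * g = 0 := by
    rw [hu, hw]
    linarith
  have hw3 := abs_le.1 hc
  have hb0 : (0 : ℤ) < b := by linarith
  have hu4 : -4 < u ∧ u < 4 := by
    constructor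
    · by_contra hcon
      push Not at hcon
      have : u * b ≤ -4 * b := mul_le_mul_of_nonneg_right hcon hb0.le
      have h5 : w * g ≤ 3 * g := mul_le_mul_of_nonneg_right hw3.2 hg0.le
      linarith
    · by_contra hcon
      push Not at hcon
      have : 4 * b ≤ u * b := mul_le_mul_of_nonneg_right hcon hb0.le
      have h5 : -3 * g ≤ w * g := mul_le_mul_of_nonneg_right hw3.1 hg0.le
      linarith
  have huw : u = 0 ∧ w = 0 := by
    obtain ⟨c1, c2⟩ := hu4
    obtain ⟨c3, c4⟩ := hw3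
    have hu' : u = -3 ∨ u = -2 ∨ u = -1 ∨ u = 0 ∨ u = 1 ∨ u = 2 ∨ u = 3 := by omega
    have hw' : w = -3 ∨ w = -2 ∨ w = -1 ∨ w = 0 ∨ w = 1 ∨ w = 2 ∨ w = 3 := by omega
    clear c1 c2 c3 c4 hc
    rcases hu' with rfl | rfl | rfl | rfl | rfl | rfl | rfl <;>
      rcases hw' with rfl | rfl | rfl | rfl | rfl | rfl | rfl <;>
      first
        | exact ⟨rfl, rfl⟩
        | (exfalso; clear hu hw; omega)
  have e1 : iI i = iI i' := by linarith [huw.1]
  have e2 : jI j = jI j' := by linarith [huw.2]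
  unfold iI at e1
  unfold jI at e2
  constructor <;> omega

private theorem F2D_ok {P j : ℕ} {y : ℕ × ℕ} (h : okF1 L P j y = true) :
    (1 ≤ y.1 ∧ y.1 ≤ 31 ∧ 34 ≤ y.1 + y.2) ∧
    (L.R0 ≤ posP L.R0 (y.1 + y.2) j ∧ (L.R1 = 0 ∨ L.R1 ≤ posP L.R1 (y.1 + y.2) j)) ∧
    (128 ≤ posN L.R0 (y.1 - 1) j ∧ (L.R1 = 0 ∨ 128 ≤ posN L.R1 (y.1 - 1) j)) := by
  unfold okF1 at h
  simp only [Bool.and_eq_true, Bool.or_eq_true, Nat.ble_eq, Nat.add_eq, Nat.sub_eq] at h
  obtain ⟨⟨a1, a2, a3⟩, -, ⟨b1, b2⟩, ⟨c1, c2⟩⟩ := h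
  refine ⟨⟨a1, a2, a3⟩, ⟨b1, ?_⟩, ⟨c1, ?_⟩⟩
  · rcases b2 with b2 | b2
    · exact Or.inl (Nat.eq_of_beq_eq_true b2)
    · exact Or.inr b2
  · rcases c2 with c2 | c2
    · exact Or.inl (Nat.eq_of_beq_eq_true c2)
    · exact Or.inr c2

/-- a positive `posP` -/
private theorem F2D_P_ge {R i j : ℕ} (hR : 0 < R) (h : R ≤ posP R i j) :
    posN R i j = 0 ∧ (R : ℤ) ≤ iI i * R + 64 * jI j := by
  have e := F2D_posP R i j
  have e2 := F2D_posN R i j
  have h1 : (R : ℤ) ≤ posP R i j := by exact_mod_cast h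
  have hR' : (0 : ℤ) < R := by exact_mod_cast hR
  generalize iI i * R + 64 * jI j = X at e e2 ⊢
  omega

private theorem F2D_N_ge {R i j : ℕ} (h : 128 ≤ posN R i j) : posP R i j = 0 := by
  have e := F2D_posP R i j
  have e2 := F2D_posN R i j
  generalize iI i * R + 64 * jI j = X at e e2 ⊢
  omega

/-- range conditions: omitted labels -/
theorem okF1_up (hg : 0 < g) (H : InCellF L.U0 L.U1 L.Q0 L.Q1 L.L0 L.L1 L.R0 L.R1 g b s t) {P j : ℕ} {y : ℕ × ℕ}
    (hj : 61 ≤ j ∧ j ≤ 67) (h : okF1 L P j y = true) :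
    rtF L (y.1 + y.2) j = true ∧ (b : ℤ) ≤ nI g b (y.1 + y.2) j ∧ 34 ≤ y.1 + y.2 := by
  obtain ⟨⟨-, -, a3⟩, ⟨b1, b2⟩, -⟩ := F2D_ok h
  have hg0 : (0 : ℤ) ≤ g := Int.natCast_nonneg g
  have hr0 := F2D_r0 H
  generalize y.1 + y.2 = i at a3 b1 b2 ⊢
  have hR0 : 0 < L.R0 := by
    have := H.R0'
    omega
  obtain ⟨c1, c2⟩ := F2D_P_ge hR0 b1
  have hiI : 2 ≤ iI i := by
    unfold iI
    omega
  by_cases h0 : L.R1 = 0
  · refine ⟨(F2D_rt L i j).2 ⟨c1, ?_⟩, ?_, a3⟩
    · rw [F2D_n1_zero L i j h0, if_neg (by omega)]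
    · unfold nI
      have h5 : (0 : ℤ) ≤ iI i - 1 := by linarith
      have h6 := mul_le_mul_of_nonneg_left hr0 h5
      have h7 := mul_le_mul_of_nonneg_right c2 hg0
      linarith
  · rcases b2 with b2 | b2
    · exact absurd b2 h0
    · obtain ⟨d1, d2⟩ := F2D_P_ge (Nat.pos_of_ne_zero h0) b2
      refine ⟨(F2D_rt L i j).2 ⟨c1, ?_⟩, ?_, a3⟩
      · rw [F2D_n1_pos L i j h0]
        exact d1
      · have hr1 := F2D_r1 H h0
        have h6 := mul_le_mul_of_nonneg_right c2 hg0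
        have h7 := mul_le_mul_of_nonneg_right d2 hg0
        have := F2D_aff (iI i - 1) (64 * jI j * g) (64 * b) (L.R0 * g) (L.R1 * g) hr0 hr1
          (by linarith) (by linarith)
        unfold nI
        linarith

theorem okF1_down (hg : 0 < g) (H : InCellF L.U0 L.U1 L.Q0 L.Q1 L.L0 L.L1 L.R0 L.R1 g b s t) {P j : ℕ} {y : ℕ × ℕ}
    (hj : 61 ≤ j ∧ j ≤ 67) (h : okF1 L P j y = true) :
    rtF L (y.1 - 1) j = false ∧ ltF L (y.1 - 1) j = true ∧ 128 ≤ kXF L (y.1 - 1) j ∧ 1 ≤ y.1 ∧ y.1 ≤ 31 := by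
  obtain ⟨⟨a1, a2, -⟩, -, ⟨c1, c2⟩⟩ := F2D_ok h
  have hi : y.1 - 1 < 32 := by omega
  generalize y.1 - 1 = i at c1 c2 hi ⊢
  have h1 : rtF L i j = false := by
    rw [Bool.eq_false_iff]
    intro hh
    have := ((F2D_rt L i j).1 hh).1
    omega
  have h2 := F2D_N_ge c1
  refine ⟨h1, (F2D_lt L i j).2 ⟨h2, ?_⟩, ?_, a1, a2⟩
  · by_cases h0 : L.R1 = 0
    · rw [F2D_p1_zero L i j h0, if_neg (by omega)]
    · rw [F2D_p1_pos L i j h0]
      rcases c2 with c2 | c2
      · exact absurd c2 h0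
      · exact F2D_N_ge c2
  · rw [F2D_kX, le_min_iff]
    refine ⟨c1, ?_⟩
    by_cases h0 : L.R1 = 0
    · rw [F2D_n1_zero L i j h0, if_pos hi]
      omega
    · rw [F2D_n1_pos L i j h0]
      rcases c2 with c2 | c2
      · exact absurd c2 h0
      · exact c2

end Pool.Agent.MaxTerm59b
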