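import Pool.Agent.MaxTerm59b.MvDef
import Pool.Agent.MaxTerm59b.SlD

/-! Extremal matched vertex with a generic right neighbour: hypotheses, class functions, labels. -/

namespace Pool.Agent.MaxTerm59b
open Finset Pool.Agent.MaxTerm58

structure HypF (g b : ℕ) (s t : ℂ) (v : ℤ → ℂ) : Prop where
  hg : 0 < g
  hb : 17 * g < 20 * b
  h1 : b ≠ g
  h2 : b ≠ 2 * g
  h3 : b ≠ 3 * g
  h32 : 2 * b ≠ 3 * g
  q1 : ‖s‖ ^ g ≤ 141 / 200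
  G : HypG g b s t v

/-- phase -/
noncomputable def uph (z : ℂ) : ℂ := z / (‖z‖ : ℂ)

/-- the corners `(-2g, -g)` and `(-g, 0)`: one class, power `p` at the position `p g` -/
noncomputable def c1 (g : ℕ) (s t : ℂ) (v : ℤ → ℂ) (_ p : ℤ) : ℂ :=
  v (p * g) * (s ^ (p * g + g).toNat * t ^ (p * g).toNat) * ((uph s ^ g)⁻¹) ^ (p + 1)
noncomputable def c2 (g : ℕ) (s t : ℂ) (v : ℤ → ℂ) (_ p : ℤ) : ℂ :=
  v (p * g) * (s ^ (-(p * g) - g).toNat * t ^ (p * g).toNat)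

/-- the corner `(0, b)`: class `d`, power `p` at the position `d g + p b` -/
noncomputable def c3 (g b : ℕ) (s t : ℂ) (v : ℤ → ℂ) (d p : ℤ) : ℂ :=
  v (d * g + p * b) * (s ^ (-(d * g + p * b) - g).toNat * t ^ (-(d * g + p * b)).toNat) * (uph t ^ g) ^ d

/-- the parameters lie in the cell -/
structure InCellF (U0 U1 Q0 Q1 L0 L1 R0 R1 g b : ℕ) (s t : ℂ) : Prop where
  u : ∃ th : ℝ, thU U1 ≤ th ∧ th ≤ thU U0 ∧ uph s ^ g = Complex.exp (th * Complex.I)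
  q0 : (Q0 : ℝ) ≤ 65536 * ‖s‖ ^ g
  q1 : 65536 * ‖s‖ ^ g ≤ (Q1 : ℝ)
  l0 : (L0 : ℝ) * ‖s‖ ^ g ≤ 65536 * ‖t‖ ^ g
  l1 : 65536 * ‖t‖ ^ g ≤ (L1 : ℝ) * ‖s‖ ^ g
  r0 : R0 * g ≤ 64 * b
  r1 : R1 = 0 ∨ 64 * b ≤ R1 * g
  Q0' : 1024 ≤ Q0
  L0' : 1024 ≤ L0
  R0' : 54 ≤ R0
  Rinf : R1 = 0 → 160 ≤ R0

structure GoodF (L : LF2) : Prop where
  ok : okTF L = true
  q0a : L.q0.a = L.Q0 * 2 ^ 34
  q1a : L.q1.a = L.Q1 * 2 ^ 34
  l0a : L.l0.a = L.L0 * 2 ^ 34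
  l1a : L.l1.a = L.L1 * 2 ^ 34
  Q : 1024 ≤ L.Q0
  L' : 1024 ≤ L.L0

/-- a configuration in a leaf, with its parameters -/
structure CtxF (L : LF2) (g b : ℕ) (s t : ℂ) (v : ℤ → ℂ) (s1 s2 s3 : ℝ) : Prop where
  G : GoodF L
  H : HypF g b s t v
  I : InCellF L.U0 L.U1 L.Q0 L.Q1 L.L0 L.L1 L.R0 L.R1 g b s t
  h1 : |s1| ≤ 1
  h2 : |s2| ≤ 1
  h3 : |s3| ≤ 1
  hth : uph s ^ g = Complex.exp ((ai (thU L.U0) (thU L.U1) s1 : ℝ) * Complex.I)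
  hq : ‖s‖ ^ g = gi ((L.Q0 : ℝ) / 65536) ((L.Q1 : ℝ) / 65536) s2
  hl : ‖t‖ ^ g = ‖s‖ ^ g * gi ((L.L0 : ℝ) / 65536) ((L.L1 : ℝ) / 65536) s3

/-- size `D^(m/256)` as a real number -/
noncomputable def szF (L : LF2) (m : ℕ) (b : Bool) : ℝ :=
  ((cond (Nat.beq m 0) one40 (Nat.succ (powr (cond b L.D1 L.D0) m)) : ℕ) : ℝ) / 2 ^ 40

/-- interpolated size, interpolated value `D^(m/256) Q^(a/64) T^(b/64)` -/
noncomputable def psD (L : LF2) (m : ℕ) (s2 : ℝ) : ℝ := gi (szF L m false) (szF L m true) s2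
noncomputable def psF (L : LF2) (m a b : ℕ) (s2 s3 : ℝ) : ℝ :=
  gi (szF L m false * ((L.Q0 : ℝ) / 65536) ^ ((a + b : ℕ) / 64 : ℝ))
      (szF L m true * ((L.Q1 : ℝ) / 65536) ^ ((a + b : ℕ) / 64 : ℝ)) s2 *
    gi (((L.L0 : ℝ) / 65536) ^ ((b : ℝ) / 64)) (((L.L1 : ℝ) / 65536) ^ ((b : ℝ) / 64)) s3

/-- the bound `D` -/
noncomputable def DtF (L : LF2) (s2 : ℝ) : ℝ := gi ((L.D0.a : ℝ) / 2 ^ 50) ((L.D1.a : ℝ) / 2 ^ 50) s2

/-- data of a label of `C3` with `i ≠ 32` -/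
def p1F (L : LF2) (i j : ℕ) : ℕ := cond (Nat.beq L.R1 0) (cond (Nat.blt 32 i) 1 0) (posP L.R1 i j)
def n1F (L : LF2) (i j : ℕ) : ℕ :=
  cond (Nat.beq L.R1 0) (cond (Nat.blt i 32) (Nat.succ (posN L.R0 i j)) 0) (posN L.R1 i j)
def rtF (L : LF2) (i j : ℕ) : Bool := Bool.and (Nat.beq (posN L.R0 i j) 0) (Nat.beq (n1F L i j) 0)
def ltF (L : LF2) (i j : ℕ) : Bool := Bool.and (Nat.beq (posP L.R0 i j) 0) (Nat.beq (p1F L i j) 0)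
def mXF (L : LF2) (i j : ℕ) : ℕ := mexF L i j (posP L.R0 i j) (p1F L i j)
def kXF (L : LF2) (i j : ℕ) : ℕ := minN (posN L.R0 i j) (n1F L i j)

private theorem F2Def_cond {α β γ : Type} (c : Bool) (f : α → β → γ) (a a' : α) (b b' : β) :
    cond c (f a b) (f a' b') = f (cond c a a') (cond c b b') := by
  cases c <;> rfl

theorem labF_eq0 (L : LF2) (i j : ℕ) :
    labF L i j = labFA L i j (posP L.R0 i j) (posN L.R0 i j) (p1F L i j) (n1F L i j) :=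
  F2Def_cond (Nat.beq L.R1 0) (labFA L i j (posP L.R0 i j) (posN L.R0 i j)) (cond (Nat.blt 32 i) 1 0) (posP L.R1 i j)
    (cond (Nat.blt i 32) (Nat.succ (posN L.R0 i j)) 0) (posN L.R1 i j)

theorem labF_eq (L : LF2) (i j : ℕ) : labF L i j =
    cond (rtF L i j) ⟨inBall L (mXF L i j) j, valF L (mXF L i j) 0 0⟩
      (cond (ltF L i j) ⟨false, valF L 0 (Nat.sub (kXF L i j) 64) (Nat.add (kXF L i j) (Nat.sub (kXF L i j) 128))⟩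
        ⟨false, fun _ _ => one40⟩) := by
  rw [labF_eq0]
  unfold rtF ltF mXF kXF
  generalize posP L.R0 i j = p0
  generalize posN L.R0 i j = n0
  generalize p1F L i j = p1
  generalize n1F L i j = n1
  rfl

/-- value of a label of `C3` -/
noncomputable def psC (L : LF2) (i j : ℕ) (s2 s3 : ℝ) : ℝ :=
  if rtF L i j then psF L (mXF L i j) 0 0 s2 s3
  else if ltF L i j then psF L 0 (kXF L i j - 64) (kXF L i j + (kXF L i j - 128)) s2 s3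
  else 1

/-- normalised unknowns. Labels `(32, 64 + j)`: position `j g`; `(32, 62 - k)`: position `-(2 + k) g` -/
noncomputable def xF (L : LF2) (g b : ℕ) (s t : ℂ) (v : ℤ → ℂ) (s2 s3 : ℝ) (i j : ℕ) : ℂ :=
  if i = 32 then
    (if 64 < j then v (((j - 64 : ℕ) : ℤ) * g) * (uph t ^ g) ^ (j - 64) / (psD L (mexJ L (j - 64)) s2 : ℂ)
    else v (-(2 + ((62 - j : ℕ) : ℤ)) * g) * (uph s ^ g) ^ (62 - j + 1) / (((‖t‖ ^ g) ^ (62 - j) : ℝ) : ℂ))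
  else c3 g b s t v (jI j) (iI i) / (psC L i j s2 s3 : ℂ)

end Pool.Agent.MaxTerm59b
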