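import Pool.Agent.MaxTerm59b.F2B
import Pool.Agent.MaxTerm59b.F2C
import Pool.Agent.MaxTerm59b.F2D

/-! Extremal matched vertex with a generic right neighbour: the normalised unknowns. -/

namespace Pool.Agent.MaxTerm59b
open Finset Pool.Agent.MaxTerm58

private theorem F2E_aff (A0 A1 x : ℝ) (h1 : A1 ≤ x) (h2 : x ≤ A0) : ∃ s : ℝ, |s| ≤ 1 ∧ ai A0 A1 s = x := by
  rcases eq_or_lt_of_le (h1.trans h2) with he | he
  · refine ⟨0, by norm_num, ?_⟩
    unfold ai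
    have : x = A0 := le_antisymm h2 (by rw [← he]; exact h1)
    rw [this, he]
    ring
  · have hd : 0 < A0 - A1 := by linarith
    refine ⟨(A0 + A1 - 2 * x) / (A0 - A1), ?_, ?_⟩
    · rw [abs_le]
      constructor
      · rw [le_div_iff₀ hd]; linarith
      · rw [div_le_iff₀ hd]; linarith
    · unfold ai
      field_simp
      ring

/-- parameters. Hint: `gi_surj` for `Q` and for `T / Q`; the affine equation for `th`. -/
theorem exists_ctxF {L : LF2} {g b : ℕ} {s t : ℂ} {v : ℤ → ℂ} (G : GoodF L) (H : HypF g b s t v)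
    (I : InCellF L.U0 L.U1 L.Q0 L.Q1 L.L0 L.L1 L.R0 L.R1 g b s t) : ∃ s1 s2 s3 : ℝ, CtxF L g b s t v s1 s2 s3 := by
  obtain ⟨th, t1, t2, hth⟩ := I.u
  obtain ⟨s1, h1, e1⟩ := F2E_aff (thU L.U0) (thU L.U1) th t1 t2
  have hQ0 : (0 : ℝ) < (L.Q0 : ℝ) / 65536 := by
    have : (1024 : ℝ) ≤ L.Q0 := by exact_mod_cast G.Q
    positivity
  have hL0 : (0 : ℝ) < (L.L0 : ℝ) / 65536 := by
    have : (1024 : ℝ) ≤ L.L0 := by exact_mod_cast G.L'
    positivity
  have hs := H.s01.2.2.1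
  obtain ⟨s2, h2, e2⟩ := gi_surj ((L.Q0 : ℝ) / 65536) ((L.Q1 : ℝ) / 65536) (‖s‖ ^ g) hQ0
    (by rw [div_le_iff₀ (by norm_num)]; linarith [I.q0])
    (by rw [le_div_iff₀ (by norm_num)]; linarith [I.q1])
  obtain ⟨s3, h3, e3⟩ := gi_surj ((L.L0 : ℝ) / 65536) ((L.L1 : ℝ) / 65536) (‖t‖ ^ g / ‖s‖ ^ g) hL0
    (by rw [div_le_div_iff₀ (by norm_num) hs]; linarith [I.l0])
    (by rw [div_le_div_iff₀ hs (by norm_num)]; linarith [I.l1])
  refine ⟨s1, s2, s3, ⟨G, H, I, h1, h2, h3, ?_, e2.symm, ?_⟩⟩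
  · rw [e1]; exact hth
  · rw [e3]; field_simp

variable {L : LF2} {g b : ℕ} {s t : ℂ} {v : ℤ → ℂ} {s1 s2 s3 : ℝ}

theorem CtxF.D_le (C : CtxF L g b s t v s1 s2 s3) : ‖s‖ ^ g + 1 / 100000 ≤ DtF L s2 := by
  rw [C.hq]
  exact (DtF_facts C.G s2 C.h2).1

/-- `psF_eq` with `Q = ‖s‖ ^ g`, `T = ‖t‖ ^ g` -/
theorem CtxF.psF_eq (C : CtxF L g b s t v s1 s2 s3) (m a c : ℕ) : psF L m a c s2 s3 =
    psD L m s2 * ((‖s‖ ^ g) ^ ((a : ℝ) / 64) * (‖t‖ ^ g) ^ ((c : ℝ) / 64)) :=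
  Pool.Agent.MaxTerm59b.psF_eq C.G m a c s2 s3 (‖s‖ ^ g) (‖t‖ ^ g) C.hq C.hl

private theorem F2E_size (C : CtxF L g b s t v s1 s2 s3) (n : ℤ) (m : ℕ) (h : m = 0 ∨ ((b : ℤ) ≤ n ∧
    (m : ℤ) * b ≤ 256 * (n - b))) : ‖v n‖ ≤ psD L m s2 := by
  rcases h with h | ⟨h1, h2⟩
  · rw [h, psD_zero]
    exact C.H.v_le_one n
  · have h2' : (m : ℝ) * b ≤ 256 * ((n : ℝ) - b) := by exact_mod_cast h2
    have h3 := C.H.size_R n h1 ((m : ℝ) / 256) (by positivity) (by linarith)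
    have hs := C.H.s01.2.2.1
    refine h3.trans (le_trans ?_ (psD_ge C.G s2 C.h2 m))
    exact Real.rpow_le_rpow (by positivity) C.D_le (by positivity)

/-- sizes of the coefficients of the labels `(32, 64 + j)` and of the right labels of `C3` -/
theorem CtxF.size_J (C : CtxF L g b s t v s1 s2 s3) (j : ℕ) : ‖v ((j : ℤ) * g)‖ ≤ psD L (mexJ L j) s2 := by
  refine F2E_size C _ _ ?_
  rcases mexJ_le C.H.hg C.I j with h | ⟨h1, h2⟩
  · exact Or.inl h
  · right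
    have h1' : (b : ℤ) ≤ (j : ℤ) * g := by exact_mod_cast h1
    refine ⟨h1', ?_⟩
    have h3 : ((mexJ L j * b : ℕ) : ℤ) ≤ ((256 * (j * g - b) : ℕ) : ℤ) := by exact_mod_cast h2
    push_cast [Nat.cast_sub h1] at h3
    exact h3

private theorem F2E_nI (g b i j : ℕ) : jI j * (g : ℤ) + iI i * b = nI g b i j := by
  unfold nI
  ring

theorem CtxF.c3_le (C : CtxF L g b s t v s1 s2 s3) {i j : ℕ} (hi : i ≠ 32) :
    ‖c3 g b s t v (jI j) (iI i)‖ ≤ psC L i j s2 s3 := by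
  unfold psC
  split_ifs with h1 h2
  · obtain ⟨h3, h4⟩ := labF_right C.H.hg C.I hi h1
    rw [C.psF_eq, c3_norm C.H.G.t0, F2E_nI]
    have e1 : (-(nI g b i j) - (g : ℤ)).toNat = 0 := by
      apply Int.toNat_of_nonpos
      omega
    have e2 : (-(nI g b i j)).toNat = 0 := by
      apply Int.toNat_of_nonpos
      omega
    rw [e1, e2]
    simp only [pow_zero, mul_one, Nat.cast_zero, zero_div, Real.rpow_zero]
    exact F2E_size C _ _ h4
  · obtain ⟨h3, h4⟩ := labF_left C.H.hg C.I hi h2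
    have h5 := C.H.c3_left (jI j) (iI i) ((kXF L i j : ℝ) / 64) (by positivity) (by
      rw [F2E_nI]
      have : (kXF L i j : ℝ) * g ≤ -(64 * (nI g b i j : ℝ)) := by exact_mod_cast h4
      linarith)
    refine h5.trans (le_of_eq ?_)
    rw [C.psF_eq, psD_zero, one_mul]
    generalize kXF L i j = k
    have e1 : max ((k : ℝ) / 64 - 1) 0 = ((k - 64 : ℕ) : ℝ) / 64 := by
      rcases le_total k 64 with h | h
      · have : (k : ℝ) ≤ 64 := by exact_mod_cast h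
        rw [max_eq_right (by linarith), Nat.sub_eq_zero_of_le h]
        simp
      · have : (64 : ℝ) ≤ k := by exact_mod_cast h
        rw [max_eq_left (by linarith), Nat.cast_sub h]
        push_cast
        ring
    have e2 : max ((k : ℝ) / 64 - 2) 0 = ((k - 128 : ℕ) : ℝ) / 64 := by
      rcases le_total k 128 with h | h
      · have : (k : ℝ) ≤ 128 := by exact_mod_cast h
        rw [max_eq_right (by linarith), Nat.sub_eq_zero_of_le h]
        simp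
      · have : (128 : ℝ) ≤ k := by exact_mod_cast h
        rw [max_eq_left (by linarith), Nat.cast_sub h]
        push_cast
        ring
    have e3 : (k : ℝ) / 64 + ((k - 128 : ℕ) : ℝ) / 64 = ((Nat.add k (Nat.sub k 128) : ℕ) : ℝ) / 64 := by
      rw [Nat.add_eq, Nat.sub_eq, Nat.cast_add]
      ring
    rw [e1, e2, e3]
    rfl
  · exact (C.H.c_le_one (jI j) (iI i)).2.2

private theorem F2E_psF_pos (C : CtxF L g b s t v s1 s2 s3) (m a c : ℕ) : 0 < psF L m a c s2 s3 := by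
  have hs := C.H.s01.2.2.1
  have ht := C.H.t01.2.2.1
  rw [C.psF_eq]
  have := psD_pos (L := L) m s2
  positivity

theorem CtxF.psC_pos (C : CtxF L g b s t v s1 s2 s3) (i j : ℕ) : 0 < psC L i j s2 s3 := by
  unfold psC
  split_ifs
  · exact F2E_psF_pos C _ _ _
  · exact F2E_psF_pos C _ _ _
  · exact one_pos

theorem CtxF.psC_le (C : CtxF L g b s t v s1 s2 s3) (i j : ℕ) :
    psC L i j s2 s3 ≤ ((mx4 (labF L i j).v : ℕ) + 8 : ℝ) / 2 ^ 40 := by
  rw [labF_eq]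
  unfold psC
  rcases h1 : rtF L i j with _ | _
  · rcases h2 : ltF L i j with _ | _
    · simp only [Bool.false_eq_true, if_false, cond_false]
      have : mx4 (fun _ _ => one40) = 2 ^ 40 := by decide
      rw [this]
      norm_num
    · simp only [Bool.false_eq_true, if_false, if_true, cond_false, cond_true]
      exact psF_le C.G _ _ _ s2 s3 C.h2 C.h3
  · simp only [if_true, cond_true]
    exact psF_le C.G _ _ _ s2 s3 C.h2 C.h3

/-- labels of `C3` -/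
theorem CtxF.xF_C (C : CtxF L g b s t v s1 s2 s3) {i j : ℕ} (hi : i ≠ 32) :
    c3 g b s t v (jI j) (iI i) = (psC L i j s2 s3 : ℂ) * xF L g b s t v s2 s3 i j := by
  have h : (psC L i j s2 s3 : ℂ) ≠ 0 := by exact_mod_cast (C.psC_pos i j).ne'
  unfold xF
  rw [if_neg hi]
  field_simp

private theorem F2E_rp (x : ℝ) (n : ℕ) : x ^ (((64 * n : ℕ) : ℝ) / 64) = x ^ n := by
  rw [← Real.rpow_natCast x n]
  congr 1
  push_cast
  ring

/-- labels `(32, 64 + j)` -/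
theorem CtxF.xF_J (C : CtxF L g b s t v s1 s2 s3) (j : ℕ) (hj : 1 ≤ j) :
    c1 g s t v 0 j = (psF L (mexJ L j) (64 * (j + 1)) (64 * j) s2 s3 : ℂ) * xF L g b s t v s2 s3 32 (64 + j) ∧
    c2 g s t v 0 j = (psF L (mexJ L j) 0 (64 * j) s2 s3 : ℂ) * xF L g b s t v s2 s3 32 (64 + j) ∧
    c3 g b s t v j 0 = (psF L (mexJ L j) 0 0 s2 s3 : ℂ) * xF L g b s t v s2 s3 32 (64 + j) := by
  obtain ⟨u1, u2, u3⟩ := C.H.unitJ j hj
  have hD : (psD L (mexJ L j) s2 : ℂ) ≠ 0 := by exact_mod_cast (psD_pos (L := L) (mexJ L j) s2).ne'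
  have hx : xF L g b s t v s2 s3 32 (64 + j) =
      v ((j : ℤ) * g) * (uph t ^ g) ^ j / (psD L (mexJ L j) s2 : ℂ) := by
    unfold xF
    rw [if_pos rfl, if_pos (by omega), Nat.add_sub_cancel_left]
  rw [u1, u2, u3, hx, C.psF_eq, C.psF_eq, C.psF_eq, F2E_rp, F2E_rp]
  simp only [Nat.cast_zero, zero_div, Real.rpow_zero, one_mul, mul_one]
  refine ⟨?_, ?_, ?_⟩
  · push_cast
    field_simp
  · push_cast
    field_simp
  · field_simp

/-- labels `(32, 62 - k)` -/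
theorem CtxF.xF_K (C : CtxF L g b s t v s1 s2 s3) (k : ℕ) (hk : k ≤ 61) :
    c1 g s t v 0 (-(2 + (k : ℤ))) = (psF L 0 0 (64 * k) s2 s3 : ℂ) * xF L g b s t v s2 s3 32 (62 - k) ∧
    c2 g s t v 0 (-(2 + (k : ℤ))) = (psF L 0 (64 * (k + 1)) (64 * k) s2 s3 : ℂ) * xF L g b s t v s2 s3 32 (62 - k) ∧
    (k = 1 → c3 g b s t v (-3) 0 = (psF L 0 128 256 s2 s3 : ℂ) * xF L g b s t v s2 s3 32 (62 - k)) := by
  obtain ⟨u1, u2, u3⟩ := C.H.unitK k
  have ht := C.H.t01.2.2.1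
  have hT : ((‖t‖ ^ g : ℝ) : ℂ) ≠ 0 := by exact_mod_cast ht.ne'
  have hx : xF L g b s t v s2 s3 32 (62 - k) =
      v (-(2 + (k : ℤ)) * g) * (uph s ^ g) ^ (k + 1) / (((‖t‖ ^ g) ^ k : ℝ) : ℂ) := by
    unfold xF
    rw [if_pos rfl, if_neg (by omega)]
    have : 62 - (62 - k) = k := by omega
    rw [this]
  rw [u1, u2, hx, C.psF_eq, C.psF_eq, C.psF_eq, F2E_rp, F2E_rp, psD_zero]
  simp only [Nat.cast_zero, zero_div, Real.rpow_zero, one_mul]
  refine ⟨?_, ?_, ?_⟩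
  · push_cast at hT ⊢
    field_simp
  · push_cast at hT ⊢
    field_simp
  · intro hk1
    subst hk1
    have e1 : (-(2 + ((1 : ℕ) : ℤ))) = -3 := by norm_num
    rw [e1] at u3
    have e2 : (‖s‖ ^ g) ^ (((128 : ℕ) : ℝ) / 64) = (‖s‖ ^ g) ^ 2 := F2E_rp (‖s‖ ^ g) 2
    have e3 : (‖t‖ ^ g) ^ (((256 : ℕ) : ℝ) / 64) = (‖t‖ ^ g) ^ 4 := F2E_rp (‖t‖ ^ g) 4
    rw [e1, u3, e2, e3]
    push_cast at hT ⊢
    field_simp

private theorem F2E_div (z : ℂ) (p : ℝ) (hp : 0 < p) (h : ‖z‖ ≤ p) : ‖z / (p : ℂ)‖ ≤ 1 := by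
  rw [norm_div, Complex.norm_real, Real.norm_eq_abs, abs_of_pos hp, div_le_one hp]
  exact h

theorem CtxF.xF_norm (C : CtxF L g b s t v s1 s2 s3) (i j : ℕ) (h : ¬ (i = 32 ∧ 62 ≤ j ∧ j ≤ 64)) :
    ‖xF L g b s t v s2 s3 i j‖ ≤ 1 := by
  have ht := C.H.t01.2.2.1
  unfold xF
  split_ifs with h1 h2
  · refine F2E_div _ _ (psD_pos _ _) ?_
    rw [norm_mul, norm_pow, norm_pow, uph_norm C.H.G.t0, one_pow, one_pow, mul_one]
    exact C.size_J (j - 64)
  · have hj : j < 62 := by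
      by_contra hc
      exact h ⟨h1, by omega, by omega⟩
    refine F2E_div _ _ (pow_pos ht _) ?_
    rw [norm_mul, norm_pow, norm_pow, uph_norm C.H.G.s0, one_pow, one_pow, mul_one]
    generalize hk : 62 - j = k
    have hg0 : (0 : ℤ) ≤ g := Int.natCast_nonneg g
    have h3 := C.H.size_L (-(2 + (k : ℤ)) * g) (by nlinarith [mul_nonneg (Int.natCast_nonneg k) hg0]) (k : ℝ)
      (by positivity) (by push_cast; nlinarith)
    rwa [Real.rpow_natCast] at h3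
  · exact F2E_div _ _ (C.psC_pos i j) (C.c3_le h1)

end Pool.Agent.MaxTerm59b
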