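import Pool.Agent.MaxTerm59b.MvD

/-! Mismatched vertex with a generic ratio: the balls. -/

namespace Pool.Agent.MaxTerm59b
open Finset Pool.Agent.MaxTerm58

/-- Hint: `u = W / Dt ≤ 1`, `u ^ (2 m) (E - u ^ 2 Dt ^ 2)` is increasing in `u`: its derivative has the sign of
`m (E - u ^ 2 Dt ^ 2) - u ^ 2 Dt ^ 2 ≥ m (E - Dt ^ 2) - Dt ^ 2`. (Or: `log`, Bernoulli.) -/
theorem ball_mono (W Dt E m : ℝ) (h0 : 0 ≤ W) (h1 : W ≤ Dt) (hD : 0 < Dt) (hm : 0 ≤ m)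
    (h : Dt ^ 2 ≤ m * (E - Dt ^ 2)) : (W / Dt) ^ (2 * m) * (E - W ^ 2) ≤ E - Dt ^ 2 := by
  have hD2 : 0 < Dt ^ 2 := by positivity
  have hm0 : 0 < m := by
    rcases hm.lt_or_eq with h2 | h2
    · exact h2
    · rw [← h2] at h
      linarith
  have hF : 0 < E - Dt ^ 2 := by
    by_contra hc
    push Not at hc
    have := mul_nonpos_of_nonneg_of_nonpos hm hc
    linarith
  rcases h0.lt_or_eq with h2 | h2
  · set u := W / Dt with hu
    have hu0 : 0 < u := div_pos h2 hD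
    have hu1 : u ≤ 1 := (div_le_one hD).2 h1
    have hW : W = u * Dt := by
      rw [hu]
      field_simp
    have e1 : u ^ (2 * m) ≤ Real.exp (-(m * (1 - u ^ 2))) := by
      rw [Real.rpow_def_of_pos hu0]
      refine Real.exp_le_exp.2 ?_
      have h3 : Real.log (u ^ 2) ≤ u ^ 2 - 1 := Real.log_le_sub_one_of_pos (by positivity)
      rw [Real.log_pow] at h3
      push_cast at h3
      nlinarith
    have e2 : E - W ^ 2 ≤ (E - Dt ^ 2) * Real.exp (m * (1 - u ^ 2)) := by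
      have h3 : m * (1 - u ^ 2) + 1 ≤ Real.exp (m * (1 - u ^ 2)) := Real.add_one_le_exp _
      have h4 : E - W ^ 2 = (E - Dt ^ 2) + (1 - u ^ 2) * Dt ^ 2 := by
        rw [hW]
        ring
      have hu2 : 0 ≤ 1 - u ^ 2 := by nlinarith
      have h5 : (1 - u ^ 2) * Dt ^ 2 ≤ (1 - u ^ 2) * (m * (E - Dt ^ 2)) :=
        mul_le_mul_of_nonneg_left h hu2
      have h6 : (E - Dt ^ 2) * (m * (1 - u ^ 2) + 1) ≤ (E - Dt ^ 2) * Real.exp (m * (1 - u ^ 2)) :=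
        mul_le_mul_of_nonneg_left h3 hF.le
      rw [h4]
      linarith
    have hEW : 0 ≤ E - W ^ 2 := by
      have : W ^ 2 ≤ Dt ^ 2 := pow_le_pow_left₀ h0 h1 2
      linarith
    calc u ^ (2 * m) * (E - W ^ 2)
        ≤ Real.exp (-(m * (1 - u ^ 2))) * ((E - Dt ^ 2) * Real.exp (m * (1 - u ^ 2))) :=
          mul_le_mul e1 e2 hEW (Real.exp_pos _).le
      _ = (E - Dt ^ 2) * (Real.exp (-(m * (1 - u ^ 2))) * Real.exp (m * (1 - u ^ 2))) := by ring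
      _ = E - Dt ^ 2 := by
          rw [← Real.exp_add]
          simp
  · rw [← h2, zero_div, Real.zero_rpow (by positivity), zero_mul]
    exact hF.le

/-- Abstract ball inequality. `k l` are the indices of the labels `l ∈ S`, `m l` the size exponents; `y ^ g ≤ Dt`,
`‖r i‖ ≤ c i y ^ (i + 1)`; `X l ≤ ‖r (k l)‖ / Dt ^ (m l)`. -/
theorem ball_abs {α : Type} (S : Finset α) (k : α → ℕ) (hk : Set.InjOn k (S : Set α)) (m X : α → ℝ)
    (g : ℕ) (hg : 0 < g) (y Dt E : ℝ) (hy : 0 ≤ y) (hyD : y ^ g ≤ Dt) (hD : 0 < Dt) (hD1 : Dt ≤ 1)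
    (hE : Dt ^ 2 < E) (c : ℕ → ℝ) (hc : ∀ i, 0 ≤ c i) (r : ℕ → ℂ) (hr : ∀ i, ‖r i‖ ≤ c i * y ^ (i + 1))
    (hm0 : ∀ l ∈ S, 0 ≤ m l) (hm : ∀ l ∈ S, m l * g ≤ (k l : ℝ) + 1) (hm2 : ∀ l ∈ S, Dt ^ 2 ≤ m l * (E - Dt ^ 2))
    (hX0 : ∀ l ∈ S, 0 ≤ X l) (hX : ∀ l ∈ S, X l ≤ ‖r (k l)‖ / Dt ^ m l)
    (hB : ∑ i ∈ S.image k, c i ^ 2 ≤ E - y ^ (2 * g)) : ∑ l ∈ S, X l ^ 2 ≤ E - Dt ^ 2 := by
  classical
  set W := y ^ g with hW
  have hW0 : 0 ≤ W := pow_nonneg hy g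
  have hW1 : W ≤ 1 := hyD.trans hD1
  have hg' : (0 : ℝ) < g := by exact_mod_cast hg
  have hWD2 : W ^ 2 ≤ Dt ^ 2 := pow_le_pow_left₀ hW0 hyD 2
  have hEW : 0 < E - W ^ 2 := by linarith
  have hy2 : y ^ (2 * g) = W ^ 2 := by rw [hW, ← pow_mul, mul_comm]
  have key : ∀ l ∈ S, X l ^ 2 ≤ c (k l) ^ 2 * ((E - Dt ^ 2) / (E - W ^ 2)) := by
    intro l hl
    have hDm : 0 < Dt ^ m l := Real.rpow_pos_of_pos hD _
    have h1 : y ^ (k l + 1) ≤ W ^ m l := by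
      have e1 : y ^ (k l + 1) = W ^ (((k l : ℝ) + 1) / g) := by
        rw [hW, ← Real.rpow_natCast y g, ← Real.rpow_mul hy, ← Real.rpow_natCast]
        congr 1
        push_cast
        field_simp
      rw [e1]
      refine Real.rpow_le_rpow_of_exponent_ge' hW0 hW1 (hm0 l hl) ?_
      rw [le_div_iff₀ hg']
      exact hm l hl
    have h2 : X l ≤ c (k l) * (W / Dt) ^ m l := by
      refine (hX l hl).trans ?_
      rw [Real.div_rpow hW0 hD.le, ← mul_div_assoc]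
      refine div_le_div_of_nonneg_right ?_ hDm.le
      exact (hr (k l)).trans (mul_le_mul_of_nonneg_left h1 (hc _))
    have hu0 : 0 ≤ W / Dt := div_nonneg hW0 hD.le
    have h3 : X l ^ 2 ≤ c (k l) ^ 2 * (W / Dt) ^ (2 * m l) := by
      have h4 := pow_le_pow_left₀ (hX0 l hl) h2 2
      refine h4.trans (le_of_eq ?_)
      rw [mul_pow, ← Real.rpow_natCast ((W / Dt) ^ m l) 2, ← Real.rpow_mul hu0]
      congr 2
      push_cast
      ring
    refine h3.trans (mul_le_mul_of_nonneg_left ?_ (sq_nonneg _))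
    rw [le_div_iff₀ hEW]
    exact ball_mono W Dt E (m l) hW0 hyD hD (hm0 l hl) (hm2 l hl)
  refine (Finset.sum_le_sum key).trans ?_
  rw [← Finset.sum_mul, ← Finset.sum_image (f := fun i => c i ^ 2) hk]
  have hq : 0 ≤ (E - Dt ^ 2) / (E - W ^ 2) := div_nonneg (by linarith) hEW.le
  calc (∑ i ∈ S.image k, c i ^ 2) * ((E - Dt ^ 2) / (E - W ^ 2))
      ≤ (E - W ^ 2) * ((E - Dt ^ 2) / (E - W ^ 2)) := by
        refine mul_le_mul_of_nonneg_right ?_ hq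
        rw [← hy2]
        exact hB
    _ = E - Dt ^ 2 := mul_div_cancel₀ _ hEW.ne'

variable {L : LMV} {a b : ℕ} {x : ℂ} {D : ℝ} {v : ℤ → ℂ} {s1 s2 : ℝ}

/-- from `grpL` -/
theorem Ctx.grp_facts (C : Ctx L a b x D v s1 s2) {i j : ℕ} (h : lgrp L i j = true) :
    inWin L (lrt L i j) i j = true ∧ ¬ (lmd L i j = 1 ∧ unitL (lrt L i j) i j = true) ∧ 0 < lm L i j ∧
    lm2 L i j = lm L i j ∧ Dt L s1 ^ 2 < (170919 / 100000 : ℝ) ^ 2 - 2 ∧
    Dt L s1 ^ 2 ≤ (lm L i j : ℝ) / 256 * ((170919 / 100000 : ℝ) ^ 2 - 2 - Dt L s1 ^ 2) ∧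
    (170919 / 100000 : ℝ) ^ 2 - 2 - Dt L s1 ^ 2 ≤ (L.E : ℝ) / 2 ^ 40 := by
  have hl2 : lm2 L i j = lm L i j := by
    unfold lm2
    rw [h]
    unfold m2L
    rw [Bool.not_true, Bool.false_and, Bool.and_false, cond_false]
  have h' := h
  unfold lgrp grpL at h'
  rw [Bool.and_eq_true, Bool.and_eq_true, Bool.and_eq_true, Bool.and_eq_true] at h'
  obtain ⟨⟨a1, a2⟩, -, a4, a5⟩ := h'
  rw [Nat.blt_eq] at a4
  rw [Nat.ble_eq] at a5
  have a5' : 256 * L.D2 ≤ lm L i j * (EF - L.D2) := a5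
  have hD2 : 0 < L.D2 := Nat.succ_pos _
  have hlm : 0 < lm L i j := by
    by_contra hc
    have : lm L i j = 0 := by omega
    rw [this] at a5'
    omega
  obtain ⟨d1, d2, d3, d4⟩ := Dt_lt C.G s1 C.h1
  -- upper bound of the square
  have hup : Dt L s1 ^ 2 ≤ (L.D2 : ℝ) / 2 ^ 40 := by
    have e1 : Dt L s1 ^ 2 ≤ ((L.D1.a : ℝ) / 2 ^ 50) ^ 2 := pow_le_pow_left₀ d3.le d2 2
    have e2 : L.D1.a ^ 2 < L.D2 * 2 ^ 60 := by
      unfold LMV.D2
      have : Nat.shiftRight (Nat.pow L.D1.a 2) 60 = L.D1.a ^ 2 / 2 ^ 60 := Nat.shiftRight_eq_div_pow _ _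
      rw [this]
      have h2 := Nat.div_add_mod (L.D1.a ^ 2) (2 ^ 60)
      have h3 := Nat.mod_lt (L.D1.a ^ 2) (show 0 < 2 ^ 60 by norm_num)
      rw [Nat.succ_eq_add_one, Nat.add_mul, one_mul, mul_comm]
      omega
    have e3 : (L.D1.a : ℝ) ^ 2 < (L.D2 : ℝ) * 2 ^ 60 := by exact_mod_cast e2
    refine e1.trans ?_
    rw [div_pow, div_le_div_iff₀ (by positivity) (by positivity)]
    calc (L.D1.a : ℝ) ^ 2 * 2 ^ 40 ≤ ((L.D2 : ℝ) * 2 ^ 60) * 2 ^ 40 :=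
          mul_le_mul_of_nonneg_right e3.le (by positivity)
      _ = (L.D2 : ℝ) * (2 ^ 50) ^ 2 := by ring
  -- lower bound of the square
  have hlo : ((Nat.shiftRight (Nat.pow (Nat.shiftRight L.D0.a 10) 2) 40 : ℕ) : ℝ) / 2 ^ 40 ≤ Dt L s1 ^ 2 := by
    have e1 : ((L.D0.a : ℝ) / 2 ^ 50) ^ 2 ≤ Dt L s1 ^ 2 := pow_le_pow_left₀ (by positivity) d1 2
    refine le_trans ?_ e1
    have f1 : Nat.shiftRight L.D0.a 10 * 2 ^ 10 ≤ L.D0.a := by
      have : Nat.shiftRight L.D0.a 10 = L.D0.a / 2 ^ 10 := Nat.shiftRight_eq_div_pow _ _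
      rw [this]
      exact Nat.div_mul_le_self _ _
    have f2 : Nat.shiftRight (Nat.pow (Nat.shiftRight L.D0.a 10) 2) 40 * 2 ^ 40 ≤
        (Nat.shiftRight L.D0.a 10) ^ 2 := by
      have : Nat.shiftRight (Nat.pow (Nat.shiftRight L.D0.a 10) 2) 40 =
          (Nat.shiftRight L.D0.a 10) ^ 2 / 2 ^ 40 := Nat.shiftRight_eq_div_pow _ _
      rw [this]
      exact Nat.div_mul_le_self _ _
    set p := Nat.shiftRight L.D0.a 10 with hp
    set q := Nat.shiftRight (Nat.pow p 2) 40 with hq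
    have g1 : (p : ℝ) * 2 ^ 10 ≤ L.D0.a := by exact_mod_cast f1
    have g2 : (q : ℝ) * 2 ^ 40 ≤ (p : ℝ) ^ 2 := by exact_mod_cast f2
    have g3 : ((p : ℝ) * 2 ^ 10) ^ 2 ≤ (L.D0.a : ℝ) ^ 2 := pow_le_pow_left₀ (by positivity) g1 2
    rw [div_pow, div_le_div_iff₀ (by positivity) (by positivity)]
    calc (q : ℝ) * (2 ^ 50) ^ 2 = ((q : ℝ) * 2 ^ 40) * (2 ^ 10) ^ 2 * 2 ^ 40 := by ring
      _ ≤ ((p : ℝ) ^ 2) * (2 ^ 10) ^ 2 * 2 ^ 40 := by gcongr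
      _ = ((p : ℝ) * 2 ^ 10) ^ 2 * 2 ^ 40 := by ring
      _ ≤ (L.D0.a : ℝ) ^ 2 * 2 ^ 40 := mul_le_mul_of_nonneg_right g3 (by positivity)
  have hEF : (EF : ℝ) / 2 ^ 40 ≤ (170919 / 100000 : ℝ) ^ 2 - 2 := by
    unfold EF
    norm_num
  have hE40 : (170919 / 100000 : ℝ) ^ 2 - 2 ≤ ((Nat.succ E40 : ℕ) : ℝ) / 2 ^ 40 := by
    unfold E40
    norm_num
  have a4' : (L.D2 : ℝ) < EF := by exact_mod_cast a4
  have a6 : (256 : ℝ) * L.D2 ≤ (lm L i j : ℝ) * ((EF : ℝ) - L.D2) := by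
    have : ((256 * L.D2 : ℕ) : ℝ) ≤ ((lm L i j * (EF - L.D2) : ℕ) : ℝ) := by exact_mod_cast a5'
    rw [Nat.cast_mul, Nat.cast_mul, Nat.cast_sub a4.le] at this
    exact_mod_cast this
  have hlt : (L.D2 : ℝ) / 2 ^ 40 < (EF : ℝ) / 2 ^ 40 := by
    gcongr
  refine ⟨a1, ?_, hlm, hl2, ?_, ?_, ?_⟩
  · rintro ⟨b1, b2⟩
    rw [Bool.not_eq_true'] at a2
    have b3 : Nat.beq (lmd L i j) 1 = true := by
      rw [b1]
      rfl
    rw [b3, b2] at a2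
    exact absurd a2 (by decide)
  · linarith
  · have g1 : ((EF : ℝ) - L.D2) / 2 ^ 40 ≤ (170919 / 100000 : ℝ) ^ 2 - 2 - Dt L s1 ^ 2 := by
      rw [sub_div]
      linarith
    calc Dt L s1 ^ 2 ≤ (L.D2 : ℝ) / 2 ^ 40 := hup
      _ = (256 * (L.D2 : ℝ)) / 256 / 2 ^ 40 := by ring
      _ ≤ ((lm L i j : ℝ) * ((EF : ℝ) - L.D2)) / 256 / 2 ^ 40 := by gcongr
      _ = (lm L i j : ℝ) / 256 * (((EF : ℝ) - L.D2) / 2 ^ 40) := by ring
      _ ≤ _ := mul_le_mul_of_nonneg_left g1 (by positivity)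
  · have hE : ((Nat.succ E40 : ℕ) : ℝ) -
        ((Nat.shiftRight (Nat.pow (Nat.shiftRight L.D0.a 10) 2) 40 : ℕ) : ℝ) ≤ (L.E : ℝ) := by
      have h9 : Nat.succ E40 ≤ L.E + Nat.shiftRight (Nat.pow (Nat.shiftRight L.D0.a 10) 2) 40 := by
        exact le_tsub_add
      have h10 : ((Nat.succ E40 : ℕ) : ℝ) ≤
          (L.E : ℝ) + ((Nat.shiftRight (Nat.pow (Nat.shiftRight L.D0.a 10) 2) 40 : ℕ) : ℝ) := by
        exact_mod_cast h9
      linarith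
    calc (170919 / 100000 : ℝ) ^ 2 - 2 - Dt L s1 ^ 2
        ≤ ((Nat.succ E40 : ℕ) : ℝ) / 2 ^ 40 -
          ((Nat.shiftRight (Nat.pow (Nat.shiftRight L.D0.a 10) 2) 40 : ℕ) : ℝ) / 2 ^ 40 := by linarith
      _ = (((Nat.succ E40 : ℕ) : ℝ) -
          ((Nat.shiftRight (Nat.pow (Nat.shiftRight L.D0.a 10) 2) 40 : ℕ) : ℝ)) / 2 ^ 40 := by ring
      _ ≤ _ := by gcongr

/-- `L.E` is nonnegative as a bound even if there is no label -/
theorem Ctx.E_ge (C : Ctx L a b x D v s1 s2) : 0 ≤ (L.E : ℝ) / 2 ^ 40 := by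
  positivity

/-- common part of the two balls -/
theorem MvE_ball (C : Ctx L a b x D v s1 s2) (S : Finset (ℕ × ℕ)) (md g : ℕ) (hg : 0 < g) (r : ℕ → ℂ)
    (hO : OutX md g D r) (k : ℕ × ℕ → ℕ) (hk : Set.InjOn k (S : Set (ℕ × ℕ)))
    (hgrp : ∀ l ∈ S, lgrp L l.1 l.2 = true) (h00 : (0, 0) ∉ S)
    (hm : ∀ l ∈ S, (lm L l.1 l.2 : ℝ) / 256 * g ≤ (k l : ℝ) + 1)
    (hX : ∀ l ∈ S, ‖xL L a b x v s1 s2 l.1 l.2‖ ≤ ‖r (k l)‖ / psB L l.1 l.2 s1)
    (h1 : md = 1 → ∀ l ∈ S, k l ≠ g - 1)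
    (hcu : ∀ l ∈ S, md ≠ 1 → (md = 2 → k l + 1 ≠ g) → (lab L l.1 l.2).cu = true) :
    ∃ u : ℕ × ℕ, (u ∈ S → (lab L u.1 u.2).cu = true) ∧
      ∑ l ∈ S.erase u, ‖xL L a b x v s1 s2 l.1 l.2‖ ^ 2 ≤ (L.E : ℝ) / 2 ^ 40 := by
  obtain ⟨d1, d2, d3, d4⟩ := Dt_lt C.G s1 C.h1
  have hDD := C.D_le
  -- the abstract statement for a set of labels
  have main : ∀ (y : ℝ) (c : ℕ → ℝ) (u0 : ℕ), 0 ≤ y → y ^ g ≤ D → (∀ i, 0 ≤ c i) →
      (∀ S : Finset ℕ, u0 ∉ S → ∑ i ∈ S, c i ^ 2 ≤ (170919 / 100000) ^ 2 - 2 - y ^ (2 * g)) →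
      (∀ i, ‖r i‖ ≤ c i * y ^ (i + 1)) → ∀ u : ℕ × ℕ, (∀ l ∈ S.erase u, k l ≠ u0) →
      ∑ l ∈ S.erase u, ‖xL L a b x v s1 s2 l.1 l.2‖ ^ 2 ≤ (L.E : ℝ) / 2 ^ 40 := by
    intro y c u0 hy hyD hc hB hr u hu
    rcases (S.erase u).eq_empty_or_nonempty with he | ⟨l0, hl0⟩
    · rw [he, Finset.sum_empty]
      exact C.E_ge
    · obtain ⟨-, -, -, -, f5, -, f7⟩ := C.grp_facts (hgrp l0 (Finset.mem_of_mem_erase hl0))
      refine le_trans ?_ f7
      refine ball_abs (S.erase u) k (fun l hl l' hl' h => hk (Finset.mem_of_mem_erase hl)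
        (Finset.mem_of_mem_erase hl') h) (fun l => (lm L l.1 l.2 : ℝ) / 256) _ g hg y (Dt L s1) _ hy
        (hyD.trans hDD) d3 d4.le f5 c hc r hr (fun l _ => by positivity)
        (fun l hl => hm l (Finset.mem_of_mem_erase hl))
        (fun l hl => (C.grp_facts (hgrp l (Finset.mem_of_mem_erase hl))).2.2.2.2.2.1)
        (fun l _ => norm_nonneg _) (fun l hl => ?_) (hB _ fun hc' => ?_)
      · have hlS := Finset.mem_of_mem_erase hl
        refine (hX l hlS).trans ?_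
        have h2 := psB_ge C.G s1 C.h1 l.1 l.2
        rw [(C.grp_facts (hgrp l hlS)).2.2.2.1] at h2
        exact div_le_div_of_nonneg_left (norm_nonneg _) (Real.rpow_pos_of_pos d3 _) h2
      · obtain ⟨l, hl, he⟩ := Finset.mem_image.1 hc'
        exact hu l hl he
  -- choice of the exceptional label
  have pick : ∀ u0 : ℕ, (∀ l ∈ S, k l = u0 → (lab L l.1 l.2).cu = true) →
      ∃ u : ℕ × ℕ, (u ∈ S → (lab L u.1 u.2).cu = true) ∧ ∀ l ∈ S.erase u, k l ≠ u0 := by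
    intro u0 hu0
    by_cases h : ∃ l ∈ S, k l = u0
    · obtain ⟨l, hl, he⟩ := h
      refine ⟨l, fun _ => hu0 l hl he, fun l' hl' he' => ?_⟩
      have hl'S := Finset.mem_of_mem_erase hl'
      exact Finset.ne_of_mem_erase hl' (hk hl'S hl (he'.trans he.symm))
    · push Not at h
      exact ⟨(0, 0), fun h' => absurd h' h00, fun l hl => h l (Finset.mem_of_mem_erase hl)⟩
  rcases hO with ⟨hmd, y, c, u0, b1, b2, b3, b4, b5, b6⟩ | ⟨hmd, -, y, c, b1, b2, b3, b4, b5, b6⟩ |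
    ⟨hmd, y, c, u0, b1, b2, b3, b4, b7, b5, b6⟩
  · obtain ⟨u, e1, e2⟩ := pick u0 (fun l hl _ => hcu l hl (by omega) (by omega))
    exact ⟨u, e1, main y c u0 b1 b2 b3 b5 b6 u e2⟩
  · exact ⟨(0, 0), fun h' => absurd h' h00, main y c (g - 1) b1 b2 b3 b5 b6 (0, 0)
      (fun l hl => h1 hmd l (Finset.mem_of_mem_erase hl))⟩
  · obtain ⟨u, e1, e2⟩ := pick u0 (fun l hl he => hcu l hl (by omega) (fun _ => by rw [he]; exact b7))
    exact ⟨u, e1, main y c u0 b1 b2 b3 b5 b6 u e2⟩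

theorem MvE_cu (L : LMV) (i j : ℕ) (h1 : lmd L i j ≠ 1)
    (h2 : lmd L i j = 2 → unitL (lrt L i j) i j = false) : (lab L i j).cu = true := by
  rw [lab_eq]
  show Bool.and (Bool.not (Nat.beq (lmd L i j) 1))
    (Bool.not (Bool.and (Nat.beq (lmd L i j) 2) (unitL (lrt L i j) i j))) = true
  have e1 : Nat.beq (lmd L i j) 1 = false := by
    rw [Bool.eq_false_iff]
    intro h
    exact h1 (Nat.eq_of_beq_eq_true h)
  rw [e1]
  rcases hb : Nat.beq (lmd L i j) 2 with _ | _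
  · rfl
  · rw [h2 (Nat.eq_of_beq_eq_true hb)]
    rfl

/-- right ball. Hint: mode `1`: `u = (0, 0)` (not in `S` as `inWin` needs `63 ≤ j`), no label has the index `b - 1`
(`nI = 2 b` only for the unit label `(34, 64)`); modes `0`, `2`: `u` is the label of the exceptional index of `OutA` or
`OutN`, if there is one. Positions are injective by `nI_inj`. -/
theorem Ctx.ball_R (C : Ctx L a b x D v s1 s2) (S : Finset (ℕ × ℕ))
    (hS : ∀ l ∈ S, LabC L l.1 l.2 ∧ lrt L l.1 l.2 = true ∧ lgrp L l.1 l.2 = true) :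
    ∃ u : ℕ × ℕ, (u ∈ S → (lab L u.1 u.2).cu = true) ∧
      ∑ l ∈ S.erase u, ‖xL L a b x v s1 s2 l.1 l.2‖ ^ 2 ≤ (L.E : ℝ) / 2 ^ 40 := by
  have ha := C.H.ha
  have hab := C.H.hab
  have hb : 0 < b := ha.trans hab
  have hx : x ≠ 0 := C.H.M.x0
  have win : ∀ l ∈ S, 63 ≤ l.2 ∧ l.2 ≤ 66 := by
    intro l hl
    obtain ⟨-, h2, h3⟩ := hS l hl
    have h4 := (C.grp_facts h3).1
    rw [h2] at h4
    unfold inWin at h4
    rw [cond_true, Bool.and_eq_true, Nat.ble_eq, Nat.ble_eq] at h4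
    exact h4
  have pos : ∀ l ∈ S, (b : ℤ) < nI a b l.1 l.2 ∧
      (lm L l.1 l.2 : ℤ) * b ≤ 256 * (nI a b l.1 l.2 - b) := by
    intro l hl
    obtain ⟨h1, h2, h3⟩ := hS l hl
    have h4 : 0 < lm L l.1 l.2 := (C.grp_facts h3).2.2.1
    rcases (lab_size ha hab C.I h1).1 h2 with h5 | ⟨h5, h6⟩
    · omega
    · refine ⟨?_, h6⟩
      have h7 : (1 : ℤ) ≤ (lm L l.1 l.2 : ℤ) * b := by
        have : 1 ≤ lm L l.1 l.2 * b := Nat.mul_pos h4 hb
        exact_mod_cast this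
      omega
  set k : ℕ × ℕ → ℕ := fun l => (nI a b l.1 l.2 - b - 1).toNat with hk
  have kp : ∀ l ∈ S, (k l : ℤ) = nI a b l.1 l.2 - b - 1 := by
    intro l hl
    have := (pos l hl).1
    rw [hk]
    exact Int.toNat_of_nonneg (by omega)
  have hunit : nI a b 34 64 = 2 * b := by
    unfold nI iI jI
    push_cast
    ring
  have unit : ∀ l ∈ S, k l + 1 = b → l.1 = 34 ∧ l.2 = 64 := by
    intro l hl h
    have h1 := kp l hl
    have h2 : nI a b l.1 l.2 = nI a b 34 64 := by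
      rw [hunit]
      omega
    refine nI_inj ha hab C.H.h2 C.H.h3 C.H.h32 C.I h2 (Or.inl ?_)
    have := win l hl
    unfold jI
    rw [abs_le]
    constructor <;> omega
  refine MvE_ball C S L.RM b hb _ C.H.oR k ?_ (fun l hl => (hS l hl).2.2) ?_ ?_ ?_ ?_ ?_
  · intro l hl l' hl' he
    have h1 := kp l hl
    have h2 := kp l' hl'
    have h3 : nI a b l.1 l.2 = nI a b l'.1 l'.2 := by
      rw [he] at h1
      omega
    have h4 := nI_inj ha hab C.H.h2 C.H.h3 C.H.h32 C.I h3 (Or.inl (by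
      have w1 := win l hl
      have w2 := win l' hl'
      unfold jI
      rw [abs_le]
      constructor <;> omega))
    exact Prod.ext h4.1 h4.2
  · intro h
    have := (win _ h).1
    simp at this
  · intro l hl
    have h1 := kp l hl
    have h2 := (pos l hl).2
    have h3 : (lm L l.1 l.2 : ℤ) * b ≤ 256 * ((k l : ℤ) + 1) := by omega
    have h4 : (lm L l.1 l.2 : ℝ) * b ≤ 256 * ((k l : ℝ) + 1) := by exact_mod_cast h3
    linarith
  · intro l hl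
    obtain ⟨h1, h2, h3⟩ := hS l hl
    have h4 : xL L a b x v s1 s2 l.1 l.2 = cR a b x v (jI l.2) (iI l.1) / (psB L l.1 l.2 s1 : ℂ) := by
      unfold xL
      rw [if_pos h2]
    have h5 : jI l.2 * a + iI l.1 * b = nI a b l.1 l.2 := by
      unfold nI
      ring
    have h6 := pos l hl
    have h7 : (-(nI a b l.1 l.2)).toNat = 0 := by
      rw [Int.toNat_eq_zero]
      omega
    rw [h4, norm_div, cR_norm hx, h5, h7, pow_zero, mul_one, Complex.norm_real, Real.norm_eq_abs,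
      abs_of_pos (psB_pos _ _ _)]
    have h8 : (b : ℤ) + 1 + (k l : ℤ) = nI a b l.1 l.2 := by
      rw [kp l hl]
      ring
    show _ ≤ ‖v ((b : ℤ) + 1 + (k l : ℤ))‖ / _
    rw [h8]
  · intro hmd l hl he
    obtain ⟨h1, h2, h3⟩ := hS l hl
    obtain ⟨u1, u2⟩ := unit l hl (by omega)
    refine (C.grp_facts h3).2.1 ⟨?_, ?_⟩
    · unfold lmd
      rw [h2]
      exact hmd
    · rw [h2, u1, u2]
      rfl
  · intro l hl hmd hmd2
    obtain ⟨h1, h2, h3⟩ := hS l hl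
    have h4 : lmd L l.1 l.2 = L.RM := by
      unfold lmd
      rw [h2]
      rfl
    refine MvE_cu L l.1 l.2 (by rw [h4]; exact hmd) (fun h5 => ?_)
    rw [h4] at h5
    rw [h2]
    rw [Bool.eq_false_iff]
    intro h6
    unfold unitL at h6
    rw [cond_true, Bool.and_eq_true] at h6
    have h7 : l.1 = 34 := Nat.eq_of_beq_eq_true h6.1
    have h8 : l.2 = 64 := Nat.eq_of_beq_eq_true h6.2
    refine hmd2 h5 ?_
    have h9 := kp l hl
    rw [h7, h8, hunit] at h9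
    omega

end Pool.Agent.MaxTerm59b
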