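import Pool.Agent.MaxTerm59b.F2E
import Pool.Agent.MaxTerm59b.MvE

/-! Extremal matched vertex with a generic right neighbour: the balls. -/

namespace Pool.Agent.MaxTerm59b
open Finset Pool.Agent.MaxTerm58

variable {L : LF2} {g b : ℕ} {s t : ℂ} {v : ℤ → ℂ} {s1 s2 s3 : ℝ}

/-- from `inBall`, `LF2.ER`, `LF2.EL`, `okTF` -/
theorem CtxF.ball_facts (C : CtxF L g b s t v s1 s2 s3) (m j : ℕ) (h : inBall L m j = true) :
    64 ≤ j ∧ j ≤ 67 ∧ 0 < m ∧ DtF L s2 ^ 2 < (170919 / 100000 : ℝ) ^ 2 - 2 ∧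
    DtF L s2 ^ 2 ≤ (m : ℝ) / 256 * ((170919 / 100000 : ℝ) ^ 2 - 2 - DtF L s2 ^ 2) ∧
    (170919 / 100000 : ℝ) ^ 2 - 2 - DtF L s2 ^ 2 ≤ (L.ER : ℝ) / 2 ^ 40 := by
  unfold inBall at h
  rw [Bool.and_eq_true, Bool.and_eq_true, Bool.and_eq_true, Nat.ble_eq, Nat.ble_eq, Nat.blt_eq, Nat.ble_eq] at h
  obtain ⟨⟨a1, a2⟩, a4, a5⟩ := h
  have a5' : 256 * L.D2 ≤ m * (EF - L.D2) := a5
  have hD2 : 0 < L.D2 := Nat.succ_pos _
  have hlm : 0 < m := by
    by_contra hc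
    have : m = 0 := by omega
    rw [this] at a5'
    omega
  obtain ⟨-, d1, d2, d3, d4⟩ := DtF_facts C.G s2 C.h2
  -- upper bound of the square
  have hup : DtF L s2 ^ 2 ≤ (L.D2 : ℝ) / 2 ^ 40 := by
    have e1 : DtF L s2 ^ 2 ≤ ((L.D1.a : ℝ) / 2 ^ 50) ^ 2 := pow_le_pow_left₀ d3.le d2 2
    have e2 : L.D1.a ^ 2 < L.D2 * 2 ^ 60 := by
      unfold LF2.D2
      have : Nat.shiftRight (Nat.pow L.D1.a 2) 60 = L.D1.a ^ 2 / 2 ^ 60 := Nat.shiftRight_eq_div_pow _ _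
      rw [this]
      have h2 := Nat.div_add_mod (L.D1.a ^ 2) (2 ^ 60)
      have h3 := Nat.mod_lt (L.D1.a ^ 2) (show 0 < 2 ^ 60 by norm_num)
      rw [Nat.succ_eq_add_one, Nat.add_mul, one_mul, mul_comm]
      omega
    have e3 : (L.D1.a : ℝ) ^ 2 < (L.D2 : ℝ) * 2 ^ 60 := by exact_mod_cast e2
    refine e1.trans ?_
    rw [div_pow, div_le_div_iff₀ (by positivity) (by positivity)]
    calc (L.D1.a : ℝ) ^ 2 * 2 ^ 40 ≤ ((L.D2 : ℝ) * 2 ^ 60) * 2 ^ 40 :=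
          mul_le_mul_of_nonneg_right e3.le (by positivity)
      _ = (L.D2 : ℝ) * (2 ^ 50) ^ 2 := by ring
  -- lower bound of the square
  have hlo : ((Nat.shiftRight (Nat.pow (Nat.shiftRight L.D0.a 10) 2) 40 : ℕ) : ℝ) / 2 ^ 40 ≤ DtF L s2 ^ 2 := by
    have e1 : ((L.D0.a : ℝ) / 2 ^ 50) ^ 2 ≤ DtF L s2 ^ 2 := pow_le_pow_left₀ (by positivity) d1 2
    refine le_trans ?_ e1
    have f1 : Nat.shiftRight L.D0.a 10 * 2 ^ 10 ≤ L.D0.a := by
      have : Nat.shiftRight L.D0.a 10 = L.D0.a / 2 ^ 10 := Nat.shiftRight_eq_div_pow _ _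
      rw [this]
      exact Nat.div_mul_le_self _ _
    have f2 : Nat.shiftRight (Nat.pow (Nat.shiftRight L.D0.a 10) 2) 40 * 2 ^ 40 ≤
        (Nat.shiftRight L.D0.a 10) ^ 2 := by
      have : Nat.shiftRight (Nat.pow (Nat.shiftRight L.D0.a 10) 2) 40 =
          (Nat.shiftRight L.D0.a 10) ^ 2 / 2 ^ 40 := Nat.shiftRight_eq_div_pow _ _
      rw [this]
      exact Nat.div_mul_le_self _ _
    set p := Nat.shiftRight L.D0.a 10 with hp
    set q := Nat.shiftRight (Nat.pow p 2) 40 with hq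
    have g1 : (p : ℝ) * 2 ^ 10 ≤ L.D0.a := by exact_mod_cast f1
    have g2 : (q : ℝ) * 2 ^ 40 ≤ (p : ℝ) ^ 2 := by exact_mod_cast f2
    have g3 : ((p : ℝ) * 2 ^ 10) ^ 2 ≤ (L.D0.a : ℝ) ^ 2 := pow_le_pow_left₀ (by positivity) g1 2
    rw [div_pow, div_le_div_iff₀ (by positivity) (by positivity)]
    calc (q : ℝ) * (2 ^ 50) ^ 2 = ((q : ℝ) * 2 ^ 40) * (2 ^ 10) ^ 2 * 2 ^ 40 := by ring
      _ ≤ ((p : ℝ) ^ 2) * (2 ^ 10) ^ 2 * 2 ^ 40 := by gcongr
      _ = ((p : ℝ) * 2 ^ 10) ^ 2 * 2 ^ 40 := by ring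
      _ ≤ (L.D0.a : ℝ) ^ 2 * 2 ^ 40 := mul_le_mul_of_nonneg_right g3 (by positivity)
  have hEF : (EF : ℝ) / 2 ^ 40 ≤ (170919 / 100000 : ℝ) ^ 2 - 2 := by
    unfold EF
    norm_num
  have hE40 : (170919 / 100000 : ℝ) ^ 2 - 2 ≤ ((Nat.succ E40 : ℕ) : ℝ) / 2 ^ 40 := by
    unfold E40
    norm_num
  have a4' : (L.D2 : ℝ) < EF := by exact_mod_cast a4
  have a6 : (256 : ℝ) * L.D2 ≤ (m : ℝ) * ((EF : ℝ) - L.D2) := by
    have : ((256 * L.D2 : ℕ) : ℝ) ≤ ((m * (EF - L.D2) : ℕ) : ℝ) := by exact_mod_cast a5'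
    rw [Nat.cast_mul, Nat.cast_mul, Nat.cast_sub a4.le] at this
    exact_mod_cast this
  have hlt : (L.D2 : ℝ) / 2 ^ 40 < (EF : ℝ) / 2 ^ 40 := by
    gcongr
  refine ⟨a1, a2, hlm, ?_, ?_, ?_⟩
  · linarith
  · have g1 : ((EF : ℝ) - L.D2) / 2 ^ 40 ≤ (170919 / 100000 : ℝ) ^ 2 - 2 - DtF L s2 ^ 2 := by
      rw [sub_div]
      linarith
    calc DtF L s2 ^ 2 ≤ (L.D2 : ℝ) / 2 ^ 40 := hup
      _ = (256 * (L.D2 : ℝ)) / 256 / 2 ^ 40 := by ring
      _ ≤ ((m : ℝ) * ((EF : ℝ) - L.D2)) / 256 / 2 ^ 40 := by gcongr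
      _ = (m : ℝ) / 256 * (((EF : ℝ) - L.D2) / 2 ^ 40) := by ring
      _ ≤ _ := mul_le_mul_of_nonneg_left g1 (by positivity)
  · have hE : ((Nat.succ E40 : ℕ) : ℝ) -
        ((Nat.shiftRight (Nat.pow (Nat.shiftRight L.D0.a 10) 2) 40 : ℕ) : ℝ) ≤ (L.ER : ℝ) := by
      have h9 : Nat.succ E40 ≤ L.ER + Nat.shiftRight (Nat.pow (Nat.shiftRight L.D0.a 10) 2) 40 := by
        exact le_tsub_add
      have h10 : ((Nat.succ E40 : ℕ) : ℝ) ≤
          (L.ER : ℝ) + ((Nat.shiftRight (Nat.pow (Nat.shiftRight L.D0.a 10) 2) 40 : ℕ) : ℝ) := by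
        exact_mod_cast h9
      linarith
    calc (170919 / 100000 : ℝ) ^ 2 - 2 - DtF L s2 ^ 2
        ≤ ((Nat.succ E40 : ℕ) : ℝ) / 2 ^ 40 -
          ((Nat.shiftRight (Nat.pow (Nat.shiftRight L.D0.a 10) 2) 40 : ℕ) : ℝ) / 2 ^ 40 := by linarith
      _ = (((Nat.succ E40 : ℕ) : ℝ) -
          ((Nat.shiftRight (Nat.pow (Nat.shiftRight L.D0.a 10) 2) 40 : ℕ) : ℝ)) / 2 ^ 40 := by ring
      _ ≤ _ := by gcongr

theorem CtxF.EL_facts (C : CtxF L g b s t v s1 s2 s3) :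
    (‖t‖ ^ g) ^ 2 ≤ 46 / 100 ∧ (170919 / 100000 : ℝ) ^ 2 - 2 - (‖t‖ ^ g) ^ 2 ≤ (L.EL : ℝ) / 2 ^ 40 := by
  have hfacts := C.G.facts
  obtain ⟨-, -, -, -, -, -, -, -, -, -, -, -, -, h46, -, -⟩ := hfacts
  have hs := C.I.q1
  have hs0 := C.I.q0
  have ht1 := C.I.l1
  have ht0 := C.I.l0
  set Q : ℝ := ‖s‖ ^ g with hQ
  set T : ℝ := ‖t‖ ^ g with hT
  have hQ0 : 0 ≤ Q := by positivity
  have hT0 : 0 ≤ T := by positivity
  have h46' : 100 * ((L.Q1 : ℝ) * L.L1) ^ 2 ≤ 46 * 2 ^ 64 := by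
    have : ((100 * (L.Q1 * L.L1) ^ 2 : ℕ) : ℝ) ≤ ((46 * 2 ^ 64 : ℕ) : ℝ) := by
      exact_mod_cast h46
    rw [Nat.cast_mul, Nat.cast_pow, Nat.cast_mul] at this
    refine le_trans this (le_of_eq ?_)
    norm_num
  have hTu : T ≤ (L.Q1 : ℝ) * L.L1 / 2 ^ 32 := by
    have e1 : 65536 * T * 65536 ≤ (L.L1 : ℝ) * L.Q1 := by
      calc 65536 * T * 65536 ≤ (L.L1 * Q) * 65536 := mul_le_mul_of_nonneg_right ht1 (by norm_num)
        _ = L.L1 * (65536 * Q) := by ring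
        _ ≤ L.L1 * L.Q1 := mul_le_mul_of_nonneg_left hs (Nat.cast_nonneg _)
    rw [le_div_iff₀ (by positivity)]
    linarith
  have hTl : (L.Q0 : ℝ) * L.L0 / 2 ^ 32 ≤ T := by
    have e1 : (L.L0 : ℝ) * L.Q0 ≤ 65536 * T * 65536 := by
      calc (L.L0 : ℝ) * L.Q0 ≤ L.L0 * (65536 * Q) := mul_le_mul_of_nonneg_left hs0 (Nat.cast_nonneg _)
        _ = (L.L0 * Q) * 65536 := by ring
        _ ≤ (65536 * T) * 65536 := mul_le_mul_of_nonneg_right ht0 (by norm_num)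
    rw [div_le_iff₀ (by positivity)]
    linarith
  refine ⟨?_, ?_⟩
  · have e1 : T ^ 2 ≤ ((L.Q1 : ℝ) * L.L1 / 2 ^ 32) ^ 2 := pow_le_pow_left₀ hT0 hTu 2
    refine e1.trans ?_
    rw [div_pow, div_le_div_iff₀ (by positivity) (by norm_num)]
    linarith
  · have e1 : ((L.Q0 : ℝ) * L.L0 / 2 ^ 32) ^ 2 ≤ T ^ 2 := pow_le_pow_left₀ (by positivity) hTl 2
    have f2 : Nat.shiftRight (Nat.pow (Nat.mul L.Q0 L.L0) 2) 24 * 2 ^ 24 ≤ (L.Q0 * L.L0) ^ 2 := by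
      have : Nat.shiftRight (Nat.pow (Nat.mul L.Q0 L.L0) 2) 24 = (L.Q0 * L.L0) ^ 2 / 2 ^ 24 :=
        Nat.shiftRight_eq_div_pow _ _
      rw [this]
      exact Nat.div_mul_le_self _ _
    have hE9 : Nat.succ E40 ≤ L.EL + Nat.shiftRight (Nat.pow (Nat.mul L.Q0 L.L0) 2) 24 := by
      exact le_tsub_add
    obtain ⟨q, hq⟩ : ∃ q, q = Nat.shiftRight (Nat.pow (Nat.mul L.Q0 L.L0) 2) 24 := ⟨_, rfl⟩
    rw [← hq] at f2 hE9
    have g2 : (q : ℝ) * 2 ^ 24 ≤ ((L.Q0 : ℝ) * L.L0) ^ 2 := by exact_mod_cast f2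
    have g3 : ((Nat.succ E40 : ℕ) : ℝ) ≤ (L.EL : ℝ) + (q : ℝ) := by exact_mod_cast hE9
    have hE40 : (170919 / 100000 : ℝ) ^ 2 - 2 ≤ ((Nat.succ E40 : ℕ) : ℝ) / 2 ^ 40 := by
      unfold E40
      norm_num
    have g4 : (q : ℝ) / 2 ^ 40 ≤ T ^ 2 := by
      refine le_trans ?_ e1
      rw [div_pow, div_le_div_iff₀ (by positivity) (by positivity)]
      calc (q : ℝ) * (2 ^ 32) ^ 2 = ((q : ℝ) * 2 ^ 24) * 2 ^ 40 := by ring
        _ ≤ ((L.Q0 : ℝ) * L.L0) ^ 2 * 2 ^ 40 := mul_le_mul_of_nonneg_right g2 (by positivity)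
    have g5 : ((Nat.succ E40 : ℕ) : ℝ) / 2 ^ 40 ≤ ((L.EL : ℝ) + (q : ℝ)) / 2 ^ 40 :=
      div_le_div_of_nonneg_right g3 (by positivity)
    rw [add_div] at g5
    linarith

/-- right ball (`ball_abs` with the gap `b`; the exceptional label is the one of the index `u` of `OutA`, if there is one) -/
theorem CtxF.ball_R (C : CtxF L g b s t v s1 s2 s3) (S : Finset (ℕ × ℕ))
    (hS : ∀ l ∈ S, (l.1 = 32 ∧ 64 < l.2 ∧ inBall L (mexJ L (l.2 - 64)) l.2 = true) ∨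
      (l.1 ≠ 32 ∧ rtF L l.1 l.2 = true ∧ inBall L (mXF L l.1 l.2) l.2 = true)) :
    ∃ u : ℕ × ℕ, ∑ l ∈ S.erase u, ‖xF L g b s t v s2 s3 l.1 l.2‖ ^ 2 ≤ (L.ER : ℝ) / 2 ^ 40 := by
  classical
  obtain ⟨-, -, -, d3, d4⟩ := DtF_facts C.G s2 C.h2
  have hg := C.H.hg
  have hb : 0 < b := C.H.b0
  have ht : t ≠ 0 := C.H.G.t0
  have hDD := C.D_le
  -- the exponent of a label
  set M : ℕ × ℕ → ℕ := fun l => if l.1 = 32 then mexJ L (l.2 - 64) else mXF L l.1 l.2 with hM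
  have ball : ∀ l ∈ S, inBall L (M l) l.2 = true := by
    intro l hl
    rcases hS l hl with ⟨h1, h2, h3⟩ | ⟨h1, h2, h3⟩
    · rw [hM]
      simp only [h1, if_true]
      exact h3
    · rw [hM]
      simp only [h1, if_false]
      exact h3
  have win : ∀ l ∈ S, 64 ≤ l.2 ∧ l.2 ≤ 67 := by
    intro l hl
    have h := C.ball_facts _ _ (ball l hl)
    exact ⟨h.1, h.2.1⟩
  have pos : ∀ l ∈ S, (b : ℤ) < nI g b l.1 l.2 ∧ (M l : ℤ) * b ≤ 256 * (nI g b l.1 l.2 - b) := by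
    intro l hl
    have h4 : 0 < M l := (C.ball_facts _ _ (ball l hl)).2.2.1
    have h7 : (1 : ℤ) ≤ (M l : ℤ) * b := by
      have : 1 ≤ M l * b := Nat.mul_pos h4 hb
      exact_mod_cast this
    have key : (b : ℤ) ≤ nI g b l.1 l.2 ∧ (M l : ℤ) * b ≤ 256 * (nI g b l.1 l.2 - b) := by
      rcases hS l hl with ⟨h1, h2, h3⟩ | ⟨h1, h2, h3⟩
      · have hMl : M l = mexJ L (l.2 - 64) := by
          rw [hM]
          simp only [h1, if_true]
        have hn : nI g b l.1 l.2 = ((l.2 - 64 : ℕ) : ℤ) * g := by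
          unfold nI iI jI
          rw [h1, Nat.cast_sub h2.le]
          push_cast
          ring
        rw [hMl] at h4 ⊢
        rcases mexJ_le hg C.I (l.2 - 64) with h5 | ⟨h5, h6⟩
        · omega
        · rw [hn]
          have h5' : (b : ℤ) ≤ ((l.2 - 64 : ℕ) : ℤ) * g := by exact_mod_cast h5
          refine ⟨h5', ?_⟩
          have h6' : ((mexJ L (l.2 - 64) * b : ℕ) : ℤ) ≤ ((256 * ((l.2 - 64) * g - b) : ℕ) : ℤ) := by
            exact_mod_cast h6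
          rw [Nat.cast_mul, Nat.cast_mul, Nat.cast_sub h5, Nat.cast_mul] at h6'
          exact h6'
      · have hMl : M l = mXF L l.1 l.2 := by
          rw [hM]
          simp only [h1, if_false]
        rw [hMl] at h4 ⊢
        rcases (labF_right hg C.I h1 h2).2 with h5 | h5
        · omega
        · exact h5
    exact ⟨by omega, key.2⟩
  set k : ℕ × ℕ → ℕ := fun l => (nI g b l.1 l.2 - b - 1).toNat with hk
  have kp : ∀ l ∈ S, (k l : ℤ) = nI g b l.1 l.2 - b - 1 := by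
    intro l hl
    have := (pos l hl).1
    rw [hk]
    exact Int.toNat_of_nonneg (by omega)
  have kinj : ∀ l ∈ S, ∀ l' ∈ S, k l = k l' → l = l' := by
    intro l hl l' hl' he
    have h1 := kp l hl
    have h2 := kp l' hl'
    have h3 : nI g b l.1 l.2 = nI g b l'.1 l'.2 := by
      rw [he] at h1
      omega
    have h4 := nIF_inj hg C.H.hb C.H.h1 C.H.h2 C.H.h3 C.H.h32 h3 (by
      have w1 := win l hl
      have w2 := win l' hl'
      unfold jI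
      rw [abs_le]
      constructor <;> omega)
    exact Prod.ext h4.1 h4.2
  -- size of the unknown
  have hX : ∀ l ∈ S, ‖xF L g b s t v s2 s3 l.1 l.2‖ ≤
      ‖v ((b : ℤ) + 1 + (k l : ℤ))‖ / DtF L s2 ^ ((M l : ℝ) / 256) := by
    intro l hl
    have h8 : (b : ℤ) + 1 + (k l : ℤ) = nI g b l.1 l.2 := by
      rw [kp l hl]
      ring
    rw [h8]
    have hps : DtF L s2 ^ ((M l : ℝ) / 256) ≤ psD L (M l) s2 := psD_ge C.G s2 C.h2 _
    have hpp : 0 < psD L (M l) s2 := psD_pos _ _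
    have hx : ‖xF L g b s t v s2 s3 l.1 l.2‖ = ‖v (nI g b l.1 l.2)‖ / psD L (M l) s2 := by
      rcases hS l hl with ⟨h1, h2, h3⟩ | ⟨h1, h2, h3⟩
      · have hMl : M l = mexJ L (l.2 - 64) := by
          rw [hM]
          simp only [h1, if_true]
        have hn : nI g b l.1 l.2 = ((l.2 - 64 : ℕ) : ℤ) * g := by
          unfold nI iI jI
          rw [h1, Nat.cast_sub h2.le]
          push_cast
          ring
        rw [hn, hMl]
        unfold xF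
        rw [if_pos h1, if_pos h2, norm_div, norm_mul, norm_pow, norm_pow, uph_norm ht, one_pow, one_pow,
          mul_one, Complex.norm_real, Real.norm_eq_abs, abs_of_pos (psD_pos _ _)]
      · have hMl : M l = mXF L l.1 l.2 := by
          rw [hM]
          simp only [h1, if_false]
        have h5 : jI l.2 * g + iI l.1 * b = nI g b l.1 l.2 := by
          unfold nI
          ring
        have h6 := (pos l hl).1
        have h7 : (-(nI g b l.1 l.2)).toNat = 0 := by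
          rw [Int.toNat_eq_zero]
          omega
        have h7' : (-(nI g b l.1 l.2) - g).toNat = 0 := by
          rw [Int.toNat_eq_zero]
          omega
        have hpc : psC L l.1 l.2 s2 s3 = psD L (M l) s2 := by
          unfold psC
          rw [if_pos h2, C.psF_eq, hMl]
          simp
        unfold xF
        rw [if_neg h1, norm_div, c3_norm ht, h5, h7, h7', pow_zero, pow_zero, mul_one, mul_one,
          Complex.norm_real, Real.norm_eq_abs, hpc, abs_of_pos hpp]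
    rw [hx]
    exact div_le_div_of_nonneg_left (norm_nonneg _) (Real.rpow_pos_of_pos d3 _) hps
  obtain ⟨y, c, u0, b1, b2, b3, b4, b5, b6⟩ := C.H.G.oR
  -- choice of the exceptional label
  obtain ⟨u, hu⟩ : ∃ u : ℕ × ℕ, ∀ l ∈ S.erase u, k l ≠ u0 := by
    by_cases h : ∃ l ∈ S, k l = u0
    · obtain ⟨l, hl, he⟩ := h
      refine ⟨l, fun l' hl' he' => ?_⟩
      have hl'S := Finset.mem_of_mem_erase hl'
      exact Finset.ne_of_mem_erase hl' (kinj _ hl'S _ hl (he'.trans he.symm))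
    · push Not at h
      exact ⟨(0, 0), fun l hl => h l (Finset.mem_of_mem_erase hl)⟩
  refine ⟨u, ?_⟩
  rcases (S.erase u).eq_empty_or_nonempty with he | ⟨l0, hl0⟩
  · rw [he, Finset.sum_empty]
    positivity
  · obtain ⟨-, -, -, f5, -, f7⟩ := C.ball_facts _ _ (ball l0 (Finset.mem_of_mem_erase hl0))
    refine le_trans ?_ f7
    refine ball_abs (S.erase u) k (fun l hl l' hl' h => kinj _ (Finset.mem_of_mem_erase hl) _
      (Finset.mem_of_mem_erase hl') h) (fun l => (M l : ℝ) / 256) _ b hb y (DtF L s2) _ b1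
      (b2.trans hDD) d3 d4.le f5 c b3 _ b6 (fun l _ => by positivity) (fun l hl => ?_)
      (fun l hl => (C.ball_facts _ _ (ball l (Finset.mem_of_mem_erase hl))).2.2.2.2.1)
      (fun l _ => norm_nonneg _) (fun l hl => hX l (Finset.mem_of_mem_erase hl)) (b5 _ fun hc' => ?_)
    · have hlS := Finset.mem_of_mem_erase hl
      have h1 := kp l hlS
      have h2 := (pos l hlS).2
      have h3 : (M l : ℤ) * b ≤ 256 * ((k l : ℤ) + 1) := by omega
      have h4 : (M l : ℝ) * b ≤ 256 * ((k l : ℝ) + 1) := by exact_mod_cast h3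
      show (M l : ℝ) / 256 * b ≤ (k l : ℝ) + 1
      linarith
    · obtain ⟨l, hl, he⟩ := Finset.mem_image.1 hc'
      exact hu l hl he

end Pool.Agent.MaxTerm59b
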