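import Pool.Agent.MaxTerm59b.F2F

/-! Extremal matched vertex with a generic right neighbour: the balls. -/

namespace Pool.Agent.MaxTerm59b
open Finset Pool.Agent.MaxTerm58

variable {L : LF2} {g b : ℕ} {s t : ℂ} {v : ℤ → ℂ} {s1 s2 s3 : ℝ}

/-- left ball (`ball_abs` with the gap `g`, `Dt = ‖t‖ ^ g`, exponents `m l = 62 - l.2 ≥ 1`). `OutN` gives `u + 1 ≠ g`, so
the label `(32, 61)` (position `-3 g`, index `g - 1`) is not exceptional. -/
theorem CtxF.ball_L (C : CtxF L g b s t v s1 s2 s3) (S : Finset (ℕ × ℕ)) (hS : ∀ l ∈ S, l.1 = 32 ∧ l.2 < 62) :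
    ∃ u : ℕ × ℕ, (u ∈ S → u.2 ≤ 60) ∧
      ∑ l ∈ S.erase u, ‖xF L g b s t v s2 s3 l.1 l.2‖ ^ 2 ≤ (L.EL : ℝ) / 2 ^ 40 := by
  classical
  have hg : 0 < g := C.H.hg
  have hgr : (0 : ℝ) < g := by exact_mod_cast hg
  obtain ⟨y, c, u, hy, hyD, hc, -, hug, hB, hr⟩ := C.H.G.oL
  have hs : s ≠ 0 := C.H.G.s0
  have ht : t ≠ 0 := C.H.G.t0
  have htp : 0 < ‖t‖ ^ g := pow_pos (norm_pos_iff.2 ht) g
  obtain ⟨ht2, hEL⟩ := C.EL_facts
  have hE : (92 / 100 : ℝ) < (170919 / 100000 : ℝ) ^ 2 - 2 := by norm_num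
  have ht1 : ‖t‖ ^ g ≤ 1 := by nlinarith
  set k : ℕ × ℕ → ℕ := fun l => (62 - l.2) * g - 1 with hk
  have kp : ∀ l ∈ S, k l + 1 = (62 - l.2) * g ∧ 1 ≤ 62 - l.2 := by
    intro l hl
    have h1 := (hS l hl).2
    have h2 : 1 ≤ 62 - l.2 := by omega
    have h3 : 1 ≤ (62 - l.2) * g := Nat.mul_pos h2 hg
    refine ⟨?_, h2⟩
    show (62 - l.2) * g - 1 + 1 = _
    omega
  have kinj : Set.InjOn k (S : Set (ℕ × ℕ)) := by
    intro l hl l' hl' he
    have h1 := (kp l hl).1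
    have h2 := (kp l' hl').1
    have h3 : (62 - l.2) * g = (62 - l'.2) * g := by rw [← h1, ← h2, he]
    have h4 := Nat.eq_of_mul_eq_mul_right hg h3
    obtain ⟨a1, a2⟩ := hS l hl
    obtain ⟨b1, b2⟩ := hS l' hl'
    exact Prod.ext (a1.trans b1.symm) (by omega)
  have main : ∀ w : ℕ × ℕ, (∀ l ∈ S.erase w, k l ≠ u) →
      ∑ l ∈ S.erase w, ‖xF L g b s t v s2 s3 l.1 l.2‖ ^ 2 ≤ (L.EL : ℝ) / 2 ^ 40 := by
    intro w hw
    refine le_trans ?_ hEL
    refine ball_abs (S.erase w) k (fun l hl l' hl' h => kinj (Finset.mem_of_mem_erase hl)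
      (Finset.mem_of_mem_erase hl') h) (fun l => ((62 - l.2 : ℕ) : ℝ)) _ g hg y (‖t‖ ^ g) _ hy hyD htp ht1
      (by linarith) c hc (fun i => v (-(2 * (g : ℤ)) - 1 - (i : ℤ))) hr (fun l _ => Nat.cast_nonneg _)
      (fun l hl => ?_) (fun l hl => ?_) (fun l _ => norm_nonneg _) (fun l hl => ?_) (hB _ fun hc' => ?_)
    · have h1 := (kp l (Finset.mem_of_mem_erase hl)).1
      have h2 : ((k l : ℝ) + 1) = ((62 - l.2 : ℕ) : ℝ) * g := by exact_mod_cast h1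
      exact h2.symm.le
    · have h1 : (1 : ℝ) ≤ ((62 - l.2 : ℕ) : ℝ) := by
        exact_mod_cast (kp l (Finset.mem_of_mem_erase hl)).2
      nlinarith
    · have hlS := Finset.mem_of_mem_erase hl
      obtain ⟨a1, a2⟩ := hS l hlS
      have h1 := (kp l hlS).1
      have hun : ‖uph s ^ g‖ = 1 := by rw [norm_pow, uph_norm hs, one_pow]
      have h3 : xF L g b s t v s2 s3 l.1 l.2 =
          v (-(2 + ((62 - l.2 : ℕ) : ℤ)) * g) * (uph s ^ g) ^ (62 - l.2 + 1) /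
            (((‖t‖ ^ g) ^ (62 - l.2) : ℝ) : ℂ) := by
        unfold xF
        rw [if_pos a1, if_neg (by omega)]
      have h4 : -(2 * (g : ℤ)) - 1 - (k l : ℤ) = -(2 + ((62 - l.2 : ℕ) : ℤ)) * g := by
        have h5 : (k l : ℤ) + 1 = ((62 - l.2 : ℕ) : ℤ) * g := by exact_mod_cast h1
        linarith
      show _ ≤ ‖v (-(2 * (g : ℤ)) - 1 - (k l : ℤ))‖ / _
      rw [h4, h3, norm_div, norm_mul, norm_pow (uph s ^ g), hun, one_pow, mul_one, Complex.norm_real,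
        Real.norm_eq_abs, abs_of_pos (pow_pos htp _), Real.rpow_natCast]
    · obtain ⟨l, hl, he⟩ := Finset.mem_image.1 hc'
      exact hw l hl he
  by_cases h : ∃ l ∈ S, k l = u
  · obtain ⟨l, hl, he⟩ := h
    refine ⟨l, fun _ => ?_, main l fun l' hl' he' => ?_⟩
    · have h1 := (kp l hl).1
      have h2 := (hS l hl).2
      by_contra hcon
      have h3 : l.2 = 61 := by omega
      rw [h3] at h1
      apply hug
      rw [← he, h1]
      norm_num
    · exact Finset.ne_of_mem_erase hl' (kinj (Finset.mem_of_mem_erase hl') hl (he'.trans he.symm))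
  · push Not at h
    exact ⟨(0, 0), fun _ => by norm_num, main (0, 0) fun l hl => h l (Finset.mem_of_mem_erase hl)⟩

end Pool.Agent.MaxTerm59b
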