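import Pool.Agent.MaxTerm59b.MvD

/-! Mismatched vertex with a generic ratio: the tails. -/

namespace Pool.Agent.MaxTerm59b
open Finset Pool.Agent.MaxTerm58

theorem geo_ge (v om : ℕ) (V q : ℝ) (hom : 0 < om) (hV0 : 0 ≤ V) (hV : V ≤ (v : ℝ) / 2 ^ 40) (hq0 : 0 ≤ q)
    (hq : (om : ℝ) / 2 ^ 40 ≤ 1 - q) : V / (1 - q) ≤ (geo v om : ℝ) / 2 ^ 40 := by
  have hom' : (0 : ℝ) < om := by exact_mod_cast hom
  have h1 : geo v om = v * 2 ^ 40 / om + 1 := by
    show Nat.succ (Nat.div (Nat.shiftLeft v 40) om) = _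
    have : Nat.shiftLeft v 40 = v * 2 ^ 40 := Nat.shiftLeft_eq v 40
    rw [this]
    rfl
  have h2 : V / (1 - q) ≤ V / ((om : ℝ) / 2 ^ 40) := div_le_div_of_nonneg_left hV0 (by positivity) hq
  have h3 : V / ((om : ℝ) / 2 ^ 40) ≤ ((v : ℝ) / 2 ^ 40) / ((om : ℝ) / 2 ^ 40) :=
    div_le_div_of_nonneg_right hV (by positivity)
  have h4 : ((v : ℝ) / 2 ^ 40) / ((om : ℝ) / 2 ^ 40) = ((v : ℝ) * 2 ^ 40 / om) / 2 ^ 40 := by
    field_simp
  have h5 : (v : ℝ) * 2 ^ 40 / om ≤ (geo v om : ℝ) := by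
    rw [h1, div_le_iff₀ hom']
    have h6 : v * 2 ^ 40 < (v * 2 ^ 40 / om + 1) * om := by
      have := Nat.lt_mul_div_succ (v * 2 ^ 40) hom
      rw [mul_comm (v * 2 ^ 40 / om + 1) om]
      exact this
    have h7 : ((v * 2 ^ 40 : ℕ) : ℝ) ≤ (((v * 2 ^ 40 / om + 1) * om : ℕ) : ℝ) := by exact_mod_cast h6.le
    rw [Nat.cast_mul, Nat.cast_mul, Nat.cast_pow, Nat.cast_ofNat] at h7
    exact h7
  calc V / (1 - q) ≤ ((v : ℝ) * 2 ^ 40 / om) / 2 ^ 40 := by
        rw [← h4]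
        exact h2.trans h3
    _ ≤ (geo v om : ℝ) / 2 ^ 40 := div_le_div_of_nonneg_right h5 (by positivity)

/-- a sum over integers at or above `p0` dominated by a geometric series -/
theorem tail_up (f : ℤ → ℝ) (p0 : ℤ) (V q : ℝ) (hq0 : 0 ≤ q) (hq1 : q < 1) (hf0 : ∀ p, 0 ≤ f p)
    (hf : ∀ k : ℕ, f (p0 + k) ≤ V * q ^ k) (S : Finset ℤ) (hS : ∀ p ∈ S, p0 ≤ p) :
    ∑ p ∈ S, f p ≤ V / (1 - q) := by
  classical
  have hV : 0 ≤ V := by
    have := hf 0
    simp only [Nat.cast_zero, add_zero, pow_zero, mul_one] at this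
    exact (hf0 p0).trans this
  have hsum : Summable fun k : ℕ => V * q ^ k := (summable_geometric_of_lt_one hq0 hq1).mul_left V
  have h1 : ∑ p ∈ S, f p ≤ ∑ k ∈ S.image (fun p => (p - p0).toNat), V * q ^ k := by
    have hinj : Set.InjOn (fun p : ℤ => (p - p0).toNat) (S : Set ℤ) := by
      intro p hp p' hp' h
      have e1 := hS p hp
      have e2 := hS p' hp'
      simp only at h
      omega
    rw [Finset.sum_image hinj]
    refine Finset.sum_le_sum (fun p hp => ?_)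
    have e1 := hS p hp
    have e2 : p = p0 + (((p - p0).toNat : ℕ) : ℤ) := by omega
    calc f p = f (p0 + (((p - p0).toNat : ℕ) : ℤ)) := by rw [← e2]
      _ ≤ _ := hf _
  refine h1.trans ?_
  have h2 : ∑ k ∈ S.image (fun p => (p - p0).toNat), V * q ^ k ≤ ∑' k : ℕ, V * q ^ k :=
    hsum.sum_le_tsum _ (fun k _ => mul_nonneg hV (pow_nonneg hq0 k))
  rw [tsum_mul_left, tsum_geometric_of_lt_one hq0 hq1] at h2
  rw [div_eq_mul_inv]
  exact h2

theorem tail_down (f : ℤ → ℝ) (p0 : ℤ) (V q : ℝ) (hq0 : 0 ≤ q) (hq1 : q < 1) (hf0 : ∀ p, 0 ≤ f p)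
    (hf : ∀ k : ℕ, f (p0 - k) ≤ V * q ^ k) (S : Finset ℤ) (hS : ∀ p ∈ S, p ≤ p0) :
    ∑ p ∈ S, f p ≤ V / (1 - q) := by
  classical
  have h1 := tail_up (fun p => f (-p)) (-p0) V q hq0 hq1 (fun p => hf0 (-p))
    (fun k => by
      have e : -(-p0 + (k : ℤ)) = p0 - k := by ring
      show f (-(-p0 + (k : ℤ))) ≤ _
      rw [e]
      exact hf k) (S.image (fun p => -p)) (fun p hp => by
        obtain ⟨p', hp', rfl⟩ := Finset.mem_image.1 hp
        have := hS p' hp'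
        omega)
  rw [Finset.sum_image (fun p _ p' _ h => by simpa using h)] at h1
  simpa using h1

variable {L : LMV} {a b : ℕ} {x : ℂ} {D : ℝ} {v : ℤ → ℂ} {s1 s2 : ℝ}

/-- constants of the tails -/
def omD (L : LMV) : ℕ := Nat.sub 1099511627775 (Nat.shiftRight L.D1.a 10)
def omt (L : LMV) : ℕ := Nat.sub 1099511627776 (Nat.shiftLeft L.T1 24)

private theorem mvF_ok {L : LMV} {P j : ℕ} {y : ℕ × ℕ} (hok : okR1 L P j y = true) :
    1 ≤ y.1 ∧ y.1 ≤ 32 ∧ 34 ≤ y.1 + y.2 ∧ L.R0 ≤ posP L.R0 (Nat.add y.1 y.2) j ∧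
      (L.R1 = 0 ∨ L.R1 ≤ posP L.R1 (Nat.add y.1 y.2) j) ∧ posP L.R0 (Nat.sub y.1 1) j = 0 ∧
      (L.R1 = 0 ∨ posP L.R1 (Nat.sub y.1 1) j = 0) := by
  unfold okR1 at hok
  simp only [Bool.and_eq_true, Bool.or_eq_true, Nat.ble_eq, Nat.beq_eq] at hok
  obtain ⟨⟨h1, -⟩, ⟨h2, h3⟩, -, ⟨h4, h5⟩, h6, h7⟩ := hok
  refine ⟨h1, ?_, ?_, h4, h5, h6, h7⟩
  · have e : Nat.sub 32 L.nL = 32 - L.nL := rfl
    rw [e] at h2
    omega
  · have e : Nat.add 33 (maxN L.nL 1) = 33 + maxN L.nL 1 := rfl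
    have e2 : Nat.add y.1 y.2 = y.1 + y.2 := rfl
    rw [e, e2] at h3
    have e3 : 1 ≤ maxN L.nL 1 := by
      show 1 ≤ L.nL + (1 - L.nL)
      omega
    omega

private theorem mvF_posP (R i j : ℕ) : posP R i j = i * R + 64 * j - (32 * R + 4096) := rfl
private theorem mvF_posN (R i j : ℕ) : posN R i j = 32 * R + 4096 - (i * R + 64 * j) := rfl

private theorem mvF_lrt_up {L : LMV} {a b : ℕ} {x : ℂ} {i j : ℕ} (I : InCell L.nL L.T0 L.T1 L.R0 L.R1 a b x)
    (h0 : L.R0 ≤ posP L.R0 i j) (h1 : L.R1 = 0 ∨ L.R1 ≤ posP L.R1 i j) : lrt L i j = true := by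
  have hR0 := I.R0'
  have e0 : posN L.R0 i j = 0 := by
    rw [mvF_posP] at h0
    rw [mvF_posN]
    omega
  have e1 : n1L L i j = 0 := by
    unfold n1L
    split_ifs with hR
    · exact e0
    · rcases h1 with h1 | h1
      · exact absurd h1 hR
      · rw [mvF_posP] at h1
        rw [mvF_posN]
        omega
  unfold lrt
  rw [e0, e1]
  rfl

private theorem mvF_lab_up {L : LMV} {a b : ℕ} {x : ℂ} {i j : ℕ} (I : InCell L.nL L.T0 L.T1 L.R0 L.R1 a b x)
    (hj : 61 ≤ j ∧ j ≤ 67)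
    (h0 : L.R0 ≤ posP L.R0 i j) (h1 : L.R1 = 0 ∨ L.R1 ≤ posP L.R1 i j) : LabC L i j := by
  refine ⟨?_, Or.inl hj⟩
  have h2 := mvF_lrt_up I h0 h1
  unfold lrt at h2
  rw [lab_eq]
  show Bool.or _ _ = true
  rw [h2]
  rfl

private theorem mvF_lab_down {L : LMV} {i j : ℕ}
    (hj : 61 ≤ j ∧ j ≤ 67)
    (h0 : posP L.R0 i j = 0) (h1 : L.R1 = 0 ∨ posP L.R1 i j = 0) : LabC L i j := by
  refine ⟨?_, Or.inl hj⟩
  have h2 : p1L L i j = 0 := by
    unfold p1L
    split_ifs with hR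
    · exact h0
    · exact h1.resolve_left hR
  rw [lab_eq]
  show Bool.or _ (Bool.and (Nat.beq (posP L.R0 i j) 0) (Nat.beq (p1L L i j) 0)) = true
  rw [h0, h2]
  simp

private theorem mvF_n1 {L : LMV} {a b : ℕ} {x : ℂ} {i j : ℕ} (_ha : 0 < a) (I : InCell L.nL L.T0 L.T1 L.R0 L.R1 a b x)
    (h0 : L.R0 ≤ posP L.R0 i j) (hi : 34 ≤ i) : (b : ℤ) ≤ nI a b i j := by
  have hR0 := I.R0'
  have hr := I.r0
  rw [mvF_posP] at h0
  have h1 : 32 * L.R0 + 4096 + L.R0 ≤ i * L.R0 + 64 * j := by omega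
  obtain ⟨m, rfl⟩ : ∃ m, i = m + 33 := ⟨i - 33, by omega⟩
  have h2 : (4096 : ℤ) ≤ m * L.R0 + 64 * j := by
    have : 4096 ≤ m * L.R0 + 64 * j := by
      have e : (m + 33) * L.R0 = m * L.R0 + 33 * L.R0 := by ring
      rw [e] at h1
      omega
    exact_mod_cast this
  have h3 : (m : ℤ) * (L.R0 * a) ≤ m * (64 * b) := by
    have : (L.R0 * a : ℤ) ≤ 64 * b := by exact_mod_cast hr
    exact mul_le_mul_of_nonneg_left this (Int.natCast_nonneg m)
  have h4 : (4096 : ℤ) * a ≤ (m * L.R0 + 64 * j) * a := mul_le_mul_of_nonneg_right h2 (Int.natCast_nonneg a)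
  unfold nI iI jI
  push_cast
  have h5 : (0 : ℤ) ≤ 64 * (m * b + (j - 64) * a) := by nlinarith
  nlinarith

private theorem mvF_n0 {L : LMV} {a b : ℕ} {x : ℂ} {i j : ℕ} (_ha : 0 < a) (I : InCell L.nL L.T0 L.T1 L.R0 L.R1 a b x)
    (h0 : posP L.R0 i j = 0) (hi : i ≤ 31) : nI a b i j ≤ 0 := by
  have hr := I.r0
  rw [mvF_posP] at h0
  have h1 : i * L.R0 + 64 * j ≤ 32 * L.R0 + 4096 := by omega
  obtain ⟨m, hm⟩ : ∃ m, i + m = 32 := ⟨32 - i, by omega⟩
  have h2 : (64 : ℤ) * j ≤ m * L.R0 + 4096 := by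
    have h1' : (i : ℤ) * L.R0 + 64 * j ≤ 32 * L.R0 + 4096 := by exact_mod_cast h1
    have hm' : (i : ℤ) = 32 - m := by omega
    rw [hm'] at h1'
    linarith
  have h3 : (m : ℤ) * (L.R0 * a) ≤ m * (64 * b) := by
    have : (L.R0 * a : ℤ) ≤ 64 * b := by exact_mod_cast hr
    exact mul_le_mul_of_nonneg_left this (Int.natCast_nonneg m)
  have h4 : (64 : ℤ) * j * a ≤ (m * L.R0 + 4096) * a := mul_le_mul_of_nonneg_right h2 (Int.natCast_nonneg a)
  have hm' : (i : ℤ) - 32 = -m := by omega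
  unfold nI iI jI
  rw [hm']
  nlinarith

private theorem mvF_n0_ne {RM LM a b : ℕ} {x : ℂ} {D : ℝ} {v : ℤ → ℂ} {i j : ℕ} (H : HypMV RM LM a b x D v)
    (hi : i ≤ 31) (hj : 61 ≤ j ∧ j ≤ 67) : nI a b i j ≠ 0 := by
  intro h
  have ha := H.ha
  have hab := H.hab
  obtain ⟨m, hm⟩ : ∃ m, i + m = 32 := ⟨32 - i, by omega⟩
  obtain ⟨J, hJ⟩ : ∃ J : ℤ, (j : ℤ) - 64 = J := ⟨_, rfl⟩
  have hm' : (i : ℤ) - 32 = -m := by omega
  have hJ3 : J ≤ 3 := by omega
  unfold nI iI jI at h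
  rw [hm', hJ] at h
  have h1 : (m : ℤ) * b = J * a := by linarith
  have ha' : (0 : ℤ) < a := by exact_mod_cast ha
  have hab' : (a : ℤ) < b := by exact_mod_cast hab
  have hm1 : 1 ≤ m := by omega
  have hmb : (0 : ℤ) < m * b := by
    have : (0 : ℤ) < b := by linarith
    have : (0 : ℤ) < m := by exact_mod_cast hm1
    positivity
  have hJ0 : 0 < J := by
    by_contra hc
    have : J * a ≤ 0 := mul_nonpos_of_nonpos_of_nonneg (by omega) ha'.le
    linarith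
  have hmJ : (m : ℤ) < 3 := by
    by_contra hc
    have h3 : (3 : ℤ) * b ≤ m * b := mul_le_mul_of_nonneg_right (by omega) (by linarith)
    have h4 : J * a ≤ 3 * a := mul_le_mul_of_nonneg_right hJ3 ha'.le
    linarith
  have hm3 : m < 3 := by exact_mod_cast hmJ
  have h2 := H.h2
  have h3 := H.h3
  have h32 := H.h32
  interval_cases m <;> interval_cases J <;> omega

private theorem mvF_m2 (L : LMV) (i j : ℕ) :
    (lm2 L i j = lm L i j) ∨ (lmd L i j = 1 ∧ 256 < lm L i j ∧ lm2 L i j = 2 * lm L i j - 256) := by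
  unfold lm2 m2L
  cases hb : Bool.and (Nat.beq (lmd L i j) 1) (Bool.and (Bool.not (lgrp L i j)) (Nat.blt 256 (lm L i j)))
  · left
    rfl
  · right
    simp only [Bool.and_eq_true, Nat.beq_eq, Nat.blt_eq] at hb
    exact ⟨hb.1, hb.2.2, rfl⟩

private theorem mvF_sizeA {L : LMV} {a b : ℕ} {x : ℂ} {D : ℝ} {v : ℤ → ℂ} {s1 s2 : ℝ} {i j : ℕ}
    (C : Ctx L a b x D v s1 s2) (l : LabC L i j) (hr : lrt L i j = true) (hn : (b : ℤ) ≤ nI a b i j)
    (hD : D ≤ Dt L s1) (k : ℕ) : ‖v (nI a b i j + (k : ℤ) * b)‖ ≤ psB L i j s1 * D ^ k := by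
  have hD01 := C.H.D01
  have hb0 : (0 : ℝ) ≤ b := Nat.cast_nonneg b
  have hk0 : (0 : ℝ) ≤ k := Nat.cast_nonneg k
  have hn' : (b : ℝ) ≤ (nI a b i j : ℝ) := by exact_mod_cast hn
  have hl := (lab_size C.H.ha C.H.hab C.I l).1 hr
  have hlm : (lm L i j : ℝ) / 256 * b ≤ (nI a b i j : ℝ) - b := by
    rcases hl with hl | ⟨-, hl⟩
    · rw [hl]
      simp
      linarith
    · have : (lm L i j : ℝ) * b ≤ 256 * ((nI a b i j : ℝ) - b) := by exact_mod_cast hl
      linarith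
  have hge := psB_ge C.G s1 C.h1 i j
  have hm0 : (0 : ℝ) ≤ (lm L i j : ℝ) / 256 := by positivity
  have hm20 : (0 : ℝ) ≤ (lm2 L i j : ℝ) / 256 := by positivity
  have hsz := C.H.size_R (nI a b i j + (k : ℤ) * b) (by
      have : 0 ≤ (k : ℤ) * b := by positivity
      omega) ((lm L i j : ℝ) / 256 + k) (by positivity) (by
      push_cast
      nlinarith)
  have hDm : D ^ ((lm2 L i j : ℝ) / 256) ≤ psB L i j s1 :=
    (Real.rpow_le_rpow hD01.1 hD hm20).trans hge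
  have hDk : 0 ≤ D ^ k := pow_nonneg hD01.1 k
  have hD1 : D ≤ 1 := by linarith
  rcases mvF_m2 L i j with h | ⟨h1, h2, h3⟩
  · rw [h] at hDm
    calc ‖v (nI a b i j + (k : ℤ) * b)‖ ≤ D ^ ((lm L i j : ℝ) / 256 + k) := hsz.1
      _ = D ^ ((lm L i j : ℝ) / 256) * D ^ k := by
        rw [Real.rpow_add_of_nonneg hD01.1 hm0 hk0, Real.rpow_natCast]
      _ ≤ psB L i j s1 * D ^ k := mul_le_mul_of_nonneg_right hDm hDk
  · have hRM : L.RM = 1 := by
      unfold lmd at h1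
      rw [hr] at h1
      exact h1
    have h2' : (256 : ℝ) < lm L i j := by exact_mod_cast h2
    have h4 := hsz.2 hRM (by
      have : (1 : ℝ) ≤ (lm L i j : ℝ) / 256 := by
        rw [le_div_iff₀ (by norm_num)]
        linarith
      linarith)
    have h5 : (lm2 L i j : ℝ) = 2 * (lm L i j : ℝ) - 256 := by
      rw [h3, Nat.cast_sub (by omega)]
      push_cast
      ring
    have h6 : 2 * ((lm L i j : ℝ) / 256 + k) - 1 = (lm2 L i j : ℝ) / 256 + (2 * k : ℕ) := by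
      rw [h5]
      push_cast
      ring
    rw [h6, Real.rpow_add_of_nonneg hD01.1 hm20 (Nat.cast_nonneg _), Real.rpow_natCast] at h4
    refine h4.trans ?_
    have h7 : D ^ (2 * k) ≤ D ^ k := pow_le_pow_of_le_one hD01.1 hD1 (by omega)
    exact mul_le_mul hDm h7 (pow_nonneg hD01.1 _) ((psB_pos i j s1).le)

private theorem mvF_sizeB {L : LMV} {a b : ℕ} {x : ℂ} {D : ℝ} {v : ℤ → ℂ} {s1 s2 : ℝ} {i j : ℕ}
    (C : Ctx L a b x D v s1 s2) (l : LabC L i j) (hr : lrt L i j = false)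
    (hD : D ≤ Dt L s1) (k : ℕ) : ‖v (nI a b i j - (k : ℤ) * b)‖ ≤ psB L i j s1 := by
  have hD01 := C.H.D01
  have hge := psB_ge C.G s1 C.h1 i j
  have hm20 : (0 : ℝ) ≤ (lm2 L i j : ℝ) / 256 := by positivity
  have hDm : D ^ ((lm2 L i j : ℝ) / 256) ≤ psB L i j s1 :=
    (Real.rpow_le_rpow hD01.1 hD hm20).trans hge
  have hl := (lab_size C.H.ha C.H.hab C.I l).2 hr
  rcases Nat.eq_zero_or_pos (lm L i j) with h0 | h0
  · have h1 : lm2 L i j = 0 := by
      rcases mvF_m2 L i j with h | ⟨h1, h2, h3⟩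
      · rw [h, h0]
      · omega
    rw [h1] at hDm
    simp only [Nat.cast_zero, zero_div, Real.rpow_zero] at hDm
    exact (C.H.v_le_one _).trans hDm
  · rcases hl with hl | ⟨hl1, hl2⟩
    · omega
    have hkb : 0 ≤ (k : ℤ) * b := by positivity
    have hkb' : (0 : ℝ) ≤ (k : ℝ) * b := by positivity
    have hl2' : (lm L i j : ℝ) * a ≤ 256 * (-(nI a b i j : ℝ) - a) := by exact_mod_cast hl2
    have hsz := C.H.size_L (nI a b i j - (k : ℤ) * b) (by omega) ((lm L i j : ℝ) / 256) (by positivity) (by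
      push_cast
      linarith)
    rcases mvF_m2 L i j with h | ⟨h1, h2, h3⟩
    · rw [h] at hDm
      exact hsz.1.trans hDm
    · have hLM : L.LM = 1 := by
        unfold lmd at h1
        rw [hr] at h1
        exact h1
      have h2' : (256 : ℝ) < lm L i j := by exact_mod_cast h2
      have h4 := hsz.2 hLM (by
        rw [le_div_iff₀ (by norm_num)]
        linarith)
      have h5 : (lm2 L i j : ℝ) = 2 * (lm L i j : ℝ) - 256 := by
        rw [h3, Nat.cast_sub (by omega)]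
        push_cast
        ring
      have h6 : 2 * ((lm L i j : ℝ) / 256) - 1 = (lm2 L i j : ℝ) / 256 := by
        rw [h5]
        ring
      rw [h6] at h4
      exact h4.trans hDm

/-- Right class: beyond the last power the positions are `≥ b` and each step multiplies the bound by `D` (`size_R`;
mode `1` with `lm2 = 2 m - 256`: also by `D`); below the first power the positions are `≤ 0` and each step multiplies the
bound by `‖x‖ ^ b ≤ ‖x‖ ^ a` (the size bound at the position `n` holds at every position `≤ n`). The two omitted labels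
satisfy `LabC` (the second one: if its position were `≥ 0` at both ratios, it would be `0` at both, so `nI = 0`, which
contradicts `b ≠ 2 a, 3 a`, `2 b ≠ 3 a`; then `i ≤ 31`, `61 ≤ j ≤ 67`). -/
theorem Ctx.tail_R (C : Ctx L a b x D v s1 s2) (hD : Nat.shiftRight L.D1.a 10 < 1099511627775) (P j : ℕ)
    (hj : 61 ≤ j ∧ j ≤ 67) (y : ℕ × ℕ) (hok : okR1 L P j y = true) (S : Finset ℤ)
    (hS : Disjoint S (Finset.Ico ((y.1 : ℤ) - 32) ((y.1 : ℤ) + y.2 - 32))) :
    ∑ p ∈ S, ‖cR a b x v (jI j) p‖ ≤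
      ((geo (Nat.add (mx4 (lab L (Nat.add y.1 y.2) j).r) 8) (omD L) : ℕ) +
        (geo (Nat.add (mx4 (lab L (Nat.sub y.1 1) j).r) 8) (omt L) : ℕ) : ℝ) / 2 ^ 40 := by
  classical
  obtain ⟨h1y, hnLy, h33, hp1R0, hp1R1, hp0R0, hp0R1⟩ := mvF_ok hok
  have hj1 := hj.1
  have hj2 := hj.2
  have ha := C.H.ha
  have hab := C.H.hab
  have hx01 := C.H.x01
  have hx : x ≠ 0 := norm_pos_iff.1 hx01.1
  set i1 := Nat.add y.1 y.2 with hi1
  set i0 := Nat.sub y.1 1 with hi0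
  have hi1' : i1 = y.1 + y.2 := rfl
  have hi0' : i0 = y.1 - 1 := rfl
  have l1 : LabC L i1 j := mvF_lab_up C.I hj hp1R0 hp1R1
  have l0 : LabC L i0 j := mvF_lab_down hj hp0R0 hp0R1
  have r1 : lrt L i1 j = true := mvF_lrt_up C.I hp1R0 hp1R1
  have n1b : (b : ℤ) ≤ nI a b i1 j := mvF_n1 ha C.I hp1R0 (by omega)
  have n0n : nI a b i0 j ≤ 0 := mvF_n0 ha C.I hp0R0 (by omega)
  have n0ne : nI a b i0 j ≠ 0 := mvF_n0_ne C.H (by omega) hj
  have r0 : lrt L i0 j = false := by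
    by_contra hc
    have hc' : lrt L i0 j = true := by simpa using hc
    have := (lab_sign ha hab C.I l0).1 hc'
    omega
  have hD01 := C.H.D01
  have hDle := C.D_le
  have hA := mvF_sizeA C l1 r1 n1b hDle
  have hB := mvF_sizeB C l0 r0 hDle
  obtain ⟨hDt0, hDt1, hDt2, hDt3⟩ := Dt_lt C.G s1 C.h1
  -- split
  have hsplit : ∑ p ∈ S, ‖cR a b x v (jI j) p‖ =
      ∑ p ∈ S.filter (fun p => iI i1 ≤ p), ‖cR a b x v (jI j) p‖ +
        ∑ p ∈ S.filter (fun p => ¬ iI i1 ≤ p), ‖cR a b x v (jI j) p‖ :=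
    (Finset.sum_filter_add_sum_filter_not S (fun p => iI i1 ≤ p) _).symm
  -- upper part
  have hup : ∑ p ∈ S.filter (fun p => iI i1 ≤ p), ‖cR a b x v (jI j) p‖ ≤ psR L i1 j s1 s2 / (1 - D) := by
    refine tail_up (fun p => ‖cR a b x v (jI j) p‖) (iI i1) (psR L i1 j s1 s2) D hD01.1 (by linarith)
      (fun p => norm_nonneg _) (fun k => ?_) _ (fun p hp => (Finset.mem_filter.1 hp).2)
    have hn : jI j * a + (iI i1 + (k : ℤ)) * b = nI a b i1 j + k * b := by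
      unfold nI
      ring
    have hpsR : psR L i1 j s1 s2 = psB L i1 j s1 := by
      unfold psR
      rw [r1]
      rfl
    show ‖cR a b x v (jI j) (iI i1 + (k : ℤ))‖ ≤ _
    rw [cR_norm hx, hn, hpsR]
    have hkb : 0 ≤ (k : ℤ) * b := mul_nonneg (Int.natCast_nonneg k) (Int.natCast_nonneg b)
    have htn : (-(nI a b i1 j + (k : ℤ) * b)).toNat = 0 := by
      have : 0 ≤ nI a b i1 j + (k : ℤ) * b := by omega
      omega
    rw [htn, pow_zero, mul_one]
    exact hA k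
  -- lower part
  have ht0 : 0 < ‖x‖ ^ a := pow_pos hx01.1 a
  have ht1 : ‖x‖ ^ a < 1 := pow_lt_one₀ hx01.1.le hx01.2 (by omega)
  have hdown : ∑ p ∈ S.filter (fun p => ¬ iI i1 ≤ p), ‖cR a b x v (jI j) p‖ ≤
      psR L i0 j s1 s2 / (1 - ‖x‖ ^ a) := by
    refine tail_down (fun p => ‖cR a b x v (jI j) p‖) (iI i0) (psR L i0 j s1 s2) (‖x‖ ^ a) ht0.le ht1
      (fun p => norm_nonneg _) (fun k => ?_) _ (fun p hp => ?_)
    · have hn : jI j * a + (iI i0 - (k : ℤ)) * b = nI a b i0 j - k * b := by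
        unfold nI
        ring
      have hpsR : psR L i0 j s1 s2 = psO L i0 j s1 s2 := by
        unfold psR
        rw [r0]
        rfl
      show ‖cR a b x v (jI j) (iI i0 - (k : ℤ))‖ ≤ _
      rw [cR_norm hx, hn, hpsR]
      have hkb : ((k * b : ℕ) : ℤ) = (k : ℤ) * b := by push_cast; ring
      have htn : (-(nI a b i0 j - (k : ℤ) * b)).toNat = (-nI a b i0 j).toNat + k * b := by
        rw [← hkb]
        omega
      rw [htn, pow_add]
      have hxa : ‖x‖ ^ (-nI a b i0 j).toNat ≤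
          gi ((L.T0 : ℝ) / 65536) ((L.T1 : ℝ) / 65536) s1 ^ ai ((lq0 L i0 j : ℝ) / 256) ((lq1 L i0 j : ℝ) / 256) s2 := by
        rw [← C.ht]
        have e1 : ‖x‖ ^ (-nI a b i0 j).toNat = ‖x‖ ^ (-nI a b i0 j) := by
          rw [← zpow_natCast, Int.toNat_of_nonneg (by omega)]
        rw [e1, xpow_eq ha hx]
        refine Real.rpow_le_rpow_of_exponent_ge ht0 ht1.le ?_
        have e2 : posA L a b i0 j = ((-nI a b i0 j : ℤ) : ℝ) / a := by
          unfold posA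
          rw [r0]
          push_cast
          rfl
        rw [← e2]
        have h3 := lab_exp ha hab C.I l0 s2 C.h2 C.hr
        by_cases hc : L.nL = 0 ∧ i0 ≠ 32
        · exact h3.1 hc
        · exact (h3.2 hc).le
      have hxb : ‖x‖ ^ (k * b) ≤ (‖x‖ ^ a) ^ k := by
        rw [← pow_mul]
        refine pow_le_pow_of_le_one hx01.1.le hx01.2.le ?_
        rw [mul_comm]
        exact Nat.mul_le_mul_left k hab.le
      have hv := hB k
      have hps0 : 0 < psB L i0 j s1 := psB_pos i0 j s1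
      calc ‖v (nI a b i0 j - (k : ℤ) * b)‖ * (‖x‖ ^ (-nI a b i0 j).toNat * ‖x‖ ^ (k * b))
          ≤ psB L i0 j s1 * ((gi ((L.T0 : ℝ) / 65536) ((L.T1 : ℝ) / 65536) s1 ^
              ai ((lq0 L i0 j : ℝ) / 256) ((lq1 L i0 j : ℝ) / 256) s2) * (‖x‖ ^ a) ^ k) := by
            refine mul_le_mul hv ?_ (mul_nonneg (pow_nonneg hx01.1.le _) (pow_nonneg hx01.1.le _)) hps0.le
            refine mul_le_mul hxa hxb (pow_nonneg hx01.1.le _) ?_
            rw [← C.ht]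
            exact Real.rpow_nonneg ht0.le _
        _ = psO L i0 j s1 s2 * (‖x‖ ^ a) ^ k := by
            unfold psO
            ring
    · obtain ⟨hpS, hpn⟩ := Finset.mem_filter.1 hp
      by_contra hcc
      have hmem : p ∈ Finset.Ico ((y.1 : ℤ) - 32) ((y.1 : ℤ) + y.2 - 32) := by
        rw [Finset.mem_Ico]
        unfold iI at hpn hcc
        rw [hi1'] at hpn
        rw [hi0'] at hcc
        omega
      exact (Finset.disjoint_left.1 hS hpS) hmem
  -- geometric series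
  have g1 : psR L i1 j s1 s2 / (1 - D) ≤ (geo (Nat.add (mx4 (lab L i1 j).r) 8) (omD L) : ℝ) / 2 ^ 40 := by
    have hV := C.psR_le l1
    have hps : 0 ≤ psR L i1 j s1 s2 := by
      unfold psR
      rw [r1]
      exact (psB_pos i1 j s1).le
    have hom : omD L = 1099511627775 - L.D1.a / 1024 := by
      show Nat.sub 1099511627775 (Nat.shiftRight L.D1.a 10) = _
      have : Nat.shiftRight L.D1.a 10 = L.D1.a / 1024 := Nat.shiftRight_eq_div_pow _ 10
      rw [this]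
      rfl
    have hD' : L.D1.a / 1024 < 1099511627775 := by
      have : Nat.shiftRight L.D1.a 10 = L.D1.a / 1024 := Nat.shiftRight_eq_div_pow _ 10
      rw [← this]
      exact hD
    refine geo_ge _ _ _ _ ?_ hps ?_ hD01.1 ?_
    · rw [hom]
      omega
    · refine hV.trans (le_of_eq ?_)
      have : ((Nat.add (mx4 (lab L i1 j).r) 8 : ℕ) : ℝ) = ((mx4 (lab L i1 j).r : ℕ) : ℝ) + 8 := by
        have : Nat.add (mx4 (lab L i1 j).r) 8 = mx4 (lab L i1 j).r + 8 := rfl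
        rw [this]
        push_cast
        rfl
      rw [this]
    · rw [hom, Nat.cast_sub hD'.le]
      have h1 : (L.D1.a : ℝ) < 1024 * ((L.D1.a / 1024 : ℕ) : ℝ) + 1024 := by
        have : L.D1.a < 1024 * (L.D1.a / 1024) + 1024 := by omega
        exact_mod_cast this
      have h2 : D ≤ (L.D1.a : ℝ) / 2 ^ 50 := hDle.trans hDt1
      have h3 : (L.D1.a : ℝ) / 2 ^ 50 = (L.D1.a : ℝ) / 1024 / 2 ^ 40 := by
        rw [div_div]
        norm_num
      rw [h3] at h2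
      have h4 : (L.D1.a : ℝ) / 1024 ≤ ((L.D1.a / 1024 : ℕ) : ℝ) + 1 := by
        rw [div_le_iff₀ (by norm_num)]
        linarith
      have h5 : D ≤ (((L.D1.a / 1024 : ℕ) : ℝ) + 1) / 2 ^ 40 :=
        h2.trans (div_le_div_of_nonneg_right h4 (by positivity))
      have h6 : (((1099511627775 : ℕ) : ℝ) - ((L.D1.a / 1024 : ℕ) : ℝ)) / 2 ^ 40 =
          1 - (((L.D1.a / 1024 : ℕ) : ℝ) + 1) / 2 ^ 40 := by
        push_cast
        field_simp
        ring
      rw [h6]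
      linarith
  have g2 : psR L i0 j s1 s2 / (1 - ‖x‖ ^ a) ≤ (geo (Nat.add (mx4 (lab L i0 j).r) 8) (omt L) : ℝ) / 2 ^ 40 := by
    have hV := C.psR_le l0
    have hps : 0 ≤ psR L i0 j s1 s2 := by
      unfold psR
      rw [r0]
      exact (C.psO_pos i0 j).le
    have hT := C.G.T'
    have hom : omt L = 1099511627776 - L.T1 * 2 ^ 24 := by
      show Nat.sub 1099511627776 (Nat.shiftLeft L.T1 24) = _
      have : Nat.shiftLeft L.T1 24 = L.T1 * 2 ^ 24 := Nat.shiftLeft_eq _ 24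
      rw [this]
      rfl
    refine geo_ge _ _ _ _ ?_ hps ?_ ht0.le ?_
    · rw [hom]
      omega
    · refine hV.trans (le_of_eq ?_)
      have : ((Nat.add (mx4 (lab L i0 j).r) 8 : ℕ) : ℝ) = ((mx4 (lab L i0 j).r : ℕ) : ℝ) + 8 := by
        have : Nat.add (mx4 (lab L i0 j).r) 8 = mx4 (lab L i0 j).r + 8 := rfl
        rw [this]
        push_cast
        rfl
      rw [this]
    · rw [hom, Nat.cast_sub (by omega)]
      have h1 := C.I.t1
      have h2 : (((1099511627776 : ℕ) : ℝ) - ((L.T1 * 2 ^ 24 : ℕ) : ℝ)) / 2 ^ 40 = 1 - (L.T1 : ℝ) / 65536 := by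
        push_cast
        field_simp
        ring
      rw [h2]
      linarith
  rw [hsplit, add_div]
  exact add_le_add (hup.trans g1) (hdown.trans g2)

end Pool.Agent.MaxTerm59b
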