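import Pool.Agent.MaxTerm59b.F2E
import Pool.Agent.MaxTerm59b.MvF

/-! Extremal matched vertex with a generic right neighbour: the tails. Hints: `tail_up`, `tail_down`, `geo_ge`,
`psF_le`; `1 - ‖t‖ ^ g ≥ omtF L / 2 ^ 40`, `1 - DtF ≥ omDF L / 2 ^ 40`. -/

namespace Pool.Agent.MaxTerm59b
open Finset Pool.Agent.MaxTerm58

/-- constants of the tails -/
def omDF (L : LF2) : ℕ := Nat.sub 1099511627775 (Nat.shiftRight L.D1.a 10)
def omtF (L : LF2) : ℕ := Nat.sub one40 (Nat.mul 256 (Nat.mul L.Q1 L.L1))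

variable {L : LF2} {g b : ℕ} {s t : ℂ} {v : ℤ → ℂ} {s1 s2 s3 : ℝ}

/-- `omtF > 0`, as `100 (Q1 L1)^2 ≤ 46 · 2^64` -/
theorem CtxF.om_facts (C : CtxF L g b s t v s1 s2 s3) (hD : Nat.shiftRight L.D1.a 10 < 1099511627775) :
    0 < omDF L ∧ 0 < omtF L ∧ (omDF L : ℝ) / 2 ^ 40 ≤ 1 - DtF L s2 ∧ (omtF L : ℝ) / 2 ^ 40 ≤ 1 - ‖t‖ ^ g := by
  obtain ⟨-, -, -, -, -, -, -, -, -, -, -, -, -, hQL, -, -⟩ := C.G.facts
  have homD : omDF L = 1099511627775 - L.D1.a / 1024 := by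
    show Nat.sub 1099511627775 (Nat.shiftRight L.D1.a 10) = _
    have : Nat.shiftRight L.D1.a 10 = L.D1.a / 1024 := Nat.shiftRight_eq_div_pow _ 10
    rw [this]
    rfl
  have homt : omtF L = 1099511627776 - 256 * (L.Q1 * L.L1) := rfl
  have hD' : L.D1.a / 1024 < 1099511627775 := by
    have : Nat.shiftRight L.D1.a 10 = L.D1.a / 1024 := Nat.shiftRight_eq_div_pow _ 10
    rw [← this]
    exact hD
  have hP : L.Q1 * L.L1 < 2 ^ 32 := by
    by_contra hc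
    have h1 : (2 ^ 32) ^ 2 ≤ (L.Q1 * L.L1) ^ 2 := Nat.pow_le_pow_left (by omega) 2
    omega
  refine ⟨by rw [homD]; omega, by rw [homt]; omega, ?_, ?_⟩
  · obtain ⟨-, -, h0, -, -⟩ := DtF_facts C.G s2 C.h2
    rw [homD, Nat.cast_sub hD'.le]
    have h1 : (L.D1.a : ℝ) < 1024 * ((L.D1.a / 1024 : ℕ) : ℝ) + 1024 := by
      have : L.D1.a < 1024 * (L.D1.a / 1024) + 1024 := by omega
      exact_mod_cast this
    have h3 : (L.D1.a : ℝ) / 2 ^ 50 = (L.D1.a : ℝ) / 1024 / 2 ^ 40 := by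
      rw [div_div]
      norm_num
    rw [h3] at h0
    have h4 : (L.D1.a : ℝ) / 1024 ≤ ((L.D1.a / 1024 : ℕ) : ℝ) + 1 := by
      rw [div_le_iff₀ (by norm_num)]
      linarith
    have h5 : DtF L s2 ≤ (((L.D1.a / 1024 : ℕ) : ℝ) + 1) / 2 ^ 40 :=
      h0.trans (div_le_div_of_nonneg_right h4 (by positivity))
    have h6 : (((1099511627775 : ℕ) : ℝ) - ((L.D1.a / 1024 : ℕ) : ℝ)) / 2 ^ 40 =
        1 - (((L.D1.a / 1024 : ℕ) : ℝ) + 1) / 2 ^ 40 := by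
      push_cast
      field_simp
      ring
    rw [h6]
    linarith
  · rw [homt, Nat.cast_sub (by omega)]
    have h1 := C.I.l1
    have h2 := C.I.q1
    have h3 : (65536 * 65536) * ‖t‖ ^ g ≤ (L.L1 : ℝ) * (L.Q1 : ℝ) := by
      have h4 : (L.L1 : ℝ) * (65536 * ‖s‖ ^ g) ≤ (L.L1 : ℝ) * (L.Q1 : ℝ) :=
        mul_le_mul_of_nonneg_left h2 (Nat.cast_nonneg _)
      linarith
    have h5 : (((1099511627776 : ℕ) : ℝ) - ((256 * (L.Q1 * L.L1) : ℕ) : ℝ)) / 2 ^ 40 =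
        1 - (L.L1 : ℝ) * (L.Q1 : ℝ) / (65536 * 65536) := by
      push_cast
      field_simp
      ring
    rw [h5]
    have h6 : ‖t‖ ^ g ≤ (L.L1 : ℝ) * (L.Q1 : ℝ) / (65536 * 65536) := by
      rw [le_div_iff₀ (by norm_num)]
      linarith
    linarith

private theorem F2G_cast (m : ℕ) : ((Nat.add m 8 : ℕ) : ℝ) = (m : ℝ) + 8 := by
  have : Nat.add m 8 = m + 8 := rfl
  rw [this]
  push_cast
  rfl

/-- size of a coefficient beyond the label `j` of the unit lattice -/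
private theorem F2G_sizeJ (C : CtxF L g b s t v s1 s2 s3) (j k : ℕ) :
    ‖v (((j : ℤ) + k) * g)‖ ≤ psD L (mexJ L j) s2 := by
  have hg := C.H.hg
  obtain ⟨-, -, hQ0, hQ1⟩ := C.H.s01
  rcases mexJ_le hg C.I j with h | ⟨h1, h2⟩
  · rw [h, psD_zero]
    exact C.H.v_le_one _
  · have hn : (b : ℤ) ≤ ((j : ℤ) + k) * g := by
      have h3 : (b : ℤ) ≤ j * g := by exact_mod_cast h1
      have h4 : (0 : ℤ) ≤ (k : ℤ) * g := by positivity
      linarith [add_mul (j : ℤ) k g]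
    have h3 := C.H.size_R (((j : ℤ) + k) * g) hn ((mexJ L j : ℝ) / 256) (by positivity) (by
      have h4 : (mexJ L j : ℝ) * b ≤ 256 * ((j : ℝ) * g - b) := by
        have h5 : mexJ L j * b ≤ 256 * (j * g - b) := h2
        have h6 : (mexJ L j * b : ℕ) + 256 * b ≤ 256 * (j * g) := by
          have : 256 * (j * g - b) + 256 * b = 256 * (j * g) := by
            rw [← Nat.mul_add, Nat.sub_add_cancel h1]
          omega
        have h7 : (mexJ L j : ℝ) * b + 256 * b ≤ 256 * (j * g) := by exact_mod_cast h6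
        linarith
      have h5 : (0 : ℝ) ≤ (k : ℝ) * g := by positivity
      push_cast
      linarith [add_mul (j : ℝ) k g])
    have hD := C.D_le
    refine h3.trans (le_trans ?_ (psD_ge C.G s2 C.h2 (mexJ L j)))
    exact Real.rpow_le_rpow (by linarith) hD (by positivity)

private theorem F2G_toNat1 (g : ℕ) (p : ℕ) : ((p : ℤ) * g).toNat = g * p := by
  have : (p : ℤ) * g = ((g * p : ℕ) : ℤ) := by push_cast; ring
  rw [this, Int.toNat_natCast]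

private theorem F2G_toNat2 (g : ℕ) (p : ℕ) : ((p : ℤ) * g + g).toNat = g * (p + 1) := by
  have : (p : ℤ) * g + g = ((g * (p + 1) : ℕ) : ℤ) := by push_cast; ring
  rw [this, Int.toNat_natCast]

/-- unit lattice, first corner: each step to the right multiplies the bound by `‖s‖ ^ g ‖t‖ ^ g ≤ ‖t‖ ^ g`, each step to
the left by `‖t‖ ^ g` (`size_L`) -/
theorem CtxF.tail_1 (C : CtxF L g b s t v s1 s2 s3) (hD : Nat.shiftRight L.D1.a 10 < 1099511627775) (J1 K1 : ℕ)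
    (S : Finset ℤ) (hS : Disjoint S (Finset.Icc (-(2 + (K1 : ℤ))) (J1 : ℤ))) :
    ∑ p ∈ S, ‖c1 g s t v 0 p‖ ≤
      ((geo (Nat.add (mx4 (valF L (mexJ L (Nat.succ J1)) (Nat.mul 64 (Nat.add 2 J1)) (Nat.mul 64 (Nat.succ J1)))) 8)
          (omtF L) : ℕ) +
        (geo (Nat.add (mx4 (valF L 0 0 (Nat.mul 64 (Nat.succ K1)))) 8) (omtF L) : ℕ) : ℝ) / 2 ^ 40 := by
  classical
  obtain ⟨hs0, hs1, hQ0, hQ1⟩ := C.H.s01
  obtain ⟨ht0, ht1, hT0, hT1, -⟩ := C.H.t01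
  obtain ⟨-, hom, -, homt⟩ := C.om_facts hD
  have hs : s ≠ 0 := norm_pos_iff.1 hs0
  have hg := C.H.hg
  have hsplit : ∑ p ∈ S, ‖c1 g s t v 0 p‖ =
      ∑ p ∈ S.filter (fun p => (J1 : ℤ) + 1 ≤ p), ‖c1 g s t v 0 p‖ +
        ∑ p ∈ S.filter (fun p => ¬ (J1 : ℤ) + 1 ≤ p), ‖c1 g s t v 0 p‖ :=
    (Finset.sum_filter_add_sum_filter_not S (fun p => (J1 : ℤ) + 1 ≤ p) _).symm
  have hup : ∑ p ∈ S.filter (fun p => (J1 : ℤ) + 1 ≤ p), ‖c1 g s t v 0 p‖ ≤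
      psF L (mexJ L (Nat.succ J1)) (Nat.mul 64 (Nat.add 2 J1)) (Nat.mul 64 (Nat.succ J1)) s2 s3 / (1 - ‖t‖ ^ g) := by
    refine tail_up (fun p => ‖c1 g s t v 0 p‖) ((J1 : ℤ) + 1) _ (‖t‖ ^ g) hT0.le hT1
      (fun p => norm_nonneg _) (fun k => ?_) _ (fun p hp => (Finset.mem_filter.1 hp).2)
    show ‖c1 g s t v 0 ((J1 : ℤ) + 1 + (k : ℤ))‖ ≤ _
    have e0 : (J1 : ℤ) + 1 + (k : ℤ) = ((J1 + 1 + k : ℕ) : ℤ) := by push_cast; ring
    have e1 : ((J1 + 1 + k : ℕ) : ℤ) * g = (((J1 + 1 : ℕ) : ℤ) + k) * g := by push_cast; ring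
    rw [e0, c1_norm hs, F2G_toNat1, F2G_toNat2, pow_mul, pow_mul, e1, C.psF_eq]
    have hv := F2G_sizeJ C (J1 + 1) k
    have hps := psD_pos (L := L) (mexJ L (Nat.succ J1)) s2
    have ea : ((Nat.mul 64 (Nat.add 2 J1) : ℕ) : ℝ) / 64 = ((J1 + 2 : ℕ) : ℝ) := by
      have : Nat.mul 64 (Nat.add 2 J1) = 64 * (2 + J1) := rfl
      rw [this]; push_cast; ring
    have eb : ((Nat.mul 64 (Nat.succ J1) : ℕ) : ℝ) / 64 = ((J1 + 1 : ℕ) : ℝ) := by
      have : Nat.mul 64 (Nat.succ J1) = 64 * (J1 + 1) := rfl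
      rw [this]; push_cast; ring
    rw [ea, eb, Real.rpow_natCast, Real.rpow_natCast]
    have hQk : (‖s‖ ^ g) ^ k ≤ 1 := pow_le_one₀ hQ0.le hQ1.le
    have hQk0 : 0 < (‖s‖ ^ g) ^ k := pow_pos hQ0 k
    calc ‖v ((((J1 + 1 : ℕ) : ℤ) + k) * g)‖ * ((‖s‖ ^ g) ^ (J1 + 1 + k + 1) * (‖t‖ ^ g) ^ (J1 + 1 + k))
        ≤ psD L (mexJ L (Nat.succ J1)) s2 * ((‖s‖ ^ g) ^ (J1 + 1 + k + 1) * (‖t‖ ^ g) ^ (J1 + 1 + k)) :=
          mul_le_mul_of_nonneg_right hv (by positivity)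
      _ = psD L (mexJ L (Nat.succ J1)) s2 * ((‖s‖ ^ g) ^ (J1 + 2) * (‖t‖ ^ g) ^ (J1 + 1)) * (‖t‖ ^ g) ^ k *
            (‖s‖ ^ g) ^ k := by ring
      _ ≤ psD L (mexJ L (Nat.succ J1)) s2 * ((‖s‖ ^ g) ^ (J1 + 2) * (‖t‖ ^ g) ^ (J1 + 1)) * (‖t‖ ^ g) ^ k :=
          mul_le_of_le_one_right (by positivity) hQk
  have hdown : ∑ p ∈ S.filter (fun p => ¬ (J1 : ℤ) + 1 ≤ p), ‖c1 g s t v 0 p‖ ≤
      psF L 0 0 (Nat.mul 64 (Nat.succ K1)) s2 s3 / (1 - ‖t‖ ^ g) := by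
    refine tail_down (fun p => ‖c1 g s t v 0 p‖) (-(3 + (K1 : ℤ))) _ (‖t‖ ^ g) hT0.le hT1
      (fun p => norm_nonneg _) (fun k => ?_) _ (fun p hp => ?_)
    · show ‖c1 g s t v 0 (-(3 + (K1 : ℤ)) - (k : ℤ))‖ ≤ _
      obtain ⟨N, hN⟩ : ∃ N : ℕ, N = g * (K1 + 1 + k) := ⟨_, rfl⟩
      have e1 : (-(3 + (K1 : ℤ)) - (k : ℤ)) * g = -((N : ℤ)) - 2 * g := by
        rw [hN]; push_cast; ring
      have e2 : (-((N : ℤ)) - 2 * g + g).toNat = 0 := by omega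
      have e3 : (-((N : ℤ)) - 2 * g).toNat = 0 := by omega
      rw [c1_norm hs, e1, e2, e3, pow_zero, pow_zero, mul_one, mul_one, C.psF_eq, psD_zero, one_mul]
      have eb : ((Nat.mul 64 (Nat.succ K1) : ℕ) : ℝ) / 64 = ((K1 + 1 : ℕ) : ℝ) := by
        have : Nat.mul 64 (Nat.succ K1) = 64 * (K1 + 1) := rfl
        rw [this]; push_cast; ring
      rw [eb, Real.rpow_natCast, Nat.cast_zero, zero_div, Real.rpow_zero, one_mul, ← pow_add]
      have h1 := C.H.size_L (-((N : ℤ)) - 2 * g) (by omega) ((K1 + 1 + k : ℕ) : ℝ) (Nat.cast_nonneg _) (by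
        rw [hN]
        push_cast
        linarith)
      rw [Real.rpow_natCast] at h1
      exact h1
    · obtain ⟨hpS, hpn⟩ := Finset.mem_filter.1 hp
      by_contra hcc
      have hmem : p ∈ Finset.Icc (-(2 + (K1 : ℤ))) (J1 : ℤ) := by
        rw [Finset.mem_Icc]
        omega
      exact (Finset.disjoint_left.1 hS hpS) hmem
  have hge : ∀ m a c : ℕ, psF L m a c s2 s3 / (1 - ‖t‖ ^ g) ≤
      (geo (Nat.add (mx4 (valF L m a c)) 8) (omtF L) : ℝ) / 2 ^ 40 := by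
    intro m a c
    refine geo_ge _ _ _ _ hom ?_ ?_ hT0.le homt
    · rw [C.psF_eq]
      have := psD_pos (L := L) m s2
      positivity
    · rw [F2G_cast]
      exact psF_le C.G m a c s2 s3 C.h2 C.h3
  rw [hsplit, add_div]
  exact add_le_add (hup.trans (hge _ _ _)) (hdown.trans (hge _ _ _))

/-- unit lattice, second corner -/
theorem CtxF.tail_2 (C : CtxF L g b s t v s1 s2 s3) (hD : Nat.shiftRight L.D1.a 10 < 1099511627775) (J1 K1 : ℕ)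
    (S : Finset ℤ) (hS : Disjoint S (Finset.Icc (-(2 + (K1 : ℤ))) (J1 : ℤ))) :
    ∑ p ∈ S, ‖c2 g s t v 0 p‖ ≤
      ((geo (Nat.add (mx4 (valF L (mexJ L (Nat.succ J1)) 0 (Nat.mul 64 (Nat.succ J1)))) 8) (omtF L) : ℕ) +
        (geo (Nat.add (mx4 (valF L 0 (Nat.mul 64 (Nat.add 2 K1)) (Nat.mul 64 (Nat.succ K1)))) 8) (omtF L) : ℕ) : ℝ) /
          2 ^ 40 := by
  classical
  obtain ⟨hs0, hs1, hQ0, hQ1⟩ := C.H.s01
  obtain ⟨ht0, ht1, hT0, hT1, -⟩ := C.H.t01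
  obtain ⟨-, hom, -, homt⟩ := C.om_facts hD
  have hg := C.H.hg
  have hsplit : ∑ p ∈ S, ‖c2 g s t v 0 p‖ =
      ∑ p ∈ S.filter (fun p => (J1 : ℤ) + 1 ≤ p), ‖c2 g s t v 0 p‖ +
        ∑ p ∈ S.filter (fun p => ¬ (J1 : ℤ) + 1 ≤ p), ‖c2 g s t v 0 p‖ :=
    (Finset.sum_filter_add_sum_filter_not S (fun p => (J1 : ℤ) + 1 ≤ p) _).symm
  have hup : ∑ p ∈ S.filter (fun p => (J1 : ℤ) + 1 ≤ p), ‖c2 g s t v 0 p‖ ≤
      psF L (mexJ L (Nat.succ J1)) 0 (Nat.mul 64 (Nat.succ J1)) s2 s3 / (1 - ‖t‖ ^ g) := by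
    refine tail_up (fun p => ‖c2 g s t v 0 p‖) ((J1 : ℤ) + 1) _ (‖t‖ ^ g) hT0.le hT1
      (fun p => norm_nonneg _) (fun k => ?_) _ (fun p hp => (Finset.mem_filter.1 hp).2)
    show ‖c2 g s t v 0 ((J1 : ℤ) + 1 + (k : ℤ))‖ ≤ _
    have e0 : (J1 : ℤ) + 1 + (k : ℤ) = ((J1 + 1 + k : ℕ) : ℤ) := by push_cast; ring
    have e1 : ((J1 + 1 + k : ℕ) : ℤ) * g = (((J1 + 1 : ℕ) : ℤ) + k) * g := by push_cast; ring
    have e2 : (-(((J1 + 1 + k : ℕ) : ℤ) * g) - g).toNat = 0 := by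
      have : (0 : ℤ) ≤ ((J1 + 1 + k : ℕ) : ℤ) * g := by positivity
      omega
    rw [e0, c2_norm, F2G_toNat1, e2, pow_zero, one_mul, pow_mul, e1, C.psF_eq]
    have hv := F2G_sizeJ C (J1 + 1) k
    have hps := psD_pos (L := L) (mexJ L (Nat.succ J1)) s2
    have eb : ((Nat.mul 64 (Nat.succ J1) : ℕ) : ℝ) / 64 = ((J1 + 1 : ℕ) : ℝ) := by
      have : Nat.mul 64 (Nat.succ J1) = 64 * (J1 + 1) := rfl
      rw [this]; push_cast; ring
    rw [eb, Real.rpow_natCast, Nat.cast_zero, zero_div, Real.rpow_zero, one_mul]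
    calc ‖v ((((J1 + 1 : ℕ) : ℤ) + k) * g)‖ * (‖t‖ ^ g) ^ (J1 + 1 + k)
        ≤ psD L (mexJ L (Nat.succ J1)) s2 * (‖t‖ ^ g) ^ (J1 + 1 + k) :=
          mul_le_mul_of_nonneg_right hv (by positivity)
      _ = psD L (mexJ L (Nat.succ J1)) s2 * (‖t‖ ^ g) ^ (J1 + 1) * (‖t‖ ^ g) ^ k := by ring
  have hdown : ∑ p ∈ S.filter (fun p => ¬ (J1 : ℤ) + 1 ≤ p), ‖c2 g s t v 0 p‖ ≤
      psF L 0 (Nat.mul 64 (Nat.add 2 K1)) (Nat.mul 64 (Nat.succ K1)) s2 s3 / (1 - ‖t‖ ^ g) := by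
    refine tail_down (fun p => ‖c2 g s t v 0 p‖) (-(3 + (K1 : ℤ))) _ (‖t‖ ^ g) hT0.le hT1
      (fun p => norm_nonneg _) (fun k => ?_) _ (fun p hp => ?_)
    · show ‖c2 g s t v 0 (-(3 + (K1 : ℤ)) - (k : ℤ))‖ ≤ _
      obtain ⟨N, hN⟩ : ∃ N : ℕ, N = g * (K1 + 1 + k) := ⟨_, rfl⟩
      have e1 : (-(3 + (K1 : ℤ)) - (k : ℤ)) * g = -((N : ℤ)) - 2 * g := by
        rw [hN]; push_cast; ring
      have e2 : (-(-((N : ℤ)) - 2 * g) - g).toNat = g * (K1 + 2 + k) := by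
        have : -(-((N : ℤ)) - 2 * g) - g = ((g * (K1 + 2 + k) : ℕ) : ℤ) := by
          rw [hN]; push_cast; ring
        rw [this, Int.toNat_natCast]
      have e3 : (-((N : ℤ)) - 2 * g).toNat = 0 := by omega
      rw [c2_norm, e1, e2, e3, pow_zero, mul_one, C.psF_eq, psD_zero, one_mul, pow_mul]
      have ea : ((Nat.mul 64 (Nat.add 2 K1) : ℕ) : ℝ) / 64 = ((K1 + 2 : ℕ) : ℝ) := by
        have : Nat.mul 64 (Nat.add 2 K1) = 64 * (2 + K1) := rfl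
        rw [this]; push_cast; ring
      have eb : ((Nat.mul 64 (Nat.succ K1) : ℕ) : ℝ) / 64 = ((K1 + 1 : ℕ) : ℝ) := by
        have : Nat.mul 64 (Nat.succ K1) = 64 * (K1 + 1) := rfl
        rw [this]; push_cast; ring
      rw [ea, eb, Real.rpow_natCast, Real.rpow_natCast]
      have h1 := C.H.size_L (-((N : ℤ)) - 2 * g) (by omega) ((K1 + 1 + k : ℕ) : ℝ) (Nat.cast_nonneg _) (by
        rw [hN]
        push_cast
        linarith)
      rw [Real.rpow_natCast] at h1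
      have hQk : (‖s‖ ^ g) ^ k ≤ 1 := pow_le_one₀ hQ0.le hQ1.le
      calc ‖v (-((N : ℤ)) - 2 * g)‖ * (‖s‖ ^ g) ^ (K1 + 2 + k)
          ≤ (‖t‖ ^ g) ^ (K1 + 1 + k) * (‖s‖ ^ g) ^ (K1 + 2 + k) :=
            mul_le_mul_of_nonneg_right h1 (by positivity)
        _ = (‖s‖ ^ g) ^ (K1 + 2) * (‖t‖ ^ g) ^ (K1 + 1) * (‖t‖ ^ g) ^ k * (‖s‖ ^ g) ^ k := by ring
        _ ≤ (‖s‖ ^ g) ^ (K1 + 2) * (‖t‖ ^ g) ^ (K1 + 1) * (‖t‖ ^ g) ^ k :=
            mul_le_of_le_one_right (by positivity) hQk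
    · obtain ⟨hpS, hpn⟩ := Finset.mem_filter.1 hp
      by_contra hcc
      have hmem : p ∈ Finset.Icc (-(2 + (K1 : ℤ))) (J1 : ℤ) := by
        rw [Finset.mem_Icc]
        omega
      exact (Finset.disjoint_left.1 hS hpS) hmem
  have hge : ∀ m a c : ℕ, psF L m a c s2 s3 / (1 - ‖t‖ ^ g) ≤
      (geo (Nat.add (mx4 (valF L m a c)) 8) (omtF L) : ℝ) / 2 ^ 40 := by
    intro m a c
    refine geo_ge _ _ _ _ hom ?_ ?_ hT0.le homt
    · rw [C.psF_eq]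
      have := psD_pos (L := L) m s2
      positivity
    · rw [F2G_cast]
      exact psF_le C.G m a c s2 s3 C.h2 C.h3
  rw [hsplit, add_div]
  exact add_le_add (hup.trans (hge _ _ _)) (hdown.trans (hge _ _ _))

/-- third corner: beyond the last power the positions are `≥ b`, each step multiplies the bound by `D`; below the first
power the positions are `≤ -2 g` and each step multiplies the bound (`c3_left` with `P = kXF/64 + k b/g`) by
`(‖s‖ ^ g (‖t‖ ^ g) ^ 2) ^ (b/g) ≤ ‖s‖ ^ g ≤ D` -/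
theorem CtxF.tail_3 (C : CtxF L g b s t v s1 s2 s3) (hD : Nat.shiftRight L.D1.a 10 < 1099511627775) (P j : ℕ)
    (hj : 61 ≤ j ∧ j ≤ 67) (y : ℕ × ℕ) (hok : okF1 L P j y = true) (S : Finset ℤ)
    (hS : Disjoint S (Finset.Ico ((y.1 : ℤ) - 32) ((y.1 : ℤ) + y.2 - 32))) :
    ∑ p ∈ S, ‖c3 g b s t v (jI j) p‖ ≤
      ((geo (Nat.add (mx4 (labF L (Nat.add y.1 y.2) j).v) 8) (omDF L) : ℕ) +
        (geo (Nat.add (mx4 (labF L (Nat.sub y.1 1) j).v) 8) (omDF L) : ℕ) : ℝ) / 2 ^ 40 := by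
  classical
  obtain ⟨hs0, hs1, hQ0, hQ1⟩ := C.H.s01
  obtain ⟨ht0, ht1, hT0, hT1, hTQ⟩ := C.H.t01
  obtain ⟨hom, -, homD, -⟩ := C.om_facts hD
  obtain ⟨-, -, -, hD0, hD1⟩ := DtF_facts C.G s2 C.h2
  have hDle := C.D_le
  have ht : t ≠ 0 := norm_pos_iff.1 ht0
  have hg := C.H.hg
  have hgr : (0 : ℝ) < g := by exact_mod_cast hg
  have hb := C.H.b0
  obtain ⟨r1, n1b, hi1⟩ := okF1_up hg C.I hj hok
  obtain ⟨r0, l0, hk0, hy1, hy2⟩ := okF1_down hg C.I hj hok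
  have e1 : Nat.add y.1 y.2 = y.1 + y.2 := rfl
  have e0 : Nat.sub y.1 1 = y.1 - 1 := rfl
  rw [e1, e0]
  obtain ⟨i1, hi1d⟩ : ∃ i1, i1 = y.1 + y.2 := ⟨_, rfl⟩
  obtain ⟨i0, hi0d⟩ : ∃ i0, i0 = y.1 - 1 := ⟨_, rfl⟩
  rw [← hi1d] at r1 n1b hi1 ⊢
  rw [← hi0d] at r0 l0 hk0 ⊢
  have hsplit : ∑ p ∈ S, ‖c3 g b s t v (jI j) p‖ =
      ∑ p ∈ S.filter (fun p => iI i1 ≤ p), ‖c3 g b s t v (jI j) p‖ +
        ∑ p ∈ S.filter (fun p => ¬ iI i1 ≤ p), ‖c3 g b s t v (jI j) p‖ :=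
    (Finset.sum_filter_add_sum_filter_not S (fun p => iI i1 ≤ p) _).symm
  -- upper part
  have hup : ∑ p ∈ S.filter (fun p => iI i1 ≤ p), ‖c3 g b s t v (jI j) p‖ ≤
      psC L i1 j s2 s3 / (1 - DtF L s2) := by
    refine tail_up (fun p => ‖c3 g b s t v (jI j) p‖) (iI i1) (psC L i1 j s2 s3) (DtF L s2) hD0.le hD1
      (fun p => norm_nonneg _) (fun k => ?_) _ (fun p hp => (Finset.mem_filter.1 hp).2)
    show ‖c3 g b s t v (jI j) (iI i1 + (k : ℤ))‖ ≤ _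
    have hn : jI j * g + (iI i1 + (k : ℤ)) * b = nI g b i1 j + k * b := by
      unfold nI
      ring
    have hkb : 0 ≤ (k : ℤ) * b := by positivity
    have hn0 : (b : ℤ) ≤ nI g b i1 j + k * b := by linarith
    have hpsC : psC L i1 j s2 s3 = psD L (mXF L i1 j) s2 := by
      unfold psC
      rw [if_pos r1, C.psF_eq]
      simp
    rw [c3_norm ht, hn, hpsC]
    have z1 : (-(nI g b i1 j + (k : ℤ) * b) - g).toNat = 0 := by omega
    have z2 : (-(nI g b i1 j + (k : ℤ) * b)).toNat = 0 := by omega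
    rw [z1, z2, pow_zero, pow_zero, mul_one, mul_one]
    have hm := (labF_right hg C.I (i := i1) (j := j) (by omega) r1).2
    have n1b' : (b : ℝ) ≤ (nI g b i1 j : ℝ) := by exact_mod_cast n1b
    have hmb : (mXF L i1 j : ℝ) / 256 * b ≤ (nI g b i1 j : ℝ) - b := by
      rcases hm with hm | ⟨-, hm⟩
      · rw [hm]
        simp
        linarith
      · have : (mXF L i1 j : ℝ) * b ≤ 256 * ((nI g b i1 j : ℝ) - b) := by exact_mod_cast hm
        linarith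
    have h1 := C.H.size_R (nI g b i1 j + (k : ℤ) * b) hn0 ((mXF L i1 j : ℝ) / 256 + k) (by positivity) (by
      push_cast
      linarith [add_mul ((mXF L i1 j : ℝ) / 256) (k : ℝ) (b : ℝ)])
    have hm0 : (0 : ℝ) ≤ (mXF L i1 j : ℝ) / 256 := by positivity
    calc ‖v (nI g b i1 j + (k : ℤ) * b)‖ ≤ (‖s‖ ^ g + 1 / 100000) ^ ((mXF L i1 j : ℝ) / 256 + k) := h1
      _ ≤ DtF L s2 ^ ((mXF L i1 j : ℝ) / 256 + k) :=
          Real.rpow_le_rpow (by linarith) hDle (by positivity)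
      _ = DtF L s2 ^ ((mXF L i1 j : ℝ) / 256) * DtF L s2 ^ k := by
          rw [Real.rpow_add hD0, Real.rpow_natCast]
      _ ≤ psD L (mXF L i1 j) s2 * DtF L s2 ^ k :=
          mul_le_mul_of_nonneg_right (psD_ge C.G s2 C.h2 _) (pow_nonneg hD0.le k)
  -- lower part
  have hdown : ∑ p ∈ S.filter (fun p => ¬ iI i1 ≤ p), ‖c3 g b s t v (jI j) p‖ ≤
      psC L i0 j s2 s3 / (1 - DtF L s2) := by
    refine tail_down (fun p => ‖c3 g b s t v (jI j) p‖) (iI i0) (psC L i0 j s2 s3) (DtF L s2) hD0.le hD1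
      (fun p => norm_nonneg _) (fun k => ?_) _ (fun p hp => ?_)
    · show ‖c3 g b s t v (jI j) (iI i0 - (k : ℤ))‖ ≤ _
      have hn : jI j * g + (iI i0 - (k : ℤ)) * b = nI g b i0 j - k * b := by
        unfold nI
        ring
      obtain ⟨-, hkX⟩ := labF_left hg C.I (i := i0) (j := j) (by omega) l0
      have hkX' : (kXF L i0 j : ℝ) * g ≤ -(64 * (nI g b i0 j : ℝ)) := by exact_mod_cast hkX
      have hk0' : (128 : ℝ) ≤ kXF L i0 j := by exact_mod_cast hk0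
      obtain ⟨w, hw⟩ : ∃ w : ℝ, w = (k : ℝ) * ((b : ℝ) / g) := ⟨_, rfl⟩
      have hw0 : 0 ≤ w := by rw [hw]; positivity
      have hwg : w * g = (k : ℝ) * b := by
        rw [hw]; field_simp
      obtain ⟨X, hX⟩ : ∃ X : ℝ, X = (kXF L i0 j : ℝ) / 64 := ⟨_, rfl⟩
      have hX2 : 2 ≤ X := by rw [hX, le_div_iff₀ (by norm_num)]; linarith
      have h1 := C.H.c3_left (jI j) (iI i0 - (k : ℤ)) (X + w) (by linarith) (by
        rw [hn]
        push_cast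
        have : X * g ≤ -(nI g b i0 j : ℝ) := by
          rw [hX, div_mul_eq_mul_div, div_le_iff₀ (by norm_num)]
          linarith
        linarith [add_mul X w (g : ℝ)])
      rw [max_eq_left (by linarith), max_eq_left (by linarith)] at h1
      refine h1.trans ?_
      have hpsC : psC L i0 j s2 s3 = (‖s‖ ^ g) ^ (X - 1) * (‖t‖ ^ g) ^ (2 * X - 2) := by
        unfold psC
        rw [if_neg (by rw [r0]; simp), if_pos l0, C.psF_eq, psD_zero, one_mul]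
        have ea : ((kXF L i0 j - 64 : ℕ) : ℝ) / 64 = X - 1 := by
          rw [Nat.cast_sub (by omega), hX]; push_cast; ring
        have eb : ((kXF L i0 j + (kXF L i0 j - 128) : ℕ) : ℝ) / 64 = 2 * X - 2 := by
          rw [Nat.cast_add, Nat.cast_sub hk0, hX]; push_cast; ring
        rw [ea, eb]
      rw [hpsC]
      obtain ⟨Q, hQd⟩ : ∃ Q : ℝ, Q = ‖s‖ ^ g := ⟨_, rfl⟩
      obtain ⟨T, hTd⟩ : ∃ T : ℝ, T = ‖t‖ ^ g := ⟨_, rfl⟩
      rw [← hQd] at hQ0 hQ1 hTQ hDle ⊢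
      rw [← hTd] at hT0 hT1 hTQ ⊢
      have eq1 : Q ^ (X + w - 1) = Q ^ (X - 1) * Q ^ w := by
        rw [← Real.rpow_add hQ0, show X - 1 + w = X + w - 1 by ring]
      have eq2 : T ^ (X + w + (X + w - 2)) = T ^ (2 * X - 2) * T ^ (2 * w) := by
        rw [← Real.rpow_add hT0, show 2 * X - 2 + 2 * w = X + w + (X + w - 2) by ring]
      rw [eq1, eq2]
      have hstep : Q ^ w * T ^ (2 * w) ≤ DtF L s2 ^ k := by
        obtain ⟨E, hE⟩ : ∃ E : ℝ, E = Q + 1 / 100000 := ⟨_, rfl⟩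
        rw [← hE] at hTQ hDle
        have hE0 : 0 < E := by rw [hE]; linarith
        have hE1 : E ≤ 1 := by linarith
        have hQE : Q ≤ E := by rw [hE]; linarith
        have hbg : (17 : ℝ) / 20 ≤ (b : ℝ) / g := by
          rw [le_div_iff₀ hgr]
          have : (17 : ℝ) * g < 20 * b := by exact_mod_cast C.H.hb
          linarith
        calc Q ^ w * T ^ (2 * w) ≤ E ^ w * E ^ (2 * w) :=
              mul_le_mul (Real.rpow_le_rpow hQ0.le hQE hw0) (Real.rpow_le_rpow hT0.le hTQ (by linarith))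
                (Real.rpow_nonneg hT0.le _) (Real.rpow_nonneg hE0.le _)
          _ = E ^ (3 * w) := by
              rw [← Real.rpow_add hE0, show w + 2 * w = 3 * w by ring]
          _ ≤ E ^ (k : ℝ) := by
              refine Real.rpow_le_rpow_of_exponent_ge hE0 hE1 ?_
              rw [hw]
              have hk : (0 : ℝ) ≤ k := Nat.cast_nonneg k
              have hk2 : (k : ℝ) * (17 / 20) ≤ k * ((b : ℝ) / g) := mul_le_mul_of_nonneg_left hbg hk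
              linarith
          _ = E ^ k := Real.rpow_natCast _ _
          _ ≤ DtF L s2 ^ k := pow_le_pow_left₀ hE0.le hDle k
      calc Q ^ (X - 1) * Q ^ w * (T ^ (2 * X - 2) * T ^ (2 * w)) =
            Q ^ (X - 1) * T ^ (2 * X - 2) * (Q ^ w * T ^ (2 * w)) := by ring
        _ ≤ Q ^ (X - 1) * T ^ (2 * X - 2) * DtF L s2 ^ k :=
            mul_le_mul_of_nonneg_left hstep (mul_nonneg (Real.rpow_nonneg hQ0.le _) (Real.rpow_nonneg hT0.le _))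
    · obtain ⟨hpS, hpn⟩ := Finset.mem_filter.1 hp
      by_contra hcc
      have hmem : p ∈ Finset.Ico ((y.1 : ℤ) - 32) ((y.1 : ℤ) + y.2 - 32) := by
        rw [Finset.mem_Ico]
        unfold iI at hpn hcc
        omega
      exact (Finset.disjoint_left.1 hS hpS) hmem
  have hge : ∀ i : ℕ, psC L i j s2 s3 / (1 - DtF L s2) ≤
      (geo (Nat.add (mx4 (labF L i j).v) 8) (omDF L) : ℝ) / 2 ^ 40 := by
    intro i
    refine geo_ge _ _ _ _ hom (C.psC_pos i j).le ?_ hD0.le homD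
    rw [F2G_cast]
    exact C.psC_le i j
  rw [hsplit, add_div]
  exact add_le_add (hup.trans (hge _)) (hdown.trans (hge _))

end Pool.Agent.MaxTerm59b
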