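import Pool.Agent.MaxTerm59b.MvDef

/-! Mismatched vertex with a generic ratio: the list of the labels. -/

namespace Pool.Agent.MaxTerm59b
open Finset

/-- labels of the right classes from `j` on -/
def labsR : List (ℕ × ℕ) → ℕ → List (ℕ × ℕ)
  | [], _ => []
  | y :: t, j => (((List.range y.2).map fun k => (y.1 + k, j)).filter fun l => !isConst l.1 l.2) ++ labsR t (j + 1)

/-- labels of the left classes from `i` on -/
def labsL : List (ℕ × ℕ) → ℕ → List (ℕ × ℕ)
  | [], _ => []
  | y :: t, i => (((List.range y.2).map fun k => (i, y.1 + k)).filter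
      fun l => !(Nat.ble 61 l.2 && Nat.ble l.2 67)) ++ labsL t (i + 1)

private theorem MvG_rowR (L : LMV) (tR tL : Tab) (j n : ℕ) : ∀ (i : ℕ) (r : List Item),
    rowR L tR tL j n i r = ((((List.range n).map fun k => (i + k, j)).filter
      fun l => !isConst l.1 l.2).map (fun l => mkItem L tR tL l.1 l.2)) ++ r := by
  induction n with
  | zero => intro i r; rfl
  | succ n ih =>
    intro i r
    have h : rowR L tR tL j (n + 1) i r = cond (isConst i j) (rowR L tR tL j n (i + 1) r)
      (mkItem L tR tL i j :: rowR L tR tL j n (i + 1) r) := rfl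
    have h2 : ((List.range (n + 1)).map fun k => (i + k, j)) =
        (i, j) :: ((List.range n).map fun k => (i + 1 + k, j)) := by
      rw [List.range_succ_eq_map, List.map_cons, List.map_map]
      congr 1
      apply List.map_congr_left
      intro k _
      simp only [Function.comp]
      congr 1
      omega
    rw [h, h2, ih]
    cases hc : isConst i j
    · rw [List.filter_cons_of_pos (by simp [hc])]
      simp
    · rw [List.filter_cons_of_neg (by simp [hc])]
      simp

theorem allR_eq (L : LMV) (tR tL : Tab) (rg : List (ℕ × ℕ)) (j : ℕ) (r : List Item) :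
    allR L tR tL rg j r = (labsR rg j).map (fun l => mkItem L tR tL l.1 l.2) ++ r := by
  induction rg generalizing j with
  | nil => rfl
  | cons y t ih =>
    have h : allR L tR tL (y :: t) j r = rowR L tR tL j y.2 y.1 (allR L tR tL t (j + 1) r) := rfl
    rw [h, ih, MvG_rowR, labsR, List.map_append, List.append_assoc]

private theorem MvG_rowL (L : LMV) (tR tL : Tab) (i n : ℕ) : ∀ (j : ℕ) (r : List Item),
    rowL L tR tL i n j r = ((((List.range n).map fun k => (i, j + k)).filter
      fun l => !(Nat.ble 61 l.2 && Nat.ble l.2 67)).map (fun l => mkItem L tR tL l.1 l.2)) ++ r := by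
  induction n with
  | zero => intro i r; rfl
  | succ n ih =>
    intro j r
    have h : rowL L tR tL i (n + 1) j r = cond (Bool.and (Nat.ble 61 j) (Nat.ble j 67)) (rowL L tR tL i n (j + 1) r)
      (mkItem L tR tL i j :: rowL L tR tL i n (j + 1) r) := rfl
    have h2 : ((List.range (n + 1)).map fun k => (i, j + k)) =
        (i, j) :: ((List.range n).map fun k => (i, j + 1 + k)) := by
      rw [List.range_succ_eq_map, List.map_cons, List.map_map]
      congr 1
      apply List.map_congr_left
      intro k _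
      simp only [Function.comp]
      congr 1
      omega
    rw [h, h2, ih]
    cases hc : (Nat.ble 61 j && Nat.ble j 67)
    · rw [List.filter_cons_of_pos (by simp only [hc]; rfl)]
      rfl
    · rw [List.filter_cons_of_neg (by simp only [hc]; decide)]
      rfl

theorem allL_eq (L : LMV) (tR tL : Tab) (rg : List (ℕ × ℕ)) (i : ℕ) (r : List Item) :
    allL L tR tL rg i r = (labsL rg i).map (fun l => mkItem L tR tL l.1 l.2) ++ r := by
  induction rg generalizing i with
  | nil => rfl
  | cons y t ih =>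
    have h : allL L tR tL (y :: t) i r = rowL L tR tL i y.2 y.1 (allL L tR tL t (i + 1) r) := rfl
    rw [h, ih, MvG_rowL, labsL, List.map_append, List.append_assoc]

theorem mem_labsR (rg : List (ℕ × ℕ)) (j0 : ℕ) (l : ℕ × ℕ) :
    l ∈ labsR rg j0 ↔ ∃ e < rg.length, l.2 = j0 + e ∧ (rg.getD e (0, 0)).1 ≤ l.1 ∧
      l.1 < (rg.getD e (0, 0)).1 + (rg.getD e (0, 0)).2 ∧ isConst l.1 l.2 = false := by
  induction rg generalizing j0 with
  | nil => simp [labsR]
  | cons y t ih =>
    rw [labsR, List.mem_append, ih]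
    constructor
    · rintro (h | ⟨e, he, h1, h2, h3, h4⟩)
      · rw [List.mem_filter, List.mem_map] at h
        obtain ⟨⟨k, hk, hl⟩, hc⟩ := h
        rw [List.mem_range] at hk
        refine ⟨0, by simp, ?_⟩
        rw [← hl] at hc ⊢
        simp only [List.getD_cons_zero]
        refine ⟨rfl, by omega, by omega, ?_⟩
        simpa using hc
      · refine ⟨e + 1, by simpa using he, ?_⟩
        simp only [List.getD_cons_succ]
        exact ⟨by omega, h2, h3, h4⟩
    · rintro ⟨e, he, h1, h2, h3, h4⟩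
      rcases e with _ | e
      · left
        simp only [List.getD_cons_zero] at h2 h3
        rw [List.mem_filter, List.mem_map]
        refine ⟨⟨l.1 - y.1, ?_, ?_⟩, ?_⟩
        · rw [List.mem_range]; omega
        · apply Prod.ext
          · simp only []; omega
          · simp only []; omega
        · simp [h4]
      · right
        simp only [List.getD_cons_succ] at h2 h3
        exact ⟨e, by simpa using he, by omega, h2, h3, h4⟩

private theorem MvG_blt (j : ℕ) : (!(Nat.ble 61 j && Nat.ble j 67)) = true ↔ ¬ (61 ≤ j ∧ j ≤ 67) := by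
  rw [Bool.not_eq_true', Bool.and_eq_false_iff]
  rw [← Bool.not_eq_true, ← Bool.not_eq_true, Nat.ble_eq, Nat.ble_eq]
  tauto

theorem mem_labsL (rg : List (ℕ × ℕ)) (i0 : ℕ) (l : ℕ × ℕ) :
    l ∈ labsL rg i0 ↔ ∃ e < rg.length, l.1 = i0 + e ∧ (rg.getD e (0, 0)).1 ≤ l.2 ∧
      l.2 < (rg.getD e (0, 0)).1 + (rg.getD e (0, 0)).2 ∧ ¬ (61 ≤ l.2 ∧ l.2 ≤ 67) := by
  induction rg generalizing i0 with
  | nil => simp [labsL]
  | cons y t ih =>
    rw [labsL, List.mem_append, ih]
    constructor
    · rintro (h | ⟨e, he, h1, h2, h3, h4⟩)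
      · rw [List.mem_filter, List.mem_map] at h
        obtain ⟨⟨k, hk, hl⟩, hc⟩ := h
        rw [List.mem_range] at hk
        refine ⟨0, by simp, ?_⟩
        rw [← hl] at hc ⊢
        simp only [List.getD_cons_zero]
        refine ⟨rfl, by omega, by omega, ?_⟩
        rw [MvG_blt] at hc
        exact hc
      · refine ⟨e + 1, by simpa using he, ?_⟩
        simp only [List.getD_cons_succ]
        exact ⟨by omega, h2, h3, h4⟩
    · rintro ⟨e, he, h1, h2, h3, h4⟩
      rcases e with _ | e
      · left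
        simp only [List.getD_cons_zero] at h2 h3
        rw [List.mem_filter, List.mem_map]
        refine ⟨⟨l.2 - y.1, ?_, ?_⟩, ?_⟩
        · rw [List.mem_range]; omega
        · apply Prod.ext
          · simp only []; omega
          · simp only []; omega
        · rw [MvG_blt]; exact h4
      · right
        simp only [List.getD_cons_succ] at h2 h3
        exact ⟨e, by simpa using he, by omega, h2, h3, h4⟩

/-- all labels of a leaf -/
def labsM (rR rL : List (ℕ × ℕ)) (nL : ℕ) : List (ℕ × ℕ) := labsR rR 61 ++ labsL rL (32 - nL)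

private theorem MvG_nodupR (rg : List (ℕ × ℕ)) (j : ℕ) : (labsR rg j).Nodup := by
  induction rg generalizing j with
  | nil => exact List.nodup_nil
  | cons y t ih =>
    rw [labsR, List.nodup_append']
    refine ⟨?_, ih _, ?_⟩
    · apply List.Nodup.filter
      apply List.Nodup.map _ List.nodup_range
      intro a b h
      simp only [Prod.mk.injEq] at h
      omega
    · intro l h1 h2
      rw [List.mem_filter, List.mem_map] at h1
      obtain ⟨⟨k, _, hl⟩, _⟩ := h1
      rw [mem_labsR] at h2
      obtain ⟨e, _, h3, _⟩ := h2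
      rw [← hl] at h3
      simp only [] at h3
      omega

private theorem MvG_nodupL (rg : List (ℕ × ℕ)) (i : ℕ) : (labsL rg i).Nodup := by
  induction rg generalizing i with
  | nil => exact List.nodup_nil
  | cons y t ih =>
    rw [labsL, List.nodup_append']
    refine ⟨?_, ih _, ?_⟩
    · apply List.Nodup.filter
      apply List.Nodup.map _ List.nodup_range
      intro a b h
      simp only [Prod.mk.injEq] at h
      omega
    · intro l h1 h2
      rw [List.mem_filter, List.mem_map] at h1
      obtain ⟨⟨k, _, hl⟩, _⟩ := h1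
      rw [mem_labsL] at h2
      obtain ⟨e, _, h3, _⟩ := h2
      rw [← hl] at h3
      simp only [] at h3
      omega

theorem labsM_nodup (rR rL : List (ℕ × ℕ)) (nL : ℕ) (hR : rR.length = 7) : (labsM rR rL nL).Nodup := by
  rw [labsM, List.nodup_append']
  refine ⟨MvG_nodupR _ _, MvG_nodupL _ _, ?_⟩
  intro l h1 h2
  rw [mem_labsR] at h1
  rw [mem_labsL] at h2
  obtain ⟨e, he, h3, _⟩ := h1
  obtain ⟨_, _, _, _, _, h4⟩ := h2
  omega

/-- powers of a class as integers, offset `o` -/
noncomputable def rgF (rg : List (ℕ × ℕ)) (o : ℤ) (e : ℕ) : Finset ℤ :=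
  Finset.Ico (((rg.getD e (0, 0)).1 : ℤ) - o) (((rg.getD e (0, 0)).1 : ℤ) + (rg.getD e (0, 0)).2 - o)

/-- facts on the ranges used below -/
structure RgOK (rR rL : List (ℕ × ℕ)) (nL : ℕ) : Prop where
  n2 : nL ≤ 2
  lR : rR.length = 7
  lL : rL.length = 2 * nL + 1
  cR : ∀ e < 7, (rR.getD e (0, 0)).1 ≤ 32 - nL ∧ 33 + max nL 1 ≤ (rR.getD e (0, 0)).1 + (rR.getD e (0, 0)).2
  cL : ∀ e < 2 * nL + 1, (rL.getD e (0, 0)).1 ≤ 61 ∧ 68 ≤ (rL.getD e (0, 0)).1 + (rL.getD e (0, 0)).2

theorem okR_get {L : LMV} {P : ℕ} (rg : List (ℕ × ℕ)) (j : ℕ) (h : okR L P rg j = true) :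
    ∀ e < rg.length, okR1 L P (j + e) (rg.getD e (0, 0)) = true := by
  induction rg generalizing j with
  | nil => intro e he; simp at he
  | cons y t ih =>
    have h' : (okR1 L P j y && okR L P t (j + 1)) = true := h
    rw [Bool.and_eq_true] at h'
    intro e he
    rcases e with _ | e
    · exact h'.1
    · have := ih (j + 1) h'.2 e (by simpa using he)
      rw [List.getD_cons_succ]
      rwa [show j + (e + 1) = j + 1 + e by omega]

theorem okL_get {L : LMV} {P : ℕ} (rg : List (ℕ × ℕ)) (i : ℕ) (h : okL L P rg i = true) :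
    ∀ e < rg.length, okL1 L P (i + e) (rg.getD e (0, 0)) = true := by
  induction rg generalizing i with
  | nil => intro e he; simp at he
  | cons y t ih =>
    have h' : (okL1 L P i y && okL L P t (i + 1)) = true := h
    rw [Bool.and_eq_true] at h'
    intro e he
    rcases e with _ | e
    · exact h'.1
    · have := ih (i + 1) h'.2 e (by simpa using he)
      rw [List.getD_cons_succ]
      rwa [show i + (e + 1) = i + 1 + e by omega]

theorem okC_get (f : ℕ → Lb) (cnt i : ℕ) (h : okC f cnt i = true) : ∀ k, i ≤ k → k < i + cnt → (f k).ok = true := by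
  induction cnt generalizing i with
  | zero => intro k h1 h2; omega
  | succ n ih =>
    have h' : ((f i).ok && okC f n (i + 1)) = true := h
    rw [Bool.and_eq_true] at h'
    intro k h1 h2
    rcases Nat.eq_or_lt_of_le h1 with h3 | h3
    · rw [← h3]; exact h'.1
    · exact ih (i + 1) h'.2 k h3 (by omega)

private theorem MvG_sumR {V : Type*} [AddCommMonoid V] (F : ℕ × ℕ → V) (rg : List (ℕ × ℕ)) (j : ℕ) :
    ((labsR rg j).map F).sum = ∑ e ∈ range rg.length, ∑ k ∈ range (rg.getD e (0, 0)).2,
      if isConst ((rg.getD e (0, 0)).1 + k) (j + e) = true then 0 else F ((rg.getD e (0, 0)).1 + k, j + e) := by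
  induction rg generalizing j with
  | nil => simp [labsR]
  | cons y t ih =>
    rw [labsR, List.map_append, List.sum_append, ih, List.length_cons, Finset.sum_range_succ', add_comm]
    congr 1
    · apply Finset.sum_congr rfl
      intro e _
      rw [List.getD_cons_succ, show j + (e + 1) = j + 1 + e by omega]
    · rw [List.getD_cons_zero, Nat.add_zero]
      generalize y.2 = n
      induction n with
      | zero => rfl
      | succ n ihn =>
        rw [List.range_succ, List.map_append, List.filter_append, List.map_append, List.sum_append, ihn,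
          Finset.sum_range_succ]
        congr 1
        cases hc : isConst (y.1 + n) j
        · simp [hc]
        · simp [hc]

private theorem MvG_sumL {V : Type*} [AddCommMonoid V] (F : ℕ × ℕ → V) (rg : List (ℕ × ℕ)) (i : ℕ) :
    ((labsL rg i).map F).sum = ∑ e ∈ range rg.length, ∑ k ∈ range (rg.getD e (0, 0)).2,
      if 61 ≤ (rg.getD e (0, 0)).1 + k ∧ (rg.getD e (0, 0)).1 + k ≤ 67 then 0
        else F (i + e, (rg.getD e (0, 0)).1 + k) := by
  induction rg generalizing i with
  | nil => simp [labsL]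
  | cons y t ih =>
    rw [labsL, List.map_append, List.sum_append, ih, List.length_cons, Finset.sum_range_succ', add_comm]
    congr 1
    · apply Finset.sum_congr rfl
      intro e _
      rw [List.getD_cons_succ, show i + (e + 1) = i + 1 + e by omega]
    · rw [List.getD_cons_zero, Nat.add_zero]
      generalize y.2 = n
      induction n with
      | zero => rfl
      | succ n ihn =>
        rw [List.range_succ, List.map_append, List.filter_append, List.map_append, List.sum_append, ihn,
          Finset.sum_range_succ]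
        congr 1
        by_cases hc : 61 ≤ y.1 + n ∧ y.1 + n ≤ 67
        · rw [if_pos hc, List.map_singleton, List.filter_cons_of_neg]
          · rfl
          · rw [MvG_blt]; exact fun h => h hc
        · rw [if_neg hc, List.map_singleton, List.filter_cons_of_pos]
          · simp
          · rw [MvG_blt]; exact hc

private theorem MvG_isC (i j : ℕ) : isConst i j = true ↔ (j = 64 ∧ (i = 32 ∨ i = 33)) ∨ (i = 32 ∧ j = 63) := by
  have h : isConst i j = ((Nat.beq j 64 && (Nat.beq i 32 || Nat.beq i 33)) || (Nat.beq i 32 && Nat.beq j 63)) := rfl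
  rw [h]
  simp only [Bool.or_eq_true, Bool.and_eq_true, Nat.beq_eq]

/-- a sum over a range of natural numbers starting at `f` -/
private theorem MvG_shift {V : Type*} [AddCommMonoid V] (G : ℕ → V) (f n : ℕ) :
    ∑ k ∈ range n, G (f + k) = ∑ i ∈ Finset.Ico f (f + n), G i := by
  rw [Finset.sum_Ico_eq_sum_range]
  congr 2
  omega

private theorem MvG_rgF {V : Type*} [AddCommMonoid V] (G : ℤ → V) (rg : List (ℕ × ℕ)) (o : ℤ) (e : ℕ) :
    ∑ p ∈ rgF rg o e, G p = ∑ i ∈ Finset.Ico (rg.getD e (0, 0)).1 ((rg.getD e (0, 0)).1 + (rg.getD e (0, 0)).2),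
      G ((i : ℤ) - o) := by
  symm
  apply Finset.sum_bij (fun (i : ℕ) _ => (i : ℤ) - o)
  · intro i hi
    rw [Finset.mem_Ico] at hi
    rw [rgF, Finset.mem_Ico]
    omega
  · intro i _ j _ h
    have h' : (i : ℤ) - o = (j : ℤ) - o := h
    omega
  · intro p hp
    rw [rgF, Finset.mem_Ico] at hp
    refine ⟨(p + o).toNat, ?_, ?_⟩
    · rw [Finset.mem_Ico]; omega
    · omega
  · intro i _; rfl

private theorem MvG_sub {V : Type*} [AddCommMonoid V] (G : ℕ → V) (f n a b : ℕ) (ha : f ≤ a) (hb : b ≤ f + n)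
    (h0 : ∀ i, i < a ∨ b ≤ i → G i = 0) :
    ∑ i ∈ Finset.Ico f (f + n), G i = ∑ i ∈ Finset.Ico a b, G i := by
  symm
  apply Finset.sum_subset
  · intro i hi
    rw [Finset.mem_Ico] at hi ⊢
    omega
  · intro i _ hi
    rw [Finset.mem_Ico] at hi
    apply h0
    omega

/-- splitting of the two side sums into constants and labels -/
theorem side_split (rR rL : List (ℕ × ℕ)) (nL : ℕ) (H : RgOK rR rL nL) (A B : ℕ → ℤ → ℂ) :
    ∑ e ∈ range 7, ∑ p ∈ rgF rR 32 e, A e p + ∑ e ∈ range (2 * nL + 1), ∑ p ∈ rgF rL 64 e, B e p =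
      (A 3 0 + A 3 1 + A 2 0 + B nL 0 + B nL (-1) + if nL = 0 then 0 else B (nL + 1) 0) +
      ((labsM rR rL nL).map fun l =>
        (if 61 ≤ l.2 ∧ l.2 ≤ 67 then A (l.2 - 61) ((l.1 : ℤ) - 32) else 0) +
        (if 32 ≤ l.1 + nL ∧ l.1 ≤ 32 + nL then B (l.1 + nL - 32) ((l.2 : ℤ) - 64) else 0)).sum := by
  have n2 := H.n2
  -- the right side
  have hA : ∀ e ∈ range 7, ∑ p ∈ rgF rR 32 e, A e p =
      (∑ i ∈ Finset.Ico 32 34, if isConst i (61 + e) = true then A e ((i : ℤ) - 32) else 0) +
      ∑ k ∈ range (rR.getD e (0, 0)).2, if isConst ((rR.getD e (0, 0)).1 + k) (61 + e) = true then 0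
        else A e (((rR.getD e (0, 0)).1 + k : ℕ) - 32) := by
    intro e he
    rw [Finset.mem_range] at he
    obtain ⟨c1, c2⟩ := H.cR e he
    rw [MvG_rgF, MvG_shift (fun i => if isConst i (61 + e) = true then 0 else A e ((i : ℤ) - 32)),
      ← MvG_sub (fun i => if isConst i (61 + e) = true then A e ((i : ℤ) - 32) else 0) (rR.getD e (0, 0)).1
        (rR.getD e (0, 0)).2 32 34 (by omega) (by omega), ← Finset.sum_add_distrib]
    · apply Finset.sum_congr rfl
      intro i _
      by_cases hc : isConst i (61 + e) = true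
      · rw [if_pos hc, if_pos hc, add_zero]
      · rw [if_neg hc, if_neg hc, zero_add]
    · intro i hi
      rw [if_neg]
      rw [MvG_isC]
      omega
  have hA2 : ∑ e ∈ range 7, (∑ i ∈ Finset.Ico 32 34, if isConst i (61 + e) = true then A e ((i : ℤ) - 32) else 0) =
      A 3 0 + A 3 1 + A 2 0 := by
    rw [show Finset.Ico 32 34 = ({32, 33} : Finset ℕ) from rfl]
    simp only [Finset.sum_range_succ, Finset.sum_range_zero]
    norm_num [MvG_isC]
    ring
  -- the left side
  have hB : ∀ e ∈ range (2 * nL + 1), ∑ p ∈ rgF rL 64 e, B e p =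
      (∑ j ∈ Finset.Ico (61 : ℕ) 68, B e ((j : ℤ) - 64)) +
      ∑ k ∈ range (rL.getD e (0, 0)).2, if 61 ≤ (rL.getD e (0, 0)).1 + k ∧ (rL.getD e (0, 0)).1 + k ≤ 67 then 0
        else B e (((rL.getD e (0, 0)).1 + k : ℕ) - 64) := by
    intro e he
    rw [Finset.mem_range] at he
    obtain ⟨c1, c2⟩ := H.cL e he
    have h1 : ∑ j ∈ Finset.Ico (61 : ℕ) 68, B e ((j : ℤ) - 64) =
        ∑ j ∈ Finset.Ico (61 : ℕ) 68, if 61 ≤ j ∧ j ≤ 67 then B e ((j : ℤ) - 64) else 0 := by
      apply Finset.sum_congr rfl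
      intro j hj
      rw [Finset.mem_Ico] at hj
      rw [if_pos (by omega)]
    rw [h1, MvG_rgF, MvG_shift (fun j => if 61 ≤ j ∧ j ≤ 67 then 0 else B e ((j : ℤ) - 64)),
      ← MvG_sub (fun j => if 61 ≤ j ∧ j ≤ 67 then B e ((j : ℤ) - 64) else 0) (rL.getD e (0, 0)).1
        (rL.getD e (0, 0)).2 61 68 c1 c2, ← Finset.sum_add_distrib]
    · apply Finset.sum_congr rfl
      intro j _
      by_cases hc : 61 ≤ j ∧ j ≤ 67
      · rw [if_pos hc, if_pos hc, add_zero]
      · rw [if_neg hc, if_neg hc, zero_add]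
    · intro i hi
      rw [if_neg]
      omega
  have hB2 : ∑ e ∈ range (2 * nL + 1), ∑ j ∈ Finset.Ico (61 : ℕ) 68, B e ((j : ℤ) - 64) =
      (B nL 0 + B nL (-1) + if nL = 0 then 0 else B (nL + 1) 0) +
      ∑ e ∈ range 7, ∑ k ∈ range (rR.getD e (0, 0)).2, if isConst ((rR.getD e (0, 0)).1 + k) (61 + e) = true then 0
        else (if 32 ≤ (rR.getD e (0, 0)).1 + k + nL ∧ (rR.getD e (0, 0)).1 + k ≤ 32 + nL then
          B ((rR.getD e (0, 0)).1 + k + nL - 32) (((61 + e : ℕ) : ℤ) - 64) else 0) := by
    have h1 : ∀ e ∈ range 7, (∑ k ∈ range (rR.getD e (0, 0)).2,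
        if isConst ((rR.getD e (0, 0)).1 + k) (61 + e) = true then 0
        else (if 32 ≤ (rR.getD e (0, 0)).1 + k + nL ∧ (rR.getD e (0, 0)).1 + k ≤ 32 + nL then
          B ((rR.getD e (0, 0)).1 + k + nL - 32) (((61 + e : ℕ) : ℤ) - 64) else 0)) =
        ∑ i ∈ Finset.Ico (32 - nL) (33 + nL), if isConst i (61 + e) = true then 0 else
          B (i + nL - 32) (((61 + e : ℕ) : ℤ) - 64) := by
      intro e he
      rw [Finset.mem_range] at he
      obtain ⟨c1, c2⟩ := H.cR e he
      rw [MvG_shift (fun i => if isConst i (61 + e) = true then 0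
        else (if 32 ≤ i + nL ∧ i ≤ 32 + nL then B (i + nL - 32) (((61 + e : ℕ) : ℤ) - 64) else 0)),
        MvG_sub _ (rR.getD e (0, 0)).1 (rR.getD e (0, 0)).2 (32 - nL) (33 + nL) c1 (by omega)]
      · apply Finset.sum_congr rfl
        intro i hi
        rw [Finset.mem_Ico] at hi
        by_cases hc : isConst i (61 + e) = true
        · rw [if_pos hc, if_pos hc]
        · rw [if_neg hc, if_neg hc, if_pos (by omega)]
      · intro i hi
        by_cases hc : isConst i (61 + e) = true
        · rw [if_pos hc]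
        · rw [if_neg hc, if_neg (by omega)]
    rw [Finset.sum_congr rfl h1]
    have h2 : Finset.Ico (61 : ℕ) 68 = ({61, 62, 63, 64, 65, 66, 67} : Finset ℕ) := rfl
    rw [h2]
    interval_cases nL
    · rw [show Finset.Ico (32 - 0) (33 + 0) = ({32} : Finset ℕ) from rfl]
      simp only [Finset.sum_range_succ, Finset.sum_range_zero]
      norm_num [MvG_isC]
      ring
    · rw [show Finset.Ico (32 - 1) (33 + 1) = ({31, 32, 33} : Finset ℕ) from rfl]
      simp only [Finset.sum_range_succ, Finset.sum_range_zero]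
      norm_num [MvG_isC]
      ring
    · rw [show Finset.Ico (32 - 2) (33 + 2) = ({30, 31, 32, 33, 34} : Finset ℕ) from rfl]
      simp only [Finset.sum_range_succ, Finset.sum_range_zero]
      norm_num [MvG_isC]
      ring
  rw [Finset.sum_congr rfl hA, Finset.sum_congr rfl hB, Finset.sum_add_distrib, Finset.sum_add_distrib, hA2, hB2,
    labsM, List.map_append, List.sum_append, MvG_sumR, MvG_sumL, H.lR, H.lL]
  have e1 : (∑ e ∈ range 7, ∑ k ∈ range (rR.getD e (0, 0)).2,
      if isConst ((rR.getD e (0, 0)).1 + k) (61 + e) = true then 0 else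
        ((if 61 ≤ 61 + e ∧ 61 + e ≤ 67 then A (61 + e - 61) ((((rR.getD e (0, 0)).1 + k : ℕ) : ℤ) - 32) else 0) +
        (if 32 ≤ (rR.getD e (0, 0)).1 + k + nL ∧ (rR.getD e (0, 0)).1 + k ≤ 32 + nL then
          B ((rR.getD e (0, 0)).1 + k + nL - 32) (((61 + e : ℕ) : ℤ) - 64) else 0))) =
      (∑ e ∈ range 7, ∑ k ∈ range (rR.getD e (0, 0)).2, if isConst ((rR.getD e (0, 0)).1 + k) (61 + e) = true then 0
        else A e (((rR.getD e (0, 0)).1 + k : ℕ) - 32)) +
      ∑ e ∈ range 7, ∑ k ∈ range (rR.getD e (0, 0)).2, if isConst ((rR.getD e (0, 0)).1 + k) (61 + e) = true then 0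
        else (if 32 ≤ (rR.getD e (0, 0)).1 + k + nL ∧ (rR.getD e (0, 0)).1 + k ≤ 32 + nL then
          B ((rR.getD e (0, 0)).1 + k + nL - 32) (((61 + e : ℕ) : ℤ) - 64) else 0) := by
    rw [← Finset.sum_add_distrib]
    apply Finset.sum_congr rfl
    intro e he
    rw [Finset.mem_range] at he
    rw [← Finset.sum_add_distrib]
    apply Finset.sum_congr rfl
    intro k _
    by_cases hc : isConst ((rR.getD e (0, 0)).1 + k) (61 + e) = true
    · rw [if_pos hc, if_pos hc, if_pos hc, add_zero]
    · rw [if_neg hc, if_neg hc, if_neg hc, if_pos (show 61 ≤ 61 + e ∧ 61 + e ≤ 67 by omega),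
        show 61 + e - 61 = e by omega]
  have e2 : (∑ e ∈ range (2 * nL + 1), ∑ k ∈ range (rL.getD e (0, 0)).2,
      if 61 ≤ (rL.getD e (0, 0)).1 + k ∧ (rL.getD e (0, 0)).1 + k ≤ 67 then 0 else
        ((if 61 ≤ (rL.getD e (0, 0)).1 + k ∧ (rL.getD e (0, 0)).1 + k ≤ 67 then
          A ((rL.getD e (0, 0)).1 + k - 61) (((32 - nL + e : ℕ) : ℤ) - 32) else 0) +
        (if 32 ≤ 32 - nL + e + nL ∧ 32 - nL + e ≤ 32 + nL then
          B (32 - nL + e + nL - 32) ((((rL.getD e (0, 0)).1 + k : ℕ) : ℤ) - 64) else 0))) =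
      ∑ e ∈ range (2 * nL + 1), ∑ k ∈ range (rL.getD e (0, 0)).2,
        if 61 ≤ (rL.getD e (0, 0)).1 + k ∧ (rL.getD e (0, 0)).1 + k ≤ 67 then 0
        else B e (((rL.getD e (0, 0)).1 + k : ℕ) - 64) := by
    apply Finset.sum_congr rfl
    intro e he
    rw [Finset.mem_range] at he
    apply Finset.sum_congr rfl
    intro k _
    by_cases hc : 61 ≤ (rL.getD e (0, 0)).1 + k ∧ (rL.getD e (0, 0)).1 + k ≤ 67
    · rw [if_pos hc, if_pos hc]
    · rw [if_neg hc, if_neg hc, if_neg hc, zero_add, if_pos (by omega), show 32 - nL + e + nL - 32 = e by omega]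
  rw [e1, e2]
  ring

/-- number of terms -/
theorem card_le (rR rL : List (ℕ × ℕ)) (nL : ℕ) (H : RgOK rR rL nL) (h : (labsM rR rL nL).length ≤ 900) :
    ∑ e ∈ range 7, (rgF rR 32 e).card ≤ 2000 ∧ ∑ e ∈ range (2 * nL + 1), (rgF rL 64 e).card ≤ 2000 := by
  have n2 := H.n2
  have hR : (labsR rR 61).length + (labsL rL (32 - nL)).length ≤ 900 := by
    rw [labsM, List.length_append] at h
    exact h
  have hRs := MvG_sumR (fun _ => 1) rR 61
  have hLs := MvG_sumL (fun _ => 1) rL (32 - nL)
  rw [List.map_const', List.sum_replicate, smul_eq_mul, mul_one, H.lR] at hRs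
  rw [List.map_const', List.sum_replicate, smul_eq_mul, mul_one, H.lL] at hLs
  have hcard : ∀ (rg : List (ℕ × ℕ)) (o : ℤ) (e : ℕ), (rgF rg o e).card = (rg.getD e (0, 0)).2 := by
    intro rg o e
    rw [rgF, Int.card_Ico]
    omega
  have hone : ∀ (f n c : ℕ), ∑ k ∈ range n, (if f + k = c then 1 else 0) ≤ 1 := by
    intro f n c
    rw [← Finset.card_filter, Finset.card_le_one]
    intro a ha b hb
    rw [Finset.mem_filter] at ha hb
    omega
  constructor
  · have h1 : ∀ e ∈ range 7, (rgF rR 32 e).card ≤ (∑ k ∈ range (rR.getD e (0, 0)).2,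
        if isConst ((rR.getD e (0, 0)).1 + k) (61 + e) = true then 0 else 1) + 2 := by
      intro e _
      rw [hcard]
      have h2 := hone (rR.getD e (0, 0)).1 (rR.getD e (0, 0)).2 32
      have h3 := hone (rR.getD e (0, 0)).1 (rR.getD e (0, 0)).2 33
      have h4 : (rR.getD e (0, 0)).2 ≤ ∑ k ∈ range (rR.getD e (0, 0)).2,
          ((if isConst ((rR.getD e (0, 0)).1 + k) (61 + e) = true then 0 else 1) +
            ((if (rR.getD e (0, 0)).1 + k = 32 then 1 else 0) + (if (rR.getD e (0, 0)).1 + k = 33 then 1 else 0))) := by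
        calc (rR.getD e (0, 0)).2 = ∑ k ∈ range (rR.getD e (0, 0)).2, 1 := by simp
          _ ≤ _ := by
            apply Finset.sum_le_sum
            intro k _
            by_cases hc : isConst ((rR.getD e (0, 0)).1 + k) (61 + e) = true
            · rw [if_pos hc]
              rw [MvG_isC] at hc
              split_ifs <;> omega
            · rw [if_neg hc]
              omega
      rw [Finset.sum_add_distrib, Finset.sum_add_distrib] at h4
      omega
    have h5 := Finset.sum_le_sum h1
    rw [Finset.sum_add_distrib, ← hRs] at h5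
    simp only [Finset.sum_const, Finset.card_range, smul_eq_mul] at h5
    omega
  · have h1 : ∀ e ∈ range (2 * nL + 1), (rgF rL 64 e).card ≤ (∑ k ∈ range (rL.getD e (0, 0)).2,
        if 61 ≤ (rL.getD e (0, 0)).1 + k ∧ (rL.getD e (0, 0)).1 + k ≤ 67 then 0 else 1) + 7 := by
      intro e _
      rw [hcard]
      have hj := fun c => hone (rL.getD e (0, 0)).1 (rL.getD e (0, 0)).2 c
      have h4 : (rL.getD e (0, 0)).2 ≤ ∑ k ∈ range (rL.getD e (0, 0)).2,
          ((if 61 ≤ (rL.getD e (0, 0)).1 + k ∧ (rL.getD e (0, 0)).1 + k ≤ 67 then 0 else 1) +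
            ∑ c ∈ Finset.Ico 61 68, (if (rL.getD e (0, 0)).1 + k = c then 1 else 0)) := by
        calc (rL.getD e (0, 0)).2 = ∑ k ∈ range (rL.getD e (0, 0)).2, 1 := by simp
          _ ≤ _ := by
            apply Finset.sum_le_sum
            intro k _
            by_cases hc : 61 ≤ (rL.getD e (0, 0)).1 + k ∧ (rL.getD e (0, 0)).1 + k ≤ 67
            · rw [if_pos hc, zero_add]
              have h6 : (if (rL.getD e (0, 0)).1 + k = (rL.getD e (0, 0)).1 + k then 1 else 0) ≤
                  ∑ c ∈ Finset.Ico 61 68, (if (rL.getD e (0, 0)).1 + k = c then 1 else 0) :=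
                Finset.single_le_sum (f := fun c => if (rL.getD e (0, 0)).1 + k = c then 1 else 0)
                  (fun _ _ => Nat.zero_le _) (by rw [Finset.mem_Ico]; omega)
              rw [if_pos rfl] at h6
              exact h6
            · rw [if_neg hc]
              omega
      rw [Finset.sum_add_distrib, Finset.sum_comm] at h4
      have h7 : ∑ c ∈ Finset.Ico 61 68, ∑ k ∈ range (rL.getD e (0, 0)).2,
          (if (rL.getD e (0, 0)).1 + k = c then 1 else 0) ≤ ∑ c ∈ Finset.Ico 61 68, 1 :=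
        Finset.sum_le_sum fun c _ => hj c
      simp only [Finset.sum_const, Nat.card_Ico, smul_eq_mul] at h7
      omega
    have h5 := Finset.sum_le_sum h1
    rw [Finset.sum_add_distrib, ← hLs] at h5
    simp only [Finset.sum_const, Finset.card_range, smul_eq_mul] at h5
    omega

/-- the tails as sums -/
theorem tailR_eq (L : LMV) (oD ot : ℕ) (rg : List (ℕ × ℕ)) (j : ℕ) : tailR L oD ot rg j =
    ∑ e ∈ range rg.length, (geo (Nat.add (mx4 (lab L (Nat.add (rg.getD e (0, 0)).1 (rg.getD e (0, 0)).2) (j + e)).r) 8) oD +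
      geo (Nat.add (mx4 (lab L (Nat.sub (rg.getD e (0, 0)).1 1) (j + e)).r) 8) ot) := by
  induction rg generalizing j with
  | nil => rfl
  | cons y t ih =>
    have h : tailR L oD ot (y :: t) j = Nat.add (tailR L oD ot t (Nat.succ j))
        (Nat.add (geo (Nat.add (mx4 (lab L (Nat.add y.1 y.2) j).r) 8) oD)
          (geo (Nat.add (mx4 (lab L (Nat.sub y.1 1) j).r) 8) ot)) := rfl
    have h2 : ∀ e ∈ range t.length,
        (geo (Nat.add (mx4 (lab L (Nat.add ((y :: t).getD (e + 1) (0, 0)).1 ((y :: t).getD (e + 1) (0, 0)).2) (j + (e + 1))).r) 8) oD +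
          geo (Nat.add (mx4 (lab L (Nat.sub ((y :: t).getD (e + 1) (0, 0)).1 1) (j + (e + 1))).r) 8) ot) =
        (geo (Nat.add (mx4 (lab L (Nat.add (t.getD e (0, 0)).1 (t.getD e (0, 0)).2) (Nat.succ j + e)).r) 8) oD +
          geo (Nat.add (mx4 (lab L (Nat.sub (t.getD e (0, 0)).1 1) (Nat.succ j + e)).r) 8) ot) := by
      intro e _
      rw [List.getD_cons_succ, show j + (e + 1) = Nat.succ j + e by omega]
    rw [h, ih, List.length_cons, Finset.sum_range_succ', Finset.sum_congr rfl h2, List.getD_cons_zero, Nat.add_zero]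
    exact Nat.add_eq

theorem tailL_eq (L : LMV) (oD ot : ℕ) (rg : List (ℕ × ℕ)) (i : ℕ) : tailL L oD ot rg i =
    ∑ e ∈ range rg.length, (geo (Nat.add (mx4 (lab L (i + e) (Nat.add (rg.getD e (0, 0)).1 (rg.getD e (0, 0)).2)).l) 8) ot +
      geo (Nat.add (mx4 (lab L (i + e) (Nat.sub (rg.getD e (0, 0)).1 1)).l) 8) oD) := by
  induction rg generalizing i with
  | nil => rfl
  | cons y t ih =>
    have h : tailL L oD ot (y :: t) i = Nat.add (tailL L oD ot t (Nat.succ i))
        (Nat.add (geo (Nat.add (mx4 (lab L i (Nat.add y.1 y.2)).l) 8) ot)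
          (geo (Nat.add (mx4 (lab L i (Nat.sub y.1 1)).l) 8) oD)) := rfl
    have h2 : ∀ e ∈ range t.length,
        (geo (Nat.add (mx4 (lab L (i + (e + 1)) (Nat.add ((y :: t).getD (e + 1) (0, 0)).1 ((y :: t).getD (e + 1) (0, 0)).2)).l) 8) ot +
          geo (Nat.add (mx4 (lab L (i + (e + 1)) (Nat.sub ((y :: t).getD (e + 1) (0, 0)).1 1)).l) 8) oD) =
        (geo (Nat.add (mx4 (lab L (Nat.succ i + e) (Nat.add (t.getD e (0, 0)).1 (t.getD e (0, 0)).2)).l) 8) ot +
          geo (Nat.add (mx4 (lab L (Nat.succ i + e) (Nat.sub (t.getD e (0, 0)).1 1)).l) 8) oD) := by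
      intro e _
      rw [List.getD_cons_succ, show i + (e + 1) = Nat.succ i + e by omega]
    rw [h, ih, List.length_cons, Finset.sum_range_succ', Finset.sum_congr rfl h2, List.getD_cons_zero, Nat.add_zero]
    exact Nat.add_eq

end Pool.Agent.MaxTerm59b
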