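import Pool.Agent.MaxTerm59b.F2Def
import Pool.Agent.MaxTerm59b.MvG

/-! Extremal matched vertex with a generic right neighbour: the list of the labels (compare `MvG.lean`). -/

namespace Pool.Agent.MaxTerm59b
open Finset

/-- labels `(32, 64 + j)`, `j = cnt, ..., 1` -/
def labsJ : ℕ → List (ℕ × ℕ)
  | 0 => []
  | n + 1 => (32, 65 + n) :: labsJ n

/-- labels `(32, 62 - k)`, `k = cnt, ..., 1` -/
def labsK : ℕ → List (ℕ × ℕ)
  | 0 => []
  | n + 1 => (32, 61 - n) :: labsK n

/-- labels of the third corner from the class `j` on -/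
def labsF : List (ℕ × ℕ) → ℕ → List (ℕ × ℕ)
  | [], _ => []
  | y :: t, j => (((List.range y.2).map fun k => (y.1 + k, j)).filter
      fun l => !(Nat.beq l.1 32 || (Nat.beq l.1 33 && Nat.beq l.2 64))) ++ labsF t (j + 1)

/-- the item of a label -/
def itF (L : LF2) (t1 t2 t3 : Tab) (l : ℕ × ℕ) : Item :=
  if l.1 = 32 then (if 64 < l.2 then itemJ L t1 t2 t3 (l.2 - 64) else itemK L t1 t2 t3 (62 - l.2))
  else ⟨[mkSlF t3 (Nat.sub l.2 61) (Nat.sub (Nat.add l.1 t3.P) 32) (labF L l.1 l.2).v],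
    cond (labF L l.1 l.2).grp 1 0, true⟩

theorem itemsJ_eq (L : LF2) (t1 t2 t3 : Tab) (cnt : ℕ) (r : List Item) :
    itemsJ L t1 t2 t3 cnt r = (labsJ cnt).map (itF L t1 t2 t3) ++ r := by
  induction cnt with
  | zero => rfl
  | succ n ih =>
    have h : itemsJ L t1 t2 t3 (n + 1) r = itemJ L t1 t2 t3 (Nat.succ n) :: itemsJ L t1 t2 t3 n r := rfl
    have h2 : itF L t1 t2 t3 (32, 65 + n) = itemJ L t1 t2 t3 (Nat.succ n) := by
      rw [itF, if_pos (show ((32, 65 + n) : ℕ × ℕ).1 = 32 from rfl),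
        if_pos (show 64 < ((32, 65 + n) : ℕ × ℕ).2 by simp only []; omega)]
      congr 1
      simp only []
      omega
    rw [h, ih, labsJ, List.map_cons, h2, List.cons_append]

theorem itemsK_eq (L : LF2) (t1 t2 t3 : Tab) (cnt : ℕ) (hc : cnt ≤ 61) (r : List Item) :
    itemsK L t1 t2 t3 cnt r = (labsK cnt).map (itF L t1 t2 t3) ++ r := by
  induction cnt with
  | zero => rfl
  | succ n ih =>
    have h : itemsK L t1 t2 t3 (n + 1) r = itemK L t1 t2 t3 (Nat.succ n) :: itemsK L t1 t2 t3 n r := rfl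
    have h2 : itF L t1 t2 t3 (32, 61 - n) = itemK L t1 t2 t3 (Nat.succ n) := by
      rw [itF, if_pos (show ((32, 61 - n) : ℕ × ℕ).1 = 32 from rfl),
        if_neg (show ¬ 64 < ((32, 61 - n) : ℕ × ℕ).2 by simp only []; omega)]
      congr 1
      simp only []
      omega
    rw [h, ih (by omega), labsK, List.map_cons, h2, List.cons_append]

private theorem F2H_row (L : LF2) (t1 t2 t3 : Tab) (j n : ℕ) : ∀ (i : ℕ) (r : List Item),
    rowF L t3 j n i r = ((((List.range n).map fun k => (i + k, j)).filter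
      fun l => !(Nat.beq l.1 32 || (Nat.beq l.1 33 && Nat.beq l.2 64))).map (itF L t1 t2 t3)) ++ r := by
  induction n with
  | zero => intro i r; rfl
  | succ n ih =>
    intro i r
    have h : rowF L t3 j (n + 1) i r = cond (Nat.beq i 32 || (Nat.beq i 33 && Nat.beq j 64)) (rowF L t3 j n (i + 1) r)
      (⟨[mkSlF t3 (Nat.sub j 61) (Nat.sub (Nat.add i t3.P) 32) (labF L i j).v], cond (labF L i j).grp 1 0, true⟩ ::
        rowF L t3 j n (i + 1) r) := rfl
    have h2 : ((List.range (n + 1)).map fun k => (i + k, j)) =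
        (i, j) :: ((List.range n).map fun k => (i + 1 + k, j)) := by
      rw [List.range_succ_eq_map, List.map_cons, List.map_map]
      congr 1
      apply List.map_congr_left
      intro k _
      simp only [Function.comp]
      congr 1
      omega
    rw [h, h2, ih]
    cases hc : (Nat.beq i 32 || (Nat.beq i 33 && Nat.beq j 64))
    · have h32 : i ≠ 32 := by
        intro h3
        rw [h3] at hc
        exact absurd hc (by simp)
      rw [List.filter_cons_of_pos (by simp only [hc]; rfl), List.map_cons]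
      have h4 : itF L t1 t2 t3 (i, j) =
          ⟨[mkSlF t3 (Nat.sub j 61) (Nat.sub (Nat.add i t3.P) 32) (labF L i j).v], cond (labF L i j).grp 1 0, true⟩ := by
        rw [itF, if_neg (show ¬ ((i, j) : ℕ × ℕ).1 = 32 from h32)]
      rw [h4]
      rfl
    · rw [List.filter_cons_of_neg (by simp only [hc]; decide)]
      rfl

theorem allF_eq (L : LF2) (t1 t2 t3 : Tab) (rg : List (ℕ × ℕ)) (j : ℕ) (r : List Item) :
    allF L t3 rg j r = (labsF rg j).map (itF L t1 t2 t3) ++ r := by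
  induction rg generalizing j with
  | nil => rfl
  | cons y t ih =>
    have h : allF L t3 (y :: t) j r = rowF L t3 j y.2 y.1 (allF L t3 t (j + 1) r) := rfl
    rw [h, ih, F2H_row L t1 t2 t3, labsF, List.map_append, List.append_assoc]

private theorem F2H_c (l : ℕ × ℕ) : (!(Nat.beq l.1 32 || (Nat.beq l.1 33 && Nat.beq l.2 64))) = true ↔
    l.1 ≠ 32 ∧ ¬ (l.1 = 33 ∧ l.2 = 64) := by
  rw [Bool.not_eq_true', Bool.or_eq_false_iff, Bool.and_eq_false_iff]
  rw [← Bool.not_eq_true, ← Bool.not_eq_true, ← Bool.not_eq_true, Nat.beq_eq, Nat.beq_eq, Nat.beq_eq]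
  tauto

/-- all labels of a leaf -/
def labsT (J1 K1 : ℕ) (rg : List (ℕ × ℕ)) : List (ℕ × ℕ) := labsJ J1 ++ (labsK K1 ++ labsF rg 61)

theorem mem_labsF (rg : List (ℕ × ℕ)) (j0 : ℕ) (l : ℕ × ℕ) :
    l ∈ labsF rg j0 ↔ ∃ e < rg.length, l.2 = j0 + e ∧ (rg.getD e (0, 0)).1 ≤ l.1 ∧
      l.1 < (rg.getD e (0, 0)).1 + (rg.getD e (0, 0)).2 ∧ l.1 ≠ 32 ∧ ¬ (l.1 = 33 ∧ l.2 = 64) := by
  induction rg generalizing j0 with
  | nil => simp [labsF]
  | cons y t ih =>
    rw [labsF, List.mem_append, ih]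
    constructor
    · rintro (h | ⟨e, he, h1, h2, h3, h4⟩)
      · rw [List.mem_filter, List.mem_map] at h
        obtain ⟨⟨k, hk, hl⟩, hc⟩ := h
        rw [List.mem_range] at hk
        rw [F2H_c] at hc
        refine ⟨0, by simp, ?_⟩
        rw [← hl] at hc ⊢
        simp only [List.getD_cons_zero]
        exact ⟨rfl, by omega, by omega, hc⟩
      · refine ⟨e + 1, by simpa using he, ?_⟩
        simp only [List.getD_cons_succ]
        exact ⟨by omega, h2, h3, h4⟩
    · rintro ⟨e, he, h1, h2, h3, h4⟩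
      rcases e with _ | e
      · left
        simp only [List.getD_cons_zero] at h2 h3
        rw [List.mem_filter, List.mem_map]
        refine ⟨⟨l.1 - y.1, ?_, ?_⟩, ?_⟩
        · rw [List.mem_range]; omega
        · apply Prod.ext
          · simp only []; omega
          · simp only []; omega
        · rw [F2H_c]; exact h4
      · right
        simp only [List.getD_cons_succ] at h2 h3
        exact ⟨e, by simpa using he, by omega, h2, h3, h4⟩

private theorem F2H_memJ (n : ℕ) (l : ℕ × ℕ) : l ∈ labsJ n ↔ l.1 = 32 ∧ 65 ≤ l.2 ∧ l.2 ≤ 64 + n := by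
  induction n with
  | zero =>
    rw [labsJ]
    constructor
    · intro h; simp at h
    · rintro ⟨_, h1, h2⟩; omega
  | succ n ih =>
    rw [labsJ, List.mem_cons, ih]
    constructor
    · rintro (h | h)
      · rw [h]; exact ⟨rfl, by simp only []; omega, by simp only []; omega⟩
      · exact ⟨h.1, h.2.1, by omega⟩
    · rintro ⟨h0, h1, h2⟩
      by_cases h3 : l.2 = 65 + n
      · left; exact Prod.ext h0 h3
      · right; exact ⟨h0, h1, by omega⟩

private theorem F2H_memK (n : ℕ) (hn : n ≤ 61) (l : ℕ × ℕ) : l ∈ labsK n ↔ l.1 = 32 ∧ 62 ≤ l.2 + n ∧ l.2 ≤ 61 := by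
  induction n with
  | zero =>
    rw [labsK]
    constructor
    · intro h; simp at h
    · rintro ⟨_, h1, h2⟩; omega
  | succ n ih =>
    rw [labsK, List.mem_cons, ih (by omega)]
    constructor
    · rintro (h | h)
      · rw [h]; exact ⟨rfl, by simp only []; omega, by simp only []; omega⟩
      · exact ⟨h.1, by omega, h.2.2⟩
    · rintro ⟨h0, h1, h2⟩
      by_cases h3 : l.2 = 61 - n
      · left; exact Prod.ext h0 h3
      · right; exact ⟨h0, by omega, h2⟩

theorem mem_labsT (J1 K1 : ℕ) (hK : K1 ≤ 61) (rg : List (ℕ × ℕ)) (l : ℕ × ℕ) : l ∈ labsT J1 K1 rg ↔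
    (l.1 = 32 ∧ 65 ≤ l.2 ∧ l.2 ≤ 64 + J1) ∨ (l.1 = 32 ∧ 62 ≤ l.2 + K1 ∧ l.2 ≤ 61) ∨ l ∈ labsF rg 61 := by
  rw [labsT, List.mem_append, List.mem_append, F2H_memJ, F2H_memK K1 hK]

private theorem F2H_nodupJ (n : ℕ) : (labsJ n).Nodup := by
  induction n with
  | zero => exact List.nodup_nil
  | succ n ih =>
    rw [labsJ, List.nodup_cons, F2H_memJ]
    refine ⟨?_, ih⟩
    simp only []
    omega

private theorem F2H_nodupK (n : ℕ) (hn : n ≤ 61) : (labsK n).Nodup := by
  induction n with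
  | zero => exact List.nodup_nil
  | succ n ih =>
    rw [labsK, List.nodup_cons, F2H_memK n (by omega)]
    refine ⟨?_, ih (by omega)⟩
    simp only []
    omega

private theorem F2H_nodupF (rg : List (ℕ × ℕ)) (j : ℕ) : (labsF rg j).Nodup := by
  induction rg generalizing j with
  | nil => exact List.nodup_nil
  | cons y t ih =>
    rw [labsF, List.nodup_append']
    refine ⟨?_, ih _, ?_⟩
    · apply List.Nodup.filter
      apply List.Nodup.map _ List.nodup_range
      intro a b h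
      simp only [Prod.mk.injEq] at h
      omega
    · intro l h1 h2
      rw [List.mem_filter, List.mem_map] at h1
      obtain ⟨⟨k, _, hl⟩, _⟩ := h1
      rw [mem_labsF] at h2
      obtain ⟨e, _, h3, _⟩ := h2
      rw [← hl] at h3
      simp only [] at h3
      omega

theorem labsT_nodup (J1 K1 : ℕ) (hK : K1 ≤ 61) (rg : List (ℕ × ℕ)) : (labsT J1 K1 rg).Nodup := by
  rw [labsT, List.nodup_append', List.nodup_append']
  refine ⟨F2H_nodupJ _, ⟨F2H_nodupK _ hK, F2H_nodupF _ _, ?_⟩, ?_⟩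
  · intro l h1 h2
    rw [F2H_memK K1 hK] at h1
    rw [mem_labsF] at h2
    obtain ⟨e, _, _, _, _, h3, _⟩ := h2
    exact h3 h1.1
  · intro l h1 h2
    rw [F2H_memJ] at h1
    rw [List.mem_append, F2H_memK K1 hK, mem_labsF] at h2
    rcases h2 with h2 | h2
    · omega
    · obtain ⟨e, _, _, _, _, h3, _⟩ := h2
      exact h3 h1.1

theorem okF_get {L : LF2} {P : ℕ} (rg : List (ℕ × ℕ)) (j : ℕ) (h : okF L P rg j = true) :
    ∀ e < rg.length, okF1 L P (j + e) (rg.getD e (0, 0)) = true := by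
  induction rg generalizing j with
  | nil => intro e he; simp at he
  | cons y t ih =>
    have h' : (okF1 L P j y && okF L P t (j + 1)) = true := h
    rw [Bool.and_eq_true] at h'
    intro e he
    rcases e with _ | e
    · exact h'.1
    · have := ih (j + 1) h'.2 e (by simpa using he)
      rw [List.getD_cons_succ]
      rwa [show j + (e + 1) = j + 1 + e by omega]

private theorem F2H_sumJ {V : Type*} [AddCommMonoid V] (F : ℕ × ℕ → V) (n : ℕ) :
    ((labsJ n).map F).sum = ∑ k ∈ range n, F (32, 65 + k) := by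
  induction n with
  | zero => rfl
  | succ n ih => rw [labsJ, List.map_cons, List.sum_cons, ih, Finset.sum_range_succ, add_comm]

private theorem F2H_sumK {V : Type*} [AddCommMonoid V] (F : ℕ × ℕ → V) (n : ℕ) :
    ((labsK n).map F).sum = ∑ k ∈ range n, F (32, 61 - k) := by
  induction n with
  | zero => rfl
  | succ n ih => rw [labsK, List.map_cons, List.sum_cons, ih, Finset.sum_range_succ, add_comm]

private theorem F2H_sumF {V : Type*} [AddCommMonoid V] (F : ℕ × ℕ → V) (rg : List (ℕ × ℕ)) (j : ℕ) :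
    ((labsF rg j).map F).sum = ∑ e ∈ range rg.length, ∑ k ∈ range (rg.getD e (0, 0)).2,
      if (rg.getD e (0, 0)).1 + k = 32 ∨ ((rg.getD e (0, 0)).1 + k = 33 ∧ j + e = 64) then 0
        else F ((rg.getD e (0, 0)).1 + k, j + e) := by
  induction rg generalizing j with
  | nil => simp [labsF]
  | cons y t ih =>
    rw [labsF, List.map_append, List.sum_append, ih, List.length_cons, Finset.sum_range_succ', add_comm]
    congr 1
    · apply Finset.sum_congr rfl
      intro e _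
      rw [List.getD_cons_succ, show j + (e + 1) = j + 1 + e by omega]
    · rw [List.getD_cons_zero, Nat.add_zero]
      generalize y.2 = n
      induction n with
      | zero => rfl
      | succ n ihn =>
        rw [List.range_succ, List.map_append, List.filter_append, List.map_append, List.sum_append, ihn,
          Finset.sum_range_succ]
        congr 1
        by_cases hc : y.1 + n = 32 ∨ (y.1 + n = 33 ∧ j = 64)
        · rw [if_pos hc, List.map_singleton, List.filter_cons_of_neg]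
          · rfl
          · rw [F2H_c]
            simp only []
            tauto
        · rw [if_neg hc, List.map_singleton, List.filter_cons_of_pos]
          · simp
          · rw [F2H_c]
            simp only []
            tauto

/-- a sum over a range of natural numbers starting at `f` -/
private theorem F2H_shift {V : Type*} [AddCommMonoid V] (G : ℕ → V) (f n : ℕ) :
    ∑ k ∈ range n, G (f + k) = ∑ i ∈ Finset.Ico f (f + n), G i := by
  rw [Finset.sum_Ico_eq_sum_range]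
  congr 2
  omega

private theorem F2H_rgF {V : Type*} [AddCommMonoid V] (G : ℤ → V) (rg : List (ℕ × ℕ)) (o : ℤ) (e : ℕ) :
    ∑ p ∈ rgF rg o e, G p = ∑ i ∈ Finset.Ico (rg.getD e (0, 0)).1 ((rg.getD e (0, 0)).1 + (rg.getD e (0, 0)).2),
      G ((i : ℤ) - o) := by
  symm
  apply Finset.sum_bij (fun (i : ℕ) _ => (i : ℤ) - o)
  · intro i hi
    rw [Finset.mem_Ico] at hi
    rw [rgF, Finset.mem_Ico]
    omega
  · intro i _ j _ h
    have h' : (i : ℤ) - o = (j : ℤ) - o := h
    omega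
  · intro p hp
    rw [rgF, Finset.mem_Ico] at hp
    refine ⟨(p + o).toNat, ?_, ?_⟩
    · rw [Finset.mem_Ico]; omega
    · omega
  · intro i _; rfl

private theorem F2H_sub {V : Type*} [AddCommMonoid V] (G : ℕ → V) (f n a b : ℕ) (ha : f ≤ a) (hb : b ≤ f + n)
    (h0 : ∀ i, i < a ∨ b ≤ i → G i = 0) :
    ∑ i ∈ Finset.Ico f (f + n), G i = ∑ i ∈ Finset.Ico a b, G i := by
  symm
  apply Finset.sum_subset
  · intro i hi
    rw [Finset.mem_Ico] at hi ⊢
    omega
  · intro i _ hi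
    rw [Finset.mem_Ico] at hi
    apply h0
    omega

private theorem F2H_icc (A : ℤ → ℂ) (J K : ℕ) : ∑ p ∈ Finset.Icc (-(2 + (K : ℤ))) (J : ℤ), A p =
    A (-2) + A (-1) + A 0 + (∑ k ∈ range J, A (((65 + k - 64 : ℕ) : ℕ) : ℤ)) +
      ∑ k ∈ range K, A (-(2 + ((k + 1 : ℕ) : ℤ))) := by
  induction K with
  | zero =>
    induction J with
    | zero =>
      rw [show Finset.Icc (-(2 + ((0 : ℕ) : ℤ))) ((0 : ℕ) : ℤ) = ({-2, -1, 0} : Finset ℤ) from rfl]
      simp
      ring
    | succ J ih =>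
      have h : Finset.Icc (-(2 + ((0 : ℕ) : ℤ))) ((J + 1 : ℕ) : ℤ) =
          insert ((J + 1 : ℕ) : ℤ) (Finset.Icc (-(2 + ((0 : ℕ) : ℤ))) (J : ℤ)) := by
        ext x
        rw [Finset.mem_insert, Finset.mem_Icc, Finset.mem_Icc]
        push_cast
        omega
      rw [h, Finset.sum_insert, ih, Finset.sum_range_succ _ J, show 65 + J - 64 = J + 1 by omega]
      · ring
      · rw [Finset.mem_Icc]
        push_cast
        omega
  | succ K ih =>
    have h : Finset.Icc (-(2 + ((K + 1 : ℕ) : ℤ))) (J : ℤ) =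
        insert (-(2 + ((K + 1 : ℕ) : ℤ))) (Finset.Icc (-(2 + (K : ℤ))) (J : ℤ)) := by
      ext x
      rw [Finset.mem_insert, Finset.mem_Icc, Finset.mem_Icc]
      push_cast
      omega
    rw [h, Finset.sum_insert, ih, Finset.sum_range_succ _ K]
    · ring
    · rw [Finset.mem_Icc]
      push_cast
      omega

/-- splitting of the three side sums into constants and labels -/
theorem side_splitF (J1 K1 : ℕ) (hJ : 3 ≤ J1) (hK : 1 ≤ K1) (hK' : K1 ≤ 61) (rg : List (ℕ × ℕ)) (hl : rg.length = 7)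
    (hc : ∀ e < 7, (rg.getD e (0, 0)).1 ≤ 31 ∧ 34 ≤ (rg.getD e (0, 0)).1 + (rg.getD e (0, 0)).2)
    (A B : ℤ → ℂ) (G : ℕ → ℤ → ℂ) :
    ∑ p ∈ Finset.Icc (-(2 + (K1 : ℤ))) (J1 : ℤ), A p + ∑ p ∈ Finset.Icc (-(2 + (K1 : ℤ))) (J1 : ℤ), B p +
        ∑ e ∈ range 7, ∑ p ∈ rgF rg 32 e, G e p =
      (A (-2) + A (-1) + A 0 + (B (-2) + B (-1) + B 0) + (G 3 0 + G 3 1 + G 2 0 + G 1 0)) +
      ((labsT J1 K1 rg).map fun l =>
        if l.1 = 32 then
          (if 64 < l.2 then A ((l.2 - 64 : ℕ) : ℤ) + B ((l.2 - 64 : ℕ) : ℤ) +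
              (if l.2 - 64 ≤ 3 then G (3 + (l.2 - 64)) 0 else 0)
            else A (-(2 + ((62 - l.2 : ℕ) : ℤ))) + B (-(2 + ((62 - l.2 : ℕ) : ℤ))) +
              (if 62 - l.2 = 1 then G 0 0 else 0))
        else G (l.2 - 61) ((l.1 : ℤ) - 32)).sum := by
  have hG : ∀ e ∈ range 7, ∑ p ∈ rgF rg 32 e, G e p =
      (∑ i ∈ Finset.Ico (32 : ℕ) 34, if i = 32 ∨ (i = 33 ∧ 61 + e = 64) then G e ((i : ℤ) - 32) else 0) +
      ∑ k ∈ range (rg.getD e (0, 0)).2, if (rg.getD e (0, 0)).1 + k = 32 ∨ ((rg.getD e (0, 0)).1 + k = 33 ∧ 61 + e = 64)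
        then 0 else G e (((rg.getD e (0, 0)).1 + k : ℕ) - 32) := by
    intro e he
    rw [Finset.mem_range] at he
    obtain ⟨c1, c2⟩ := hc e he
    rw [F2H_rgF, F2H_shift (fun i => if i = 32 ∨ (i = 33 ∧ 61 + e = 64) then 0 else G e ((i : ℤ) - 32)),
      ← F2H_sub (fun i => if i = 32 ∨ (i = 33 ∧ 61 + e = 64) then G e ((i : ℤ) - 32) else 0) (rg.getD e (0, 0)).1
        (rg.getD e (0, 0)).2 32 34 (by omega) (by omega), ← Finset.sum_add_distrib]
    · apply Finset.sum_congr rfl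
      intro i _
      by_cases h : i = 32 ∨ (i = 33 ∧ 61 + e = 64)
      · rw [if_pos h, if_pos h, add_zero]
      · rw [if_neg h, if_neg h, zero_add]
    · intro i hi
      rw [if_neg]
      omega
  have hG2 : ∑ e ∈ range 7, (∑ i ∈ Finset.Ico (32 : ℕ) 34, if i = 32 ∨ (i = 33 ∧ 61 + e = 64) then G e ((i : ℤ) - 32) else 0) =
      (G 3 0 + G 3 1 + G 2 0 + G 1 0) + ((G 4 0 + G 5 0 + G 6 0) + G 0 0) := by
    rw [show Finset.Ico (32 : ℕ) 34 = ({32, 33} : Finset ℕ) from rfl]
    simp only [Finset.sum_range_succ, Finset.sum_range_zero]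
    norm_num
    ring
  have hJs : ∑ k ∈ range J1, (if 65 + k - 64 ≤ 3 then G (3 + (65 + k - 64)) 0 else 0) = G 4 0 + G 5 0 + G 6 0 := by
    rw [← Finset.sum_subset (s₁ := range 3)]
    · simp [Finset.sum_range_succ]
    · intro k hk
      rw [Finset.mem_range] at hk ⊢
      omega
    · intro k _ hk
      rw [Finset.mem_range] at hk
      rw [if_neg (by omega)]
  have hKs : ∑ k ∈ range K1, (if k + 1 = 1 then G 0 0 else 0) = G 0 0 := by
    rw [← Finset.sum_subset (s₁ := range 1)]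
    · simp
    · intro k hk
      rw [Finset.mem_range] at hk ⊢
      omega
    · intro k _ hk
      rw [Finset.mem_range] at hk
      rw [if_neg (by omega)]
  rw [F2H_icc A, F2H_icc B, Finset.sum_congr rfl hG, Finset.sum_add_distrib, hG2, labsT, List.map_append,
    List.map_append, List.sum_append, List.sum_append, F2H_sumJ, F2H_sumK, F2H_sumF, hl]
  have e1 : (∑ k ∈ range J1, (if ((32, 65 + k) : ℕ × ℕ).1 = 32 then
          (if 64 < ((32, 65 + k) : ℕ × ℕ).2 then A ((((32, 65 + k) : ℕ × ℕ).2 - 64 : ℕ) : ℤ) +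
              B ((((32, 65 + k) : ℕ × ℕ).2 - 64 : ℕ) : ℤ) +
              (if ((32, 65 + k) : ℕ × ℕ).2 - 64 ≤ 3 then G (3 + (((32, 65 + k) : ℕ × ℕ).2 - 64)) 0 else 0)
            else A (-(2 + ((62 - ((32, 65 + k) : ℕ × ℕ).2 : ℕ) : ℤ))) + B (-(2 + ((62 - ((32, 65 + k) : ℕ × ℕ).2 : ℕ) : ℤ))) +
              (if 62 - ((32, 65 + k) : ℕ × ℕ).2 = 1 then G 0 0 else 0))
        else G (((32, 65 + k) : ℕ × ℕ).2 - 61) ((((32, 65 + k) : ℕ × ℕ).1 : ℤ) - 32))) =
      (∑ k ∈ range J1, A ((65 + k - 64 : ℕ) : ℤ)) + (∑ k ∈ range J1, B ((65 + k - 64 : ℕ) : ℤ)) +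
        (G 4 0 + G 5 0 + G 6 0) := by
    rw [← hJs, ← Finset.sum_add_distrib, ← Finset.sum_add_distrib]
    apply Finset.sum_congr rfl
    intro k _
    rw [if_pos rfl, if_pos (show 64 < 65 + k by omega)]
  have e2 : (∑ k ∈ range K1, (if ((32, 61 - k) : ℕ × ℕ).1 = 32 then
          (if 64 < ((32, 61 - k) : ℕ × ℕ).2 then A ((((32, 61 - k) : ℕ × ℕ).2 - 64 : ℕ) : ℤ) +
              B ((((32, 61 - k) : ℕ × ℕ).2 - 64 : ℕ) : ℤ) +
              (if ((32, 61 - k) : ℕ × ℕ).2 - 64 ≤ 3 then G (3 + (((32, 61 - k) : ℕ × ℕ).2 - 64)) 0 else 0)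
            else A (-(2 + ((62 - ((32, 61 - k) : ℕ × ℕ).2 : ℕ) : ℤ))) + B (-(2 + ((62 - ((32, 61 - k) : ℕ × ℕ).2 : ℕ) : ℤ))) +
              (if 62 - ((32, 61 - k) : ℕ × ℕ).2 = 1 then G 0 0 else 0))
        else G (((32, 61 - k) : ℕ × ℕ).2 - 61) ((((32, 61 - k) : ℕ × ℕ).1 : ℤ) - 32))) =
      (∑ k ∈ range K1, A (-(2 + ((k + 1 : ℕ) : ℤ)))) + (∑ k ∈ range K1, B (-(2 + ((k + 1 : ℕ) : ℤ)))) +
        ∑ k ∈ range K1, (if k + 1 = 1 then G 0 0 else 0) := by
    rw [← Finset.sum_add_distrib, ← Finset.sum_add_distrib]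
    apply Finset.sum_congr rfl
    intro k hk
    rw [Finset.mem_range] at hk
    rw [if_pos rfl, if_neg (show ¬ 64 < 61 - k by omega), show 62 - (61 - k) = k + 1 by omega]
  have e3 : (∑ e ∈ range 7, ∑ k ∈ range (rg.getD e (0, 0)).2,
      if (rg.getD e (0, 0)).1 + k = 32 ∨ ((rg.getD e (0, 0)).1 + k = 33 ∧ 61 + e = 64) then 0 else
        (if (((rg.getD e (0, 0)).1 + k, 61 + e) : ℕ × ℕ).1 = 32 then
          (if 64 < (((rg.getD e (0, 0)).1 + k, 61 + e) : ℕ × ℕ).2 then
            A (((((rg.getD e (0, 0)).1 + k, 61 + e) : ℕ × ℕ).2 - 64 : ℕ) : ℤ) +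
              B (((((rg.getD e (0, 0)).1 + k, 61 + e) : ℕ × ℕ).2 - 64 : ℕ) : ℤ) +
              (if (((rg.getD e (0, 0)).1 + k, 61 + e) : ℕ × ℕ).2 - 64 ≤ 3 then
                G (3 + ((((rg.getD e (0, 0)).1 + k, 61 + e) : ℕ × ℕ).2 - 64)) 0 else 0)
            else A (-(2 + ((62 - (((rg.getD e (0, 0)).1 + k, 61 + e) : ℕ × ℕ).2 : ℕ) : ℤ))) +
              B (-(2 + ((62 - (((rg.getD e (0, 0)).1 + k, 61 + e) : ℕ × ℕ).2 : ℕ) : ℤ))) +
              (if 62 - (((rg.getD e (0, 0)).1 + k, 61 + e) : ℕ × ℕ).2 = 1 then G 0 0 else 0))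
        else G ((((rg.getD e (0, 0)).1 + k, 61 + e) : ℕ × ℕ).2 - 61)
          (((((rg.getD e (0, 0)).1 + k, 61 + e) : ℕ × ℕ).1 : ℤ) - 32))) =
      ∑ e ∈ range 7, ∑ k ∈ range (rg.getD e (0, 0)).2, if (rg.getD e (0, 0)).1 + k = 32 ∨
        ((rg.getD e (0, 0)).1 + k = 33 ∧ 61 + e = 64) then 0 else G e (((rg.getD e (0, 0)).1 + k : ℕ) - 32) := by
    apply Finset.sum_congr rfl
    intro e _
    apply Finset.sum_congr rfl
    intro k _
    by_cases h : (rg.getD e (0, 0)).1 + k = 32 ∨ ((rg.getD e (0, 0)).1 + k = 33 ∧ 61 + e = 64)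
    · rw [if_pos h, if_pos h]
    · rw [if_neg h, if_neg h, if_neg (show ¬ ((rg.getD e (0, 0)).1 + k = 32) by tauto), show 61 + e - 61 = e by omega]
  rw [e1, e2, e3, hKs]
  ring

theorem cardF_le (J1 K1 : ℕ) (rg : List (ℕ × ℕ)) (hl : rg.length = 7) (h : (labsT J1 K1 rg).length ≤ 500) :
    ∑ e ∈ range 7, (rgF rg 32 e).card ≤ 2000 := by
  have hR : (labsF rg 61).length ≤ 500 := by
    rw [labsT, List.length_append, List.length_append] at h
    omega
  have hRs := F2H_sumF (fun _ => 1) rg 61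
  rw [List.map_const', List.sum_replicate, smul_eq_mul, mul_one, hl] at hRs
  have hone : ∀ (f n c : ℕ), ∑ k ∈ range n, (if f + k = c then 1 else 0) ≤ 1 := by
    intro f n c
    rw [← Finset.card_filter, Finset.card_le_one]
    intro a ha b hb
    rw [Finset.mem_filter] at ha hb
    omega
  have h1 : ∀ e ∈ range 7, (rgF rg 32 e).card ≤ (∑ k ∈ range (rg.getD e (0, 0)).2,
      if (rg.getD e (0, 0)).1 + k = 32 ∨ ((rg.getD e (0, 0)).1 + k = 33 ∧ 61 + e = 64) then 0 else 1) + 2 := by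
    intro e _
    have hcard : (rgF rg 32 e).card = (rg.getD e (0, 0)).2 := by
      rw [rgF, Int.card_Ico]
      omega
    rw [hcard]
    have h2 := hone (rg.getD e (0, 0)).1 (rg.getD e (0, 0)).2 32
    have h3 := hone (rg.getD e (0, 0)).1 (rg.getD e (0, 0)).2 33
    have h4 : (rg.getD e (0, 0)).2 ≤ ∑ k ∈ range (rg.getD e (0, 0)).2,
        ((if (rg.getD e (0, 0)).1 + k = 32 ∨ ((rg.getD e (0, 0)).1 + k = 33 ∧ 61 + e = 64) then 0 else 1) +
          ((if (rg.getD e (0, 0)).1 + k = 32 then 1 else 0) + (if (rg.getD e (0, 0)).1 + k = 33 then 1 else 0))) := by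
      calc (rg.getD e (0, 0)).2 = ∑ k ∈ range (rg.getD e (0, 0)).2, 1 := by simp
        _ ≤ _ := by
          apply Finset.sum_le_sum
          intro k _
          split_ifs <;> omega
    rw [Finset.sum_add_distrib, Finset.sum_add_distrib] at h4
    omega
  have h5 := Finset.sum_le_sum h1
  rw [Finset.sum_add_distrib, ← hRs] at h5
  simp only [Finset.sum_const, Finset.card_range, smul_eq_mul] at h5
  omega

theorem tailF_eq (L : LF2) (oD : ℕ) (rg : List (ℕ × ℕ)) (j : ℕ) : tailF L oD rg j =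
    ∑ e ∈ range rg.length, (geo (Nat.add (mx4 (labF L (Nat.add (rg.getD e (0, 0)).1 (rg.getD e (0, 0)).2) (j + e)).v) 8) oD +
      geo (Nat.add (mx4 (labF L (Nat.sub (rg.getD e (0, 0)).1 1) (j + e)).v) 8) oD) := by
  induction rg generalizing j with
  | nil => rfl
  | cons y t ih =>
    have h : tailF L oD (y :: t) j = Nat.add (tailF L oD t (Nat.succ j))
        (Nat.add (geo (Nat.add (mx4 (labF L (Nat.add y.1 y.2) j).v) 8) oD)
          (geo (Nat.add (mx4 (labF L (Nat.sub y.1 1) j).v) 8) oD)) := rfl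
    have h2 : ∀ e ∈ range t.length,
        (geo (Nat.add (mx4 (labF L (Nat.add ((y :: t).getD (e + 1) (0, 0)).1 ((y :: t).getD (e + 1) (0, 0)).2) (j + (e + 1))).v) 8) oD +
          geo (Nat.add (mx4 (labF L (Nat.sub ((y :: t).getD (e + 1) (0, 0)).1 1) (j + (e + 1))).v) 8) oD) =
        (geo (Nat.add (mx4 (labF L (Nat.add (t.getD e (0, 0)).1 (t.getD e (0, 0)).2) (Nat.succ j + e)).v) 8) oD +
          geo (Nat.add (mx4 (labF L (Nat.sub (t.getD e (0, 0)).1 1) (Nat.succ j + e)).v) 8) oD) := by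
      intro e _
      rw [List.getD_cons_succ, show j + (e + 1) = Nat.succ j + e by omega]
    rw [h, ih, List.length_cons, Finset.sum_range_succ', Finset.sum_congr rfl h2, List.getD_cons_zero, Nat.add_zero]
    exact Nat.add_eq

end Pool.Agent.MaxTerm59b
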