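import Pool.Agent.MaxTerm59b.RowB

/-! The inequality of a row and of a side. -/

namespace Pool.Agent.MaxTerm59b
open Finset
open scoped ComplexConjugate

private lemma rowC_err (n : ℕ) (c : ℤ → ℤ → ℂ) (hc : ∀ d p, ‖c d p‖ ≤ 1) (Rg : ℕ → Finset ℤ)
    (hN : ∑ e ∈ range (2 * n + 1), (Rg e).card ≤ 2000) (A : ℕ → ℤ → ℂ) (N : ℝ) (hN0 : 0 ≤ N)
    (hA : ∀ e < 2 * n + 1, ∀ p ∈ Rg e, ‖A e p‖ ≤ N) :
    ‖∑ e ∈ range (2 * n + 1), ∑ p ∈ Rg e, A e p * c ((e : ℤ) - n) p‖ ≤ 2000 * N := by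
  calc ‖∑ e ∈ range (2 * n + 1), ∑ p ∈ Rg e, A e p * c ((e : ℤ) - n) p‖
      ≤ ∑ e ∈ range (2 * n + 1), ∑ p ∈ Rg e, N := by
        refine norm_sum_le_of_le _ fun e he => norm_sum_le_of_le _ fun p hp => ?_
        rw [norm_mul]
        have h1 := hA e (mem_range.1 he) p hp
        have h2 := hc ((e : ℤ) - n) p
        calc ‖A e p‖ * ‖c ((e : ℤ) - n) p‖ ≤ N * 1 :=
              mul_le_mul h1 h2 (norm_nonneg _) hN0
          _ = N := mul_one N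
    _ = ((∑ e ∈ range (2 * n + 1), (Rg e).card : ℕ) : ℝ) * N := by
        simp [Finset.sum_mul]
    _ ≤ 2000 * N := by
        have h3 : ((∑ e ∈ range (2 * n + 1), (Rg e).card : ℕ) : ℝ) ≤ 2000 := by exact_mod_cast hN
        exact mul_le_mul_of_nonneg_right h3 hN0

private lemma rowC_norm_z (nd : ℕ) : ‖w0 ^ ((nd : ℤ) - 31)‖ = 1 := by
  rw [norm_zpow, norm_w0, one_zpow]

private lemma rowC_arith (a N : ℝ) (hN0 : 0 ≤ N) :
    2 ^ 40 * (a * N) + 2000 * N ≤ (a + 1 / 2 ^ 28) * 2 ^ 40 * N := by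
  have h : (a + 1 / 2 ^ 28) * 2 ^ 40 * N = 2 ^ 40 * (a * N) + 4096 * N := by ring
  rw [h]
  linarith

private lemma rowC_F1 (cx : Bool) (n : ℕ) (c : ℤ → ℤ → ℂ) (H : RowHyp n c) (hc : ∀ d p, ‖c d p‖ ≤ 1)
    (Rg : ℕ → Finset ℤ) (τ : ℕ → ℝ) (hR : ∀ e < 2 * n + 1, ∀ p ∈ Rg e, |p| ≤ 40)
    (hN : ∑ e ∈ range (2 * n + 1), (Rg e).card ≤ 2000)
    (hτ : ∀ e < 2 * n + 1, ∀ S : Finset ℤ, Disjoint S (Rg e) → ∑ p ∈ S, ‖c ((e : ℤ) - n) p‖ ≤ τ e)
    (nd x : ℕ) (hnd : nd ≤ 62) :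
    ‖∑ e ∈ range (2 * n + 1), ∑ p ∈ Rg e,
        (((gam n x e : GI) : ℂ) * ((zI TC TS nd p : GI) : ℂ)) * c ((e : ℤ) - n) p‖ ≤
      (170919 / 100000 + ∑ e ∈ range (2 * n + 1), τ e + 1 / 2 ^ 28) * 2 ^ 40 *
        (decode cx (mkSC cx n) x).nn := by
  have hN0 : (0 : ℝ) ≤ ((decode cx (mkSC cx n) x).nn : ℝ) := Nat.cast_nonneg _
  have h1 := row_exact cx n c H Rg τ hτ (w0 ^ ((nd : ℤ) - 31)) (rowC_norm_z nd) x
  have h2 := rowC_err n c hc Rg hN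
    (fun e p => ((gam n x e : GI) : ℂ) * (((zI TC TS nd p : GI) : ℂ) - 2 ^ 40 * (w0 ^ ((nd : ℤ) - 31)) ^ p))
    ((decode cx (mkSC cx n) x).nn : ℝ) hN0 (by
      intro e he p hp
      rw [norm_mul]
      calc ‖((gam n x e : GI) : ℂ)‖ * ‖((zI TC TS nd p : GI) : ℂ) - 2 ^ 40 * (w0 ^ ((nd : ℤ) - 31)) ^ p‖
          ≤ ((decode cx (mkSC cx n) x).nn : ℝ) * 1 :=
            mul_le_mul (gam_le cx n x e) (zI_close nd hnd p (hR e he p hp)) (norm_nonneg _) hN0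
        _ = _ := mul_one _)
  have h3 : ∑ e ∈ range (2 * n + 1), ∑ p ∈ Rg e,
        (((gam n x e : GI) : ℂ) * ((zI TC TS nd p : GI) : ℂ)) * c ((e : ℤ) - n) p =
      2 ^ 40 * (∑ e ∈ range (2 * n + 1), ∑ p ∈ Rg e,
        ((gam n x e : GI) : ℂ) * (w0 ^ ((nd : ℤ) - 31)) ^ p * c ((e : ℤ) - n) p) +
      ∑ e ∈ range (2 * n + 1), ∑ p ∈ Rg e,
        (((gam n x e : GI) : ℂ) * (((zI TC TS nd p : GI) : ℂ) - 2 ^ 40 * (w0 ^ ((nd : ℤ) - 31)) ^ p)) *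
          c ((e : ℤ) - n) p := by
    rw [Finset.mul_sum, ← Finset.sum_add_distrib]
    refine Finset.sum_congr rfl fun e _ => ?_
    rw [Finset.mul_sum, ← Finset.sum_add_distrib]
    refine Finset.sum_congr rfl fun p _ => ?_
    ring
  rw [h3]
  refine (norm_add_le _ _).trans ?_
  rw [norm_mul]
  have h4 : ‖(2 : ℂ) ^ 40‖ = 2 ^ 40 := by rw [norm_pow]; norm_num
  rw [h4]
  refine le_trans (add_le_add (mul_le_mul_of_nonneg_left h1 (by positivity)) h2) ?_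
  exact rowC_arith _ _ hN0

private lemma rowC_F2 (cx : Bool) (n : ℕ) (c : ℤ → ℤ → ℂ) (H : RowHyp n c) (hc : ∀ d p, ‖c d p‖ ≤ 1)
    (Rg : ℕ → Finset ℤ) (τ : ℕ → ℝ) (hR : ∀ e < 2 * n + 1, ∀ p ∈ Rg e, |p| ≤ 40)
    (hN : ∑ e ∈ range (2 * n + 1), (Rg e).card ≤ 2000)
    (hτ : ∀ e < 2 * n + 1, ∀ S : Finset ℤ, Disjoint S (Rg e) → ∑ p ∈ S, ‖c ((e : ℤ) - n) p‖ ≤ τ e)
    (nd x : ℕ) (hnd : nd ≤ 62) :
    ‖∑ e ∈ range (2 * n + 1), ∑ p ∈ Rg e,
        conj (((gam n x e : GI) : ℂ) * ((zI TC TS nd p : GI) : ℂ)) * c ((e : ℤ) - n) p‖ ≤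
      (170919 / 100000 + ∑ e ∈ range (2 * n + 1), τ e + 1 / 2 ^ 28) * 2 ^ 40 *
        (decode cx (mkSC cx n) x).nn := by
  have hN0 : (0 : ℝ) ≤ ((decode cx (mkSC cx n) x).nn : ℝ) := Nat.cast_nonneg _
  have h1 := row_conj cx n c H Rg τ hτ (w0 ^ ((nd : ℤ) - 31)) (rowC_norm_z nd) x
  have h2 := rowC_err n c hc Rg hN
    (fun e p => conj (((gam n x e : GI) : ℂ) *
      (((zI TC TS nd p : GI) : ℂ) - 2 ^ 40 * (w0 ^ ((nd : ℤ) - 31)) ^ p)))
    ((decode cx (mkSC cx n) x).nn : ℝ) hN0 (by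
      intro e he p hp
      rw [Complex.norm_conj, norm_mul]
      calc ‖((gam n x e : GI) : ℂ)‖ * ‖((zI TC TS nd p : GI) : ℂ) - 2 ^ 40 * (w0 ^ ((nd : ℤ) - 31)) ^ p‖
          ≤ ((decode cx (mkSC cx n) x).nn : ℝ) * 1 :=
            mul_le_mul (gam_le cx n x e) (zI_close nd hnd p (hR e he p hp)) (norm_nonneg _) hN0
        _ = _ := mul_one _)
  have hconj : conj ((2 : ℂ) ^ 40) = 2 ^ 40 := by
    rw [map_pow]
    congr 1
    exact Complex.conj_ofNat 2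
  have h3 : ∑ e ∈ range (2 * n + 1), ∑ p ∈ Rg e,
        conj (((gam n x e : GI) : ℂ) * ((zI TC TS nd p : GI) : ℂ)) * c ((e : ℤ) - n) p =
      2 ^ 40 * (∑ e ∈ range (2 * n + 1), ∑ p ∈ Rg e,
        conj (((gam n x e : GI) : ℂ) * (w0 ^ ((nd : ℤ) - 31)) ^ p) * c ((e : ℤ) - n) p) +
      ∑ e ∈ range (2 * n + 1), ∑ p ∈ Rg e,
        conj (((gam n x e : GI) : ℂ) * (((zI TC TS nd p : GI) : ℂ) - 2 ^ 40 * (w0 ^ ((nd : ℤ) - 31)) ^ p)) *
          c ((e : ℤ) - n) p := by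
    rw [Finset.mul_sum, ← Finset.sum_add_distrib]
    refine Finset.sum_congr rfl fun e _ => ?_
    rw [Finset.mul_sum, ← Finset.sum_add_distrib]
    refine Finset.sum_congr rfl fun p _ => ?_
    rw [map_mul, map_mul, map_mul, map_sub, map_mul, hconj]
    ring
  rw [h3]
  refine (norm_add_le _ _).trans ?_
  rw [norm_mul]
  have h4 : ‖(2 : ℂ) ^ 40‖ = 2 ^ 40 := by rw [norm_pow]; norm_num
  rw [h4]
  refine le_trans (add_le_add (mul_le_mul_of_nonneg_left h1 (by positivity)) h2) ?_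
  exact rowC_arith _ _ hN0

private lemma rowC_Pc_add (cx : Bool) (a b : ℂ) : Pc cx (a + b) = Pc cx a + Pc cx b := by
  cases cx <;> simp [Pc]

private lemma rowC_Pc_zero (cx : Bool) : Pc cx 0 = 0 := by
  cases cx <;> simp [Pc]

private lemma rowC_Pc_real (cx : Bool) (r : ℝ) (a : ℂ) : Pc cx ((r : ℂ) * a) = (r : ℂ) * Pc cx a := by
  cases cx <;> simp [Pc]

private lemma rowC_Pc_sum (cx : Bool) (K : ℕ) (f : ℕ → ℂ) :
    Pc cx (∑ k ∈ range K, f k) = ∑ k ∈ range K, Pc cx (f k) := by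
  induction K with
  | zero => simpa using rowC_Pc_zero cx
  | succ K ih => rw [Finset.sum_range_succ, Finset.sum_range_succ, rowC_Pc_add, ih]

/-- the row with the table values. Hint: `zI_close`, `gam_le`; for `cx = false` the real part is half of the sum of the
row and its conjugate. -/
theorem row_ineq (cx : Bool) (n : ℕ) (c : ℤ → ℤ → ℂ) (H : RowHyp n c) (hc : ∀ d p, ‖c d p‖ ≤ 1)
    (Rg : ℕ → Finset ℤ) (τ : ℕ → ℝ) (hR : ∀ e < 2 * n + 1, ∀ p ∈ Rg e, |p| ≤ 40)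
    (hN : ∑ e ∈ range (2 * n + 1), (Rg e).card ≤ 2000)
    (hτ : ∀ e < 2 * n + 1, ∀ S : Finset ℤ, Disjoint S (Rg e) → ∑ p ∈ S, ‖c ((e : ℤ) - n) p‖ ≤ τ e)
    (nd x : ℕ) (hnd : nd ≤ 62) (m : ℂ) :
    ‖∑ e ∈ range (2 * n + 1), ∑ p ∈ Rg e,
        Pc cx (((gam n x e : GI) : ℂ) * m * ((zI TC TS nd p : GI) : ℂ)) * c ((e : ℤ) - n) p‖ ≤
      (170919 / 100000 + ∑ e ∈ range (2 * n + 1), τ e + 1 / 2 ^ 28) * 2 ^ 40 *
        ((decode cx (mkSC cx n) x).nn * ‖m‖) := by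
  have h1 := rowC_F1 cx n c H hc Rg τ hR hN hτ nd x hnd
  have h2 := rowC_F2 cx n c H hc Rg τ hR hN hτ nd x hnd
  rw [← mul_assoc]
  set X : ℝ := (170919 / 100000 + ∑ e ∈ range (2 * n + 1), τ e + 1 / 2 ^ 28) * 2 ^ 40 *
        (decode cx (mkSC cx n) x).nn with hX
  cases cx with
  | true =>
    have h3 : ∑ e ∈ range (2 * n + 1), ∑ p ∈ Rg e,
        Pc true (((gam n x e : GI) : ℂ) * m * ((zI TC TS nd p : GI) : ℂ)) * c ((e : ℤ) - n) p =
        m * ∑ e ∈ range (2 * n + 1), ∑ p ∈ Rg e,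
        (((gam n x e : GI) : ℂ) * ((zI TC TS nd p : GI) : ℂ)) * c ((e : ℤ) - n) p := by
      rw [Finset.mul_sum]
      refine Finset.sum_congr rfl fun e _ => ?_
      rw [Finset.mul_sum]
      refine Finset.sum_congr rfl fun p _ => ?_
      simp only [Pc, if_true]
      ring
    rw [h3, norm_mul, mul_comm]
    exact mul_le_mul_of_nonneg_right h1 (norm_nonneg _)
  | false =>
    have h3 : ∑ e ∈ range (2 * n + 1), ∑ p ∈ Rg e,
        Pc false (((gam n x e : GI) : ℂ) * m * ((zI TC TS nd p : GI) : ℂ)) * c ((e : ℤ) - n) p =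
        (1 / 2 : ℂ) * (m * (∑ e ∈ range (2 * n + 1), ∑ p ∈ Rg e,
        (((gam n x e : GI) : ℂ) * ((zI TC TS nd p : GI) : ℂ)) * c ((e : ℤ) - n) p) +
        conj m * ∑ e ∈ range (2 * n + 1), ∑ p ∈ Rg e,
        conj (((gam n x e : GI) : ℂ) * ((zI TC TS nd p : GI) : ℂ)) * c ((e : ℤ) - n) p) := by
      rw [Finset.mul_sum, Finset.mul_sum, ← Finset.sum_add_distrib, Finset.mul_sum]
      refine Finset.sum_congr rfl fun e _ => ?_
      rw [Finset.mul_sum, Finset.mul_sum, ← Finset.sum_add_distrib, Finset.mul_sum]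
      refine Finset.sum_congr rfl fun p _ => ?_
      have h4 : Pc false (((gam n x e : GI) : ℂ) * m * ((zI TC TS nd p : GI) : ℂ)) =
          (((gam n x e : GI) : ℂ) * m * ((zI TC TS nd p : GI) : ℂ) +
            conj (((gam n x e : GI) : ℂ) * m * ((zI TC TS nd p : GI) : ℂ))) / 2 := by
        simp only [Pc]
        rw [← Complex.re_eq_add_conj]
        simp
      rw [h4]
      simp only [map_mul]
      ring
    rw [h3, norm_mul]
    have h5 : ‖(1 / 2 : ℂ)‖ = 1 / 2 := by simp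
    rw [h5]
    have h6 := norm_add_le (m * (∑ e ∈ range (2 * n + 1), ∑ p ∈ Rg e,
        (((gam n x e : GI) : ℂ) * ((zI TC TS nd p : GI) : ℂ)) * c ((e : ℤ) - n) p))
        (conj m * ∑ e ∈ range (2 * n + 1), ∑ p ∈ Rg e,
        conj (((gam n x e : GI) : ℂ) * ((zI TC TS nd p : GI) : ℂ)) * c ((e : ℤ) - n) p)
    rw [norm_mul, norm_mul, Complex.norm_conj] at h6
    have h7 := mul_le_mul_of_nonneg_left h1 (norm_nonneg m)
    have h8 := mul_le_mul_of_nonneg_left h2 (norm_nonneg m)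
    linarith

/-- the inequality of a side for the affine parameters -/
theorem side_ineq (cx : Bool) (n : ℕ) (c : ℤ → ℤ → ℂ) (H : RowHyp n c) (hc : ∀ d p, ‖c d p‖ ≤ 1)
    (Rg : ℕ → Finset ℤ) (τ : ℕ → ℝ) (hR : ∀ e < 2 * n + 1, ∀ p ∈ Rg e, |p| ≤ 40)
    (hN : ∑ e ∈ range (2 * n + 1), (Rg e).card ≤ 2000)
    (hτ : ∀ e < 2 * n + 1, ∀ S : Finset ℤ, Disjoint S (Rg e) → ∑ p ∈ S, ‖c ((e : ℤ) - n) p‖ ≤ τ e)
    (l : List (ℕ × List ℕ)) (hk : okK 0 l = true) (s1 s2 s3 : ℝ) :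
    ‖∑ e ∈ range (2 * n + 1), ∑ p ∈ Rg e,
        (∑ k ∈ range (Kc cx), (sig s1 s2 s3 k : ℂ) * Pc cx ((TI cx TC TS n l e p k : GI) : ℂ)) * c ((e : ℤ) - n) p‖ ≤
      (170919 / 100000 + ∑ e ∈ range (2 * n + 1), τ e + 1 / 2 ^ 28) * 2 ^ 40 * costS cx n s1 s2 s3 l := by
  -- one row
  have hrow : ∀ nd x : ℕ, nd ≤ 62 →
      ‖∑ e ∈ range (2 * n + 1), ∑ p ∈ Rg e,
        (∑ k ∈ range (Kc cx), (sig s1 s2 s3 k : ℂ) * Pc cx ((rowT cx TC TS n nd x e p k : GI) : ℂ)) *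
          c ((e : ℤ) - n) p‖ ≤
      (170919 / 100000 + ∑ e ∈ range (2 * n + 1), τ e + 1 / 2 ^ 28) * 2 ^ 40 *
        (((decode cx (mkSC cx n) x).nn : ℝ) *
          ‖∑ k ∈ range (Kc cx), (sig s1 s2 s3 k : ℂ) * ((mF cx n x k : GI) : ℂ)‖) := by
    intro nd x hnd
    refine le_trans (le_of_eq ?_) (row_ineq cx n c H hc Rg τ hR hN hτ nd x hnd
      (∑ k ∈ range (Kc cx), (sig s1 s2 s3 k : ℂ) * ((mF cx n x k : GI) : ℂ)))
    congr 1
    refine Finset.sum_congr rfl fun e _ => Finset.sum_congr rfl fun p _ => ?_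
    congr 1
    rw [Finset.mul_sum, Finset.sum_mul, rowC_Pc_sum]
    refine Finset.sum_congr rfl fun k _ => ?_
    rw [← rowC_Pc_real]
    congr 1
    rw [rowT]
    simp only [GaussianInt.toComplex_mul]
    ring
  -- the rows of a node
  have hnode : ∀ (nd : ℕ) (R : List ℕ), nd ≤ 62 →
      ‖∑ e ∈ range (2 * n + 1), ∑ p ∈ Rg e,
        (∑ k ∈ range (Kc cx), (sig s1 s2 s3 k : ℂ) *
          Pc cx (((R.map fun x => rowT cx TC TS n nd x e p k).sum : GI) : ℂ)) * c ((e : ℤ) - n) p‖ ≤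
      (170919 / 100000 + ∑ e ∈ range (2 * n + 1), τ e + 1 / 2 ^ 28) * 2 ^ 40 *
        (R.map fun x => ((decode cx (mkSC cx n) x).nn : ℝ) *
          ‖∑ k ∈ range (Kc cx), (sig s1 s2 s3 k : ℂ) * ((mF cx n x k : GI) : ℂ)‖).sum := by
    intro nd R hnd
    induction R with
    | nil => simp [rowC_Pc_zero]
    | cons x R ih =>
      have h1 := hrow nd x hnd
      simp only [List.map_cons, List.sum_cons]
      rw [mul_add]
      refine le_trans (le_of_eq ?_) ((norm_add_le _ _).trans (add_le_add h1 ih))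
      congr 1
      rw [← Finset.sum_add_distrib]
      refine Finset.sum_congr rfl fun e _ => ?_
      rw [← Finset.sum_add_distrib]
      refine Finset.sum_congr rfl fun p _ => ?_
      rw [← add_mul, ← Finset.sum_add_distrib]
      congr 1
      refine Finset.sum_congr rfl fun k _ => ?_
      rw [GaussianInt.toComplex_add, rowC_Pc_add, mul_add]
  -- the nodes
  induction l with
  | nil => simp [TI, costS, rowC_Pc_zero]
  | cons nd l ih =>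
    have hk' : Nat.ble nd.1 62 = true ∧ okK 0 l = true := by
      have h0 : okK 0 (nd :: l) = Bool.and (Bool.and (Nat.ble 0 nd.1) (Nat.ble nd.1 62)) (okK 0 l) := rfl
      rw [h0] at hk
      have h1 := (Bool.and_eq_true _ _).mp hk
      exact ⟨((Bool.and_eq_true _ _).mp h1.1).2, h1.2⟩
    have h1 := hnode nd.1 nd.2 (Nat.le_of_ble_eq_true hk'.1)
    have h2 := ih hk'.2
    have h3 : costS cx n s1 s2 s3 (nd :: l) = (nd.2.map fun x => ((decode cx (mkSC cx n) x).nn : ℝ) *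
          ‖∑ k ∈ range (Kc cx), (sig s1 s2 s3 k : ℂ) * ((mF cx n x k : GI) : ℂ)‖).sum +
        costS cx n s1 s2 s3 l := by
      simp only [costS, List.map_cons, List.sum_cons]
    rw [h3, mul_add]
    refine le_trans (le_of_eq ?_) ((norm_add_le _ _).trans (add_le_add h1 h2))
    congr 1
    rw [← Finset.sum_add_distrib]
    refine Finset.sum_congr rfl fun e _ => ?_
    rw [← Finset.sum_add_distrib]
    refine Finset.sum_congr rfl fun p _ => ?_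
    rw [← add_mul, ← Finset.sum_add_distrib]
    congr 1
    refine Finset.sum_congr rfl fun k _ => ?_
    have h4 : TI cx TC TS n (nd :: l) e p k =
        (nd.2.map fun x => rowT cx TC TS n nd.1 x e p k).sum + TI cx TC TS n l e p k := by
      simp only [TI, List.map_cons, List.sum_cons]
    rw [h4, GaussianInt.toComplex_add, rowC_Pc_add, mul_add]

end Pool.Agent.MaxTerm59b
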