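import Pool.Agent.MaxTerm59b.MomS

/-! The digits of the tables. -/

namespace Pool.Agent.MaxTerm59b
open Finset

private theorem TabB_momS {β : Type} (TC TS p : ℕ) (nd : List Ns) (rc rs ic is : ℕ)
    (k : ℕ → ℕ → ℕ → ℕ → β) : momS TC TS p nd rc rs ic is k =
      k (rc + (nd.map fun x => x.pr * tabG TC (absS x.k 31 * p)).sum)
        (rs + (nd.map fun x => x.pr *
          sg 4398046511104 (tabG TS (absS x.k 31 * p)) (Nat.ble 31 x.k)).sum)
        (ic + (nd.map fun x => x.pi * tabG TC (absS x.k 31 * p)).sum)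
        (is + (nd.map fun x => x.pi *
          sg 4398046511104 (tabG TS (absS x.k 31 * p)) (Nat.ble 31 x.k)).sum) := by
  induction nd generalizing rc rs ic is with
  | nil => rfl
  | cons x nd ih =>
    have h1 : momS TC TS p (x :: nd) rc rs ic is k =
        momS TC TS p nd (rc + x.pr * tabG TC (absS x.k 31 * p))
          (rs + x.pr * sg 4398046511104 (tabG TS (absS x.k 31 * p)) (Nat.ble 31 x.k))
          (ic + x.pi * tabG TC (absS x.k 31 * p))
          (is + x.pi * sg 4398046511104 (tabG TS (absS x.k 31 * p)) (Nat.ble 31 x.k)) k := rfl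
    rw [h1, ih]
    simp only [List.map_cons, List.sum_cons, add_assoc]

private def TabB_A (TC TS : ℕ) (c : SC) (nd : List Ns) (a b p : ℕ) : ℕ :=
  ((nd.map fun x => x.pr *
          sg 4398046511104 (tabG TS (absS x.k 31 * p)) (Nat.ble 31 x.k)).sum +
        (nd.map fun x => x.pi * tabG TC (absS x.k 31 * p)).sum +
        subM c.M c.OFF (a + b)) % c.M

private def TabB_B (TC TS : ℕ) (c : SC) (nd : List Ns) (a b p : ℕ) : ℕ :=
  ((nd.map fun x => x.pi * tabG TC (absS x.k 31 * p)).sum + a +
        subM c.M c.OFF ((nd.map fun x => x.pr *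
          sg 4398046511104 (tabG TS (absS x.k 31 * p)) (Nat.ble 31 x.k)).sum + b)) % c.M

private theorem TabB_rec (TC TS P : ℕ) (c : SC) (hM : c.M = 2 ^ (100 * c.D)) (nd : List Ns)
    (a b cnt acc : ℕ) : momI TC TS P c nd a b cnt acc =
      acc + ∑ p ∈ range cnt, (TabB_A TC TS c nd a b p * c.M ^ (P + p) +
        if p = 0 then 0 else TabB_B TC TS c nd a b p * c.M ^ (P - p)) := by
  induction cnt generalizing acc with
  | zero => rfl
  | succ p ih =>
    have h1 : momI TC TS P c nd a b (p + 1) acc = momS TC TS p nd 0 0 0 0 fun _ rs ic _ =>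
      momI TC TS P c nd a b p (acc + ((Nat.shiftLeft ((rs + ic + subM c.M c.OFF (a + b)) % c.M)
          (100 * c.D * (P + p))) +
        (cond (Nat.beq p 0) 0
          (Nat.shiftLeft ((ic + a + subM c.M c.OFF (rs + b)) % c.M)
            (100 * c.D * (P - p)))))) := rfl
    rw [h1, TabB_momS, ih, Finset.sum_range_succ]
    simp only [zero_add]
    have h2 : ∀ x k : ℕ, Nat.shiftLeft x (100 * c.D * k) = x * c.M ^ k := by
      intro x k
      have h3 : Nat.shiftLeft x (100 * c.D * k) = x <<< (100 * c.D * k) := rfl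
      rw [h3, Nat.shiftLeft_eq, hM, ← pow_mul]
    rw [h2, h2]
    have h4 : ∀ y : ℕ, (cond (Nat.beq p 0) 0 y) = if p = 0 then 0 else y := by
      intro y
      cases p with
      | zero => rfl
      | succ p => rfl
    rw [h4]
    unfold TabB_A TabB_B
    ring

private theorem TabB_sum (P M : ℕ) (A B : ℕ → ℕ) :
    ∑ p ∈ range (P + 1), (A p * M ^ (P + p) + if p = 0 then 0 else B p * M ^ (P - p)) =
      ∑ i ∈ range (2 * P + 1), (if P ≤ i then A (i - P) else B (P - i)) * M ^ i := by
  have h0 : 2 * P + 1 = P + (P + 1) := by ring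
  rw [h0, Finset.sum_range_add _ P (P + 1), Finset.sum_add_distrib]
  have h1 : ∑ x ∈ range P, (if P ≤ x then A (x - P) else B (P - x)) * M ^ x =
      ∑ p ∈ range (P + 1), (if p = 0 then 0 else B p * M ^ (P - p)) := by
    rw [Finset.sum_range_succ', if_pos rfl, add_zero, ← Finset.sum_range_reflect]
    apply Finset.sum_congr rfl
    intro j hj
    rw [Finset.mem_range] at hj
    rw [if_neg (by omega), if_neg (by omega)]
    have h2 : P - (P - 1 - j) = j + 1 := by omega
    have h3 : P - 1 - j = P - (j + 1) := by omega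
    rw [h2, h3]
  have h2 : ∑ x ∈ range (P + 1), (if P ≤ P + x then A (P + x - P) else B (P - (P + x))) * M ^ (P + x) =
      ∑ p ∈ range (P + 1), A p * M ^ (P + p) := by
    apply Finset.sum_congr rfl
    intro j _
    rw [if_pos (by omega), Nat.add_sub_cancel_left]
  rw [h1, h2, add_comm]

theorem momI_blocks (TC TS P : ℕ) (cx : Bool) (n : ℕ) (nd : List Ns) (a b : ℕ) :
    ∃ blk : ℕ → ℕ, (∀ i, blk i < (mkSC cx n).M) ∧
      momI TC TS P (mkSC cx n) nd a b (Nat.succ P) 0 = ∑ i ∈ range (2 * P + 1), blk i * (mkSC cx n).M ^ i ∧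
      (∀ p ≤ P, blk (P + p) = ((nd.map fun x => x.pr *
          sg 4398046511104 (tabG TS (absS x.k 31 * p)) (Nat.ble 31 x.k)).sum +
        (nd.map fun x => x.pi * tabG TC (absS x.k 31 * p)).sum +
        subM (mkSC cx n).M (mkSC cx n).OFF (a + b)) % (mkSC cx n).M) ∧
      (∀ p, 1 ≤ p → p ≤ P → blk (P - p) = ((nd.map fun x => x.pi * tabG TC (absS x.k 31 * p)).sum + a +
        subM (mkSC cx n).M (mkSC cx n).OFF ((nd.map fun x => x.pr *
          sg 4398046511104 (tabG TS (absS x.k 31 * p)) (Nat.ble 31 x.k)).sum + b)) % (mkSC cx n).M) := by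
  have hM : (mkSC cx n).M = 2 ^ (100 * (mkSC cx n).D) := rfl
  have hpos : 0 < (mkSC cx n).M := by rw [hM]; positivity
  refine ⟨fun i => if P ≤ i then TabB_A TC TS (mkSC cx n) nd a b (i - P) else
    TabB_B TC TS (mkSC cx n) nd a b (P - i), ?_, ?_, ?_, ?_⟩
  · intro i
    show (if P ≤ i then TabB_A TC TS (mkSC cx n) nd a b (i - P) else
      TabB_B TC TS (mkSC cx n) nd a b (P - i)) < _
    split_ifs
    · exact Nat.mod_lt _ hpos
    · exact Nat.mod_lt _ hpos
  · rw [TabB_rec TC TS P (mkSC cx n) hM nd a b, zero_add, Nat.succ_eq_add_one, TabB_sum]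
  · intro p _
    show (if P ≤ P + p then TabB_A TC TS (mkSC cx n) nd a b (P + p - P) else
      TabB_B TC TS (mkSC cx n) nd a b (P - (P + p))) = _
    rw [if_pos (by omega), Nat.add_sub_cancel_left]
    rfl
  · intro p hp1 hp2
    show (if P ≤ P - p then TabB_A TC TS (mkSC cx n) nd a b (P - p - P) else
      TabB_B TC TS (mkSC cx n) nd a b (P - (P - p))) = _
    rw [if_neg (by omega), Nat.sub_sub_self hp2]
    rfl

end Pool.Agent.MaxTerm59b
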