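import Pool.Agent.MaxTerm59b.MomS

/-! The digits of the tables. -/

namespace Pool.Agent.MaxTerm59b
open Finset

/-- norm of a Gaussian integer -/
private noncomputable def tcN (z : GI) : ℝ := ‖GaussianInt.toComplex z‖

private theorem tcN_nonneg (z : GI) : 0 ≤ tcN z := norm_nonneg _

private theorem tcN_zero : tcN 0 = 0 := by simp [tcN]

private theorem tcN_add (a b : GI) : tcN (a + b) ≤ tcN a + tcN b := by
  unfold tcN
  rw [map_add]
  exact norm_add_le _ _

private theorem tcN_mul (a b : GI) : tcN (a * b) = tcN a * tcN b := by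
  unfold tcN
  rw [map_mul, norm_mul]

private theorem tcN_star (a : GI) : tcN (star a) = tcN a := by
  unfold tcN
  rw [GaussianInt.toComplex_star]
  exact RCLike.norm_conj _

private theorem tcN_sq (a : GI) : tcN a ^ 2 = (a.re : ℝ) ^ 2 + (a.im : ℝ) ^ 2 := by
  unfold tcN
  rw [Complex.sq_norm, Complex.normSq_apply, ← GaussianInt.intCast_re, ← GaussianInt.intCast_im]
  ring

private theorem tcN_re (a : GI) : |(a.re : ℝ)| ≤ tcN a := by
  unfold tcN
  rw [GaussianInt.intCast_re]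
  exact Complex.abs_re_le_norm _

private theorem tcN_im (a : GI) : |(a.im : ℝ)| ≤ tcN a := by
  unfold tcN
  rw [GaussianInt.intCast_im]
  exact Complex.abs_im_le_norm _

private theorem tcN_le (a : GI) (B : ℝ) (h0 : 0 ≤ B) (h1 : |(a.re : ℝ)| ≤ B) (h2 : |(a.im : ℝ)| ≤ B) :
    tcN a ≤ 2 * B := by
  refine abs_le_of_sq_le_sq' ?_ (by positivity) |>.2
  rw [tcN_sq]
  have e1 := sq_le_sq' (abs_le.1 h1).1 (abs_le.1 h1).2
  have e2 := sq_le_sq' (abs_le.1 h2).1 (abs_le.1 h2).2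
  nlinarith [sq_nonneg B]

private theorem tcN_sum {ι : Type} (s : Finset ι) (f : ι → GI) :
    tcN (∑ i ∈ s, f i) ≤ ∑ i ∈ s, tcN (f i) := by
  unfold tcN
  rw [map_sum]
  exact norm_sum_le _ _

private theorem tcN_list {α : Type} (l : List α) (f : α → GI) (B : ℝ) (h : ∀ x ∈ l, tcN (f x) ≤ B) :
    tcN (l.map f).sum ≤ l.length * B := by
  induction l with
  | nil => simp [tcN_zero]
  | cons a l ih =>
    rw [List.map_cons, List.sum_cons, List.length_cons]
    have h1 := ih fun x hx => h x (List.mem_cons_of_mem _ hx)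
    have h2 := h a (List.mem_cons_self)
    have h3 := tcN_add (f a) (l.map f).sum
    push_cast
    linarith

private theorem tc_mod (a m c : ℕ) (hm : 0 < m) (hc : m = 2 * c) :
    |(((a % m : ℕ) : ℤ) - (c : ℤ))| ≤ c := by
  have h1 := Nat.mod_lt a hm
  rw [abs_le]
  omega

private theorem tc_modR (a m c : ℕ) (hm : 0 < m) (hc : m = 2 * c) :
    |((((a % m : ℕ) : ℤ) - (c : ℤ) : ℤ) : ℝ)| ≤ c := by
  have h := tc_mod a m c hm hc
  exact_mod_cast h

private theorem tc_gh (n x a b : ℕ) : tcN (star (hF n x b) * gF n x a) ≤ 2 ^ 21 := by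
  rw [tcN_mul, tcN_star]
  have hh : tcN (hF n x b) ^ 2 ≤ 2 ^ 21 := by
    rw [tcN_sq]
    have h1 : |((hF n x b).re : ℝ)| ≤ 1024 := tc_modR _ 2048 1024 (by norm_num) (by norm_num)
    have h2 : |((hF n x b).im : ℝ)| ≤ 1024 := tc_modR _ 2048 1024 (by norm_num) (by norm_num)
    have e1 := sq_le_sq' (abs_le.1 h1).1 (abs_le.1 h1).2
    have e2 := sq_le_sq' (abs_le.1 h2).1 (abs_le.1 h2).2
    norm_num at e1 e2 ⊢
    linarith
  have hg : tcN (gF n x a) ^ 2 ≤ 2 ^ 21 := by
    rw [tcN_sq]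
    have h1 : |((gF n x a).re : ℝ)| ≤ 1024 := tc_modR _ 2048 1024 (by norm_num) (by norm_num)
    have h2 : |((gF n x a).im : ℝ)| ≤ 1024 := tc_modR _ 2048 1024 (by norm_num) (by norm_num)
    have e1 := sq_le_sq' (abs_le.1 h1).1 (abs_le.1 h1).2
    have e2 := sq_le_sq' (abs_le.1 h2).1 (abs_le.1 h2).2
    norm_num at e1 e2 ⊢
    linarith
  refine abs_le_of_sq_le_sq' ?_ (by positivity) |>.2
  rw [mul_pow]
  calc tcN (hF n x b) ^ 2 * tcN (gF n x a) ^ 2 ≤ 2 ^ 21 * 2 ^ 21 := by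
        exact mul_le_mul hh hg (by positivity) (by positivity)
    _ = (2 ^ 21) ^ 2 := by norm_num

private theorem tc_gam (n x e : ℕ) (hn : n ≤ 3) : tcN (gam n x e) ≤ 2 ^ 23 := by
  unfold gam
  refine (tcN_sum _ _).trans ?_
  have h1 : ∀ a ∈ range (n + 1), tcN (∑ b ∈ range (n + 1),
      if a + n = e + b then star (hF n x b) * gF n x a else 0) ≤ 2 ^ 21 := by
    intro a _
    refine (tcN_sum _ _).trans ?_
    calc ∑ b ∈ range (n + 1), tcN (if a + n = e + b then star (hF n x b) * gF n x a else 0)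
        ≤ ∑ b ∈ range (n + 1), (if a + n = e + b then (2 : ℝ) ^ 21 else 0) := by
          refine sum_le_sum fun b _ => ?_
          split_ifs
          · exact tc_gh n x a b
          · rw [tcN_zero]
      _ = ((range (n + 1)).filter fun b => a + n = e + b).card * (2 : ℝ) ^ 21 := by
          rw [← sum_filter, sum_const, nsmul_eq_mul]
      _ ≤ 1 * (2 : ℝ) ^ 21 := by
          have hc : ((range (n + 1)).filter fun b => a + n = e + b).card ≤ 1 := by
            rw [card_le_one]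
            intro b hb c hc
            simp only [mem_filter] at hb hc
            omega
          have hc' : ((((range (n + 1)).filter fun b => a + n = e + b).card : ℕ) : ℝ) ≤ 1 := by
            exact_mod_cast hc
          exact mul_le_mul_of_nonneg_right hc' (by positivity)
      _ = 2 ^ 21 := one_mul _
  calc ∑ a ∈ range (n + 1), tcN (∑ b ∈ range (n + 1),
      if a + n = e + b then star (hF n x b) * gF n x a else 0) ≤ ∑ _a ∈ range (n + 1), (2 : ℝ) ^ 21 :=
        sum_le_sum h1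
    _ = ((n + 1 : ℕ) : ℝ) * 2 ^ 21 := by
        rw [sum_const, nsmul_eq_mul, card_range]
    _ ≤ 4 * 2 ^ 21 := by
        have : ((n + 1 : ℕ) : ℝ) ≤ 4 := by
          exact_mod_cast (by omega : n + 1 ≤ 4)
        exact mul_le_mul_of_nonneg_right this (by positivity)
    _ = 2 ^ 23 := by norm_num

private theorem tc_mF (cx : Bool) (n x k : ℕ) : tcN (mF cx n x k) ≤ 2 ^ 26 := by
  have h1 : |((mF cx n x k).re : ℝ)| ≤ 2 ^ 25 := by
    have := tc_modR (x / 2048 ^ (4 * (n + 1)) / 67108864 ^ (2 * (Kc cx - 1 - k))) 67108864 33554432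
      (by norm_num) (by norm_num)
    have e : ((33554432 : ℕ) : ℝ) = 2 ^ 25 := by norm_num
    rw [e] at this
    exact this
  have h2 : |((mF cx n x k).im : ℝ)| ≤ 2 ^ 25 := by
    have := tc_modR (x / 2048 ^ (4 * (n + 1)) / 67108864 ^ (2 * (Kc cx - 1 - k) + 1)) 67108864 33554432
      (by norm_num) (by norm_num)
    have e : ((33554432 : ℕ) : ℝ) = 2 ^ 25 := by norm_num
    rw [e] at this
    exact this
  have := tcN_le _ _ (by positivity) h1 h2
  linarith

private theorem tc_zI (TC TS k : ℕ) (p : ℤ) (hT : TabOK TC TS) (hk : k ≤ 62) (hp : |p| ≤ 40) :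
    tcN (zI TC TS k p) ≤ 2 ^ 41 := by
  have hj : (((k : ℤ) - 31) * p).natAbs ≤ 1240 := by
    rw [Int.natAbs_mul]
    have h1 : ((k : ℤ) - 31).natAbs ≤ 31 := by omega
    have h2 : p.natAbs ≤ 40 := by
      have := abs_le.1 hp
      omega
    calc ((k : ℤ) - 31).natAbs * p.natAbs ≤ 31 * 40 := Nat.mul_le_mul h1 h2
      _ = 1240 := by norm_num
  obtain ⟨h1, h2⟩ := hT.2 _ hj
  have e1 : |((zI TC TS k p).re : ℝ)| ≤ 2 ^ 40 := by
    show |((tcF TC (((k : ℤ) - 31) * p).natAbs : ℤ) : ℝ)| ≤ 2 ^ 40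
    exact_mod_cast h1
  have e2 : |((zI TC TS k p).im : ℝ)| ≤ 2 ^ 40 := by
    have h3 : |(zI TC TS k p).im| ≤ 2 ^ 40 := by
      show |(if 0 ≤ ((k : ℤ) - 31) * p then tcF TS (((k : ℤ) - 31) * p).natAbs
        else -tcF TS (((k : ℤ) - 31) * p).natAbs)| ≤ 2 ^ 40
      split_ifs
      · exact h2
      · rw [abs_neg]
        exact h2
    exact_mod_cast h3
  have := tcN_le _ _ (by positivity) e1 e2
  linarith

private theorem tc_row (cx : Bool) (TC TS n nd x e : ℕ) (p : ℤ) (k : ℕ) (hn : n ≤ 3)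
    (hT : TabOK TC TS) (hnd : nd ≤ 62) (hp : |p| ≤ 40) :
    tcN (rowT cx TC TS n nd x e p k) ≤ 2 ^ 90 := by
  unfold rowT
  rw [tcN_mul, tcN_mul]
  calc tcN (gam n x e) * tcN (mF cx n x k) * tcN (zI TC TS nd p)
      ≤ 2 ^ 23 * 2 ^ 26 * 2 ^ 41 := by
        refine mul_le_mul (mul_le_mul (tc_gam n x e hn) (tc_mF cx n x k) (tcN_nonneg _)
          (by positivity)) (tc_zI TC TS nd p hT hnd hp) (tcN_nonneg _) (by positivity)
    _ = 2 ^ 90 := by norm_num

private theorem tc_all (cx : Bool) (TC TS n : ℕ) (hn : n ≤ 3) (hT : TabOK TC TS) (e : ℕ) (p : ℤ)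
    (hp : |p| ≤ 40) (k : ℕ) (l : List (ℕ × List ℕ)) (hk : okK 0 l = true) :
    tcN (TI cx TC TS n l e p k) ≤ (nrows l : ℝ) * 2 ^ 90 := by
  induction l with
  | nil => simp [TI, tcN_zero, nrows]
  | cons a l ih =>
    have hk' : (Nat.ble 0 a.1 && Nat.ble a.1 62 && okK 0 l) = true := hk
    simp only [Bool.and_eq_true] at hk'
    have h1 : a.1 ≤ 62 := Nat.le_of_ble_eq_true hk'.1.2
    have h2 := ih hk'.2
    have h3 : tcN (a.2.map fun x => rowT cx TC TS n a.1 x e p k).sum ≤ a.2.length * 2 ^ 90 :=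
      tcN_list _ _ _ fun x _ => tc_row cx TC TS n a.1 x e p k hn hT h1 hp
    have h4 : TI cx TC TS n (a :: l) e p k =
        (a.2.map fun x => rowT cx TC TS n a.1 x e p k).sum + TI cx TC TS n l e p k := by
      simp [TI]
    have h5 : nrows (a :: l) = a.2.length + nrows l := rfl
    rw [h4, h5]
    refine (tcN_add _ _).trans ?_
    push_cast
    linarith

/-- `|TI| < 2^99`: each row contributes at most `2^23 · 2^26 · 2^41`. Hint: norms of Gaussian integers; `gam`: at most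
`n + 1 ≤ 4` nonzero terms of norm at most `2^21`. -/
theorem TI_lt (cx : Bool) (TC TS n : ℕ) (hn : n ≤ 3) (l : List (ℕ × List ℕ)) (hT : TabOK TC TS)
    (hk : okK 0 l = true) (hl : nrows l ≤ 256) (e : ℕ) (p : ℤ) (hp : |p| ≤ 40) (k : ℕ) :
    |(TI cx TC TS n l e p k).re| < 2 ^ 99 ∧ |(TI cx TC TS n l e p k).im| < 2 ^ 99 := by
  have h1 := tc_all cx TC TS n hn hT e p hp k l hk
  have h2 : (nrows l : ℝ) ≤ 256 := by exact_mod_cast hl
  have h3 : tcN (TI cx TC TS n l e p k) < 2 ^ 99 := by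
    calc tcN (TI cx TC TS n l e p k) ≤ (nrows l : ℝ) * 2 ^ 90 := h1
      _ ≤ 256 * 2 ^ 90 := mul_le_mul_of_nonneg_right h2 (by positivity)
      _ < 2 ^ 99 := by norm_num
  have h4 := (tcN_re (TI cx TC TS n l e p k)).trans_lt h3
  have h5 := (tcN_im (TI cx TC TS n l e p k)).trans_lt h3
  constructor
  · exact_mod_cast h4
  · exact_mod_cast h5

end Pool.Agent.MaxTerm59b
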