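import Pool.Agent.MaxTerm59b.TabA
import Pool.Agent.MaxTerm59b.TabB
import Pool.Agent.MaxTerm59b.TabC

/-! The digits of the tables. -/

namespace Pool.Agent.MaxTerm59b
open Finset

private theorem TabD_Y_pos : 0 < Y100 := by
  rw [Y100_eq]
  positivity

/-- reindexing of a double sum -/
private theorem TabD_reindex {A : Type} [AddCommMonoid A] (K w : ℕ) (F : ℕ → ℕ → A) (hw : 0 < w) :
    ∑ j ∈ range (K * w), F (j / w) (j % w) = ∑ k ∈ range K, ∑ e ∈ range w, F k e := by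
  induction K with
  | zero => simp
  | succ K ih =>
    rw [Finset.sum_range_succ, ← ih, Nat.succ_mul]
    rw [Finset.sum_range_add]
    congr 1
    refine Finset.sum_congr rfl fun e he => ?_
    have he' : e < w := Finset.mem_range.1 he
    have h1 : (K * w + e) / w = K := by
      rw [Nat.mul_comm, Nat.mul_add_div hw, Nat.div_eq_of_lt he', Nat.add_zero]
    have h2 : (K * w + e) % w = e := by
      rw [Nat.mul_comm, Nat.mul_add_mod, Nat.mod_eq_of_lt he']
    rw [h1, h2]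

/-- a digit of a block -/
private theorem TabD_mod (Y D j X : ℕ) (hY : 0 < Y) (hj : j < D) :
    X / Y ^ j % Y = X % Y ^ D / Y ^ j % Y := by
  obtain ⟨t, ht⟩ : ∃ t, D = j + (t + 1) := ⟨D - j - 1, by omega⟩
  have h1 : X = Y ^ j * (Y * Y ^ t * (X / Y ^ D)) + X % Y ^ D := by
    have h2 := Nat.div_add_mod X (Y ^ D)
    have h3 : Y ^ D = Y ^ j * (Y * Y ^ t) := by rw [ht, pow_add, pow_succ']
    have h4 : Y ^ j * (Y * Y ^ t * (X / Y ^ D)) = Y ^ D * (X / Y ^ D) := by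
      rw [← mul_assoc, ← h3]
    rw [h4]
    exact h2.symm
  have hYj : 0 < Y ^ j := pow_pos hY j
  conv_lhs => rw [h1]
  rw [Nat.mul_add_div hYj, mul_assoc, Nat.mul_add_mod]

private theorem TabD_re_pow (z : GI) (m : ℕ) :
    (z * ((Y100 : ℤ) : GI) ^ m).re = z.re * (Y100 : ℤ) ^ m ∧
    (z * ((Y100 : ℤ) : GI) ^ m).im = z.im * (Y100 : ℤ) ^ m := by
  rw [← Int.cast_pow, mul_comm z, Zsqrtd.re_smul, Zsqrtd.im_smul]
  constructor <;> ring

private theorem TabD_re_sum (R : Finset ℕ) (F : ℕ → GI) :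
    (∑ k ∈ R, F k).re = ∑ k ∈ R, (F k).re ∧ (∑ k ∈ R, F k).im = ∑ k ∈ R, (F k).im := by
  classical
  induction R using Finset.induction_on with
  | empty => simp
  | insert a R ha ih =>
    rw [Finset.sum_insert ha, Finset.sum_insert ha, Finset.sum_insert ha, Zsqrtd.re_add,
      Zsqrtd.im_add, ih.1, ih.2]
    exact ⟨rfl, rfl⟩

private theorem TabD_pwP (cx : Bool) (TC TS n : ℕ) (l : List (ℕ × List ℕ)) (p : ℤ) :
    (pwP cx TC TS n l p).re = ∑ j ∈ range (Kc cx * (2 * n + 1)),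
      (TI cx TC TS n l (j % (2 * n + 1)) p (j / (2 * n + 1))).re * (Y100 : ℤ) ^ j ∧
    (pwP cx TC TS n l p).im = ∑ j ∈ range (Kc cx * (2 * n + 1)),
      (TI cx TC TS n l (j % (2 * n + 1)) p (j / (2 * n + 1))).im * (Y100 : ℤ) ^ j := by
  have hj : ∀ j, (2 * n + 1) * (j / (2 * n + 1)) + j % (2 * n + 1) = j := fun j => Nat.div_add_mod _ _
  have h1 : pwP cx TC TS n l p = ∑ j ∈ range (Kc cx * (2 * n + 1)),
      TI cx TC TS n l (j % (2 * n + 1)) p (j / (2 * n + 1)) * ((Y100 : ℤ) : GI) ^ j := by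
    rw [pwP_eq, ← TabD_reindex (Kc cx) (2 * n + 1)
      (fun k e => TI cx TC TS n l e p k * ((Y100 : ℤ) : GI) ^ (k * (2 * n + 1) + e)) (by omega)]
    refine Finset.sum_congr rfl fun j _ => ?_
    rw [mul_comm (j / (2 * n + 1)) (2 * n + 1), hj j]
  rw [h1, (TabD_re_sum _ _).1, (TabD_re_sum _ _).2]
  exact ⟨Finset.sum_congr rfl fun j _ => (TabD_re_pow _ j).1,
    Finset.sum_congr rfl fun j _ => (TabD_re_pow _ j).2⟩

/-- reading a digit of a table -/
private theorem TabD_dg (cx : Bool) (n P : ℕ) (T : ℕ) (blk : ℕ → ℕ) (hb : ∀ i, blk i < (mkSC cx n).M)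
    (hT : T = ∑ i ∈ range (2 * P + 1), blk i * (mkSC cx n).M ^ i) (e pw k : ℕ)
    (he : e < 2 * n + 1) (hpw : pw ≤ 2 * P) (hkk : k < Kc cx) :
    dg T (mkSC cx n) e pw k = blk pw / Y100 ^ (k * (2 * n + 1) + e) % Y100 := by
  have hY := TabD_Y_pos
  have hDw : (mkSC cx n).D / (mkSC cx n).w = Kc cx := by
    rw [mkSC_D, mkSC_w]
    exact Nat.mul_div_cancel _ (by omega)
  have h0 : dg T (mkSC cx n) e pw k = (T >>> (100 * ((pw * ((mkSC cx n).D / (mkSC cx n).w) + k) *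
      (mkSC cx n).w + e))) % Y100 := rfl
  have hj : k * (2 * n + 1) + e < Kc cx * (2 * n + 1) := by
    have : (k + 1) * (2 * n + 1) ≤ Kc cx * (2 * n + 1) := Nat.mul_le_mul_right _ hkk
    rw [Nat.succ_mul] at this
    omega
  rw [h0, hDw, mkSC_w, Nat.shiftRight_eq_div_pow]
  have h1 : (2 : ℕ) ^ (100 * ((pw * Kc cx + k) * (2 * n + 1) + e)) =
      (mkSC cx n).M ^ pw * Y100 ^ (k * (2 * n + 1) + e) := by
    rw [mkSC_M, Y100_eq, ← pow_mul, ← pow_mul, ← pow_mul, ← pow_add]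
    congr 1
    ring
  rw [h1, ← Nat.div_div_eq_div_mul, TabD_mod Y100 (Kc cx * (2 * n + 1)) _ _ hY hj, hT, ← mkSC_M cx n]
  have hM : 0 < (mkSC cx n).M := by
    rw [mkSC_M]
    exact pow_pos hY _
  rw [digit_nat (mkSC cx n).M (2 * P + 1) hM blk (fun i _ => hb i) pw (by omega)]

/-- the final step: a block congruent to the packed functional has the digits of the functional -/
private theorem TabD_fin (cx : Bool) (n : ℕ) (f : ℕ → ℤ) (hf : ∀ i < Kc cx * (2 * n + 1), |f i| < 2 ^ 99)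
    (x : ℕ) (hx : x < (mkSC cx n).M) (V : ℤ)
    (h : (x : ℤ) ≡ V + (mkSC cx n).OFF [ZMOD ((Y100 : ℤ) ^ (Kc cx * (2 * n + 1)))])
    (hV : V = ∑ j ∈ range (Kc cx * (2 * n + 1)), f j * (Y100 : ℤ) ^ j) (i : ℕ)
    (hi : i < Kc cx * (2 * n + 1)) : ((x / Y100 ^ i % Y100 : ℕ) : ℤ) = f i + 2 ^ 99 := by
  rw [mkSC_M] at hx
  refine digit_off (Kc cx * (2 * n + 1)) x f hf hx ?_ i hi
  rw [hV, mkSC_OFF] at h
  have h2 : ((2 ^ 99 * ∑ a ∈ range (Kc cx * (2 * n + 1)), Y100 ^ a : ℕ) : ℤ) =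
      2 ^ 99 * ∑ a ∈ range (Kc cx * (2 * n + 1)), (Y100 : ℤ) ^ a := by
    push_cast
    rfl
  rw [h2] at h
  exact h

/-- residue of `(A + subM M OFF B) % M` -/
private theorem TabD_res (cx : Bool) (n A B : ℕ) (V : ℤ)
    (h : (A : ℤ) - (B : ℤ) ≡ V [ZMOD ((Y100 : ℤ) ^ (Kc cx * (2 * n + 1)))]) :
    (((A + subM (mkSC cx n).M (mkSC cx n).OFF B) % (mkSC cx n).M : ℕ) : ℤ) ≡
      V + (mkSC cx n).OFF [ZMOD ((Y100 : ℤ) ^ (Kc cx * (2 * n + 1)))] := by
  have hM : 0 < (mkSC cx n).M := by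
    rw [mkSC_M]
    exact pow_pos TabD_Y_pos _
  have hMc : (((mkSC cx n).M : ℕ) : ℤ) = (Y100 : ℤ) ^ (Kc cx * (2 * n + 1)) := by
    rw [mkSC_M]
    push_cast
    rfl
  have h1 := subM_modEq (mkSC cx n).M (mkSC cx n).OFF B hM
  rw [← hMc] at h ⊢
  rw [Int.natCast_mod]
  refine (Int.mod_modEq _ _).trans ?_
  rw [Nat.cast_add]
  have h2 := (Int.ModEq.refl (A : ℤ)).add h1
  refine h2.trans ?_
  have h3 : (A : ℤ) + ((mkSC cx n).OFF - B) = ((A : ℤ) - B) + (mkSC cx n).OFF := by ring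
  rw [h3]
  exact h.add_right _

/-- digits of the real table. Hint: `momR_blocks`, `digit_nat` (base `M`), then `digit_off` (base `Y`), `res_re`,
`res_re_neg`, `pwP_eq`, `TI_lt`; reindex `j = k (2 n + 1) + e`. -/
theorem dg_re (cx : Bool) (TC TS P n : ℕ) (hn : n ≤ 3) (hP : P ≤ 40) (l : List (ℕ × List ℕ)) (hT : TabOK TC TS)
    (hk : okK 0 l = true) (hl : nrows l ≤ 256) (e pw k : ℕ) (he : e < 2 * n + 1) (hpw : pw ≤ 2 * P) (hkk : k < Kc cx) :
    (dg (tabOf cx TC TS P n l).re (tabOf cx TC TS P n l).c e pw k : ℤ) =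
      (TI cx TC TS n l e ((pw : ℤ) - P) k).re + 2 ^ 99 := by
  obtain ⟨nd, hnd⟩ : ∃ nd, nd = nsum (mkSC cx n).M (nodes cx (mkSC cx n) l) := ⟨_, rfl⟩
  have hre : (tabOf cx TC TS P n l).re = momR TC TS P (mkSC cx n) nd (2199023255552 * totR nd)
      (2199023255552 * totI nd) (Nat.succ P) 0 := by rw [hnd]; rfl
  have hc : (tabOf cx TC TS P n l).c = mkSC cx n := rfl
  obtain ⟨blk, hb1, hb2, hb3, hb4⟩ := momR_blocks TC TS P cx n nd (2199023255552 * totR nd)
    (2199023255552 * totI nd)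
  rw [hre, hc, TabD_dg cx n P _ blk hb1 hb2 e pw k he hpw hkk]
  have hj : k * (2 * n + 1) + e < Kc cx * (2 * n + 1) := by
    have : (k + 1) * (2 * n + 1) ≤ Kc cx * (2 * n + 1) := Nat.mul_le_mul_right _ hkk
    rw [Nat.succ_mul] at this
    omega
  have hp40 : |(pw : ℤ) - P| ≤ 40 := by
    rw [abs_le]
    constructor <;> omega
  have hfin := TabD_fin cx n
    (fun j => (TI cx TC TS n l (j % (2 * n + 1)) ((pw : ℤ) - P) (j / (2 * n + 1))).re)
    (fun j _ => (TI_lt cx TC TS n hn l hT hk hl _ _ hp40 _).1) (blk pw) (hb1 pw)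
    (pwP cx TC TS n l ((pw : ℤ) - P)).re ?_ (TabD_pwP cx TC TS n l _).1 _ hj
  · rw [hfin]
    have h1 : (k * (2 * n + 1) + e) / (2 * n + 1) = k := by
      rw [Nat.mul_comm, Nat.mul_add_div (by omega), Nat.div_eq_of_lt he, Nat.add_zero]
    have h2 : (k * (2 * n + 1) + e) % (2 * n + 1) = e := by
      rw [Nat.mul_comm, Nat.mul_add_mod, Nat.mod_eq_of_lt he]
    rw [h1, h2]
  · rcases le_or_gt P pw with hPp | hPp
    · obtain ⟨p, rfl⟩ := Nat.exists_eq_add_of_le hPp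
      have hpP : p ≤ P := by omega
      rw [hb3 p hpP]
      have h3 : (((P + p : ℕ) : ℤ) - P) = (p : ℤ) := by push_cast; ring
      rw [h3]
      refine TabD_res cx n _ _ _ ?_
      have h4 := res_re cx TC TS n p l hT hk (hpP.trans hP)
      rw [← hnd] at h4
      push_cast at h4 ⊢
      exact h4
    · obtain ⟨p, hp⟩ := Nat.exists_eq_add_of_lt hPp
      have hpP : p + 1 ≤ P := by omega
      have h5 : pw = P - (p + 1) := by omega
      rw [h5, hb4 (p + 1) (by omega) hpP]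
      have h3 : (((P - (p + 1) : ℕ) : ℤ) - P) = -((p + 1 : ℕ) : ℤ) := by
        rw [Nat.cast_sub hpP]
        push_cast
        ring
      rw [h3]
      refine TabD_res cx n _ _ _ ?_
      have h4 := res_re_neg cx TC TS n (p + 1) l hT hk (hpP.trans hP)
      rw [← hnd] at h4
      push_cast at h4 ⊢
      exact h4

theorem dg_im (TC TS P n : ℕ) (hn : n ≤ 3) (hP : P ≤ 40) (l : List (ℕ × List ℕ)) (hT : TabOK TC TS)
    (hk : okK 0 l = true) (hl : nrows l ≤ 256) (e pw k : ℕ) (he : e < 2 * n + 1) (hpw : pw ≤ 2 * P)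
    (hkk : k < Kc true) :
    (dg (tabOf true TC TS P n l).im (tabOf true TC TS P n l).c e pw k : ℤ) =
      (TI true TC TS n l e ((pw : ℤ) - P) k).im + 2 ^ 99 := by
  obtain ⟨nd, hnd⟩ : ∃ nd, nd = nsum (mkSC true n).M (nodes true (mkSC true n) l) := ⟨_, rfl⟩
  have hre : (tabOf true TC TS P n l).im = momI TC TS P (mkSC true n) nd (2199023255552 * totR nd)
      (2199023255552 * totI nd) (Nat.succ P) 0 := by rw [hnd]; rfl
  have hc : (tabOf true TC TS P n l).c = mkSC true n := rfl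
  obtain ⟨blk, hb1, hb2, hb3, hb4⟩ := momI_blocks TC TS P true n nd (2199023255552 * totR nd)
    (2199023255552 * totI nd)
  rw [hre, hc, TabD_dg true n P _ blk hb1 hb2 e pw k he hpw hkk]
  have hj : k * (2 * n + 1) + e < Kc true * (2 * n + 1) := by
    have : (k + 1) * (2 * n + 1) ≤ Kc true * (2 * n + 1) := Nat.mul_le_mul_right _ hkk
    rw [Nat.succ_mul] at this
    omega
  have hp40 : |(pw : ℤ) - P| ≤ 40 := by
    rw [abs_le]
    constructor <;> omega
  have hfin := TabD_fin true n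
    (fun j => (TI true TC TS n l (j % (2 * n + 1)) ((pw : ℤ) - P) (j / (2 * n + 1))).im)
    (fun j _ => (TI_lt true TC TS n hn l hT hk hl _ _ hp40 _).2) (blk pw) (hb1 pw)
    (pwP true TC TS n l ((pw : ℤ) - P)).im ?_ (TabD_pwP true TC TS n l _).2 _ hj
  · rw [hfin]
    have h1 : (k * (2 * n + 1) + e) / (2 * n + 1) = k := by
      rw [Nat.mul_comm, Nat.mul_add_div (by omega), Nat.div_eq_of_lt he, Nat.add_zero]
    have h2 : (k * (2 * n + 1) + e) % (2 * n + 1) = e := by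
      rw [Nat.mul_comm, Nat.mul_add_mod, Nat.mod_eq_of_lt he]
    rw [h1, h2]
  · rcases le_or_gt P pw with hPp | hPp
    · obtain ⟨p, rfl⟩ := Nat.exists_eq_add_of_le hPp
      have hpP : p ≤ P := by omega
      rw [hb3 p hpP]
      have h3 : (((P + p : ℕ) : ℤ) - P) = (p : ℤ) := by push_cast; ring
      rw [h3]
      refine TabD_res true n _ _ _ ?_
      have h4 := res_im true TC TS n p l hT hk (hpP.trans hP)
      rw [← hnd] at h4
      push_cast at h4 ⊢
      exact h4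
    · obtain ⟨p, hp⟩ := Nat.exists_eq_add_of_lt hPp
      have hpP : p + 1 ≤ P := by omega
      have h5 : pw = P - (p + 1) := by omega
      rw [h5, hb4 (p + 1) (by omega) hpP]
      have h3 : (((P - (p + 1) : ℕ) : ℤ) - P) = -((p + 1 : ℕ) : ℤ) := by
        rw [Nat.cast_sub hpP]
        push_cast
        ring
      rw [h3]
      refine TabD_res true n _ _ _ ?_
      have h4 := res_im_neg true TC TS n (p + 1) l hT hk (hpP.trans hP)
      rw [← hnd] at h4
      push_cast at h4 ⊢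
      exact h4

/-- the functional of a slot in terms of the rows -/
theorem slD_eq (cx : Bool) (TC TS P n : ℕ) (hn : n ≤ 3) (hP : P ≤ 40) (l : List (ℕ × List ℕ)) (hT : TabOK TC TS)
    (hk : okK 0 l = true) (hl : nrows l ≤ 256) (s : Slot) (hs : s.t = tabOf cx TC TS P n l)
    (he : s.cl < 2 * n + 1) (hpw : s.pw ≤ 2 * P) (k : ℕ) (hkk : k < Kc cx) :
    slD cx s k = Pc cx ((TI cx TC TS n l s.cl ((s.pw : ℤ) - P) k : GI) : ℂ) := by
  have h1 := dg_re cx TC TS P n hn hP l hT hk hl s.cl s.pw k he hpw hkk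
  have h1' : (dg (tabOf cx TC TS P n l).re (tabOf cx TC TS P n l).c s.cl s.pw k : ℝ) =
      ((TI cx TC TS n l s.cl ((s.pw : ℤ) - P) k).re : ℝ) + 2 ^ 99 := by exact_mod_cast h1
  unfold slD Pc
  rw [hs, GaussianInt.toComplex_def₂]
  cases cx
  · simp only [Bool.false_eq_true, if_false]
    apply Complex.ext
    · simp only [Complex.ofReal_re]
      rw [h1']
      ring
    · simp
  · simp only [if_true]
    have h2 := dg_im TC TS P n hn hP l hT hk hl s.cl s.pw k he hpw hkk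
    have h2' : (dg (tabOf true TC TS P n l).im (tabOf true TC TS P n l).c s.cl s.pw k : ℝ) =
      ((TI true TC TS n l s.cl ((s.pw : ℤ) - P) k).im : ℝ) + 2 ^ 99 := by exact_mod_cast h2
    apply Complex.ext
    · simp only
      rw [h1']
      ring
    · simp only
      rw [h2']
      ring

end Pool.Agent.MaxTerm59b
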