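import Pool.Agent.MaxTerm59b.F2H
import Pool.Agent.MaxTerm59b.F2F2
import Pool.Agent.MaxTerm59b.F2G
import Pool.Agent.MaxTerm59b.RowC
import Pool.Agent.MaxTerm59b.TabD
import Pool.Agent.MaxTerm59b.DualC

/-! Extremal matched vertex with a generic right neighbour: assembly (compare `MvH.lean`). -/

namespace Pool.Agent.MaxTerm59b
open Finset Pool.Agent.MaxTerm58

/-- the leaf belonging to the data -/
def mkF (U0 U1 Q0 Q1 L0 L1 R0 R1 : ℕ) (C : CF2) : LF2 :=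
  ⟨U0, U1, Q0, Q1, L0, L1, R0, R1, ⟨Nat.shiftLeft Q0 34, C.q0b, C.q0c⟩, ⟨Nat.shiftLeft Q1 34, C.q1b, C.q1c⟩,
    ⟨Nat.shiftLeft L0 34, C.l0b, C.l0c⟩, ⟨Nat.shiftLeft L1 34, C.l1b, C.l1c⟩, C.D0, C.D1⟩

theorem mkF_good (U0 U1 Q0 Q1 L0 L1 R0 R1 : ℕ) (C : CF2) (hQ : 1024 ≤ Q0) (hL : 1024 ≤ L0)
    (h : okTF (mkF U0 U1 Q0 Q1 L0 L1 R0 R1 C) = true) : GoodF (mkF U0 U1 Q0 Q1 L0 L1 R0 R1 C) := by
  have hs : ∀ n k : ℕ, Nat.shiftLeft n k = n * 2 ^ k := fun n k => Nat.shiftLeft_eq n k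
  exact ⟨h, hs _ _, hs _ _, hs _ _, hs _ _, hQ, hL⟩

/-- tables of a leaf -/
def t1F (C : CF2) : Tab := tabOf true TC TS C.P12 0 C.w1
def t2F (C : CF2) : Tab := tabOf true TC TS C.P12 0 C.w2
def t3F (C : CF2) : Tab := tabOf true TC TS C.P3 3 C.w3

/-- the facts of `okShF` -/
structure ShF (L : LF2) (C : CF2) : Prop where
  len : C.rg.length = 7
  okF : okF L C.P3 C.rg 61 = true
  J : 3 ≤ C.J1
  K : 2 ≤ C.K1
  JP : C.J1 ≤ C.P12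
  KP : 2 + C.K1 ≤ C.P12
  k1 : okK 0 C.w1 = true
  k2 : okK 0 C.w2 = true
  k3 : okK 0 C.w3 = true
  n1 : nrows C.w1 ≤ 256
  n2 : nrows C.w2 ≤ 256
  n3 : nrows C.w3 ≤ 256
  P12 : C.P12 ≤ 40
  P3 : C.P3 ≤ 40
  D1 : Nat.shiftRight C.D1.a 10 < 1099511627775
  rg : ∀ e < 7, (C.rg.getD e (0, 0)).1 ≤ 31 ∧ 34 ≤ (C.rg.getD e (0, 0)).1 + (C.rg.getD e (0, 0)).2 ∧
    32 ≤ (C.rg.getD e (0, 0)).1 + C.P3 ∧ (C.rg.getD e (0, 0)).1 + (C.rg.getD e (0, 0)).2 ≤ 33 + C.P3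

private theorem F2I_okF1 {L : LF2} {P j : ℕ} {x : ℕ × ℕ} (h : okF1 L P j x = true) :
    x.1 ≤ 31 ∧ 34 ≤ x.1 + x.2 ∧ 32 ≤ x.1 + P ∧ x.1 + x.2 ≤ 33 + P := by
  unfold okF1 at h
  simp only [Bool.and_eq_true] at h
  obtain ⟨⟨-, h2, h3⟩, ⟨h4, h5⟩, -⟩ := h
  exact ⟨Nat.le_of_ble_eq_true h2, Nat.le_of_ble_eq_true h3, Nat.le_of_ble_eq_true h4, Nat.le_of_ble_eq_true h5⟩

theorem shF_of {L : LF2} {C : CF2} (h : okShF L C = true) : ShF L C := by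
  unfold okShF at h
  simp only [Bool.and_eq_true] at h
  obtain ⟨⟨hlen, hF⟩, ⟨⟨hJ, hK⟩, hJP, hKP⟩, ⟨k1, k2, k3⟩, hn, hD, hP12, hP3⟩ := h
  have hlen' : C.rg.length = 7 := Nat.eq_of_beq_eq_true hlen
  have hn' : nrows C.w1 + (nrows C.w2 + nrows C.w3) ≤ 256 := Nat.le_of_ble_eq_true hn
  refine ⟨hlen', hF, Nat.le_of_ble_eq_true hJ, Nat.le_of_ble_eq_true hK, Nat.le_of_ble_eq_true hJP,
    Nat.le_of_ble_eq_true hKP, k1, k2, k3, by omega, by omega, by omega, Nat.le_of_ble_eq_true hP12,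
    Nat.le_of_ble_eq_true hP3, Nat.le_of_ble_eq_true hD, ?_⟩
  intro e he
  exact F2I_okF1 (okF_get C.rg 61 hF e (by omega))

/-- functional of a table at the class `e`, power `p` -/
noncomputable def fun1 (w : List (ℕ × List ℕ)) (n : ℕ) (s1 s2 s3 : ℝ) (e : ℕ) (p : ℤ) : ℂ :=
  ∑ k ∈ range (Kc true), (sig s1 s2 s3 k : ℂ) * Pc true ((TI true TC TS n w e p k : GI) : ℂ)

/-- terms of the three sides -/
noncomputable def aF (C : CF2) (g : ℕ) (s t : ℂ) (v : ℤ → ℂ) (s1 s2 s3 : ℝ) (p : ℤ) : ℂ :=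
  fun1 C.w1 0 s1 s2 s3 0 p * c1 g s t v 0 p
noncomputable def bF (C : CF2) (g : ℕ) (s t : ℂ) (v : ℤ → ℂ) (s1 s2 s3 : ℝ) (p : ℤ) : ℂ :=
  fun1 C.w2 0 s1 s2 s3 0 p * c2 g s t v 0 p
noncomputable def gF3 (C : CF2) (g b : ℕ) (s t : ℂ) (v : ℤ → ℂ) (s1 s2 s3 : ℝ) (e : ℕ) (p : ℤ) : ℂ :=
  fun1 C.w3 3 s1 s2 s3 e p * c3 g b s t v ((e : ℤ) - 3) p

/-- slots of a label with their values -/
noncomputable def szP (L : LF2) (C : CF2) (s2 s3 : ℝ) (l : ℕ × ℕ) : List (Slot × ℝ) :=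
  if l.1 = 32 then
    (if 64 < l.2 then
      (mkSlF (t1F C) 0 (Nat.add (t1F C).P (l.2 - 64)) (valF L (mexJ L (l.2 - 64)) (Nat.mul 64 (Nat.succ (l.2 - 64)))
          (Nat.mul 64 (l.2 - 64))), psF L (mexJ L (l.2 - 64)) (64 * (l.2 - 64 + 1)) (64 * (l.2 - 64)) s2 s3) ::
      (mkSlF (t2F C) 0 (Nat.add (t2F C).P (l.2 - 64)) (valF L (mexJ L (l.2 - 64)) 0 (Nat.mul 64 (l.2 - 64))),
        psF L (mexJ L (l.2 - 64)) 0 (64 * (l.2 - 64)) s2 s3) ::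
      cond (Nat.ble (l.2 - 64) 3) [(mkSlF (t3F C) (Nat.add 3 (l.2 - 64)) (t3F C).P (valF L (mexJ L (l.2 - 64)) 0 0),
        psF L (mexJ L (l.2 - 64)) 0 0 s2 s3)] []
    else
      (mkSlF (t1F C) 0 (Nat.sub (t1F C).P (Nat.add 2 (62 - l.2))) (valF L 0 0 (Nat.mul 64 (62 - l.2))),
        psF L 0 0 (64 * (62 - l.2)) s2 s3) ::
      (mkSlF (t2F C) 0 (Nat.sub (t2F C).P (Nat.add 2 (62 - l.2))) (valF L 0 (Nat.mul 64 (Nat.succ (62 - l.2)))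
        (Nat.mul 64 (62 - l.2))), psF L 0 (64 * (62 - l.2 + 1)) (64 * (62 - l.2)) s2 s3) ::
      cond (Nat.beq (62 - l.2) 1) [(mkSlF (t3F C) 0 (t3F C).P (valF L 0 128 256), psF L 0 128 256 s2 s3)] [])
  else [(mkSlF (t3F C) (Nat.sub l.2 61) (Nat.sub (Nat.add l.1 (t3F C).P) 32) (labF L l.1 l.2).v, psC L l.1 l.2 s2 s3)]

/-- constants with their values -/
noncomputable def czF (L : LF2) (C : CF2) (s1 s2 s3 : ℝ) : List (CSlot × ℂ) :=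
  let w : ℂ := Complex.exp ((ai (thU L.U0) (thU L.U1) s1 : ℝ) * Complex.I)
  [(cstP L (t1F C) 0 (Nat.sub (t1F C).P 2) (valF L 0 0 0), ((psF L 0 0 0 s2 s3 : ℝ) : ℂ) * w),
    (cstF (t1F C) 0 (Nat.sub (t1F C).P 1) (valF L 0 0 0), ((psF L 0 0 0 s2 s3 : ℝ) : ℂ)),
    (cstF (t1F C) 0 (t1F C).P (valF L 0 64 0), ((psF L 0 64 0 s2 s3 : ℝ) : ℂ)),
    (cstP L (t2F C) 0 (Nat.sub (t2F C).P 2) (valF L 0 64 0), ((psF L 0 64 0 s2 s3 : ℝ) : ℂ) * w),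
    (cstF (t2F C) 0 (Nat.sub (t2F C).P 1) (valF L 0 0 0), ((psF L 0 0 0 s2 s3 : ℝ) : ℂ)),
    (cstF (t2F C) 0 (t2F C).P (valF L 0 0 0), ((psF L 0 0 0 s2 s3 : ℝ) : ℂ)),
    (cstF (t3F C) 3 (t3F C).P (valF L 0 0 0), ((psF L 0 0 0 s2 s3 : ℝ) : ℂ)),
    (cstF (t3F C) 3 (Nat.succ (t3F C).P) (valF L 0 0 0), ((psF L 0 0 0 s2 s3 : ℝ) : ℂ)),
    (cstF (t3F C) 2 (t3F C).P (valF L 0 0 64), ((psF L 0 0 64 s2 s3 : ℝ) : ℂ)),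
    (cstP L (t3F C) 1 (t3F C).P (valF L 0 64 128), ((psF L 0 64 128 s2 s3 : ℝ) : ℂ) * w)]

theorem czF_fst (L : LF2) (C : CF2) (s1 s2 s3 : ℝ) :
    (czF L C s1 s2 s3).map Prod.fst = consF L (t1F C) (t2F C) (t3F C) := rfl

theorem szP_fst (L : LF2) (C : CF2) (s2 s3 : ℝ) (l : ℕ × ℕ) :
    (itF L (t1F C) (t2F C) (t3F C) l).sl = (szP L C s2 s3 l).map Prod.fst := by
  unfold itF szP
  by_cases h1 : l.1 = 32
  · rw [if_pos h1, if_pos h1]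
    by_cases h2 : 64 < l.2
    · rw [if_pos h2, if_pos h2]
      unfold itemJ
      cases hc : Nat.ble (l.2 - 64) 3
      · rfl
      · rfl
    · rw [if_neg h2, if_neg h2]
      unfold itemK
      cases hc : Nat.beq (62 - l.2) 1
      · rfl
      · rfl
  · rw [if_neg h1, if_neg h1]
    rfl

end Pool.Agent.MaxTerm59b
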