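import Pool.Agent.MaxTerm59b.F2I

/-! Extremal matched vertex with a generic right neighbour: assembly (compare `MvH2.lean`). -/

namespace Pool.Agent.MaxTerm59b
open Finset Pool.Agent.MaxTerm58

variable {L : LF2} {C : CF2} {g b : ℕ} {s t : ℂ} {v : ℤ → ℂ} {s1 s2 s3 : ℝ}

/-- the functionals at the slots (`slD_eq`) -/
theorem slT_1 (H : ShF L C) (cl pw : ℕ) (ph : Bool → Bool → Bool → ℕ) (e0 e1 e2 e3 : ℕ) (hc : cl = 0)
    (hp : pw ≤ 2 * C.P12) : slT true s1 s2 s3 ⟨t1F C, cl, pw, ph, e0, e1, e2, e3⟩ =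
      fun1 C.w1 0 s1 s2 s3 0 ((pw : ℤ) - C.P12) := by
  subst hc
  unfold slT fun1
  refine Finset.sum_congr rfl fun k hk => ?_
  rw [slD_eq true TC TS C.P12 0 (by norm_num) H.P12 C.w1 tabOK H.k1 H.n1 ⟨t1F C, 0, pw, ph, e0, e1, e2, e3⟩ rfl
    (by show 0 < 2 * 0 + 1; norm_num) hp k (Finset.mem_range.1 hk)]

theorem slT_2 (H : ShF L C) (cl pw : ℕ) (ph : Bool → Bool → Bool → ℕ) (e0 e1 e2 e3 : ℕ) (hc : cl = 0)
    (hp : pw ≤ 2 * C.P12) : slT true s1 s2 s3 ⟨t2F C, cl, pw, ph, e0, e1, e2, e3⟩ =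
      fun1 C.w2 0 s1 s2 s3 0 ((pw : ℤ) - C.P12) := by
  subst hc
  unfold slT fun1
  refine Finset.sum_congr rfl fun k hk => ?_
  rw [slD_eq true TC TS C.P12 0 (by norm_num) H.P12 C.w2 tabOK H.k2 H.n2 ⟨t2F C, 0, pw, ph, e0, e1, e2, e3⟩ rfl
    (by show 0 < 2 * 0 + 1; norm_num) hp k (Finset.mem_range.1 hk)]

theorem slT_3 (H : ShF L C) (cl pw : ℕ) (ph : Bool → Bool → Bool → ℕ) (e0 e1 e2 e3 : ℕ) (hc : cl < 7)
    (hp : pw ≤ 2 * C.P3) : slT true s1 s2 s3 ⟨t3F C, cl, pw, ph, e0, e1, e2, e3⟩ =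
      fun1 C.w3 3 s1 s2 s3 cl ((pw : ℤ) - C.P3) := by
  unfold slT fun1
  refine Finset.sum_congr rfl fun k hk => ?_
  rw [slD_eq true TC TS C.P3 3 (le_refl 3) H.P3 C.w3 tabOK H.k3 H.n3 ⟨t3F C, cl, pw, ph, e0, e1, e2, e3⟩ rfl
    hc hp k (Finset.mem_range.1 hk)]

private theorem F2I2_s1 (H : ShF L C) (x : Slot) (p : ℤ) (hs : x.t = t1F C) (hc : x.cl = 0) (hp : x.pw ≤ 2 * C.P12)
    (hpp : (x.pw : ℤ) - C.P12 = p) : slT true s1 s2 s3 x = fun1 C.w1 0 s1 s2 s3 0 p := by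
  obtain ⟨t, cl, pw, ph, e0, e1, e2, e3⟩ := x
  dsimp only at hs hc hp hpp
  rw [hs, slT_1 H cl pw ph e0 e1 e2 e3 hc hp, hpp]

private theorem F2I2_s2 (H : ShF L C) (x : Slot) (p : ℤ) (hs : x.t = t2F C) (hc : x.cl = 0) (hp : x.pw ≤ 2 * C.P12)
    (hpp : (x.pw : ℤ) - C.P12 = p) : slT true s1 s2 s3 x = fun1 C.w2 0 s1 s2 s3 0 p := by
  obtain ⟨t, cl, pw, ph, e0, e1, e2, e3⟩ := x
  dsimp only at hs hc hp hpp
  rw [hs, slT_2 H cl pw ph e0 e1 e2 e3 hc hp, hpp]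

private theorem F2I2_s3 (H : ShF L C) (x : Slot) (c : ℕ) (p : ℤ) (hs : x.t = t3F C) (hc : x.cl = c) (hc7 : c < 7)
    (hp : x.pw ≤ 2 * C.P3) (hpp : (x.pw : ℤ) - C.P3 = p) : slT true s1 s2 s3 x = fun1 C.w3 3 s1 s2 s3 c p := by
  obtain ⟨t, cl, pw, ph, e0, e1, e2, e3⟩ := x
  dsimp only at hs hc hp hpp
  subst hc
  rw [hs, slT_3 H cl pw ph e0 e1 e2 e3 hc7 hp, hpp]

private theorem F2I2_rp (x : ℝ) (n k : ℕ) (h : n = 64 * k) : x ^ ((n : ℝ) / 64) = x ^ k := by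
  rw [← Real.rpow_natCast x k]
  congr 1
  rw [h]
  push_cast
  ring

private theorem F2I2_ps (X : CtxF L g b s t v s1 s2 s3) (a c a' c' : ℕ) (ha : a = 64 * a') (hc : c = 64 * c') :
    psF L 0 a c s2 s3 = (‖s‖ ^ g) ^ a' * (‖t‖ ^ g) ^ c' := by
  rw [X.psF_eq, psD_zero, one_mul, F2I2_rp _ a a' ha, F2I2_rp _ c c' hc]

/-- the constants. Hint: `HypF.consts`, `CtxF.psF_eq`, `psD_zero`, `CtxF.hth`. -/
theorem consF_sum (X : CtxF L g b s t v s1 s2 s3) (H : ShF L C) :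
    ((czF L C s1 s2 s3).map fun q => slT true s1 s2 s3 q.1.s * q.2).sum =
      aF C g s t v s1 s2 s3 (-2) + aF C g s t v s1 s2 s3 (-1) + aF C g s t v s1 s2 s3 0 +
        (bF C g s t v s1 s2 s3 (-2) + bF C g s t v s1 s2 s3 (-1) + bF C g s t v s1 s2 s3 0) +
        (gF3 C g b s t v s1 s2 s3 3 0 + gF3 C g b s t v s1 s2 s3 3 1 + gF3 C g b s t v s1 s2 s3 2 0 +
          gF3 C g b s t v s1 s2 s3 1 0) := by
  have hK := H.K
  have hKP := H.KP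
  have hP3 : 1 ≤ C.P3 := by
    obtain ⟨h1, h2, h3, h4⟩ := H.rg 0 (by norm_num)
    omega
  obtain ⟨k1, k2, k3, k4, k5, k6, k7, k8, k9, k10⟩ := X.H.consts
  have hth := X.hth
  have p00 : psF L 0 0 0 s2 s3 = 1 := by
    rw [F2I2_ps X 0 0 0 0 rfl rfl]
    simp
  have p10 : psF L 0 64 0 s2 s3 = ‖s‖ ^ g := by
    rw [F2I2_ps X 64 0 1 0 rfl rfl]
    simp
  have p01 : psF L 0 0 64 s2 s3 = ‖t‖ ^ g := by
    rw [F2I2_ps X 0 64 0 1 rfl rfl]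
    simp
  have p12 : psF L 0 64 128 s2 s3 = ‖s‖ ^ g * (‖t‖ ^ g) ^ 2 := by
    rw [F2I2_ps X 64 128 1 2 rfl rfl]
    simp
  have a1 : slT true s1 s2 s3 (cstP L (t1F C) 0 (Nat.sub (t1F C).P 2) (valF L 0 0 0)).s =
      fun1 C.w1 0 s1 s2 s3 0 (-2) :=
    F2I2_s1 H _ (-2) rfl rfl (by show C.P12 - 2 ≤ 2 * C.P12; omega) (by show ((C.P12 - 2 : ℕ) : ℤ) - C.P12 = -2; omega)
  have a2 : slT true s1 s2 s3 (cstF (t1F C) 0 (Nat.sub (t1F C).P 1) (valF L 0 0 0)).s =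
      fun1 C.w1 0 s1 s2 s3 0 (-1) :=
    F2I2_s1 H _ (-1) rfl rfl (by show C.P12 - 1 ≤ 2 * C.P12; omega) (by show ((C.P12 - 1 : ℕ) : ℤ) - C.P12 = -1; omega)
  have a3 : slT true s1 s2 s3 (cstF (t1F C) 0 (t1F C).P (valF L 0 64 0)).s = fun1 C.w1 0 s1 s2 s3 0 0 :=
    F2I2_s1 H _ 0 rfl rfl (by show C.P12 ≤ 2 * C.P12; omega) (by show (C.P12 : ℤ) - C.P12 = 0; omega)
  have a4 : slT true s1 s2 s3 (cstP L (t2F C) 0 (Nat.sub (t2F C).P 2) (valF L 0 64 0)).s =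
      fun1 C.w2 0 s1 s2 s3 0 (-2) :=
    F2I2_s2 H _ (-2) rfl rfl (by show C.P12 - 2 ≤ 2 * C.P12; omega) (by show ((C.P12 - 2 : ℕ) : ℤ) - C.P12 = -2; omega)
  have a5 : slT true s1 s2 s3 (cstF (t2F C) 0 (Nat.sub (t2F C).P 1) (valF L 0 0 0)).s =
      fun1 C.w2 0 s1 s2 s3 0 (-1) :=
    F2I2_s2 H _ (-1) rfl rfl (by show C.P12 - 1 ≤ 2 * C.P12; omega) (by show ((C.P12 - 1 : ℕ) : ℤ) - C.P12 = -1; omega)
  have a6 : slT true s1 s2 s3 (cstF (t2F C) 0 (t2F C).P (valF L 0 0 0)).s = fun1 C.w2 0 s1 s2 s3 0 0 :=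
    F2I2_s2 H _ 0 rfl rfl (by show C.P12 ≤ 2 * C.P12; omega) (by show (C.P12 : ℤ) - C.P12 = 0; omega)
  have a7 : slT true s1 s2 s3 (cstF (t3F C) 3 (t3F C).P (valF L 0 0 0)).s = fun1 C.w3 3 s1 s2 s3 3 0 :=
    F2I2_s3 H _ 3 0 rfl rfl (by norm_num) (by show C.P3 ≤ 2 * C.P3; omega) (by show (C.P3 : ℤ) - C.P3 = 0; omega)
  have a8 : slT true s1 s2 s3 (cstF (t3F C) 3 (Nat.succ (t3F C).P) (valF L 0 0 0)).s = fun1 C.w3 3 s1 s2 s3 3 1 :=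
    F2I2_s3 H _ 3 1 rfl rfl (by norm_num) (by show C.P3 + 1 ≤ 2 * C.P3; omega)
      (by show ((C.P3 + 1 : ℕ) : ℤ) - C.P3 = 1; omega)
  have a9 : slT true s1 s2 s3 (cstF (t3F C) 2 (t3F C).P (valF L 0 0 64)).s = fun1 C.w3 3 s1 s2 s3 2 0 :=
    F2I2_s3 H _ 2 0 rfl rfl (by norm_num) (by show C.P3 ≤ 2 * C.P3; omega) (by show (C.P3 : ℤ) - C.P3 = 0; omega)
  have a10 : slT true s1 s2 s3 (cstP L (t3F C) 1 (t3F C).P (valF L 0 64 128)).s = fun1 C.w3 3 s1 s2 s3 1 0 :=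
    F2I2_s3 H _ 1 0 rfl rfl (by norm_num) (by show C.P3 ≤ 2 * C.P3; omega) (by show (C.P3 : ℤ) - C.P3 = 0; omega)
  unfold czF
  simp only [List.map_cons, List.sum_cons, List.map_nil, List.sum_nil]
  rw [a1, a2, a3, a4, a5, a6, a7, a8, a9, a10, p00, p10, p01, p12]
  unfold aF bF gF3
  have n3 : ((3 : ℕ) : ℤ) - 3 = 0 := by norm_num
  have n2 : ((2 : ℕ) : ℤ) - 3 = -1 := by norm_num
  have n1 : ((1 : ℕ) : ℤ) - 3 = -2 := by norm_num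
  rw [n3, n2, n1, k1, k2, k3, k4, k5, k6, k7, k8, k9, k10, hth]
  push_cast
  ring

private theorem F2I2_itJ (X : CtxF L g b s t v s1 s2 s3) (H : ShF L C) (j : ℕ) (hj : 1 ≤ j) (hjJ : j ≤ C.J1) :
    ((szP L C s2 s3 (32, 64 + j)).map fun q => slT true s1 s2 s3 q.1 * (q.2 : ℂ)).sum *
        xF L g b s t v s2 s3 32 (64 + j) =
      aF C g s t v s1 s2 s3 (j : ℤ) + bF C g s t v s1 s2 s3 (j : ℤ) +
        (if j ≤ 3 then gF3 C g b s t v s1 s2 s3 (3 + j) 0 else 0) := by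
  have hJP := H.JP
  obtain ⟨x1, x2, x3⟩ := X.xF_J j hj
  have hsub : 64 + j - 64 = j := by omega
  have a1 : ∀ w : Bool → Bool → ℕ, slT true s1 s2 s3 (mkSlF (t1F C) 0 (Nat.add (t1F C).P j) w) =
      fun1 C.w1 0 s1 s2 s3 0 (j : ℤ) := fun w =>
    F2I2_s1 H _ _ rfl rfl (by show C.P12 + j ≤ 2 * C.P12; omega) (by show ((C.P12 + j : ℕ) : ℤ) - C.P12 = j; omega)
  have a2 : ∀ w : Bool → Bool → ℕ, slT true s1 s2 s3 (mkSlF (t2F C) 0 (Nat.add (t2F C).P j) w) =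
      fun1 C.w2 0 s1 s2 s3 0 (j : ℤ) := fun w =>
    F2I2_s2 H _ _ rfl rfl (by show C.P12 + j ≤ 2 * C.P12; omega) (by show ((C.P12 + j : ℕ) : ℤ) - C.P12 = j; omega)
  have a3 : j ≤ 3 → ∀ w : Bool → Bool → ℕ, slT true s1 s2 s3 (mkSlF (t3F C) (Nat.add 3 j) (t3F C).P w) =
      fun1 C.w3 3 s1 s2 s3 (3 + j) 0 := fun h w =>
    F2I2_s3 H _ (3 + j) 0 rfl rfl (by omega) (by show C.P3 ≤ 2 * C.P3; omega) (by show (C.P3 : ℤ) - C.P3 = 0; omega)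
  have hlt : 64 < 64 + j := by omega
  unfold szP
  rw [if_pos rfl, if_pos hlt]
  simp only [hsub]
  by_cases h3 : j ≤ 3
  · have hb : Nat.ble j 3 = true := Nat.ble_eq_true_of_le h3
    rw [hb, if_pos h3, cond_true]
    simp only [List.map_cons, List.sum_cons, List.map_nil, List.sum_nil]
    rw [a1, a2, a3 h3]
    unfold aF bF gF3
    have n3 : ((3 + j : ℕ) : ℤ) - 3 = j := by push_cast; ring
    rw [n3, x1, x2, x3]
    ring
  · have hb : Nat.ble j 3 = false := by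
      rw [Bool.eq_false_iff]
      intro h
      exact h3 (Nat.le_of_ble_eq_true h)
    rw [hb, if_neg h3, cond_false]
    simp only [List.map_cons, List.sum_cons, List.map_nil, List.sum_nil]
    rw [a1, a2]
    unfold aF bF
    rw [x1, x2]
    ring

private theorem F2I2_itK (X : CtxF L g b s t v s1 s2 s3) (H : ShF L C) (k : ℕ) (hk : 1 ≤ k) (hkK : k ≤ C.K1) :
    ((szP L C s2 s3 (32, 62 - k)).map fun q => slT true s1 s2 s3 q.1 * (q.2 : ℂ)).sum *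
        xF L g b s t v s2 s3 32 (62 - k) =
      aF C g s t v s1 s2 s3 (-(2 + (k : ℤ))) + bF C g s t v s1 s2 s3 (-(2 + (k : ℤ))) +
        (if k = 1 then gF3 C g b s t v s1 s2 s3 0 0 else 0) := by
  have hKP := H.KP
  have hP12 := H.P12
  obtain ⟨x1, x2, x3⟩ := X.xF_K k (by omega)
  have hsub : 62 - (62 - k) = k := by omega
  have a1 : ∀ w : Bool → Bool → ℕ, slT true s1 s2 s3 (mkSlF (t1F C) 0 (Nat.sub (t1F C).P (Nat.add 2 k)) w) =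
      fun1 C.w1 0 s1 s2 s3 0 (-(2 + (k : ℤ))) := fun w =>
    F2I2_s1 H _ _ rfl rfl (by show C.P12 - (2 + k) ≤ 2 * C.P12; omega)
      (by show ((C.P12 - (2 + k) : ℕ) : ℤ) - C.P12 = -(2 + (k : ℤ)); omega)
  have a2 : ∀ w : Bool → Bool → ℕ, slT true s1 s2 s3 (mkSlF (t2F C) 0 (Nat.sub (t2F C).P (Nat.add 2 k)) w) =
      fun1 C.w2 0 s1 s2 s3 0 (-(2 + (k : ℤ))) := fun w =>
    F2I2_s2 H _ _ rfl rfl (by show C.P12 - (2 + k) ≤ 2 * C.P12; omega)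
      (by show ((C.P12 - (2 + k) : ℕ) : ℤ) - C.P12 = -(2 + (k : ℤ)); omega)
  have a3 : ∀ w : Bool → Bool → ℕ, slT true s1 s2 s3 (mkSlF (t3F C) 0 (t3F C).P w) =
      fun1 C.w3 3 s1 s2 s3 0 0 := fun w =>
    F2I2_s3 H _ 0 0 rfl rfl (by norm_num) (by show C.P3 ≤ 2 * C.P3; omega) (by show (C.P3 : ℤ) - C.P3 = 0; omega)
  have hlt : ¬ 64 < 62 - k := by omega
  unfold szP
  rw [if_pos rfl, if_neg hlt]
  simp only [hsub]
  by_cases h3 : k = 1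
  · have hb : Nat.beq k 1 = true := by rw [h3]; rfl
    rw [hb, if_pos h3, cond_true]
    simp only [List.map_cons, List.sum_cons, List.map_nil, List.sum_nil]
    rw [a1, a2, a3]
    unfold aF bF gF3
    have n3 : ((0 : ℕ) : ℤ) - 3 = -3 := by norm_num
    rw [n3, x1, x2, x3 h3]
    ring
  · have hb : Nat.beq k 1 = false := by
      cases hc : Nat.beq k 1
      · rfl
      · exact absurd (Nat.eq_of_beq_eq_true hc) h3
    rw [hb, if_neg h3, cond_false]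
    simp only [List.map_cons, List.sum_cons, List.map_nil, List.sum_nil]
    rw [a1, a2]
    unfold aF bF
    rw [x1, x2]
    ring

/-- the labels (`xF_J`, `xF_K`, `xF_C`) -/
theorem itF_sum (X : CtxF L g b s t v s1 s2 s3) (H : ShF L C) (l : ℕ × ℕ) (hl : l ∈ labsT C.J1 C.K1 C.rg) :
    ((szP L C s2 s3 l).map fun q => slT true s1 s2 s3 q.1 * (q.2 : ℂ)).sum * xF L g b s t v s2 s3 l.1 l.2 =
      if l.1 = 32 then
          (if 64 < l.2 then aF C g s t v s1 s2 s3 ((l.2 - 64 : ℕ) : ℤ) + bF C g s t v s1 s2 s3 ((l.2 - 64 : ℕ) : ℤ) +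
              (if l.2 - 64 ≤ 3 then gF3 C g b s t v s1 s2 s3 (3 + (l.2 - 64)) 0 else 0)
            else aF C g s t v s1 s2 s3 (-(2 + ((62 - l.2 : ℕ) : ℤ))) + bF C g s t v s1 s2 s3 (-(2 + ((62 - l.2 : ℕ) : ℤ))) +
              (if 62 - l.2 = 1 then gF3 C g b s t v s1 s2 s3 0 0 else 0))
        else gF3 C g b s t v s1 s2 s3 (l.2 - 61) ((l.1 : ℤ) - 32) := by
  have hKP := H.KP
  have hP12 := H.P12
  obtain ⟨i, j⟩ := l
  rcases (mem_labsT C.J1 C.K1 (by omega) C.rg (i, j)).1 hl with ⟨h1, h2, h3⟩ | ⟨h1, h2, h3⟩ | h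
  · dsimp only at h1 h2 h3 ⊢
    subst h1
    obtain ⟨m, rfl⟩ : ∃ m, j = 64 + m := ⟨j - 64, by omega⟩
    have hsub : 64 + m - 64 = m := by omega
    rw [if_pos rfl, if_pos (by omega : 64 < 64 + m), hsub]
    exact F2I2_itJ X H m (by omega) (by omega)
  · dsimp only at h1 h2 h3 ⊢
    subst h1
    obtain ⟨m, hm⟩ : ∃ m, m = 62 - j := ⟨_, rfl⟩
    have hj : j = 62 - m := by omega
    rw [if_pos rfl, if_neg (by omega : ¬ 64 < j), ← hm, hj]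
    exact F2I2_itK X H m (by omega) (by omega)
  · obtain ⟨e, he, h2, h3, h4, h5, h6⟩ := (mem_labsF C.rg 61 (i, j)).1 h
    rw [H.len] at he
    obtain ⟨r1, r2, r3, r4⟩ := H.rg e he
    dsimp only at h2 h3 h4 h5 h6 ⊢
    have hx := X.xF_C (j := j) h5
    rw [if_neg h5]
    unfold szP
    rw [if_neg h5]
    simp only [List.map_cons, List.sum_cons, List.map_nil, List.sum_nil]
    have a3 : ∀ w : Bool → Bool → ℕ,
        slT true s1 s2 s3 (mkSlF (t3F C) (Nat.sub j 61) (Nat.sub (Nat.add i (t3F C).P) 32) w) =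
          fun1 C.w3 3 s1 s2 s3 (j - 61) ((i : ℤ) - 32) := fun w =>
      F2I2_s3 H _ (j - 61) _ rfl rfl (by omega) (by show i + C.P3 - 32 ≤ 2 * C.P3; omega)
        (by show ((i + C.P3 - 32 : ℕ) : ℤ) - C.P3 = (i : ℤ) - 32; omega)
    rw [a3]
    unfold gF3
    have n3 : ((j - 61 : ℕ) : ℤ) - 3 = jI j := by
      unfold jI
      omega
    have n4 : (i : ℤ) - 32 = iI i := by
      unfold iI
      omega
    rw [n3, n4, hx]
    ring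

end Pool.Agent.MaxTerm59b
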