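import Pool.Agent.MaxTerm59b.F2I

/-! Extremal matched vertex with a generic right neighbour: assembly (compare `MvH3.lean`, `MvH4.lean`). -/

namespace Pool.Agent.MaxTerm59b
open Finset Pool.Agent.MaxTerm58

variable {L : LF2} {C : CF2} {g b : ℕ} {s t : ℂ} {v : ℤ → ℂ} {s1 s2 s3 : ℝ}

private theorem F2I3_cond {α : Type} (c : Bool) (p q : List α) (s : α) (h : s ∈ cond c p q) : s ∈ p ∨ s ∈ q := by
  cases c
  · exact Or.inr h
  · exact Or.inl h

/-- the slots of the items are admissible. For the labels of `C3`: `labF_eq`, `psC`. -/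
theorem szP_ok (X : CtxF L g b s t v s1 s2 s3) (H : ShF L C) : ∀ l ∈ labsT C.J1 C.K1 C.rg,
    ∀ q ∈ szP L C s2 s3 l, SlotOK true s1 s2 s3 q.1 q.2 := by
  intro l _ q hq
  have hS : ∀ (m a c : ℕ) (t : Tab) (cl pw : ℕ),
      SlotOK true s1 s2 s3 (mkSlF t cl pw (valF L m a c)) (psF L m a c s2 s3) :=
    fun m a c t cl pw => slF_ok X.G m a c s1 s2 s3 X.h1 X.h2 X.h3 t cl pw
  unfold szP at hq
  by_cases h1 : l.1 = 32
  · rw [if_pos h1] at hq
    by_cases h2 : 64 < l.2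
    · rw [if_pos h2] at hq
      rcases List.mem_cons.1 hq with h | h
      · rw [h]
        exact hS _ _ _ _ _ _
      rcases List.mem_cons.1 h with h | h
      · rw [h]
        exact hS _ _ _ _ _ _
      rcases F2I3_cond _ _ _ _ h with h | h
      · rw [List.mem_singleton.1 h]
        exact hS _ _ _ _ _ _
      · exact absurd h (List.not_mem_nil)
    · rw [if_neg h2] at hq
      rcases List.mem_cons.1 hq with h | h
      · rw [h]
        exact hS _ _ _ _ _ _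
      rcases List.mem_cons.1 h with h | h
      · rw [h]
        exact hS _ _ _ _ _ _
      rcases F2I3_cond _ _ _ _ h with h | h
      · rw [List.mem_singleton.1 h]
        exact hS _ _ _ _ _ _
      · exact absurd h (List.not_mem_nil)
  · rw [if_neg h1] at hq
    rw [List.mem_singleton.1 hq]
    show SlotOK true s1 s2 s3 (mkSlF (t3F C) (Nat.sub l.2 61) (Nat.sub (Nat.add l.1 (t3F C).P) 32) (labF L l.1 l.2).v)
      (psC L l.1 l.2 s2 s3)
    rw [labF_eq]
    unfold psC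
    rcases h2 : rtF L l.1 l.2 with _ | _
    · rcases h3 : ltF L l.1 l.2 with _ | _
      · simp only [Bool.false_eq_true, if_false, cond_false]
        exact slF_one s1 s2 s3 X.h1 X.h2 X.h3 _ _ _
      · simp only [Bool.false_eq_true, if_false, cond_false, cond_true, if_true]
        exact hS _ _ _ _ _ _
    · simp only [cond_true, if_true]
      exact hS _ _ _ _ _ _

theorem czF_ok (X : CtxF L g b s t v s1 s2 s3) (H : ShF L C) : ∀ q ∈ czF L C s1 s2 s3,
    CSlotOK true s1 s2 s3 q.1 q.2 := by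
  intro q hq
  have hF : ∀ (a c : ℕ) (t : Tab) (cl pw : ℕ),
      CSlotOK true s1 s2 s3 (cstF t cl pw (valF L 0 a c)) ((psF L 0 a c s2 s3 : ℝ) : ℂ) :=
    fun a c t cl pw => cstF_ok X.G a c s1 s2 s3 X.h1 X.h2 X.h3 t cl pw
  have hP : ∀ (a c : ℕ) (t : Tab) (cl pw : ℕ), CSlotOK true s1 s2 s3 (cstP L t cl pw (valF L 0 a c))
      (((psF L 0 a c s2 s3 : ℝ) : ℂ) * Complex.exp ((ai (thU L.U0) (thU L.U1) s1 : ℝ) * Complex.I)) :=
    fun a c t cl pw => cstP_ok X.G a c s1 s2 s3 X.h1 X.h2 X.h3 t cl pw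
  unfold czF at hq
  rcases List.mem_cons.1 hq with h | h
  · rw [h]; exact hP _ _ _ _ _
  rcases List.mem_cons.1 h with h | h
  · rw [h]; exact hF _ _ _ _ _
  rcases List.mem_cons.1 h with h | h
  · rw [h]; exact hF _ _ _ _ _
  rcases List.mem_cons.1 h with h | h
  · rw [h]; exact hP _ _ _ _ _
  rcases List.mem_cons.1 h with h | h
  · rw [h]; exact hF _ _ _ _ _
  rcases List.mem_cons.1 h with h | h
  · rw [h]; exact hF _ _ _ _ _
  rcases List.mem_cons.1 h with h | h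
  · rw [h]; exact hF _ _ _ _ _
  rcases List.mem_cons.1 h with h | h
  · rw [h]; exact hF _ _ _ _ _
  rcases List.mem_cons.1 h with h | h
  · rw [h]; exact hF _ _ _ _ _
  rw [List.mem_singleton.1 h]
  exact hP _ _ _ _ _

/-- groups of the items. In the first case: `itemJ`, or a right label of `C3` with `inBall`. -/
theorem itF_grp (H : ShF L C) (l : ℕ × ℕ) (hl : l ∈ labsT C.J1 C.K1 C.rg) :
    (itF L (t1F C) (t2F C) (t3F C) l).grp ≤ 2 ∧
    ((itF L (t1F C) (t2F C) (t3F C) l).grp = 1 →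
      ((l.1 = 32 ∧ 64 < l.2 ∧ inBall L (mexJ L (l.2 - 64)) l.2 = true) ∨
        (l.1 ≠ 32 ∧ rtF L l.1 l.2 = true ∧ inBall L (mXF L l.1 l.2) l.2 = true)) ∧
      (itF L (t1F C) (t2F C) (t3F C) l).cu = true) ∧
    ((itF L (t1F C) (t2F C) (t3F C) l).grp = 2 → l.1 = 32 ∧ l.2 < 62 ∧
      (l.2 ≤ 60 → (itF L (t1F C) (t2F C) (t3F C) l).cu = true)) := by
  have hKP := H.KP
  have hP := H.P12
  by_cases h1 : l.1 = 32
  · by_cases h2 : 64 < l.2
    · have e : itF L (t1F C) (t2F C) (t3F C) l = itemJ L (t1F C) (t2F C) (t3F C) (l.2 - 64) := by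
        unfold itF
        rw [if_pos h1, if_pos h2]
      have eg : (itF L (t1F C) (t2F C) (t3F C) l).grp =
          cond (Bool.and (Nat.ble (l.2 - 64) 3) (inBall L (mexJ L (l.2 - 64)) (Nat.add 64 (l.2 - 64)))) 1 0 := by
        rw [e]
        rfl
      have ec : (itF L (t1F C) (t2F C) (t3F C) l).cu = true := by
        rw [e]
        rfl
      have e64 : Nat.add 64 (l.2 - 64) = l.2 := by
        show 64 + (l.2 - 64) = l.2
        omega
      rw [e64] at eg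
      rw [eg, ec]
      rcases hb : Bool.and (Nat.ble (l.2 - 64) 3) (inBall L (mexJ L (l.2 - 64)) l.2) with _ | _
      · rw [cond_false]
        exact ⟨by norm_num, fun h => absurd h (by norm_num), fun h => absurd h (by norm_num)⟩
      · rw [cond_true]
        refine ⟨by norm_num, fun _ => ⟨Or.inl ⟨h1, h2, ?_⟩, rfl⟩, fun h => absurd h (by norm_num)⟩
        rw [Bool.and_eq_true] at hb
        exact hb.2
    · have h3 : l.2 ≤ 61 := by
        rw [mem_labsT _ _ (by omega)] at hl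
        rcases hl with hl | hl | hl
        · omega
        · exact hl.2.2
        · rw [mem_labsF] at hl
          obtain ⟨e, -, -, -, -, h32, -⟩ := hl
          exact absurd h1 h32
      have e : itF L (t1F C) (t2F C) (t3F C) l = itemK L (t1F C) (t2F C) (t3F C) (62 - l.2) := by
        unfold itF
        rw [if_pos h1, if_neg h2]
      have eg : (itF L (t1F C) (t2F C) (t3F C) l).grp = 2 := by
        rw [e]
        rfl
      have ec : (itF L (t1F C) (t2F C) (t3F C) l).cu = Nat.ble 2 (62 - l.2) := by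
        rw [e]
        rfl
      rw [eg, ec]
      refine ⟨le_rfl, fun h => absurd h (by norm_num), fun _ => ⟨h1, by omega, fun h => ?_⟩⟩
      rw [Nat.ble_eq]
      omega
  · have eg : (itF L (t1F C) (t2F C) (t3F C) l).grp = cond (labF L l.1 l.2).grp 1 0 := by
      unfold itF
      rw [if_neg h1]
    have ec : (itF L (t1F C) (t2F C) (t3F C) l).cu = true := by
      unfold itF
      rw [if_neg h1]
    rw [eg, ec]
    rcases hb : (labF L l.1 l.2).grp with _ | _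
    · rw [cond_false]
      exact ⟨by norm_num, fun h => absurd h (by norm_num), fun h => absurd h (by norm_num)⟩
    · rw [cond_true]
      refine ⟨by norm_num, fun _ => ⟨Or.inr ⟨h1, ?_⟩, rfl⟩, fun h => absurd h (by norm_num)⟩
      rw [labF_eq] at hb
      rcases h2 : rtF L l.1 l.2 with _ | _
      · rw [h2] at hb
        rcases h3 : ltF L l.1 l.2 with _ | _
        · rw [h3] at hb
          exact absurd hb (by simp)
        · rw [h3] at hb
          exact absurd hb (by simp)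
      · rw [h2] at hb
        exact ⟨rfl, hb⟩

private theorem F2I3_add (cx : Bool) (n : ℕ) (b1 b2 b3 : Bool) (l : List (ℕ × List ℕ)) (c : ℕ) :
    costNodes cx (mkSC cx n) b1 b2 b3 (nodes cx (mkSC cx n) l) c =
      costNodes cx (mkSC cx n) b1 b2 b3 (nodes cx (mkSC cx n) l) 0 + c := by
  rw [costNodes_eq, costNodes_eq cx n b1 b2 b3 l 0]
  omega

private theorem F2I3_vs_add (s1 s2 s3 : ℝ) (f g : Bool → Bool → Bool → ℝ) :
    vs s1 s2 s3 (fun b1 b2 b3 => f b1 b2 b3 + g b1 b2 b3) = vs s1 s2 s3 f + vs s1 s2 s3 g := by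
  unfold vs
  simp only [mul_add, Finset.sum_add_distrib]

private theorem F2I3_max (x y : ℕ) : x ≤ maxN x y ∧ y ≤ maxN x y := by
  have : maxN x y = x + (y - x) := rfl
  omega

private theorem F2I3_Icc (H : ShF L C) :
    (∀ p ∈ Finset.Icc (-(2 + (C.K1 : ℤ))) (C.J1 : ℤ), |p| ≤ 40) ∧
      (Finset.Icc (-(2 + (C.K1 : ℤ))) (C.J1 : ℤ)).card ≤ 2000 := by
  have h1 := H.JP
  have h2 := H.KP
  have h3 := H.P12
  constructor
  · intro p hp
    rw [Finset.mem_Icc] at hp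
    rw [abs_le]
    constructor <;> omega
  · rw [Int.card_Icc]
    omega

private theorem F2I3_A (X : CtxF L g b s t v s1 s2 s3) (H : ShF L C) (hD1 : C.D1 = L.D1) :
    ‖∑ p ∈ Finset.Icc (-(2 + (C.K1 : ℤ))) (C.J1 : ℤ), aF C g s t v s1 s2 s3 p‖ ≤
      (170919 / 100000 + ((tailU L C.J1 C.K1 (omtF L) : ℕ) : ℝ) / 2 ^ 40 + 1 / 2 ^ 28) * 2 ^ 40 *
        costS true 0 s1 s2 s3 C.w1 := by
  have hD : Nat.shiftRight L.D1.a 10 < 1099511627775 := by
    rw [← hD1]
    exact H.D1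
  obtain ⟨hI, hc⟩ := F2I3_Icc H
  have h := side_ineq true 0 (c1 g s t v) X.H.row1 (fun d p => (X.H.c_le_one d p).1)
    (fun _ => Finset.Icc (-(2 + (C.K1 : ℤ))) (C.J1 : ℤ)) (fun _ => ((tailU L C.J1 C.K1 (omtF L) : ℕ) : ℝ) / 2 ^ 40)
    (fun _ _ p hp => hI p hp) (by
      show ∑ e ∈ range 1, (Finset.Icc (-(2 + (C.K1 : ℤ))) (C.J1 : ℤ)).card ≤ 2000
      rw [Finset.sum_range_one]
      exact hc)
    (fun e he S hS => by
      have he0 : e = 0 := by omega
      have hj : ((e : ℤ) - ((0 : ℕ) : ℤ)) = 0 := by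
        rw [he0]
        rfl
      rw [hj]
      refine (X.tail_1 hD C.J1 C.K1 S hS).trans ?_
      refine div_le_div_of_nonneg_right ?_ (by positivity)
      have hm := (F2I3_max
        (Nat.add (geo (Nat.add (mx4 (valF L (mexJ L (Nat.succ C.J1)) (Nat.mul 64 (Nat.add 2 C.J1)) (Nat.mul 64 (Nat.succ C.J1)))) 8) (omtF L))
          (geo (Nat.add (mx4 (valF L 0 0 (Nat.mul 64 (Nat.succ C.K1)))) 8) (omtF L)))
        (Nat.add (geo (Nat.add (mx4 (valF L (mexJ L (Nat.succ C.J1)) 0 (Nat.mul 64 (Nat.succ C.J1)))) 8) (omtF L))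
          (geo (Nat.add (mx4 (valF L 0 (Nat.mul 64 (Nat.add 2 C.K1)) (Nat.mul 64 (Nat.succ C.K1)))) 8) (omtF L)))).1
      exact_mod_cast hm)
    C.w1 H.k1 s1 s2 s3
  have e1 : ∀ f : ℕ → ℂ, ∑ e ∈ range (2 * 0 + 1), f e = f 0 := fun f => Finset.sum_range_one f
  have e2 : ∀ f : ℕ → ℝ, ∑ e ∈ range (2 * 0 + 1), f e = f 0 := fun f => Finset.sum_range_one f
  rw [e1, e2] at h
  exact h

private theorem F2I3_B (X : CtxF L g b s t v s1 s2 s3) (H : ShF L C) (hD1 : C.D1 = L.D1) :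
    ‖∑ p ∈ Finset.Icc (-(2 + (C.K1 : ℤ))) (C.J1 : ℤ), bF C g s t v s1 s2 s3 p‖ ≤
      (170919 / 100000 + ((tailU L C.J1 C.K1 (omtF L) : ℕ) : ℝ) / 2 ^ 40 + 1 / 2 ^ 28) * 2 ^ 40 *
        costS true 0 s1 s2 s3 C.w2 := by
  have hD : Nat.shiftRight L.D1.a 10 < 1099511627775 := by
    rw [← hD1]
    exact H.D1
  obtain ⟨hI, hc⟩ := F2I3_Icc H
  have h := side_ineq true 0 (c2 g s t v) X.H.row2 (fun d p => (X.H.c_le_one d p).2.1)
    (fun _ => Finset.Icc (-(2 + (C.K1 : ℤ))) (C.J1 : ℤ)) (fun _ => ((tailU L C.J1 C.K1 (omtF L) : ℕ) : ℝ) / 2 ^ 40)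
    (fun _ _ p hp => hI p hp) (by
      show ∑ e ∈ range 1, (Finset.Icc (-(2 + (C.K1 : ℤ))) (C.J1 : ℤ)).card ≤ 2000
      rw [Finset.sum_range_one]
      exact hc)
    (fun e he S hS => by
      have he0 : e = 0 := by omega
      have hj : ((e : ℤ) - ((0 : ℕ) : ℤ)) = 0 := by
        rw [he0]
        rfl
      rw [hj]
      refine (X.tail_2 hD C.J1 C.K1 S hS).trans ?_
      refine div_le_div_of_nonneg_right ?_ (by positivity)
      have hm := (F2I3_max
        (Nat.add (geo (Nat.add (mx4 (valF L (mexJ L (Nat.succ C.J1)) (Nat.mul 64 (Nat.add 2 C.J1)) (Nat.mul 64 (Nat.succ C.J1)))) 8) (omtF L))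
          (geo (Nat.add (mx4 (valF L 0 0 (Nat.mul 64 (Nat.succ C.K1)))) 8) (omtF L)))
        (Nat.add (geo (Nat.add (mx4 (valF L (mexJ L (Nat.succ C.J1)) 0 (Nat.mul 64 (Nat.succ C.J1)))) 8) (omtF L))
          (geo (Nat.add (mx4 (valF L 0 (Nat.mul 64 (Nat.add 2 C.K1)) (Nat.mul 64 (Nat.succ C.K1)))) 8) (omtF L)))).2
      exact_mod_cast hm)
    C.w2 H.k2 s1 s2 s3
  have e1 : ∀ f : ℕ → ℂ, ∑ e ∈ range (2 * 0 + 1), f e = f 0 := fun f => Finset.sum_range_one f
  have e2 : ∀ f : ℕ → ℝ, ∑ e ∈ range (2 * 0 + 1), f e = f 0 := fun f => Finset.sum_range_one f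
  rw [e1, e2] at h
  exact h

private theorem F2I3_C (X : CtxF L g b s t v s1 s2 s3) (H : ShF L C) (hD1 : C.D1 = L.D1)
    (hlen : (labsT C.J1 C.K1 C.rg).length ≤ 500) :
    ‖∑ e ∈ range 7, ∑ p ∈ rgF C.rg 32 e, gF3 C g b s t v s1 s2 s3 e p‖ ≤
      (170919 / 100000 + ((tailF L (omDF L) C.rg 61 : ℕ) : ℝ) / 2 ^ 40 + 1 / 2 ^ 28) * 2 ^ 40 *
        costS true 3 s1 s2 s3 C.w3 := by
  have hD : Nat.shiftRight L.D1.a 10 < 1099511627775 := by
    rw [← hD1]
    exact H.D1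
  have hc := cardF_le C.J1 C.K1 C.rg H.len hlen
  have h := side_ineq true 3 (c3 g b s t v) X.H.row3 (fun d p => (X.H.c_le_one d p).2.2) (rgF C.rg 32)
    (fun e => ((geo (Nat.add (mx4 (labF L (Nat.add (C.rg.getD e (0, 0)).1 (C.rg.getD e (0, 0)).2) (61 + e)).v) 8) (omDF L) : ℕ) +
        (geo (Nat.add (mx4 (labF L (Nat.sub (C.rg.getD e (0, 0)).1 1) (61 + e)).v) 8) (omDF L) : ℕ) : ℝ) / 2 ^ 40)
    (fun e he p hp => by
      obtain ⟨-, -, h3, h4⟩ := H.rg e (by omega)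
      have h5 := H.P3
      unfold rgF at hp
      rw [Finset.mem_Ico] at hp
      rw [abs_le]
      constructor <;> omega) hc
    (fun e he S hS => by
      have hj : jI (61 + e) = (e : ℤ) - ((3 : ℕ) : ℤ) := by
        unfold jI
        push_cast
        ring
      rw [← hj]
      exact X.tail_3 hD C.P3 (61 + e) ⟨by omega, by omega⟩ (C.rg.getD e (0, 0))
        (okF_get C.rg 61 H.okF e (by rw [H.len]; omega)) S hS)
    C.w3 H.k3 s1 s2 s3
  have ht : ∑ e ∈ range (2 * 3 + 1), ((geo (Nat.add (mx4 (labF L (Nat.add (C.rg.getD e (0, 0)).1 (C.rg.getD e (0, 0)).2) (61 + e)).v) 8) (omDF L) : ℕ) +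
        (geo (Nat.add (mx4 (labF L (Nat.sub (C.rg.getD e (0, 0)).1 1) (61 + e)).v) 8) (omDF L) : ℕ) : ℝ) / 2 ^ 40 =
      ((tailF L (omDF L) C.rg 61 : ℕ) : ℝ) / 2 ^ 40 := by
    rw [tailF_eq, H.len, Nat.cast_sum, Finset.sum_div]
    refine Finset.sum_congr rfl fun e _ => ?_
    rw [Nat.cast_add]
  rw [ht] at h
  exact h

/-- the bound of the three sides. Hint: `side_ineq` for the three sides, `tail_1`, `tail_2`, `tail_3`, `tailF_eq`,
`cardF_le`, `costS_le`, `costNodes_eq`. -/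
theorem sidesF_le (X : CtxF L g b s t v s1 s2 s3) (H : ShF L C) (hD1 : C.D1 = L.D1)
    (hlen : (labsT C.J1 C.K1 C.rg).length ≤ 500) :
    ‖∑ p ∈ Finset.Icc (-(2 + (C.K1 : ℤ))) (C.J1 : ℤ), aF C g s t v s1 s2 s3 p +
        ∑ p ∈ Finset.Icc (-(2 + (C.K1 : ℤ))) (C.J1 : ℤ), bF C g s t v s1 s2 s3 p +
        ∑ e ∈ range 7, ∑ p ∈ rgF C.rg 32 e, gF3 C g b s t v s1 s2 s3 e p‖ ≤
      (170919 / 100000 + (maxN (tailF L (omDF L) C.rg 61) (tailU L C.J1 C.K1 (omtF L)) : ℕ) / 2 ^ 40 + 1 / 2 ^ 28) *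
        2 ^ 40 * vs s1 s2 s3 (fun b1 b2 b3 =>
          (costNodes true (mkSC true 0) b1 b2 b3 (nodes true (mkSC true 0) C.w1)
            (costNodes true (mkSC true 0) b1 b2 b3 (nodes true (mkSC true 0) C.w2)
              (costNodes true (mkSC true 3) b1 b2 b3 (nodes true (mkSC true 3) C.w3) 0)) : ℝ)) := by
  have hA := F2I3_A X H hD1
  have hB := F2I3_B X H hD1
  have hC := F2I3_C X H hD1 hlen
  have cA := costS_le true 0 s1 s2 s3 X.h1 X.h2 X.h3 C.w1
  have cB := costS_le true 0 s1 s2 s3 X.h1 X.h2 X.h3 C.w2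
  have cC := costS_le true 3 s1 s2 s3 X.h1 X.h2 X.h3 C.w3
  have hm := F2I3_max (tailF L (omDF L) C.rg 61) (tailU L C.J1 C.K1 (omtF L))
  have hvs : vs s1 s2 s3 (fun b1 b2 b3 =>
          (costNodes true (mkSC true 0) b1 b2 b3 (nodes true (mkSC true 0) C.w1)
            (costNodes true (mkSC true 0) b1 b2 b3 (nodes true (mkSC true 0) C.w2)
              (costNodes true (mkSC true 3) b1 b2 b3 (nodes true (mkSC true 3) C.w3) 0)) : ℝ)) =
      vs s1 s2 s3 (fun b1 b2 b3 => (costNodes true (mkSC true 0) b1 b2 b3 (nodes true (mkSC true 0) C.w1) 0 : ℝ)) +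
      (vs s1 s2 s3 (fun b1 b2 b3 => (costNodes true (mkSC true 0) b1 b2 b3 (nodes true (mkSC true 0) C.w2) 0 : ℝ)) +
      vs s1 s2 s3 (fun b1 b2 b3 => (costNodes true (mkSC true 3) b1 b2 b3 (nodes true (mkSC true 3) C.w3) 0 : ℝ))) := by
    rw [← F2I3_vs_add, ← F2I3_vs_add]
    congr 1
    funext b1 b2 b3
    rw [F2I3_add true 0 b1 b2 b3 C.w1, F2I3_add true 0 b1 b2 b3 C.w2, Nat.cast_add, Nat.cast_add]
  rw [hvs]
  obtain ⟨M, hM⟩ : ∃ M : ℕ, M = maxN (tailF L (omDF L) C.rg 61) (tailU L C.J1 C.K1 (omtF L)) := ⟨_, rfl⟩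
  rw [← hM] at hm ⊢
  have h1 : ((tailF L (omDF L) C.rg 61 : ℕ) : ℝ) ≤ (M : ℝ) := by exact_mod_cast hm.1
  have h2 : ((tailU L C.J1 C.K1 (omtF L) : ℕ) : ℝ) ≤ (M : ℝ) := by exact_mod_cast hm.2
  have nA := costS_nonneg true 0 s1 s2 s3 C.w1
  have nB := costS_nonneg true 0 s1 s2 s3 C.w2
  have nC := costS_nonneg true 3 s1 s2 s3 C.w3
  have hK : (0 : ℝ) ≤ (170919 / 100000 + (M : ℝ) / 2 ^ 40 + 1 / 2 ^ 28) * 2 ^ 40 := by positivity
  have k1 : (170919 / 100000 + ((tailF L (omDF L) C.rg 61 : ℕ) : ℝ) / 2 ^ 40 + 1 / 2 ^ 28) * 2 ^ 40 ≤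
      (170919 / 100000 + (M : ℝ) / 2 ^ 40 + 1 / 2 ^ 28) * 2 ^ 40 := by
    refine mul_le_mul_of_nonneg_right ?_ (by positivity)
    have := div_le_div_of_nonneg_right h1 (show (0 : ℝ) ≤ 2 ^ 40 by positivity)
    linarith
  have k2 : (170919 / 100000 + ((tailU L C.J1 C.K1 (omtF L) : ℕ) : ℝ) / 2 ^ 40 + 1 / 2 ^ 28) * 2 ^ 40 ≤
      (170919 / 100000 + (M : ℝ) / 2 ^ 40 + 1 / 2 ^ 28) * 2 ^ 40 := by
    refine mul_le_mul_of_nonneg_right ?_ (by positivity)
    have := div_le_div_of_nonneg_right h2 (show (0 : ℝ) ≤ 2 ^ 40 by positivity)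
    linarith
  refine (norm_add_le _ _).trans ?_
  refine (add_le_add (norm_add_le _ _) le_rfl).trans ?_
  refine (add_le_add (add_le_add (hA.trans (mul_le_mul_of_nonneg_right k2 nA))
    (hB.trans (mul_le_mul_of_nonneg_right k2 nB))) (hC.trans (mul_le_mul_of_nonneg_right k1 nC))).trans ?_
  rw [mul_add, mul_add, add_assoc]
  exact add_le_add (mul_le_mul_of_nonneg_left cA hK)
    (add_le_add (mul_le_mul_of_nonneg_left cB hK) (mul_le_mul_of_nonneg_left cC hK))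

end Pool.Agent.MaxTerm59b
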