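import Pool.Agent.MaxTerm59b.F2I2
import Pool.Agent.MaxTerm59b.F2I3

/-! Extremal matched vertex with a generic right neighbour: soundness of the check. -/

namespace Pool.Agent.MaxTerm59b
open Finset Pool.Agent.MaxTerm58

private theorem F2J_and {p q : Bool} (h : Bool.and p q = true) : p = true ∧ q = true := by
  cases p <;> cases q <;> simp_all

theorem chkLF_false {L : LF2} {C : CF2} {g b : ℕ} {s t : ℂ} {v : ℤ → ℂ} {s1 s2 s3 : ℝ}
    (X : CtxF L g b s t v s1 s2 s3) (hD : C.D1 = L.D1)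
    (h : chkLF TC TS L C (mkSC true 0) (mkSC true 3) = true) : False := by
  obtain ⟨h0, h2⟩ := F2J_and h
  obtain ⟨-, h1⟩ := F2J_and h0
  have H := shF_of h1
  have h3 : chkNF L C (mkSC true 0) (mkSC true 3) (nodes true (mkSC true 0) C.w1) (nodes true (mkSC true 0) C.w2)
      (nodes true (mkSC true 3) C.w3) (t1F C) (t2F C) (t3F C) = true := h2
  unfold chkNF at h3
  simp only [] at h3
  obtain ⟨hlen, h4⟩ := F2J_and h3
  obtain ⟨h5, h6⟩ := F2J_and h4
  obtain ⟨h7, h8⟩ := F2J_and h5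
  obtain ⟨h9, h10⟩ := F2J_and h6
  obtain ⟨v000, v100⟩ := F2J_and h7
  obtain ⟨v010, v110⟩ := F2J_and h8
  obtain ⟨v001, v101⟩ := F2J_and h9
  obtain ⟨v011, v111⟩ := F2J_and h10
  have hlen' := Nat.le_of_ble_eq_true hlen
  have hits : itemsJ L (t1F C) (t2F C) (t3F C) C.J1 (itemsK L (t1F C) (t2F C) (t3F C) C.K1
      (allF L (t3F C) C.rg 61 [])) = (labsT C.J1 C.K1 C.rg).map (itF L (t1F C) (t2F C) (t3F C)) := by
    have hK : C.K1 ≤ 61 := by
      have := H.KP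
      have := H.P12
      omega
    rw [itemsJ_eq, itemsK_eq _ _ _ _ _ hK, allF_eq L (t1F C) (t2F C) (t3F C), List.append_nil, ← List.map_append,
      ← List.map_append]
    rfl
  rw [hits] at hlen'
  rw [List.length_map] at hlen'
  have hK : C.K1 ≤ 61 := by
    have := H.KP
    have := H.P12
    omega
  have hv : ∀ b1 b2 b3 : Bool, chkVF L C (mkSC true 0) (mkSC true 3) (nodes true (mkSC true 0) C.w1)
      (nodes true (mkSC true 0) C.w2) (nodes true (mkSC true 3) C.w3)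
      ((labsT C.J1 C.K1 C.rg).map (itF L (t1F C) (t2F C) (t3F C))) (consF L (t1F C) (t2F C) (t3F C))
      (maxN (tailF L (omDF L) C.rg 61) (tailU L C.J1 C.K1 (omtF L)))
      (Nat.succ (Nat.shiftRight (mainE true (consF L (t1F C) (t2F C) (t3F C))) 76)) b1 b2 b3 = true := by
    rw [hits, hD] at v000 v100 v010 v110 v001 v101 v011 v111
    intro b1 b2 b3
    cases b1 <;> cases b2 <;> cases b3
    · exact v000
    · exact v001
    · exact v010
    · exact v011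
    · exact v100
    · exact v101
    · exact v110
    · exact v111
  have hnd := labsT_nodup C.J1 C.K1 hK C.rg
  have hsplit := side_splitF C.J1 C.K1 H.J (by have := H.K; omega) hK C.rg H.len
    (fun e he => ⟨(H.rg e he).1, (H.rg e he).2.1⟩) (aF C g s t v s1 s2 s3) (bF C g s t v s1 s2 s3)
    (gF3 C g b s t v s1 s2 s3)
  have hsides := sidesF_le X H hD hlen'
  have hxn : ∀ l ∈ labsT C.J1 C.K1 C.rg, ‖xF L g b s t v s2 s3 l.1 l.2‖ ≤ 1 := by
    intro l hl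
    refine X.xF_norm l.1 l.2 ?_
    rw [mem_labsT _ _ hK] at hl
    rcases hl with hl | hl | hl
    · omega
    · omega
    · rw [mem_labsF] at hl
      obtain ⟨e, -, -, -, -, h32, -⟩ := hl
      omega
  have hE := X.EL_facts
  have hEL : (0 : ℝ) ≤ (L.EL : ℝ) / 2 ^ 40 := by positivity
  have hER : (0 : ℝ) ≤ (L.ER : ℝ) / 2 ^ 40 := by positivity
  refine dual_core2 true s1 s2 s3 X.h1 X.h2 X.h3 (fun h => absurd h (by decide)) (labsT C.J1 C.K1 C.rg) hnd
    (itF L (t1F C) (t2F C) (t3F C)) (fun l hl => (itF_grp H l hl).1)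
    (czF L C s1 s2 s3) _ L.ER L.EL C.l1 C.l2 _
    (fun b1 b2 b3 _ => hv b1 b2 b3) (fun l => xF L g b s t v s2 s3 l.1 l.2) hxn (szP L C s2 s3)
    (fun l _ => szP_fst L C s2 s3 l) (szP_ok X H) (czF_ok X H)
    ((L.ER : ℝ) / 2 ^ 40) ((L.EL : ℝ) / 2 ^ 40) hER hEL le_rfl le_rfl ?_ ?_ ?_
  · obtain ⟨u, hu2⟩ := X.ball_R ((labsT C.J1 C.K1 C.rg).toFinset.filter
      (fun l => (itF L (t1F C) (t2F C) (t3F C) l).grp = 1)) (fun l hl => by
        rw [mem_filter, List.mem_toFinset] at hl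
        exact ((itF_grp H l hl.1).2.1 hl.2).1)
    exact ⟨u, hu2, fun hu hg => ((itF_grp H u hu).2.1 hg).2⟩
  · obtain ⟨u, hu1, hu2⟩ := X.ball_L ((labsT C.J1 C.K1 C.rg).toFinset.filter
      (fun l => (itF L (t1F C) (t2F C) (t3F C) l).grp = 2)) (fun l hl => by
        rw [mem_filter, List.mem_toFinset] at hl
        have := (itF_grp H l hl.1).2.2 hl.2
        exact ⟨this.1, this.2.1⟩)
    refine ⟨u, hu2, fun hu hg => ((itF_grp H u hu).2.2 hg).2.2 (hu1 ?_)⟩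
    rw [mem_filter, List.mem_toFinset]
    exact ⟨hu, hg⟩
  · have he : ((czF L C s1 s2 s3).map fun q => slT true s1 s2 s3 q.1.s * q.2).sum +
        ((labsT C.J1 C.K1 C.rg).map fun l => ((szP L C s2 s3 l).map fun q =>
          slT true s1 s2 s3 q.1 * (q.2 : ℂ)).sum * xF L g b s t v s2 s3 l.1 l.2).sum =
        ∑ p ∈ Finset.Icc (-(2 + (C.K1 : ℤ))) (C.J1 : ℤ), aF C g s t v s1 s2 s3 p +
        ∑ p ∈ Finset.Icc (-(2 + (C.K1 : ℤ))) (C.J1 : ℤ), bF C g s t v s1 s2 s3 p +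
        ∑ e ∈ range 7, ∑ p ∈ rgF C.rg 32 e, gF3 C g b s t v s1 s2 s3 e p := by
      rw [hsplit, consF_sum X H]
      congr 2
      exact List.map_congr_left fun l hl => itF_sum X H l hl
    rw [he]
    exact hsides

/-- soundness of the check of a leaf -/
theorem chkF2_sound {U0 U1 Q0 Q1 L0 L1 R0 R1 : ℕ} {C : CF2}
    (h : chkF2 TC TS U0 U1 Q0 Q1 L0 L1 R0 R1 C = true)
    {g b : ℕ} {s t : ℂ} {v : ℤ → ℂ} (H : HypF g b s t v) (I : InCellF U0 U1 Q0 Q1 L0 L1 R0 R1 g b s t) : False := by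
  have h' : chkLF TC TS (mkF U0 U1 Q0 Q1 L0 L1 R0 R1 C) C (mkSC true 0) (mkSC true 3) = true := h
  obtain ⟨h1, -⟩ := F2J_and h'
  obtain ⟨h2, -⟩ := F2J_and h1
  have G := mkF_good U0 U1 Q0 Q1 L0 L1 R0 R1 C I.Q0' I.L0' h2
  obtain ⟨s1, s2, s3, X⟩ := exists_ctxF (L := mkF U0 U1 Q0 Q1 L0 L1 R0 R1 C) G H I
  exact chkLF_false (C := C) X rfl h'

end Pool.Agent.MaxTerm59b
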