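import Pool.Agent.MaxTerm59b.GenMV

/-! Generator of the items for the extremal matched vertex with a generic right neighbour, and the check of a leaf.
Parameters: `q = Q e^{iθ}` with `θ = π - 2 arctan (u/128)`, `Q = Q/65536`, `t = (L/65536) Q`, `ρ = R/64` (`R1 = 0`:
unbounded). Corners: `C1` (vertices `-2, -1`), `C2` (`-1, 0`), `C3` (`0, ρ`). Vertices of the cell: `b1` for `θ`, `b2`
for `Q`, `b3` for `L`. -/

namespace Pool.Agent.MaxTerm59b

structure LF2 where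
  U0 : Nat
  U1 : Nat
  Q0 : Nat
  Q1 : Nat
  L0 : Nat
  L1 : Nat
  R0 : Nat
  R1 : Nat
  q0 : Pw
  q1 : Pw
  l0 : Pw
  l1 : Pw
  D0 : Pw
  D1 : Pw

def LF2.D2 (L : LF2) : Nat := Nat.succ (Nat.shiftRight (Nat.pow L.D1.a 2) 60)

def one40 : Nat := 1099511627776

/-- `x^(m/256)`, exact for `m = 0` -/
def pw0 (p : Pw) (m : Nat) : Nat := cond (Nat.beq m 0) one40 (powr p m)

/-- value `D^(m/256) Q^((a+b)/64) L^(b/64)`, i.e. `D^(m/256) Q^(a/64) t^(b/64)` -/
def valF (L : LF2) (m a b : Nat) (b2 b3 : Bool) : Nat :=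
  Nat.shiftRight (Nat.mul (Nat.shiftRight (Nat.mul
    (cond (Nat.beq m 0) one40 (Nat.succ (powr (cond b2 L.D1 L.D0) m)))
    (pw0 (cond b2 L.q1 L.q0) (Nat.mul 4 (Nat.add a b)))) 40) (pw0 (cond b3 L.l1 L.l0) (Nat.mul 4 b))) 40

/-- a slot from the values `v b2 b3` (no dependence on `θ`) -/
def mkSlF (t : Tab) (cl pw : Nat) (v : Bool → Bool → Nat) : Slot :=
  (fun d1 d2 q =>
    (fun c =>
      (fun e => ⟨t, cl, pw, fun _ b2 b3 => Nat.sub (v b2 b3) c, e, e, Nat.add e (Nat.div (Nat.add d1 16) 2),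
        Nat.add e (Nat.div (Nat.add d2 16) 2)⟩) (Nat.add (Nat.sub q c) 8))
      (minN (Nat.div q 2) (minN (minN (v false false) (v true false)) (minN (v false true) (v true true)))))
    (maxN (dist (v false false) (v true false)) (dist (v false true) (v true true)))
    (maxN (dist (v false false) (v false true)) (dist (v true false) (v true true)))
    (Nat.add
      (maxN (qf (dist (v false false) (v true false)) (minN (v false false) (v true false)))
        (qf (dist (v false true) (v true true)) (minN (v false true) (v true true))))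
      (maxN (qf (dist (v false false) (v false true)) (minN (v false false) (v false true)))
        (qf (dist (v true false) (v true true)) (minN (v true false) (v true true)))))

/-- size exponent of a right label: minimum over the ratios -/
def mexF (L : LF2) (i j p0 p1 : Nat) : Nat :=
  minN (fR p0 L.R0) (cond (Nat.beq L.R1 0) (cond (Nat.blt j 64) (fR p0 L.R0) (Nat.mul 256 (Nat.sub i 33))) (fR p1 L.R1))

def inBall (L : LF2) (m j : Nat) : Bool :=
  Bool.and (Bool.and (Nat.ble 64 j) (Nat.ble j 67))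
    (Bool.and (Nat.blt L.D2 EF) (Nat.ble (Nat.mul 256 L.D2) (Nat.mul m (Nat.sub EF L.D2))))

/-- data of a label on `C3` with `i ≠ 0`: value and group -/
structure LbF where
  grp : Bool
  v : Bool → Bool → Nat

def labFA (L : LF2) (i j p0 n0 p1 n1 : Nat) : LbF :=
  cond (Bool.and (Nat.beq n0 0) (Nat.beq n1 0))
    ((fun m => ⟨inBall L m j, valF L m 0 0⟩) (mexF L i j p0 p1))
    (cond (Bool.and (Nat.beq p0 0) (Nat.beq p1 0))
      ((fun n => ⟨false, valF L 0 (Nat.sub n 64) (Nat.add n (Nat.sub n 128))⟩) (minN n0 n1))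
      ⟨false, fun _ _ => one40⟩)

/-- unbounded ratio: the sign at infinity is the one of `i - 32` -/
def labF (L : LF2) (i j : Nat) : LbF :=
  cond (Nat.beq L.R1 0) (labFA L i j (posP L.R0 i j) (posN L.R0 i j) (cond (Nat.blt 32 i) 1 0)
      (cond (Nat.blt i 32) (Nat.succ (posN L.R0 i j)) 0))
    (labFA L i j (posP L.R0 i j) (posN L.R0 i j) (posP L.R1 i j) (posN L.R1 i j))

/-- size exponent of the label `(0, j)`, `j ≥ 1` -/
def mexJ (L : LF2) (j : Nat) : Nat :=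
  minN (fR (Nat.mul 64 j) L.R0) (cond (Nat.beq L.R1 0) 0 (fR (Nat.mul 64 j) L.R1))

/-- right label `j` of the unit lattice -/
def itemJ (L : LF2) (t1 t2 t3 : Tab) (j : Nat) : Item :=
  (fun m => ⟨mkSlF t1 0 (Nat.add t1.P j) (valF L m (Nat.mul 64 (Nat.succ j)) (Nat.mul 64 j)) ::
      mkSlF t2 0 (Nat.add t2.P j) (valF L m 0 (Nat.mul 64 j)) ::
      cond (Nat.ble j 3) [mkSlF t3 (Nat.add 3 j) t3.P (valF L m 0 0)] [],
    cond (Bool.and (Nat.ble j 3) (inBall L m (Nat.add 64 j))) 1 0, true⟩) (mexJ L j)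

/-- left label `-2-k` of the unit lattice -/
def itemK (L : LF2) (t1 t2 t3 : Tab) (k : Nat) : Item :=
  ⟨mkSlF t1 0 (Nat.sub t1.P (Nat.add 2 k)) (valF L 0 0 (Nat.mul 64 k)) ::
      mkSlF t2 0 (Nat.sub t2.P (Nat.add 2 k)) (valF L 0 (Nat.mul 64 (Nat.succ k)) (Nat.mul 64 k)) ::
      cond (Nat.beq k 1) [mkSlF t3 0 t3.P (valF L 0 128 256)] [],
    2, Nat.ble 2 k⟩

def itemsJ (L : LF2) (t1 t2 t3 : Tab) (cnt : Nat) (r : List Item) : List Item :=
  Nat.rec (motive := fun _ => List Item) r (fun j ih => itemJ L t1 t2 t3 (Nat.succ j) :: ih) cnt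
def itemsK (L : LF2) (t1 t2 t3 : Tab) (cnt : Nat) (r : List Item) : List Item :=
  Nat.rec (motive := fun _ => List Item) r (fun j ih => itemK L t1 t2 t3 (Nat.succ j) :: ih) cnt

/-- labels of the class `j` on `C3`: powers `i ≠ 0`, without `(1, 0)` -/
def rowF (L : LF2) (t3 : Tab) (j : Nat) (cnt : Nat) : Nat → List Item → List Item :=
  Nat.rec (motive := fun _ => Nat → List Item → List Item) (fun _ r => r)
    (fun _ ih i r => cond (Bool.or (Nat.beq i 32) (Bool.and (Nat.beq i 33) (Nat.beq j 64))) (ih (Nat.succ i) r)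
      ((fun b => ⟨[mkSlF t3 (Nat.sub j 61) (Nat.sub (Nat.add i t3.P) 32) b.v], cond b.grp 1 0, true⟩ :: ih (Nat.succ i) r)
        (labF L i j))) cnt

def allF (L : LF2) (t3 : Tab) (rg : List (Nat × Nat)) : Nat → List Item → List Item :=
  List.rec (motive := fun _ => Nat → List Item → List Item) (fun _ r => r)
    (fun x _ ih j r => rowF L t3 j x.2 x.1 (ih (Nat.succ j) r)) rg

/-- tails of the classes of `C3` -/
def tailF (L : LF2) (omD : Nat) (rg : List (Nat × Nat)) : Nat → Nat :=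
  List.rec (motive := fun _ => Nat → Nat) (fun _ => 0)
    (fun x _ ih j => Nat.add (ih (Nat.succ j)) (Nat.add (geo (Nat.add (mx4 (labF L (Nat.add x.1 x.2) j).v) 8) omD)
      (geo (Nat.add (mx4 (labF L (Nat.sub x.1 1) j).v) 8) omD))) rg

/-- conditions for the range of a class on `C3` -/
def okF1 (L : LF2) (P j : Nat) (x : Nat × Nat) : Bool :=
  Bool.and (Bool.and (Nat.ble 1 x.1) (Bool.and (Nat.ble x.1 31) (Nat.ble 34 (Nat.add x.1 x.2))))
    (Bool.and (Bool.and (Nat.ble 32 (Nat.add x.1 P)) (Nat.ble (Nat.add x.1 x.2) (Nat.add 33 P)))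
      (Bool.and (Bool.and (Nat.ble L.R0 (posP L.R0 (Nat.add x.1 x.2) j))
          (Bool.or (Nat.beq L.R1 0) (Nat.ble L.R1 (posP L.R1 (Nat.add x.1 x.2) j))))
        (Bool.and (Nat.ble 128 (posN L.R0 (Nat.sub x.1 1) j))
          (Bool.or (Nat.beq L.R1 0) (Nat.ble 128 (posN L.R1 (Nat.sub x.1 1) j))))))

def okF (L : LF2) (P : Nat) (rg : List (Nat × Nat)) : Nat → Bool :=
  List.rec (motive := fun _ => Nat → Bool) (fun _ => true)
    (fun x _ ih j => Bool.and (okF1 L P j x) (ih (Nat.succ j))) rg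

/-- `cos` and `sin` of `2 arctan (u/128)` (rounded down, scale `2^40`) -/
def cosU (u : Nat) : Nat := Nat.div (Nat.mul one40 (Nat.sub 16384 (Nat.mul u u))) (Nat.add 16384 (Nat.mul u u))
def sinU (u : Nat) : Nat := Nat.div (Nat.mul one40 (Nat.mul 256 u)) (Nat.add 16384 (Nat.mul u u))

/-- upper bound of the tangent of half of the angle of the cell -/
def tauF (L : LF2) : Nat :=
  Nat.succ (Nat.div (Nat.mul one40 (Nat.mul 128 (Nat.sub L.U1 L.U0))) (Nat.add 16384 (Nat.mul L.U0 L.U1)))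

/-- a real constant -/
def cstF (t : Tab) (cl pw : Nat) (v : Bool → Bool → Nat) : CSlot :=
  (fun s => ⟨s, fun b1 b2 b3 => Nat.add (s.ph b1 b2 b3) 2199023255552, fun _ _ _ => 2199023255552⟩)
    (mkSlF t cl pw v)

/-- a constant with the phase `e^{iθ}` -/
def cstP (L : LF2) (t : Tab) (cl pw : Nat) (v : Bool → Bool → Nat) : CSlot :=
  (fun s => (fun x y => ⟨⟨s.t, s.cl, s.pw, s.ph, Nat.add s.e0 x, Nat.add s.e1 (Nat.add x y), Nat.add s.e2 x,
      Nat.add s.e3 x⟩,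
    fun b1 b2 b3 => Nat.sub 2199023255552 (Nat.shiftRight (Nat.mul (s.ph b1 b2 b3) (cosU (cond b1 L.U1 L.U0))) 40),
    fun b1 b2 b3 => Nat.add 2199023255552 (Nat.shiftRight (Nat.mul (s.ph b1 b2 b3) (sinU (cond b1 L.U1 L.U0))) 40)⟩)
      (Nat.add 8 (Nat.shiftRight (Nat.mul (Nat.add (mx4 v) 8) (Nat.pow (tauF L) 2)) 81))
      (Nat.add 8 (Nat.shiftRight (Nat.mul (Nat.add (mx4 v) 8) (tauF L)) 40)))
    (mkSlF t cl pw v)

def consF (L : LF2) (t1 t2 t3 : Tab) : List CSlot :=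
  cstP L t1 0 (Nat.sub t1.P 2) (valF L 0 0 0) :: cstF t1 0 (Nat.sub t1.P 1) (valF L 0 0 0) ::
  cstF t1 0 t1.P (valF L 0 64 0) :: cstP L t2 0 (Nat.sub t2.P 2) (valF L 0 64 0) ::
  cstF t2 0 (Nat.sub t2.P 1) (valF L 0 0 0) :: cstF t2 0 t2.P (valF L 0 0 0) ::
  cstF t3 3 t3.P (valF L 0 0 0) :: cstF t3 3 (Nat.succ t3.P) (valF L 0 0 0) ::
  cstF t3 2 t3.P (valF L 0 0 64) :: cstP L t3 1 t3.P (valF L 0 64 128) :: []

/-- squared radii of the right and the left ball (scale `2^40`) -/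
def LF2.ER (L : LF2) : Nat := Nat.sub (Nat.succ E40) (Nat.shiftRight (Nat.pow (Nat.shiftRight L.D0.a 10) 2) 40)
def LF2.EL (L : LF2) : Nat := Nat.sub (Nat.succ E40) (Nat.shiftRight (Nat.pow (Nat.mul L.Q0 L.L0) 2) 24)

structure CF2 where
  q0b : Nat
  q0c : Nat
  q1b : Nat
  q1c : Nat
  l0b : Nat
  l0c : Nat
  l1b : Nat
  l1c : Nat
  D0 : Pw
  D1 : Pw
  J1 : Nat
  K1 : Nat
  rg : List (Nat × Nat)
  P12 : Nat
  P3 : Nat
  w1 : List (Nat × List Nat)
  w2 : List (Nat × List Nat)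
  w3 : List (Nat × List Nat)
  l1 : Bool → Bool → Bool → Nat
  l2 : Bool → Bool → Bool → Nat

/-- `D ≥ Q/65536 + 1/100000` at scale `2^50` -/
def okDF (Q D : Nat) : Bool := Nat.ble (Nat.add (Nat.mul Q 17179869184) 11258999069) D

def okTF (L : LF2) : Bool :=
  Bool.and (Bool.and
      (Bool.and (Bool.and (rootF L.q0.a L.q0.b) (rootF L.q0.b L.q0.c)) (Bool.and (rootF L.q1.a L.q1.b) (rootF L.q1.b L.q1.c)))
      (Bool.and (Bool.and (rootF L.l0.a L.l0.b) (rootF L.l0.b L.l0.c)) (Bool.and (rootF L.l1.a L.l1.b) (rootF L.l1.b L.l1.c))))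
    (Bool.and
      (Bool.and (Bool.and (rootC L.D0.a L.D0.b) (rootC L.D0.b L.D0.c)) (Bool.and (rootC L.D1.a L.D1.b) (rootC L.D1.b L.D1.c)))
      (Bool.and (Bool.and (Bool.and (Nat.ble L.D0.b 1125899906842624) (Nat.ble L.D0.c 1125899906842624))
          (Bool.and (Nat.ble L.D1.b 1125899906842624) (Nat.ble L.D1.c 1125899906842624)))
        (Bool.and (Bool.and (okDF L.Q0 L.D0.a) (okDF L.Q1 L.D1.a)) (Bool.and (Nat.ble L.D0.a L.D1.a)
        (Bool.and (Bool.and (Nat.ble L.Q0 L.Q1) (Nat.ble L.L0 L.L1)) (Bool.and (Nat.blt L.D1.a 1125899906842624)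
          (Bool.and (Bool.and (Nat.ble L.U0 L.U1) (Nat.ble L.U1 80)) (Bool.and (Nat.ble L.L1 60000)
            (Nat.ble (Nat.mul 100 (Nat.pow (Nat.mul L.Q1 L.L1) 2)) (Nat.mul 46 18446744073709551616))))))))))

def okShF (L : LF2) (C : CF2) : Bool :=
  Bool.and (Bool.and (Nat.beq C.rg.length 7) (okF L C.P3 C.rg 61))
    (Bool.and (Bool.and (Bool.and (Nat.ble 3 C.J1) (Nat.ble 2 C.K1))
        (Bool.and (Nat.ble C.J1 C.P12) (Nat.ble (Nat.add 2 C.K1) C.P12)))
      (Bool.and (Bool.and (okK 0 C.w1) (Bool.and (okK 0 C.w2) (okK 0 C.w3)))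
        (Bool.and (Nat.ble (Nat.add (nrows C.w1) (Nat.add (nrows C.w2) (nrows C.w3))) 256)
          (Bool.and (Nat.blt (Nat.shiftRight C.D1.a 10) 1099511627775) (Bool.and (Nat.ble C.P12 40) (Nat.ble C.P3 40))))))

def vtxF (c0 c3 : SC) (n1 n2 n3 : List Nd) (tail E1 E2 ec : Nat) (its : List Item) (co : List CSlot)
    (l1 l2 : Nat) (b1 b2 b3 : Bool) : Bool :=
  runI true b1 b2 b3 l1 l2 its 0 0 0 fun t x y =>
    finV tail E1 E2 ec (costNodes true c0 b1 b2 b3 n1 (costNodes true c0 b1 b2 b3 n2 (costNodes true c3 b1 b2 b3 n3 0)))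
      (mainP true b1 b2 b3 co) (mainN true b1 b2 b3 co) t x y l1 l2

def chkVF (L : LF2) (C : CF2) (c0 c3 : SC) (n1 n2 n3 : List Nd) (its : List Item) (co : List CSlot) (tail ec : Nat)
    (b1 b2 b3 : Bool) : Bool :=
  vtxF c0 c3 n1 n2 n3 tail L.ER L.EL ec its co (C.l1 b1 b2 b3) (C.l2 b1 b2 b3) b1 b2 b3

/-- tail of the unit lattice: the larger one of the tails on `C1` and `C2` -/
def tailU (L : LF2) (J1 K1 omt : Nat) : Nat :=
  maxN
    (Nat.add (geo (Nat.add (mx4 (valF L (mexJ L (Nat.succ J1)) (Nat.mul 64 (Nat.add 2 J1)) (Nat.mul 64 (Nat.succ J1)))) 8) omt)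
      (geo (Nat.add (mx4 (valF L 0 0 (Nat.mul 64 (Nat.succ K1)))) 8) omt))
    (Nat.add (geo (Nat.add (mx4 (valF L (mexJ L (Nat.succ J1)) 0 (Nat.mul 64 (Nat.succ J1)))) 8) omt)
      (geo (Nat.add (mx4 (valF L 0 (Nat.mul 64 (Nat.add 2 K1)) (Nat.mul 64 (Nat.succ K1)))) 8) omt))

def chkNF (L : LF2) (C : CF2) (c0 c3 : SC) (n1 n2 n3 : List Nd) (t1 t2 t3 : Tab) : Bool :=
  (fun (its : List Item) (co : List CSlot) (tail ec : Nat) =>
    Bool.and (Nat.ble its.length 500)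
      (Bool.and
        (Bool.and (Bool.and (chkVF L C c0 c3 n1 n2 n3 its co tail ec false false false)
            (chkVF L C c0 c3 n1 n2 n3 its co tail ec true false false))
          (Bool.and (chkVF L C c0 c3 n1 n2 n3 its co tail ec false true false)
            (chkVF L C c0 c3 n1 n2 n3 its co tail ec true true false)))
        (Bool.and (Bool.and (chkVF L C c0 c3 n1 n2 n3 its co tail ec false false true)
            (chkVF L C c0 c3 n1 n2 n3 its co tail ec true false true))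
          (Bool.and (chkVF L C c0 c3 n1 n2 n3 its co tail ec false true true)
            (chkVF L C c0 c3 n1 n2 n3 its co tail ec true true true)))))
    (itemsJ L t1 t2 t3 C.J1 (itemsK L t1 t2 t3 C.K1 (allF L t3 C.rg 61 [])))
    (consF L t1 t2 t3)
    (maxN (tailF L (Nat.sub 1099511627775 (Nat.shiftRight C.D1.a 10)) C.rg 61)
      (tailU L C.J1 C.K1 (Nat.sub one40 (Nat.mul 256 (Nat.mul L.Q1 L.L1)))))
    (Nat.succ (Nat.shiftRight (mainE true (consF L t1 t2 t3)) 76))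

def chkLF (TC TS : Nat) (L : LF2) (C : CF2) (c0 c3 : SC) : Bool :=
  Bool.and (Bool.and (okTF L) (okShF L C)) ((fun (n1 n2 n3 : List Nd) =>
    chkNF L C c0 c3 n1 n2 n3 (mkTab true TC TS C.P12 c0 (nsum c0.M n1)) (mkTab true TC TS C.P12 c0 (nsum c0.M n2))
      (mkTab true TC TS C.P3 c3 (nsum c3.M n3)))
    (nodes true c0 C.w1) (nodes true c0 C.w2) (nodes true c3 C.w3))

/-- the complete check of a leaf -/
def chkF2 (TC TS U0 U1 Q0 Q1 L0 L1 R0 R1 : Nat) (C : CF2) : Bool :=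
  chkLF TC TS ⟨U0, U1, Q0, Q1, L0, L1, R0, R1, ⟨Nat.shiftLeft Q0 34, C.q0b, C.q0c⟩, ⟨Nat.shiftLeft Q1 34, C.q1b, C.q1c⟩,
    ⟨Nat.shiftLeft L0 34, C.l0b, C.l0c⟩, ⟨Nat.shiftLeft L1 34, C.l1b, C.l1c⟩, C.D0, C.D1⟩ C (mkSC true 0) (mkSC true 3)

end Pool.Agent.MaxTerm59b
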