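import Pool.Agent.MaxTerm59b.Core

/-! Generator of the items for the mismatched vertex with a generic ratio, and the complete check of a leaf.
`t = T / 65536`, `ρ = R / 64` (`R1 = 0`: unbounded), powers at scale `2^50` resp. `2^40`. Labels `(i, j)` (position
`i ρ + j`) are stored as `i' = i + 32`, `j' = j + 64`. -/

namespace Pool.Agent.MaxTerm59b

/-- `x^(m/256)` (scale `2^40`, rounded down) from `x`, `x^(1/16)`, `x^(1/256)` (scale `2^50`) -/
structure Pw where
  a : Nat
  b : Nat
  c : Nat

def powr (p : Pw) (m : Nat) : Nat :=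
  (fun u v w => Nat.shiftRight (Nat.mul 1099511627776 (Nat.mul (Nat.pow p.a u) (Nat.mul (Nat.pow p.b v) (Nat.pow p.c w))))
    (Nat.mul 50 (Nat.add u (Nat.add v w)))) (Nat.div m 256) (Nat.mod (Nat.div m 16) 16) (Nat.mod m 16)

/-- `r ≤ x^(1/16) < r + 1` -/
def rootF (x r : Nat) : Bool :=
  Nat.ble (Nat.pow r 16) (Nat.mul x (Nat.pow 2 750)) && Nat.blt (Nat.mul x (Nat.pow 2 750)) (Nat.pow (Nat.succ r) 16)
/-- `x^(1/16) ≤ r` -/
def rootC (x r : Nat) : Bool := Nat.ble (Nat.mul x (Nat.pow 2 750)) (Nat.pow r 16)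

/-- bound of the interpolation error in one direction: difference `d`, smaller value `m` (both up to `6` units) -/
def qf (d m : Nat) : Nat :=
  cond (Nat.ble m 16) (Nat.add d 16) (Nat.succ (Nat.div (Nat.pow (Nat.add d 16) 2) (Nat.mul 8 (Nat.sub m 8))))

def dist (a b : Nat) : Nat := Nat.add (Nat.sub a b) (Nat.sub b a)

/-- the same for a direction whose differences depend on the other parameter: values `M0 ≥ m0` at the first end of the
other direction, `m1` the maximum of the smaller values, `M` the maximum of all values -/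
def qg (M0 m0 m1 M : Nat) : Nat :=
  cond (Nat.ble m0 16) (Nat.add M 16)
    (Nat.succ (Nat.div (Nat.mul (Nat.add m1 8) (Nat.pow (Nat.add (Nat.sub M0 m0) 16) 2))
      (Nat.mul 8 (Nat.pow (Nat.sub m0 8) 2))))

/-- a slot from the four values `v b1 b2` (centred by `c`, half of the interpolation error `q`) -/
def mkSlot (t : Tab) (cl pw : Nat) (v : Bool → Bool → Nat) : Slot :=
  (fun d1 d2 q =>
    (fun c =>
      (fun e => ⟨t, cl, pw, fun b1 b2 _ => Nat.sub (v b1 b2) c, e, Nat.add e (Nat.div (Nat.add d1 16) 2),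
        Nat.add e (Nat.div (Nat.add d2 16) 2), 0⟩) (Nat.add (Nat.sub q c) 8))
      (minN (Nat.div q 2) (minN (minN (v false false) (v true false)) (minN (v false true) (v true true)))))
    (maxN (dist (v false false) (v true false)) (dist (v false true) (v true true)))
    (maxN (dist (v false false) (v false true)) (dist (v true false) (v true true)))
    (Nat.add
      (maxN (qf (dist (v false false) (v true false)) (minN (v false false) (v true false)))
        (qf (dist (v false true) (v true true)) (minN (v false true) (v true true))))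
      (qg (maxN (v false false) (v false true)) (minN (v false false) (v false true))
        (maxN (minN (v false false) (v false true)) (minN (v true false) (v true true)))
        (maxN (maxN (v false false) (v false true)) (maxN (v true false) (v true true)))))

/-- parameters of a leaf -/
structure LMV where
  nL : Nat
  T0 : Nat
  T1 : Nat
  R0 : Nat
  R1 : Nat
  RM : Nat
  LM : Nat
  t0 : Pw
  t1 : Pw
  D0 : Pw
  D1 : Pw

/-- `D^2` (upper, scale `2^40`) -/
def LMV.D2 (L : LMV) : Nat := Nat.succ (Nat.shiftRight (Nat.pow L.D1.a 2) 60)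

/-- `E = B^2 - 2` at scale `2^40`, rounded down and up -/
def EF : Nat := 1013013549506
def E40 : Nat := 1013013549507

/-- size exponent `(p - ρ)/ρ` in 1/256 -/
def fR (p R : Nat) : Nat := Nat.div (Nat.mul 256 (Nat.sub p R)) R

/-- data of a label: validity, side of the base, group, may be the exceptional unit, values of the two slots -/
structure Lb where
  ok : Bool
  rt : Bool
  grp : Bool
  cu : Bool
  r : Bool → Bool → Nat
  l : Bool → Bool → Nat

/-- positive and negative part of the position (in 1/64) for a ratio `R` -/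
def posP (R i j : Nat) : Nat := Nat.sub (Nat.add (Nat.mul i R) (Nat.mul 64 j)) (Nat.add (Nat.mul 32 R) 4096)
def posN (R i j : Nat) : Nat := Nat.sub (Nat.add (Nat.mul 32 R) 4096) (Nat.add (Nat.mul i R) (Nat.mul 64 j))

def sizeS (L : LMV) (m : Nat) (b : Bool) : Nat :=
  cond (Nat.beq m 0) 1099511627776 (Nat.succ (powr (cond b L.D1 L.D0) m))

def monT (L : LMV) (q : Nat) (b : Bool) : Nat := cond (Nat.beq q 0) 1099511627776 (powr (cond b L.t1 L.t0) q)

/-- size exponent (in 1/256): right labels `(p - ρ)/ρ`, left labels `|p| - 1`, minimum over the ratios -/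
def mE (L : LMV) (rt : Bool) (i j p0 n0 p1 n1 : Nat) : Nat :=
  cond rt (minN (fR p0 L.R0) (cond (Nat.beq L.R1 0) (cond (Nat.blt j 64) (fR p0 L.R0) (Nat.mul 256 (Nat.sub i 33)))
      (fR p1 L.R1))) (Nat.mul 4 (Nat.sub (minN n0 n1) 64))

/-- the label of the next unit if the neighbouring vertex is matched -/
def unitL (rt : Bool) (i j : Nat) : Bool :=
  cond rt (Bool.and (Nat.beq i 34) (Nat.beq j 64)) (Bool.and (Nat.beq i 32) (Nat.beq j 62))

/-- class in the window of the ball -/
def inWin (L : LMV) (rt : Bool) (i j : Nat) : Bool :=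
  cond rt (Bool.and (Nat.ble 63 j) (Nat.ble j 66))
    (Bool.and (Nat.ble (Nat.sub 32 (Nat.div L.nL 2)) i) (Nat.ble i (Nat.add 32 (minN L.nL 1))))

/-- member of the ball; `md` mode of the side, `m` size exponent -/
def grpL (L : LMV) (rt : Bool) (i j md m : Nat) : Bool :=
  Bool.and (Bool.and (inWin L rt i j) (Bool.not (Bool.and (Nat.beq md 1) (unitL rt i j))))
    (Bool.and (Bool.not (Bool.and (Nat.beq md 1) (Nat.blt 2048 (Nat.mul 5 m))))
      (Bool.and (Nat.blt L.D2 EF) (Nat.ble (Nat.mul 256 L.D2) (Nat.mul m (Nat.sub EF L.D2)))))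

/-- size exponent used -/
def m2L (grp : Bool) (md m : Nat) : Nat :=
  cond (Bool.and (Nat.beq md 1) (Bool.and (Bool.not grp) (Nat.blt 256 m))) (Nat.sub (Nat.mul 2 m) 256) m

/-- exponent (in 1/256) of `t` on the other corner; for `nL = 0` and `i ≠ 0` only a lower bound is used -/
def qL (L : LMV) (rt : Bool) (i p0 n0 p1 n1 p n : Nat) : Nat :=
  cond (Bool.and (Nat.beq L.nL 0) (Bool.not (Nat.beq i 32))) (Nat.mul 4 (cond rt (minN p0 p1) (minN n0 n1)))
    (Nat.mul 4 (cond rt p n))

/-- size -/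
def vB (L : LMV) (m2 : Nat) (b1 _b2 : Bool) : Nat := sizeS L m2 b1
/-- size times the power of `t` -/
def vO (L : LMV) (m2 q0 q1 : Nat) (b1 b2 : Bool) : Nat :=
  Nat.shiftRight (Nat.mul (sizeS L m2 b1) (monT L (cond b2 q1 q0) b1)) 40

/-- label, `p0 n0` position at `R0`, `p1 n1` at `R1` (or the substitute), side `rt`, exponent `m`, mode `md` -/
def labC (L : LMV) (rt : Bool) (i j p0 n0 p1 n1 md m : Nat) : Lb :=
  (fun grp => (fun m2 q0 q1 =>
    ⟨Bool.or (Bool.and (Nat.beq n0 0) (Nat.beq n1 0)) (Bool.and (Nat.beq p0 0) (Nat.beq p1 0)), rt, grp,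
      Bool.and (Bool.not (Nat.beq md 1)) (Bool.not (Bool.and (Nat.beq md 2) (unitL rt i j))),
      cond rt (vB L m2) (vO L m2 q0 q1), cond rt (vO L m2 q0 q1) (vB L m2)⟩)
    (m2L grp md m) (qL L rt i p0 n0 p1 n1 p0 n0) (qL L rt i p0 n0 p1 n1 p1 n1)) (grpL L rt i j md m)

def labA (L : LMV) (i j p0 n0 p1 n1 : Nat) : Lb :=
  (fun rt => labC L rt i j p0 n0 p1 n1 (cond rt L.RM L.LM) (mE L rt i j p0 n0 p1 n1))
    (Bool.and (Nat.beq n0 0) (Nat.beq n1 0))

/-- positions at the second ratio; unbounded ratio: the first ratio if `i ≠ 0` -/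
def lab (L : LMV) (i j : Nat) : Lb :=
  cond (Nat.beq L.R1 0) (labA L i j (posP L.R0 i j) (posN L.R0 i j) (posP L.R0 i j) (posN L.R0 i j))
    (labA L i j (posP L.R0 i j) (posN L.R0 i j) (posP L.R1 i j) (posN L.R1 i j))

/-- the label `(i, j)` as an item; `tR`, `tL` the tables -/
def mkItem (L : LMV) (tR tL : Tab) (i j : Nat) : Item :=
  (fun b => ⟨cond (Bool.and (Nat.ble 61 j) (Nat.ble j 67))
      (mkSlot tR (Nat.sub j 61) (Nat.sub (Nat.add i tR.P) 32) b.r ::
        cond (Bool.and (Nat.ble (Nat.sub 32 L.nL) i) (Nat.ble i (Nat.add 32 L.nL)))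
          [mkSlot tL (Nat.sub (Nat.add i L.nL) 32) (Nat.sub (Nat.add j tL.P) 64) b.l] [])
      [mkSlot tL (Nat.sub (Nat.add i L.nL) 32) (Nat.sub (Nat.add j tL.P) 64) b.l],
    cond b.grp (cond b.rt 1 2) 0, b.cu⟩) (lab L i j)

/-- the constants `(0,0)`, `(1,0)`, `(0,-1)` -/
def isConst (i j : Nat) : Bool :=
  Bool.or (Bool.and (Nat.beq j 64) (Bool.or (Nat.beq i 32) (Nat.beq i 33))) (Bool.and (Nat.beq i 32) (Nat.beq j 63))

/-- labels of a right class `j`, `cnt` powers from `i` on -/
def rowR (L : LMV) (tR tL : Tab) (j : Nat) (cnt : Nat) : Nat → List Item → List Item :=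
  Nat.rec (motive := fun _ => Nat → List Item → List Item) (fun _ r => r)
    (fun _ ih i r => cond (isConst i j) (ih (Nat.succ i) r) (mkItem L tR tL i j :: ih (Nat.succ i) r)) cnt

/-- labels of a left class `i`, only the powers outside of the right classes -/
def rowL (L : LMV) (tR tL : Tab) (i : Nat) (cnt : Nat) : Nat → List Item → List Item :=
  Nat.rec (motive := fun _ => Nat → List Item → List Item) (fun _ r => r)
    (fun _ ih j r => cond (Bool.and (Nat.ble 61 j) (Nat.ble j 67)) (ih (Nat.succ j) r)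
      (mkItem L tR tL i j :: ih (Nat.succ j) r)) cnt

/-- ranges `(first, count)` for consecutive classes from `j` on -/
def allR (L : LMV) (tR tL : Tab) (rg : List (Nat × Nat)) : Nat → List Item → List Item :=
  List.rec (motive := fun _ => Nat → List Item → List Item) (fun _ r => r)
    (fun x _ ih j r => rowR L tR tL j x.2 x.1 (ih (Nat.succ j) r)) rg
def allL (L : LMV) (tR tL : Tab) (rg : List (Nat × Nat)) : Nat → List Item → List Item :=
  List.rec (motive := fun _ => Nat → List Item → List Item) (fun _ r => r)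
    (fun x _ ih i r => rowL L tR tL i x.2 x.1 (ih (Nat.succ i) r)) rg

/-- maximum over the vertices -/
def mx4 (v : Bool → Bool → Nat) : Nat :=
  maxN (maxN (v false false) (v true false)) (maxN (v false true) (v true true))

/-- tail of a series with first term `v` and ratio `1 - om` -/
def geo (v om : Nat) : Nat := Nat.succ (Nat.div (Nat.shiftLeft v 40) om)

/-- tails of the right classes; all labels below and above must be valid -/
def tailR (L : LMV) (omD omt : Nat) (rg : List (Nat × Nat)) : Nat → Nat :=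
  List.rec (motive := fun _ => Nat → Nat) (fun _ => 0)
    (fun x _ ih j => Nat.add (ih (Nat.succ j)) (Nat.add (geo (Nat.add (mx4 (lab L (Nat.add x.1 x.2) j).r) 8) omD)
      (geo (Nat.add (mx4 (lab L (Nat.sub x.1 1) j).r) 8) omt))) rg
def tailL (L : LMV) (omD omt : Nat) (rg : List (Nat × Nat)) : Nat → Nat :=
  List.rec (motive := fun _ => Nat → Nat) (fun _ => 0)
    (fun x _ ih i => Nat.add (ih (Nat.succ i)) (Nat.add (geo (Nat.add (mx4 (lab L i (Nat.add x.1 x.2)).l) 8) omt)
      (geo (Nat.add (mx4 (lab L i (Nat.sub x.1 1)).l) 8) omD))) rg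

/-- all labels of a class are valid -/
def okC (f : Nat → Lb) (cnt : Nat) : Nat → Bool :=
  Nat.rec (motive := fun _ => Nat → Bool) (fun _ => true) (fun _ ih i => Bool.and (f i).ok (ih (Nat.succ i))) cnt

/-- conditions for the range `x = (first, count)` of the right class `j`: the powers `-nL .. max nL 1` contained, the
first omitted right label beyond `ρ`, the first omitted left label at a position `≤ 0` -/
def okR1 (L : LMV) (P j : Nat) (x : Nat × Nat) : Bool :=
  Bool.and (Bool.and (Nat.ble 1 x.1) (okC (fun i => lab L i j) x.2 x.1))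
    (Bool.and (Bool.and (Nat.ble x.1 (Nat.sub 32 L.nL)) (Nat.ble (Nat.add 33 (maxN L.nL 1)) (Nat.add x.1 x.2)))
      (Bool.and (Bool.and (Nat.ble 32 (Nat.add x.1 P)) (Nat.ble (Nat.add x.1 x.2) (Nat.add 33 P)))
        (Bool.and (Bool.and (Nat.ble L.R0 (posP L.R0 (Nat.add x.1 x.2) j))
            (Bool.or (Nat.beq L.R1 0) (Nat.ble L.R1 (posP L.R1 (Nat.add x.1 x.2) j))))
          (Bool.and (Nat.beq (posP L.R0 (Nat.sub x.1 1) j) 0)
            (Bool.or (Nat.beq L.R1 0) (Nat.beq (posP L.R1 (Nat.sub x.1 1) j) 0))))))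

def okR (L : LMV) (P : Nat) (rg : List (Nat × Nat)) : Nat → Bool :=
  List.rec (motive := fun _ => Nat → Bool) (fun _ => true)
    (fun x _ ih j => Bool.and (okR1 L P j x) (ih (Nat.succ j))) rg

/-- conditions for the range `x = (first, count)` of the left class `i`: the powers `-3 .. 3` contained, the first
omitted right label at a position `≥ 0`, the first omitted left label at a position `≤ -1` -/
def okL1 (L : LMV) (P i : Nat) (x : Nat × Nat) : Bool :=
  Bool.and (Bool.and (Nat.ble 1 x.1) (okC (fun j => lab L i j) x.2 x.1))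
    (Bool.and (Bool.and (Nat.ble x.1 61) (Nat.ble 68 (Nat.add x.1 x.2)))
      (Bool.and (Bool.and (Nat.ble 64 (Nat.add x.1 P)) (Nat.ble (Nat.add x.1 x.2) (Nat.add 65 P)))
        (Bool.and (Bool.and (Nat.beq (posN L.R0 i (Nat.add x.1 x.2)) 0)
            (Bool.or (Nat.beq L.R1 0) (Nat.beq (posN L.R1 i (Nat.add x.1 x.2)) 0)))
          (Bool.and (Nat.ble 64 (posN L.R0 i (Nat.sub x.1 1)))
            (Bool.or (Nat.beq L.R1 0) (Nat.ble 64 (posN L.R1 i (Nat.sub x.1 1))))))))

def okL (L : LMV) (P : Nat) (rg : List (Nat × Nat)) : Nat → Bool :=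
  List.rec (motive := fun _ => Nat → Bool) (fun _ => true)
    (fun x _ ih i => Bool.and (okL1 L P i x) (ih (Nat.succ i))) rg

/-- a constant with the value `t^(q0/256)` resp. `t^(q1/256)` -/
def cstM (L : LMV) (t : Tab) (cl pw q0 q1 : Nat) : CSlot :=
  (fun s => ⟨s, fun b1 b2 b3 => Nat.add (s.ph b1 b2 b3) 2199023255552, fun _ _ _ => 2199023255552⟩)
    (mkSlot t cl pw (fun b1 b2 => monT L (cond b2 q1 q0) b1))

def consMV (L : LMV) (tR tL : Tab) : List CSlot :=
  cstM L tR 3 tR.P 0 0 :: cstM L tR 3 (Nat.succ tR.P) 0 0 :: cstM L tR 2 tR.P 256 256 ::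
  cstM L tL L.nL tL.P 0 0 :: cstM L tL L.nL (Nat.sub tL.P 1) 0 0 ::
    cond (Nat.beq L.nL 0) [] [cstM L tL (Nat.succ L.nL) tL.P (Nat.mul 4 L.R0) (Nat.mul 4 L.R1)]

/-- squared radius of the balls (scale `2^40`) -/
def LMV.E (L : LMV) : Nat := Nat.sub (Nat.succ E40) (Nat.shiftRight (Nat.pow (Nat.shiftRight L.D0.a 10) 2) 40)

/-- the certificate of a leaf: tables for roots, ranges, maximal powers, rows of the two sides, multipliers -/
structure CMV where
  t0b : Nat
  t0c : Nat
  t1b : Nat
  t1c : Nat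
  D0 : Pw
  D1 : Pw
  rR : List (Nat × Nat)
  rL : List (Nat × Nat)
  PR : Nat
  PL : Nat
  wR : List (Nat × List Nat)
  wL : List (Nat × List Nat)
  l1 : Bool → Bool → Nat
  l2 : Bool → Bool → Nat

/-- `D` is at least the bound for `t = T/65536`; `big`: the cell lies in `t ≥ 44237/65536` -/
def okD (T : Nat) (big : Bool) (D : Nat) : Bool :=
  cond big (Bool.and (Nat.ble (Nat.mul 7501 1125899906842624) (Nat.mul D 10000))
      (Nat.ble (Nat.add (Nat.mul T 17179869184) 112589990685) D))
    (Bool.and (Nat.ble (Nat.mul 34001 1125899906842624) (Nat.mul D 100000))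
      (Nat.ble (Nat.mul (Nat.mul 10 T) 17179869184) (Nat.mul 9 D)))

def vtx (cx : Bool) (cR cL : SC) (nR nL : List Nd) (tail E1 E2 ec : Nat) (its : List Item) (co : List CSlot)
    (l1 l2 : Nat) (b1 b2 b3 : Bool) : Bool :=
  runI cx b1 b2 b3 l1 l2 its 0 0 0 fun t x y =>
    finV tail E1 E2 ec (costNodes cx cL b1 b2 b3 nL (costNodes cx cR b1 b2 b3 nR 0))
      (mainP cx b1 b2 b3 co) (mainN cx b1 b2 b3 co) t x y l1 l2

/-- bound for the number of rows -/
def nrows (l : List (Nat × List Nat)) : Nat :=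
  List.rec (motive := fun _ => Nat) 0 (fun x _ ih => Nat.add x.2.length ih) l

/-- all node indices admissible -/
def okK (lo : Nat) (l : List (Nat × List Nat)) : Bool :=
  List.rec (motive := fun _ => Bool) true (fun x _ ih => Bool.and (Bool.and (Nat.ble lo x.1) (Nat.ble x.1 62)) ih) l

/-- the root tables and the bounds `D` are correct -/
def okT (T0 T1 : Nat) (t0 t1 D0 D1 : Pw) : Bool :=
  Bool.and (Bool.and
      (Bool.and (Bool.and (rootF t0.a t0.b) (rootF t0.b t0.c)) (Bool.and (rootF t1.a t1.b) (rootF t1.b t1.c)))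
      (Bool.and (Bool.and (rootC D0.a D0.b) (rootC D0.b D0.c)) (Bool.and (rootC D1.a D1.b) (rootC D1.b D1.c))))
    (Bool.and (Bool.and (okD T0 (Nat.ble 44237 T0) D0.a) (okD T1 (Nat.ble 44237 T0) D1.a))
      (Bool.and (Bool.and (Nat.ble D0.a D1.a) (Bool.and (Nat.ble T0 T1) (Nat.blt D1.a 1125899906842624)))
        (Bool.and (Bool.and (Nat.ble D0.b 1125899906842624) (Nat.ble D0.c 1125899906842624))
          (Bool.and (Nat.ble D1.b 1125899906842624) (Nat.ble D1.c 1125899906842624)))))

/-- the shape of the certificate is admissible -/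
def okSh (L : LMV) (C : CMV) : Bool :=
  Bool.and (Bool.and (Nat.beq C.rR.length 7) (Nat.beq C.rL.length (Nat.succ (Nat.mul 2 L.nL))))
    (Bool.and (Bool.and (okR L C.PR C.rR 61) (okL L C.PL C.rL (Nat.sub 32 L.nL)))
      (Bool.and (Bool.and (okK 31 C.wR) (okK 31 C.wL))
        (Bool.and (Nat.ble (Nat.add (nrows C.wR) (nrows C.wL)) 256)
          (Bool.and (Nat.blt (Nat.shiftRight C.D1.a 10) 1099511627775) (Bool.and (Nat.ble C.PR 40) (Nat.ble C.PL 40))))))

/-- the four vertices -/
def chkV (L : LMV) (C : CMV) (cR cL : SC) (nR nL : List Nd) (its : List Item) (co : List CSlot) (tail ec : Nat) : Bool :=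
  Bool.and (Nat.ble its.length 900)
    (Bool.and
      (Bool.and (vtx false cR cL nR nL tail L.E L.E ec its co (C.l1 false false) (C.l2 false false) false false false)
        (vtx false cR cL nR nL tail L.E L.E ec its co (C.l1 true false) (C.l2 true false) true false false))
      (Bool.and (vtx false cR cL nR nL tail L.E L.E ec its co (C.l1 false true) (C.l2 false true) false true false)
        (vtx false cR cL nR nL tail L.E L.E ec its co (C.l1 true true) (C.l2 true true) true true false)))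

def chkN (L : LMV) (C : CMV) (cR cL : SC) (nR nL : List Nd) (tR tL : Tab) (omD omt : Nat) : Bool :=
  chkV L C cR cL nR nL (allR L tR tL C.rR 61 (allL L tR tL C.rL (Nat.sub 32 L.nL) [])) (consMV L tR tL)
    (maxN (tailR L omD omt C.rR 61) (tailL L omD omt C.rL (Nat.sub 32 L.nL)))
    (Nat.succ (Nat.shiftRight (mainE false (consMV L tR tL)) 76))

def chkL (TC TS : Nat) (L : LMV) (C : CMV) (cR cL : SC) : Bool :=
  Bool.and (okSh L C) ((fun (nR nL : List Nd) =>
    chkN L C cR cL nR nL (mkTab false TC TS C.PR cR (nsum cR.M nR)) (mkTab false TC TS C.PL cL (nsum cL.M nL))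
      (Nat.sub 1099511627775 (Nat.shiftRight C.D1.a 10)) (Nat.sub 1099511627776 (Nat.shiftLeft L.T1 24)))
    (nodes false cR C.wR) (nodes false cL C.wL))

/-- the complete check of a leaf -/
def chkMV (TC TS nL T0 T1 R0 R1 RM LM : Nat) (C : CMV) : Bool :=
  Bool.and (okT T0 T1 ⟨Nat.shiftLeft T0 34, C.t0b, C.t0c⟩ ⟨Nat.shiftLeft T1 34, C.t1b, C.t1c⟩ C.D0 C.D1)
    (chkL TC TS ⟨nL, T0, T1, R0, R1, RM, LM, ⟨Nat.shiftLeft T0 34, C.t0b, C.t0c⟩, ⟨Nat.shiftLeft T1 34, C.t1b, C.t1c⟩,
      C.D0, C.D1⟩ C (mkSC false 3) (mkSC false nL))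

end Pool.Agent.MaxTerm59b
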