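import Pool.Agent.MaxTerm59b.Cmb
import Pool.Agent.MaxTerm59b.Ar

/-! Geometric interpolation and the error of the arithmetic interpolation. -/

namespace Pool.Agent.MaxTerm59b

/-- geometric interpolation between `A0` (`s = -1`) and `A1` (`s = 1`) -/
noncomputable def gi (A0 A1 s : ℝ) : ℝ := A0 ^ ((1 - s) / 2) * A1 ^ ((1 + s) / 2)

/-- arithmetic interpolation -/
noncomputable def ai (A0 A1 s : ℝ) : ℝ := (1 - s) / 2 * A0 + (1 + s) / 2 * A1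

theorem gi_pos (A0 A1 s : ℝ) (h0 : 0 < A0) (h1 : 0 < A1) : 0 < gi A0 A1 s := by
  unfold gi
  positivity

theorem gi_mul (A0 A1 B0 B1 s : ℝ) (h0 : 0 < A0) (h1 : 0 < A1) (h2 : 0 < B0) (h3 : 0 < B1) :
    gi (A0 * B0) (A1 * B1) s = gi A0 A1 s * gi B0 B1 s := by
  unfold gi
  rw [Real.mul_rpow h0.le h2.le, Real.mul_rpow h1.le h3.le]
  ring

theorem gi_rpow (A0 A1 s q : ℝ) (h0 : 0 < A0) (h1 : 0 < A1) : gi (A0 ^ q) (A1 ^ q) s = gi A0 A1 s ^ q := by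
  unfold gi
  rw [Real.mul_rpow (Real.rpow_nonneg h0.le _) (Real.rpow_nonneg h1.le _),
    ← Real.rpow_mul h0.le, ← Real.rpow_mul h1.le, ← Real.rpow_mul h0.le, ← Real.rpow_mul h1.le,
    mul_comm q, mul_comm q]

theorem gi_self (A s : ℝ) (h0 : 0 < A) : gi A A s = A := by
  unfold gi
  rw [← Real.rpow_add h0]
  have : (1 - s) / 2 + (1 + s) / 2 = 1 := by ring
  rw [this, Real.rpow_one]

private theorem GiA_nn (s : ℝ) (hs : |s| ≤ 1) : 0 ≤ (1 - s) / 2 ∧ 0 ≤ (1 + s) / 2 := by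
  rw [abs_le] at hs
  constructor <;> linarith [hs.1, hs.2]

theorem gi_mono (A0 A1 B0 B1 s : ℝ) (hs : |s| ≤ 1) (h0 : 0 < A0) (h1 : 0 < A1) (h2 : A0 ≤ B0) (h3 : A1 ≤ B1) :
    gi A0 A1 s ≤ gi B0 B1 s := by
  obtain ⟨e1, e2⟩ := GiA_nn s hs
  unfold gi
  exact mul_le_mul (Real.rpow_le_rpow h0.le h2 e1) (Real.rpow_le_rpow h1.le h3 e2)
    (Real.rpow_nonneg h1.le _) (Real.rpow_nonneg (h0.le.trans h2) _)

theorem gi_le_max (A0 A1 s : ℝ) (hs : |s| ≤ 1) (h0 : 0 < A0) (h1 : 0 < A1) : gi A0 A1 s ≤ max A0 A1 := by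
  have h := gi_mono A0 A1 (max A0 A1) (max A0 A1) s hs h0 h1 (le_max_left _ _) (le_max_right _ _)
  rwa [gi_self _ _ (lt_max_of_lt_left h0)] at h

theorem le_gi (A0 A1 s : ℝ) (hs : |s| ≤ 1) (h0 : 0 < A0) (h1 : 0 < A1) : min A0 A1 ≤ gi A0 A1 s := by
  have hm : 0 < min A0 A1 := lt_min h0 h1
  have h := gi_mono (min A0 A1) (min A0 A1) A0 A1 s hs hm hm (min_le_left _ _) (min_le_right _ _)
  rwa [gi_self _ _ hm] at h

/-- every value between the ends is attained: `s` with `|s| ≤ 1` -/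
theorem gi_surj (A0 A1 x : ℝ) (h0 : 0 < A0) (h1 : A0 ≤ x) (h2 : x ≤ A1) : ∃ s : ℝ, |s| ≤ 1 ∧ gi A0 A1 s = x := by
  have hA1 : 0 < A1 := lt_of_lt_of_le h0 (h1.trans h2)
  have hc : ContinuousOn (fun s => gi A0 A1 s) (Set.Icc (-1 : ℝ) 1) := by
    apply Continuous.continuousOn
    unfold gi
    refine Continuous.mul ?_ ?_
    · exact Continuous.rpow continuous_const (by fun_prop) fun _ => Or.inl h0.ne'
    · exact Continuous.rpow continuous_const (by fun_prop) fun _ => Or.inl hA1.ne'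
  have hivt := intermediate_value_Icc (by norm_num : (-1 : ℝ) ≤ 1) hc
  have e0 : gi A0 A1 (-1) = A0 := by
    unfold gi
    norm_num
  have e1 : gi A0 A1 1 = A1 := by
    unfold gi
    norm_num
  have hx : x ∈ Set.Icc (gi A0 A1 (-1)) (gi A0 A1 1) := by
    rw [e0, e1]
    exact ⟨h1, h2⟩
  obtain ⟨s, hs, hs2⟩ := hivt hx
  exact ⟨s, abs_le.2 hs, hs2⟩

/-- weighted AM-GM -/
theorem gi_le_ai (A0 A1 s : ℝ) (hs : |s| ≤ 1) (h0 : 0 < A0) (h1 : 0 < A1) : gi A0 A1 s ≤ ai A0 A1 s := by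
  obtain ⟨e1, e2⟩ := GiA_nn s hs
  unfold gi ai
  exact Real.geom_mean_le_arith_mean2_weighted e1 e2 h0.le h1.le (by ring)

end Pool.Agent.MaxTerm59b
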