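import Pool.Agent.MaxTerm59b.GiA

/-! Geometric interpolation and the error of the arithmetic interpolation. -/

namespace Pool.Agent.MaxTerm59b

private theorem GiB_inv (t μ : ℝ) (ht : 1 ≤ t) (hμ : 0 ≤ μ) (hμ1 : μ ≤ 1) : 1 - μ * (t - 1) ≤ t ^ (-μ) := by
  have ht0 : 0 < t := by linarith
  have h1 : t ^ μ ≤ 1 + μ * (t - 1) := by
    have := rpow_one_add_le_one_add_mul_self (s := t - 1) (by linarith) hμ hμ1
    simpa using this
  rw [Real.rpow_neg ht0.le]
  have hp : 0 < t ^ μ := Real.rpow_pos_of_pos ht0 μ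
  have hq : 0 < 1 + μ * (t - 1) := lt_of_lt_of_le hp h1
  have h2 : (1 + μ * (t - 1))⁻¹ ≤ (t ^ μ)⁻¹ := inv_anti₀ hp h1
  refine le_trans ?_ h2
  rw [← one_div, le_div_iff₀ hq]
  nlinarith [mul_nonneg hμ (sub_nonneg.2 ht), sq_nonneg (μ * (t - 1))]

private theorem GiB_taylor (t l : ℝ) (ht : 1 ≤ t) (hl : 0 ≤ l) (hl1 : l ≤ 1) :
    1 - l + l * t - t ^ l ≤ l * (1 - l) * (t - 1) ^ 2 / 2 := by
  let f : ℝ → ℝ := fun x => x ^ l - 1 - l * (x - 1) + l * (1 - l) * (x - 1) ^ 2 / 2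
  have hd : ∀ x : ℝ, 1 ≤ x → HasDerivAt f (l * x ^ (l - 1) - l + l * (1 - l) * (x - 1)) x := by
    intro x hx
    have hx0 : x ≠ 0 := by linarith
    have h1 : HasDerivAt (fun x : ℝ => x ^ l) (l * x ^ (l - 1)) x := Real.hasDerivAt_rpow_const (Or.inl hx0)
    have h2 : HasDerivAt (fun x : ℝ => l * (x - 1)) (l * 1) x := ((hasDerivAt_id x).sub_const 1).const_mul l
    have h3 : HasDerivAt (fun x : ℝ => (x - 1) ^ 2) (((2 : ℕ) : ℝ) * (x - 1) ^ (2 - 1) * 1) x :=
      ((hasDerivAt_id x).sub_const 1).pow 2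
    have h4 : HasDerivAt (fun x : ℝ => l * (1 - l) * (x - 1) ^ 2 / 2)
        (l * (1 - l) * (((2 : ℕ) : ℝ) * (x - 1) ^ (2 - 1) * 1) / 2) x := (h3.const_mul _).div_const 2
    have h5 := ((h1.sub_const 1).sub h2).add h4
    refine h5.congr_deriv ?_
    simp
    ring
  have hmono : MonotoneOn f (Set.Ici 1) := by
    apply monotoneOn_of_deriv_nonneg (convex_Ici 1)
    · intro x hx
      exact (hd x hx).continuousAt.continuousWithinAt
    · intro x hx
      rw [interior_Ici] at hx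
      exact (hd x (le_of_lt hx)).differentiableAt.differentiableWithinAt
    · intro x hx
      rw [interior_Ici] at hx
      have hx1 : 1 ≤ x := le_of_lt hx
      rw [(hd x hx1).deriv]
      have h := GiB_inv x (1 - l) hx1 (by linarith) (by linarith)
      have he : -(1 - l) = l - 1 := by ring
      rw [he] at h
      nlinarith [mul_le_mul_of_nonneg_left h hl]
  have h := hmono (Set.mem_Ici.2 le_rfl) (Set.mem_Ici.2 ht) ht
  have h1 : f 1 = 0 := by simp [f]
  rw [h1] at h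
  have h2 : f t = t ^ l - 1 - l * (t - 1) + l * (1 - l) * (t - 1) ^ 2 / 2 := rfl
  rw [h2] at h
  linarith

private theorem GiB_core (x y l : ℝ) (hx : 0 < x) (hxy : x ≤ y) (hl : 0 ≤ l) (hl1 : l ≤ 1) :
    (1 - l) * x + l * y - x ^ (1 - l) * y ^ l ≤ (y - x) ^ 2 / (8 * x) := by
  have hy : 0 < y := lt_of_lt_of_le hx hxy
  have ht : 1 ≤ y / x := by rwa [le_div_iff₀ hx, one_mul]
  have h := GiB_taylor (y / x) l ht hl hl1
  have h1 : x ^ (1 - l) * y ^ l = x * (y / x) ^ l := by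
    rw [Real.div_rpow hy.le hx.le, Real.rpow_sub hx, Real.rpow_one]
    have : x ^ l ≠ 0 := (Real.rpow_pos_of_pos hx l).ne'
    field_simp
  rw [h1]
  have h2 : (1 - l) * x + l * y - x * (y / x) ^ l = x * (1 - l + l * (y / x) - (y / x) ^ l) := by
    field_simp
  rw [h2]
  have h3 : l * (1 - l) ≤ 1 / 4 := by nlinarith [sq_nonneg (l - 1 / 2)]
  calc x * (1 - l + l * (y / x) - (y / x) ^ l) ≤ x * (l * (1 - l) * (y / x - 1) ^ 2 / 2) :=
        mul_le_mul_of_nonneg_left h hx.le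
    _ ≤ x * (1 / 4 * (y / x - 1) ^ 2 / 2) := by
        apply mul_le_mul_of_nonneg_left _ hx.le
        have := mul_le_mul_of_nonneg_right h3 (sq_nonneg (y / x - 1))
        linarith
    _ = (y - x) ^ 2 / (8 * x) := by
        field_simp
        ring

/-- Chord of the exponential. Hint: wlog `A0 ≤ A1` (symmetry `s ↦ -s`); `A0 = m`, `A1 = m e^u`, `λ = (1+s)/2`:
`1 - λ + λ e^u - e^(λ u) ≤ λ (1 - λ) (e^u - 1)^2 / 2`; e.g. for `y = e^u ≥ 1`: `y^λ ≥ 1 + λ (y - 1) - λ (1-λ) (y-1)^2 / 2`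
(Taylor with remainder, or: the derivative of the difference in `y`). -/
theorem ai_sub_gi_le (A0 A1 s : ℝ) (hs : |s| ≤ 1) (h0 : 0 < A0) (h1 : 0 < A1) :
    ai A0 A1 s - gi A0 A1 s ≤ (A1 - A0) ^ 2 / (8 * min A0 A1) := by
  have hs' := abs_le.1 hs
  rcases le_total A0 A1 with h | h
  · rw [min_eq_left h]
    have := GiB_core A0 A1 ((1 + s) / 2) h0 h (by linarith) (by linarith)
    have he : 1 - (1 + s) / 2 = (1 - s) / 2 := by ring
    rw [he] at this
    exact this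
  · rw [min_eq_right h]
    have := GiB_core A1 A0 ((1 - s) / 2) h1 h (by linarith) (by linarith)
    have he : 1 - (1 - s) / 2 = (1 + s) / 2 := by ring
    rw [he] at this
    have h2 : (A1 - A0) ^ 2 = (A0 - A1) ^ 2 := by ring
    rw [h2]
    unfold ai gi
    have h3 : A0 ^ ((1 - s) / 2) * A1 ^ ((1 + s) / 2) = A1 ^ ((1 + s) / 2) * A0 ^ ((1 - s) / 2) := mul_comm _ _
    rw [h3]
    linarith

theorem ai_sub_gi_le' (A0 A1 s : ℝ) (hs : |s| ≤ 1) (h0 : 0 < A0) (h1 : 0 < A1) :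
    ai A0 A1 s - gi A0 A1 s ≤ |A1 - A0| := by
  have hs' := abs_le.1 hs
  have hg := le_gi A0 A1 s hs h0 h1
  have ha : ai A0 A1 s ≤ max A0 A1 := by
    unfold ai
    have e0 : (1 - s) / 2 * A0 ≤ (1 - s) / 2 * max A0 A1 :=
      mul_le_mul_of_nonneg_left (le_max_left _ _) (by linarith)
    have e1 : (1 + s) / 2 * A1 ≤ (1 + s) / 2 * max A0 A1 :=
      mul_le_mul_of_nonneg_left (le_max_right _ _) (by linarith)
    nlinarith
  have hm : max A0 A1 - min A0 A1 = |A1 - A0| := by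
    rw [max_sub_min_eq_abs]
  linarith

/-- bound of the error used by the check -/
theorem qf_ge (x y : ℝ) (a b : ℕ) (ha : |(a : ℝ) - 2 ^ 40 * x| ≤ 6) (hb : |(b : ℝ) - 2 ^ 40 * y| ≤ 6) (hx : 0 < x)
    (hy : 0 < y) (s : ℝ) (hs : |s| ≤ 1) :
    2 ^ 40 * (ai x y s - gi x y s) ≤ qf (dist a b) (minN a b) := by
  have hd : ((dist a b : ℕ) : ℝ) = |(a : ℝ) - b| := by
    have := dist_eq a b
    have h2 : (((dist a b : ℕ) : ℤ) : ℝ) = ((|(a : ℤ) - b| : ℤ) : ℝ) := by rw [this]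
    push_cast at h2
    exact_mod_cast h2
  rw [minN_eq]
  generalize hD : dist a b = D at hd
  have ha' := abs_le.1 ha
  have hb' := abs_le.1 hb
  have hXY : 2 ^ 40 * |y - x| ≤ (D : ℝ) + 12 := by
    rw [hd]
    have : (2 : ℝ) ^ 40 * |y - x| = |2 ^ 40 * y - 2 ^ 40 * x| := by
      rw [← mul_sub, abs_mul, abs_of_pos (by positivity : (0:ℝ) < 2 ^ 40)]
    rw [this]
    have e : (2 : ℝ) ^ 40 * y - 2 ^ 40 * x = -((b : ℝ) - 2 ^ 40 * y) + (((a : ℝ) - 2 ^ 40 * x) + (-((a : ℝ) - b))) := by ring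
    rw [e]
    have h1 := abs_add_le (-((b : ℝ) - 2 ^ 40 * y)) ((((a : ℝ) - 2 ^ 40 * x) + (-((a : ℝ) - b))))
    have h2 := abs_add_le ((a : ℝ) - 2 ^ 40 * x) (-((a : ℝ) - b))
    rw [abs_neg] at h1 h2
    linarith
  have hDn : (0 : ℝ) ≤ D := Nat.cast_nonneg D
  unfold qf
  simp only [Nat.add_eq, Nat.sub_eq, Nat.mul_eq, Nat.pow_eq]
  rcases Nat.lt_or_ge 16 (min a b) with hm | hm
  · have hbl : Nat.ble (min a b) 16 = false := by
      rw [Bool.eq_false_iff]
      intro hc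
      have := Nat.le_of_ble_eq_true hc
      omega
    rw [hbl]
    simp only [cond_false]
    set m := min a b with hmdef
    have hma : (m : ℝ) ≤ a := by exact_mod_cast min_le_left a b
    have hmb : (m : ℝ) ≤ b := by exact_mod_cast min_le_right a b
    have hm16 : (16 : ℝ) < m := by exact_mod_cast hm
    have hX : (m : ℝ) - 8 ≤ 2 ^ 40 * x := by linarith
    have hY : (m : ℝ) - 8 ≤ 2 ^ 40 * y := by linarith
    have hmin : (m : ℝ) - 8 ≤ 2 ^ 40 * min x y := by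
      rcases le_total x y with h | h
      · rw [min_eq_left h]; exact hX
      · rw [min_eq_right h]; exact hY
    have hm8 : (0 : ℝ) < (m : ℝ) - 8 := by linarith
    have hmp : 0 < min x y := lt_min hx hy
    have h1 := ai_sub_gi_le x y s hs hx hy
    have h2 : 2 ^ 40 * (ai x y s - gi x y s) ≤ ((D : ℝ) + 16) ^ 2 / (8 * ((m : ℝ) - 8)) := by
      calc 2 ^ 40 * (ai x y s - gi x y s) ≤ 2 ^ 40 * ((y - x) ^ 2 / (8 * min x y)) :=
            mul_le_mul_of_nonneg_left h1 (by positivity)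
        _ = (2 ^ 40 * |y - x|) ^ 2 / (8 * (2 ^ 40 * min x y)) := by
            rw [mul_pow, sq_abs]
            field_simp
        _ ≤ ((D : ℝ) + 16) ^ 2 / (8 * (2 ^ 40 * min x y)) := by
            apply div_le_div_of_nonneg_right _ (by positivity)
            apply pow_le_pow_left₀ (by positivity)
            linarith
        _ ≤ ((D : ℝ) + 16) ^ 2 / (8 * ((m : ℝ) - 8)) := by
            apply div_le_div_of_nonneg_left (by positivity) (by positivity)
            linarith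
    refine le_trans h2 ?_
    change _ ≤ (((D + 16) ^ 2 / (8 * (m - 8)) + 1 : ℕ) : ℝ)
    have hsub : (((m - 8 : ℕ)) : ℝ) = (m : ℝ) - 8 := by
      rw [Nat.cast_sub (by omega)]; norm_num
    have hlt := Nat.lt_div_mul_add (a := (D + 16) ^ 2) (b := 8 * (m - 8)) (by omega)
    have hlt' : (((D + 16) ^ 2 : ℕ) : ℝ) < (((D + 16) ^ 2 / (8 * (m - 8)) * (8 * (m - 8)) + 8 * (m - 8) : ℕ) : ℝ) := by
      exact_mod_cast hlt
    push_cast [hsub] at hlt' ⊢
    rw [div_le_iff₀ (by positivity)]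
    nlinarith
  · have hbl : Nat.ble (min a b) 16 = true := Nat.ble_eq_true_of_le hm
    rw [hbl]
    simp only [cond_true]
    have h1 := ai_sub_gi_le' x y s hs hx hy
    push_cast
    have : 2 ^ 40 * (ai x y s - gi x y s) ≤ 2 ^ 40 * |y - x| := mul_le_mul_of_nonneg_left h1 (by positivity)
    linarith

end Pool.Agent.MaxTerm59b
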