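import Pool.Agent.MaxTerm59b.Sp

/-! The constants of a side. -/

namespace Pool.Agent.MaxTerm59b
open Finset


theorem Y100_eq : Y100 = 2 ^ 100 := by
  show 1267650600228229401496703205376 = 2 ^ 100
  norm_num

theorem O99_eq : O99 = 2 ^ 99 := by
  show 633825300114114700748351602688 = 2 ^ 99
  norm_num

private theorem ScA_Y100_pow (k : ℕ) : Nat.pow 2 (Nat.mul 100 k) = Y100 ^ k := by
  rw [Y100_eq, ← pow_mul]
  rfl

private theorem ScA_div (a b : ℕ) : Nat.div a b = a / b := rfl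

private theorem ScA_two_le : 2 ≤ Y100 := by
  show 2 ≤ 1267650600228229401496703205376
  norm_num

private theorem ScA_Kc_pos (cx : Bool) : 0 < Kc cx := by
  cases cx <;> decide

theorem mkSC_n1 (cx : Bool) (n : ℕ) : (mkSC cx n).n1 = n + 1 := rfl
theorem mkSC_w (cx : Bool) (n : ℕ) : (mkSC cx n).w = 2 * n + 1 := rfl
theorem mkSC_D (cx : Bool) (n : ℕ) : (mkSC cx n).D = Kc cx * (2 * n + 1) := rfl
theorem mkSC_M (cx : Bool) (n : ℕ) : (mkSC cx n).M = Y100 ^ (Kc cx * (2 * n + 1)) := by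
  have h : (mkSC cx n).M = Nat.pow 2 (Nat.mul 100 (Nat.mul (Kc cx) (Nat.succ (Nat.mul 2 n)))) := rfl
  rw [h, ScA_Y100_pow]
  congr 1
theorem mkSC_Z (cx : Bool) (n : ℕ) : (mkSC cx n).Z = Y100 ^ (2 * n + 1) := by
  simp only [mkSC]
  rw [ScA_Y100_pow, Nat.succ_eq_add_one, Nat.mul_eq]
/-- geometric sum: `Nat.geomSum_eq` or `Mathlib`'s `geom_sum_eq`, `(Y^k - 1)/(Y - 1)` -/
theorem mkSC_o1 (cx : Bool) (n : ℕ) : (mkSC cx n).o1 = 1024 * ∑ a ∈ range (n + 1), Y100 ^ a := by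
  have h : (mkSC cx n).o1 = Nat.mul 1024 (Nat.div (Nat.sub (Nat.pow 2 (Nat.mul 100 (Nat.succ n))) 1)
    (Nat.sub Y100 1)) := rfl
  rw [h, ScA_Y100_pow, Nat.geomSum_eq ScA_two_le]
  simp only [Nat.mul_eq, ScA_div, Nat.sub_eq, Nat.succ_eq_add_one]
theorem mkSC_o2 (cx : Bool) (n : ℕ) : (mkSC cx n).o2 = 33554432 * ∑ k ∈ range (Kc cx), (Y100 ^ (2 * n + 1)) ^ k := by
  have h : (mkSC cx n).o2 = Nat.mul 33554432 (Nat.div
    (Nat.sub (Nat.pow 2 (Nat.mul 100 (Nat.mul (Kc cx) (Nat.succ (Nat.mul 2 n))))) 1)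
    (Nat.sub (Nat.pow 2 (Nat.mul 100 (Nat.succ (Nat.mul 2 n)))) 1)) := rfl
  have h2 : 2 ≤ Y100 ^ (2 * n + 1) :=
    le_trans ScA_two_le (Nat.le_self_pow (by omega) Y100)
  rw [h, ScA_Y100_pow, ScA_Y100_pow, Nat.geomSum_eq h2, ← pow_mul, mul_comm (2 * n + 1) (Kc cx)]
  simp only [Nat.mul_eq, ScA_div, Nat.sub_eq, Nat.succ_eq_add_one]
theorem mkSC_OFF (cx : Bool) (n : ℕ) :
    (mkSC cx n).OFF = 2 ^ 99 * ∑ a ∈ range (Kc cx * (2 * n + 1)), Y100 ^ a := by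
  have h : (mkSC cx n).OFF = Nat.mul 633825300114114700748351602688 (Nat.div
    (Nat.sub (Nat.pow 2 (Nat.mul 100 (Nat.mul (Kc cx) (Nat.succ (Nat.mul 2 n))))) 1)
    (Nat.sub Y100 1)) := rfl
  have h3 : (633825300114114700748351602688 : ℕ) = 2 ^ 99 := by norm_num
  rw [h, ScA_Y100_pow, Nat.geomSum_eq ScA_two_le, h3]
  simp only [Nat.mul_eq, ScA_div, Nat.sub_eq, Nat.succ_eq_add_one]
theorem mkSC_q0 (cx : Bool) (n : ℕ) : (mkSC cx n).q0 = 2 * (n + 1) * 1024 ^ 2 := by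
  have h : (mkSC cx n).q0 = Nat.mul 2097152 (Nat.succ n) := rfl
  rw [h, Nat.mul_eq, Nat.succ_eq_add_one]
  ring

end Pool.Agent.MaxTerm59b
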