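import Pool.Agent.MaxTerm59b.Cmb
import Pool.Agent.MaxTerm59b.ScA
import Pool.Agent.MaxTerm59b.Ar

/-! Items and constants at the vertices. `slD` are the digits minus `2^99`; `dg` is smaller than `Y100 = 2^100`, so
`comb_eq` applies with `h = 2^99`. -/

namespace Pool.Agent.MaxTerm59b
open Finset

private theorem ItA_dg_le (T : ℕ) (c : SC) (cl pw k : ℕ) : dg T c cl pw k ≤ Y100 := by
  unfold dg
  exact le_of_lt (Nat.mod_lt _ (by rw [Y100_eq]; positivity))

private theorem ItA_val (cx : Bool) (T : ℕ) (s : Slot) (b1 b2 b3 : Bool) :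
    (valT cx T s b1 b2 b3 : ℤ) = ∑ k ∈ range (Kc cx), sv b1 b2 b3 k * ((dg T s.t.c s.cl s.pw k : ℤ) - (2 ^ 99 : ℕ))
      + Kc cx * (2 ^ 99 : ℕ) := by
  unfold valT
  exact comb_eq cx Y100 (2 ^ 99) (fun k => dg T s.t.c s.cl s.pw k) b1 b2 b3 (by rw [Y100_eq]; norm_num)
    (fun k _ => ItA_dg_le _ _ _ _ _)

private theorem ItA_valR (cx : Bool) (T : ℕ) (s : Slot) (b1 b2 b3 : Bool) :
    (valT cx T s b1 b2 b3 : ℝ) - Kc cx * 2 ^ 99 =
      ∑ k ∈ range (Kc cx), (sv b1 b2 b3 k : ℝ) * ((dg T s.t.c s.cl s.pw k : ℝ) - 2 ^ 99) := by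
  have h := ItA_val cx T s b1 b2 b3
  have h2 : ((valT cx T s b1 b2 b3 : ℤ) : ℝ) =
      ((∑ k ∈ range (Kc cx), sv b1 b2 b3 k * ((dg T s.t.c s.cl s.pw k : ℤ) - (2 ^ 99 : ℕ))
      + Kc cx * (2 ^ 99 : ℕ) : ℤ) : ℝ) := by rw [h]
  push_cast at h2
  have h3 : (2 : ℝ) ^ 99 = 633825300114114700748351602688 := by norm_num
  rw [h3]
  linarith

/-- real part of the value at a vertex -/
theorem valT_re (cx : Bool) (s : Slot) (b1 b2 b3 : Bool) :
    (valT cx s.t.re s b1 b2 b3 : ℝ) - Kc cx * 2 ^ 99 =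
      (∑ k ∈ range (Kc cx), (sv b1 b2 b3 k : ℂ) * slD cx s k).re := by
  rw [ItA_valR, Complex.re_sum]
  refine Finset.sum_congr rfl fun k _ => ?_
  rw [Complex.mul_re]
  simp [slD]

theorem valT_im (s : Slot) (b1 b2 b3 : Bool) :
    (valT true s.t.im s b1 b2 b3 : ℝ) - Kc true * 2 ^ 99 =
      (∑ k ∈ range (Kc true), (sv b1 b2 b3 k : ℂ) * slD true s k).im := by
  rw [ItA_valR, Complex.im_sum]
  refine Finset.sum_congr rfl fun k _ => ?_
  rw [Complex.mul_im]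
  simp [slD]

private theorem ItA_absR (x : ℕ) : ((absS x O99 : ℕ) : ℝ) = |(x : ℝ) - 2 ^ 99| := by
  have h := absS_eq x O99
  have h2 : ((absS x O99 : ℤ) : ℝ) = ((|(x : ℤ) - (O99 : ℕ)| : ℤ) : ℝ) := by rw [h]
  rw [O99_eq] at h2
  rw [O99_eq]
  push_cast at h2
  exact_mod_cast h2

theorem absD_ge (cx : Bool) (s : Slot) (k : ℕ) : ‖slD cx s k‖ ≤ absD cx s k := by
  cases cx with
  | false =>
    have h1 : slD false s k = (((dg s.t.re s.t.c s.cl s.pw k : ℝ) - 2 ^ 99 : ℝ) : ℂ) := by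
      apply Complex.ext
      · simp only [slD, Complex.ofReal_re]
      · simp only [slD, Complex.ofReal_im]
        rfl
    have h2 : absD false s k = absS (dg s.t.re s.t.c s.cl s.pw k) O99 := rfl
    rw [h1, h2, ItA_absR, Complex.norm_real, Real.norm_eq_abs]
  | true =>
    have h2 : absD true s k = hyp (absS (dg s.t.re s.t.c s.cl s.pw k) O99) (absS (dg s.t.im s.t.c s.cl s.pw k) O99) :=
      rfl
    rw [h2]
    have h3 := norm_hyp ((dg s.t.re s.t.c s.cl s.pw k : ℤ) - (O99 : ℕ)) ((dg s.t.im s.t.c s.cl s.pw k : ℤ) - (O99 : ℕ))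
      (absS (dg s.t.re s.t.c s.cl s.pw k) O99) (absS (dg s.t.im s.t.c s.cl s.pw k) O99)
      (le_of_eq (absS_eq _ _).symm) (le_of_eq (absS_eq _ _).symm)
    refine le_trans (le_of_eq ?_) h3
    congr 1
    apply Complex.ext
    · simp only [slD, O99_eq]
      push_cast
      norm_num
    · simp only [slD, O99_eq]
      push_cast
      norm_num

private theorem ItA_err (cx : Bool) (s : Slot) (v : ℕ → ℝ) (A : ℕ → ℕ) (h : ∀ k, v k ≤ A k) :
    ∑ k ∈ range (Kc cx), (slE s k : ℝ) * v k ≤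
      ((Nat.add (Nat.add (Nat.mul s.e0 (A 0)) (Nat.mul s.e1 (A 1)))
        (cond cx (Nat.add (Nat.mul s.e2 (A 2)) (Nat.mul s.e3 (A 3))) (Nat.mul s.e2 (A 2))) : ℕ) : ℝ) := by
  have hh := fun k => mul_le_mul_of_nonneg_left (h k) (Nat.cast_nonneg (α := ℝ) (slE s k))
  have a0 := hh 0
  have a1 := hh 1
  have a2 := hh 2
  have a3 := hh 3
  have e0 : slE s 0 = s.e0 := by simp [slE]
  have e1 : slE s 1 = s.e1 := by simp [slE]
  have e2 : slE s 2 = s.e2 := by simp [slE]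
  have e3 : slE s 3 = s.e3 := by simp [slE]
  rw [e0] at a0
  rw [e1] at a1
  rw [e2] at a2
  rw [e3] at a3
  cases cx with
  | false =>
    have h2 : Kc false = 3 := rfl
    rw [h2]
    simp only [Finset.sum_range_succ, Finset.sum_range_zero, Nat.add_eq, Nat.mul_eq, cond_false, e0, e1, e2]
    push_cast
    linarith
  | true =>
    have h2 : Kc true = 4 := rfl
    rw [h2]
    simp only [Finset.sum_range_succ, Finset.sum_range_zero, Nat.add_eq, Nat.mul_eq, cond_true, e0, e1, e2, e3]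
    push_cast
    linarith

theorem errS_ge (cx : Bool) (s : Slot) :
    ∑ k ∈ range (Kc cx), (slE s k : ℝ) * ‖slD cx s k‖ ≤ errS cx s := by
  unfold errS
  exact ItA_err cx s (fun k => ‖slD cx s k‖) (absD cx s) (absD_ge cx s)

end Pool.Agent.MaxTerm59b
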