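import Pool.Agent.MaxTerm59b.ItA

/-! Items and constants at the vertices. `slD` are the digits minus `2^99`; `dg` is smaller than `Y100 = 2^100`, so
`comb_eq` applies with `h = 2^99`. -/

namespace Pool.Agent.MaxTerm59b
open Finset

private theorem ItB_swap (s1 s2 s3 : ℝ) (z : Bool → Bool → Bool → ℂ) (K : ℕ)
    (sg : Bool → Bool → Bool → ℕ → ℂ) (D : ℕ → ℂ) :
    vsC s1 s2 s3 (fun b1 b2 b3 => z b1 b2 b3 * ∑ k ∈ range K, sg b1 b2 b3 k * D k) =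
      ∑ k ∈ range K, D k * vsC s1 s2 s3 (fun b1 b2 b3 => z b1 b2 b3 * sg b1 b2 b3 k) := by
  unfold vsC
  simp only [Fintype.sum_bool, Finset.mul_sum, ← Finset.sum_add_distrib]
  refine Finset.sum_congr rfl (fun k _ => ?_)
  ring

private theorem ItB_err (cx : Bool) (s1 s2 s3 : ℝ) (s : Slot) (ζ : ℂ)
    (z : Bool → Bool → Bool → ℂ)
    (h : ∀ k < Kc cx, ‖ζ * (sig s1 s2 s3 k : ℂ) * 2 ^ 40 - vsC s1 s2 s3 (fun b1 b2 b3 =>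
      z b1 b2 b3 * (sv b1 b2 b3 k : ℂ))‖ ≤ (slE s k : ℝ)) :
    ‖2 ^ 40 * (slT cx s1 s2 s3 s * ζ) - vsC s1 s2 s3 (fun b1 b2 b3 => z b1 b2 b3 *
      ∑ k ∈ range (Kc cx), (sv b1 b2 b3 k : ℂ) * slD cx s k)‖ ≤ errS cx s := by
  rw [ItB_swap s1 s2 s3 z (Kc cx) (fun b1 b2 b3 k => (sv b1 b2 b3 k : ℂ)) (slD cx s)]
  have e1 : 2 ^ 40 * (slT cx s1 s2 s3 s * ζ) =
      ∑ k ∈ range (Kc cx), slD cx s k * (ζ * (sig s1 s2 s3 k : ℂ) * 2 ^ 40) := by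
    unfold slT
    rw [Finset.sum_mul, Finset.mul_sum]
    refine Finset.sum_congr rfl (fun k _ => ?_)
    ring
  rw [e1, ← Finset.sum_sub_distrib]
  refine le_trans (norm_sum_le _ _) (le_trans (Finset.sum_le_sum (fun k hk => ?_)) (errS_ge cx s))
  rw [← mul_sub, norm_mul, mul_comm]
  exact mul_le_mul_of_nonneg_right (h k (Finset.mem_range.mp hk)) (norm_nonneg _)

/-- value of a slot: interpolation error -/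
theorem slot_err (cx : Bool) (s1 s2 s3 : ℝ) (s : Slot) (ψ : ℝ) (h : SlotOK cx s1 s2 s3 s ψ) :
    ‖2 ^ 40 * (slT cx s1 s2 s3 s * (ψ : ℂ)) - vsC s1 s2 s3 (fun b1 b2 b3 => ((s.ph b1 b2 b3 : ℝ) : ℂ) *
      ∑ k ∈ range (Kc cx), (sv b1 b2 b3 k : ℂ) * slD cx s k)‖ ≤ errS cx s := by
  refine ItB_err cx s1 s2 s3 s (ψ : ℂ) (fun b1 b2 b3 => ((s.ph b1 b2 b3 : ℝ) : ℂ)) ?_
  intro k hk
  have h1 := h k hk
  have e : (ψ : ℂ) * (sig s1 s2 s3 k : ℂ) * 2 ^ 40 - vsC s1 s2 s3 (fun b1 b2 b3 =>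
      ((s.ph b1 b2 b3 : ℝ) : ℂ) * (sv b1 b2 b3 k : ℂ)) =
      ((ψ * sig s1 s2 s3 k * 2 ^ 40 - vs s1 s2 s3 (fun b1 b2 b3 =>
        (s.ph b1 b2 b3 : ℝ) * (sv b1 b2 b3 k : ℝ)) : ℝ) : ℂ) := by
    unfold vs vsC
    push_cast
    rfl
  rw [e, Complex.norm_real, Real.norm_eq_abs]
  exact h1

theorem cslot_err (cx : Bool) (s1 s2 s3 : ℝ) (s : CSlot) (ζ : ℂ) (h : CSlotOK cx s1 s2 s3 s ζ) :
    ‖2 ^ 40 * (slT cx s1 s2 s3 s.s * ζ) - vsC s1 s2 s3 (fun b1 b2 b3 =>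
      (⟨(s.re b1 b2 b3 : ℝ) - 2199023255552, (s.im b1 b2 b3 : ℝ) - 2199023255552⟩ : ℂ) *
        ∑ k ∈ range (Kc cx), (sv b1 b2 b3 k : ℂ) * slD cx s.s k)‖ ≤ errS cx s.s :=
  ItB_err cx s1 s2 s3 s.s ζ (fun b1 b2 b3 =>
    (⟨(s.re b1 b2 b3 : ℝ) - 2199023255552, (s.im b1 b2 b3 : ℝ) - 2199023255552⟩ : ℂ)) h.2

end Pool.Agent.MaxTerm59b
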