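import Pool.Agent.MaxTerm59b.NsS

/-! The four residues of a power. `a = 2^41 totR`, `b = 2^41 totI`. -/

namespace Pool.Agent.MaxTerm59b
open Finset

/-- the table is admissible: all fields used are at most `2^41 ± 2^40` -/
def TabOK (TC TS : ℕ) : Prop := tcF TS 0 = 0 ∧ ∀ j ≤ 1240, |tcF TC j| ≤ 2 ^ 40 ∧ |tcF TS j| ≤ 2 ^ 40

private theorem moms_ofeq {M a b : ℤ} (h : a = b) : a ≡ b [ZMOD M] := by rw [h]

private theorem moms_neg {α : Type} (f : α → ℤ) (l : List α) : (l.map fun x => -f x).sum = -(l.map f).sum := by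
  induction l with
  | nil => simp
  | cons a t ih => simp only [List.map_cons, List.sum_cons, ih]; ring

private theorem moms_okK (l : List (ℕ × List ℕ)) (hk : okK 0 l = true) : ∀ nd ∈ l, nd.1 ≤ 62 := by
  induction l with
  | nil => simp
  | cons a t ih =>
    have h : Bool.and (Bool.and (Nat.ble 0 a.1) (Nat.ble a.1 62)) (okK 0 t) = true := hk
    have h : (true && Nat.ble a.1 62 && okK 0 t) = true := by
      have e : Nat.ble 0 a.1 = true := Nat.ble_eq_true_of_le (Nat.zero_le _)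
      rw [e] at h
      exact h
    simp only [Bool.and_eq_true] at h
    intro nd hnd
    rcases List.mem_cons.1 hnd with rfl | h'
    · exact Nat.le_of_ble_eq_true h.1.2
    · exact ih h.2 nd h'

private theorem moms_sle {R : (ℕ × List ℕ) → Ns → Prop} (l : List (ℕ × List ℕ)) (s : List Ns)
    (h : List.Forall₂ (fun nd x => x.k = nd.1 ∧ R nd x) l s) (hl : ∀ nd ∈ l, nd.1 ≤ 62) : ∀ x ∈ s, x.k ≤ 62 := by
  induction h with
  | nil => simp
  | cons h1 h2 ih =>
    intro x hx
    rcases List.mem_cons.1 hx with rfl | h'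
    · rw [h1.1]; exact hl _ (List.mem_cons_self ..)
    · exact ih (fun nd hnd => hl nd (List.mem_cons_of_mem _ hnd)) x h'

private theorem moms_natAbs (k p : ℕ) : (((k : ℤ) - 31) * (p : ℤ)).natAbs = absS k 31 * p := by
  rw [Int.natAbs_mul, Int.natAbs_natCast]
  congr 1
  show _ = (k - 31) + (31 - k)
  omega

private theorem moms_tabC (TC TS k p : ℕ) :
    (tabG TC (absS k 31 * p) : ℤ) = (zI TC TS k (p : ℤ)).re + 2199023255552 := by
  simp only [zI, tcF, moms_natAbs]
  ring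

private theorem moms_im (TC TS k : ℕ) (p : ℤ) : (zI 0 TS k p).im = (zI TC TS k p).im := rfl

private theorem moms_tabS (TC TS k p : ℕ) (hT : TabOK TC TS) (hk : k ≤ 62) (hp : p ≤ 40) :
    (sg 4398046511104 (tabG TS (absS k 31 * p)) (Nat.ble 31 k) : ℤ) =
      (zI TC TS k (p : ℤ)).im + 2199023255552 := by
  rw [← moms_im TC TS k p]
  apply sinTab
  · have hj : absS k 31 * p ≤ 1240 := by
      have h1 : absS k 31 ≤ 31 := by
        show (k - 31) + (31 - k) ≤ 31
        omega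
      calc absS k 31 * p ≤ 31 * 40 := Nat.mul_le_mul h1 hp
        _ = 1240 := by norm_num
    have h2 := (hT.2 _ hj).2
    unfold tcF at h2
    have h3 := (abs_le.1 h2).2
    norm_num at h3
    have h4 : (tabG TS (absS k 31 * p) : ℤ) ≤ 4398046511104 := by linarith
    exact_mod_cast h4
  · exact hT.1

private theorem moms_zneg (TC TS k p : ℕ) (hT : TabOK TC TS) :
    zI TC TS k (-(p : ℤ)) = star (zI TC TS k (p : ℤ)) := by
  have h0 := hT.1
  have e : (((k : ℤ) - 31) * (-(p : ℤ))) = -(((k : ℤ) - 31) * (p : ℤ)) := by ring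
  unfold zI
  rw [e, Int.natAbs_neg]
  apply Zsqrtd.ext
  · simp
  · simp only [Zsqrtd.im_star]
    rcases lt_trichotomy (((k : ℤ) - 31) * (p : ℤ)) 0 with h | h | h
    · rw [if_pos (by linarith), if_neg (by linarith)]; ring
    · rw [h]; simp [h0]
    · rw [if_neg (by linarith), if_pos (by linarith)]

private theorem moms_sumC (TC TS p : ℕ) (w : Ns → ℕ) (s : List Ns) :
    ((s.map fun x => w x * tabG TC (absS x.k 31 * p)).sum : ℤ) =
      (s.map fun x => (w x : ℤ) * (zI TC TS x.k (p : ℤ)).re).sum + 2199023255552 * ((s.map w).sum : ℕ) := by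
  induction s with
  | nil => simp
  | cons a t ih =>
    simp only [List.map_cons, List.sum_cons, Nat.cast_add, Nat.cast_mul]
    rw [ih, moms_tabC TC TS a.k p]
    ring

private theorem moms_sumS (TC TS p : ℕ) (hT : TabOK TC TS) (hp : p ≤ 40) (w : Ns → ℕ) (s : List Ns)
    (hs : ∀ x ∈ s, x.k ≤ 62) :
    ((s.map fun x => w x * sg 4398046511104 (tabG TS (absS x.k 31 * p)) (Nat.ble 31 x.k)).sum : ℤ) =
      (s.map fun x => (w x : ℤ) * (zI TC TS x.k (p : ℤ)).im).sum + 2199023255552 * ((s.map w).sum : ℕ) := by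
  induction s with
  | nil => simp
  | cons a t ih =>
    simp only [List.map_cons, List.sum_cons, Nat.cast_add, Nat.cast_mul]
    rw [ih (fun x hx => hs x (List.mem_cons_of_mem _ hx)),
      moms_tabS TC TS a.k p hT (hs a (List.mem_cons_self ..)) hp]
    ring

private theorem moms_main (cx : Bool) (n : ℕ) (Mo : ℤ) (c e : ℕ → ℤ) (l : List (ℕ × List ℕ)) (s : List Ns)
    (h : List.Forall₂ (fun (nd : ℕ × List ℕ) (s : Ns) => s.k = nd.1 ∧
      (s.pr : ℤ) ≡ (ndP cx n nd.2).re [ZMOD Mo] ∧ (s.pi : ℤ) ≡ (ndP cx n nd.2).im [ZMOD Mo]) l s) :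
    (s.map fun x => (x.pr : ℤ) * c x.k).sum + (s.map fun x => (x.pi : ℤ) * e x.k).sum ≡
      (l.map fun nd => (ndP cx n nd.2).re * c nd.1 + (ndP cx n nd.2).im * e nd.1).sum [ZMOD Mo] := by
  induction h with
  | nil => simp
  | cons h1 h2 ih =>
    simp only [List.map_cons, List.sum_cons]
    rw [h1.1]
    rename_i a b l₁ l₂
    have := (h1.2.1.mul_right (c a.1)).add ((h1.2.2.mul_right (e a.1)).add ih)
    refine (moms_ofeq ?_).trans (this.trans (moms_ofeq ?_))
    · ring
    · ring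

private theorem moms_main' (cx : Bool) (n : ℕ) (Mo : ℤ) (c e : ℕ → ℤ) (l : List (ℕ × List ℕ)) (s : List Ns)
    (h : List.Forall₂ (fun (nd : ℕ × List ℕ) (s : Ns) => s.k = nd.1 ∧
      (s.pr : ℤ) ≡ (ndP cx n nd.2).re [ZMOD Mo] ∧ (s.pi : ℤ) ≡ (ndP cx n nd.2).im [ZMOD Mo]) l s) :
    (s.map fun x => (x.pr : ℤ) * c x.k).sum - (s.map fun x => (x.pi : ℤ) * e x.k).sum ≡
      (l.map fun nd => (ndP cx n nd.2).re * c nd.1 - (ndP cx n nd.2).im * e nd.1).sum [ZMOD Mo] := by
  induction h with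
  | nil => simp
  | cons h1 h2 ih =>
    simp only [List.map_cons, List.sum_cons]
    rw [h1.1]
    rename_i a b l₁ l₂
    have := ((h1.2.1.mul_right (c a.1)).sub (h1.2.2.mul_right (e a.1))).add ih
    refine (moms_ofeq ?_).trans (this.trans (moms_ofeq ?_))
    · ring
    · ring

private theorem moms_sum_re (l : List (ℕ × List ℕ)) (f : (ℕ × List ℕ) → GI) :
    ((l.map f).sum).re = (l.map fun nd => (f nd).re).sum := by
  induction l with
  | nil => rfl
  | cons a t ih => simp only [List.map_cons, List.sum_cons, Zsqrtd.re_add, ih]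

private theorem moms_sum_im (l : List (ℕ × List ℕ)) (f : (ℕ × List ℕ) → GI) :
    ((l.map f).sum).im = (l.map fun nd => (f nd).im).sum := by
  induction l with
  | nil => rfl
  | cons a t ih => simp only [List.map_cons, List.sum_cons, Zsqrtd.im_add, ih]

/-- Hint: `nsum_spec` (induction on the `Forall₂`), `totR_eq`, `momS_eq`; `tabG TC j = tcF TC j + 2^41`, `sinTab`;
real part of `P z` is `Pr c - Pi s`. -/
theorem res_re (cx : Bool) (TC TS n p : ℕ) (l : List (ℕ × List ℕ)) (hT : TabOK TC TS) (hk : okK 0 l = true)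
    (hp : p ≤ 40) :
    (((nsum (mkSC cx n).M (nodes cx (mkSC cx n) l)).map fun x => x.pr * tabG TC (absS x.k 31 * p)).sum +
      2199023255552 * totI (nsum (mkSC cx n).M (nodes cx (mkSC cx n) l)) : ℤ) -
      (((nsum (mkSC cx n).M (nodes cx (mkSC cx n) l)).map fun x => x.pi *
        sg 4398046511104 (tabG TS (absS x.k 31 * p)) (Nat.ble 31 x.k)).sum +
      2199023255552 * totR (nsum (mkSC cx n).M (nodes cx (mkSC cx n) l)) : ℤ) ≡
      (pwP cx TC TS n l p).re [ZMOD ((Y100 : ℤ) ^ (Kc cx * (2 * n + 1)))] := by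
  have hF := nsum_spec cx n l
  have hs := moms_sle l _ hF (moms_okK l hk)
  rw [totR_eq, totI_eq]
  have e1 := moms_sumC TC TS p (fun x => x.pr) (nsum (mkSC cx n).M (nodes cx (mkSC cx n) l))
  have e2 := moms_sumS TC TS p hT hp (fun x => x.pi) (nsum (mkSC cx n).M (nodes cx (mkSC cx n) l)) hs
  have e3 := moms_main' cx n _ (fun k => (zI TC TS k (p : ℤ)).re) (fun k => (zI TC TS k (p : ℤ)).im) l _ hF
  rw [e1, e2]
  refine (moms_ofeq ?_).trans (e3.trans (moms_ofeq ?_))
  · ring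
  · unfold pwP
    rw [moms_sum_re]
    congr 1
    apply List.map_congr_left
    intro nd _
    rw [Zsqrtd.re_mul]
    ring

theorem res_re_neg (cx : Bool) (TC TS n p : ℕ) (l : List (ℕ × List ℕ)) (hT : TabOK TC TS) (hk : okK 0 l = true)
    (hp : p ≤ 40) :
    (((nsum (mkSC cx n).M (nodes cx (mkSC cx n) l)).map fun x => x.pr * tabG TC (absS x.k 31 * p)).sum +
      ((nsum (mkSC cx n).M (nodes cx (mkSC cx n) l)).map fun x => x.pi *
        sg 4398046511104 (tabG TS (absS x.k 31 * p)) (Nat.ble 31 x.k)).sum : ℤ) -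
      (2199023255552 * totR (nsum (mkSC cx n).M (nodes cx (mkSC cx n) l)) +
      2199023255552 * totI (nsum (mkSC cx n).M (nodes cx (mkSC cx n) l)) : ℤ) ≡
      (pwP cx TC TS n l (-(p : ℤ))).re [ZMOD ((Y100 : ℤ) ^ (Kc cx * (2 * n + 1)))] := by
  have hF := nsum_spec cx n l
  have hs := moms_sle l _ hF (moms_okK l hk)
  rw [totR_eq, totI_eq]
  have e1 := moms_sumC TC TS p (fun x => x.pr) (nsum (mkSC cx n).M (nodes cx (mkSC cx n) l))
  have e2 := moms_sumS TC TS p hT hp (fun x => x.pi) (nsum (mkSC cx n).M (nodes cx (mkSC cx n) l)) hs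
  have e3 := moms_main cx n _ (fun k => (zI TC TS k (p : ℤ)).re) (fun k => (zI TC TS k (p : ℤ)).im) l _ hF
  rw [e1, e2]
  refine (moms_ofeq ?_).trans (e3.trans (moms_ofeq ?_))
  · ring
  · unfold pwP
    rw [moms_sum_re]
    congr 1
    apply List.map_congr_left
    intro nd _
    rw [moms_zneg TC TS nd.1 p hT, Zsqrtd.re_mul, Zsqrtd.re_star, Zsqrtd.im_star]
    ring

theorem res_im (cx : Bool) (TC TS n p : ℕ) (l : List (ℕ × List ℕ)) (hT : TabOK TC TS) (hk : okK 0 l = true)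
    (hp : p ≤ 40) :
    (((nsum (mkSC cx n).M (nodes cx (mkSC cx n) l)).map fun x => x.pr *
        sg 4398046511104 (tabG TS (absS x.k 31 * p)) (Nat.ble 31 x.k)).sum +
      ((nsum (mkSC cx n).M (nodes cx (mkSC cx n) l)).map fun x => x.pi * tabG TC (absS x.k 31 * p)).sum : ℤ) -
      (2199023255552 * totR (nsum (mkSC cx n).M (nodes cx (mkSC cx n) l)) +
      2199023255552 * totI (nsum (mkSC cx n).M (nodes cx (mkSC cx n) l)) : ℤ) ≡
      (pwP cx TC TS n l p).im [ZMOD ((Y100 : ℤ) ^ (Kc cx * (2 * n + 1)))] := by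
  have hF := nsum_spec cx n l
  have hs := moms_sle l _ hF (moms_okK l hk)
  rw [totR_eq, totI_eq]
  have e1 := moms_sumC TC TS p (fun x => x.pi) (nsum (mkSC cx n).M (nodes cx (mkSC cx n) l))
  have e2 := moms_sumS TC TS p hT hp (fun x => x.pr) (nsum (mkSC cx n).M (nodes cx (mkSC cx n) l)) hs
  have e3 := moms_main cx n _ (fun k => (zI TC TS k (p : ℤ)).im) (fun k => (zI TC TS k (p : ℤ)).re) l _ hF
  rw [e1, e2]
  refine (moms_ofeq ?_).trans (e3.trans (moms_ofeq ?_))
  · ring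
  · unfold pwP
    rw [moms_sum_im]
    congr 1

theorem res_im_neg (cx : Bool) (TC TS n p : ℕ) (l : List (ℕ × List ℕ)) (hT : TabOK TC TS) (hk : okK 0 l = true)
    (hp : p ≤ 40) :
    (((nsum (mkSC cx n).M (nodes cx (mkSC cx n) l)).map fun x => x.pi * tabG TC (absS x.k 31 * p)).sum +
      2199023255552 * totR (nsum (mkSC cx n).M (nodes cx (mkSC cx n) l)) : ℤ) -
      (((nsum (mkSC cx n).M (nodes cx (mkSC cx n) l)).map fun x => x.pr *
        sg 4398046511104 (tabG TS (absS x.k 31 * p)) (Nat.ble 31 x.k)).sum +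
      2199023255552 * totI (nsum (mkSC cx n).M (nodes cx (mkSC cx n) l)) : ℤ) ≡
      (pwP cx TC TS n l (-(p : ℤ))).im [ZMOD ((Y100 : ℤ) ^ (Kc cx * (2 * n + 1)))] := by
  have hF := nsum_spec cx n l
  have hs := moms_sle l _ hF (moms_okK l hk)
  rw [totR_eq, totI_eq]
  have e1 := moms_sumC TC TS p (fun x => x.pi) (nsum (mkSC cx n).M (nodes cx (mkSC cx n) l))
  have e2 := moms_sumS TC TS p hT hp (fun x => x.pr) (nsum (mkSC cx n).M (nodes cx (mkSC cx n) l)) hs
  have e3 := moms_main' cx n _ (fun k => -(zI TC TS k (p : ℤ)).im) (fun k => -(zI TC TS k (p : ℤ)).re) l _ hF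
  rw [e1, e2]
  refine (moms_ofeq ?_).trans (e3.trans (moms_ofeq ?_))
  · simp only [mul_neg]
    rw [moms_neg (fun x : Ns => (x.pr : ℤ) * (zI TC TS x.k (p : ℤ)).im),
      moms_neg (fun x : Ns => (x.pi : ℤ) * (zI TC TS x.k (p : ℤ)).re)]
    ring
  · unfold pwP
    rw [moms_sum_im]
    congr 1
    apply List.map_congr_left
    intro nd _
    rw [moms_zneg TC TS nd.1 p hT, Zsqrtd.im_mul, Zsqrtd.re_star, Zsqrtd.im_star]
    ring

end Pool.Agent.MaxTerm59b
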