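import Pool.Agent.MaxTerm59b.MvA

/-! Mismatched vertex with a generic ratio: positions of the labels. `ρ = b/a` lies between `R0/64` and `R1/64` (resp.
above `R0/64 ≥ 4` if `R1 = 0`; then the classes with `61 ≤ j ≤ 67` have the sign of `i - 32` for `i ≠ 32`); the position
`nI / a = (i - 32) ρ + (j - 64)` is affine in `ρ`. -/

namespace Pool.Agent.MaxTerm59b
open Finset Pool.Agent.MaxTerm58

variable {L : LMV} {a b : ℕ} {x : ℂ}

private theorem mc_posP (R i j : ℕ) : (posP R i j : ℤ) = max (iI i * R + 64 * jI j) 0 := by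
  have h : iI i * R + 64 * jI j = ((i * R + 64 * j : ℕ) : ℤ) - ((32 * R + 4096 : ℕ) : ℤ) := by
    unfold iI jI
    push_cast
    ring
  rw [h]
  have h2 : posP R i j = (i * R + 64 * j) - (32 * R + 4096) := rfl
  rw [h2]
  generalize i * R + 64 * j = u
  generalize 32 * R + 4096 = w
  omega

private theorem mc_posN (R i j : ℕ) : (posN R i j : ℤ) = max (-(iI i * R + 64 * jI j)) 0 := by
  have h : iI i * R + 64 * jI j = ((i * R + 64 * j : ℕ) : ℤ) - ((32 * R + 4096 : ℕ) : ℤ) := by
    unfold iI jI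
    push_cast
    ring
  rw [h]
  have h2 : posN R i j = (32 * R + 4096) - (i * R + 64 * j) := rfl
  rw [h2]
  generalize i * R + 64 * j = u
  generalize 32 * R + 4096 = w
  omega

attribute [local irreducible] posP posN

private theorem mc_aff (α β X Y0 Y1 : ℤ) (h0 : Y0 ≤ X) (h1 : X ≤ Y1) (e0 : 0 ≤ α * Y0 + β)
    (e1 : 0 ≤ α * Y1 + β) : 0 ≤ α * X + β := by
  rcases le_total 0 α with h | h <;> nlinarith

private theorem mc_lrt (L : LMV) (i j : ℕ) :
    lrt L i j = true ↔ posN L.R0 i j = 0 ∧ n1L L i j = 0 := by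
  unfold lrt
  constructor
  · intro h
    have h1 : (Nat.beq (posN L.R0 i j) 0 && Nat.beq (n1L L i j) 0) = true := h
    rw [Bool.and_eq_true] at h1
    exact ⟨Nat.eq_of_beq_eq_true h1.1, Nat.eq_of_beq_eq_true h1.2⟩
  · rintro ⟨h1, h2⟩
    rw [h1, h2]
    rfl

private theorem mc_left {i j : ℕ} (hl : LabC L i j) (h : lrt L i j = false) :
    posP L.R0 i j = 0 ∧ p1L L i j = 0 := by
  have h1 := hl.ok
  rw [lab_eq] at h1
  have h2 : (lrt L i j || (Nat.beq (posP L.R0 i j) 0 && Nat.beq (p1L L i j) 0)) = true := h1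
  rw [h, Bool.false_or, Bool.and_eq_true] at h2
  exact ⟨Nat.eq_of_beq_eq_true h2.1, Nat.eq_of_beq_eq_true h2.2⟩

/-- signs at the two ends -/
private theorem mc_ends (H : InCell L.nL L.T0 L.T1 L.R0 L.R1 a b x) {i j : ℕ} (hl : LabC L i j) :
    (lrt L i j = true → 0 ≤ iI i * L.R0 + 64 * jI j ∧
      ((L.R1 = 0 ∧ 0 ≤ iI i) ∨ (L.R1 ≠ 0 ∧ 0 ≤ iI i * L.R1 + 64 * jI j))) ∧
    (lrt L i j = false → iI i * L.R0 + 64 * jI j ≤ 0 ∧
      ((L.R1 = 0 ∧ iI i ≤ 0) ∨ (L.R1 ≠ 0 ∧ iI i * L.R1 + 64 * jI j ≤ 0))) := by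
  have hcls : L.R1 = 0 → iI i = 0 ∨ (-3 ≤ jI j ∧ jI j ≤ 3) := by
    intro h0
    have hn : L.nL = 0 := by
      rcases H.nLc with h | h | h
      · exact h
      · omega
      · omega
    rcases hl.cls with h | h
    · right
      unfold jI
      omega
    · left
      unfold iI
      omega
  constructor
  · intro h
    obtain ⟨h1, h2⟩ := (mc_lrt L i j).1 h
    have e1 := mc_posN L.R0 i j
    rw [h1] at e1
    have h3 : 0 ≤ iI i * L.R0 + 64 * jI j := by
      have := le_max_left (-(iI i * L.R0 + 64 * jI j)) 0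
      rw [← e1] at this
      simp only [Nat.cast_zero] at this
      linarith
    refine ⟨h3, ?_⟩
    by_cases h0 : L.R1 = 0
    · left
      refine ⟨h0, ?_⟩
      rcases hcls h0 with h4 | ⟨h4, h5⟩
      · exact h4.ge
      · by_contra h6
        have h7 : iI i ≤ -1 := by omega
        have h8 : (256 : ℤ) ≤ L.R0 := by exact_mod_cast H.Rinf h0
        nlinarith
    · right
      refine ⟨h0, ?_⟩
      unfold n1L at h2
      rw [if_neg h0] at h2
      have e2 := mc_posN L.R1 i j
      rw [h2] at e2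
      have := le_max_left (-(iI i * L.R1 + 64 * jI j)) 0
      rw [← e2] at this
      simp only [Nat.cast_zero] at this
      linarith
  · intro h
    obtain ⟨h1, h2⟩ := mc_left hl h
    have e1 := mc_posP L.R0 i j
    rw [h1] at e1
    have h3 : iI i * L.R0 + 64 * jI j ≤ 0 := by
      have := le_max_left (iI i * L.R0 + 64 * jI j) 0
      rw [← e1] at this
      simpa using this
    refine ⟨h3, ?_⟩
    by_cases h0 : L.R1 = 0
    · left
      refine ⟨h0, ?_⟩
      rcases hcls h0 with h4 | ⟨h4, h5⟩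
      · exact h4.le
      · by_contra h6
        have h7 : 1 ≤ iI i := by omega
        have h8 : (256 : ℤ) ≤ L.R0 := by exact_mod_cast H.Rinf h0
        nlinarith
    · right
      refine ⟨h0, ?_⟩
      unfold p1L at h2
      rw [if_neg h0] at h2
      have e2 := mc_posP L.R1 i j
      rw [h2] at e2
      have := le_max_left (iI i * L.R1 + 64 * jI j) 0
      rw [← e2] at this
      simpa using this

private theorem mc_r0 (H : InCell L.nL L.T0 L.T1 L.R0 L.R1 a b x) :
    (L.R0 : ℤ) * a ≤ 64 * b := by exact_mod_cast H.r0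

private theorem mc_r1 (H : InCell L.nL L.T0 L.T1 L.R0 L.R1 a b x) (h : L.R1 ≠ 0) :
    64 * (b : ℤ) ≤ L.R1 * a := by
  rcases H.r1 with h1 | h1
  · exact absurd h1 h
  · exact_mod_cast h1

/-- lower bound of the position by the two ends -/
private theorem mc_lo (H : InCell L.nL L.T0 L.T1 L.R0 L.R1 a b x) {i j : ℕ} (hl : LabC L i j) :
    (lrt L i j = true → ((min (posP L.R0 i j) (p1L L i j) : ℕ) : ℤ) * a ≤ 64 * nI a b i j) ∧
    (lrt L i j = false → ((min (posN L.R0 i j) (n1L L i j) : ℕ) : ℤ) * a ≤ -(64 * nI a b i j)) := by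
  have ha0 : (0 : ℤ) ≤ a := Int.natCast_nonneg a
  have hr0 := mc_r0 H
  constructor
  · intro h
    obtain ⟨h1, h2⟩ := (mc_ends H hl).1 h
    have e0 : (posP L.R0 i j : ℤ) = iI i * L.R0 + 64 * jI j := by
      rw [mc_posP, max_eq_left h1]
    have m0 : ((min (posP L.R0 i j) (p1L L i j) : ℕ) : ℤ) ≤ posP L.R0 i j := by
      exact_mod_cast min_le_left _ _
    have m1 : ((min (posP L.R0 i j) (p1L L i j) : ℕ) : ℤ) ≤ p1L L i j := by
      exact_mod_cast min_le_right _ _
    generalize ((min (posP L.R0 i j) (p1L L i j) : ℕ) : ℤ) = m at m0 m1 ⊢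
    rw [e0] at m0
    unfold nI
    rcases h2 with ⟨h3, h4⟩ | ⟨h3, h4⟩
    · nlinarith [mul_le_mul_of_nonneg_left hr0 h4, mul_le_mul_of_nonneg_right m0 ha0]
    · have e1 : (p1L L i j : ℤ) = iI i * L.R1 + 64 * jI j := by
        unfold p1L
        rw [if_neg h3, mc_posP, max_eq_left h4]
      rw [e1] at m1
      have hr1 := mc_r1 H h3
      have := mc_aff (iI i) (64 * jI j * a - m * a) (64 * b) (L.R0 * a) (L.R1 * a) hr0 hr1
        (by nlinarith [mul_le_mul_of_nonneg_right m0 ha0])
        (by nlinarith [mul_le_mul_of_nonneg_right m1 ha0])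
      linarith
  · intro h
    obtain ⟨h1, h2⟩ := (mc_ends H hl).2 h
    have e0 : (posN L.R0 i j : ℤ) = -(iI i * L.R0 + 64 * jI j) := by
      rw [mc_posN, max_eq_left (by linarith)]
    have m0 : ((min (posN L.R0 i j) (n1L L i j) : ℕ) : ℤ) ≤ posN L.R0 i j := by
      exact_mod_cast min_le_left _ _
    have m1 : ((min (posN L.R0 i j) (n1L L i j) : ℕ) : ℤ) ≤ n1L L i j := by
      exact_mod_cast min_le_right _ _
    generalize ((min (posN L.R0 i j) (n1L L i j) : ℕ) : ℤ) = m at m0 m1 ⊢
    rw [e0] at m0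
    unfold nI
    rcases h2 with ⟨h3, h4⟩ | ⟨h3, h4⟩
    · nlinarith [mul_le_mul_of_nonneg_left hr0 (neg_nonneg.2 h4), mul_le_mul_of_nonneg_right m0 ha0]
    · have e1 : (n1L L i j : ℤ) = -(iI i * L.R1 + 64 * jI j) := by
        unfold n1L
        rw [if_neg h3, mc_posN, max_eq_left (by linarith)]
      rw [e1] at m1
      have hr1 := mc_r1 H h3
      have := mc_aff (-iI i) (-(64 * jI j * a) - m * a) (64 * b) (L.R0 * a) (L.R1 * a) hr0 hr1
        (by nlinarith [mul_le_mul_of_nonneg_right m0 ha0])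
        (by nlinarith [mul_le_mul_of_nonneg_right m1 ha0])
      linarith

theorem lab_sign (ha : 0 < a) (hab : a < b) (H : InCell L.nL L.T0 L.T1 L.R0 L.R1 a b x) {i j : ℕ}
    (hl : LabC L i j) :
    (lrt L i j = true → 0 ≤ nI a b i j) ∧ (lrt L i j = false → nI a b i j ≤ 0) := by
  constructor
  · intro h
    have h1 := (mc_lo H hl).1 h
    have h2 : (0 : ℤ) ≤ ((min (posP L.R0 i j) (p1L L i j) : ℕ) : ℤ) * a :=
      mul_nonneg (Int.natCast_nonneg _) (Int.natCast_nonneg _)
    linarith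
  · intro h
    have h1 := (mc_lo H hl).2 h
    have h2 : (0 : ℤ) ≤ ((min (posN L.R0 i j) (n1L L i j) : ℕ) : ℤ) * a :=
      mul_nonneg (Int.natCast_nonneg _) (Int.natCast_nonneg _)
    linarith

private theorem mc_minN (u w : ℕ) : minN u w = min u w := by
  have h : minN u w = u - (u - w) := rfl
  rw [h]
  omega

private theorem mc_fR (p R m : ℕ) (hm : m ≤ fR p R) (hm0 : m ≠ 0) :
    R < p ∧ (m : ℤ) * R ≤ 256 * ((p : ℤ) - R) := by
  have h1 : fR p R = 256 * (p - R) / R := rfl
  rw [h1] at hm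
  have h2 : m * R ≤ 256 * (p - R) := (Nat.mul_le_mul_right R hm).trans (Nat.div_mul_le_self _ _)
  have h3 : R < p := by
    by_contra h
    have : p - R = 0 := by omega
    rw [this] at hm
    simp at hm
    exact hm0 hm
  refine ⟨h3, ?_⟩
  have h4 : ((m * R : ℕ) : ℤ) ≤ ((256 * (p - R) : ℕ) : ℤ) := by exact_mod_cast h2
  push_cast [Nat.cast_sub h3.le] at h4
  exact h4

private theorem mc_mE_true (L : LMV) (i j p0 n0 p1 n1 : ℕ) :
    mE L true i j p0 n0 p1 n1 = min (fR p0 L.R0)
      (cond (Nat.beq L.R1 0) (cond (Nat.blt j 64) (fR p0 L.R0) (256 * (i - 33))) (fR p1 L.R1)) := by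
  rw [← mc_minN]
  rfl

private theorem mc_mE_false (L : LMV) (i j p0 n0 p1 n1 : ℕ) :
    mE L false i j p0 n0 p1 n1 = 4 * (min n0 n1 - 64) := by
  rw [← mc_minN]
  rfl

private theorem mc_qL_t (L : LMV) (rt : Bool) (i p0 n0 p1 n1 p n : ℕ)
    (hb : (Nat.beq L.nL 0 && !(Nat.beq i 32)) = true) :
    qL L rt i p0 n0 p1 n1 p n = 4 * (cond rt (min p0 p1) (min n0 n1)) := by
  rw [← mc_minN, ← mc_minN]
  unfold qL
  show cond (Nat.beq L.nL 0 && !(Nat.beq i 32)) _ _ = _
  rw [hb]
  rfl

private theorem mc_qL_f (L : LMV) (rt : Bool) (i p0 n0 p1 n1 p n : ℕ)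
    (hb : (Nat.beq L.nL 0 && !(Nat.beq i 32)) = false) :
    qL L rt i p0 n0 p1 n1 p n = 4 * (cond rt p n) := by
  unfold qL
  show cond (Nat.beq L.nL 0 && !(Nat.beq i 32)) _ _ = _
  rw [hb]
  rfl

/-- exponent of the size. Right labels: `(n - b)/b = (i - 33) + (j - 64)/ρ` is affine in `1/ρ`; left labels:
`(|n| - a)/a` is affine in `ρ`. -/
theorem lab_size (ha : 0 < a) (hab : a < b) (H : InCell L.nL L.T0 L.T1 L.R0 L.R1 a b x) {i j : ℕ}
    (hl : LabC L i j) :
    (lrt L i j = true → lm L i j = 0 ∨ ((b : ℤ) ≤ nI a b i j ∧ (lm L i j : ℤ) * b ≤ 256 * (nI a b i j - b))) ∧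
    (lrt L i j = false → lm L i j = 0 ∨ (nI a b i j ≤ -(a : ℤ) ∧ (lm L i j : ℤ) * a ≤ 256 * (-nI a b i j - a))) := by
  have ha0 : (0 : ℤ) ≤ a := Int.natCast_nonneg a
  have hb0 : (0 : ℤ) ≤ b := Int.natCast_nonneg b
  have hr0 := mc_r0 H
  constructor
  · intro h
    by_cases hm : lm L i j = 0
    · exact Or.inl hm
    right
    suffices h5 : (lm L i j : ℤ) * b ≤ 256 * (nI a b i j - b) by
      refine ⟨?_, h5⟩
      have : (0 : ℤ) ≤ (lm L i j : ℤ) * b := by positivity
      linarith
    obtain ⟨h1, h2⟩ := (mc_ends H hl).1 h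
    have e0 : (posP L.R0 i j : ℤ) = iI i * L.R0 + 64 * jI j := by
      rw [mc_posP, max_eq_left h1]
    have hlm : lm L i j = min (fR (posP L.R0 i j) L.R0)
        (cond (Nat.beq L.R1 0) (cond (Nat.blt j 64) (fR (posP L.R0 i j) L.R0) (256 * (i - 33)))
          (fR (p1L L i j) L.R1)) := by
      unfold lm
      rw [h, mc_mE_true]
    have hm0 : lm L i j ≤ fR (posP L.R0 i j) L.R0 := hlm ▸ min_le_left _ _
    have hm1 : lm L i j ≤ (cond (Nat.beq L.R1 0) (cond (Nat.blt j 64) (fR (posP L.R0 i j) L.R0)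
        (256 * (i - 33))) (fR (p1L L i j) L.R1)) := hlm ▸ min_le_right _ _
    generalize lm L i j = m at hm hm0 hm1 ⊢
    obtain ⟨g1, g2⟩ := mc_fR _ _ m hm0 hm
    rw [e0] at g2
    unfold nI
    rcases h2 with ⟨h3, h4⟩ | ⟨h3, h4⟩
    · rw [h3] at hm1
      have hb1 : Nat.beq 0 0 = true := rfl
      rw [hb1, cond_true] at hm1
      by_cases hj : j < 64
      · have hj1 : jI j ≤ -1 := by
          unfold jI
          omega
        have hR0 : (0 : ℤ) < L.R0 := by
          have := H.R0'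
          omega
        have hco : 0 < 256 * (iI i - 1) - m := by
          by_contra hc
          nlinarith
        nlinarith [mul_le_mul_of_nonneg_left hr0 hco.le, mul_le_mul_of_nonneg_right g2 ha0]
      · have hbl : Nat.blt j 64 = false := by
          rw [Bool.eq_false_iff]
          intro hh
          have : j + 1 ≤ 64 := Nat.le_of_ble_eq_true hh
          omega
        rw [hbl, cond_false] at hm1
        have hj1 : 0 ≤ jI j := by
          unfold jI
          omega
        have hm2 : m ≤ 256 * (i - 33) := hm1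
        have hm3 : (m : ℤ) ≤ 256 * (iI i - 1) := by
          unfold iI
          omega
        nlinarith [mul_le_mul_of_nonneg_right hm3 hb0, mul_nonneg hj1 ha0]
    · have hb1 : Nat.beq L.R1 0 = false := by
        rcases hR : L.R1 with _ | k
        · exact absurd hR h3
        · rfl
      rw [hb1, cond_false] at hm1
      obtain ⟨g3, g4⟩ := mc_fR _ _ m hm1 hm
      have e1 : (p1L L i j : ℤ) = iI i * L.R1 + 64 * jI j := by
        unfold p1L
        rw [if_neg h3, mc_posP, max_eq_left h4]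
      rw [e1] at g4
      have hr1 := mc_r1 H h3
      have := mc_aff (256 * (iI i - 1) - m) (256 * (64 * jI j * a)) (64 * b) (L.R0 * a) (L.R1 * a) hr0 hr1
        (by nlinarith [mul_le_mul_of_nonneg_right g2 ha0])
        (by nlinarith [mul_le_mul_of_nonneg_right g4 ha0])
      linarith
  · intro h
    by_cases hm : lm L i j = 0
    · exact Or.inl hm
    right
    suffices h5 : (lm L i j : ℤ) * a ≤ 256 * (-nI a b i j - a) by
      refine ⟨?_, h5⟩
      have : (0 : ℤ) ≤ (lm L i j : ℤ) * a := by positivity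
      linarith
    have hlm : lm L i j = 4 * (min (posN L.R0 i j) (n1L L i j) - 64) := by
      unfold lm
      rw [h, mc_mE_false]
    have h1 := (mc_lo H hl).2 h
    have h2 : (lm L i j : ℤ) ≤ 4 * (((min (posN L.R0 i j) (n1L L i j) : ℕ) : ℤ) - 64) := by
      omega
    nlinarith [mul_le_mul_of_nonneg_right h2 ha0]

/-- `|n|/a` -/
noncomputable def posA (L : LMV) (a b i j : ℕ) : ℝ :=
  (if lrt L i j then (nI a b i j : ℝ) else -(nI a b i j : ℝ)) / a

theorem lab_exp (ha : 0 < a) (hab : a < b) (H : InCell L.nL L.T0 L.T1 L.R0 L.R1 a b x) {i j : ℕ}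
    (hl : LabC L i j) (s2 : ℝ) (h2 : |s2| ≤ 1)
    (hr : L.R1 = 0 ∨ (b : ℝ) / a = ai ((L.R0 : ℝ) / 64) ((L.R1 : ℝ) / 64) s2) :
    (L.nL = 0 ∧ i ≠ 32 → ai ((lq0 L i j : ℝ) / 256) ((lq1 L i j : ℝ) / 256) s2 ≤ posA L a b i j) ∧
    (¬ (L.nL = 0 ∧ i ≠ 32) → ai ((lq0 L i j : ℝ) / 256) ((lq1 L i j : ℝ) / 256) s2 = posA L a b i j) := by
  have haR : (0 : ℝ) < a := by exact_mod_cast ha
  constructor
  · intro hc
    have hb : (Nat.beq L.nL 0 && !(Nat.beq i 32)) = true := by
      rw [hc.1]
      have : Nat.beq i 32 = false := by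
        rw [Bool.eq_false_iff]
        intro hh
        exact hc.2 (Nat.eq_of_beq_eq_true hh)
      rw [this]
      rfl
    have hself : ∀ c : ℝ, ai c c s2 = c := by
      intro c
      unfold ai
      ring
    rcases hrt : lrt L i j with _ | _
    · have q0 : lq0 L i j = 4 * min (posN L.R0 i j) (n1L L i j) := by
        unfold lq0
        rw [hrt, mc_qL_t L _ i _ _ _ _ _ _ hb, cond_false]
      have q1 : lq1 L i j = 4 * min (posN L.R0 i j) (n1L L i j) := by
        unfold lq1
        rw [hrt, mc_qL_t L _ i _ _ _ _ _ _ hb, cond_false]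
      rw [q0, q1, hself]
      have h1 := (mc_lo H hl).2 hrt
      have h1R : ((min (posN L.R0 i j) (n1L L i j) : ℕ) : ℝ) * a ≤ -(64 * (nI a b i j : ℝ)) := by
        exact_mod_cast h1
      unfold posA
      rw [hrt, if_neg (by simp), le_div_iff₀ haR]
      rw [Nat.cast_mul, Nat.cast_ofNat]
      linarith
    · have q0 : lq0 L i j = 4 * min (posP L.R0 i j) (p1L L i j) := by
        unfold lq0
        rw [hrt, mc_qL_t L _ i _ _ _ _ _ _ hb, cond_true]
      have q1 : lq1 L i j = 4 * min (posP L.R0 i j) (p1L L i j) := by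
        unfold lq1
        rw [hrt, mc_qL_t L _ i _ _ _ _ _ _ hb, cond_true]
      rw [q0, q1, hself]
      have h1 := (mc_lo H hl).1 hrt
      have h1R : ((min (posP L.R0 i j) (p1L L i j) : ℕ) : ℝ) * a ≤ 64 * (nI a b i j : ℝ) := by
        exact_mod_cast h1
      unfold posA
      rw [hrt, if_pos rfl, le_div_iff₀ haR]
      rw [Nat.cast_mul, Nat.cast_ofNat]
      linarith
  · intro hc
    have hb : (Nat.beq L.nL 0 && !(Nat.beq i 32)) = false := by
      rw [Bool.eq_false_iff]
      intro hh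
      rw [Bool.and_eq_true] at hh
      apply hc
      refine ⟨Nat.eq_of_beq_eq_true hh.1, ?_⟩
      rintro rfl
      exact absurd hh.2 (by decide)
    have hn : (nI a b i j : ℝ) / a = (iI i : ℝ) * ((b : ℝ) / a) + jI j := by
      unfold nI
      push_cast
      field_simp
    -- the values at the two ends
    have hend : ∀ c0 c1 : ℝ, c0 = (iI i : ℝ) * L.R0 + 64 * jI j →
        ((L.R1 = 0 ∧ c1 = c0) ∨ (L.R1 ≠ 0 ∧ c1 = (iI i : ℝ) * L.R1 + 64 * jI j)) →
        ai (c0 / 64) (c1 / 64) s2 = (nI a b i j : ℝ) / a := by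
      intro c0 c1 h0 h1
      rw [hn]
      rcases h1 with ⟨h1, h4⟩ | ⟨h1, h4⟩
      · have hi : (iI i : ℝ) = 0 := by
          have hnL : L.nL = 0 := by
            rcases H.nLc with h | h | h
            · exact h
            · omega
            · omega
          have hi32 : i = 32 := by
            by_contra h5
            exact hc ⟨hnL, h5⟩
          rw [hi32]
          unfold iI
          norm_num
        rw [h4, h0, hi]
        unfold ai
        ring
      · rcases hr with h5 | h5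
        · exact absurd h5 h1
        · rw [h4, h0, h5]
          unfold ai
          ring
    rcases hrt : lrt L i j with _ | _
    · have q0 : lq0 L i j = 4 * posN L.R0 i j := by
        unfold lq0
        rw [hrt, mc_qL_f L _ i _ _ _ _ _ _ hb, cond_false]
      have q1 : lq1 L i j = 4 * n1L L i j := by
        unfold lq1
        rw [hrt, mc_qL_f L _ i _ _ _ _ _ _ hb, cond_false]
      obtain ⟨e1, e2⟩ := (mc_ends H hl).2 hrt
      have e0 : (posN L.R0 i j : ℝ) = -((iI i : ℝ) * L.R0 + 64 * jI j) := by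
        have : (posN L.R0 i j : ℤ) = -(iI i * L.R0 + 64 * jI j) := by
          rw [mc_posN, max_eq_left (by linarith)]
        exact_mod_cast this
      have e3 : (L.R1 = 0 ∧ -(n1L L i j : ℝ) = -(posN L.R0 i j : ℝ)) ∨
          (L.R1 ≠ 0 ∧ -(n1L L i j : ℝ) = (iI i : ℝ) * L.R1 + 64 * jI j) := by
        rcases e2 with ⟨h3, h4⟩ | ⟨h3, h4⟩
        · left
          refine ⟨h3, ?_⟩
          unfold n1L
          rw [if_pos h3]
        · right
          refine ⟨h3, ?_⟩
          have : (n1L L i j : ℤ) = -(iI i * L.R1 + 64 * jI j) := by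
            unfold n1L
            rw [if_neg h3, mc_posN, max_eq_left (by linarith)]
          have h5 : (n1L L i j : ℝ) = -((iI i : ℝ) * L.R1 + 64 * jI j) := by exact_mod_cast this
          rw [h5, neg_neg]
      have h6 := hend (-(posN L.R0 i j : ℝ)) (-(n1L L i j : ℝ)) (by rw [e0, neg_neg]) e3
      rw [q0, q1]
      unfold posA
      rw [hrt, if_neg (by simp), neg_div, ← h6]
      unfold ai
      rw [Nat.cast_mul, Nat.cast_mul, Nat.cast_ofNat]
      ring
    · have q0 : lq0 L i j = 4 * posP L.R0 i j := by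
        unfold lq0
        rw [hrt, mc_qL_f L _ i _ _ _ _ _ _ hb, cond_true]
      have q1 : lq1 L i j = 4 * p1L L i j := by
        unfold lq1
        rw [hrt, mc_qL_f L _ i _ _ _ _ _ _ hb, cond_true]
      obtain ⟨e1, e2⟩ := (mc_ends H hl).1 hrt
      have e0 : (posP L.R0 i j : ℝ) = (iI i : ℝ) * L.R0 + 64 * jI j := by
        have : (posP L.R0 i j : ℤ) = iI i * L.R0 + 64 * jI j := by
          rw [mc_posP, max_eq_left (by linarith)]
        exact_mod_cast this
      have e3 : (L.R1 = 0 ∧ (p1L L i j : ℝ) = (posP L.R0 i j : ℝ)) ∨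
          (L.R1 ≠ 0 ∧ (p1L L i j : ℝ) = (iI i : ℝ) * L.R1 + 64 * jI j) := by
        rcases e2 with ⟨h3, h4⟩ | ⟨h3, h4⟩
        · left
          refine ⟨h3, ?_⟩
          unfold p1L
          rw [if_pos h3]
        · right
          refine ⟨h3, ?_⟩
          have : (p1L L i j : ℤ) = iI i * L.R1 + 64 * jI j := by
            unfold p1L
            rw [if_neg h3, mc_posP, max_eq_left (by linarith)]
          exact_mod_cast this
      have h6 := hend (posP L.R0 i j : ℝ) (p1L L i j : ℝ) e0 e3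
      rw [q0, q1]
      unfold posA
      rw [hrt, if_pos rfl, ← h6]
      unfold ai
      rw [Nat.cast_mul, Nat.cast_mul, Nat.cast_ofNat]
      ring

/-- distinct labels with the same position -/
theorem nI_inj (ha : 0 < a) (hab : a < b) (h2 : b ≠ 2 * a) (h3 : b ≠ 3 * a) (h32 : 2 * b ≠ 3 * a)
    (H : InCell L.nL L.T0 L.T1 L.R0 L.R1 a b x) {i j i' j' : ℕ} (he : nI a b i j = nI a b i' j')
    (hc : (|jI j - jI j'| ≤ 3) ∨ (|iI i - iI i'| ≤ L.nL)) : i = i' ∧ j = j' := by
  have haZ : (0 : ℤ) < a := by exact_mod_cast ha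
  have habZ : (a : ℤ) < b := by exact_mod_cast hab
  have hR1 : L.nL = 0 ∨ (L.nL = 1 ∧ (b : ℤ) ≤ 3 * a) ∨ (L.nL = 2 ∧ (b : ℤ) ≤ 2 * a) := by
    rcases H.nLc with h | ⟨h, h4, h5⟩ | ⟨h, h4, h5⟩
    · exact Or.inl h
    · refine Or.inr (Or.inl ⟨h, ?_⟩)
      have h6 := mc_r1 H (by omega)
      have h7 : (L.R1 : ℤ) ≤ 192 := by exact_mod_cast h5
      nlinarith
    · refine Or.inr (Or.inr ⟨h, ?_⟩)
      have h6 := mc_r1 H (by omega)
      have h7 : (L.R1 : ℤ) ≤ 128 := by exact_mod_cast h5
      nlinarith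
  have he' : (iI i - iI i') * b = -((jI j - jI j') * a) := by
    unfold nI at he
    linarith
  have hfin : iI i - iI i' = 0 → i = i' ∧ j = j' := by
    intro h
    rw [h, zero_mul] at he'
    have h4 : jI j - jI j' = 0 := by
      have : (jI j - jI j') * a = 0 := by linarith
      rcases mul_eq_zero.1 this with h5 | h5
      · exact h5
      · omega
    unfold iI at h
    unfold jI at h4
    omega
  apply hfin
  generalize iI i - iI i' = d at he' hc
  generalize jI j - jI j' = e at he' hc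
  by_contra hd
  -- normalise the sign
  obtain ⟨D, E, hD, hDE, hcc⟩ : ∃ D E : ℤ, 1 ≤ D ∧ D * b = E * a ∧ (|E| ≤ 3 ∨ |D| ≤ L.nL) := by
    rcases lt_or_gt_of_ne hd with h | h
    · refine ⟨-d, e, by omega, by linarith, ?_⟩
      rcases hc with h4 | h4
      · exact Or.inl h4
      · exact Or.inr (by rwa [abs_neg])
    · refine ⟨d, -e, by omega, by linarith, ?_⟩
      rcases hc with h4 | h4
      · exact Or.inl (by rwa [abs_neg])
      · exact Or.inr h4
  have hDE2 : D < E := by
    by_contra h4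
    have : E * a ≤ D * a := by nlinarith
    nlinarith
  have hb2 : (b : ℤ) ≠ 2 * a := by exact_mod_cast h2
  have hb3 : (b : ℤ) ≠ 3 * a := by exact_mod_cast h3
  have hb32 : 2 * (b : ℤ) ≠ 3 * a := by exact_mod_cast h32
  have hcases : ∀ D E : ℤ, 1 ≤ D → D < E → D * b = E * a → E ≤ 3 → False := by
    intro D E h4 h5 h6 h7
    have h8 : D = 1 ∨ D = 2 := by omega
    rcases h8 with rfl | rfl
    · have : E = 2 ∨ E = 3 := by omega
      rcases this with rfl | rfl
      · exact hb2 (by linarith)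
      · exact hb3 (by linarith)
    · have : E = 3 := by omega
      subst this
      exact hb32 (by linarith)
  rcases hcc with h4 | h4
  · exact hcases D E hD hDE2 hDE (le_of_abs_le h4)
  · have h5 : D ≤ L.nL := (le_abs_self D).trans h4
    rcases hR1 with h6 | ⟨h6, h7⟩ | ⟨h6, h7⟩
    · rw [h6] at h5
      omega
    · rw [h6] at h5
      have hD1 : D = 1 := by omega
      subst hD1
      refine hcases 1 E le_rfl hDE2 hDE ?_
      by_contra h8
      have : (4 : ℤ) ≤ E := by omega
      nlinarith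
    · rw [h6] at h5
      by_cases h9 : E ≤ 3
      · exact hcases D E hD hDE2 hDE h9
      · have h10 : (4 : ℤ) ≤ E := by omega
        have h11 : D = 2 := by
          have : D ≤ 2 := by exact_mod_cast h5
          by_contra h12
          have h13 : D = 1 := by omega
          subst h13
          nlinarith
        subst h11
        by_cases h12 : E = 4
        · subst h12
          exact hb2 (by linarith)
        · have : (5 : ℤ) ≤ E := by omega
          nlinarith

end Pool.Agent.MaxTerm59b
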