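import Pool.Agent.MaxTerm59b.MvI
import Pool.Agent.MaxTerm58.XFinal

/-! Mismatched vertex with a generic ratio: covering by leaves. -/

namespace Pool.Agent.MaxTerm59b
open Finset Pool.Agent.MaxTerm58

/-- outer data in the mode `md` (`0`: matched or mismatched, `1`: matched, `2`: mismatched) -/
def OutY (md g : ℕ) (D : ℝ) (r : ℕ → ℂ) : Prop :=
  (md = 0 ∧ (OutU g D r ∨ OutN g D r)) ∨ (md = 1 ∧ OutU g D r) ∨ (md = 2 ∧ OutN g D r)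

theorem OutY.toX {md g : ℕ} {D : ℝ} {r : ℕ → ℂ} (h : OutY md g D r) : OutX md g D r := by
  rcases h with ⟨h, h1 | h1⟩ | ⟨h, h1⟩ | ⟨h, h1⟩
  · exact Or.inl ⟨h, h1.toA⟩
  · exact Or.inl ⟨h, outN_toA h1⟩
  · exact Or.inr (Or.inl ⟨h, h1⟩)
  · exact Or.inr (Or.inr ⟨h, h1⟩)

theorem OutY.toMN {md g : ℕ} {D : ℝ} {r : ℕ → ℂ} (h : OutY md g D r) : OutM g D r ∨ OutN g D r := by
  rcases h with ⟨-, h1 | h1⟩ | ⟨-, h1⟩ | ⟨-, h1⟩
  · exact Or.inl h1.1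
  · exact Or.inr h1
  · exact Or.inl h1.1
  · exact Or.inr h1

structure HypMY (RM LM a b : ℕ) (x : ℂ) (D : ℝ) (v : ℤ → ℂ) : Prop where
  ha : 0 < a
  hab : a < b
  h2 : b ≠ 2 * a
  h3 : b ≠ 3 * a
  h32 : 2 * b ≠ 3 * a
  M : HypM a b x D v
  hD3 : D ≤ 7501 / 10000 ∨ D ≤ ‖x‖ ^ a + 1 / 10000
  oR : OutY RM b D (fun i => v (b + 1 + (i : ℤ)))
  oL : OutY LM a D (fun i => v (-(a : ℤ) - 1 - (i : ℤ)))

/-- the cell contains no configuration -/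
def Bad (nL RM LM T0 T1 R0 R1 : ℕ) : Prop :=
  ∀ (a b : ℕ) (x : ℂ) (D : ℝ) (v : ℤ → ℂ), HypMY RM LM a b x D v → InCell nL T0 T1 R0 R1 a b x → False

theorem Bad.chk {nL RM LM T0 T1 R0 R1 : ℕ} {C : CMV} (h : chkMV TC TS nL T0 T1 R0 R1 RM LM C = true) :
    Bad nL RM LM T0 T1 R0 R1 := fun _ _ _ _ _ H I =>
  chkMV_sound h ⟨H.ha, H.hab, H.h2, H.h3, H.h32, H.M, H.hD3, H.oR.toX, H.oL.toX⟩ I

theorem Bad.splitT {nL RM LM T0 T1 R0 R1 : ℕ} (Tm : ℕ) (h : T0 ≤ Tm) (h1 : Bad nL RM LM T0 Tm R0 R1)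
    (h2 : Bad nL RM LM Tm T1 R0 R1) : Bad nL RM LM T0 T1 R0 R1 := by
  intro a b x D v H I
  rcases le_total (65536 * ‖x‖ ^ a) (Tm : ℝ) with hc | hc
  · exact h1 a b x D v H ⟨I.t0, hc, I.r0, I.r1, I.T0', I.R0', I.nLc, I.Rinf⟩
  · exact h2 a b x D v H ⟨hc, I.t1, I.r0, I.r1, I.T0'.trans h, I.R0', I.nLc, I.Rinf⟩

theorem Bad.splitR {nL RM LM T0 T1 R0 R1 : ℕ} (Rm : ℕ) (h : R0 ≤ Rm) (h' : Rm ≤ R1) (h1 : Bad nL RM LM T0 T1 R0 Rm)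
    (h2 : Bad nL RM LM T0 T1 Rm R1) : Bad nL RM LM T0 T1 R0 R1 := by
  intro a b x D v H I
  have hR := I.R0'
  rcases le_total (64 * b) (Rm * a) with hc | hc
  · refine h1 a b x D v H ⟨I.t0, I.t1, I.r0, Or.inr hc, I.T0', I.R0', ?_, fun h => by omega⟩
    rcases I.nLc with h | ⟨h, h3, h4⟩ | ⟨h, h3, h4⟩
    · exact Or.inl h
    · exact Or.inr (Or.inl ⟨h, by omega, by omega⟩)
    · exact Or.inr (Or.inr ⟨h, by omega, by omega⟩)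
  · exact h2 a b x D v H ⟨I.t0, I.t1, hc, I.r1, I.T0', I.R0'.trans h, I.nLc, fun h => by omega⟩

theorem Bad.splitRM {nL LM T0 T1 R0 R1 : ℕ} (h1 : Bad nL 1 LM T0 T1 R0 R1) (h2 : Bad nL 2 LM T0 T1 R0 R1) :
    Bad nL 0 LM T0 T1 R0 R1 := by
  intro a b x D v H I
  rcases H.oR with ⟨-, h | h⟩ | ⟨h, -⟩ | ⟨h, -⟩
  · exact h1 a b x D v ⟨H.ha, H.hab, H.h2, H.h3, H.h32, H.M, H.hD3, Or.inr (Or.inl ⟨rfl, h⟩), H.oL⟩ I
  · exact h2 a b x D v ⟨H.ha, H.hab, H.h2, H.h3, H.h32, H.M, H.hD3, Or.inr (Or.inr ⟨rfl, h⟩), H.oL⟩ I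
  · exact absurd h (by norm_num)
  · exact absurd h (by norm_num)

/-- the cells with a tiny parameter -/
theorem Bad.small {nL RM LM T0 T1 R0 R1 : ℕ} (hT : T1 ≤ 20053) (hR : 40 ^ 64 * T1 ^ R0 ≤ 65536 ^ R0) :
    Bad nL RM LM T0 T1 R0 R1 := by
  intro a b x D v H I
  have ha := H.ha
  have hx : x ≠ 0 := H.M.x0
  have hx0 : 0 < ‖x‖ := norm_pos_iff.2 hx
  have ht : ‖x‖ ^ a ≤ (T1 : ℝ) / 65536 := by
    have := I.t1
    linarith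
  have hx1 : ‖x‖ ≤ 1 := by
    by_contra hc
    push Not at hc
    have h1 := one_le_pow₀ hc.le (n := a)
    have h2 := H.M.ht
    linarith
  have hT' : (T1 : ℝ) ≤ 20053 := by exact_mod_cast hT
  refine smallx_hypM ha H.hab H.M ?_ ?_ H.oR.toMN H.oL.toMN
  · -- `(‖x‖ ^ b) ^ (64 a) ≤ (‖x‖ ^ a) ^ (R0 a)`
    have h0 : 0 ≤ (T1 : ℝ) / 65536 := by positivity
    have h1 : (‖x‖ ^ b) ^ 64 ≤ ((T1 : ℝ) / 65536) ^ R0 := by
      refine le_of_pow_le_pow_left₀ ha.ne' (by positivity) ?_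
      calc ((‖x‖ ^ b) ^ 64) ^ a = ‖x‖ ^ (64 * b * a) := by
            rw [← pow_mul, ← pow_mul]
            congr 1
            ring
        _ ≤ ‖x‖ ^ (R0 * a * a) := pow_le_pow_of_le_one hx0.le hx1 (Nat.mul_le_mul_right a I.r0)
        _ = ((‖x‖ ^ a) ^ R0) ^ a := by
            rw [← pow_mul, ← pow_mul]
            congr 1
            ring
        _ ≤ (((T1 : ℝ) / 65536) ^ R0) ^ a := by
            refine pow_le_pow_left₀ (by positivity) ?_ a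
            exact pow_le_pow_left₀ (by positivity) ht R0
    have h2 : (40 : ℝ) ^ 64 * (T1 : ℝ) ^ R0 ≤ 65536 ^ R0 := by exact_mod_cast hR
    have h3 : ((T1 : ℝ) / 65536) ^ R0 ≤ (1 / 40) ^ 64 := by
      rw [div_pow, div_pow, one_pow, div_le_div_iff₀ (by positivity) (by positivity)]
      linarith
    exact le_of_pow_le_pow_left₀ (by norm_num) (by norm_num) (h1.trans h3)
  · rcases H.M.hD with h | h
    · linarith
    · have : (10 / 9 : ℝ) * ‖x‖ ^ a ≤ 10 / 9 * (20053 / 65536) := by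
        have : ‖x‖ ^ a ≤ 20053 / 65536 := ht.trans (by linarith)
        linarith
      refine h.trans (this.trans ?_)
      norm_num

end Pool.Agent.MaxTerm59b
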