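import Pool.Agent.MaxTerm59b.MvCov
import Pool.Agent.MaxTerm59b.DM0
import Pool.Agent.MaxTerm59b.DM1
import Pool.Agent.MaxTerm59b.DM2
import Pool.Agent.MaxTerm59b.DM3
import Pool.Agent.MaxTerm59b.DM4
import Pool.Agent.MaxTerm59b.DM5
import Pool.Agent.MaxTerm59b.DM6
import Pool.Agent.MaxTerm59b.DM7
import Pool.Agent.MaxTerm59b.DM8
import Pool.Agent.MaxTerm59b.DM9
import Pool.Agent.MaxTerm59b.DM10
import Pool.Agent.MaxTerm59b.DM11
import Pool.Agent.MaxTerm59b.DM12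
import Pool.Agent.MaxTerm59b.DM13
import Pool.Agent.MaxTerm59b.DM14
import Pool.Agent.MaxTerm59b.DM15
import Pool.Agent.MaxTerm59b.DM16
import Pool.Agent.MaxTerm59b.DM17
import Pool.Agent.MaxTerm59b.DM18
import Pool.Agent.MaxTerm59b.DM19
import Pool.Agent.MaxTerm59b.DM20
import Pool.Agent.MaxTerm59b.DM21
import Pool.Agent.MaxTerm59b.DM22
import Pool.Agent.MaxTerm59b.DM23
import Pool.Agent.MaxTerm59b.DM24
import Pool.Agent.MaxTerm59b.DM25
import Pool.Agent.MaxTerm59b.DM26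
import Pool.Agent.MaxTerm59b.DM27
import Pool.Agent.MaxTerm59b.DM28
import Pool.Agent.MaxTerm59b.DM29
import Pool.Agent.MaxTerm59b.DM30
import Pool.Agent.MaxTerm59b.DM31
import Pool.Agent.MaxTerm59b.DM32
import Pool.Agent.MaxTerm59b.DM33
import Pool.Agent.MaxTerm59b.DM34
import Pool.Agent.MaxTerm59b.DM35
import Pool.Agent.MaxTerm59b.DM36
import Pool.Agent.MaxTerm59b.DM37
import Pool.Agent.MaxTerm59b.DM38
import Pool.Agent.MaxTerm59b.DM39
import Pool.Agent.MaxTerm59b.DM40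
import Pool.Agent.MaxTerm59b.DM41
import Pool.Agent.MaxTerm59b.DM42
import Pool.Agent.MaxTerm59b.DM43

/-! Mismatched vertex with a generic ratio: the coverings (generated). -/

namespace Pool.Agent.MaxTerm59b
set_option linter.style.longLine false
set_option exponentiation.threshold 1000

theorem cvm_0 : Bad 2 0 0 1606 7667 64 128 :=
  Bad.splitT 6554 (by norm_num) (Bad.splitT 4101 (by norm_num) (Bad.splitT 2566 (by norm_num) (Bad.splitR 80 (by norm_num) (by norm_num) (Bad.splitRM (Bad.chk dm_170_ok) (Bad.chk dm_171_ok)) (Bad.small (by norm_num) (by norm_num))) (Bad.splitR 80 (by norm_num) (by norm_num) (Bad.splitRM (Bad.chk dm_172_ok) (Bad.chk dm_173_ok)) (Bad.splitR 96 (by norm_num) (by norm_num) (Bad.splitRM (Bad.chk dm_176_ok) (Bad.chk dm_177_ok)) (Bad.small (by norm_num) (by norm_num))))) (Bad.splitR 80 (by norm_num) (by norm_num) (Bad.splitRM (Bad.chk dm_174_ok) (Bad.chk dm_175_ok)) (Bad.splitR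 96 (by norm_num) (by norm_num) (Bad.splitRM (Bad.chk dm_178_ok) (Bad.chk dm_179_ok)) (Bad.splitR 112 (by norm_num) (by norm_num) (Bad.splitRM (Bad.chk dm_180_ok) (Bad.chk dm_181_ok)) (Bad.small (by norm_num) (by norm_num)))))) (Bad.splitR 88 (by norm_num) (by norm_num) (Bad.splitR 72 (by norm_num) (by norm_num) (Bad.splitRM (Bad.chk dm_64_ok) (Bad.chk dm_65_ok)) (Bad.splitR 80 (by norm_num) (by norm_num) (Bad.splitRM (Bad.chk dm_78_ok) (Bad.chk dm_79_ok)) (Bad.splitRM (Bad.chk dm_92_ok) (Bad.chk dm_93_ok)))) (Bad.splitR 96 (by norm_num) (by norm_num) (Bad.splitRM (Bad.chk dm_106_ok) (Bad.chk dm_107_ok)) (Bad.splitR 104 (by norm_num) (by norm_num) (Bad.splitRM (Bad.chk dm_120_ok) (Bad.chk dm_121_ok)) (Bad.splitR 112 (by norm_num) (by norm_num) (Bad.splitRM (Bad.chk dm_134_ok) (Bad.chk dm_135_ok)) (Bad.small (by norm_num) (by norm_num))))))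

theorem cvm_1 : Bad 2 0 0 8970 10494 64 128 :=
  Bad.splitR 96 (by norm_num) (by norm_num) (Bad.splitR 80 (by norm_num) (by norm_num) (Bad.splitR 72 (by norm_num) (by norm_num) (Bad.splitRM (Bad.chk dm_68_ok) (Bad.chk dm_69_ok)) (Bad.splitRM (Bad.chk dm_82_ok) (Bad.chk dm_83_ok))) (Bad.splitR 88 (by norm_num) (by norm_num) (Bad.splitRM (Bad.chk dm_96_ok) (Bad.chk dm_97_ok)) (Bad.splitRM (Bad.chk dm_110_ok) (Bad.chk dm_111_ok)))) (Bad.splitR 112 (by norm_num) (by norm_num) (Bad.splitR 104 (by norm_num) (by norm_num) (Bad.splitRM (Bad.chk dm_124_ok) (Bad.chk dm_125_ok)) (Bad.splitRM (Bad.chk dm_138_ok) (Bad.chk dm_139_ok))) (Bad.splitR 120 (by norm_num) (by norm_num) (Bad.splitRM (Bad.chk dm_150_ok) (Bad.chk dm_151_ok)) (Bad.splitRM (Bad.chk dm_160_ok) (Bad.chk dm_161_ok))))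

theorem cvm_2 : Bad 2 0 0 7667 10494 64 128 :=
  Bad.splitT 8970 (by norm_num) (Bad.splitR 88 (by norm_num) (by norm_num) (Bad.splitR 72 (by norm_num) (by norm_num) (Bad.splitRM (Bad.chk dm_66_ok) (Bad.chk dm_67_ok)) (Bad.splitR 80 (by norm_num) (by norm_num) (Bad.splitRM (Bad.chk dm_80_ok) (Bad.chk dm_81_ok)) (Bad.splitRM (Bad.chk dm_94_ok) (Bad.chk dm_95_ok)))) (Bad.splitR 104 (by norm_num) (by norm_num) (Bad.splitR 96 (by norm_num) (by norm_num) (Bad.splitRM (Bad.chk dm_108_ok) (Bad.chk dm_109_ok)) (Bad.splitRM (Bad.chk dm_122_ok) (Bad.chk dm_123_ok))) (Bad.splitR 112 (by norm_num) (by norm_num) (Bad.splitRM (Bad.chk dm_136_ok) (Bad.chk dm_137_ok)) (Bad.splitR 120 (by norm_num) (by norm_num) (Bad.splitRM (Bad.chk dm_148_ok) (Bad.chk dm_149_ok)) (Bad.small (by norm_num) (by norm_num)))))) (cvm_1)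

theorem cvm_3 : Bad 2 0 0 10494 12278 64 128 :=
  Bad.splitR 96 (by norm_num) (by norm_num) (Bad.splitR 80 (by norm_num) (by norm_num) (Bad.splitR 72 (by norm_num) (by norm_num) (Bad.splitRM (Bad.chk dm_70_ok) (Bad.chk dm_71_ok)) (Bad.splitRM (Bad.chk dm_84_ok) (Bad.chk dm_85_ok))) (Bad.splitR 88 (by norm_num) (by norm_num) (Bad.splitRM (Bad.chk dm_98_ok) (Bad.chk dm_99_ok)) (Bad.splitRM (Bad.chk dm_112_ok) (Bad.chk dm_113_ok)))) (Bad.splitR 112 (by norm_num) (by norm_num) (Bad.splitR 104 (by norm_num) (by norm_num) (Bad.splitRM (Bad.chk dm_126_ok) (Bad.chk dm_127_ok)) (Bad.splitRM (Bad.chk dm_140_ok) (Bad.chk dm_141_ok))) (Bad.splitR 120 (by norm_num) (by norm_num) (Bad.splitRM (Bad.chk dm_152_ok) (Bad.chk dm_153_ok)) (Bad.splitRM (Bad.chk dm_162_ok) (Bad.chk dm_163_ok))))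

theorem cvm_4 : Bad 2 0 0 12278 14364 64 128 :=
  Bad.splitR 96 (by norm_num) (by norm_num) (Bad.splitR 80 (by norm_num) (by norm_num) (Bad.splitR 72 (by norm_num) (by norm_num) (Bad.splitRM (Bad.chk dm_72_ok) (Bad.chk dm_73_ok)) (Bad.splitRM (Bad.chk dm_86_ok) (Bad.chk dm_87_ok))) (Bad.splitR 88 (by norm_num) (by norm_num) (Bad.splitRM (Bad.chk dm_100_ok) (Bad.chk dm_101_ok)) (Bad.splitRM (Bad.chk dm_114_ok) (Bad.chk dm_115_ok)))) (Bad.splitR 112 (by norm_num) (by norm_num) (Bad.splitR 104 (by norm_num) (by norm_num) (Bad.splitRM (Bad.chk dm_128_ok) (Bad.chk dm_129_ok)) (Bad.splitRM (Bad.chk dm_142_ok) (Bad.chk dm_143_ok))) (Bad.splitR 120 (by norm_num) (by norm_num) (Bad.splitRM (Bad.chk dm_154_ok) (Bad.chk dm_155_ok)) (Bad.splitRM (Bad.chk dm_164_ok) (Bad.chk dm_165_ok))))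

theorem cvm_5 : Bad 2 0 0 14364 16805 64 128 :=
  Bad.splitR 96 (by norm_num) (by norm_num) (Bad.splitR 80 (by norm_num) (by norm_num) (Bad.splitR 72 (by norm_num) (by norm_num) (Bad.splitRM (Bad.chk dm_74_ok) (Bad.chk dm_75_ok)) (Bad.splitRM (Bad.chk dm_88_ok) (Bad.chk dm_89_ok))) (Bad.splitR 88 (by norm_num) (by norm_num) (Bad.splitRM (Bad.chk dm_102_ok) (Bad.chk dm_103_ok)) (Bad.splitRM (Bad.chk dm_116_ok) (Bad.chk dm_117_ok)))) (Bad.splitR 112 (by norm_num) (by norm_num) (Bad.splitR 104 (by norm_num) (by norm_num) (Bad.splitRM (Bad.chk dm_130_ok) (Bad.chk dm_131_ok)) (Bad.splitRM (Bad.chk dm_144_ok) (Bad.chk dm_145_ok))) (Bad.splitR 120 (by norm_num) (by norm_num) (Bad.splitRM (Bad.chk dm_156_ok) (Bad.chk dm_157_ok)) (Bad.splitRM (Bad.chk dm_166_ok) (Bad.chk dm_167_ok))))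

theorem cvm_6 : Bad 2 0 0 16805 19661 64 128 :=
  Bad.splitR 96 (by norm_num) (by norm_num) (Bad.splitR 80 (by norm_num) (by norm_num) (Bad.splitR 72 (by norm_num) (by norm_num) (Bad.splitRM (Bad.chk dm_76_ok) (Bad.chk dm_77_ok)) (Bad.splitRM (Bad.chk dm_90_ok) (Bad.chk dm_91_ok))) (Bad.splitR 88 (by norm_num) (by norm_num) (Bad.splitRM (Bad.chk dm_104_ok) (Bad.chk dm_105_ok)) (Bad.splitRM (Bad.chk dm_118_ok) (Bad.chk dm_119_ok)))) (Bad.splitR 112 (by norm_num) (by norm_num) (Bad.splitR 104 (by norm_num) (by norm_num) (Bad.splitRM (Bad.chk dm_132_ok) (Bad.chk dm_133_ok)) (Bad.splitRM (Bad.chk dm_146_ok) (Bad.chk dm_147_ok))) (Bad.splitR 120 (by norm_num) (by norm_num) (Bad.splitRM (Bad.chk dm_158_ok) (Bad.chk dm_159_ok)) (Bad.splitRM (Bad.chk dm_168_ok) (Bad.chk dm_169_ok))))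

theorem cvm_7 : Bad 2 0 0 19661 22112 64 128 :=
  Bad.splitR 96 (by norm_num) (by norm_num) (Bad.splitR 80 (by norm_num) (by norm_num) (Bad.splitR 72 (by norm_num) (by norm_num) (Bad.splitRM (Bad.chk dm_0_ok) (Bad.chk dm_1_ok)) (Bad.splitRM (Bad.chk dm_8_ok) (Bad.chk dm_9_ok))) (Bad.splitR 88 (by norm_num) (by norm_num) (Bad.splitRM (Bad.chk dm_16_ok) (Bad.chk dm_17_ok)) (Bad.splitRM (Bad.chk dm_24_ok) (Bad.chk dm_25_ok)))) (Bad.splitR 112 (by norm_num) (by norm_num) (Bad.splitR 104 (by norm_num) (by norm_num) (Bad.splitRM (Bad.chk dm_32_ok) (Bad.chk dm_33_ok)) (Bad.splitRM (Bad.chk dm_40_ok) (Bad.chk dm_41_ok))) (Bad.splitR 120 (by norm_num) (by norm_num) (Bad.splitRM (Bad.chk dm_48_ok) (Bad.chk dm_49_ok)) (Bad.splitRM (Bad.chk dm_56_ok) (Bad.chk dm_57_ok))))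

theorem cvm_8 : Bad 2 0 0 22112 24869 64 128 :=
  Bad.splitR 96 (by norm_num) (by norm_num) (Bad.splitR 80 (by norm_num) (by norm_num) (Bad.splitR 72 (by norm_num) (by norm_num) (Bad.splitRM (Bad.chk dm_2_ok) (Bad.chk dm_3_ok)) (Bad.splitRM (Bad.chk dm_10_ok) (Bad.chk dm_11_ok))) (Bad.splitR 88 (by norm_num) (by norm_num) (Bad.splitRM (Bad.chk dm_18_ok) (Bad.chk dm_19_ok)) (Bad.splitRM (Bad.chk dm_26_ok) (Bad.chk dm_27_ok)))) (Bad.splitR 112 (by norm_num) (by norm_num) (Bad.splitR 104 (by norm_num) (by norm_num) (Bad.splitRM (Bad.chk dm_34_ok) (Bad.chk dm_35_ok)) (Bad.splitRM (Bad.chk dm_42_ok) (Bad.chk dm_43_ok))) (Bad.splitR 120 (by norm_num) (by norm_num) (Bad.splitRM (Bad.chk dm_50_ok) (Bad.chk dm_51_ok)) (Bad.splitRM (Bad.chk dm_58_ok) (Bad.chk dm_59_ok))))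

theorem cvm_9 : Bad 2 0 0 24869 27970 64 128 :=
  Bad.splitR 96 (by norm_num) (by norm_num) (Bad.splitR 80 (by norm_num) (by norm_num) (Bad.splitR 72 (by norm_num) (by norm_num) (Bad.splitRM (Bad.chk dm_4_ok) (Bad.chk dm_5_ok)) (Bad.splitRM (Bad.chk dm_12_ok) (Bad.chk dm_13_ok))) (Bad.splitR 88 (by norm_num) (by norm_num) (Bad.splitRM (Bad.chk dm_20_ok) (Bad.chk dm_21_ok)) (Bad.splitRM (Bad.chk dm_28_ok) (Bad.chk dm_29_ok)))) (Bad.splitR 112 (by norm_num) (by norm_num) (Bad.splitR 104 (by norm_num) (by norm_num) (Bad.splitRM (Bad.chk dm_36_ok) (Bad.chk dm_37_ok)) (Bad.splitRM (Bad.chk dm_44_ok) (Bad.chk dm_45_ok))) (Bad.splitR 120 (by norm_num) (by norm_num) (Bad.splitRM (Bad.chk dm_52_ok) (Bad.chk dm_53_ok)) (Bad.splitRM (Bad.chk dm_60_ok) (Bad.chk dm_61_ok))))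

theorem cvm_10 : Bad 2 0 0 27970 31457 64 128 :=
  Bad.splitR 96 (by norm_num) (by norm_num) (Bad.splitR 80 (by norm_num) (by norm_num) (Bad.splitR 72 (by norm_num) (by norm_num) (Bad.splitRM (Bad.chk dm_6_ok) (Bad.chk dm_7_ok)) (Bad.splitRM (Bad.chk dm_14_ok) (Bad.chk dm_15_ok))) (Bad.splitR 88 (by norm_num) (by norm_num) (Bad.splitRM (Bad.chk dm_22_ok) (Bad.chk dm_23_ok)) (Bad.splitRM (Bad.chk dm_30_ok) (Bad.chk dm_31_ok)))) (Bad.splitR 112 (by norm_num) (by norm_num) (Bad.splitR 104 (by norm_num) (by norm_num) (Bad.splitRM (Bad.chk dm_38_ok) (Bad.chk dm_39_ok)) (Bad.splitRM (Bad.chk dm_46_ok) (Bad.chk dm_47_ok))) (Bad.splitR 120 (by norm_num) (by norm_num) (Bad.splitRM (Bad.chk dm_54_ok) (Bad.chk dm_55_ok)) (Bad.splitRM (Bad.chk dm_62_ok) (Bad.chk dm_63_ok))))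

theorem cvm_11 : Bad 2 0 0 31457 50463 64 128 :=
  Bad.splitT 44237 (by norm_num) (Bad.splitT 37304 (by norm_num) (Bad.splitR 96 (by norm_num) (by norm_num) (Bad.splitR 80 (by norm_num) (by norm_num) (Bad.chk dm_182_ok) (Bad.chk dm_190_ok)) (Bad.splitR 112 (by norm_num) (by norm_num) (Bad.chk dm_193_ok) (Bad.chk dm_196_ok))) (Bad.splitR 80 (by norm_num) (by norm_num) (Bad.splitRM (Bad.chk dm_183_ok) (Bad.splitT 40623 (by norm_num) (Bad.splitR 72 (by norm_num) (by norm_num) (Bad.chk dm_184_ok) (Bad.chk dm_185_ok)) (Bad.splitR 72 (by norm_num) (by norm_num) (Bad.chk dm_186_ok) (Bad.chk dm_187_ok)))) (Bad.splitR 96 (by norm_num) (by norm_num) (Bad.chk dm_191_ok) (Bad.splitR 112 (by norm_num) (by norm_num) (Bad.chk dm_194_ok) (Bad.chk dm_197_ok))))) (Bad.splitR 80 (by norm_num) (by norm_num) (Bad.splitRM (Bad.chk dm_188_ok) (Bad.chk dm_189_ok)) (Bad.splitR 96 (by norm_num) (by norm_num) (Bad.chk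 dm_192_ok) (Bad.splitR 112 (by norm_num) (by norm_num) (Bad.chk dm_195_ok) (Bad.chk dm_198_ok))))

theorem cvm_12 : Bad 2 0 0 1606 50463 64 128 :=
  Bad.splitT 16805 (by norm_num) (Bad.splitT 10494 (by norm_num) (Bad.splitT 7667 (by norm_num) (cvm_0) (cvm_2)) (Bad.splitT 12278 (by norm_num) (cvm_3) (Bad.splitT 14364 (by norm_num) (cvm_4) (cvm_5)))) (Bad.splitT 24869 (by norm_num) (Bad.splitT 19661 (by norm_num) (cvm_6) (Bad.splitT 22112 (by norm_num) (cvm_7) (cvm_8))) (Bad.splitT 31457 (by norm_num) (Bad.splitT 27970 (by norm_num) (cvm_9) (cvm_10)) (cvm_11)))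

theorem cvm_13 : Bad 1 0 0 1606 19661 128 166 :=
  Bad.splitT 15783 (by norm_num) (Bad.splitT 12669 (by norm_num) (Bad.splitT 10170 (by norm_num) (Bad.small (by norm_num) (by norm_num)) (Bad.splitR 136 (by norm_num) (by norm_num) (Bad.splitRM (Bad.chk dm_215_ok) (Bad.chk dm_216_ok)) (Bad.splitR 144 (by norm_num) (by norm_num) (Bad.splitRM (Bad.chk dm_237_ok) (Bad.chk dm_238_ok)) (Bad.small (by norm_num) (by norm_num))))) (Bad.splitR 144 (by norm_num) (by norm_num) (Bad.splitR 136 (by norm_num) (by norm_num) (Bad.splitRM (Bad.chk dm_217_ok) (Bad.chk dm_218_ok)) (Bad.splitRM (Bad.chk dm_239_ok) (Bad.chk dm_240_ok))) (Bad.splitR 155 (by norm_num) (by norm_num) (Bad.splitRM (Bad.chk dm_259_ok) (Bad.chk dm_260_ok)) (Bad.splitRM (Bad.chk dm_279_ok) (Bad.chk dm_280_ok))))) (Bad.splitR 144 (by norm_num) (by norm_num) (Bad.splitR 136 (by norm_num) (by norm_num) (Bad.splitRM (Bad.chk dm_219_ok) (Bad.chk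 dm_220_ok)) (Bad.splitRM (Bad.chk dm_241_ok) (Bad.chk dm_242_ok))) (Bad.splitR 155 (by norm_num) (by norm_num) (Bad.splitRM (Bad.chk dm_261_ok) (Bad.chk dm_262_ok)) (Bad.splitRM (Bad.chk dm_281_ok) (Bad.chk dm_282_ok))))

theorem cvm_14 : Bad 1 0 0 22119 27997 128 166 :=
  Bad.splitT 24885 (by norm_num) (Bad.splitR 144 (by norm_num) (by norm_num) (Bad.splitR 136 (by norm_num) (by norm_num) (Bad.splitRM (Bad.chk dm_201_ok) (Bad.chk dm_202_ok)) (Bad.splitRM (Bad.chk dm_223_ok) (Bad.chk dm_224_ok))) (Bad.splitR 155 (by norm_num) (by norm_num) (Bad.splitRM (Bad.chk dm_245_ok) (Bad.chk dm_246_ok)) (Bad.splitRM (Bad.chk dm_265_ok) (Bad.chk dm_266_ok)))) (Bad.splitR 144 (by norm_num) (by norm_num) (Bad.splitR 136 (by norm_num) (by norm_num) (Bad.splitRM (Bad.chk dm_203_ok) (Bad.chk dm_204_ok)) (Bad.splitRM (Bad.chk dm_225_ok) (Bad.chk dm_226_ok))) (Bad.splitR 155 (by norm_num) (by norm_num) (Bad.splitRM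 (Bad.chk dm_247_ok) (Bad.chk dm_248_ok)) (Bad.splitRM (Bad.chk dm_267_ok) (Bad.chk dm_268_ok))))

theorem cvm_15 : Bad 1 0 0 27997 35437 128 166 :=
  Bad.splitT 31498 (by norm_num) (Bad.splitR 144 (by norm_num) (by norm_num) (Bad.splitR 136 (by norm_num) (by norm_num) (Bad.splitRM (Bad.chk dm_205_ok) (Bad.chk dm_206_ok)) (Bad.splitRM (Bad.chk dm_227_ok) (Bad.chk dm_228_ok))) (Bad.splitR 155 (by norm_num) (by norm_num) (Bad.splitRM (Bad.chk dm_249_ok) (Bad.chk dm_250_ok)) (Bad.splitRM (Bad.chk dm_269_ok) (Bad.chk dm_270_ok)))) (Bad.splitR 144 (by norm_num) (by norm_num) (Bad.splitR 136 (by norm_num) (by norm_num) (Bad.splitRM (Bad.chk dm_207_ok) (Bad.chk dm_208_ok)) (Bad.splitRM (Bad.chk dm_229_ok) (Bad.chk dm_230_ok))) (Bad.splitR 155 (by norm_num) (by norm_num) (Bad.splitRM (Bad.chk dm_251_ok) (Bad.chk dm_252_ok)) (Bad.splitRM (Bad.chk dm_271_ok) (Bad.chk dm_272_ok))))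

theorem cvm_16 : Bad 1 0 0 39868 50463 128 166 :=
  Bad.splitT 44854 (by norm_num) (Bad.splitR 144 (by norm_num) (by norm_num) (Bad.splitR 136 (by norm_num) (by norm_num) (Bad.splitRM (Bad.chk dm_211_ok) (Bad.chk dm_212_ok)) (Bad.splitRM (Bad.chk dm_233_ok) (Bad.chk dm_234_ok))) (Bad.splitR 155 (by norm_num) (by norm_num) (Bad.splitRM (Bad.chk dm_255_ok) (Bad.chk dm_256_ok)) (Bad.splitRM (Bad.chk dm_275_ok) (Bad.chk dm_276_ok)))) (Bad.splitR 144 (by norm_num) (by norm_num) (Bad.splitR 136 (by norm_num) (by norm_num) (Bad.splitRM (Bad.chk dm_213_ok) (Bad.chk dm_214_ok)) (Bad.splitRM (Bad.chk dm_235_ok) (Bad.chk dm_236_ok))) (Bad.splitR 155 (by norm_num) (by norm_num) (Bad.splitRM (Bad.chk dm_257_ok) (Bad.chk dm_258_ok)) (Bad.splitRM (Bad.chk dm_277_ok) (Bad.chk dm_278_ok))))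

theorem cvm_17 : Bad 1 0 0 1606 50463 128 166 :=
  Bad.splitT 27997 (by norm_num) (Bad.splitT 19661 (by norm_num) (cvm_13) (Bad.splitT 22119 (by norm_num) (Bad.splitR 144 (by norm_num) (by norm_num) (Bad.splitR 136 (by norm_num) (by norm_num) (Bad.splitRM (Bad.chk dm_199_ok) (Bad.chk dm_200_ok)) (Bad.splitRM (Bad.chk dm_221_ok) (Bad.chk dm_222_ok))) (Bad.splitR 155 (by norm_num) (by norm_num) (Bad.splitRM (Bad.chk dm_243_ok) (Bad.chk dm_244_ok)) (Bad.splitRM (Bad.chk dm_263_ok) (Bad.chk dm_264_ok)))) (cvm_14))) (Bad.splitT 35437 (by norm_num) (cvm_15) (Bad.splitT 39868 (by norm_num) (Bad.splitR 144 (by norm_num) (by norm_num) (Bad.splitR 136 (by norm_num) (by norm_num) (Bad.splitRM (Bad.chk dm_209_ok) (Bad.chk dm_210_ok)) (Bad.splitRM (Bad.chk dm_231_ok) (Bad.chk dm_232_ok))) (Bad.splitR 155 (by norm_num) (by norm_num) (Bad.splitRM (Bad.chk dm_253_ok) (Bad.chk dm_254_ok)) (Bad.splitRM (Bad.chk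 dm_273_ok) (Bad.chk dm_274_ok)))) (cvm_16)))

theorem cvm_18 : Bad 0 0 0 1606 31982 166 230 :=
  Bad.splitT 23123 (by norm_num) (Bad.splitT 19661 (by norm_num) (Bad.splitT 9830 (by norm_num) (Bad.small (by norm_num) (by norm_num)) (Bad.splitR 178 (by norm_num) (by norm_num) (Bad.splitRM (Bad.splitT 13902 (by norm_num) (Bad.small (by norm_num) (by norm_num)) (Bad.chk dm_295_ok)) (Bad.chk dm_296_ok)) (Bad.splitR 192 (by norm_num) (by norm_num) (Bad.splitRM (Bad.splitT 13902 (by norm_num) (Bad.small (by norm_num) (by norm_num)) (Bad.chk dm_310_ok)) (Bad.chk dm_311_ok)) (Bad.splitRM (Bad.chk dm_324_ok) (Bad.chk dm_325_ok))))) (Bad.splitR 178 (by norm_num) (by norm_num) (Bad.splitRM (Bad.chk dm_283_ok) (Bad.chk dm_284_ok)) (Bad.splitR 192 (by norm_num) (by norm_num) (Bad.splitRM (Bad.chk dm_297_ok) (Bad.chk dm_298_ok)) (Bad.splitRM (Bad.chk dm_312_ok) (Bad.chk dm_313_ok))))) (Bad.splitT 27194 (by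 norm_num) (Bad.splitR 178 (by norm_num) (by norm_num) (Bad.splitRM (Bad.chk dm_285_ok) (Bad.chk dm_286_ok)) (Bad.splitR 192 (by norm_num) (by norm_num) (Bad.splitRM (Bad.chk dm_299_ok) (Bad.chk dm_300_ok)) (Bad.splitRM (Bad.chk dm_314_ok) (Bad.chk dm_315_ok)))) (Bad.splitR 178 (by norm_num) (by norm_num) (Bad.splitRM (Bad.chk dm_287_ok) (Bad.chk dm_288_ok)) (Bad.splitR 192 (by norm_num) (by norm_num) (Bad.splitRM (Bad.chk dm_301_ok) (Bad.chk dm_302_ok)) (Bad.splitRM (Bad.chk dm_316_ok) (Bad.chk dm_317_ok)))))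

theorem cvm_19 : Bad 0 0 0 31982 49814 166 230 :=
  Bad.splitT 37614 (by norm_num) (Bad.splitR 178 (by norm_num) (by norm_num) (Bad.splitRM (Bad.chk dm_289_ok) (Bad.chk dm_290_ok)) (Bad.splitR 192 (by norm_num) (by norm_num) (Bad.splitRM (Bad.chk dm_303_ok) (Bad.chk dm_304_ok)) (Bad.splitRM (Bad.chk dm_318_ok) (Bad.chk dm_319_ok)))) (Bad.splitT 44237 (by norm_num) (Bad.splitR 178 (by norm_num) (by norm_num) (Bad.splitRM (Bad.chk dm_291_ok) (Bad.chk dm_292_ok)) (Bad.splitR 192 (by norm_num) (by norm_num) (Bad.splitRM (Bad.chk dm_305_ok) (Bad.splitT 40791 (by norm_num) (Bad.chk dm_306_ok) (Bad.chk dm_307_ok))) (Bad.splitRM (Bad.chk dm_320_ok) (Bad.chk dm_321_ok)))) (Bad.splitR 178 (by norm_num) (by norm_num) (Bad.splitRM (Bad.chk dm_293_ok) (Bad.chk dm_294_ok)) (Bad.splitR 192 (by norm_num) (by norm_num) (Bad.splitRM (Bad.chk dm_308_ok) (Bad.chk dm_309_ok)) (Bad.splitRM (Bad.chk dm_322_ok) (Bad.chk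 dm_323_ok)))))

theorem bad_mv2 : Bad 2 0 0 1606 50463 64 128 :=
  cvm_12

theorem bad_mv1 : Bad 1 0 0 1606 50463 128 166 :=
  cvm_17

theorem bad_mv0a : Bad 0 0 0 1606 49814 166 230 :=
  Bad.splitT 31982 (by norm_num) (cvm_18) (cvm_19)

theorem bad_mv0b : Bad 0 0 0 1606 49814 230 300 :=
  Bad.splitT 31982 (by norm_num) (Bad.splitT 23123 (by norm_num) (Bad.splitT 19661 (by norm_num) (Bad.small (by norm_num) (by norm_num)) (Bad.splitRM (Bad.chk dm_326_ok) (Bad.chk dm_327_ok))) (Bad.splitT 27194 (by norm_num) (Bad.splitRM (Bad.chk dm_328_ok) (Bad.chk dm_329_ok)) (Bad.splitRM (Bad.chk dm_330_ok) (Bad.chk dm_331_ok)))) (Bad.splitT 37614 (by norm_num) (Bad.splitRM (Bad.chk dm_332_ok) (Bad.chk dm_333_ok)) (Bad.splitT 44237 (by norm_num) (Bad.splitRM (Bad.chk dm_334_ok) (Bad.chk dm_335_ok)) (Bad.splitRM (Bad.chk dm_336_ok) (Bad.chk dm_337_ok))))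

theorem bad_mv0c : Bad 0 0 0 1606 49814 300 0 :=
  Bad.splitT 31982 (by norm_num) (Bad.splitT 23123 (by norm_num) (Bad.splitT 19661 (by norm_num) (Bad.small (by norm_num) (by norm_num)) (Bad.splitRM (Bad.chk dm_338_ok) (Bad.chk dm_339_ok))) (Bad.splitT 27194 (by norm_num) (Bad.splitRM (Bad.chk dm_340_ok) (Bad.chk dm_341_ok)) (Bad.splitRM (Bad.chk dm_342_ok) (Bad.chk dm_343_ok)))) (Bad.splitT 37614 (by norm_num) (Bad.splitRM (Bad.chk dm_344_ok) (Bad.chk dm_345_ok)) (Bad.splitT 44237 (by norm_num) (Bad.splitRM (Bad.chk dm_346_ok) (Bad.chk dm_347_ok)) (Bad.splitRM (Bad.chk dm_348_ok) (Bad.chk dm_349_ok))))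

end Pool.Agent.MaxTerm59b
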