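import Pool.Agent.MaxTerm59b.MvB
import Pool.Agent.MaxTerm59b.MvC
import Pool.Agent.MaxTerm59b.PwS

/-! Mismatched vertex with a generic ratio: the normalised unknowns. -/

namespace Pool.Agent.MaxTerm59b
open Finset Pool.Agent.MaxTerm58

/-- parameters. Hint: `gi_surj`; `b / a` lies between `R0 / 64` and `R1 / 64` (solve the affine equation; any `s2` if
`R0 = R1`). -/
theorem exists_ctx {L : LMV} {a b : ℕ} {x : ℂ} {D : ℝ} {v : ℤ → ℂ} (G : GoodL L) (H : HypMV L.RM L.LM a b x D v)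
    (I : InCell L.nL L.T0 L.T1 L.R0 L.R1 a b x) : ∃ s1 s2 : ℝ, Ctx L a b x D v s1 s2 := by
  have hT0 : (0 : ℝ) < (L.T0 : ℝ) / 65536 := by
    have : (1024 : ℝ) ≤ L.T0 := by exact_mod_cast G.T
    positivity
  have h1 : (L.T0 : ℝ) / 65536 ≤ ‖x‖ ^ a := by
    rw [div_le_iff₀ (by norm_num)]
    have := I.t0
    linarith
  have h2 : ‖x‖ ^ a ≤ (L.T1 : ℝ) / 65536 := by
    rw [le_div_iff₀ (by norm_num)]
    have := I.t1
    linarith
  obtain ⟨s1, hs1, hs1'⟩ := gi_surj _ _ _ hT0 h1 h2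
  have ha : (0 : ℝ) < a := by exact_mod_cast H.ha
  have key : ∃ s2 : ℝ, |s2| ≤ 1 ∧ (L.R1 = 0 ∨ (b : ℝ) / a = ai ((L.R0 : ℝ) / 64) ((L.R1 : ℝ) / 64) s2) := by
    rcases I.r1 with hR | hR
    · exact ⟨0, by norm_num, Or.inl hR⟩
    · have r0 : (L.R0 : ℝ) / 64 ≤ (b : ℝ) / a := by
        rw [div_le_div_iff₀ (by norm_num) ha]
        have : ((L.R0 * a : ℕ) : ℝ) ≤ ((64 * b : ℕ) : ℝ) := by exact_mod_cast I.r0
        push_cast at this
        linarith
      have r1 : (b : ℝ) / a ≤ (L.R1 : ℝ) / 64 := by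
        rw [div_le_div_iff₀ ha (by norm_num)]
        have : ((64 * b : ℕ) : ℝ) ≤ ((L.R1 * a : ℕ) : ℝ) := by exact_mod_cast hR
        push_cast at this
        linarith
      generalize (L.R0 : ℝ) / 64 = A0 at r0
      generalize (L.R1 : ℝ) / 64 = A1 at r1
      generalize (b : ℝ) / a = ρ at r0 r1
      rcases eq_or_lt_of_le (r0.trans r1) with he | he
      · refine ⟨0, by norm_num, Or.inr ?_⟩
        unfold ai
        have : ρ = A0 := le_antisymm (by rw [he]; exact r1) r0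
        rw [this, ← he]
        ring
      · have hd : 0 < A1 - A0 := by linarith
        refine ⟨(2 * ρ - A0 - A1) / (A1 - A0), ?_, Or.inr ?_⟩
        · rw [abs_le]
          constructor
          · rw [le_div_iff₀ hd]; linarith
          · rw [div_le_iff₀ hd]; linarith
        · unfold ai
          field_simp
          ring
  obtain ⟨s2, hs2, hs2'⟩ := key
  exact ⟨s1, s2, ⟨G, H, I, hs1, hs2, hs1'.symm, hs2'⟩⟩

variable {L : LMV} {a b : ℕ} {x : ℂ} {D : ℝ} {v : ℤ → ℂ} {s1 s2 : ℝ}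

/-- `D ≤ Dt` (`D_le_Dt` with the fields of `HypM`) -/
theorem Ctx.D_le (C : Ctx L a b x D v s1 s2) : D ≤ Dt L s1 :=
  D_le_Dt C.G a x D s1 C.h1 C.ht C.H.M.hD C.H.hD3

private theorem MvD_t0 (C : Ctx L a b x D v s1 s2) : 0 < (L.T0 : ℝ) / 65536 := by
  have : (1024 : ℝ) ≤ L.T0 := by exact_mod_cast C.G.T
  positivity

private theorem MvD_t1 (C : Ctx L a b x D v s1 s2) : 0 < (L.T1 : ℝ) / 65536 := by
  obtain ⟨a1, a2, a3, a4, a5, a6, a7, a8, b1, b2, c1, c2, c3, d1, d2, d3, d4, e1⟩ := C.G.facts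
  have : (1024 : ℝ) ≤ L.T1 := by exact_mod_cast C.G.T.trans c2
  positivity

theorem Ctx.psO_pos (C : Ctx L a b x D v s1 s2) (i j : ℕ) : 0 < psO L i j s1 s2 := by
  unfold psO
  exact mul_pos (psB_pos i j _) (Real.rpow_pos_of_pos (gi_pos _ _ _ (MvD_t0 C) (MvD_t1 C)) _)

private theorem MvD_lm2 (L : LMV) (i j : ℕ) :
    lm2 L i j = lm L i j ∨ (lmd L i j = 1 ∧ 256 < lm L i j ∧ lm2 L i j = 2 * lm L i j - 256) := by
  unfold lm2
  generalize lgrp L i j = g
  generalize lmd L i j = md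
  generalize lm L i j = m
  unfold m2L
  rcases h1 : Nat.beq md 1 with _ | _
  · left; rfl
  · cases g
    · rcases h2 : Nat.blt 256 m with _ | _
      · left; rfl
      · right
        refine ⟨Nat.eq_of_beq_eq_true h1, ?_, rfl⟩
        rwa [Nat.blt_eq] at h2
    · left; rfl

private theorem MvD_lm2_zero (L : LMV) (i j : ℕ) (h : lm L i j = 0) : lm2 L i j = 0 := by
  rcases MvD_lm2 L i j with h1 | h1
  · rw [h1, h]
  · omega

private theorem MvD_lm2_real (L : LMV) (i j : ℕ) :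
    (lm2 L i j : ℝ) / 256 = (lm L i j : ℝ) / 256 ∨
    (lmd L i j = 1 ∧ 1 ≤ (lm L i j : ℝ) / 256 ∧ (lm2 L i j : ℝ) / 256 = 2 * ((lm L i j : ℝ) / 256) - 1) := by
  rcases MvD_lm2 L i j with h | ⟨h1, h2, h3⟩
  · left; rw [h]
  · right
    refine ⟨h1, ?_, ?_⟩
    · rw [le_div_iff₀ (by norm_num)]
      have : (256 : ℝ) < lm L i j := by exact_mod_cast h2
      linarith
    · have h4 : lm2 L i j + 256 = 2 * lm L i j := by omega
      have h5 : (lm2 L i j : ℝ) + 256 = 2 * lm L i j := by exact_mod_cast h4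
      have : (lm2 L i j : ℝ) = 2 * lm L i j - 256 := by linarith
      rw [this]
      ring

private theorem MvD_lmd_t (L : LMV) (i j : ℕ) (h : lrt L i j = true) : lmd L i j = L.RM := by
  unfold lmd
  rw [h]
  rfl

private theorem MvD_lmd_f (L : LMV) (i j : ℕ) (h : lrt L i j = false) : lmd L i j = L.LM := by
  unfold lmd
  rw [h]
  rfl

/-- sizes of the coefficients: exponent `lm2` (`m2L`: `2 m - 256` in the mode `1` outside of the group if `m > 256`) -/
theorem Ctx.size (C : Ctx L a b x D v s1 s2) {i j : ℕ} (hl : LabC L i j) : ‖v (nI a b i j)‖ ≤ psB L i j s1 := by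
  have hD := C.D_le
  have hD0 := (C.H.D01).1
  have hge := psB_ge C.G s1 C.h1 i j
  obtain ⟨hr, hf⟩ := lab_size C.H.ha C.H.hab C.I hl
  have hpow : D ^ ((lm2 L i j : ℝ) / 256) ≤ Dt L s1 ^ ((lm2 L i j : ℝ) / 256) :=
    Real.rpow_le_rpow hD0 hD (by positivity)
  refine le_trans ?_ (hpow.trans hge)
  by_cases hz : lm L i j = 0
  · rw [MvD_lm2_zero L i j hz]
    simpa using C.H.v_le_one (nI a b i j)
  · rcases hrt : lrt L i j with _ | _
    · rcases hf hrt with h | ⟨h1, h2⟩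
      · exact absurd h hz
      · have h2' : (lm L i j : ℝ) * a ≤ 256 * (-(nI a b i j : ℝ) - a) := by exact_mod_cast h2
        have := C.H.size_L (nI a b i j) h1 ((lm L i j : ℝ) / 256) (by positivity) (by linarith)
        rcases MvD_lm2_real L i j with h | ⟨h3, h4, h5⟩
        · rw [h]; exact this.1
        · rw [h5]
          rw [MvD_lmd_f L i j hrt] at h3
          exact this.2 h3 h4
    · rcases hr hrt with h | ⟨h1, h2⟩
      · exact absurd h hz
      · have h2' : (lm L i j : ℝ) * b ≤ 256 * ((nI a b i j : ℝ) - b) := by exact_mod_cast h2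
        have := C.H.size_R (nI a b i j) h1 ((lm L i j : ℝ) / 256) (by positivity) (by linarith)
        rcases MvD_lm2_real L i j with h | ⟨h3, h4, h5⟩
        · rw [h]; exact this.1
        · rw [h5]
          rw [MvD_lmd_t L i j hrt] at h3
          exact this.2 h3 h4

private theorem MvD_x0 (C : Ctx L a b x D v s1 s2) : x ≠ 0 := C.H.M.x0

/-- the power of the norm in the case of an exact exponent -/
private theorem MvD_psO (C : Ctx L a b x D v s1 s2) {i j : ℕ} (hl : LabC L i j) (hn : ¬ (L.nL = 0 ∧ i ≠ 32)) :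
    psO L i j s1 s2 = psB L i j s1 * ‖x‖ ^ (if lrt L i j then nI a b i j else -nI a b i j) := by
  have h := (lab_exp C.H.ha C.H.hab C.I hl s2 C.h2 C.hr).2 hn
  unfold psO
  rw [h, ← C.ht, xpow_eq C.H.ha (MvD_x0 C)]
  congr 2
  unfold posA
  rcases hrt : lrt L i j with _ | _
  · simp
  · simp

private theorem MvD_comm (i j : ℕ) : jI j * (a : ℤ) + iI i * b = nI a b i j := by
  unfold nI
  ring

private theorem MvD_comm' (i j : ℕ) : iI i * (b : ℤ) + jI j * a = nI a b i j := rfl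

/-- right corner -/
theorem Ctx.xL_right (C : Ctx L a b x D v s1 s2) {i j : ℕ} (hl : LabC L i j) (hj : 61 ≤ j ∧ j ≤ 67) :
    cR a b x v (jI j) (iI i) = (psR L i j s1 s2 : ℂ) * xL L a b x v s1 s2 i j := by
  have hB : (psB L i j s1 : ℂ) ≠ 0 := by
    exact_mod_cast (psB_pos (L := L) i j s1).ne'
  have hO : (psO L i j s1 s2 : ℂ) ≠ 0 := by
    exact_mod_cast (C.psO_pos i j).ne'
  rcases hrt : lrt L i j with _ | _
  · by_cases hn : L.nL = 0 ∧ i ≠ 32
    · unfold psR xL
      rw [hrt]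
      simp only [Bool.false_eq_true, if_false]
      rw [if_pos hn]
      field_simp
    · have h := MvD_psO C hl hn
      rw [hrt] at h
      simp only [Bool.false_eq_true, if_false] at h
      have hc := cL_eq (a := a) (b := b) (v := v) (MvD_x0 C) (iI i) (jI j)
      rw [MvD_comm' i j] at hc
      unfold psR xL
      rw [hrt]
      simp only [Bool.false_eq_true, if_false]
      rw [if_neg hn, hc, h]
      have hx : (‖x‖ : ℝ) ≠ 0 := norm_ne_zero_iff.2 (MvD_x0 C)
      have e1 : ((‖x‖ ^ (-nI a b i j) : ℝ) : ℂ) * ((‖x‖ ^ nI a b i j : ℝ) : ℂ) = 1 := by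
        rw [← Complex.ofReal_mul, zpow_neg, inv_mul_cancel₀ (zpow_ne_zero _ hx), Complex.ofReal_one]
      rw [Complex.ofReal_mul]
      have e2 : (psB L i j s1 : ℂ) * ((‖x‖ ^ (-nI a b i j) : ℝ) : ℂ) *
          (((‖x‖ ^ nI a b i j : ℝ) : ℂ) * cR a b x v (jI j) (iI i) / (psB L i j s1 : ℂ)) =
          (((‖x‖ ^ (-nI a b i j) : ℝ) : ℂ) * ((‖x‖ ^ nI a b i j : ℝ) : ℂ)) * cR a b x v (jI j) (iI i) := by
        field_simp
      rw [e2, e1, one_mul]
  · unfold psR xL
    rw [hrt]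
    simp only [if_true]
    field_simp

/-- left corner -/
theorem Ctx.xL_left (C : Ctx L a b x D v s1 s2) {i j : ℕ} (hl : LabC L i j) (hi : 32 ≤ i + L.nL ∧ i ≤ 32 + L.nL) :
    cL a b x v (iI i) (jI j) = (psL L i j s1 s2 : ℂ) * xL L a b x v s1 s2 i j := by
  have hB : (psB L i j s1 : ℂ) ≠ 0 := by
    exact_mod_cast (psB_pos (L := L) i j s1).ne'
  have hn : ¬ (L.nL = 0 ∧ i ≠ 32) := by omega
  rcases hrt : lrt L i j with _ | _
  · unfold psL xL
    rw [hrt]
    simp only [Bool.false_eq_true, if_false]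
    rw [if_neg hn]
    field_simp
  · have h := MvD_psO C hl hn
    rw [hrt] at h
    simp only [if_true] at h
    have hc := cL_eq (a := a) (b := b) (v := v) (MvD_x0 C) (iI i) (jI j)
    rw [MvD_comm' i j] at hc
    unfold psL xL
    rw [hrt]
    simp only [if_true]
    rw [hc, h, Complex.ofReal_mul]
    field_simp

private theorem MvD_div (z : ℂ) (p : ℝ) (hp : 0 < p) (h : ‖z‖ ≤ p) : ‖z / (p : ℂ)‖ ≤ 1 := by
  rw [norm_div, Complex.norm_real, Real.norm_eq_abs, abs_of_pos hp, div_le_one hp]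
  exact h

theorem Ctx.xL_norm (C : Ctx L a b x D v s1 s2) {i j : ℕ} (hl : LabC L i j) : ‖xL L a b x v s1 s2 i j‖ ≤ 1 := by
  have hs := C.size hl
  obtain ⟨hR, hF⟩ := lab_sign C.H.ha C.H.hab C.I hl
  rcases hrt : lrt L i j with _ | _
  · have hneg := hF hrt
    by_cases hn : L.nL = 0 ∧ i ≠ 32
    · unfold xL
      rw [hrt]
      simp only [Bool.false_eq_true, if_false]
      rw [if_pos hn]
      refine MvD_div _ _ (C.psO_pos i j) ?_
      rw [cR_norm (MvD_x0 C), MvD_comm i j]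
      unfold psO
      rw [← C.ht]
      have hx := C.H.x01
      have hxa0 : 0 < ‖x‖ ^ a := pow_pos hx.1 a
      have hxa1 : ‖x‖ ^ a ≤ 1 := pow_le_one₀ hx.1.le hx.2.le
      refine mul_le_mul hs ?_ (by positivity) (psB_pos i j _).le
      have h1 := (lab_exp C.H.ha C.H.hab C.I hl s2 C.h2 C.hr).1 hn
      have h2 : (‖x‖ ^ a) ^ posA L a b i j ≤
          (‖x‖ ^ a) ^ ai ((lq0 L i j : ℝ) / 256) ((lq1 L i j : ℝ) / 256) s2 :=
        Real.rpow_le_rpow_of_exponent_ge hxa0 hxa1 h1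
      refine le_trans (le_of_eq ?_) h2
      have h3 := xpow_eq C.H.ha (MvD_x0 C) (-nI a b i j)
      have h4 : ‖x‖ ^ (-nI a b i j) = ‖x‖ ^ (-nI a b i j).toNat := by
        rw [← zpow_natCast, Int.toNat_of_nonneg (by omega)]
      rw [← h4, h3]
      congr 1
      unfold posA
      rw [hrt]
      simp
    · unfold xL
      rw [hrt]
      simp only [Bool.false_eq_true, if_false]
      rw [if_neg hn]
      refine MvD_div _ _ (psB_pos i j _) ?_
      rw [cL_norm (MvD_x0 C), MvD_comm' i j, Int.toNat_of_nonpos hneg, pow_zero, mul_one]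
      exact hs
  · have hpos := hR hrt
    unfold xL
    rw [hrt]
    simp only [if_true]
    refine MvD_div _ _ (psB_pos i j _) ?_
    rw [cR_norm (MvD_x0 C), MvD_comm i j, Int.toNat_of_nonpos (by omega), pow_zero, mul_one]
    exact hs

private theorem MvD_psR_pos (C : Ctx L a b x D v s1 s2) (i j : ℕ) : 0 < psR L i j s1 s2 := by
  unfold psR
  split_ifs
  · exact psB_pos i j _
  · exact C.psO_pos i j

private theorem MvD_psL_pos (C : Ctx L a b x D v s1 s2) (i j : ℕ) : 0 < psL L i j s1 s2 := by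
  unfold psL
  split_ifs
  · exact C.psO_pos i j
  · exact psB_pos i j _

/-- the corner coefficients of a label are bounded by the values -/
theorem Ctx.cR_le (C : Ctx L a b x D v s1 s2) {i j : ℕ} (hl : LabC L i j) (hj : 61 ≤ j ∧ j ≤ 67) :
    ‖cR a b x v (jI j) (iI i)‖ ≤ psR L i j s1 s2 := by
  have hp := MvD_psR_pos C i j
  rw [C.xL_right hl hj, norm_mul, Complex.norm_real, Real.norm_eq_abs, abs_of_pos hp]
  calc psR L i j s1 s2 * ‖xL L a b x v s1 s2 i j‖ ≤ psR L i j s1 s2 * 1 :=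
        mul_le_mul_of_nonneg_left (C.xL_norm hl) hp.le
    _ = _ := mul_one _

theorem Ctx.cL_le (C : Ctx L a b x D v s1 s2) {i j : ℕ} (hl : LabC L i j) (hi : 32 ≤ i + L.nL ∧ i ≤ 32 + L.nL) :
    ‖cL a b x v (iI i) (jI j)‖ ≤ psL L i j s1 s2 := by
  have hp := MvD_psL_pos C i j
  rw [C.xL_left hl hi, norm_mul, Complex.norm_real, Real.norm_eq_abs, abs_of_pos hp]
  calc psL L i j s1 s2 * ‖xL L a b x v s1 s2 i j‖ ≤ psL L i j s1 s2 * 1 :=
        mul_le_mul_of_nonneg_left (C.xL_norm hl) hp.le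
    _ = _ := mul_one _

private theorem MvD_mx4 (f : Bool → Bool → ℕ) (b1 b2 : Bool) : f b1 b2 ≤ mx4 f := by
  unfold mx4
  simp only [maxN_eq]
  cases b1 <;> cases b2 <;> simp

private theorem MvD_mx4R (f : Bool → Bool → ℕ) (b1 b2 : Bool) : (f b1 b2 : ℝ) ≤ (mx4 f : ℝ) := by
  exact_mod_cast MvD_mx4 f b1 b2

/-- the power of `t` at an end of the cell -/
private theorem MvD_mon (G : GoodL L) (q : ℕ) (c : Bool) :
    2 ^ 40 * ((if c then (L.T1 : ℝ) / 65536 else (L.T0 : ℝ) / 65536)) ^ ((q : ℝ) / 256) ≤ (monT L q c : ℝ) + 5 / 4 := by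
  obtain ⟨a1, a2, a3, a4, a5, a6, a7, a8, b1, b2, c1, c2, c3, d1, d2, d3, d4, e1⟩ := G.facts
  have hT0 : (1024 : ℝ) ≤ L.T0 := by exact_mod_cast G.T
  have hT1 : (1024 : ℝ) ≤ L.T1 := by exact_mod_cast G.T.trans c2
  have hT1' : (L.T1 : ℝ) < 65536 := by exact_mod_cast G.T'
  have hT0' : (L.T0 : ℝ) < 65536 := by exact_mod_cast lt_of_le_of_lt c2 G.T'
  unfold monT
  rcases Nat.eq_zero_or_pos q with hq | hq
  · subst hq
    simp
    norm_num
  · have hb : Nat.beq q 0 = false := by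
      rcases q with _ | k
      · omega
      · rfl
    rw [hb, cond_false]
    cases c
    · have h := (powr_floor L.t0 ((L.T0 : ℝ) / 65536) (by rw [G.a0]; push_cast; ring)
        (by rw [div_le_div_iff₀ (by norm_num) (by norm_num)]; linarith)
        (by rw [div_lt_one (by norm_num)]; exact hT0') a1 a2 q).1
      rw [abs_le] at h
      simp only [Bool.false_eq_true, if_false, cond_false]
      linarith [h.1]
    · have h := (powr_floor L.t1 ((L.T1 : ℝ) / 65536) (by rw [G.a1]; push_cast; ring)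
        (by rw [div_le_div_iff₀ (by norm_num) (by norm_num)]; linarith)
        (by rw [div_lt_one (by norm_num)]; exact hT1') a3 a4 q).1
      rw [abs_le] at h
      simp only [if_true, cond_true]
      linarith [h.1]

/-- the product at a corner of the cell -/
private theorem MvD_cor (G : GoodL L) (m q : ℕ) (c : Bool) :
    szV L m c * ((if c then (L.T1 : ℝ) / 65536 else (L.T0 : ℝ) / 65536)) ^ ((q : ℝ) / 256) ≤
      ((Nat.shiftRight (Nat.mul (sizeS L m c) (monT L q c)) 40 : ℕ) + 8 : ℝ) / 2 ^ 40 := by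
  have h1 := MvD_mon G q c
  have h2 := szV_le G m c
  have h3 := szV_pos (L := L) m c
  rw [le_div_iff₀ (by positivity)]
  set P := ((if c then (L.T1 : ℝ) / 65536 else (L.T0 : ℝ) / 65536)) ^ ((q : ℝ) / 256) with hP
  have h4 : szV L m c * P * 2 ^ 40 ≤ szV L m c * ((monT L q c : ℝ) + 5 / 4) := by
    have := mul_le_mul_of_nonneg_left h1 h3.le
    linarith
  have h5 : szV L m c * (monT L q c : ℝ) = ((sizeS L m c * monT L q c : ℕ) : ℝ) / 2 ^ 40 := by
    unfold szV
    push_cast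
    ring
  have h6 : ((sizeS L m c * monT L q c : ℕ) : ℝ) / 2 ^ 40 ≤
      ((Nat.shiftRight (Nat.mul (sizeS L m c) (monT L q c)) 40 : ℕ) : ℝ) + 1 := by
    have e : Nat.shiftRight (Nat.mul (sizeS L m c) (monT L q c)) 40 = (sizeS L m c * monT L q c) / 2 ^ 40 :=
      Nat.shiftRight_eq_div_pow _ _
    rw [e, div_le_iff₀ (by positivity)]
    generalize sizeS L m c * monT L q c = N
    have h7 : N ≤ (N / 2 ^ 40 + 1) * 2 ^ 40 := by
      have := Nat.div_add_mod N (2 ^ 40)
      have h8 := Nat.mod_lt N (show 2 ^ 40 > 0 by norm_num)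
      rw [add_mul, one_mul, mul_comm (N / 2 ^ 40)]
      omega
    exact_mod_cast h7
  have h9 : szV L m c * ((monT L q c : ℝ) + 5 / 4) = szV L m c * (monT L q c : ℝ) + szV L m c * (5 / 4) := by ring
  rw [h9, h5] at h4
  linarith

private theorem MvD_B_le (s1 : ℝ) (h1 : |s1| ≤ 1) (i j : ℕ) (M : ℝ) (h : ∀ c : Bool, szV L (lm2 L i j) c ≤ M) :
    psB L i j s1 ≤ M := by
  unfold psB
  exact (gi_le_max _ _ s1 h1 (szV_pos _ _) (szV_pos _ _)).trans (max_le (h false) (h true))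

private theorem MvD_O_le (C : Ctx L a b x D v s1 s2) (i j : ℕ) :
    psO L i j s1 s2 ≤ ((mx4 (vO L (lm2 L i j) (lq0 L i j) (lq1 L i j)) : ℕ) + 8 : ℝ) / 2 ^ 40 := by
  have t0 := MvD_t0 C
  have t1 := MvD_t1 C
  unfold psO
  set m := lm2 L i j with hm
  set q0 := lq0 L i j with hq0
  set q1 := lq1 L i j with hq1
  set θ := ai ((q0 : ℝ) / 256) ((q1 : ℝ) / 256) s2 with hθ
  rw [← gi_rpow _ _ _ _ t0 t1]
  unfold psB
  rw [← hm, ← gi_mul _ _ _ _ _ (szV_pos _ _) (szV_pos _ _) (Real.rpow_pos_of_pos t0 _) (Real.rpow_pos_of_pos t1 _)]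
  refine (gi_le_max _ _ s1 C.h1 (mul_pos (szV_pos _ _) (Real.rpow_pos_of_pos t0 _))
    (mul_pos (szV_pos _ _) (Real.rpow_pos_of_pos t1 _))).trans ?_
  have hsplit : ∀ t : ℝ, 0 < t → t ^ θ ≤ max (t ^ ((q0 : ℝ) / 256)) (t ^ ((q1 : ℝ) / 256)) := by
    intro t ht
    have e : t ^ θ = gi (t ^ ((q0 : ℝ) / 256)) (t ^ ((q1 : ℝ) / 256)) s2 := by
      unfold gi
      rw [← Real.rpow_mul ht.le, ← Real.rpow_mul ht.le, ← Real.rpow_add ht, hθ]
      congr 1
      unfold ai
      ring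
    rw [e]
    exact gi_le_max _ _ s2 C.h2 (Real.rpow_pos_of_pos ht _) (Real.rpow_pos_of_pos ht _)
  have hcor : ∀ c c2 : Bool, szV L m c *
      ((if c then (L.T1 : ℝ) / 65536 else (L.T0 : ℝ) / 65536)) ^ (((cond c2 q1 q0 : ℕ) : ℝ) / 256) ≤
      ((mx4 (vO L m q0 q1) : ℕ) + 8 : ℝ) / 2 ^ 40 := by
    intro c c2
    refine (MvD_cor C.G m (cond c2 q1 q0) c).trans ?_
    have := MvD_mx4R (vO L m q0 q1) c c2
    unfold vO at this ⊢
    gcongr
  refine max_le ?_ ?_
  · have h1 := mul_le_mul_of_nonneg_left (hsplit _ t0) (szV_pos (L := L) m false).le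
    refine h1.trans ?_
    rw [mul_max_of_nonneg _ _ (szV_pos (L := L) m false).le]
    refine max_le ?_ ?_
    · simpa using hcor false false
    · simpa using hcor false true
  · have h1 := mul_le_mul_of_nonneg_left (hsplit _ t1) (szV_pos (L := L) m true).le
    refine h1.trans ?_
    rw [mul_max_of_nonneg _ _ (szV_pos (L := L) m true).le]
    refine max_le ?_ ?_
    · simpa using hcor true false
    · simpa using hcor true true

private theorem MvD_B_le' (C : Ctx L a b x D v s1 s2) (i j : ℕ) :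
    psB L i j s1 ≤ ((mx4 (vB L (lm2 L i j)) : ℕ) + 8 : ℝ) / 2 ^ 40 := by
  refine MvD_B_le s1 C.h1 i j _ fun c => ?_
  have := MvD_mx4R (vB L (lm2 L i j)) c false
  unfold szV
  unfold vB at this ⊢
  have h8 : (sizeS L (lm2 L i j) c : ℝ) ≤ (mx4 (fun b1 _ => sizeS L (lm2 L i j) b1) : ℕ) + 8 := by linarith
  gcongr

/-- the values are at most the maximum over the four corners of the cell -/
theorem Ctx.psR_le (C : Ctx L a b x D v s1 s2) {i j : ℕ} (hl : LabC L i j) :
    psR L i j s1 s2 ≤ ((mx4 (lab L i j).r : ℕ) + 8 : ℝ) / 2 ^ 40 := by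
  rw [lab_eq]
  unfold psR
  rcases hrt : lrt L i j with _ | _
  · simp only [Bool.false_eq_true, if_false, cond_false]
    exact MvD_O_le C i j
  · simp only [if_true, cond_true]
    exact MvD_B_le' C i j

theorem Ctx.psL_le (C : Ctx L a b x D v s1 s2) {i j : ℕ} (hl : LabC L i j) :
    psL L i j s1 s2 ≤ ((mx4 (lab L i j).l : ℕ) + 8 : ℝ) / 2 ^ 40 := by
  rw [lab_eq]
  unfold psL
  rcases hrt : lrt L i j with _ | _
  · simp only [Bool.false_eq_true, if_false, cond_false]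
    exact MvD_B_le' C i j
  · simp only [if_true, cond_true]
    exact MvD_O_le C i j

end Pool.Agent.MaxTerm59b
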