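import Pool.Agent.MaxTerm59b.Hyp
import Pool.Agent.MaxTerm59b.GiA

/-! Mismatched vertex with a generic ratio: hypotheses, class functions, meaning of the labels. -/

namespace Pool.Agent.MaxTerm59b
open Finset Pool.Agent.MaxTerm58

/-- outer data in the mode `md` (`0`: unknown, `1`: matched, `2`: mismatched) -/
def OutX (md g : ℕ) (D : ℝ) (r : ℕ → ℂ) : Prop :=
  (md = 0 ∧ OutA g D r) ∨ (md = 1 ∧ OutU g D r) ∨ (md = 2 ∧ OutN g D r)

structure HypMV (RM LM a b : ℕ) (x : ℂ) (D : ℝ) (v : ℤ → ℂ) : Prop where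
  ha : 0 < a
  hab : a < b
  h2 : b ≠ 2 * a
  h3 : b ≠ 3 * a
  h32 : 2 * b ≠ 3 * a
  M : HypM a b x D v
  hD3 : D ≤ 7501 / 10000 ∨ D ≤ ‖x‖ ^ a + 1 / 10000
  oR : OutX RM b D (fun i => v (b + 1 + (i : ℤ)))
  oL : OutX LM a D (fun i => v (-(a : ℤ) - 1 - (i : ℤ)))

/-- the parameters lie in the cell -/
structure InCell (nL T0 T1 R0 R1 a b : ℕ) (x : ℂ) : Prop where
  t0 : (T0 : ℝ) ≤ 65536 * ‖x‖ ^ a
  t1 : 65536 * ‖x‖ ^ a ≤ (T1 : ℝ)
  r0 : R0 * a ≤ 64 * b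
  r1 : R1 = 0 ∨ 64 * b ≤ R1 * a
  T0' : 1024 ≤ T0
  R0' : 64 ≤ R0
  nLc : nL = 0 ∨ (nL = 1 ∧ 0 < R1 ∧ R1 ≤ 192) ∨ (nL = 2 ∧ 0 < R1 ∧ R1 ≤ 128)
  Rinf : R1 = 0 → 256 ≤ R0

/-- right corner: class `d`, power `p` (position `p b + d a`) -/
noncomputable def cR (a b : ℕ) (x : ℂ) (v : ℤ → ℂ) (d p : ℤ) : ℂ :=
  v (d * a + p * b) * x ^ (-(d * a + p * b)).toNat * ((x / (‖x‖ : ℂ)) ^ a) ^ d

/-- left corner: class `d`, power `p` (position `d b + p a`) -/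
noncomputable def cL (a b : ℕ) (x : ℂ) (v : ℤ → ℂ) (d p : ℤ) : ℂ :=
  v (d * b + p * a) * x ^ (d * b + p * a).toNat * (((x / (‖x‖ : ℂ)) ^ b)⁻¹) ^ d

/-- label `(i', j')`: class and power -/
def iI (i : ℕ) : ℤ := (i : ℤ) - 32
def jI (j : ℕ) : ℤ := (j : ℤ) - 64

/-- position of the label -/
def nI (a b i j : ℕ) : ℤ := iI i * b + jI j * a

/-- position at the second ratio (or the substitute) -/
def p1L (L : LMV) (i j : ℕ) : ℕ := if L.R1 = 0 then posP L.R0 i j else posP L.R1 i j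
def n1L (L : LMV) (i j : ℕ) : ℕ := if L.R1 = 0 then posN L.R0 i j else posN L.R1 i j

/-- data of a label -/
def lrt (L : LMV) (i j : ℕ) : Bool := Bool.and (Nat.beq (posN L.R0 i j) 0) (Nat.beq (n1L L i j) 0)
def lmd (L : LMV) (i j : ℕ) : ℕ := cond (lrt L i j) L.RM L.LM
def lm (L : LMV) (i j : ℕ) : ℕ :=
  mE L (lrt L i j) i j (posP L.R0 i j) (posN L.R0 i j) (p1L L i j) (n1L L i j)
def lgrp (L : LMV) (i j : ℕ) : Bool := grpL L (lrt L i j) i j (lmd L i j) (lm L i j)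
def lm2 (L : LMV) (i j : ℕ) : ℕ := m2L (lgrp L i j) (lmd L i j) (lm L i j)
def lq0 (L : LMV) (i j : ℕ) : ℕ :=
  qL L (lrt L i j) i (posP L.R0 i j) (posN L.R0 i j) (p1L L i j) (n1L L i j) (posP L.R0 i j) (posN L.R0 i j)
def lq1 (L : LMV) (i j : ℕ) : ℕ :=
  qL L (lrt L i j) i (posP L.R0 i j) (posN L.R0 i j) (p1L L i j) (n1L L i j) (p1L L i j) (n1L L i j)

theorem lab_eq (L : LMV) (i j : ℕ) : lab L i j =
    ⟨Bool.or (Bool.and (Nat.beq (posN L.R0 i j) 0) (Nat.beq (n1L L i j) 0))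
        (Bool.and (Nat.beq (posP L.R0 i j) 0) (Nat.beq (p1L L i j) 0)), lrt L i j, lgrp L i j,
      Bool.and (Bool.not (Nat.beq (lmd L i j) 1)) (Bool.not (Bool.and (Nat.beq (lmd L i j) 2) (unitL (lrt L i j) i j))),
      cond (lrt L i j) (vB L (lm2 L i j)) (vO L (lm2 L i j) (lq0 L i j) (lq1 L i j)),
      cond (lrt L i j) (vO L (lm2 L i j) (lq0 L i j) (lq1 L i j)) (vB L (lm2 L i j))⟩ := by
  by_cases h : L.R1 = 0
  · have hp : p1L L i j = posP L.R0 i j := if_pos h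
    have hn : n1L L i j = posN L.R0 i j := if_pos h
    have hb : Nat.beq L.R1 0 = true := by rw [h]; rfl
    unfold lq0 lq1 lm2 lgrp lm lmd lrt lab
    rw [hp, hn, hb]
    rfl
  · have hp : p1L L i j = posP L.R1 i j := if_neg h
    have hn : n1L L i j = posN L.R1 i j := if_neg h
    have hb : Nat.beq L.R1 0 = false := by
      rcases hR : L.R1 with _ | k
      · exact absurd hR h
      · rfl
    unfold lq0 lq1 lm2 lgrp lm lmd lrt lab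
    rw [hp, hn, hb]
    rfl

/-- size as a real number -/
noncomputable def szV (L : LMV) (m2 : ℕ) (b : Bool) : ℝ := (sizeS L m2 b : ℝ) / 2 ^ 40

/-- interpolated values of the two slots of a label -/
noncomputable def psB (L : LMV) (i j : ℕ) (s1 : ℝ) : ℝ := gi (szV L (lm2 L i j) false) (szV L (lm2 L i j) true) s1
noncomputable def psO (L : LMV) (i j : ℕ) (s1 s2 : ℝ) : ℝ :=
  psB L i j s1 * gi ((L.T0 : ℝ) / 65536) ((L.T1 : ℝ) / 65536) s1 ^ ai ((lq0 L i j : ℝ) / 256) ((lq1 L i j : ℝ) / 256) s2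
noncomputable def psR (L : LMV) (i j : ℕ) (s1 s2 : ℝ) : ℝ := if lrt L i j then psB L i j s1 else psO L i j s1 s2
noncomputable def psL (L : LMV) (i j : ℕ) (s1 s2 : ℝ) : ℝ := if lrt L i j then psO L i j s1 s2 else psB L i j s1

/-- normalised unknown of a label -/
noncomputable def xL (L : LMV) (a b : ℕ) (x : ℂ) (v : ℤ → ℂ) (s1 s2 : ℝ) (i j : ℕ) : ℂ :=
  if lrt L i j then cR a b x v (jI j) (iI i) / (psB L i j s1 : ℂ)
  else if L.nL = 0 ∧ i ≠ 32 then cR a b x v (jI j) (iI i) / (psO L i j s1 s2 : ℂ)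
  else cL a b x v (iI i) (jI j) / (psB L i j s1 : ℂ)

/-- the leaf and its tables -/
structure GoodL (L : LMV) : Prop where
  ok : okT L.T0 L.T1 L.t0 L.t1 L.D0 L.D1 = true
  a0 : L.t0.a = L.T0 * 2 ^ 34
  a1 : L.t1.a = L.T1 * 2 ^ 34
  T : 1024 ≤ L.T0
  T' : L.T1 < 65536

/-- the bound `D` as an interpolation -/
noncomputable def Dt (L : LMV) (s1 : ℝ) : ℝ := gi ((L.D0.a : ℝ) / 2 ^ 50) ((L.D1.a : ℝ) / 2 ^ 50) s1

/-- a configuration in a leaf, with its parameters -/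
structure Ctx (L : LMV) (a b : ℕ) (x : ℂ) (D : ℝ) (v : ℤ → ℂ) (s1 s2 : ℝ) : Prop where
  G : GoodL L
  H : HypMV L.RM L.LM a b x D v
  I : InCell L.nL L.T0 L.T1 L.R0 L.R1 a b x
  h1 : |s1| ≤ 1
  h2 : |s2| ≤ 1
  ht : ‖x‖ ^ a = gi ((L.T0 : ℝ) / 65536) ((L.T1 : ℝ) / 65536) s1
  hr : L.R1 = 0 ∨ (b : ℝ) / a = ai ((L.R0 : ℝ) / 64) ((L.R1 : ℝ) / 64) s2

/-- a label whose sign is constant on the cell, in one of the classes -/
structure LabC (L : LMV) (i j : ℕ) : Prop where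
  ok : (lab L i j).ok = true
  cls : (61 ≤ j ∧ j ≤ 67) ∨ (32 ≤ i + L.nL ∧ i ≤ 32 + L.nL)

end Pool.Agent.MaxTerm59b
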