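import Pool.Agent.MaxTerm59b.MvE

/-! Mismatched vertex with a generic ratio: the balls. -/

namespace Pool.Agent.MaxTerm59b
open Finset Pool.Agent.MaxTerm58

variable {L : LMV} {a b : ℕ} {x : ℂ} {D : ℝ} {v : ℤ → ℂ} {s1 s2 : ℝ}

/-- left ball. Labels with `lrt = false` and `lgrp = true`: `i = 32` if `nL = 0`, so `xL = cL / psB`. -/
theorem Ctx.ball_L (C : Ctx L a b x D v s1 s2) (S : Finset (ℕ × ℕ))
    (hS : ∀ l ∈ S, LabC L l.1 l.2 ∧ lrt L l.1 l.2 = false ∧ lgrp L l.1 l.2 = true) :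
    ∃ u : ℕ × ℕ, (u ∈ S → (lab L u.1 u.2).cu = true) ∧
      ∑ l ∈ S.erase u, ‖xL L a b x v s1 s2 l.1 l.2‖ ^ 2 ≤ (L.E : ℝ) / 2 ^ 40 := by
  have ha := C.H.ha
  have hab := C.H.hab
  have hx : x ≠ 0 := C.H.M.x0
  have hnL : L.nL = 0 ∨ L.nL = 1 ∨ L.nL = 2 := by
    rcases C.I.nLc with h | ⟨h, -⟩ | ⟨h, -⟩
    · exact Or.inl h
    · exact Or.inr (Or.inl h)
    · exact Or.inr (Or.inr h)
  have win : ∀ l ∈ S, (L.nL = 0 ∧ l.1 = 32) ∨ (L.nL = 1 ∧ 32 ≤ l.1 ∧ l.1 ≤ 33) ∨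
      (L.nL = 2 ∧ 31 ≤ l.1 ∧ l.1 ≤ 33) := by
    intro l hl
    obtain ⟨-, h2, h3⟩ := hS l hl
    have h4 := (C.grp_facts h3).1
    rw [h2] at h4
    unfold inWin at h4
    rw [cond_false, Bool.and_eq_true, Nat.ble_eq, Nat.ble_eq] at h4
    rcases hnL with h | h | h
    · rw [h] at h4
      have e1 : Nat.sub 32 (Nat.div 0 2) = 32 := by decide
      have e2 : Nat.add 32 (minN 0 1) = 32 := by decide
      rw [e1, e2] at h4
      exact Or.inl ⟨h, by omega⟩
    · rw [h] at h4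
      have e1 : Nat.sub 32 (Nat.div 1 2) = 32 := by decide
      have e2 : Nat.add 32 (minN 1 1) = 33 := by decide
      rw [e1, e2] at h4
      exact Or.inr (Or.inl ⟨h, h4⟩)
    · rw [h] at h4
      have e1 : Nat.sub 32 (Nat.div 2 2) = 31 := by decide
      have e2 : Nat.add 32 (minN 2 1) = 33 := by decide
      rw [e1, e2] at h4
      exact Or.inr (Or.inr ⟨h, h4⟩)
  have pos : ∀ l ∈ S, nI a b l.1 l.2 < -(a : ℤ) ∧
      (lm L l.1 l.2 : ℤ) * a ≤ 256 * (-nI a b l.1 l.2 - a) := by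
    intro l hl
    obtain ⟨h1, h2, h3⟩ := hS l hl
    have h4 : 0 < lm L l.1 l.2 := (C.grp_facts h3).2.2.1
    rcases (lab_size ha hab C.I h1).2 h2 with h5 | ⟨h5, h6⟩
    · omega
    · refine ⟨?_, h6⟩
      have h7 : (1 : ℤ) ≤ (lm L l.1 l.2 : ℤ) * a := by
        have : 1 ≤ lm L l.1 l.2 * a := Nat.mul_pos h4 ha
        exact_mod_cast this
      omega
  set k : ℕ × ℕ → ℕ := fun l => (-nI a b l.1 l.2 - a - 1).toNat with hk
  have kp : ∀ l ∈ S, (k l : ℤ) = -nI a b l.1 l.2 - a - 1 := by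
    intro l hl
    have := (pos l hl).1
    rw [hk]
    exact Int.toNat_of_nonneg (by omega)
  have hunit : nI a b 32 62 = -(2 * a) := by
    unfold nI iI jI
    push_cast
    ring
  have unit : ∀ l ∈ S, k l + 1 = a → l.1 = 32 ∧ l.2 = 62 := by
    intro l hl h
    have h1 := kp l hl
    have h2 : nI a b l.1 l.2 = nI a b 32 62 := by
      rw [hunit]
      omega
    refine nI_inj ha hab C.H.h2 C.H.h3 C.H.h32 C.I h2 (Or.inr ?_)
    have := win l hl
    unfold iI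
    rw [abs_le]
    constructor <;> omega
  refine MvE_ball C S L.LM a ha _ C.H.oL k ?_ (fun l hl => (hS l hl).2.2) ?_ ?_ ?_ ?_ ?_
  · intro l hl l' hl' he
    have h1 := kp l hl
    have h2 := kp l' hl'
    have h3 : nI a b l.1 l.2 = nI a b l'.1 l'.2 := by
      rw [he] at h1
      omega
    have h4 := nI_inj ha hab C.H.h2 C.H.h3 C.H.h32 C.I h3 (Or.inr (by
      have w1 := win l hl
      have w2 := win l' hl'
      unfold iI
      rw [abs_le]
      constructor <;> omega))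
    exact Prod.ext h4.1 h4.2
  · intro h
    have := win _ h
    simp at this
  · intro l hl
    have h1 := kp l hl
    have h2 := (pos l hl).2
    have h3 : (lm L l.1 l.2 : ℤ) * a ≤ 256 * ((k l : ℤ) + 1) := by omega
    have h4 : (lm L l.1 l.2 : ℝ) * a ≤ 256 * ((k l : ℝ) + 1) := by exact_mod_cast h3
    linarith
  · intro l hl
    obtain ⟨h1, h2, h3⟩ := hS l hl
    have h4 : xL L a b x v s1 s2 l.1 l.2 = cL a b x v (iI l.1) (jI l.2) / (psB L l.1 l.2 s1 : ℂ) := by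
      unfold xL
      rw [if_neg (by rw [h2]; exact Bool.false_ne_true), if_neg]
      rintro ⟨g1, g2⟩
      have := win l hl
      omega
    have h5 : iI l.1 * b + jI l.2 * a = nI a b l.1 l.2 := rfl
    have h6 := pos l hl
    have h7 : (nI a b l.1 l.2).toNat = 0 := by
      rw [Int.toNat_eq_zero]
      omega
    rw [h4, norm_div, cL_norm hx, h5, h7, pow_zero, mul_one, Complex.norm_real, Real.norm_eq_abs,
      abs_of_pos (psB_pos _ _ _)]
    have h8 : -(a : ℤ) - 1 - (k l : ℤ) = nI a b l.1 l.2 := by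
      rw [kp l hl]
      ring
    show _ ≤ ‖v (-(a : ℤ) - 1 - (k l : ℤ))‖ / _
    rw [h8]
  · intro hmd l hl he
    obtain ⟨h1, h2, h3⟩ := hS l hl
    obtain ⟨u1, u2⟩ := unit l hl (by omega)
    refine (C.grp_facts h3).2.1 ⟨?_, ?_⟩
    · unfold lmd
      rw [h2]
      exact hmd
    · rw [h2, u1, u2]
      rfl
  · intro l hl hmd hmd2
    obtain ⟨h1, h2, h3⟩ := hS l hl
    have h4 : lmd L l.1 l.2 = L.LM := by
      unfold lmd
      rw [h2]
      rfl
    refine MvE_cu L l.1 l.2 (by rw [h4]; exact hmd) (fun h5 => ?_)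
    rw [h4] at h5
    rw [h2]
    rw [Bool.eq_false_iff]
    intro h6
    unfold unitL at h6
    rw [cond_false, Bool.and_eq_true] at h6
    have h7 : l.1 = 32 := Nat.eq_of_beq_eq_true h6.1
    have h8 : l.2 = 62 := Nat.eq_of_beq_eq_true h6.2
    refine hmd2 h5 ?_
    have h9 := kp l hl
    rw [h7, h8, hunit] at h9
    omega

end Pool.Agent.MaxTerm59b
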