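import Pool.Agent.MaxTerm59b.MvF

/-! Mismatched vertex with a generic ratio: the tails. -/

namespace Pool.Agent.MaxTerm59b
open Finset Pool.Agent.MaxTerm58

variable {L : LMV} {a b : ℕ} {x : ℂ} {D : ℝ} {v : ℤ → ℂ} {s1 s2 : ℝ}

private lemma MvF2_mode (C : Ctx L a b x D v s1 s2) {i j : ℕ} (z : ℂ) (k : ℕ)
    (h1 : ‖z‖ ≤ D ^ ((lm L i j : ℝ) / 256 + k))
    (h2 : lmd L i j = 1 → 1 ≤ (lm L i j : ℝ) / 256 + k → ‖z‖ ≤ D ^ (2 * ((lm L i j : ℝ) / 256 + k) - 1)) :
    ‖z‖ ≤ psB L i j s1 * D ^ k := by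
  obtain ⟨hD0, hD1⟩ := C.H.D01
  have hD1' : D ≤ 1 := by linarith
  have hDt := C.D_le
  have hps := psB_ge C.G s1 C.h1 i j
  have key : D ^ ((lm2 L i j : ℝ) / 256) ≤ psB L i j s1 :=
    (Real.rpow_le_rpow hD0 hDt (by positivity)).trans hps
  have hk0 : 0 ≤ D ^ k := pow_nonneg hD0 k
  rcases hc : Bool.and (Nat.beq (lmd L i j) 1)
      (Bool.and (Bool.not (lgrp L i j)) (Nat.blt 256 (lm L i j))) with _ | _
  · have hm : lm2 L i j = lm L i j := by
      unfold lm2 m2L
      rw [hc]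
      rfl
    rw [hm] at key
    rw [Real.rpow_add_of_nonneg hD0 (by positivity) (by positivity), Real.rpow_natCast] at h1
    exact h1.trans (mul_le_mul_of_nonneg_right key hk0)
  · have hm : lm2 L i j = 2 * lm L i j - 256 := by
      unfold lm2 m2L
      rw [hc]
      rfl
    have hc1 : lmd L i j = 1 := by
      have : Nat.beq (lmd L i j) 1 = true := by
        rcases h : Nat.beq (lmd L i j) 1 with _ | _
        · rw [h] at hc
          exact absurd hc (by simp)
        · rfl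
      exact Nat.eq_of_beq_eq_true this
    have hc2 : 256 < lm L i j := by
      have : Nat.blt 256 (lm L i j) = true := by
        rcases h : Nat.blt 256 (lm L i j) with _ | _
        · rw [h] at hc
          exact absurd hc (by simp)
        · rfl
      rwa [Nat.blt_eq] at this
    clear hc
    have hc2' : (256 : ℝ) < lm L i j := by exact_mod_cast hc2
    have hm' : (lm2 L i j : ℝ) = 2 * lm L i j - 256 := by
      have hle : 256 ≤ 2 * lm L i j := by linarith
      rw [hm, Nat.cast_sub hle]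
      push_cast
      ring
    have hkk : (0 : ℝ) ≤ k := Nat.cast_nonneg k
    have h3 := h2 hc1 (by
      have : (1 : ℝ) ≤ (lm L i j : ℝ) / 256 := by
        rw [le_div_iff₀ (by norm_num)]
        linarith
      linarith)
    have he : 2 * ((lm L i j : ℝ) / 256 + k) - 1 = (lm2 L i j : ℝ) / 256 + ((2 * k : ℕ) : ℝ) := by
      rw [hm']
      push_cast
      ring
    rw [he, Real.rpow_add_of_nonneg hD0 (div_nonneg (Nat.cast_nonneg _) (by norm_num)) (Nat.cast_nonneg _),
      Real.rpow_natCast] at h3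
    have h4 : D ^ (2 * k) ≤ D ^ k := pow_le_pow_of_le_one hD0 hD1' (Nat.le_mul_of_pos_left k two_pos)
    exact h3.trans (mul_le_mul key h4 (pow_nonneg hD0 _) (psB_pos i j s1).le)

private lemma MvF2_sizeL (C : Ctx L a b x D v s1 s2) {i j : ℕ} (hl : LabC L i j)
    (hrt : lrt L i j = false) (hn : nI a b i j ≤ -(a : ℤ)) (k : ℕ) :
    ‖v (nI a b i j - k * a)‖ ≤ psB L i j s1 * D ^ k := by
  have hsz := (lab_size C.H.ha C.H.hab C.I hl).2 hrt
  have ha : (0 : ℝ) < a := by exact_mod_cast C.H.ha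
  have hn' : (nI a b i j : ℝ) ≤ -(a : ℝ) := by exact_mod_cast hn
  have hlm : (lm L i j : ℝ) * a ≤ 256 * (-(nI a b i j : ℝ) - a) := by
    rcases hsz with h | ⟨_, h⟩
    · rw [h]
      push_cast
      nlinarith
    · exact_mod_cast h
  have hpos : nI a b i j - k * a ≤ -(a : ℤ) := by
    have : (0 : ℤ) ≤ (k : ℤ) * a := by positivity
    linarith
  have hS := C.H.size_L (nI a b i j - k * a) hpos ((lm L i j : ℝ) / 256 + k) (by positivity) (by
    push_cast
    have : ((lm L i j : ℝ) / 256 + k) * a = (lm L i j : ℝ) * a / 256 + k * a := by ring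
    rw [this]
    linarith)
  refine MvF2_mode C _ k hS.1 ?_
  intro h1 h2
  refine hS.2 ?_ h2
  have : lmd L i j = L.LM := by
    unfold lmd
    rw [hrt]
    rfl
  rw [← this]
  exact h1

private lemma MvF2_sizeR (C : Ctx L a b x D v s1 s2) {i j : ℕ} (hl : LabC L i j)
    (hrt : lrt L i j = true) (k : ℕ) :
    ‖v (nI a b i j + k * a)‖ ≤ psB L i j s1 := by
  rcases (lab_size C.H.ha C.H.hab C.I hl).1 hrt with h | ⟨hb, h⟩
  · refine (C.H.v_le_one _).trans ?_
    have hps := psB_ge C.G s1 C.h1 i j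
    have : lm2 L i j = 0 := by
      unfold lm2 m2L
      rw [h]
      have : Nat.blt 256 0 = false := rfl
      rw [this]
      simp
    rw [this] at hps
    simpa using hps
  · have ha : (0 : ℝ) < a := by exact_mod_cast C.H.ha
    have hka : (0 : ℤ) ≤ (k : ℤ) * a := by positivity
    have hka' : (0 : ℝ) ≤ (k : ℝ) * a := by positivity
    have h' : (lm L i j : ℝ) * b ≤ 256 * ((nI a b i j : ℝ) - b) := by exact_mod_cast h
    have hS := C.H.size_R (nI a b i j + k * a) (by linarith) ((lm L i j : ℝ) / 256) (by positivity) (by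
      push_cast
      have : ((lm L i j : ℝ) / 256) * b = (lm L i j : ℝ) * b / 256 := by ring
      rw [this]
      linarith)
    have := MvF2_mode C (v (nI a b i j + k * a)) 0 (i := i) (j := j) (by simpa using hS.1) (by
      intro h1 h2
      have h3 : lmd L i j = L.RM := by
        unfold lmd
        rw [hrt]
        rfl
      simpa using hS.2 (by rw [← h3]; exact h1) (by simpa using h2))
    simpa using this

/-- the position is at most `-a` -/
private lemma MvF2_pos (H : InCell L.nL L.T0 L.T1 L.R0 L.R1 a b x) {i j : ℕ}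
    (hi : 32 ≤ i + L.nL ∧ i ≤ 32 + L.nL)
    (h0 : 64 ≤ posN L.R0 i j) (h1 : L.R1 = 0 ∨ 64 ≤ posN L.R1 i j) : nI a b i j ≤ -(a : ℤ) := by
  have hr0 : (L.R0 : ℤ) * a ≤ 64 * b := by exact_mod_cast H.r0
  have ha : (0 : ℤ) ≤ a := by positivity
  have conv : ∀ R : ℕ, 64 ≤ posN R i j → (i : ℤ) * R + 64 * j + 64 ≤ 32 * R + 4096 := by
    intro R hR
    have h : 64 ≤ (32 * R + 4096) - (i * R + 64 * j) := hR
    have h' : i * R + 64 * j + 64 ≤ 32 * R + 4096 := by omega
    exact_mod_cast h'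
  have e0 := conv L.R0 h0
  unfold nI iI jI
  by_cases hR1 : L.R1 = 0
  · have hnL : L.nL = 0 := by
      rcases H.nLc with h | h | h
      · exact h
      · omega
      · omega
    have hi32 : i = 32 := by omega
    subst hi32
    push_cast at e0
    have hj : (j : ℤ) - 64 ≤ -1 := by linarith
    push_cast
    nlinarith
  · have e1 := conv L.R1 (h1.resolve_left hR1)
    have hr1 : 64 * (b : ℤ) ≤ L.R1 * a := by
      have := H.r1.resolve_left hR1
      exact_mod_cast this
    rcases le_total (32 : ℤ) i with hc | hc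
    · have k1 : ((i : ℤ) - 32) * (64 * b) ≤ ((i : ℤ) - 32) * (L.R1 * a) :=
        mul_le_mul_of_nonneg_left hr1 (by linarith)
      have k2 : ((i : ℤ) * L.R1 + 64 * j + 64) * a ≤ (32 * L.R1 + 4096) * a :=
        mul_le_mul_of_nonneg_right e1 ha
      nlinarith
    · have k1 : (32 - (i : ℤ)) * (L.R0 * a) ≤ (32 - (i : ℤ)) * (64 * b) :=
        mul_le_mul_of_nonneg_left hr0 (by linarith)
      have k2 : ((i : ℤ) * L.R0 + 64 * j + 64) * a ≤ (32 * L.R0 + 4096) * a :=
        mul_le_mul_of_nonneg_right e0 ha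
      nlinarith

private lemma MvF2_posP {R i j : ℕ} (h : 64 ≤ posN R i j) : posP R i j = 0 := by
  have h' : 64 ≤ (32 * R + 4096) - (i * R + 64 * j) := h
  show (i * R + 64 * j) - (32 * R + 4096) = 0
  omega

/-- Left class: beyond the last power the positions are `≥ 0`, each step multiplies the bound by `‖x‖ ^ a`; below the
first power the positions are `≤ -a`, each step multiplies the bound by `D`. -/
theorem Ctx.tail_L (C : Ctx L a b x D v s1 s2) (hD : Nat.shiftRight L.D1.a 10 < 1099511627775) (P i : ℕ)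
    (hi : 32 ≤ i + L.nL ∧ i ≤ 32 + L.nL) (y : ℕ × ℕ) (hok : okL1 L P i y = true) (S : Finset ℤ)
    (hS : Disjoint S (Finset.Ico ((y.1 : ℤ) - 64) ((y.1 : ℤ) + y.2 - 64))) :
    ∑ p ∈ S, ‖cL a b x v (iI i) p‖ ≤
      ((geo (Nat.add (mx4 (lab L i (Nat.add y.1 y.2)).l) 8) (omt L) : ℕ) +
        (geo (Nat.add (mx4 (lab L i (Nat.sub y.1 1)).l) 8) (omD L) : ℕ) : ℝ) / 2 ^ 40 := by
  unfold okL1 at hok
  rw [Bool.and_eq_true, Bool.and_eq_true, Bool.and_eq_true, Bool.and_eq_true, Bool.and_eq_true,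
    Bool.and_eq_true, Bool.and_eq_true, Bool.and_eq_true, Bool.and_eq_true] at hok
  obtain ⟨⟨h1, -⟩, ⟨-, -⟩, ⟨-, -⟩, ⟨h4, h5⟩, h6, h7⟩ := hok
  rw [Bool.or_eq_true] at h5 h7
  rw [Nat.ble_eq] at h1 h6
  rw [Nat.beq_eq] at h4
  rw [Nat.beq_eq, Nat.beq_eq] at h5
  rw [Nat.beq_eq, Nat.ble_eq] at h7
  have hjUI : jI (Nat.add y.1 y.2) = (y.1 : ℤ) + y.2 - 64 := by
    unfold jI
    have : ((Nat.add y.1 y.2 : ℕ) : ℤ) = (y.1 : ℤ) + y.2 := Nat.cast_add _ _
    rw [this]
  have hjDI : jI (Nat.sub y.1 1) = (y.1 : ℤ) - 1 - 64 := by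
    unfold jI
    have : ((Nat.sub y.1 1 : ℕ) : ℤ) = (y.1 : ℤ) - 1 := by
      have := Nat.cast_sub (R := ℤ) h1
      simpa using this
    rw [this]
  generalize Nat.add y.1 y.2 = jU at *
  generalize Nat.sub y.1 1 = jD at *
  obtain ⟨hx1, hx2⟩ := C.H.x01
  have hx : x ≠ 0 := norm_pos_iff.1 hx1
  obtain ⟨hD0, hD1⟩ := C.H.D01
  have ha : 0 < a := C.H.ha
  have ha' : (0 : ℝ) < a := by exact_mod_cast ha
  have hT0 : 0 < ‖x‖ ^ a := pow_pos hx1 a
  have hT1 : ‖x‖ ^ a < 1 := pow_lt_one₀ hx1.le hx2 ha.ne'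
  -- the label above
  have hn1U : n1L L i jU = 0 := by
    unfold n1L
    by_cases hR : L.R1 = 0
    · rw [if_pos hR]; exact h4
    · rw [if_neg hR]; exact h5.resolve_left hR
  have hrtU : lrt L i jU = true := by
    unfold lrt
    rw [h4, hn1U]
    rfl
  have hlU : LabC L i jU := by
    refine ⟨?_, Or.inr hi⟩
    rw [lab_eq]
    show Bool.or (Bool.and (Nat.beq (posN L.R0 i jU) 0) (Nat.beq (n1L L i jU) 0)) _ = true
    rw [h4, hn1U]
    rfl
  -- the label below
  have hp1D : p1L L i jD = 0 := by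
    unfold p1L
    by_cases hR : L.R1 = 0
    · rw [if_pos hR]; exact MvF2_posP h6
    · rw [if_neg hR]; exact MvF2_posP (h7.resolve_left hR)
  have hrtD : lrt L i jD = false := by
    unfold lrt
    have : Nat.beq (posN L.R0 i jD) 0 = false := by
      rcases h : Nat.beq (posN L.R0 i jD) 0 with _ | _
      · rfl
      · have := Nat.eq_of_beq_eq_true h
        rw [this] at h6
        exact absurd h6 (by norm_num)
    rw [this]
    rfl
  have hlD : LabC L i jD := by
    refine ⟨?_, Or.inr hi⟩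
    rw [lab_eq]
    show Bool.or _ (Bool.and (Nat.beq (posP L.R0 i jD) 0) (Nat.beq (p1L L i jD) 0)) = true
    rw [MvF2_posP h6, hp1D]
    exact Bool.or_true _
  have hposD : nI a b i jD ≤ -(a : ℤ) := MvF2_pos C.I hi h6 h7
  have hposU : 0 ≤ nI a b i jU := (lab_sign ha C.H.hab C.I hlU).1 hrtU
  -- bound of the first terms
  have hpsB : ∀ j, 0 < psB L i j s1 := fun j => psB_pos i j s1
  have hVU : psB L i jU s1 * (‖x‖ ^ a) ^ ((nI a b i jU : ℝ) / a) ≤
      ((Nat.add (mx4 (lab L i jU).l) 8 : ℕ) : ℝ) / 2 ^ 40 := by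
    have h8 := C.psL_le hlU
    have h9 : psL L i jU s1 s2 = psB L i jU s1 *
        gi ((L.T0 : ℝ) / 65536) ((L.T1 : ℝ) / 65536) s1 ^
          ai ((lq0 L i jU : ℝ) / 256) ((lq1 L i jU : ℝ) / 256) s2 := by
      unfold psL psO
      rw [hrtU]
      rfl
    rw [h9, ← C.ht] at h8
    have h10 : ai ((lq0 L i jU : ℝ) / 256) ((lq1 L i jU : ℝ) / 256) s2 ≤ (nI a b i jU : ℝ) / a := by
      obtain ⟨e1, e2⟩ := lab_exp ha C.H.hab C.I hlU s2 C.h2 C.hr
      have e3 : posA L a b i jU = (nI a b i jU : ℝ) / a := by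
        unfold posA
        rw [hrtU]
        simp
      rw [← e3]
      by_cases hc : L.nL = 0 ∧ i ≠ 32
      · exact e1 hc
      · exact (e2 hc).le
    have h11 := Real.rpow_le_rpow_of_exponent_ge hT0 hT1.le h10
    have h12 : ((Nat.add (mx4 (lab L i jU).l) 8 : ℕ) : ℝ) = (mx4 (lab L i jU).l : ℝ) + 8 := by
      exact Nat.cast_add _ _
    rw [h12]
    exact (mul_le_mul_of_nonneg_left h11 (hpsB jU).le).trans h8
  have hVD : psB L i jD s1 ≤ ((Nat.add (mx4 (lab L i jD).l) 8 : ℕ) : ℝ) / 2 ^ 40 := by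
    have h8 := C.psL_le hlD
    have h9 : psL L i jD s1 s2 = psB L i jD s1 := by
      unfold psL
      rw [hrtD]
      rfl
    rw [h9] at h8
    have h12 : ((Nat.add (mx4 (lab L i jD).l) 8 : ℕ) : ℝ) = (mx4 (lab L i jD).l : ℝ) + 8 := by
      exact Nat.cast_add _ _
    rw [h12]
    exact h8
  -- the ratios
  have hq1 : (omt L : ℝ) / 2 ^ 40 ≤ 1 - ‖x‖ ^ a ∧ 0 < omt L := by
    have hT' := C.G.T'
    have e1 : omt L = 1099511627776 - L.T1 * 2 ^ 24 := by
      unfold omt
      show 1099511627776 - (L.T1 <<< 24) = _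
      rw [Nat.shiftLeft_eq]
    have e2 : L.T1 * 2 ^ 24 < 1099511627776 := by omega
    rw [e1]
    refine ⟨?_, by omega⟩
    rw [Nat.cast_sub e2.le]
    have := C.I.t1
    push_cast
    rw [div_le_iff₀ (by norm_num)]
    norm_num
    linarith
  have hq2 : (omD L : ℝ) / 2 ^ 40 ≤ 1 - D ∧ 0 < omD L := by
    obtain ⟨a1, a2, a3, a4, a5, a6, a7, a8, b1, b2, c1, c2, c3, d1, d2, d3, d4, e1⟩ := C.G.facts
    have hsr : Nat.shiftRight L.D1.a 10 = L.D1.a / 2 ^ 10 := Nat.shiftRight_eq_div_pow _ _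
    have e2 : omD L = 1099511627775 - L.D1.a / 2 ^ 10 := by
      unfold omD
      rw [hsr]
      rfl
    rw [hsr] at hD
    rw [e2]
    refine ⟨?_, by omega⟩
    rw [Nat.cast_sub hD.le]
    have p0 : 0 < (L.D0.a : ℝ) / 2 ^ 50 := by
      have : (0 : ℝ) < L.D0.a := by exact_mod_cast e1
      positivity
    have c1' : (L.D0.a : ℝ) / 2 ^ 50 ≤ (L.D1.a : ℝ) / 2 ^ 50 := by
      have : (L.D0.a : ℝ) ≤ L.D1.a := by exact_mod_cast c1
      gcongr
    have hDt : D ≤ (L.D1.a : ℝ) / 2 ^ 50 := by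
      refine C.D_le.trans ?_
      refine (gi_le_max _ _ _ C.h1 p0 (p0.trans_le c1')).trans ?_
      exact max_le c1' le_rfl
    have e3 : (L.D1.a : ℝ) ≤ ((L.D1.a / 2 ^ 10 : ℕ) : ℝ) * 1024 + 1024 := by
      have : L.D1.a ≤ (L.D1.a / 2 ^ 10) * 1024 + 1024 := by omega
      exact_mod_cast this
    rw [div_le_iff₀ (by norm_num)]
    rw [le_div_iff₀ (by norm_num)] at hDt
    norm_num at e3 hDt ⊢
    linarith
  have hgU := geo_ge (Nat.add (mx4 (lab L i jU).l) 8) (omt L) _ (‖x‖ ^ a) hq1.2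
    (mul_nonneg (hpsB jU).le (Real.rpow_nonneg hT0.le _)) hVU hT0.le hq1.1
  have hgD := geo_ge (Nat.add (mx4 (lab L i jD).l) 8) (omD L) _ D hq2.2 (hpsB jD).le hVD hD0 hq2.1
  have hup := tail_up (fun p => ‖cL a b x v (iI i) p‖) (jI jU)
    (psB L i jU s1 * (‖x‖ ^ a) ^ ((nI a b i jU : ℝ) / a)) (‖x‖ ^ a) hT0.le hT1 (fun p => norm_nonneg _)
    (by
      intro k
      show ‖cL a b x v (iI i) (jI jU + k)‖ ≤ _
      rw [cL_norm hx]
      have e1 : iI i * (b : ℤ) + (jI jU + k) * a = nI a b i jU + k * a := by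
        unfold nI
        ring
      rw [e1]
      have e2 : (nI a b i jU + (k : ℤ) * a).toNat = (nI a b i jU).toNat + a * k := by
        have : (nI a b i jU + (k : ℤ) * a) = (((nI a b i jU).toNat + a * k : ℕ) : ℤ) := by
          push_cast
          rw [Int.toNat_of_nonneg hposU]
          ring
        rw [this, Int.toNat_natCast]
      have e3 : ‖x‖ ^ (nI a b i jU).toNat = (‖x‖ ^ a) ^ ((nI a b i jU : ℝ) / a) := by
        rw [← xpow_eq ha hx, ← zpow_natCast, Int.toNat_of_nonneg hposU]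
      rw [e2, pow_add, pow_mul, e3, ← mul_assoc]
      exact mul_le_mul_of_nonneg_right
        (mul_le_mul_of_nonneg_right (MvF2_sizeR C hlU hrtU k) (Real.rpow_nonneg hT0.le _))
        (pow_nonneg hT0.le _))
    (S.filter fun p => jI jU ≤ p) (fun p hp => (Finset.mem_filter.1 hp).2)
  have hdn := tail_down (fun p => ‖cL a b x v (iI i) p‖) (jI jD) (psB L i jD s1) D hD0 (by linarith)
    (fun p => norm_nonneg _)
    (by
      intro k
      show ‖cL a b x v (iI i) (jI jD - k)‖ ≤ _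
      rw [cL_norm hx]
      have e1 : iI i * (b : ℤ) + (jI jD - k) * a = nI a b i jD - k * a := by
        unfold nI
        ring
      rw [e1]
      have e2 : (nI a b i jD - (k : ℤ) * a).toNat = 0 := by
        apply Int.toNat_of_nonpos
        have : (0 : ℤ) ≤ (k : ℤ) * a := by positivity
        have : (0 : ℤ) ≤ a := by positivity
        linarith
      rw [e2, pow_zero, mul_one]
      exact MvF2_sizeL C hlD hrtD hposD k)
    (S.filter fun p => ¬ jI jU ≤ p) (fun p hp => by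
      obtain ⟨hp1, hp2⟩ := Finset.mem_filter.1 hp
      have hp3 := Finset.disjoint_left.1 hS hp1
      rw [Finset.mem_Ico] at hp3
      rw [hjUI] at hp2
      rw [hjDI]
      by_contra hcon
      apply hp3
      constructor <;> linarith)
  rw [← Finset.sum_filter_add_sum_filter_not S (fun p => jI jU ≤ p), add_div]
  exact add_le_add (hup.trans hgU) (hdn.trans hgD)

end Pool.Agent.MaxTerm59b
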