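import Pool.Agent.MaxTerm59b.MvCovD

/-! Mismatched vertex with a generic ratio: no configuration. -/

namespace Pool.Agent.MaxTerm59b
open Finset Pool.Agent.MaxTerm58

/-- A mismatched vertex with a ratio different from `2`, `3`, `3/2` does not exist. -/
theorem mvg_final {a b : ℕ} {x : ℂ} {D : ℝ} {v : ℤ → ℂ} (ha : 0 < a) (hab : a < b) (h2 : b ≠ 2 * a) (h3 : b ≠ 3 * a)
    (h32 : 2 * b ≠ 3 * a) (H : HypM a b x D v) (hD3 : D ≤ 7501 / 10000 ∨ D ≤ ‖x‖ ^ a + 1 / 10000)
    (hR : OutU b D (fun i => v (b + 1 + (i : ℤ))) ∨ OutN b D (fun i => v (b + 1 + (i : ℤ))))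
    (hL : OutU a D (fun i => v (-(a : ℤ) - 1 - (i : ℤ))) ∨ OutN a D (fun i => v (-(a : ℤ) - 1 - (i : ℤ)))) :
    False := by
  have H' : HypMY 0 0 a b x D v := ⟨ha, hab, h2, h3, h32, H, hD3, Or.inl ⟨rfl, hR⟩, Or.inl ⟨rfl, hL⟩⟩
  have ht := H.ht
  rcases lt_or_ge (65536 * ‖x‖ ^ a) 1606 with hc | hc
  · have hx0 : 0 < ‖x‖ := norm_pos_iff.2 H.x0
    have hx1 : ‖x‖ ≤ 1 := by
      by_contra hc
      push Not at hc
      have h1 := one_le_pow₀ hc.le (n := a)
      linarith
    have h1 : ‖x‖ ^ b ≤ ‖x‖ ^ a := pow_le_pow_of_le_one hx0.le hx1 hab.le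
    refine smallx_hypM ha hab H (by linarith) ?_ H'.oR.toMN H'.oL.toMN
    rcases H.hD with h | h
    · linarith
    · linarith
  · have t1 : 65536 * ‖x‖ ^ a ≤ ((49814 : ℕ) : ℝ) := by
      push_cast
      linarith
    have t1' : 65536 * ‖x‖ ^ a ≤ ((50463 : ℕ) : ℝ) := by
      push_cast
      linarith
    have t0 : ((1606 : ℕ) : ℝ) ≤ 65536 * ‖x‖ ^ a := by
      push_cast
      linarith
    rcases le_total (64 * b) (128 * a) with h | h
    · exact bad_mv2 a b x D v H' ⟨t0, t1', by omega, Or.inr h, by norm_num, by norm_num, by norm_num, by norm_num⟩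
    rcases le_total (64 * b) (166 * a) with h' | h'
    · exact bad_mv1 a b x D v H' ⟨t0, t1', h, Or.inr h', by norm_num, by norm_num, by norm_num, by norm_num⟩
    rcases le_total (64 * b) (230 * a) with h'' | h''
    · exact bad_mv0a a b x D v H' ⟨t0, t1, h', Or.inr h'', by norm_num, by norm_num, by norm_num, by norm_num⟩
    rcases le_total (64 * b) (300 * a) with h''' | h'''
    · exact bad_mv0b a b x D v H' ⟨t0, t1, h'', Or.inr h''', by norm_num, by norm_num, by norm_num, by norm_num⟩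
    · exact bad_mv0c a b x D v H' ⟨t0, t1, h''', Or.inl rfl, by norm_num, by norm_num, by norm_num, by norm_num⟩

end Pool.Agent.MaxTerm59b
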