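import Pool.Agent.MaxTerm59b.SlA

/-! Interpolation errors of the slots. -/

namespace Pool.Agent.MaxTerm59b
open Finset

private theorem SlB_dist (a b : ℕ) : |(a : ℝ) - b| = (dist a b : ℝ) := by
  have h := dist_eq a b
  have h' : ((dist a b : ℤ) : ℝ) = ((|(a : ℤ) - b| : ℤ) : ℝ) := by rw [h]
  rw [Int.cast_abs] at h'
  push_cast at h'
  exact h'.symm

/-- the real estimate -/
private theorem SlB_real (s1 s2 Q c e d1 d2 a00 a10 a01 a11 ψ S : ℝ) (h1 : |s1| ≤ 1) (h2 : |s2| ≤ 1)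
    (hS : S = (1 - s1) / 2 * ((1 - s2) / 2) * a00 + (1 + s1) / 2 * ((1 - s2) / 2) * a10 +
      ((1 - s1) / 2 * ((1 + s2) / 2) * a01 + (1 + s1) / 2 * ((1 + s2) / 2) * a11))
    (hl : -6 ≤ S - 2 ^ 40 * ψ) (hu : S - 2 ^ 40 * ψ ≤ Q + 6) (hc : 2 * c ≤ Q) (he : Q - c + 8 ≤ e)
    (d1a : |a00 - a10| ≤ d1) (d1b : |a01 - a11| ≤ d1) (d2a : |a00 - a01| ≤ d2) (d2b : |a10 - a11| ≤ d2) :
    |ψ * 2 ^ 40 - (S - c)| ≤ e ∧
    |ψ * s1 * 2 ^ 40 - ((1 - s1) / 2 * ((1 - s2) / 2) * (-(a00 - c)) + (1 + s1) / 2 * ((1 - s2) / 2) * (a10 - c) +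
      ((1 - s1) / 2 * ((1 + s2) / 2) * (-(a01 - c)) + (1 + s1) / 2 * ((1 + s2) / 2) * (a11 - c)))| ≤ e + d1 / 2 ∧
    |ψ * s2 * 2 ^ 40 - ((1 - s1) / 2 * ((1 - s2) / 2) * (-(a00 - c)) + (1 + s1) / 2 * ((1 - s2) / 2) * (-(a10 - c)) +
      ((1 - s1) / 2 * ((1 + s2) / 2) * (a01 - c) + (1 + s1) / 2 * ((1 + s2) / 2) * (a11 - c)))| ≤ e + d2 / 2 := by
  have m : |ψ * 2 ^ 40 - (S - c)| ≤ e := by
    rw [abs_le]; constructor <;> linarith
  have he0 : 0 ≤ e := (abs_nonneg _).trans m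
  have hd1 : 0 ≤ d1 := (abs_nonneg _).trans d1a
  have hd2 : 0 ≤ d2 := (abs_nonneg _).trans d2a
  have q1 := abs_le.1 h1
  have q2 := abs_le.1 h2
  refine ⟨m, ?_, ?_⟩
  · have e1 : ψ * s1 * 2 ^ 40 - ((1 - s1) / 2 * ((1 - s2) / 2) * (-(a00 - c)) + (1 + s1) / 2 * ((1 - s2) / 2) * (a10 - c) +
      ((1 - s1) / 2 * ((1 + s2) / 2) * (-(a01 - c)) + (1 + s1) / 2 * ((1 + s2) / 2) * (a11 - c))) =
      s1 * (ψ * 2 ^ 40 - (S - c)) + (1 - s1 ^ 2) / 2 *
        ((1 - s2) / 2 * (a00 - a10) + (1 + s2) / 2 * (a01 - a11)) := by rw [hS]; ring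
    rw [e1]
    have k1 : |s1 * (ψ * 2 ^ 40 - (S - c))| ≤ e := by
      rw [abs_mul]
      calc |s1| * |ψ * 2 ^ 40 - (S - c)| ≤ 1 * e := mul_le_mul h1 m (abs_nonneg _) (by norm_num)
        _ = e := one_mul _
    have k2 : |(1 - s2) / 2 * (a00 - a10) + (1 + s2) / 2 * (a01 - a11)| ≤ d1 := by
      refine (abs_add_le _ _).trans ?_
      rw [abs_mul, abs_mul, abs_of_nonneg (by linarith : 0 ≤ (1 - s2) / 2), abs_of_nonneg (by linarith : 0 ≤ (1 + s2) / 2)]
      calc _ ≤ (1 - s2) / 2 * d1 + (1 + s2) / 2 * d1 :=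
            add_le_add (mul_le_mul_of_nonneg_left d1a (by linarith)) (mul_le_mul_of_nonneg_left d1b (by linarith))
        _ = d1 := by ring
    have k3 : |(1 - s1 ^ 2) / 2| ≤ 1 / 2 := by
      rw [abs_le]; constructor <;> nlinarith
    calc _ ≤ |s1 * (ψ * 2 ^ 40 - (S - c))| + |(1 - s1 ^ 2) / 2 *
        ((1 - s2) / 2 * (a00 - a10) + (1 + s2) / 2 * (a01 - a11))| := abs_add_le _ _
      _ ≤ e + 1 / 2 * d1 := by
          refine add_le_add k1 ?_
          rw [abs_mul]; exact mul_le_mul k3 k2 (abs_nonneg _) (by norm_num)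
      _ = e + d1 / 2 := by ring
  · have e1 : ψ * s2 * 2 ^ 40 - ((1 - s1) / 2 * ((1 - s2) / 2) * (-(a00 - c)) + (1 + s1) / 2 * ((1 - s2) / 2) * (-(a10 - c)) +
      ((1 - s1) / 2 * ((1 + s2) / 2) * (a01 - c) + (1 + s1) / 2 * ((1 + s2) / 2) * (a11 - c))) =
      s2 * (ψ * 2 ^ 40 - (S - c)) + (1 - s2 ^ 2) / 2 *
        ((1 - s1) / 2 * (a00 - a01) + (1 + s1) / 2 * (a10 - a11)) := by rw [hS]; ring
    rw [e1]
    have k1 : |s2 * (ψ * 2 ^ 40 - (S - c))| ≤ e := by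
      rw [abs_mul]
      calc |s2| * |ψ * 2 ^ 40 - (S - c)| ≤ 1 * e := mul_le_mul h2 m (abs_nonneg _) (by norm_num)
        _ = e := one_mul _
    have k2 : |(1 - s1) / 2 * (a00 - a01) + (1 + s1) / 2 * (a10 - a11)| ≤ d2 := by
      refine (abs_add_le _ _).trans ?_
      rw [abs_mul, abs_mul, abs_of_nonneg (by linarith : 0 ≤ (1 - s1) / 2), abs_of_nonneg (by linarith : 0 ≤ (1 + s1) / 2)]
      calc _ ≤ (1 - s1) / 2 * d2 + (1 + s1) / 2 * d2 :=
            add_le_add (mul_le_mul_of_nonneg_left d2a (by linarith)) (mul_le_mul_of_nonneg_left d2b (by linarith))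
        _ = d2 := by ring
    have k3 : |(1 - s2 ^ 2) / 2| ≤ 1 / 2 := by
      rw [abs_le]; constructor <;> nlinarith
    calc _ ≤ |s2 * (ψ * 2 ^ 40 - (S - c))| + |(1 - s2 ^ 2) / 2 *
        ((1 - s1) / 2 * (a00 - a01) + (1 + s1) / 2 * (a10 - a11))| := abs_add_le _ _
      _ ≤ e + 1 / 2 * d2 := by
          refine add_le_add k1 ?_
          rw [abs_mul]; exact mul_le_mul k3 k2 (abs_nonneg _) (by norm_num)
      _ = e + d2 / 2 := by ring

private theorem SlB_half (e d : ℕ) : (e : ℝ) + d / 2 ≤ ((Nat.add e (Nat.div (Nat.add d 16) 2) : ℕ) : ℝ) := by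
  have h : d ≤ 2 * ((d + 16) / 2) := by omega
  have h' : (d : ℝ) ≤ 2 * (((d + 16) / 2 : ℕ) : ℝ) := by exact_mod_cast h
  have e1 : (Nat.add e (Nat.div (Nat.add d 16) 2)) = e + (d + 16) / 2 := rfl
  rw [e1]
  push_cast [Nat.cast_add] at h' ⊢
  linarith

/-- slots of the first family. Hint: with `f = ∑ w v` and `c` the centring: component `0`: `|ψ - (f - c)| ≤ q - c + 8`
(units of `2^(-40)`); component `1`: `∑ w v sv = s1 f + (1 - s1^2)/2 ∑_{b2} w1 s2 b2 (v true b2 - v false b2)`. -/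
theorem slotOK_mv (A0 A1 t0 t1 q0 q1 s1 s2 : ℝ) (hA0 : 0 < A0) (hA1 : 0 < A1) (ht0 : 0 < t0) (ht : t0 ≤ t1)
    (ht1 : t1 ≤ 1) (hq0 : 0 ≤ q0) (hq1 : 0 ≤ q1) (h1 : |s1| ≤ 1) (h2 : |s2| ≤ 1) (v : Bool → Bool → ℕ)
    (hv : ∀ b1 b2, |(v b1 b2 : ℝ) - 2 ^ 40 * vM A0 A1 t0 t1 q0 q1 b1 b2| ≤ 6) (t : Tab) (cl pw : ℕ) :
    SlotOK false s1 s2 (-1) (mkSlot t cl pw v) (psM A0 A1 t0 t1 q0 q1 s1 s2) := by
  obtain ⟨I1, I2⟩ := interp_mv A0 A1 t0 t1 q0 q1 s1 s2 hA0 hA1 ht0 ht ht1 hq0 hq1 h1 h2 v hv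
  set ψ := psM A0 A1 t0 t1 q0 q1 s1 s2 with hψ
  -- the data of the slot
  set q : ℕ := (maxN (qf (dist (v false false) (v true false)) (minN (v false false) (v true false)))
        (qf (dist (v false true) (v true true)) (minN (v false true) (v true true)))) +
      (qg (maxN (v false false) (v false true)) (minN (v false false) (v false true))
        (maxN (minN (v false false) (v false true)) (minN (v true false) (v true true)))
        (maxN (maxN (v false false) (v false true)) (maxN (v true false) (v true true)))) with hq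
  set c : ℕ := minN (q / 2) (minN (minN (v false false) (v true false)) (minN (v false true) (v true true))) with hc
  set e : ℕ := (q - c) + 8 with he
  set d1 : ℕ := maxN (dist (v false false) (v true false)) (dist (v false true) (v true true)) with hd1
  set d2 : ℕ := maxN (dist (v false false) (v false true)) (dist (v true false) (v true true)) with hd2
  have hmk : mkSlot t cl pw v = ⟨t, cl, pw, fun b1 b2 _ => Nat.sub (v b1 b2) c, e, Nat.add e (Nat.div (Nat.add d1 16) 2),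
        Nat.add e (Nat.div (Nat.add d2 16) 2), 0⟩ := rfl
  rw [hmk]
  have cq : c ≤ q / 2 := by rw [hc, minN_eq]; exact min_le_left _ _
  have cq' : 2 * c ≤ q := by omega
  have cm : c ≤ minN (minN (v false false) (v true false)) (minN (v false true) (v true true)) := by
    rw [hc, minN_eq (q / 2)]; exact min_le_right _ _
  rw [minN_eq, minN_eq, minN_eq] at cm
  have cv : ∀ b1 b2, c ≤ v b1 b2 := by
    intro b1 b2
    cases b1 <;> cases b2 <;> omega
  have sub : ∀ b1 b2, ((Nat.sub (v b1 b2) c : ℕ) : ℝ) = v b1 b2 - c := by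
    intro b1 b2
    exact Nat.cast_sub (cv b1 b2)
  have qr : (q : ℝ) = ((maxN (qf (dist (v false false) (v true false)) (minN (v false false) (v true false)))
        (qf (dist (v false true) (v true true)) (minN (v false true) (v true true))) : ℕ) : ℝ) +
      ((qg (maxN (v false false) (v false true)) (minN (v false false) (v false true))
        (maxN (minN (v false false) (v false true)) (minN (v true false) (v true true)))
        (maxN (maxN (v false false) (v false true)) (maxN (v true false) (v true true))) : ℕ) : ℝ) := by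
    rw [hq, Nat.cast_add]
  rw [← qr] at I2
  have er : (q : ℝ) - c + 8 ≤ e := by
    have h3 : q + 8 ≤ e + c := by omega
    have h4 : (q : ℝ) + 8 ≤ e + c := by exact_mod_cast h3
    linarith
  have cqr : 2 * (c : ℝ) ≤ q := by exact_mod_cast cq'
  have D1a : |(v false false : ℝ) - v true false| ≤ d1 := by
    rw [SlB_dist, hd1, maxN_eq]; exact_mod_cast le_max_left _ _
  have D1b : |(v false true : ℝ) - v true true| ≤ d1 := by
    rw [SlB_dist, hd1, maxN_eq]; exact_mod_cast le_max_right _ _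
  have D2a : |(v false false : ℝ) - v false true| ≤ d2 := by
    rw [SlB_dist, hd2, maxN_eq]; exact_mod_cast le_max_left _ _
  have D2b : |(v true false : ℝ) - v true true| ≤ d2 := by
    rw [SlB_dist, hd2, maxN_eq]; exact_mod_cast le_max_right _ _
  have r1 := abs_le.1 h1
  have r2 := abs_le.1 h2
  have wn : ∀ b, 0 ≤ w1 s1 b := by intro b; cases b <;> simp [w1] <;> linarith
  have wn' : ∀ b, 0 ≤ w1 s2 b := by intro b; cases b <;> simp [w1] <;> linarith
  set S : ℝ := (1 - s1) / 2 * ((1 - s2) / 2) * v false false + (1 + s1) / 2 * ((1 - s2) / 2) * v true false +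
      ((1 - s1) / 2 * ((1 + s2) / 2) * v false true + (1 + s1) / 2 * ((1 + s2) / 2) * v true true) with hS
  have hSS : |S - 2 ^ 40 * ∑ b1 : Bool, ∑ b2 : Bool, w1 s1 b1 * w1 s2 b2 * vM A0 A1 t0 t1 q0 q1 b1 b2| ≤ 6 := by
    have e1 : S - 2 ^ 40 * ∑ b1 : Bool, ∑ b2 : Bool, w1 s1 b1 * w1 s2 b2 * vM A0 A1 t0 t1 q0 q1 b1 b2 =
        ∑ b1 : Bool, ∑ b2 : Bool, w1 s1 b1 * w1 s2 b2 * ((v b1 b2 : ℝ) - 2 ^ 40 * vM A0 A1 t0 t1 q0 q1 b1 b2) := by
      rw [hS]
      simp only [Fintype.sum_bool, w1]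
      simp
      ring
    rw [e1]
    calc _ ≤ ∑ b1 : Bool, ∑ b2 : Bool, w1 s1 b1 * w1 s2 b2 * 6 := by
          refine (Finset.abs_sum_le_sum_abs _ _).trans (Finset.sum_le_sum fun b1 _ => ?_)
          refine (Finset.abs_sum_le_sum_abs _ _).trans (Finset.sum_le_sum fun b2 _ => ?_)
          rw [abs_mul, abs_of_nonneg (mul_nonneg (wn b1) (wn' b2))]
          exact mul_le_mul_of_nonneg_left (hv b1 b2) (mul_nonneg (wn b1) (wn' b2))
      _ = 6 := by simp only [Fintype.sum_bool, w1]; simp; ring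
  rw [abs_le] at hSS
  obtain ⟨R0, R1, R2⟩ := SlB_real s1 s2 q c e d1 d2 (v false false) (v true false) (v false true) (v true true) ψ S h1 h2
    hS (by linarith) (by linarith) cqr er D1a D1b D2a D2b
  intro k hk
  have hk' : k < 3 := hk
  interval_cases k
  · have e1 : ψ * sig s1 s2 (-1) 0 * 2 ^ 40 - vs s1 s2 (-1) (fun b1 b2 b3 =>
        ((Nat.sub (v b1 b2) c : ℕ) : ℝ) * (sv b1 b2 b3 0 : ℝ)) = ψ * 2 ^ 40 - (S - c) := by
      rw [hS]
      simp only [vs, wt, sub, Fintype.sum_bool, w1, sig, sv]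
      simp
      ring
    have e2 : slE ⟨t, cl, pw, fun b1 b2 _ => Nat.sub (v b1 b2) c, e, Nat.add e (Nat.div (Nat.add d1 16) 2),
        Nat.add e (Nat.div (Nat.add d2 16) 2), 0⟩ 0 = e := rfl
    rw [e2]
    refine le_trans (le_of_eq ?_) R0
    rw [← e1]
  · have e1 : ψ * sig s1 s2 (-1) 1 * 2 ^ 40 - vs s1 s2 (-1) (fun b1 b2 b3 =>
        ((Nat.sub (v b1 b2) c : ℕ) : ℝ) * (sv b1 b2 b3 1 : ℝ)) =
        ψ * s1 * 2 ^ 40 - ((1 - s1) / 2 * ((1 - s2) / 2) * (-((v false false : ℝ) - c)) + (1 + s1) / 2 * ((1 - s2) / 2) * ((v true false : ℝ) - c) +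
      ((1 - s1) / 2 * ((1 + s2) / 2) * (-((v false true : ℝ) - c)) + (1 + s1) / 2 * ((1 + s2) / 2) * ((v true true : ℝ) - c))) := by
      simp only [vs, wt, sub, Fintype.sum_bool, w1, sig, sv]
      simp
      ring
    have e2 : slE ⟨t, cl, pw, fun b1 b2 _ => Nat.sub (v b1 b2) c, e, Nat.add e (Nat.div (Nat.add d1 16) 2),
        Nat.add e (Nat.div (Nat.add d2 16) 2), 0⟩ 1 = Nat.add e (Nat.div (Nat.add d1 16) 2) := rfl
    rw [e2]
    refine le_trans (le_of_eq ?_) (R1.trans (SlB_half e d1))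
    rw [← e1]
  · have e1 : ψ * sig s1 s2 (-1) 2 * 2 ^ 40 - vs s1 s2 (-1) (fun b1 b2 b3 =>
        ((Nat.sub (v b1 b2) c : ℕ) : ℝ) * (sv b1 b2 b3 2 : ℝ)) =
        ψ * s2 * 2 ^ 40 - ((1 - s1) / 2 * ((1 - s2) / 2) * (-((v false false : ℝ) - c)) + (1 + s1) / 2 * ((1 - s2) / 2) * (-((v true false : ℝ) - c)) +
      ((1 - s1) / 2 * ((1 + s2) / 2) * ((v false true : ℝ) - c) + (1 + s1) / 2 * ((1 + s2) / 2) * ((v true true : ℝ) - c))) := by
      simp only [vs, wt, sub, Fintype.sum_bool, w1, sig, sv]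
      simp
      ring
    have e2 : slE ⟨t, cl, pw, fun b1 b2 _ => Nat.sub (v b1 b2) c, e, Nat.add e (Nat.div (Nat.add d1 16) 2),
        Nat.add e (Nat.div (Nat.add d2 16) 2), 0⟩ 2 = Nat.add e (Nat.div (Nat.add d2 16) 2) := rfl
    rw [e2]
    refine le_trans (le_of_eq ?_) (R2.trans (SlB_half e d2))
    rw [← e1]

end Pool.Agent.MaxTerm59b
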