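import Pool.Agent.MaxTerm59b.PwS
import Pool.Agent.MaxTerm59b.SlB
import Pool.Agent.MaxTerm59b.SlC

/-! The slots of a label. -/

namespace Pool.Agent.MaxTerm59b

private theorem SlF_size (L : LMV) (m : ℕ) (b : Bool) : (sizeS L m b : ℝ) = 2 ^ 40 * szV L m b := by
  unfold szV
  field_simp

/-- values `vB`: `vM` with `q0 = q1 = 0`; values `vO`: product with the power of `t`, errors at most
`1 + 5/4 · 2 ≤ 6` units. -/
theorem vB_close {L : LMV} (H : GoodL L) (m : ℕ) (b1 b2 : Bool) :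
    |(vB L m b1 b2 : ℝ) - 2 ^ 40 * vM (szV L m false) (szV L m true) ((L.T0 : ℝ) / 65536) ((L.T1 : ℝ) / 65536) 0 0 b1 b2|
      ≤ 6 := by
  have h1 : vB L m b1 b2 = sizeS L m b1 := rfl
  have h2 : vM (szV L m false) (szV L m true) ((L.T0 : ℝ) / 65536) ((L.T1 : ℝ) / 65536) 0 0 b1 b2 =
      szV L m b1 := by
    unfold vM
    cases b1 <;> cases b2 <;> simp
  rw [h1, h2, SlF_size, sub_self, abs_zero]
  norm_num

/-- the base `t` of a vertex -/
private noncomputable def SlF_t (L : LMV) (b : Bool) : ℝ := if b then (L.T1 : ℝ) / 65536 else (L.T0 : ℝ) / 65536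

private theorem SlF_t_bd {L : LMV} (H : GoodL L) (b : Bool) : 1 / 64 ≤ SlF_t L b ∧ SlF_t L b < 1 := by
  obtain ⟨-, -, -, -, -, -, -, -, -, -, -, hT, -⟩ := H.facts
  have h0 : (1024 : ℝ) ≤ (L.T0 : ℝ) := by exact_mod_cast H.T
  have h1 : (L.T0 : ℝ) ≤ (L.T1 : ℝ) := by exact_mod_cast hT
  have h2 : (L.T1 : ℝ) < 65536 := by exact_mod_cast H.T'
  unfold SlF_t
  cases b
  · simp only [Bool.false_eq_true, if_false]
    constructor
    · rw [div_le_div_iff₀ (by norm_num) (by norm_num)]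
      linarith
    · rw [div_lt_one (by norm_num)]
      linarith
  · simp only [if_true]
    constructor
    · rw [div_le_div_iff₀ (by norm_num) (by norm_num)]
      linarith
    · rw [div_lt_one (by norm_num)]
      exact h2

private theorem SlF_mon {L : LMV} (H : GoodL L) (q : ℕ) (b : Bool) :
    |(monT L q b : ℝ) - 2 ^ 40 * SlF_t L b ^ ((q : ℝ) / 256)| ≤ 5 / 4 := by
  by_cases h0 : q = 0
  · subst h0
    have h1 : monT L 0 b = 1099511627776 := rfl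
    rw [h1]
    norm_num
  · have h1 : monT L q b = powr (cond b L.t1 L.t0) q := by
      have hb : Nat.beq q 0 = false := by
        rcases q with _ | k
        · exact absurd rfl h0
        · rfl
      unfold monT
      rw [hb]
      rfl
    obtain ⟨f1, f2, f3, f4, -⟩ := H.facts
    obtain ⟨b1, b2⟩ := SlF_t_bd H b
    rw [h1]
    cases b
    · refine (powr_floor L.t0 (SlF_t L false) ?_ b1 b2 f1 f2 q).1
      have e : SlF_t L false = (L.T0 : ℝ) / 65536 := rfl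
      rw [H.a0, e]
      push_cast
      ring
    · refine (powr_floor L.t1 (SlF_t L true) ?_ b1 b2 f3 f4 q).1
      have e : SlF_t L true = (L.T1 : ℝ) / 65536 := rfl
      rw [H.a1, e]
      push_cast
      ring

private theorem SlF_vM (L : LMV) (A0 A1 : ℝ) (q0 q1 : ℕ) (b1 b2 : Bool) :
    vM A0 A1 ((L.T0 : ℝ) / 65536) ((L.T1 : ℝ) / 65536) ((q0 : ℝ) / 256) ((q1 : ℝ) / 256) b1 b2 =
      (if b1 then A1 else A0) * SlF_t L b1 ^ (((cond b2 q1 q0 : ℕ) : ℝ) / 256) := by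
  unfold vM SlF_t
  cases b1 <;> cases b2 <;> rfl

theorem vO_close {L : LMV} (H : GoodL L) (m q0 q1 : ℕ) (b1 b2 : Bool) :
    |(vO L m q0 q1 b1 b2 : ℝ) - 2 ^ 40 * vM (szV L m false) (szV L m true) ((L.T0 : ℝ) / 65536) ((L.T1 : ℝ) / 65536)
      ((q0 : ℝ) / 256) ((q1 : ℝ) / 256) b1 b2| ≤ 6 := by
  rw [SlF_vM]
  have hif : (if b1 then szV L m true else szV L m false) = szV L m b1 := by cases b1 <;> rfl
  rw [hif]
  obtain ⟨q, hqq⟩ : ∃ q : ℕ, q = cond b2 q1 q0 := ⟨_, rfl⟩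
  have h1 : vO L m q0 q1 b1 b2 = (sizeS L m b1 * monT L q b1) / 2 ^ 40 := by
    rw [hqq, ← Nat.shiftRight_eq_div_pow]
    rfl
  rw [← hqq]
  rw [h1]
  have h2 := SlF_mon H q b1
  have h3 := szV_le H m b1
  have h4 : 0 < szV L m b1 := szV_pos m b1
  -- the floor
  have h5 : ((sizeS L m b1 * monT L q b1 / 2 ^ 40 : ℕ) : ℝ) ≤ (sizeS L m b1 : ℝ) * (monT L q b1 : ℝ) / 2 ^ 40 := by
    have h51 := @Nat.cast_div_le ℝ _ _ _ (sizeS L m b1 * monT L q b1) (2 ^ 40)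
    have h52 : (((2 ^ 40 : ℕ)) : ℝ) = 2 ^ 40 := by norm_num
    have h53 : ((sizeS L m b1 * monT L q b1 : ℕ) : ℝ) = (sizeS L m b1 : ℝ) * (monT L q b1 : ℝ) := Nat.cast_mul _ _
    rw [h52, h53] at h51
    exact h51
  have h6 : (sizeS L m b1 : ℝ) * (monT L q b1 : ℝ) / 2 ^ 40 < ((sizeS L m b1 * monT L q b1 / 2 ^ 40 : ℕ) : ℝ) + 1 := by
    rw [div_lt_iff₀ (by positivity)]
    have := Nat.lt_mul_div_succ (sizeS L m b1 * monT L q b1) (b := 2 ^ 40) (by positivity)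
    have h7 : ((sizeS L m b1 * monT L q b1 : ℕ) : ℝ) <
        ((2 ^ 40 * (sizeS L m b1 * monT L q b1 / 2 ^ 40 + 1) : ℕ) : ℝ) := by exact_mod_cast this
    push_cast at h7 ⊢
    linarith
  have h8 : (sizeS L m b1 : ℝ) * (monT L q b1 : ℝ) / 2 ^ 40 = szV L m b1 * (monT L q b1 : ℝ) := by
    rw [SlF_size]
    field_simp
  rw [h8] at h5 h6
  obtain ⟨y, hy⟩ : ∃ y : ℝ, y = SlF_t L b1 ^ ((q : ℝ) / 256) := ⟨_, rfl⟩
  rw [← hy] at h2 ⊢
  obtain ⟨w, hw⟩ : ∃ w : ℝ, w = ((sizeS L m b1 * monT L q b1 / 2 ^ 40 : ℕ) : ℝ) := ⟨_, rfl⟩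
  rw [← hw] at h5 h6 ⊢
  rw [abs_le] at h2 ⊢
  constructor
  · nlinarith [h2.1, h2.2]
  · nlinarith [h2.1, h2.2]

private theorem SlF_ai (s : ℝ) : ai 0 0 s = 0 := by
  unfold ai
  ring

private theorem SlF_B {L : LMV} (H : GoodL L) (m : ℕ) (s1 s2 : ℝ) (h1 : |s1| ≤ 1) (h2 : |s2| ≤ 1) (t : Tab)
    (cl pw : ℕ) : SlotOK false s1 s2 (-1) (mkSlot t cl pw (vB L m)) (gi (szV L m false) (szV L m true) s1) := by
  have b0 := SlF_t_bd H false
  have b1 := SlF_t_bd H true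
  have hT : SlF_t L false ≤ SlF_t L true := by
    obtain ⟨-, -, -, -, -, -, -, -, -, -, -, hT, -⟩ := H.facts
    have h1 : (L.T0 : ℝ) ≤ (L.T1 : ℝ) := by exact_mod_cast hT
    unfold SlF_t
    simp only [Bool.false_eq_true, if_false, if_true]
    linarith
  have h := slotOK_mv (szV L m false) (szV L m true) ((L.T0 : ℝ) / 65536) ((L.T1 : ℝ) / 65536) 0 0 s1 s2
    (szV_pos m false) (szV_pos m true) (lt_of_lt_of_le (by norm_num) b0.1) hT b1.2.le le_rfl le_rfl h1 h2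
    (vB L m) (vB_close H m) t cl pw
  have e : psM (szV L m false) (szV L m true) ((L.T0 : ℝ) / 65536) ((L.T1 : ℝ) / 65536) 0 0 s1 s2 =
      gi (szV L m false) (szV L m true) s1 := by
    unfold psM
    rw [SlF_ai, Real.rpow_zero, mul_one]
  rw [e] at h
  exact h

private theorem SlF_O {L : LMV} (H : GoodL L) (m q0 q1 : ℕ) (s1 s2 : ℝ)
    (h1 : |s1| ≤ 1) (h2 : |s2| ≤ 1) (t : Tab) (cl pw : ℕ) :
    SlotOK false s1 s2 (-1) (mkSlot t cl pw (vO L m q0 q1)) (gi (szV L m false) (szV L m true) s1 *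
      gi ((L.T0 : ℝ) / 65536) ((L.T1 : ℝ) / 65536) s1 ^ ai ((q0 : ℝ) / 256) ((q1 : ℝ) / 256) s2) := by
  have b0 := SlF_t_bd H false
  have b1 := SlF_t_bd H true
  have hT : SlF_t L false ≤ SlF_t L true := by
    obtain ⟨-, -, -, -, -, -, -, -, -, -, -, hT, -⟩ := H.facts
    have h1 : (L.T0 : ℝ) ≤ (L.T1 : ℝ) := by exact_mod_cast hT
    unfold SlF_t
    simp only [Bool.false_eq_true, if_false, if_true]
    linarith
  exact slotOK_mv (szV L m false) (szV L m true) ((L.T0 : ℝ) / 65536) ((L.T1 : ℝ) / 65536) ((q0 : ℝ) / 256)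
    ((q1 : ℝ) / 256) s1 s2 (szV_pos m false) (szV_pos m true) (lt_of_lt_of_le (by norm_num) b0.1) hT b1.2.le
    (by positivity) (by positivity) h1 h2 (vO L m q0 q1) (vO_close H m q0 q1) t cl pw

/-- slots of a label -/
theorem slotR_ok {L : LMV} (H : GoodL L) (i j : ℕ) (s1 s2 : ℝ)
    (h1 : |s1| ≤ 1) (h2 : |s2| ≤ 1) (t : Tab) (cl pw : ℕ) :
    SlotOK false s1 s2 (-1) (mkSlot t cl pw (lab L i j).r) (psR L i j s1 s2) := by
  rw [lab_eq]
  simp only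
  unfold psR
  cases hr : lrt L i j
  · simp only [cond_false, Bool.false_eq_true, if_false]
    exact SlF_O H _ _ _ s1 s2 h1 h2 t cl pw
  · simp only [cond_true, if_true]
    exact SlF_B H _ s1 s2 h1 h2 t cl pw

theorem slotL_ok {L : LMV} (H : GoodL L) (i j : ℕ) (s1 s2 : ℝ)
    (h1 : |s1| ≤ 1) (h2 : |s2| ≤ 1) (t : Tab) (cl pw : ℕ) :
    SlotOK false s1 s2 (-1) (mkSlot t cl pw (lab L i j).l) (psL L i j s1 s2) := by
  rw [lab_eq]
  simp only
  unfold psL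
  cases hr : lrt L i j
  · simp only [cond_false, Bool.false_eq_true, if_false]
    exact SlF_B H _ s1 s2 h1 h2 t cl pw
  · simp only [cond_true, if_true]
    exact SlF_O H _ _ _ s1 s2 h1 h2 t cl pw

/-- constants -/
theorem cst_ok {L : LMV} (H : GoodL L) (q0 q1 : ℕ) (s1 s2 : ℝ)
    (h1 : |s1| ≤ 1) (h2 : |s2| ≤ 1) (t : Tab) (cl pw : ℕ) :
    CSlotOK false s1 s2 (-1) (cstM L t cl pw q0 q1)
      ((gi ((L.T0 : ℝ) / 65536) ((L.T1 : ℝ) / 65536) s1 ^ ai ((q0 : ℝ) / 256) ((q1 : ℝ) / 256) s2 : ℝ) : ℂ) := by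
  have b0 := SlF_t_bd H false
  have b1 := SlF_t_bd H true
  have hT : SlF_t L false ≤ SlF_t L true := by
    obtain ⟨-, -, -, -, -, -, -, -, -, -, -, hT, -⟩ := H.facts
    have h1 : (L.T0 : ℝ) ≤ (L.T1 : ℝ) := by exact_mod_cast hT
    unfold SlF_t
    simp only [Bool.false_eq_true, if_false, if_true]
    linarith
  have hv : ∀ b1 b2, |((fun b1 b2 => monT L (cond b2 q1 q0) b1 : Bool → Bool → ℕ) b1 b2 : ℝ) - 2 ^ 40 *
      vM 1 1 ((L.T0 : ℝ) / 65536) ((L.T1 : ℝ) / 65536) ((q0 : ℝ) / 256) ((q1 : ℝ) / 256) b1 b2| ≤ 6 := by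
    intro b1 b2
    rw [SlF_vM, ite_self, one_mul]
    exact (SlF_mon H _ b1).trans (by norm_num)
  have h := slotOK_mv 1 1 ((L.T0 : ℝ) / 65536) ((L.T1 : ℝ) / 65536) ((q0 : ℝ) / 256)
    ((q1 : ℝ) / 256) s1 s2 one_pos one_pos (lt_of_lt_of_le (by norm_num) b0.1) hT b1.2.le
    (by positivity) (by positivity) h1 h2 (fun b1 b2 => monT L (cond b2 q1 q0) b1) hv t cl pw
  have e : psM 1 1 ((L.T0 : ℝ) / 65536) ((L.T1 : ℝ) / 65536) ((q0 : ℝ) / 256) ((q1 : ℝ) / 256) s1 s2 =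
      gi ((L.T0 : ℝ) / 65536) ((L.T1 : ℝ) / 65536) s1 ^ ai ((q0 : ℝ) / 256) ((q1 : ℝ) / 256) s2 := by
    unfold psM
    rw [gi_self 1 s1 one_pos, one_mul]
  rw [e] at h
  exact cslot_of_slot false s1 s2 (-1) _ _ h

end Pool.Agent.MaxTerm59b
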