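import Pool.Agent.MaxTerm59b.MvG
import Pool.Agent.MaxTerm59b.MvE2
import Pool.Agent.MaxTerm59b.MvF2
import Pool.Agent.MaxTerm59b.SlF
import Pool.Agent.MaxTerm59b.RowC
import Pool.Agent.MaxTerm59b.TabD
import Pool.Agent.MaxTerm59b.DualB

/-! Mismatched vertex with a generic ratio: assembly. -/

namespace Pool.Agent.MaxTerm59b
open Finset Pool.Agent.MaxTerm58

private theorem MvH_blt {a b : ℕ} (h : Nat.blt a b = true) : a < b := Nat.le_of_ble_eq_true h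

private theorem MvH_okK {l : List (ℕ × List ℕ)} (h : okK 31 l = true) : okK 0 l = true := by
  induction l with
  | nil => rfl
  | cons x t ih =>
    have h' : Bool.and (Bool.and (Nat.ble 31 x.1) (Nat.ble x.1 62)) (okK 31 t) = true := h
    show Bool.and (Bool.and (Nat.ble 0 x.1) (Nat.ble x.1 62)) (okK 0 t) = true
    simp only [Bool.and_eq_true] at h' ⊢
    exact ⟨⟨by simp, h'.1.2⟩, ih h'.2⟩

private theorem MvH_max (n : ℕ) : maxN n 1 = max n 1 := maxN_eq n 1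

private theorem MvH_okR1 {L : LMV} {P j : ℕ} {x : ℕ × ℕ} (h : okR1 L P j x = true) :
    1 ≤ x.1 ∧ okC (fun i => lab L i j) x.2 x.1 = true ∧ x.1 ≤ 32 - L.nL ∧ 33 + max L.nL 1 ≤ x.1 + x.2 ∧
      32 ≤ x.1 + P ∧ x.1 + x.2 ≤ 33 + P := by
  unfold okR1 at h
  simp only [Bool.and_eq_true] at h
  obtain ⟨⟨h1, h2⟩, ⟨h3, h4⟩, ⟨h5, h6⟩, -⟩ := h
  have h4' := Nat.le_of_ble_eq_true h4
  rw [MvH_max] at h4'
  exact ⟨Nat.le_of_ble_eq_true h1, h2, Nat.le_of_ble_eq_true h3, h4', Nat.le_of_ble_eq_true h5,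
    Nat.le_of_ble_eq_true h6⟩

private theorem MvH_okL1 {L : LMV} {P i : ℕ} {x : ℕ × ℕ} (h : okL1 L P i x = true) :
    1 ≤ x.1 ∧ okC (fun j => lab L i j) x.2 x.1 = true ∧ x.1 ≤ 61 ∧ 68 ≤ x.1 + x.2 ∧
      64 ≤ x.1 + P ∧ x.1 + x.2 ≤ 65 + P := by
  unfold okL1 at h
  simp only [Bool.and_eq_true] at h
  obtain ⟨⟨h1, h2⟩, ⟨h3, h4⟩, ⟨h5, h6⟩, -⟩ := h
  exact ⟨Nat.le_of_ble_eq_true h1, h2, Nat.le_of_ble_eq_true h3, Nat.le_of_ble_eq_true h4,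
    Nat.le_of_ble_eq_true h5, Nat.le_of_ble_eq_true h6⟩

/-- the leaf belonging to the data -/
def mkL (nL T0 T1 R0 R1 RM LM : ℕ) (C : CMV) : LMV :=
  ⟨nL, T0, T1, R0, R1, RM, LM, ⟨Nat.shiftLeft T0 34, C.t0b, C.t0c⟩, ⟨Nat.shiftLeft T1 34, C.t1b, C.t1c⟩, C.D0, C.D1⟩

theorem mkL_good (nL T0 T1 R0 R1 RM LM : ℕ) (C : CMV) (hT : 1024 ≤ T0)
    (h : okT T0 T1 ⟨Nat.shiftLeft T0 34, C.t0b, C.t0c⟩ ⟨Nat.shiftLeft T1 34, C.t1b, C.t1c⟩ C.D0 C.D1 = true) :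
    GoodL (mkL nL T0 T1 R0 R1 RM LM C) := by
  have hs : ∀ n k : ℕ, Nat.shiftLeft n k = n * 2 ^ k := fun n k => Nat.shiftLeft_eq n k
  refine ⟨h, hs _ _, hs _ _, hT, ?_⟩
  show T1 < 65536
  unfold okT at h
  simp only [Bool.and_eq_true] at h
  obtain ⟨-, ⟨-, hd1⟩, ⟨-, -, hlt⟩, -⟩ := h
  have hlt' : C.D1.a < 1125899906842624 := MvH_blt hlt
  unfold okD at hd1
  cases hb : Nat.ble 44237 T0
  · rw [hb] at hd1
    simp only [Bool.and_eq_true, cond_false] at hd1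
    have h1 : Nat.mul (Nat.mul 10 T1) 17179869184 ≤ Nat.mul 9 C.D1.a := Nat.le_of_ble_eq_true hd1.2
    have h2 : 10 * T1 * 17179869184 ≤ 9 * C.D1.a := h1
    omega
  · rw [hb] at hd1
    simp only [Bool.and_eq_true, cond_true] at hd1
    have h1 : Nat.add (Nat.mul T1 17179869184) 112589990685 ≤ C.D1.a := Nat.le_of_ble_eq_true hd1.2
    have h2 : T1 * 17179869184 + 112589990685 ≤ C.D1.a := h1
    omega

/-- tables of a leaf -/
def tRo (C : CMV) : Tab := tabOf false TC TS C.PR 3 C.wR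
def tLo (C : CMV) (nL : ℕ) : Tab := tabOf false TC TS C.PL nL C.wL

/-- terms of the two sides -/
noncomputable def aR (C : CMV) (a b : ℕ) (x : ℂ) (v : ℤ → ℂ) (s1 s2 : ℝ) (e : ℕ) (p : ℤ) : ℂ :=
  (∑ k ∈ range (Kc false), (sig s1 s2 (-1) k : ℂ) * Pc false ((TI false TC TS 3 C.wR e p k : GI) : ℂ)) *
    cR a b x v ((e : ℤ) - 3) p
noncomputable def bL (C : CMV) (nL a b : ℕ) (x : ℂ) (v : ℤ → ℂ) (s1 s2 : ℝ) (e : ℕ) (p : ℤ) : ℂ :=
  (∑ k ∈ range (Kc false), (sig s1 s2 (-1) k : ℂ) * Pc false ((TI false TC TS nL C.wL e p k : GI) : ℂ)) *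
    cL a b x v ((e : ℤ) - nL) p

/-- the facts of `okSh` -/
structure ShOK (L : LMV) (C : CMV) : Prop where
  rg : RgOK C.rR C.rL L.nL
  okR : okR L C.PR C.rR 61 = true
  okL : okL L C.PL C.rL (32 - L.nL) = true
  kR : okK 0 C.wR = true
  kL : okK 0 C.wL = true
  nR : nrows C.wR ≤ 256
  nL : nrows C.wL ≤ 256
  PR : C.PR ≤ 40
  PL : C.PL ≤ 40
  D1 : Nat.shiftRight C.D1.a 10 < 1099511627775

theorem shOK_of {L : LMV} {C : CMV} (h : okSh L C = true) (hn : L.nL ≤ 2) : ShOK L C := by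
  unfold okSh at h
  simp only [Bool.and_eq_true] at h
  obtain ⟨⟨hR, hL⟩, ⟨hoR, hoL⟩, ⟨hkR, hkL⟩, hn1, hD, hPR, hPL⟩ := h
  have hR' : C.rR.length = 7 := Nat.eq_of_beq_eq_true hR
  have hL' : C.rL.length = 2 * L.nL + 1 := by
    have := Nat.eq_of_beq_eq_true hL
    exact this
  have hn1' : nrows C.wR + nrows C.wL ≤ 256 := Nat.le_of_ble_eq_true hn1
  refine ⟨⟨hn, hR', hL', ?_, ?_⟩, hoR, hoL, MvH_okK hkR, MvH_okK hkL, by omega, by omega,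
    Nat.le_of_ble_eq_true hPR, Nat.le_of_ble_eq_true hPL, MvH_blt hD⟩
  · intro e he
    have h1 := okR_get C.rR 61 hoR e (by omega)
    obtain ⟨-, -, h2, h3, -⟩ := MvH_okR1 h1
    exact ⟨h2, h3⟩
  · intro e he
    have h1 := okL_get C.rL (32 - L.nL) hoL e (by omega)
    obtain ⟨-, -, h2, h3, -⟩ := MvH_okL1 h1
    exact ⟨h2, h3⟩

/-- ranges in the tables. Hint: `okR_get`, `okR1`. -/
theorem ShOK.rgR {L : LMV} {C : CMV} (H : ShOK L C) : ∀ e < 7, ∀ p ∈ rgF C.rR 32 e, |p| ≤ C.PR := by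
  intro e he p hp
  have h1 := okR_get C.rR 61 H.okR e (by have := H.rg.lR; omega)
  obtain ⟨-, -, -, -, h2, h3⟩ := MvH_okR1 h1
  unfold rgF at hp
  rw [Finset.mem_Ico] at hp
  rw [abs_le]
  constructor <;> omega

theorem ShOK.rgL {L : LMV} {C : CMV} (H : ShOK L C) : ∀ e < 2 * L.nL + 1, ∀ p ∈ rgF C.rL 64 e, |p| ≤ C.PL := by
  intro e he p hp
  have h1 := okL_get C.rL (32 - L.nL) H.okL e (by have := H.rg.lL; omega)
  obtain ⟨-, -, -, -, h2, h3⟩ := MvH_okL1 h1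
  unfold rgF at hp
  rw [Finset.mem_Ico] at hp
  rw [abs_le]
  constructor <;> omega

/-- labels of the list -/
theorem ShOK.lab {L : LMV} {C : CMV} (H : ShOK L C) : ∀ l ∈ labsM C.rR C.rL L.nL, LabC L l.1 l.2 ∧
    (61 ≤ l.2 ∧ l.2 ≤ 67 → (32 ≤ l.1 + C.PR ∧ l.1 ≤ 32 + C.PR)) ∧
    (32 ≤ l.1 + L.nL ∧ l.1 ≤ 32 + L.nL → (64 ≤ l.2 + C.PL ∧ l.2 ≤ 64 + C.PL)) ∧
    ((61 ≤ l.2 ∧ l.2 ≤ 67) ∨ (32 ≤ l.1 + L.nL ∧ l.1 ≤ 32 + L.nL)) := by
  intro l hl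
  have hPL : 3 ≤ C.PL := by
    have h1 := okL_get C.rL (32 - L.nL) H.okL 0 (by have := H.rg.lL; omega)
    obtain ⟨-, -, h4, h5, h2, h3⟩ := MvH_okL1 h1
    omega
  have hn := H.rg.n2
  unfold labsM at hl
  rcases List.mem_append.1 hl with hl | hl
  · obtain ⟨e, he, hj, h1, h2, -⟩ := (mem_labsR C.rR 61 l).1 hl
    rw [H.rg.lR] at he
    have h3 := okR_get C.rR 61 H.okR e (by have := H.rg.lR; omega)
    obtain ⟨-, h4, -, -, h5, h6⟩ := MvH_okR1 h3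
    have h7 : (Pool.Agent.MaxTerm59b.lab L l.1 l.2).ok = true := by
      have := okC_get _ _ _ h4 l.1 h1 h2
      rw [hj]
      exact this
    refine ⟨⟨h7, Or.inl ⟨by omega, by omega⟩⟩, fun _ => ⟨by omega, by omega⟩, fun _ => ⟨by omega, by omega⟩,
      Or.inl ⟨by omega, by omega⟩⟩
  · obtain ⟨e, he, hi, h1, h2, hno⟩ := (mem_labsL C.rL (32 - L.nL) l).1 hl
    rw [H.rg.lL] at he
    have h3 := okL_get C.rL (32 - L.nL) H.okL e (by have := H.rg.lL; omega)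
    obtain ⟨-, h4, -, -, h5, h6⟩ := MvH_okL1 h3
    have h7 : (Pool.Agent.MaxTerm59b.lab L l.1 l.2).ok = true := by
      have := okC_get _ _ _ h4 l.2 h1 h2
      rw [hi]
      exact this
    refine ⟨⟨h7, Or.inr ⟨by omega, by omega⟩⟩, fun h => absurd h hno, fun _ => ⟨by omega, by omega⟩,
      Or.inr ⟨by omega, by omega⟩⟩

/-- values of the slots and of the constants -/
noncomputable def psiM (L : LMV) (s1 s2 : ℝ) (l : ℕ × ℕ) (s : Slot) : ℝ :=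
  if s.t.c.n1 = 4 then psR L l.1 l.2 s1 s2 else psL L l.1 l.2 s1 s2

noncomputable def zetM (L : LMV) (a b : ℕ) (x : ℂ) (s : CSlot) : ℂ :=
  if s.s.t.c.n1 = 4 then (if s.s.cl = 3 then 1 else ((‖x‖ ^ a : ℝ) : ℂ))
  else (if s.s.cl = L.nL then 1 else ((‖x‖ ^ b : ℝ) : ℂ))

end Pool.Agent.MaxTerm59b
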