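import Pool.Agent.MaxTerm59b.MvH

/-! Mismatched vertex with a generic ratio: assembly. -/

namespace Pool.Agent.MaxTerm59b
open Finset Pool.Agent.MaxTerm58

variable {L : LMV} {C : CMV} {a b : ℕ} {x : ℂ} {D : ℝ} {v : ℤ → ℂ} {s1 s2 : ℝ}

/-- the functional at a slot of the right resp. left table (`slD_eq`) -/
theorem slT_R (H : ShOK L C) (cl pw : ℕ) (ph : Bool → Bool → Bool → ℕ) (e0 e1 e2 e3 : ℕ) (hc : cl < 7)
    (hp : pw ≤ 2 * C.PR) : slT false s1 s2 (-1) ⟨tRo C, cl, pw, ph, e0, e1, e2, e3⟩ =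
      ∑ k ∈ range (Kc false), (sig s1 s2 (-1) k : ℂ) * Pc false ((TI false TC TS 3 C.wR cl ((pw : ℤ) - C.PR) k : GI) : ℂ) := by
  unfold slT
  refine Finset.sum_congr rfl fun k hk => ?_
  rw [slD_eq false TC TS C.PR 3 (le_refl 3) H.PR C.wR tabOK H.kR H.nR ⟨tRo C, cl, pw, ph, e0, e1, e2, e3⟩ rfl hc hp k
    (Finset.mem_range.1 hk)]

theorem slT_L (H : ShOK L C) (cl pw : ℕ) (ph : Bool → Bool → Bool → ℕ) (e0 e1 e2 e3 : ℕ)
    (hc : cl < 2 * L.nL + 1) (hp : pw ≤ 2 * C.PL) :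
    slT false s1 s2 (-1) ⟨tLo C L.nL, cl, pw, ph, e0, e1, e2, e3⟩ =
      ∑ k ∈ range (Kc false), (sig s1 s2 (-1) k : ℂ) *
        Pc false ((TI false TC TS L.nL C.wL cl ((pw : ℤ) - C.PL) k : GI) : ℂ) := by
  unfold slT
  refine Finset.sum_congr rfl fun k hk => ?_
  have hn := H.rg.n2
  rw [slD_eq false TC TS C.PL L.nL (by omega) H.PL C.wL tabOK H.kL H.nL ⟨tLo C L.nL, cl, pw, ph, e0, e1, e2, e3⟩ rfl hc hp k
    (Finset.mem_range.1 hk)]

private theorem MvH2_PR (H : ShOK L C) : 1 ≤ C.PR := by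
  have h1 := H.rgR 0 (by norm_num) 1 (by
    unfold rgF
    rw [Finset.mem_Ico]
    obtain ⟨h2, h3⟩ := H.rg.cR 0 (by norm_num)
    have h4 : 1 ≤ max L.nL 1 := le_max_right _ _
    omega)
  rw [abs_one] at h1
  exact_mod_cast h1

private theorem MvH2_PL (H : ShOK L C) : 3 ≤ C.PL := by
  have h1 := H.rgL 0 (by omega) (-3) (by
    unfold rgF
    rw [Finset.mem_Ico]
    obtain ⟨h2, h3⟩ := H.rg.cL 0 (by omega)
    omega)
  rw [abs_neg] at h1
  have h2 : |(3 : ℤ)| = 3 := by norm_num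
  rw [h2] at h1
  exact_mod_cast h1

private theorem MvH2_sR (H : ShOK L C) (s : Slot) (p : ℤ) (hs : s.t = tRo C) (hc : s.cl < 7) (hp : s.pw ≤ 2 * C.PR)
    (hpp : (s.pw : ℤ) - C.PR = p) : slT false s1 s2 (-1) s =
      ∑ k ∈ range (Kc false), (sig s1 s2 (-1) k : ℂ) * Pc false ((TI false TC TS 3 C.wR s.cl p k : GI) : ℂ) := by
  obtain ⟨t, cl, pw, ph, e0, e1, e2, e3⟩ := s
  dsimp only at hs hc hp hpp
  rw [hs, slT_R H cl pw ph e0 e1 e2 e3 hc hp, hpp]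

private theorem MvH2_sL (H : ShOK L C) (s : Slot) (p : ℤ) (hs : s.t = tLo C L.nL) (hc : s.cl < 2 * L.nL + 1)
    (hp : s.pw ≤ 2 * C.PL) (hpp : (s.pw : ℤ) - C.PL = p) : slT false s1 s2 (-1) s =
      ∑ k ∈ range (Kc false), (sig s1 s2 (-1) k : ℂ) * Pc false ((TI false TC TS L.nL C.wL s.cl p k : GI) : ℂ) := by
  obtain ⟨t, cl, pw, ph, e0, e1, e2, e3⟩ := s
  dsimp only at hs hc hp hpp
  rw [hs, slT_L H cl pw ph e0 e1 e2 e3 hc hp, hpp]

private theorem MvH2_zL (hn : L.nL ≤ 2) (s : CSlot) (hs : s.s.t = tLo C L.nL) :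
    zetM L a b x s = if s.s.cl = L.nL then 1 else ((‖x‖ ^ b : ℝ) : ℂ) := by
  unfold zetM
  rw [if_neg]
  rw [hs]
  show ¬ (L.nL + 1 = 4)
  omega

private theorem MvH2_cR0 (X : Ctx L a b x D v s1 s2) : cR a b x v ((3 : ℕ) - 3 : ℤ) 0 = 1 := by
  have h0 := X.H.M.v0
  unfold cR
  simp [h0]

private theorem MvH2_cR1 (X : Ctx L a b x D v s1 s2) : cR a b x v ((3 : ℕ) - 3 : ℤ) 1 = 1 := by
  have h0 := X.H.M.vb
  unfold cR
  have h1 : (((3 : ℕ) : ℤ) - 3) * (a : ℤ) + 1 * (b : ℤ) = b := by push_cast; ring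
  have h2 : (-(b : ℤ)).toNat = 0 := by omega
  rw [h1, h0, h2]
  simp

private theorem MvH2_ph (X : Ctx L a b x D v s1 s2) (n : ℕ) :
    x ^ n * ((x / (‖x‖ : ℂ)) ^ n)⁻¹ = ((‖x‖ ^ n : ℝ) : ℂ) := by
  have hx : x ≠ 0 := X.H.M.x0
  have hx' : (‖x‖ : ℂ) ≠ 0 := by
    have := norm_pos_iff.2 hx
    exact_mod_cast this.ne'
  rw [div_pow]
  push_cast
  field_simp

private theorem MvH2_cR2 (X : Ctx L a b x D v s1 s2) : cR a b x v ((2 : ℕ) - 3 : ℤ) 0 = ((‖x‖ ^ a : ℝ) : ℂ) := by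
  have h0 := X.H.M.va
  unfold cR
  have h1 : (((2 : ℕ) : ℤ) - 3) * (a : ℤ) + 0 * (b : ℤ) = -(a : ℤ) := by push_cast; ring
  have h2 : (-(-(a : ℤ))).toNat = a := by omega
  have h3 : (((2 : ℕ) : ℤ) - 3) = -1 := by norm_num
  rw [h1, h0, h2, h3, zpow_neg_one, one_mul]
  exact MvH2_ph X a

private theorem MvH2_cL0 (X : Ctx L a b x D v s1 s2) : cL a b x v 0 0 = 1 := by
  have h0 := X.H.M.v0
  unfold cL
  simp [h0]

private theorem MvH2_cL1 (X : Ctx L a b x D v s1 s2) : cL a b x v 0 (-1) = 1 := by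
  have h0 := X.H.M.va
  unfold cL
  have h1 : 0 * (b : ℤ) + -1 * (a : ℤ) = -(a : ℤ) := by ring
  have h2 : (-(a : ℤ)).toNat = 0 := by omega
  rw [h1, h0, h2]
  simp

private theorem MvH2_cL2 (X : Ctx L a b x D v s1 s2) : cL a b x v 1 0 = ((‖x‖ ^ b : ℝ) : ℂ) := by
  have h0 := X.H.M.vb
  unfold cL
  have h1 : 1 * (b : ℤ) + 0 * (a : ℤ) = (b : ℤ) := by ring
  have h2 : ((b : ℤ)).toNat = b := by omega
  rw [h1, h0, h2, zpow_one, one_mul]
  exact MvH2_ph X b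

/-- the constants -/
theorem cons_sum (X : Ctx L a b x D v s1 s2) (H : ShOK L C) :
    ((consMV L (tRo C) (tLo C L.nL)).map fun s => slT false s1 s2 (-1) s.s * zetM L a b x s).sum =
      aR C a b x v s1 s2 3 0 + aR C a b x v s1 s2 3 1 + aR C a b x v s1 s2 2 0 +
        bL C L.nL a b x v s1 s2 L.nL 0 + bL C L.nL a b x v s1 s2 L.nL (-1) +
        if L.nL = 0 then 0 else bL C L.nL a b x v s1 s2 (L.nL + 1) 0 := by
  have hn := H.rg.n2
  have hPL := MvH2_PL H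
  have hPR := MvH2_PR H
  have e1 : slT false s1 s2 (-1) (cstM L (tRo C) 3 (tRo C).P 0 0).s * zetM L a b x (cstM L (tRo C) 3 (tRo C).P 0 0) =
      aR C a b x v s1 s2 3 0 := by
    rw [MvH2_sR H _ 0 rfl (by show 3 < 7; norm_num) (by show C.PR ≤ 2 * C.PR; omega)
      (by show (C.PR : ℤ) - C.PR = 0; ring)]
    unfold aR
    congr 1
    show (1 : ℂ) = cR a b x v ((3 : ℕ) - 3 : ℤ) 0
    exact (MvH2_cR0 X).symm
  have e2 : slT false s1 s2 (-1) (cstM L (tRo C) 3 (Nat.succ (tRo C).P) 0 0).s *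
      zetM L a b x (cstM L (tRo C) 3 (Nat.succ (tRo C).P) 0 0) = aR C a b x v s1 s2 3 1 := by
    rw [MvH2_sR H _ 1 rfl (by show 3 < 7; norm_num) (by show C.PR + 1 ≤ 2 * C.PR; omega)
      (by show ((C.PR + 1 : ℕ) : ℤ) - C.PR = 1; push_cast; ring)]
    unfold aR
    congr 1
    show (1 : ℂ) = cR a b x v ((3 : ℕ) - 3 : ℤ) 1
    exact (MvH2_cR1 X).symm
  have e3 : slT false s1 s2 (-1) (cstM L (tRo C) 2 (tRo C).P 256 256).s *
      zetM L a b x (cstM L (tRo C) 2 (tRo C).P 256 256) = aR C a b x v s1 s2 2 0 := by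
    rw [MvH2_sR H _ 0 rfl (by show 2 < 7; norm_num) (by show C.PR ≤ 2 * C.PR; omega)
      (by show (C.PR : ℤ) - C.PR = 0; ring)]
    unfold aR
    congr 1
    show ((‖x‖ ^ a : ℝ) : ℂ) = cR a b x v ((2 : ℕ) - 3 : ℤ) 0
    exact (MvH2_cR2 X).symm
  have e4 : slT false s1 s2 (-1) (cstM L (tLo C L.nL) L.nL (tLo C L.nL).P 0 0).s *
      zetM L a b x (cstM L (tLo C L.nL) L.nL (tLo C L.nL).P 0 0) = bL C L.nL a b x v s1 s2 L.nL 0 := by
    rw [MvH2_sL H _ 0 rfl (by show L.nL < 2 * L.nL + 1; omega) (by show C.PL ≤ 2 * C.PL; omega)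
      (by show (C.PL : ℤ) - C.PL = 0; ring)]
    unfold bL
    congr 1
    rw [MvH2_zL (L := L) (C := C) (a := a) (b := b) (x := x) hn _ rfl]
    show (if L.nL = L.nL then (1 : ℂ) else _) = cL a b x v ((L.nL : ℕ) - L.nL : ℤ) 0
    rw [if_pos rfl, sub_self]
    exact (MvH2_cL0 X).symm
  have e5 : slT false s1 s2 (-1) (cstM L (tLo C L.nL) L.nL (Nat.sub (tLo C L.nL).P 1) 0 0).s *
      zetM L a b x (cstM L (tLo C L.nL) L.nL (Nat.sub (tLo C L.nL).P 1) 0 0) = bL C L.nL a b x v s1 s2 L.nL (-1) := by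
    rw [MvH2_sL H _ (-1) rfl (by show L.nL < 2 * L.nL + 1; omega) (by show C.PL - 1 ≤ 2 * C.PL; omega)
      (by show ((C.PL - 1 : ℕ) : ℤ) - C.PL = -1; omega)]
    unfold bL
    congr 1
    rw [MvH2_zL (L := L) (C := C) (a := a) (b := b) (x := x) hn _ rfl]
    show (if L.nL = L.nL then (1 : ℂ) else _) = cL a b x v ((L.nL : ℕ) - L.nL : ℤ) (-1)
    rw [if_pos rfl, sub_self]
    exact (MvH2_cL1 X).symm
  have hcons : consMV L (tRo C) (tLo C L.nL) = cstM L (tRo C) 3 (tRo C).P 0 0 :: cstM L (tRo C) 3 (Nat.succ (tRo C).P) 0 0 ::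
      cstM L (tRo C) 2 (tRo C).P 256 256 :: cstM L (tLo C L.nL) L.nL (tLo C L.nL).P 0 0 ::
      cstM L (tLo C L.nL) L.nL (Nat.sub (tLo C L.nL).P 1) 0 0 ::
      cond (Nat.beq L.nL 0) [] [cstM L (tLo C L.nL) (Nat.succ L.nL) (tLo C L.nL).P (Nat.mul 4 L.R0) (Nat.mul 4 L.R1)] := rfl
  rw [hcons]
  by_cases h0 : L.nL = 0
  · have hb : Nat.beq L.nL 0 = true := by rw [h0]; rfl
    rw [hb, if_pos h0]
    simp only [List.map_cons, List.sum_cons, cond_true, List.map_nil, List.sum_nil]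
    rw [e1, e2, e3, e4, e5]
    ring
  · have hb : Nat.beq L.nL 0 = false := by
      cases hc : Nat.beq L.nL 0
      · rfl
      · exact absurd (Nat.eq_of_beq_eq_true hc) h0
    have e6 : slT false s1 s2 (-1) (cstM L (tLo C L.nL) (Nat.succ L.nL) (tLo C L.nL).P (Nat.mul 4 L.R0) (Nat.mul 4 L.R1)).s *
        zetM L a b x (cstM L (tLo C L.nL) (Nat.succ L.nL) (tLo C L.nL).P (Nat.mul 4 L.R0) (Nat.mul 4 L.R1)) =
          bL C L.nL a b x v s1 s2 (L.nL + 1) 0 := by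
      rw [MvH2_sL H _ 0 rfl (by show L.nL + 1 < 2 * L.nL + 1; omega) (by show C.PL ≤ 2 * C.PL; omega)
        (by show (C.PL : ℤ) - C.PL = 0; ring)]
      unfold bL
      congr 1
      rw [MvH2_zL (L := L) (C := C) (a := a) (b := b) (x := x) hn _ rfl]
      show (if L.nL + 1 = L.nL then (1 : ℂ) else ((‖x‖ ^ b : ℝ) : ℂ)) = cL a b x v (((L.nL + 1 : ℕ) : ℤ) - L.nL) 0
      rw [if_neg (by omega)]
      have h1 : ((L.nL + 1 : ℕ) : ℤ) - L.nL = 1 := by push_cast; ring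
      rw [h1]
      exact (MvH2_cL2 X).symm
    rw [hb, if_neg h0]
    simp only [List.map_cons, List.sum_cons, cond_false, List.map_nil, List.sum_nil]
    rw [e1, e2, e3, e4, e5, e6]
    ring

/-- the labels (`xL_right`, `xL_left`) -/
theorem item_sum (X : Ctx L a b x D v s1 s2) (H : ShOK L C) (l : ℕ × ℕ) (hl : l ∈ labsM C.rR C.rL L.nL) :
    ((mkItem L (tRo C) (tLo C L.nL) l.1 l.2).sl.map fun s =>
        slT false s1 s2 (-1) s * (psiM L s1 s2 l s : ℂ)).sum * xL L a b x v s1 s2 l.1 l.2 =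
      (if 61 ≤ l.2 ∧ l.2 ≤ 67 then aR C a b x v s1 s2 (l.2 - 61) ((l.1 : ℤ) - 32) else 0) +
      (if 32 ≤ l.1 + L.nL ∧ l.1 ≤ 32 + L.nL then bL C L.nL a b x v s1 s2 (l.1 + L.nL - 32) ((l.2 : ℤ) - 64) else 0) := by
  have hn := H.rg.n2
  obtain ⟨hlab, hR, hLl, hcl⟩ := H.lab l hl
  have hRs : 61 ≤ l.2 ∧ l.2 ≤ 67 → ∀ w : Bool → Bool → ℕ,
      slT false s1 s2 (-1) (mkSlot (tRo C) (Nat.sub l.2 61) (Nat.sub (Nat.add l.1 (tRo C).P) 32) w) *
        (psiM L s1 s2 l (mkSlot (tRo C) (Nat.sub l.2 61) (Nat.sub (Nat.add l.1 (tRo C).P) 32) w) : ℂ) *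
          xL L a b x v s1 s2 l.1 l.2 = aR C a b x v s1 s2 (l.2 - 61) ((l.1 : ℤ) - 32) := by
    intro hj w
    have hr := hR hj
    rw [MvH2_sR H _ ((l.1 : ℤ) - 32) rfl (by show l.2 - 61 < 7; omega)
      (by show l.1 + C.PR - 32 ≤ 2 * C.PR; omega)
      (by show ((l.1 + C.PR - 32 : ℕ) : ℤ) - C.PR = (l.1 : ℤ) - 32; omega)]
    have hp : psiM L s1 s2 l (mkSlot (tRo C) (Nat.sub l.2 61) (Nat.sub (Nat.add l.1 (tRo C).P) 32) w) =
        psR L l.1 l.2 s1 s2 := rfl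
    rw [hp, mul_assoc, ← X.xL_right hlab hj]
    unfold aR
    have h1 : ((l.2 - 61 : ℕ) : ℤ) - 3 = jI l.2 := by
      unfold jI
      omega
    rw [h1]
    rfl
  have hLs : 32 ≤ l.1 + L.nL ∧ l.1 ≤ 32 + L.nL → ∀ w : Bool → Bool → ℕ,
      slT false s1 s2 (-1) (mkSlot (tLo C L.nL) (Nat.sub (Nat.add l.1 L.nL) 32) (Nat.sub (Nat.add l.2 (tLo C L.nL).P) 64) w) *
        (psiM L s1 s2 l
          (mkSlot (tLo C L.nL) (Nat.sub (Nat.add l.1 L.nL) 32) (Nat.sub (Nat.add l.2 (tLo C L.nL).P) 64) w) : ℂ) *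
          xL L a b x v s1 s2 l.1 l.2 = bL C L.nL a b x v s1 s2 (l.1 + L.nL - 32) ((l.2 : ℤ) - 64) := by
    intro hi w
    have hr := hLl hi
    rw [MvH2_sL H _ ((l.2 : ℤ) - 64) rfl (by show l.1 + L.nL - 32 < 2 * L.nL + 1; omega)
      (by show l.2 + C.PL - 64 ≤ 2 * C.PL; omega)
      (by show ((l.2 + C.PL - 64 : ℕ) : ℤ) - C.PL = (l.2 : ℤ) - 64; omega)]
    have hp : psiM L s1 s2 l
        (mkSlot (tLo C L.nL) (Nat.sub (Nat.add l.1 L.nL) 32) (Nat.sub (Nat.add l.2 (tLo C L.nL).P) 64) w) =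
        psL L l.1 l.2 s1 s2 := by
      unfold psiM
      rw [if_neg]
      show ¬ (L.nL + 1 = 4)
      omega
    rw [hp, mul_assoc, ← X.xL_left hlab hi]
    unfold bL
    have h1 : ((l.1 + L.nL - 32 : ℕ) : ℤ) - L.nL = iI l.1 := by
      unfold iI
      omega
    rw [h1]
    rfl
  have hsl : (mkItem L (tRo C) (tLo C L.nL) l.1 l.2).sl =
      cond (Bool.and (Nat.ble 61 l.2) (Nat.ble l.2 67))
        (mkSlot (tRo C) (Nat.sub l.2 61) (Nat.sub (Nat.add l.1 (tRo C).P) 32) (lab L l.1 l.2).r ::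
          cond (Bool.and (Nat.ble (Nat.sub 32 L.nL) l.1) (Nat.ble l.1 (Nat.add 32 L.nL)))
            [mkSlot (tLo C L.nL) (Nat.sub (Nat.add l.1 L.nL) 32) (Nat.sub (Nat.add l.2 (tLo C L.nL).P) 64) (lab L l.1 l.2).l] [])
        [mkSlot (tLo C L.nL) (Nat.sub (Nat.add l.1 L.nL) 32) (Nat.sub (Nat.add l.2 (tLo C L.nL).P) 64) (lab L l.1 l.2).l] := rfl
  rw [hsl]
  by_cases hj : 61 ≤ l.2 ∧ l.2 ≤ 67
  · have hb : Bool.and (Nat.ble 61 l.2) (Nat.ble l.2 67) = true := by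
      rw [Bool.and_eq_true]
      exact ⟨Nat.ble_eq_true_of_le hj.1, Nat.ble_eq_true_of_le hj.2⟩
    rw [hb, if_pos hj]
    by_cases hi : 32 ≤ l.1 + L.nL ∧ l.1 ≤ 32 + L.nL
    · have hb2 : Bool.and (Nat.ble (Nat.sub 32 L.nL) l.1) (Nat.ble l.1 (Nat.add 32 L.nL)) = true := by
        rw [Bool.and_eq_true]
        exact ⟨Nat.ble_eq_true_of_le (by show 32 - L.nL ≤ l.1; omega), Nat.ble_eq_true_of_le hi.2⟩
      rw [hb2, if_pos hi]
      simp only [List.map_cons, List.sum_cons, cond_true, List.map_nil, List.sum_nil]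
      rw [add_zero, add_mul, hRs hj, hLs hi]
    · have hb2 : Bool.and (Nat.ble (Nat.sub 32 L.nL) l.1) (Nat.ble l.1 (Nat.add 32 L.nL)) = false := by
        rw [Bool.eq_false_iff]
        intro h
        rw [Bool.and_eq_true] at h
        have h1 : 32 - L.nL ≤ l.1 := Nat.le_of_ble_eq_true h.1
        have h2 : l.1 ≤ 32 + L.nL := Nat.le_of_ble_eq_true h.2
        exact hi ⟨by omega, h2⟩
      rw [hb2, if_neg hi]
      simp only [List.map_cons, List.sum_cons, cond_true, cond_false, List.map_nil, List.sum_nil]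
      rw [add_zero, add_zero, hRs hj]
  · have hb : Bool.and (Nat.ble 61 l.2) (Nat.ble l.2 67) = false := by
      rw [Bool.eq_false_iff]
      intro h
      rw [Bool.and_eq_true] at h
      exact hj ⟨Nat.le_of_ble_eq_true h.1, Nat.le_of_ble_eq_true h.2⟩
    have hi : 32 ≤ l.1 + L.nL ∧ l.1 ≤ 32 + L.nL := by
      rcases hcl with h | h
      · exact absurd h hj
      · exact h
    rw [hb, if_neg hj, if_pos hi]
    simp only [List.map_cons, List.sum_cons, cond_false, List.map_nil, List.sum_nil]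
    rw [add_zero, zero_add, hLs hi]

end Pool.Agent.MaxTerm59b
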