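import Pool.Agent.MaxTerm59b.MvH

/-! Mismatched vertex with a generic ratio: assembly. -/

namespace Pool.Agent.MaxTerm59b
open Finset Pool.Agent.MaxTerm58

variable {L : LMV} {C : CMV} {a b : ℕ} {x : ℂ} {D : ℝ} {v : ℤ → ℂ} {s1 s2 : ℝ}

private theorem MvH3_cond {α : Type} (c : Bool) (p q : List α) (s : α) (h : s ∈ cond c p q) : s ∈ p ∨ s ∈ q := by
  cases c
  · exact Or.inr h
  · exact Or.inl h

private theorem MvH3_nR (C : CMV) : (tRo C).c.n1 = 4 := rfl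

private theorem MvH3_nL (C : CMV) (nL : ℕ) : (tLo C nL).c.n1 = nL + 1 := rfl

private theorem MvH3_n2 (X : Ctx L a b x D v s1 s2) : L.nL ≤ 2 := by
  rcases X.I.nLc with h | ⟨h, -⟩ | ⟨h, -⟩ <;> omega

/-- the slots of the items and the constants are admissible -/
theorem slots_ok (X : Ctx L a b x D v s1 s2) (H : ShOK L C) : ∀ l ∈ labsM C.rR C.rL L.nL,
    ∀ s ∈ (mkItem L (tRo C) (tLo C L.nL) l.1 l.2).sl, SlotOK false s1 s2 (-1) s (psiM L s1 s2 l s) := by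
  intro l _ s hs
  have hR : ∀ cl pw : ℕ, SlotOK false s1 s2 (-1) (mkSlot (tRo C) cl pw (lab L l.1 l.2).r)
      (psiM L s1 s2 l (mkSlot (tRo C) cl pw (lab L l.1 l.2).r)) := by
    intro cl pw
    have h4 : (mkSlot (tRo C) cl pw (lab L l.1 l.2).r).t.c.n1 = 4 := MvH3_nR C
    have h5 : psiM L s1 s2 l (mkSlot (tRo C) cl pw (lab L l.1 l.2).r) = psR L l.1 l.2 s1 s2 := if_pos h4
    rw [h5]
    exact slotR_ok X.G l.1 l.2 s1 s2 X.h1 X.h2 _ cl pw
  have hL : ∀ cl pw : ℕ, SlotOK false s1 s2 (-1) (mkSlot (tLo C L.nL) cl pw (lab L l.1 l.2).l)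
      (psiM L s1 s2 l (mkSlot (tLo C L.nL) cl pw (lab L l.1 l.2).l)) := by
    intro cl pw
    have h3 : (mkSlot (tLo C L.nL) cl pw (lab L l.1 l.2).l).t.c.n1 = L.nL + 1 := MvH3_nL C L.nL
    have hn := MvH3_n2 X
    have h4 : ¬ (mkSlot (tLo C L.nL) cl pw (lab L l.1 l.2).l).t.c.n1 = 4 := by
      rw [h3]
      omega
    have h5 : psiM L s1 s2 l (mkSlot (tLo C L.nL) cl pw (lab L l.1 l.2).l) = psL L l.1 l.2 s1 s2 := if_neg h4
    rw [h5]
    exact slotL_ok X.G l.1 l.2 s1 s2 X.h1 X.h2 _ cl pw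
  have hs' : s ∈ cond (Bool.and (Nat.ble 61 l.2) (Nat.ble l.2 67))
      (mkSlot (tRo C) (Nat.sub l.2 61) (Nat.sub (Nat.add l.1 (tRo C).P) 32) (lab L l.1 l.2).r ::
        cond (Bool.and (Nat.ble (Nat.sub 32 L.nL) l.1) (Nat.ble l.1 (Nat.add 32 L.nL)))
          [mkSlot (tLo C L.nL) (Nat.sub (Nat.add l.1 L.nL) 32) (Nat.sub (Nat.add l.2 (tLo C L.nL).P) 64) (lab L l.1 l.2).l] [])
      [mkSlot (tLo C L.nL) (Nat.sub (Nat.add l.1 L.nL) 32) (Nat.sub (Nat.add l.2 (tLo C L.nL).P) 64) (lab L l.1 l.2).l] := hs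
  rcases MvH3_cond _ _ _ _ hs' with h | h
  · rcases List.mem_cons.1 h with h | h
    · rw [h]
      exact hR _ _
    · rcases MvH3_cond _ _ _ _ h with h | h
      · rw [List.mem_singleton.1 h]
        exact hL _ _
      · exact absurd h (List.not_mem_nil)
  · rw [List.mem_singleton.1 h]
    exact hL _ _

/-- Hint: `ai 0 0 s2 = 0`, `ai 1 1 s2 = 1`, and for `nL ≠ 0`: `R1 ≠ 0`, `‖x‖ ^ b = (‖x‖ ^ a) ^ (b / a)`. -/
theorem cons_ok (X : Ctx L a b x D v s1 s2) (H : ShOK L C) : ∀ s ∈ consMV L (tRo C) (tLo C L.nL),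
    CSlotOK false s1 s2 (-1) s (zetM L a b x s) := by
  have hx := X.H.x01
  have hn := MvH3_n2 X
  have h0 : ((gi ((L.T0 : ℝ) / 65536) ((L.T1 : ℝ) / 65536) s1 ^ ai (((0 : ℕ) : ℝ) / 256) (((0 : ℕ) : ℝ) / 256) s2 : ℝ) : ℂ) = 1 := by
    have : ai (((0 : ℕ) : ℝ) / 256) (((0 : ℕ) : ℝ) / 256) s2 = 0 := by
      unfold ai
      norm_num
    rw [this, Real.rpow_zero]
    norm_num
  have h1 : ((gi ((L.T0 : ℝ) / 65536) ((L.T1 : ℝ) / 65536) s1 ^ ai (((256 : ℕ) : ℝ) / 256) (((256 : ℕ) : ℝ) / 256) s2 : ℝ) : ℂ) =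
      ((‖x‖ ^ a : ℝ) : ℂ) := by
    have : ai (((256 : ℕ) : ℝ) / 256) (((256 : ℕ) : ℝ) / 256) s2 = 1 := by
      unfold ai
      norm_num
      ring
    rw [this, Real.rpow_one, ← X.ht]
  have zR : ∀ cl pw q0 q1 : ℕ, zetM L a b x (cstM L (tRo C) cl pw q0 q1) = if cl = 3 then 1 else ((‖x‖ ^ a : ℝ) : ℂ) := by
    intro cl pw q0 q1
    have h4 : (cstM L (tRo C) cl pw q0 q1).s.t.c.n1 = 4 := MvH3_nR C
    have h5 : (cstM L (tRo C) cl pw q0 q1).s.cl = cl := rfl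
    unfold zetM
    rw [if_pos h4, h5]
  have zL : ∀ cl pw q0 q1 : ℕ, zetM L a b x (cstM L (tLo C L.nL) cl pw q0 q1) =
      if cl = L.nL then 1 else ((‖x‖ ^ b : ℝ) : ℂ) := by
    intro cl pw q0 q1
    have h3 : (cstM L (tLo C L.nL) cl pw q0 q1).s.t.c.n1 = L.nL + 1 := MvH3_nL C L.nL
    have h4 : ¬ (cstM L (tLo C L.nL) cl pw q0 q1).s.t.c.n1 = 4 := by
      rw [h3]
      omega
    have h5 : (cstM L (tLo C L.nL) cl pw q0 q1).s.cl = cl := rfl
    unfold zetM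
    rw [if_neg h4, h5]
  have A : ∀ (t : Tab) (cl pw : ℕ) (ζ : ℂ), ζ = 1 → CSlotOK false s1 s2 (-1) (cstM L t cl pw 0 0) ζ := by
    intro t cl pw ζ hζ
    have := cst_ok X.G 0 0 s1 s2 X.h1 X.h2 t cl pw
    rw [h0] at this
    rw [hζ]
    exact this
  intro s hs
  have hs' : s ∈ cstM L (tRo C) 3 (tRo C).P 0 0 :: cstM L (tRo C) 3 (Nat.succ (tRo C).P) 0 0 ::
      cstM L (tRo C) 2 (tRo C).P 256 256 ::
      cstM L (tLo C L.nL) L.nL (tLo C L.nL).P 0 0 :: cstM L (tLo C L.nL) L.nL (Nat.sub (tLo C L.nL).P 1) 0 0 ::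
      cond (Nat.beq L.nL 0) [] [cstM L (tLo C L.nL) (Nat.succ L.nL) (tLo C L.nL).P (Nat.mul 4 L.R0) (Nat.mul 4 L.R1)] := hs
  rcases List.mem_cons.1 hs' with h | h
  · rw [h]
    refine A _ _ _ _ ?_
    rw [zR, if_pos rfl]
  rcases List.mem_cons.1 h with h | h
  · rw [h]
    refine A _ _ _ _ ?_
    rw [zR, if_pos rfl]
  rcases List.mem_cons.1 h with h | h
  · rw [h, zR, if_neg (by norm_num), ← h1]
    exact cst_ok X.G 256 256 s1 s2 X.h1 X.h2 _ _ _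
  rcases List.mem_cons.1 h with h | h
  · rw [h]
    refine A _ _ _ _ ?_
    rw [zL, if_pos rfl]
  rcases List.mem_cons.1 h with h | h
  · rw [h]
    refine A _ _ _ _ ?_
    rw [zL, if_pos rfl]
  · by_cases hz : L.nL = 0
    · rw [hz] at h
      exact absurd h (List.not_mem_nil)
    · have hb : Nat.beq L.nL 0 = false := by
        rcases hL : L.nL with _ | k
        · exact absurd hL hz
        · rfl
      rw [hb] at h
      have h' := List.mem_singleton.1 h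
      rw [h', zL, if_neg (by simp)]
      have hR1 : L.R1 ≠ 0 := by
        rcases X.I.nLc with h | ⟨-, h, -⟩ | ⟨-, h, -⟩
        · exact absurd h hz
        · omega
        · omega
      have hr : (b : ℝ) / a = ai ((L.R0 : ℝ) / 64) ((L.R1 : ℝ) / 64) s2 := by
        rcases X.hr with h | h
        · exact absurd h hR1
        · exact h
      have ha : (0 : ℝ) < a := by exact_mod_cast X.H.ha
      have e1 : ai (((Nat.mul 4 L.R0 : ℕ) : ℝ) / 256) (((Nat.mul 4 L.R1 : ℕ) : ℝ) / 256) s2 = (b : ℝ) / a := by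
        rw [hr]
        have e2 : ((Nat.mul 4 L.R0 : ℕ) : ℝ) / 256 = (L.R0 : ℝ) / 64 := by
          have : (Nat.mul 4 L.R0 : ℕ) = 4 * L.R0 := rfl
          rw [this]
          push_cast
          ring
        have e3 : ((Nat.mul 4 L.R1 : ℕ) : ℝ) / 256 = (L.R1 : ℝ) / 64 := by
          have : (Nat.mul 4 L.R1 : ℕ) = 4 * L.R1 := rfl
          rw [this]
          push_cast
          ring
        rw [e2, e3]
      have e4 : ((gi ((L.T0 : ℝ) / 65536) ((L.T1 : ℝ) / 65536) s1 ^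
          ai (((Nat.mul 4 L.R0 : ℕ) : ℝ) / 256) (((Nat.mul 4 L.R1 : ℕ) : ℝ) / 256) s2 : ℝ) : ℂ) = ((‖x‖ ^ b : ℝ) : ℂ) := by
        rw [e1, ← X.ht]
        congr 1
        rw [← Real.rpow_natCast ‖x‖ a, ← Real.rpow_mul hx.1.le]
        have : (a : ℝ) * ((b : ℝ) / a) = b := by
          field_simp
        rw [this, Real.rpow_natCast]
      rw [← e4]
      exact cst_ok X.G _ _ s1 s2 X.h1 X.h2 _ _ _

end Pool.Agent.MaxTerm59b
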