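import Pool.Agent.MaxTerm59b.MvH

/-! Mismatched vertex with a generic ratio: assembly. -/

namespace Pool.Agent.MaxTerm59b
open Finset Pool.Agent.MaxTerm58

variable {L : LMV} {C : CMV} {a b : ℕ} {x : ℂ} {D : ℝ} {v : ℤ → ℂ} {s1 s2 : ℝ}

private theorem MvH4_left (X : Ctx L a b x D v s1 s2) :
    L.nL = 0 ∨ (L.nL = 1 ∧ b ≤ 3 * a) ∨ (L.nL = 2 ∧ b ≤ 2 * a) := by
  rcases X.I.nLc with h | ⟨h, h0, h1⟩ | ⟨h, h0, h1⟩
  · exact Or.inl h
  · refine Or.inr (Or.inl ⟨h, ?_⟩)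
    rcases X.I.r1 with h2 | h2
    · omega
    · have : L.R1 * a ≤ 192 * a := Nat.mul_le_mul_right a h1
      omega
  · refine Or.inr (Or.inr ⟨h, ?_⟩)
    rcases X.I.r1 with h2 | h2
    · omega
    · have : L.R1 * a ≤ 128 * a := Nat.mul_le_mul_right a h1
      omega

private theorem MvH4_add (cx : Bool) (n : ℕ) (b1 b2 b3 : Bool) (l : List (ℕ × List ℕ)) (c : ℕ) :
    costNodes cx (mkSC cx n) b1 b2 b3 (nodes cx (mkSC cx n) l) c =
      costNodes cx (mkSC cx n) b1 b2 b3 (nodes cx (mkSC cx n) l) 0 + c := by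
  rw [costNodes_eq, costNodes_eq cx n b1 b2 b3 l 0]
  omega

private theorem MvH4_vs_add (s1 s2 s3 : ℝ) (f g : Bool → Bool → Bool → ℝ) :
    vs s1 s2 s3 (fun b1 b2 b3 => f b1 b2 b3 + g b1 b2 b3) = vs s1 s2 s3 f + vs s1 s2 s3 g := by
  unfold vs
  simp only [mul_add, Finset.sum_add_distrib]

private theorem MvH4_max (x y : ℕ) : x ≤ maxN x y ∧ y ≤ maxN x y := by
  have : maxN x y = x + (y - x) := rfl
  omega

/-- the right side -/
private theorem MvH4_R (X : Ctx L a b x D v s1 s2) (H : ShOK L C) (hD1 : C.D1 = L.D1)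
    (hlen : (labsM C.rR C.rL L.nL).length ≤ 900) :
    ‖∑ e ∈ range 7, ∑ p ∈ rgF C.rR 32 e, aR C a b x v s1 s2 e p‖ ≤
      (170919 / 100000 + ((tailR L (omD L) (omt L) C.rR 61 : ℕ) : ℝ) / 2 ^ 40 + 1 / 2 ^ 28) * 2 ^ 40 *
        costS false 3 s1 s2 (-1) C.wR := by
  have hD : Nat.shiftRight L.D1.a 10 < 1099511627775 := by
    rw [← hD1]
    exact H.D1
  have hc := (card_le C.rR C.rL L.nL H.rg hlen).1
  have h := side_ineq false 3 (cR a b x v) X.H.rightHyp X.H.cR_le_one (rgF C.rR 32)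
    (fun e => ((geo (Nat.add (mx4 (lab L (Nat.add (C.rR.getD e (0, 0)).1 (C.rR.getD e (0, 0)).2) (61 + e)).r) 8) (omD L) : ℕ) +
        (geo (Nat.add (mx4 (lab L (Nat.sub (C.rR.getD e (0, 0)).1 1) (61 + e)).r) 8) (omt L) : ℕ) : ℝ) / 2 ^ 40)
    (fun e he p hp => (H.rgR e (by omega) p hp).trans (by exact_mod_cast H.PR)) hc
    (fun e he S hS => by
      have hj : jI (61 + e) = (e : ℤ) - ((3 : ℕ) : ℤ) := by
        unfold jI
        push_cast
        ring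
      rw [← hj]
      exact X.tail_R hD C.PR (61 + e) ⟨by omega, by omega⟩ (C.rR.getD e (0, 0))
        (okR_get C.rR 61 H.okR e (by rw [H.rg.lR]; omega)) S hS)
    C.wR H.kR s1 s2 (-1)
  have ht : ∑ e ∈ range (2 * 3 + 1), ((geo (Nat.add (mx4 (lab L (Nat.add (C.rR.getD e (0, 0)).1 (C.rR.getD e (0, 0)).2) (61 + e)).r) 8) (omD L) : ℕ) +
        (geo (Nat.add (mx4 (lab L (Nat.sub (C.rR.getD e (0, 0)).1 1) (61 + e)).r) 8) (omt L) : ℕ) : ℝ) / 2 ^ 40 =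
      ((tailR L (omD L) (omt L) C.rR 61 : ℕ) : ℝ) / 2 ^ 40 := by
    rw [tailR_eq, H.rg.lR, Nat.cast_sum, Finset.sum_div]
    refine Finset.sum_congr rfl fun e _ => ?_
    rw [Nat.cast_add]
  rw [ht] at h
  exact h

/-- the left side -/
private theorem MvH4_L (X : Ctx L a b x D v s1 s2) (H : ShOK L C) (hD1 : C.D1 = L.D1)
    (hlen : (labsM C.rR C.rL L.nL).length ≤ 900) :
    ‖∑ e ∈ range (2 * L.nL + 1), ∑ p ∈ rgF C.rL 64 e, bL C L.nL a b x v s1 s2 e p‖ ≤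
      (170919 / 100000 + ((tailL L (omD L) (omt L) C.rL (32 - L.nL) : ℕ) : ℝ) / 2 ^ 40 + 1 / 2 ^ 28) * 2 ^ 40 *
        costS false L.nL s1 s2 (-1) C.wL := by
  have hD : Nat.shiftRight L.D1.a 10 < 1099511627775 := by
    rw [← hD1]
    exact H.D1
  have hn := H.rg.n2
  have hc := (card_le C.rR C.rL L.nL H.rg hlen).2
  have h := side_ineq false L.nL (cL a b x v) (X.H.leftHyp L.nL (MvH4_left X)) X.H.cL_le_one (rgF C.rL 64)
    (fun e => ((geo (Nat.add (mx4 (lab L (32 - L.nL + e) (Nat.add (C.rL.getD e (0, 0)).1 (C.rL.getD e (0, 0)).2)).l) 8) (omt L) : ℕ) +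
        (geo (Nat.add (mx4 (lab L (32 - L.nL + e) (Nat.sub (C.rL.getD e (0, 0)).1 1)).l) 8) (omD L) : ℕ) : ℝ) / 2 ^ 40)
    (fun e he p hp => (H.rgL e he p hp).trans (by exact_mod_cast H.PL)) hc
    (fun e he S hS => by
      have hj : iI (32 - L.nL + e) = (e : ℤ) - (L.nL : ℤ) := by
        unfold iI
        omega
      rw [← hj]
      exact X.tail_L hD C.PL (32 - L.nL + e) ⟨by omega, by omega⟩ (C.rL.getD e (0, 0))
        (okL_get C.rL (32 - L.nL) H.okL e (by rw [H.rg.lL]; omega)) S hS)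
    C.wL H.kL s1 s2 (-1)
  have ht : ∑ e ∈ range (2 * L.nL + 1), ((geo (Nat.add (mx4 (lab L (32 - L.nL + e) (Nat.add (C.rL.getD e (0, 0)).1 (C.rL.getD e (0, 0)).2)).l) 8) (omt L) : ℕ) +
        (geo (Nat.add (mx4 (lab L (32 - L.nL + e) (Nat.sub (C.rL.getD e (0, 0)).1 1)).l) 8) (omD L) : ℕ) : ℝ) / 2 ^ 40 =
      ((tailL L (omD L) (omt L) C.rL (32 - L.nL) : ℕ) : ℝ) / 2 ^ 40 := by
    rw [tailL_eq, H.rg.lL, Nat.cast_sum, Finset.sum_div]
    refine Finset.sum_congr rfl fun e _ => ?_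
    rw [Nat.cast_add]
  rw [ht] at h
  exact h

/-- the bound of the two sides. Hint: `side_ineq` for both sides, `tail_R`, `tail_L`, `tailR_eq`, `tailL_eq`,
`card_le`, `costS_le`, `costNodes_eq`. -/
theorem sides_le (X : Ctx L a b x D v s1 s2) (H : ShOK L C) (hD1 : C.D1 = L.D1)
    (hlen : (labsM C.rR C.rL L.nL).length ≤ 900) :
    ‖∑ e ∈ range 7, ∑ p ∈ rgF C.rR 32 e, aR C a b x v s1 s2 e p +
        ∑ e ∈ range (2 * L.nL + 1), ∑ p ∈ rgF C.rL 64 e, bL C L.nL a b x v s1 s2 e p‖ ≤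
      (170919 / 100000 + (maxN (tailR L (omD L) (omt L) C.rR 61) (tailL L (omD L) (omt L) C.rL (32 - L.nL)) : ℕ) / 2 ^ 40 +
        1 / 2 ^ 28) * 2 ^ 40 *
        vs s1 s2 (-1) (fun b1 b2 b3 => (costNodes false (mkSC false L.nL) b1 b2 b3 (nodes false (mkSC false L.nL) C.wL)
          (costNodes false (mkSC false 3) b1 b2 b3 (nodes false (mkSC false 3) C.wR) 0) : ℝ)) := by
  have hR := MvH4_R X H hD1 hlen
  have hL := MvH4_L X H hD1 hlen
  have hcR := costS_le false 3 s1 s2 (-1) X.h1 X.h2 (by norm_num) C.wR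
  have hcL := costS_le false L.nL s1 s2 (-1) X.h1 X.h2 (by norm_num) C.wL
  have hm := MvH4_max (tailR L (omD L) (omt L) C.rR 61) (tailL L (omD L) (omt L) C.rL (32 - L.nL))
  have hvs : vs s1 s2 (-1) (fun b1 b2 b3 => (costNodes false (mkSC false L.nL) b1 b2 b3 (nodes false (mkSC false L.nL) C.wL)
          (costNodes false (mkSC false 3) b1 b2 b3 (nodes false (mkSC false 3) C.wR) 0) : ℝ)) =
      vs s1 s2 (-1) (fun b1 b2 b3 => (costNodes false (mkSC false L.nL) b1 b2 b3 (nodes false (mkSC false L.nL) C.wL) 0 : ℝ)) +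
      vs s1 s2 (-1) (fun b1 b2 b3 => (costNodes false (mkSC false 3) b1 b2 b3 (nodes false (mkSC false 3) C.wR) 0 : ℝ)) := by
    rw [← MvH4_vs_add]
    congr 1
    funext b1 b2 b3
    rw [MvH4_add false L.nL b1 b2 b3 C.wL, Nat.cast_add]
  rw [hvs]
  set M : ℕ := maxN (tailR L (omD L) (omt L) C.rR 61) (tailL L (omD L) (omt L) C.rL (32 - L.nL)) with hM
  have h1 : ((tailR L (omD L) (omt L) C.rR 61 : ℕ) : ℝ) ≤ (M : ℝ) := by exact_mod_cast hm.1
  have h2 : ((tailL L (omD L) (omt L) C.rL (32 - L.nL) : ℕ) : ℝ) ≤ (M : ℝ) := by exact_mod_cast hm.2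
  have n1 := costS_nonneg false 3 s1 s2 (-1) C.wR
  have n2 := costS_nonneg false L.nL s1 s2 (-1) C.wL
  have hK : (0 : ℝ) ≤ (170919 / 100000 + (M : ℝ) / 2 ^ 40 + 1 / 2 ^ 28) * 2 ^ 40 := by positivity
  have k1 : (170919 / 100000 + ((tailR L (omD L) (omt L) C.rR 61 : ℕ) : ℝ) / 2 ^ 40 + 1 / 2 ^ 28) * 2 ^ 40 ≤
      (170919 / 100000 + (M : ℝ) / 2 ^ 40 + 1 / 2 ^ 28) * 2 ^ 40 := by
    refine mul_le_mul_of_nonneg_right ?_ (by positivity)
    have := div_le_div_of_nonneg_right h1 (show (0 : ℝ) ≤ 2 ^ 40 by positivity)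
    linarith
  have k2 : (170919 / 100000 + ((tailL L (omD L) (omt L) C.rL (32 - L.nL) : ℕ) : ℝ) / 2 ^ 40 + 1 / 2 ^ 28) * 2 ^ 40 ≤
      (170919 / 100000 + (M : ℝ) / 2 ^ 40 + 1 / 2 ^ 28) * 2 ^ 40 := by
    refine mul_le_mul_of_nonneg_right ?_ (by positivity)
    have := div_le_div_of_nonneg_right h2 (show (0 : ℝ) ≤ 2 ^ 40 by positivity)
    linarith
  refine (norm_add_le _ _).trans ?_
  refine (add_le_add (hR.trans (mul_le_mul_of_nonneg_right k1 n1)) (hL.trans (mul_le_mul_of_nonneg_right k2 n2))).trans ?_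
  rw [mul_add, add_comm]
  exact add_le_add (mul_le_mul_of_nonneg_left hcL hK) (mul_le_mul_of_nonneg_left hcR hK)

end Pool.Agent.MaxTerm59b
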