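import Pool.Agent.MaxTerm59b.MvH2
import Pool.Agent.MaxTerm59b.MvH3
import Pool.Agent.MaxTerm59b.MvH4

/-! Mismatched vertex with a generic ratio: soundness of the check. -/

namespace Pool.Agent.MaxTerm59b
open Finset Pool.Agent.MaxTerm58

private theorem MvI_and {p q : Bool} (h : Bool.and p q = true) : p = true ∧ q = true := by
  cases p <;> cases q <;> simp_all

private theorem MvI_finv {L : LMV} {C : CMV} {cR cL : SC} {nR nL : List Nd} {its : List Item} {co : List CSlot} {tail ec : ℕ}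
    (h : chkV L C cR cL nR nL its co tail ec = true) : its.length ≤ 900 ∧ ∀ b1 b2 b3 : Bool, b3 = false →
      runI false b1 b2 b3 (C.l1 b1 b2) (C.l2 b1 b2) its 0 0 0 (fun t x y =>
        finV tail L.E L.E ec (costNodes false cL b1 b2 b3 nL (costNodes false cR b1 b2 b3 nR 0))
          (mainP false b1 b2 b3 co) (mainN false b1 b2 b3 co) t x y (C.l1 b1 b2) (C.l2 b1 b2)) = true := by
  unfold chkV at h
  obtain ⟨h0, h⟩ := MvI_and h
  obtain ⟨h1, h2⟩ := MvI_and h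
  obtain ⟨h3, h4⟩ := MvI_and h1
  obtain ⟨h5, h6⟩ := MvI_and h2
  refine ⟨Nat.le_of_ble_eq_true h0, ?_⟩
  intro b1 b2 b3 hb
  subst hb
  cases b1 <;> cases b2
  · exact h3
  · exact h5
  · exact h4
  · exact h6

private theorem MvI_grp (L : LMV) (tR tL : Tab) (i j : ℕ) :
    (mkItem L tR tL i j).grp ≤ 2 ∧
    ((mkItem L tR tL i j).grp = 1 → lrt L i j = true ∧ lgrp L i j = true) ∧
    ((mkItem L tR tL i j).grp = 2 → lrt L i j = false ∧ lgrp L i j = true) ∧
    (mkItem L tR tL i j).cu = (lab L i j).cu := by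
  have hg : (mkItem L tR tL i j).grp = cond (lab L i j).grp (cond (lab L i j).rt 1 2) 0 := rfl
  have h1 : (lab L i j).grp = lgrp L i j := by rw [lab_eq]
  have h2 : (lab L i j).rt = lrt L i j := by rw [lab_eq]
  rw [hg, h1, h2]
  refine ⟨?_, ?_, ?_, rfl⟩
  · cases lgrp L i j <;> cases lrt L i j <;> decide
  · cases lgrp L i j <;> cases lrt L i j <;> decide
  · cases lgrp L i j <;> cases lrt L i j <;> decide

theorem chkL_false {L : LMV} {C : CMV} {a b : ℕ} {x : ℂ} {D : ℝ} {v : ℤ → ℂ} {s1 s2 : ℝ}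
    (X : Ctx L a b x D v s1 s2) (hD : C.D1 = L.D1)
    (h : chkL TC TS L C (mkSC false 3) (mkSC false L.nL) = true) : False := by
  obtain ⟨h1, h2⟩ := MvI_and h
  have hn : L.nL ≤ 2 := by
    rcases X.I.nLc with h | ⟨h, -⟩ | ⟨h, -⟩ <;> omega
  have H := shOK_of h1 hn
  have h3 : chkV L C (mkSC false 3) (mkSC false L.nL) (nodes false (mkSC false 3) C.wR)
      (nodes false (mkSC false L.nL) C.wL)
      (allR L (tRo C) (tLo C L.nL) C.rR 61 (allL L (tRo C) (tLo C L.nL) C.rL (32 - L.nL) []))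
      (consMV L (tRo C) (tLo C L.nL))
      (maxN (tailR L (Nat.sub 1099511627775 (Nat.shiftRight C.D1.a 10)) (Nat.sub 1099511627776 (Nat.shiftLeft L.T1 24))
          C.rR 61)
        (tailL L (Nat.sub 1099511627775 (Nat.shiftRight C.D1.a 10)) (Nat.sub 1099511627776 (Nat.shiftLeft L.T1 24))
          C.rL (32 - L.nL)))
      (Nat.succ (Nat.shiftRight (mainE false (consMV L (tRo C) (tLo C L.nL))) 76)) = true := h2
  rw [hD] at h3
  have hits : allR L (tRo C) (tLo C L.nL) C.rR 61 (allL L (tRo C) (tLo C L.nL) C.rL (32 - L.nL) []) =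
      (labsM C.rR C.rL L.nL).map (fun l => mkItem L (tRo C) (tLo C L.nL) l.1 l.2) := by
    rw [allR_eq, allL_eq, List.append_nil, ← List.map_append]
    rfl
  rw [hits] at h3
  obtain ⟨hlen, hv⟩ := MvI_finv h3
  rw [List.length_map] at hlen
  have hnd := labsM_nodup C.rR C.rL L.nL H.rg.lR
  have hS : ∀ g : ℕ, ∀ l ∈ (labsM C.rR C.rL L.nL).toFinset.filter
      (fun l => (mkItem L (tRo C) (tLo C L.nL) l.1 l.2).grp = g), LabC L l.1 l.2 ∧
        (mkItem L (tRo C) (tLo C L.nL) l.1 l.2).grp = g := by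
    intro g l hl
    rw [mem_filter, List.mem_toFinset] at hl
    exact ⟨(H.lab l hl.1).1, hl.2⟩
  have hsplit := side_split C.rR C.rL L.nL H.rg (aR C a b x v s1 s2) (bL C L.nL a b x v s1 s2)
  have hsides := sides_le X H hD hlen
  refine dual_core false s1 s2 (-1) X.h1 X.h2 (by norm_num) (fun _ => rfl) (labsM C.rR C.rL L.nL) hnd
    (fun l => mkItem L (tRo C) (tLo C L.nL) l.1 l.2) (fun l _ => (MvI_grp L _ _ l.1 l.2).1)
    (consMV L (tRo C) (tLo C L.nL)) _ L.E L.E (fun b1 b2 _ => C.l1 b1 b2) (fun b1 b2 _ => C.l2 b1 b2) _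
    (fun b1 b2 b3 hb => hv b1 b2 b3 (hb rfl)) (fun l => xL L a b x v s1 s2 l.1 l.2)
    (fun l hl => X.xL_norm (H.lab l hl).1) (psiM L s1 s2) (slots_ok X H) (zetM L a b x) (cons_ok X H)
    ((L.E : ℝ) / 2 ^ 40) ((L.E : ℝ) / 2 ^ 40) X.E_ge X.E_ge le_rfl le_rfl ?_ ?_ ?_
  · obtain ⟨u, hu1, hu2⟩ := X.ball_R ((labsM C.rR C.rL L.nL).toFinset.filter
      (fun l => (mkItem L (tRo C) (tLo C L.nL) l.1 l.2).grp = 1)) (fun l hl => by
        have := hS 1 l hl
        exact ⟨this.1, (MvI_grp L _ _ l.1 l.2).2.1 this.2⟩)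
    refine ⟨u, hu2, fun hu hg => ?_⟩
    rw [(MvI_grp L _ _ u.1 u.2).2.2.2]
    refine hu1 ?_
    rw [mem_filter, List.mem_toFinset]
    exact ⟨hu, hg⟩
  · obtain ⟨u, hu1, hu2⟩ := X.ball_L ((labsM C.rR C.rL L.nL).toFinset.filter
      (fun l => (mkItem L (tRo C) (tLo C L.nL) l.1 l.2).grp = 2)) (fun l hl => by
        have := hS 2 l hl
        exact ⟨this.1, (MvI_grp L _ _ l.1 l.2).2.2.1 this.2⟩)
    refine ⟨u, hu2, fun hu hg => ?_⟩
    rw [(MvI_grp L _ _ u.1 u.2).2.2.2]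
    refine hu1 ?_
    rw [mem_filter, List.mem_toFinset]
    exact ⟨hu, hg⟩
  · have he : ((consMV L (tRo C) (tLo C L.nL)).map fun s => slT false s1 s2 (-1) s.s * zetM L a b x s).sum +
        ((labsM C.rR C.rL L.nL).map fun l => (((mkItem L (tRo C) (tLo C L.nL) l.1 l.2).sl).map fun s =>
          slT false s1 s2 (-1) s * (psiM L s1 s2 l s : ℂ)).sum * xL L a b x v s1 s2 l.1 l.2).sum =
        ∑ e ∈ range 7, ∑ p ∈ rgF C.rR 32 e, aR C a b x v s1 s2 e p +
        ∑ e ∈ range (2 * L.nL + 1), ∑ p ∈ rgF C.rL 64 e, bL C L.nL a b x v s1 s2 e p := by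
      rw [hsplit, cons_sum X H]
      congr 2
      exact List.map_congr_left fun l hl => item_sum X H l hl
    rw [he]
    exact hsides

/-- soundness of the check of a leaf -/
theorem chkMV_sound {nL T0 T1 R0 R1 RM LM : ℕ} {C : CMV} (h : chkMV TC TS nL T0 T1 R0 R1 RM LM C = true)
    {a b : ℕ} {x : ℂ} {D : ℝ} {v : ℤ → ℂ} (H : HypMV RM LM a b x D v) (I : InCell nL T0 T1 R0 R1 a b x) : False := by
  obtain ⟨h1, h2⟩ := MvI_and h
  have G := mkL_good nL T0 T1 R0 R1 RM LM C I.T0' h1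
  obtain ⟨s1, s2, X⟩ := exists_ctx (L := mkL nL T0 T1 R0 R1 RM LM C) G H I
  exact chkL_false (C := C) X rfl h2

end Pool.Agent.MaxTerm59b
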