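import Pool.Agent.MaxTerm59b.DecB

/-! Sums over the rows of a node and over the nodes. -/

namespace Pool.Agent.MaxTerm59b
open Finset

/-- packed sum of the rows of a node -/
def ndP (cx : Bool) (n : ℕ) (r : List ℕ) : GI := (r.map (rowP cx n)).sum

private theorem NsS_sumRows (l : List RowD) (a b : ℕ) (k : ℕ → ℕ → Ns) :
    sumRows l a b k = k (a + (l.map fun r => r.pr).sum) (b + (l.map fun r => r.pi).sum) := by
  induction l generalizing a b with
  | nil => rfl
  | cons r l ih =>
    have h : sumRows (r :: l) a b k = sumRows l (a + r.pr) (b + r.pi) k := rfl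
    rw [h, ih, List.map_cons, List.map_cons, List.sum_cons, List.sum_cons, Nat.add_assoc,
      Nat.add_assoc]

private theorem NsS_pr (cx : Bool) (n : ℕ) (r : List ℕ) :
    (((((r.map (decode cx (mkSC cx n))).map fun r => r.pr).sum : ℕ)) : ℤ) ≡ (ndP cx n r).re
      [ZMOD ((Y100 : ℤ) ^ (Kc cx * (2 * n + 1)))] := by
  induction r with
  | nil => exact Int.ModEq.refl _
  | cons x r ih =>
    have h : ndP cx n (x :: r) = rowP cx n x + ndP cx n r := by
      unfold ndP
      rw [List.map_cons, List.sum_cons]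
    rw [h, List.map_cons, List.map_cons, List.sum_cons, Nat.cast_add, Zsqrtd.re_add]
    exact (decode_pr cx n x).add ih

private theorem NsS_pi (cx : Bool) (n : ℕ) (r : List ℕ) :
    (((((r.map (decode cx (mkSC cx n))).map fun r => r.pi).sum : ℕ)) : ℤ) ≡ (ndP cx n r).im
      [ZMOD ((Y100 : ℤ) ^ (Kc cx * (2 * n + 1)))] := by
  induction r with
  | nil => exact Int.ModEq.refl _
  | cons x r ih =>
    have h : ndP cx n (x :: r) = rowP cx n x + ndP cx n r := by
      unfold ndP
      rw [List.map_cons, List.sum_cons]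
    rw [h, List.map_cons, List.map_cons, List.sum_cons, Nat.cast_add, Zsqrtd.im_add]
    exact (decode_pi cx n x).add ih

private theorem NsS_mod (cx : Bool) (n a : ℕ) :
    (((a % (mkSC cx n).M : ℕ)) : ℤ) ≡ (a : ℤ) [ZMOD ((Y100 : ℤ) ^ (Kc cx * (2 * n + 1)))] := by
  have h : (((mkSC cx n).M : ℕ) : ℤ) = (Y100 : ℤ) ^ (Kc cx * (2 * n + 1)) := by
    rw [mkSC_M, Nat.cast_pow]
  rw [Int.natCast_mod, h]
  exact Int.mod_modEq _ _

/-- the summed nodes: index, and residues of the packed sums -/
theorem nsum_spec (cx : Bool) (n : ℕ) (l : List (ℕ × List ℕ)) :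
    List.Forall₂ (fun (nd : ℕ × List ℕ) (s : Ns) => s.k = nd.1 ∧
      (s.pr : ℤ) ≡ (ndP cx n nd.2).re [ZMOD ((Y100 : ℤ) ^ (Kc cx * (2 * n + 1)))] ∧
      (s.pi : ℤ) ≡ (ndP cx n nd.2).im [ZMOD ((Y100 : ℤ) ^ (Kc cx * (2 * n + 1)))]) l
      (nsum (mkSC cx n).M (nodes cx (mkSC cx n) l)) := by
  induction l with
  | nil => exact List.Forall₂.nil
  | cons nd l ih =>
    have h : nsum (mkSC cx n).M (nodes cx (mkSC cx n) (nd :: l)) =
        sumRows (nd.2.map (decode cx (mkSC cx n))) 0 0
          (fun a b => ⟨nd.1, a % (mkSC cx n).M, b % (mkSC cx n).M⟩) ::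
          nsum (mkSC cx n).M (nodes cx (mkSC cx n) l) := rfl
    rw [h, NsS_sumRows, Nat.zero_add, Nat.zero_add]
    exact List.Forall₂.cons ⟨rfl, (NsS_mod cx n _).trans (NsS_pr cx n nd.2),
      (NsS_mod cx n _).trans (NsS_pi cx n nd.2)⟩ ih

theorem momS_eq {β : Type} (TC TS p : ℕ) (nd : List Ns) (rc rs ic is : ℕ) (k : ℕ → ℕ → ℕ → ℕ → β) :
    momS TC TS p nd rc rs ic is k = k (rc + (nd.map fun x => x.pr * tabG TC (absS x.k 31 * p)).sum)
      (rs + (nd.map fun x => x.pr * sg 4398046511104 (tabG TS (absS x.k 31 * p)) (Nat.ble 31 x.k)).sum)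
      (ic + (nd.map fun x => x.pi * tabG TC (absS x.k 31 * p)).sum)
      (is + (nd.map fun x => x.pi * sg 4398046511104 (tabG TS (absS x.k 31 * p)) (Nat.ble 31 x.k)).sum) := by
  induction nd generalizing rc rs ic is with
  | nil => rfl
  | cons x nd ih =>
    have h : momS TC TS p (x :: nd) rc rs ic is k =
        momS TC TS p nd (rc + x.pr * tabG TC (absS x.k 31 * p))
          (rs + x.pr * sg 4398046511104 (tabG TS (absS x.k 31 * p)) (Nat.ble 31 x.k))
          (ic + x.pi * tabG TC (absS x.k 31 * p))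
          (is + x.pi * sg 4398046511104 (tabG TS (absS x.k 31 * p)) (Nat.ble 31 x.k)) k := rfl
    rw [h, ih]
    simp only [List.map_cons, List.sum_cons, Nat.add_assoc]

theorem totR_eq (nd : List Ns) : totR nd = (nd.map fun x => x.pr).sum := by
  induction nd with
  | nil => rfl
  | cons x nd ih =>
    have h : totR (x :: nd) = x.pr + totR nd := rfl
    rw [h, ih, List.map_cons, List.sum_cons]

theorem totI_eq (nd : List Ns) : totI nd = (nd.map fun x => x.pi).sum := by
  induction nd with
  | nil => rfl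
  | cons x nd ih =>
    have h : totI (x :: nd) = x.pi + totI nd := rfl
    rw [h, ih, List.map_cons, List.sum_cons]

/-- `tabG` at an admissible index for the sine: field at most `2^42` -/
theorem sinTab (TS k p : ℕ) (h : tabG TS (absS k 31 * p) ≤ 4398046511104) (h0 : tcF TS 0 = 0) :
    (sg 4398046511104 (tabG TS (absS k 31 * p)) (Nat.ble 31 k) : ℤ) =
      (zI 0 TS k (p : ℤ)).im + 2199023255552 := by
  have h1 : absS k 31 * p = (((k : ℤ) - 31) * (p : ℤ)).natAbs := by
    rw [Int.natAbs_mul, Int.natAbs_natCast]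
    congr 1
    have h2 := absS_eq k 31
    zify
    rw [h2]
    rfl
  have h2 : (zI 0 TS k (p : ℤ)).im = if 0 ≤ ((k : ℤ) - 31) * (p : ℤ) then
      tcF TS (absS k 31 * p) else -tcF TS (absS k 31 * p) := by
    rw [h1]
    rfl
  have h3 : (tabG TS (absS k 31 * p) : ℤ) = tcF TS (absS k 31 * p) + 2199023255552 := by
    unfold tcF
    ring
  rw [h2]
  rcases Nat.lt_or_ge k 31 with hk | hk
  · have hb : Nat.ble 31 k = false := by
      rw [Bool.eq_false_iff]
      intro h4
      have := Nat.le_of_ble_eq_true h4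
      omega
    have h4 : sg 4398046511104 (tabG TS (absS k 31 * p)) (Nat.ble 31 k) =
        4398046511104 - tabG TS (absS k 31 * p) := by
      rw [hb]
      rfl
    rw [h4, Nat.cast_sub h, h3]
    rcases Nat.eq_zero_or_pos p with rfl | hp
    · rw [if_pos (by simp), Nat.mul_zero, h0]
      norm_num
    · rw [if_neg]
      · push_cast
        ring
      · rw [not_le]
        have h5 : ((k : ℤ) - 31) < 0 := by omega
        have h6 : (0 : ℤ) < p := by exact_mod_cast hp
        exact mul_neg_of_neg_of_pos h5 h6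
  · have hb : Nat.ble 31 k = true := Nat.ble_eq_true_of_le hk
    have h4 : sg 4398046511104 (tabG TS (absS k 31 * p)) (Nat.ble 31 k) =
        tabG TS (absS k 31 * p) := by
      rw [hb]
      rfl
    rw [h4, h3, if_pos]
    have h5 : 0 ≤ ((k : ℤ) - 31) := by omega
    exact mul_nonneg h5 (Int.natCast_nonneg p)

/-- packed functional of the power `p`: sum over the nodes of packed rows times the table value -/
def pwP (cx : Bool) (TC TS n : ℕ) (l : List (ℕ × List ℕ)) (p : ℤ) : GI :=
  (l.map fun nd => ndP cx n nd.2 * zI TC TS nd.1 p).sum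

/-- the packed functional has the digits `TI` -/
theorem pwP_eq (cx : Bool) (TC TS n : ℕ) (l : List (ℕ × List ℕ)) (p : ℤ) :
    pwP cx TC TS n l p = ∑ k ∈ range (Kc cx), ∑ e ∈ range (2 * n + 1),
      TI cx TC TS n l e p k * ((Y100 : ℤ) : GI) ^ (k * (2 * n + 1) + e) := by
  have hrow : ∀ (nd : ℕ) (r : List ℕ), ndP cx n r * zI TC TS nd p =
      ∑ k ∈ range (Kc cx), ∑ e ∈ range (2 * n + 1),
        (r.map fun x => rowT cx TC TS n nd x e p k).sum *
          ((Y100 : ℤ) : GI) ^ (k * (2 * n + 1) + e) := by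
    intro nd r
    induction r with
    | nil => simp [ndP]
    | cons x r ih =>
      have h : ndP cx n (x :: r) = rowP cx n x + ndP cx n r := by
        unfold ndP
        rw [List.map_cons, List.sum_cons]
      rw [h, add_mul, ih]
      simp only [List.map_cons, List.sum_cons, add_mul, Finset.sum_add_distrib]
      congr 1
      unfold rowP rowT
      rw [Finset.sum_mul]
      refine Finset.sum_congr rfl fun k _ => ?_
      rw [Finset.sum_mul]
      refine Finset.sum_congr rfl fun e _ => ?_
      ring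
  induction l with
  | nil => simp [pwP, TI]
  | cons nd l ih =>
    have h1 : pwP cx TC TS n (nd :: l) p = ndP cx n nd.2 * zI TC TS nd.1 p + pwP cx TC TS n l p := by
      unfold pwP
      rw [List.map_cons, List.sum_cons]
    have h2 : ∀ e k, TI cx TC TS n (nd :: l) e p k =
        (nd.2.map fun x => rowT cx TC TS n nd.1 x e p k).sum + TI cx TC TS n l e p k := by
      intro e k
      unfold TI
      rw [List.map_cons, List.sum_cons]
    rw [h1, ih, hrow]
    simp only [h2, add_mul, Finset.sum_add_distrib]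

end Pool.Agent.MaxTerm59b
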