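import Pool.Agent.MaxTerm59b.Sp

/-! Reading of fields. -/

namespace Pool.Agent.MaxTerm59b
open Finset

private theorem rdS_div (x W c i : ℕ) : x / W / W / W ^ (2 * i) = x / W ^ (2 * (i + 1)) := by
  rw [Nat.div_div_eq_div_mul, Nat.div_div_eq_div_mul]
  congr 1
  ring

private theorem rdS_div1 (x W i : ℕ) : x / W / W / W ^ (2 * i + 1) = x / W ^ (2 * (i + 1) + 1) := by
  rw [Nat.div_div_eq_div_mul, Nat.div_div_eq_div_mul]
  congr 1
  ring

/-- Hint: induction on `c` generalizing everything. -/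
theorem rd_eq {β : Type} (W Z c x re im q s : ℕ) (k : ℕ → ℕ → ℕ → ℕ → ℕ → β) :
    rd W Z c x re im q s k = k (x / W ^ (2 * c))
      (re * Z ^ c + ∑ i ∈ range c, x / W ^ (2 * i) % W * Z ^ (c - 1 - i))
      (im * Z ^ c + ∑ i ∈ range c, x / W ^ (2 * i + 1) % W * Z ^ (c - 1 - i))
      (q + ∑ i ∈ range c, ((x / W ^ (2 * i) % W) ^ 2 + (x / W ^ (2 * i + 1) % W) ^ 2))
      (s + ∑ i ∈ range c, (x / W ^ (2 * i) % W + x / W ^ (2 * i + 1) % W)) := by
  induction c generalizing x re im q s with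
  | zero => simp [rd]
  | succ c ih =>
    have h1 : rd W Z (c + 1) x re im q s k =
        rd W Z c (x / W / W) (re * Z + x % W) (im * Z + x / W % W)
          (q + (x % W * (x % W) + x / W % W * (x / W % W))) (s + (x % W + x / W % W)) k := rfl
    rw [h1, ih]
    have e1 : x / W / W / W ^ (2 * c) = x / W ^ (2 * (c + 1)) := rdS_div x W c c
    have e2 : (re * Z + x % W) * Z ^ c + ∑ i ∈ range c, x / W / W / W ^ (2 * i) % W * Z ^ (c - 1 - i) =
        re * Z ^ (c + 1) + ∑ i ∈ range (c + 1), x / W ^ (2 * i) % W * Z ^ (c + 1 - 1 - i) := by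
      rw [Finset.sum_range_succ']
      have : ∀ i ∈ range c, x / W / W / W ^ (2 * i) % W * Z ^ (c - 1 - i) =
          x / W ^ (2 * (i + 1)) % W * Z ^ (c + 1 - 1 - (i + 1)) := by
        intro i _
        rw [rdS_div x W c i]
        congr 2
        omega
      rw [Finset.sum_congr rfl this]
      simp only [mul_zero, pow_zero, Nat.div_one, Nat.add_sub_cancel, Nat.sub_zero]
      ring
    have e3 : (im * Z + x / W % W) * Z ^ c + ∑ i ∈ range c, x / W / W / W ^ (2 * i + 1) % W * Z ^ (c - 1 - i) =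
        im * Z ^ (c + 1) + ∑ i ∈ range (c + 1), x / W ^ (2 * i + 1) % W * Z ^ (c + 1 - 1 - i) := by
      rw [Finset.sum_range_succ']
      have : ∀ i ∈ range c, x / W / W / W ^ (2 * i + 1) % W * Z ^ (c - 1 - i) =
          x / W ^ (2 * (i + 1) + 1) % W * Z ^ (c + 1 - 1 - (i + 1)) := by
        intro i _
        rw [rdS_div1 x W i]
        congr 2
        omega
      rw [Finset.sum_congr rfl this]
      simp only [mul_zero, zero_add, pow_one, Nat.add_sub_cancel, Nat.sub_zero]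
      ring
    have e4 : q + (x % W * (x % W) + x / W % W * (x / W % W)) +
        ∑ i ∈ range c, ((x / W / W / W ^ (2 * i) % W) ^ 2 + (x / W / W / W ^ (2 * i + 1) % W) ^ 2) =
        q + ∑ i ∈ range (c + 1), ((x / W ^ (2 * i) % W) ^ 2 + (x / W ^ (2 * i + 1) % W) ^ 2) := by
      rw [Finset.sum_range_succ']
      have : ∀ i ∈ range c, (x / W / W / W ^ (2 * i) % W) ^ 2 + (x / W / W / W ^ (2 * i + 1) % W) ^ 2 =
          (x / W ^ (2 * (i + 1)) % W) ^ 2 + (x / W ^ (2 * (i + 1) + 1) % W) ^ 2 := by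
        intro i _
        rw [rdS_div x W c i, rdS_div1 x W i]
      rw [Finset.sum_congr rfl this]
      simp only [mul_zero, zero_add, pow_one, pow_zero, Nat.div_one]
      ring
    have e5 : s + (x % W + x / W % W) +
        ∑ i ∈ range c, (x / W / W / W ^ (2 * i) % W + x / W / W / W ^ (2 * i + 1) % W) =
        s + ∑ i ∈ range (c + 1), (x / W ^ (2 * i) % W + x / W ^ (2 * i + 1) % W) := by
      rw [Finset.sum_range_succ']
      have : ∀ i ∈ range c, x / W / W / W ^ (2 * i) % W + x / W / W / W ^ (2 * i + 1) % W =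
          x / W ^ (2 * (i + 1)) % W + x / W ^ (2 * (i + 1) + 1) % W := by
        intro i _
        rw [rdS_div x W c i, rdS_div1 x W i]
      rw [Finset.sum_congr rfl this]
      simp only [mul_zero, zero_add, pow_one, pow_zero, Nat.div_one]
      ring
    rw [e1, e2, e3, e4, e5]

private theorem rdS_refl (n : ℕ) (Y : ℤ) (F : ℕ → ℕ) (G : ℕ → ℤ) (c : ℤ)
    (h : ∀ a ∈ range n, G a = (F (n - 1 - a) : ℤ) - c) :
    ((∑ i ∈ range n, (F i : ℤ) * Y ^ (n - 1 - i) : ℤ)) =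
      ∑ a ∈ range n, G a * Y ^ a + c * ∑ a ∈ range n, Y ^ a := by
  rw [Finset.mul_sum, ← Finset.sum_add_distrib, ← Finset.sum_range_reflect]
  apply Finset.sum_congr rfl
  intro a ha
  rw [h a ha]
  have : n - 1 - (n - 1 - a) = a := by
    have := Finset.mem_range.1 ha
    omega
  rw [this]
  ring

/-- packed vector `g` -/
theorem packG (n x : ℕ) :
    ((0 * Y100 ^ (n + 1) + ∑ i ∈ range (n + 1), x / 2048 ^ (2 * i) % 2048 * Y100 ^ (n + 1 - 1 - i) : ℕ) : ℤ) =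
      ∑ a ∈ range (n + 1), (gF n x a).re * (Y100 : ℤ) ^ a + 1024 * ∑ a ∈ range (n + 1), (Y100 : ℤ) ^ a ∧
    ((0 * Y100 ^ (n + 1) + ∑ i ∈ range (n + 1), x / 2048 ^ (2 * i + 1) % 2048 * Y100 ^ (n + 1 - 1 - i) : ℕ) : ℤ) =
      ∑ a ∈ range (n + 1), (gF n x a).im * (Y100 : ℤ) ^ a + 1024 * ∑ a ∈ range (n + 1), (Y100 : ℤ) ^ a := by
  constructor
  · rw [← rdS_refl (n + 1) (Y100 : ℤ) (fun i => x / 2048 ^ (2 * i) % 2048) (fun a => (gF n x a).re) 1024
      (fun a _ => rfl)]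
    rw [zero_mul, zero_add, Nat.cast_sum]
    apply Finset.sum_congr rfl
    intro i _
    rw [Nat.cast_mul, Nat.cast_pow]
  · rw [← rdS_refl (n + 1) (Y100 : ℤ) (fun i => x / 2048 ^ (2 * i + 1) % 2048) (fun a => (gF n x a).im) 1024
      (fun a _ => rfl)]
    rw [zero_mul, zero_add, Nat.cast_sum]
    apply Finset.sum_congr rfl
    intro i _
    rw [Nat.cast_mul, Nat.cast_pow]

private theorem rdS_noflip (n : ℕ) (Y : ℤ) (F : ℕ → ℕ) (G : ℕ → ℤ) (c : ℤ)
    (h : ∀ a ∈ range (n + 1), G a = (F a : ℤ) - c) :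
    ((∑ i ∈ range (n + 1), (F i : ℤ) * Y ^ (n + 1 - 1 - i) : ℤ)) =
      ∑ b ∈ range (n + 1), G b * Y ^ (n - b) + c * ∑ a ∈ range (n + 1), Y ^ a := by
  rw [← Finset.sum_range_reflect (fun a => Y ^ a), Finset.mul_sum, ← Finset.sum_add_distrib]
  apply Finset.sum_congr rfl
  intro a ha
  rw [h a ha]
  simp only [Nat.add_sub_cancel]
  ring

/-- packed vector `h`: entry `b` has the digit `n - b` -/
theorem packH (n x : ℕ) :
    ((0 * Y100 ^ (n + 1) + ∑ i ∈ range (n + 1), x / 2048 ^ (2 * (n + 1)) / 2048 ^ (2 * i) % 2048 *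
        Y100 ^ (n + 1 - 1 - i) : ℕ) : ℤ) =
      ∑ b ∈ range (n + 1), (hF n x b).re * (Y100 : ℤ) ^ (n - b) + 1024 * ∑ a ∈ range (n + 1), (Y100 : ℤ) ^ a ∧
    ((0 * Y100 ^ (n + 1) + ∑ i ∈ range (n + 1), x / 2048 ^ (2 * (n + 1)) / 2048 ^ (2 * i + 1) % 2048 *
        Y100 ^ (n + 1 - 1 - i) : ℕ) : ℤ) =
      ∑ b ∈ range (n + 1), (hF n x b).im * (Y100 : ℤ) ^ (n - b) + 1024 * ∑ a ∈ range (n + 1), (Y100 : ℤ) ^ a := by
  constructor
  · rw [← rdS_noflip n (Y100 : ℤ) (fun i => x / 2048 ^ (2 * (n + 1)) / 2048 ^ (2 * i) % 2048)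
      (fun a => (hF n x a).re) 1024 (fun a _ => rfl)]
    rw [zero_mul, zero_add, Nat.cast_sum]
    apply Finset.sum_congr rfl
    intro i _
    rw [Nat.cast_mul, Nat.cast_pow]
  · rw [← rdS_noflip n (Y100 : ℤ) (fun i => x / 2048 ^ (2 * (n + 1)) / 2048 ^ (2 * i + 1) % 2048)
      (fun a => (hF n x a).im) 1024 (fun a _ => rfl)]
    rw [zero_mul, zero_add, Nat.cast_sum]
    apply Finset.sum_congr rfl
    intro i _
    rw [Nat.cast_mul, Nat.cast_pow]

private theorem rdS_reflM (n : ℕ) (Z : ℤ) (F : ℕ → ℕ) (G : ℕ → ℤ)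
    (h : ∀ a ∈ range n, G a = (F (n - 1 - a) : ℤ)) :
    ((∑ i ∈ range n, (F i : ℤ) * Z ^ (n - 1 - i) : ℤ)) = ∑ a ∈ range n, G a * Z ^ a := by
  rw [← Finset.sum_range_reflect]
  apply Finset.sum_congr rfl
  intro a ha
  rw [h a ha]
  have : n - 1 - (n - 1 - a) = a := by
    have := Finset.mem_range.1 ha
    omega
  rw [this]

private theorem rdS_four (n x : ℕ) : x / 2048 ^ (4 * (n + 1)) = x / 2048 ^ (2 * (n + 1)) / 2048 ^ (2 * (n + 1)) := by
  rw [Nat.div_div_eq_div_mul, ← pow_add]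
  congr 2
  ring

/-- packed multipliers (exact natural number): digit `k` (in steps of `Z`) is the component `k`, offset `2^25` -/
theorem packM (cx : Bool) (n x Z : ℕ) :
    ((0 * Z ^ Kc cx + ∑ i ∈ range (Kc cx), x / 2048 ^ (2 * (n + 1)) / 2048 ^ (2 * (n + 1)) / 67108864 ^ (2 * i) %
        67108864 * Z ^ (Kc cx - 1 - i) : ℕ) : ℤ) =
      ∑ k ∈ range (Kc cx), ((mF cx n x k).re + 33554432) * (Z : ℤ) ^ k ∧
    ((0 * Z ^ Kc cx + ∑ i ∈ range (Kc cx), x / 2048 ^ (2 * (n + 1)) / 2048 ^ (2 * (n + 1)) / 67108864 ^ (2 * i + 1) %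
        67108864 * Z ^ (Kc cx - 1 - i) : ℕ) : ℤ) =
      ∑ k ∈ range (Kc cx), ((mF cx n x k).im + 33554432) * (Z : ℤ) ^ k := by
  constructor
  · rw [← rdS_reflM (Kc cx) (Z : ℤ)
      (fun i => x / 2048 ^ (2 * (n + 1)) / 2048 ^ (2 * (n + 1)) / 67108864 ^ (2 * i) % 67108864)
      (fun k => (mF cx n x k).re + 33554432) (fun a _ => by
        simp only [mF, rdS_four n x]
        ring)]
    rw [zero_mul, zero_add, Nat.cast_sum]
    apply Finset.sum_congr rfl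
    intro i _
    rw [Nat.cast_mul, Nat.cast_pow]
  · rw [← rdS_reflM (Kc cx) (Z : ℤ)
      (fun i => x / 2048 ^ (2 * (n + 1)) / 2048 ^ (2 * (n + 1)) / 67108864 ^ (2 * i + 1) % 67108864)
      (fun k => (mF cx n x k).im + 33554432) (fun a _ => by
        simp only [mF, rdS_four n x]
        ring)]
    rw [zero_mul, zero_add, Nat.cast_sum]
    apply Finset.sum_congr rfl
    intro i _
    rw [Nat.cast_mul, Nat.cast_pow]

private theorem rdS_abs (v m : ℕ) (hm : 0 < m) : |((v % (2 * m) : ℕ) : ℤ) - (m : ℤ)| ≤ (m : ℤ) := by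
  have h : v % (2 * m) < 2 * m := Nat.mod_lt _ (by omega)
  rw [abs_le]
  constructor <;> omega

theorem gF_le (n x a : ℕ) : |(gF n x a).re| ≤ 1024 ∧ |(gF n x a).im| ≤ 1024 :=
  ⟨rdS_abs (x / 2048 ^ (2 * (n - a))) 1024 (by norm_num),
    rdS_abs (x / 2048 ^ (2 * (n - a) + 1)) 1024 (by norm_num)⟩

theorem hF_le (n x a : ℕ) : |(hF n x a).re| ≤ 1024 ∧ |(hF n x a).im| ≤ 1024 :=
  ⟨rdS_abs (x / 2048 ^ (2 * (n + 1)) / 2048 ^ (2 * a)) 1024 (by norm_num),
    rdS_abs (x / 2048 ^ (2 * (n + 1)) / 2048 ^ (2 * a + 1)) 1024 (by norm_num)⟩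

theorem mF_le (cx : Bool) (n x k : ℕ) : |(mF cx n x k).re| ≤ 33554432 ∧ |(mF cx n x k).im| ≤ 33554432 :=
  ⟨rdS_abs (x / 2048 ^ (4 * (n + 1)) / 67108864 ^ (2 * (Kc cx - 1 - k))) 33554432 (by norm_num),
    rdS_abs (x / 2048 ^ (4 * (n + 1)) / 67108864 ^ (2 * (Kc cx - 1 - k) + 1)) 33554432 (by norm_num)⟩

end Pool.Agent.MaxTerm59b
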