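import Pool.Agent.MaxTerm59b.TrigS
import Pool.Agent.MaxTerm59b.CostS

/-! The inequality of a row and of a side. -/

namespace Pool.Agent.MaxTerm59b
open Finset
open scoped ComplexConjugate

/-- `∑_{a,b} conj (h b) g a F (a - b) = ∑_e gam e F (e - n)` -/
theorem row_expand (n : ℕ) (g h : ℕ → ℂ) (F : ℤ → ℂ) :
    ∑ a ∈ range (n + 1), ∑ b ∈ range (n + 1), conj (h b) * g a * F ((a : ℤ) - b) =
      ∑ e ∈ range (2 * n + 1), (∑ a ∈ range (n + 1), ∑ b ∈ range (n + 1),
        if a + n = e + b then conj (h b) * g a else 0) * F ((e : ℤ) - n) := by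
  have key : ∀ e ∈ range (2 * n + 1), (∑ a ∈ range (n + 1), ∑ b ∈ range (n + 1),
        if a + n = e + b then conj (h b) * g a else 0) * F ((e : ℤ) - n) =
      ∑ a ∈ range (n + 1), ∑ b ∈ range (n + 1),
        if a + n = e + b then conj (h b) * g a * F ((e : ℤ) - n) else 0 := by
    intro e _
    rw [Finset.sum_mul]
    refine Finset.sum_congr rfl fun a _ => ?_
    rw [Finset.sum_mul]
    refine Finset.sum_congr rfl fun b _ => ?_
    split_ifs <;> simp
  symm
  rw [Finset.sum_congr rfl key, Finset.sum_comm]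
  refine Finset.sum_congr rfl fun a ha => ?_
  rw [Finset.sum_comm]
  refine Finset.sum_congr rfl fun b hb => ?_
  have ha' := Finset.mem_range.1 ha
  have hb' := Finset.mem_range.1 hb
  have he : a + n - b ∈ range (2 * n + 1) := Finset.mem_range.2 (by omega)
  rw [Finset.sum_eq_single_of_mem _ he]
  · rw [if_pos (by omega)]
    congr 2
    omega
  · intro e _ hne
    rw [if_neg (by omega)]

/-- `gam` as a complex number -/
theorem gam_coe (n x e : ℕ) : ((gam n x e : GI) : ℂ) = ∑ a ∈ range (n + 1), ∑ b ∈ range (n + 1),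
    if a + n = e + b then conj ((hF n x b : GI) : ℂ) * ((gF n x a : GI) : ℂ) else 0 := by
  unfold gam
  rw [map_sum]
  refine Finset.sum_congr rfl fun a _ => ?_
  rw [map_sum]
  refine Finset.sum_congr rfl fun b _ => ?_
  split_ifs
  · rw [map_mul, GaussianInt.toComplex_star]
  · rw [map_zero]

private theorem rowA_nsq (z : GI) : ‖(z : ℂ)‖ ^ 2 = ((z.norm : ℤ) : ℝ) := by
  rw [GaussianInt.intCast_real_norm, Complex.normSq_eq_norm_sq]

/-- Hint: Cauchy-Schwarz, `decode_nn`. -/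
theorem norms_le (cx : Bool) (n x : ℕ) :
    Real.sqrt (∑ a ∈ range (n + 1), ‖((gF n x a : GI) : ℂ)‖ ^ 2) *
      Real.sqrt (∑ b ∈ range (n + 1), ‖((hF n x b : GI) : ℂ)‖ ^ 2) ≤ (decode cx (mkSC cx n) x).nn := by
  have h := decode_nn cx n x
  have h' : ((∑ a ∈ range (n + 1), (gF n x a).norm : ℤ) : ℝ) * ((∑ b ∈ range (n + 1), (hF n x b).norm : ℤ) : ℝ) ≤
      ((decode cx (mkSC cx n) x).nn : ℝ) ^ 2 := by exact_mod_cast h
  have e1 : ∑ a ∈ range (n + 1), ‖((gF n x a : GI) : ℂ)‖ ^ 2 = ((∑ a ∈ range (n + 1), (gF n x a).norm : ℤ) : ℝ) := by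
    push_cast
    exact Finset.sum_congr rfl fun a _ => rowA_nsq _
  have e2 : ∑ b ∈ range (n + 1), ‖((hF n x b : GI) : ℂ)‖ ^ 2 = ((∑ b ∈ range (n + 1), (hF n x b).norm : ℤ) : ℝ) := by
    push_cast
    exact Finset.sum_congr rfl fun a _ => rowA_nsq _
  rw [← Real.sqrt_mul (Finset.sum_nonneg fun _ _ => by positivity), e1, e2]
  refine Real.sqrt_le_iff.2 ⟨Nat.cast_nonneg _, h'⟩

private theorem rowA_cs (n e : ℕ) (g h : ℕ → ℝ) :
    ∑ a ∈ range (n + 1), ∑ b ∈ range (n + 1), (if a + n = e + b then h b * g a else 0) ≤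
      Real.sqrt (∑ a ∈ range (n + 1), g a ^ 2) * Real.sqrt (∑ b ∈ range (n + 1), h b ^ 2) := by
  have h1 : ∀ a ∈ range (n + 1), ∑ b ∈ range (n + 1), (if a + n = e + b then h b * g a else 0) =
      g a * ∑ b ∈ range (n + 1), (if a + n = e + b then h b else 0) := by
    intro a _
    rw [Finset.mul_sum]
    refine Finset.sum_congr rfl fun b _ => ?_
    split_ifs
    · ring
    · simp
  rw [Finset.sum_congr rfl h1]
  refine (Real.sum_mul_le_sqrt_mul_sqrt _ _ _).trans ?_
  refine mul_le_mul_of_nonneg_left ?_ (Real.sqrt_nonneg _)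
  refine Real.sqrt_le_sqrt ?_
  have h2 : ∀ a ∈ range (n + 1), (∑ b ∈ range (n + 1), (if a + n = e + b then h b else 0)) ^ 2 ≤
      ∑ b ∈ range (n + 1), (if a + n = e + b then h b ^ 2 else 0) := by
    intro a _
    by_cases hc : ∃ b ∈ range (n + 1), a + n = e + b
    · obtain ⟨b, hb, hab⟩ := hc
      rw [Finset.sum_eq_single_of_mem b hb, Finset.sum_eq_single_of_mem b hb, if_pos hab, if_pos hab]
      · intro c _ hne
        rw [if_neg (by omega)]
      · intro c _ hne
        rw [if_neg (by omega)]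
    · push Not at hc
      rw [Finset.sum_eq_zero fun b hb => if_neg (hc b hb), Finset.sum_eq_zero fun b hb => if_neg (hc b hb)]
      simp
  refine (Finset.sum_le_sum h2).trans ?_
  rw [Finset.sum_comm]
  refine Finset.sum_le_sum fun b _ => ?_
  by_cases hc : ∃ a ∈ range (n + 1), a + n = e + b
  · obtain ⟨a, ha, hab⟩ := hc
    rw [Finset.sum_eq_single_of_mem a ha, if_pos hab]
    intro c _ hne
    rw [if_neg (by omega)]
  · push Not at hc
    rw [Finset.sum_eq_zero fun a ha => if_neg (hc a ha)]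
    positivity

theorem gam_le (cx : Bool) (n x e : ℕ) : ‖((gam n x e : GI) : ℂ)‖ ≤ (decode cx (mkSC cx n) x).nn := by
  refine le_trans ?_ (norms_le cx n x)
  refine le_trans ?_ (rowA_cs n e (fun a => ‖((gF n x a : GI) : ℂ)‖) (fun b => ‖((hF n x b : GI) : ℂ)‖))
  rw [gam_coe]
  refine (norm_sum_le _ _).trans (Finset.sum_le_sum fun a _ => ?_)
  refine (norm_sum_le _ _).trans (Finset.sum_le_sum fun b _ => ?_)
  split_ifs
  · rw [norm_mul, Complex.norm_conj]
  · rw [norm_zero]

end Pool.Agent.MaxTerm59b
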