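import Pool.Agent.MaxTerm59b.RowA

/-! The inequality of a row and of a side. -/

namespace Pool.Agent.MaxTerm59b
open Finset
open scoped ComplexConjugate

/-- the sum over a finite range differs from the whole sum by at most the tail -/
private theorem rowB_tail (c : ℤ → ℂ) (hs : Summable fun p => ‖c p‖) (R : Finset ℤ) (τ : ℝ)
    (hτ : ∀ S : Finset ℤ, Disjoint S R → ∑ p ∈ S, ‖c p‖ ≤ τ) (z : ℂ) (hz : ‖z‖ = 1) :
    ‖(∑' p : ℤ, c p * z ^ p) - ∑ p ∈ R, c p * z ^ p‖ ≤ τ := by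
  have hn : ∀ p : ℤ, ‖c p * z ^ p‖ = ‖c p‖ := by
    intro p
    rw [norm_mul, norm_zpow, hz, one_zpow, mul_one]
  have hsn : Summable fun p => ‖c p * z ^ p‖ := by
    simpa only [hn] using hs
  have hsc : Summable fun p => c p * z ^ p := hsn.of_norm
  have h1 := hsc.sum_add_tsum_compl (s := R)
  have h2 : (∑' p : ℤ, c p * z ^ p) - ∑ p ∈ R, c p * z ^ p =
      ∑' p : ↑((R : Set ℤ)ᶜ), c p * z ^ (p : ℤ) := by
    rw [← h1]; ring
  rw [h2]
  have hs3 : Summable fun p : ↑((R : Set ℤ)ᶜ) => ‖c p * z ^ (p : ℤ)‖ := hsn.subtype _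
  refine (norm_tsum_le_tsum_norm hs3).trans ?_
  refine hs3.tsum_le_of_sum_le ?_
  intro S
  have h4 : ∑ p ∈ S, ‖c p * z ^ (p : ℤ)‖ = ∑ p ∈ S.map (Function.Embedding.subtype _), ‖c p‖ := by
    rw [Finset.sum_map]
    refine Finset.sum_congr rfl fun p _ => ?_
    exact hn p
  rw [h4]
  apply hτ
  rw [Finset.disjoint_left]
  intro p hp hpR
  rw [Finset.mem_map] at hp
  obtain ⟨q, _, rfl⟩ := hp
  exact q.2 (by simpa using hpR)

private theorem rowB_gen (n : ℕ) (c : ℤ → ℤ → ℂ) (H : RowHyp n c) (Rg : ℕ → Finset ℤ) (τ : ℕ → ℝ)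
    (hτ : ∀ e < 2 * n + 1, ∀ S : Finset ℤ, Disjoint S (Rg e) → ∑ p ∈ S, ‖c ((e : ℤ) - n) p‖ ≤ τ e)
    (z : ℂ) (hz : ‖z‖ = 1) (g h G : ℕ → ℂ) (N : ℝ)
    (hG : ∀ e, G e = ∑ a ∈ range (n + 1), ∑ b ∈ range (n + 1), if a + n = e + b then conj (h b) * g a else 0)
    (hGN : ∀ e, ‖G e‖ ≤ N)
    (hN : Real.sqrt (∑ a ∈ range (n + 1), ‖g a‖ ^ 2) * Real.sqrt (∑ b ∈ range (n + 1), ‖h b‖ ^ 2) ≤ N) :
    ‖∑ e ∈ range (2 * n + 1), ∑ p ∈ Rg e, G e * z ^ p * c ((e : ℤ) - n) p‖ ≤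
      (170919 / 100000 + ∑ e ∈ range (2 * n + 1), τ e) * N := by
  set F : ℤ → ℂ := fun d => ∑' p : ℤ, c d p * z ^ p with hF
  have h1 := H.row z hz g h
  rw [row_expand n g h F] at h1
  simp only [← hG] at h1
  have h2 : ∑ e ∈ range (2 * n + 1), ∑ p ∈ Rg e, G e * z ^ p * c ((e : ℤ) - n) p =
      ∑ e ∈ range (2 * n + 1), G e * F ((e : ℤ) - n) -
        ∑ e ∈ range (2 * n + 1), G e * (F ((e : ℤ) - n) - ∑ p ∈ Rg e, c ((e : ℤ) - n) p * z ^ p) := by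
    rw [← Finset.sum_sub_distrib]
    refine Finset.sum_congr rfl fun e _ => ?_
    have : G e * F ((e : ℤ) - n) - G e * (F ((e : ℤ) - n) - ∑ p ∈ Rg e, c ((e : ℤ) - n) p * z ^ p) =
        G e * ∑ p ∈ Rg e, c ((e : ℤ) - n) p * z ^ p := by ring
    rw [this, Finset.mul_sum]
    refine Finset.sum_congr rfl fun p _ => ?_
    ring
  rw [h2]
  refine (norm_sub_le _ _).trans ?_
  rw [add_mul]
  refine add_le_add (h1.trans ?_) ?_
  · exact mul_le_mul_of_nonneg_left hN (by norm_num)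
  · refine (norm_sum_le _ _).trans ?_
    rw [Finset.sum_mul]
    refine Finset.sum_le_sum fun e he => ?_
    have he' : e < 2 * n + 1 := Finset.mem_range.mp he
    have hd : |(e : ℤ) - n| ≤ n := by
      rw [abs_le]; constructor <;> omega
    have h3 := rowB_tail (fun p => c ((e : ℤ) - n) p) (H.summ _ hd) (Rg e) (τ e) (hτ e he') z hz
    have h4 : 0 ≤ τ e := by
      have := hτ e he' ∅ (Finset.disjoint_empty_left _)
      simpa using this
    rw [norm_mul, mul_comm (τ e)]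
    exact mul_le_mul (hGN e) h3 (norm_nonneg _) ((norm_nonneg _).trans (hGN e))

/-- the exact row, restricted to finite ranges. `Rg e`: powers of the class `e - n`, `τ`: bound of the rest. -/
theorem row_exact (cx : Bool) (n : ℕ) (c : ℤ → ℤ → ℂ) (H : RowHyp n c) (Rg : ℕ → Finset ℤ) (τ : ℕ → ℝ)
    (hτ : ∀ e < 2 * n + 1, ∀ S : Finset ℤ, Disjoint S (Rg e) → ∑ p ∈ S, ‖c ((e : ℤ) - n) p‖ ≤ τ e)
    (z : ℂ) (hz : ‖z‖ = 1) (x : ℕ) :
    ‖∑ e ∈ range (2 * n + 1), ∑ p ∈ Rg e, ((gam n x e : GI) : ℂ) * z ^ p * c ((e : ℤ) - n) p‖ ≤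
      (170919 / 100000 + ∑ e ∈ range (2 * n + 1), τ e) * (decode cx (mkSC cx n) x).nn := by
  exact rowB_gen n c H Rg τ hτ z hz (fun a => ((gF n x a : GI) : ℂ)) (fun b => ((hF n x b : GI) : ℂ))
    (fun e => ((gam n x e : GI) : ℂ)) _ (fun e => gam_coe n x e) (fun e => gam_le cx n x e) (norms_le cx n x)

/-- the conjugate row -/
theorem row_conj (cx : Bool) (n : ℕ) (c : ℤ → ℤ → ℂ) (H : RowHyp n c) (Rg : ℕ → Finset ℤ) (τ : ℕ → ℝ)
    (hτ : ∀ e < 2 * n + 1, ∀ S : Finset ℤ, Disjoint S (Rg e) → ∑ p ∈ S, ‖c ((e : ℤ) - n) p‖ ≤ τ e)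
    (z : ℂ) (hz : ‖z‖ = 1) (x : ℕ) :
    ‖∑ e ∈ range (2 * n + 1), ∑ p ∈ Rg e, conj (((gam n x e : GI) : ℂ) * z ^ p) * c ((e : ℤ) - n) p‖ ≤
      (170919 / 100000 + ∑ e ∈ range (2 * n + 1), τ e) * (decode cx (mkSC cx n) x).nn := by
  have h := rowB_gen n c H Rg τ hτ (conj z) (by rw [Complex.norm_conj, hz])
    (fun a => conj ((gF n x a : GI) : ℂ)) (fun b => conj ((hF n x b : GI) : ℂ))
    (fun e => conj ((gam n x e : GI) : ℂ)) (decode cx (mkSC cx n) x).nn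
    (fun e => by
      rw [gam_coe n x e, map_sum]
      refine Finset.sum_congr rfl fun a _ => ?_
      rw [map_sum]
      refine Finset.sum_congr rfl fun b _ => ?_
      split_ifs
      · rw [map_mul]
      · rw [map_zero])
    (fun e => by rw [Complex.norm_conj]; exact gam_le cx n x e)
    (by simpa only [Complex.norm_conj] using norms_le cx n x)
  simpa only [map_mul, map_zpow₀] using h

end Pool.Agent.MaxTerm59b
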