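import Pool.Agent.MaxTerm59b.Ar

/-! The penalties at a vertex. -/

namespace Pool.Agent.MaxTerm59b
open Finset

/-- penalty of an item with the bound `B` -/
def pen (l1 l2 : ℕ) (it : Item) (B : ℕ) : ℕ := if it.grp = 0 then B else if it.grp = 1 then hub l1 B else hub l2 B

private theorem RunA_beq (a b : ℕ) (h : a ≠ b) : Nat.beq a b = false := by
  cases hb : Nat.beq a b with
  | true => exact absurd (Nat.eq_of_beq_eq_true hb) h
  | false => rfl

theorem runI_eq {β : Type} (cx : Bool) (b1 b2 b3 : Bool) (l1 l2 : ℕ) (l : List Item) (t x y : ℕ)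
    (k : ℕ → ℕ → ℕ → β) :
    ∃ x' y', runI cx b1 b2 b3 l1 l2 l t x y k = k (t + (l.map fun it => pen l1 l2 it (itemB cx b1 b2 b3 it.sl)).sum) x' y' ∧
      x ≤ x' ∧ y ≤ y' ∧
      (∀ it ∈ l, it.grp = 1 → it.cu = true → itemB cx b1 b2 b3 it.sl ≤ hub l1 (itemB cx b1 b2 b3 it.sl) + x') ∧
      (∀ it ∈ l, it.grp = 2 → it.cu = true → itemB cx b1 b2 b3 it.sl ≤ hub l2 (itemB cx b1 b2 b3 it.sl) + y') := by
  induction l generalizing t x y with
  | nil => exact ⟨x, y, by simp [runI], le_rfl, le_rfl, by simp, by simp⟩
  | cons it l ih =>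
    set B := itemB cx b1 b2 b3 it.sl with hB
    have hstep : runI cx b1 b2 b3 l1 l2 (it :: l) t x y k =
        cond (Nat.beq it.grp 0) (runI cx b1 b2 b3 l1 l2 l (t + B) x y k)
        (cond (Nat.beq it.grp 1)
          (runI cx b1 b2 b3 l1 l2 l (t + hub l1 B) (cond it.cu (maxN x (B - hub l1 B)) x) y k)
          (runI cx b1 b2 b3 l1 l2 l (t + hub l2 B) x (cond it.cu (maxN y (B - hub l2 B)) y) k)) := rfl
    rcases Nat.lt_or_ge 0 it.grp with hg | hg
    · rcases Nat.lt_or_ge 1 it.grp with hg1 | hg1
      · -- group at least two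
        obtain ⟨x', y', h1, h2, h3, h4, h5⟩ := ih (t + hub l2 B) x (cond it.cu (maxN y (B - hub l2 B)) y)
        have hb0 : Nat.beq it.grp 0 = false := by
          exact RunA_beq _ _ (by omega)
        have hb1 : Nat.beq it.grp 1 = false := by
          exact RunA_beq _ _ (by omega)
        have hy : y ≤ cond it.cu (maxN y (B - hub l2 B)) y := by
          cases it.cu
          · exact le_rfl
          · rw [cond_true, maxN_eq]; exact le_max_left _ _
        refine ⟨x', y', ?_, h2, hy.trans h3, ?_, ?_⟩
        · rw [hstep, hb0, hb1]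
          simp only [cond_false]
          rw [h1, List.map_cons, List.sum_cons]
          have hp : pen l1 l2 it B = hub l2 B := by
            rw [pen, if_neg (by omega), if_neg (by omega)]
          rw [← hB, hp, add_assoc]
        · intro it' hit'
          rcases List.mem_cons.1 hit' with h | h
          · subst h
            intro h6
            omega
          · exact h4 it' h
        · intro it' hit'
          rcases List.mem_cons.1 hit' with h | h
          · subst h
            intro _ hcu
            rw [hcu, cond_true, maxN_eq] at h3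
            have h7 := (le_max_right y (B - hub l2 B)).trans h3
            rw [← hB]
            omega
          · exact h5 it' h
      · -- group one
        obtain ⟨x', y', h1, h2, h3, h4, h5⟩ := ih (t + hub l1 B) (cond it.cu (maxN x (B - hub l1 B)) x) y
        have hgg : it.grp = 1 := by omega
        have hb0 : Nat.beq it.grp 0 = false := by
          exact RunA_beq _ _ (by omega)
        have hb1 : Nat.beq it.grp 1 = true := by
          rw [hgg]; rfl
        have hy : x ≤ cond it.cu (maxN x (B - hub l1 B)) x := by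
          cases it.cu
          · exact le_rfl
          · rw [cond_true, maxN_eq]; exact le_max_left _ _
        refine ⟨x', y', ?_, hy.trans h2, h3, ?_, ?_⟩
        · rw [hstep, hb0, hb1]
          simp only [cond_false, cond_true]
          rw [h1, List.map_cons, List.sum_cons]
          have hp : pen l1 l2 it B = hub l1 B := by
            rw [pen, if_neg (by omega), if_pos hgg]
          rw [← hB, hp, add_assoc]
        · intro it' hit'
          rcases List.mem_cons.1 hit' with h | h
          · subst h
            intro _ hcu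
            rw [hcu, cond_true, maxN_eq] at h2
            have h7 := (le_max_right x (B - hub l1 B)).trans h2
            rw [← hB]
            omega
          · exact h4 it' h
        · intro it' hit'
          rcases List.mem_cons.1 hit' with h | h
          · subst h
            intro h6
            omega
          · exact h5 it' h
    · -- group zero
      obtain ⟨x', y', h1, h2, h3, h4, h5⟩ := ih (t + B) x y
      have hgg : it.grp = 0 := by omega
      have hb0 : Nat.beq it.grp 0 = true := by
        rw [hgg]; rfl
      refine ⟨x', y', ?_, h2, h3, ?_, ?_⟩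
      · rw [hstep, hb0]
        simp only [cond_true]
        rw [h1, List.map_cons, List.sum_cons]
        have hp : pen l1 l2 it B = B := by
          rw [pen, if_pos hgg]
        rw [← hB, hp, add_assoc]
      · intro it' hit'
        rcases List.mem_cons.1 hit' with h | h
        · subst h
          intro h6
          omega
        · exact h4 it' h
      · intro it' hit'
        rcases List.mem_cons.1 hit' with h | h
        · subst h
          intro h6
          omega
        · exact h5 it' h

/-- real form of the final comparison. Hint: `n/d < n/d (floor) + 1`. -/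
theorem finV_real (tail E1 E2 ec c m o t x y l1 l2 : ℕ) (h : finV tail E1 E2 ec c m o t x y l1 l2 = true) :
    (o : ℝ) + 2 ^ 76 * ((ec : ℝ) + t + x + y + 16 * c * (170919 / 100000 + tail / 2 ^ 40 + 1 / 2 ^ 27) +
      l1 * E1 / 2 ^ 40 + l2 * E2 / 2 ^ 40) < m := by
  have h1 : o + (ec + (t + (x + y)) + ((16 * c * 170919 / 100000 + 1) + ((tail * (16 * c) / 2 ^ 40 + 1) +
      ((16 * c / 2 ^ 27 + 1) + ((l1 * E1 / 2 ^ 40 + 1) + (l2 * E2 / 2 ^ 40 + 1)))))) * 2 ^ 76 < m := by
    have h2 := Nat.blt_eq.mp h
    have hdiv : ∀ a b : ℕ, Nat.div a b = a / b := fun _ _ => rfl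
    simpa only [Nat.add_eq, Nat.sub_eq, Nat.mul_eq, hdiv, Nat.shiftRight_eq,
      Nat.shiftLeft_eq', Nat.shiftRight_eq_div_pow, Nat.shiftLeft_eq, Nat.succ_eq_add_one] using h2
  have hd : ∀ a b : ℕ, 0 < b → (a : ℝ) / b < ((a / b : ℕ) : ℝ) + 1 := by
    intro a b hb
    have hb' : (0 : ℝ) < b := by exact_mod_cast hb
    rw [div_lt_iff₀ hb']
    have h3 : a < (a / b + 1) * b := by
      have := Nat.lt_div_mul_add (a := a) hb
      nlinarith
    exact_mod_cast h3
  have e1 := hd (16 * c * 170919) 100000 (by norm_num)
  have e2 := hd (tail * (16 * c)) (2 ^ 40) (by norm_num)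
  have e3 := hd (16 * c) (2 ^ 27) (by norm_num)
  have e4 := hd (l1 * E1) (2 ^ 40) (by norm_num)
  have e5 := hd (l2 * E2) (2 ^ 40) (by norm_num)
  have h4 : ((o + (ec + (t + (x + y)) + ((16 * c * 170919 / 100000 + 1) + ((tail * (16 * c) / 2 ^ 40 + 1) +
      ((16 * c / 2 ^ 27 + 1) + ((l1 * E1 / 2 ^ 40 + 1) + (l2 * E2 / 2 ^ 40 + 1)))))) * 2 ^ 76 : ℕ) : ℝ) < m := by
    exact_mod_cast h1
  push_cast at h4 e1 e2 e3 e4 e5
  have h5 : (16 * (c : ℝ) * (170919 / 100000 + tail / 2 ^ 40 + 1 / 2 ^ 27)) =
      16 * c * 170919 / 100000 + tail * (16 * c) / 2 ^ 40 + 16 * c / 2 ^ 27 := by ring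
  rw [h5]
  linarith

end Pool.Agent.MaxTerm59b
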