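import Pool.Agent.MaxTerm59b.GiB

/-! Interpolation errors of the slots. -/

namespace Pool.Agent.MaxTerm59b
open Finset

/-- value at a vertex of the first family: `A_b1 · t_b1 ^ q_b2` -/
noncomputable def vM (A0 A1 t0 t1 q0 q1 : ℝ) (b1 b2 : Bool) : ℝ :=
  (if b1 then A1 else A0) * (if b1 then t1 else t0) ^ (if b2 then q1 else q0)

/-- the interpolated function -/
noncomputable def psM (A0 A1 t0 t1 q0 q1 s1 s2 : ℝ) : ℝ := gi A0 A1 s1 * gi t0 t1 s1 ^ ai q0 q1 s2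

private theorem SlA_divN (a b : ℕ) (hb : 0 < b) : (a : ℝ) / b ≤ ((a / b + 1 : ℕ) : ℝ) := by
  have hb' : (0 : ℝ) < b := by exact_mod_cast hb
  rw [div_le_iff₀ hb']
  have h := Nat.lt_mul_div_succ a hb
  have : a ≤ (a / b + 1) * b := by rw [mul_comm]; exact h.le
  exact_mod_cast this

/-- values `2^40 X`, `2^40 Y` (`X ≥ Y`) at the first end, `x ≥ y` with `x/y ≤ X/Y` -/
private theorem SlA_br (x y X Y : ℝ) (M0 m0 m1 p q : ℕ) (hy : 0 < y) (hxy : y ≤ x) (hY : 0 < Y)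
    (hr : x * Y ≤ X * y) (h1 : 2 ^ 40 * y ≤ m1 + 8) (hp : |(p : ℝ) - 2 ^ 40 * X| ≤ 6) (hq : |(q : ℝ) - 2 ^ 40 * Y| ≤ 6)
    (hp1 : p ≤ M0) (hq1 : m0 ≤ q) (hm : 16 < m0) :
    2 ^ 40 * ((x - y) ^ 2 / (8 * y)) ≤
      ((m1 + 8 : ℕ) : ℝ) * ((M0 - m0 + 16 : ℕ) : ℝ) ^ 2 / (8 * ((m0 - 8 : ℕ) : ℝ) ^ 2) := by
  rw [abs_le] at hp hq
  have e1 : ((m0 - 8 : ℕ) : ℝ) = m0 - 8 := by rw [Nat.cast_sub (by omega)]; norm_num
  have e2 : ((M0 : ℝ) - m0 + 16) ≤ ((M0 - m0 + 16 : ℕ) : ℝ) := by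
    have : (M0 : ℤ) - m0 + 16 ≤ ((M0 - m0 + 16 : ℕ) : ℤ) := by omega
    exact_mod_cast this
  have hm' : (16 : ℝ) < m0 := by exact_mod_cast hm
  have hp' : (p : ℝ) ≤ M0 := by exact_mod_cast hp1
  have hq' : (m0 : ℝ) ≤ q := by exact_mod_cast hq1
  -- the quotient
  have k1 : (x - y) / y ≤ (X - Y) / Y := by
    rw [div_le_div_iff₀ hy hY]; nlinarith
  have k2 : (X - Y) / Y ≤ ((M0 - m0 + 16 : ℕ) : ℝ) / ((m0 - 8 : ℕ) : ℝ) := by
    rw [e1, div_le_div_iff₀ hY (by linarith)]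
    have a1 : 2 ^ 40 * (X - Y) ≤ (M0 : ℝ) - m0 + 12 := by nlinarith
    have a2 : (m0 : ℝ) - 8 ≤ 2 ^ 40 * Y := by linarith
    have a3 : (X - Y) * (m0 - 8) * 2 ^ 40 ≤ ((M0 - m0 + 16 : ℕ) : ℝ) * Y * 2 ^ 40 := by
      have b1 : 2 ^ 40 * (X - Y) ≤ ((M0 - m0 + 16 : ℕ) : ℝ) := by linarith
      have b0 : 0 ≤ ((M0 - m0 + 16 : ℕ) : ℝ) := Nat.cast_nonneg _
      calc (X - Y) * (m0 - 8) * 2 ^ 40 = (2 ^ 40 * (X - Y)) * (m0 - 8) := by ring
        _ ≤ ((M0 - m0 + 16 : ℕ) : ℝ) * (m0 - 8) := mul_le_mul_of_nonneg_right b1 (by linarith)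
        _ ≤ ((M0 - m0 + 16 : ℕ) : ℝ) * (2 ^ 40 * Y) := mul_le_mul_of_nonneg_left a2 b0
        _ = ((M0 - m0 + 16 : ℕ) : ℝ) * Y * 2 ^ 40 := by ring
    nlinarith
  have k0 : 0 ≤ (x - y) / y := div_nonneg (by linarith) hy.le
  have k3 : ((x - y) / y) ^ 2 ≤ (((M0 - m0 + 16 : ℕ) : ℝ) / ((m0 - 8 : ℕ) : ℝ)) ^ 2 :=
    pow_le_pow_left₀ k0 (k1.trans k2) 2
  calc 2 ^ 40 * ((x - y) ^ 2 / (8 * y)) = (2 ^ 40 * y) * ((x - y) / y) ^ 2 / 8 := by field_simp
    _ ≤ ((m1 : ℝ) + 8) * (((M0 - m0 + 16 : ℕ) : ℝ) / ((m0 - 8 : ℕ) : ℝ)) ^ 2 / 8 := by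
        apply div_le_div_of_nonneg_right _ (by norm_num)
        apply mul_le_mul h1 k3 (by positivity) (by positivity)
    _ = _ := by push_cast; ring

private theorem SlA_qg1 (M0 m0 m1 M : ℕ) (h : m0 ≤ 16) : qg M0 m0 m1 M = M + 16 := by
  unfold qg
  rw [show Nat.ble m0 16 = true from by rw [Nat.ble_eq]; exact h]
  rfl

private theorem SlA_qg2 (M0 m0 m1 M : ℕ) (h : 16 < m0) :
    ((m1 + 8 : ℕ) : ℝ) * ((M0 - m0 + 16 : ℕ) : ℝ) ^ 2 / (8 * ((m0 - 8 : ℕ) : ℝ) ^ 2) ≤ (qg M0 m0 m1 M : ℕ) := by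
  have e : qg M0 m0 m1 M = (m1 + 8) * (M0 - m0 + 16) ^ 2 / (8 * (m0 - 8) ^ 2) + 1 := by
    unfold qg
    rw [show Nat.ble m0 16 = false from by
      rw [Bool.eq_false_iff]; intro h'; rw [Nat.ble_eq] at h'; omega]
    rfl
  rw [e]
  have hpos : 0 < 8 * (m0 - 8) ^ 2 := by
    have : 0 < m0 - 8 := by omega
    positivity
  have hdiv := SlA_divN ((m1 + 8) * (M0 - m0 + 16) ^ 2) (8 * (m0 - 8) ^ 2) hpos
  refine le_trans (le_of_eq ?_) hdiv
  rw [Nat.cast_mul, Nat.cast_mul, Nat.cast_pow, Nat.cast_pow]; norm_num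

private theorem SlA_mx (x0 x1 a b c d : ℝ) (p q r s : ℕ) (hx0 : x0 ≤ max a c) (hx1 : x1 ≤ max b d)
    (ha : 2 ^ 40 * a ≤ p + 6) (hb : 2 ^ 40 * b ≤ q + 6) (hc : 2 ^ 40 * c ≤ r + 6) (hd : 2 ^ 40 * d ≤ s + 6) :
    2 ^ 40 * max x0 x1 ≤ ((max (max p q) (max r s) + 16 : ℕ) : ℝ) := by
  have m1 : p ≤ max (max p q) (max r s) := by omega
  have m2 : q ≤ max (max p q) (max r s) := by omega
  have m3 : r ≤ max (max p q) (max r s) := by omega
  have m4 : s ≤ max (max p q) (max r s) := by omega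
  generalize max (max p q) (max r s) = N at *
  have m1' : (p : ℝ) ≤ N := by exact_mod_cast m1
  have m2' : (q : ℝ) ≤ N := by exact_mod_cast m2
  have m3' : (r : ℝ) ≤ N := by exact_mod_cast m3
  have m4' : (s : ℝ) ≤ N := by exact_mod_cast m4
  push_cast
  rcases le_max_iff.1 hx0 with h | h <;> rcases le_max_iff.1 hx1 with h' | h' <;>
    rcases max_cases x0 x1 with h'' | h'' <;> linarith

private theorem SlA_small (z a b c d : ℝ) (p q r s : ℕ) (hz : z ≤ max (min a b) (min c d))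
    (ha : 2 ^ 40 * a ≤ p + 6) (hb : 2 ^ 40 * b ≤ q + 6) (hc : 2 ^ 40 * c ≤ r + 6) (hd : 2 ^ 40 * d ≤ s + 6) :
    2 ^ 40 * z ≤ ((max (min p q) (min r s) : ℕ) : ℝ) + 8 := by
  have k0 : 2 ^ 40 * min a b ≤ ((min p q : ℕ) : ℝ) + 8 := by
    rw [Nat.cast_min, ← min_add_add_right]
    apply le_min
    · have := min_le_left a b; linarith
    · have := min_le_right a b; linarith
  have k1 : 2 ^ 40 * min c d ≤ ((min r s : ℕ) : ℝ) + 8 := by
    rw [Nat.cast_min, ← min_add_add_right]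
    apply le_min
    · have := min_le_left c d; linarith
    · have := min_le_right c d; linarith
  have k2 : ((min p q : ℕ) : ℝ) ≤ ((max (min p q) (min r s) : ℕ) : ℝ) := by exact_mod_cast le_max_left _ _
  have k3 : ((min r s : ℕ) : ℝ) ≤ ((max (min p q) (min r s) : ℕ) : ℝ) := by exact_mod_cast le_max_right _ _
  rcases le_max_iff.1 hz with h | h <;> linarith

private theorem SlA_quot (A A0 t0 G q0 q1 : ℝ) (pA : 0 < A) (hA0 : 0 < A0) (ht0 : 0 < t0) (hG0 : t0 ≤ G)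
    (hq : q0 ≤ q1) : A * G ^ q0 * (A0 * t0 ^ q1) ≤ A0 * t0 ^ q0 * (A * G ^ q1) := by
  have pG : 0 < G := lt_of_lt_of_le ht0 hG0
  have e1 : G ^ q1 = G ^ q0 * G ^ (q1 - q0) := by rw [← Real.rpow_add pG]; congr 1; ring
  have e2 : t0 ^ q1 = t0 ^ q0 * t0 ^ (q1 - q0) := by rw [← Real.rpow_add ht0]; congr 1; ring
  rw [e1, e2]
  have e3 : t0 ^ (q1 - q0) ≤ G ^ (q1 - q0) := Real.rpow_le_rpow ht0.le hG0 (by linarith)
  calc A * G ^ q0 * (A0 * (t0 ^ q0 * t0 ^ (q1 - q0))) = (A * G ^ q0 * A0 * t0 ^ q0) * t0 ^ (q1 - q0) := by ring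
    _ ≤ (A * G ^ q0 * A0 * t0 ^ q0) * G ^ (q1 - q0) := mul_le_mul_of_nonneg_left e3 (by positivity)
    _ = _ := by ring

/-- Two steps: in the direction `s2` at the fixed `s1` (`x = psM .. s1 (-1)`, `y = psM .. s1 1`, both geometric
interpolations in `s1`), then in the direction `s1` at `s2 = ± 1`. For the first step: with `δ = |q1 - q0|` the quotient of
the larger by the smaller value is `gi t0 t1 s1 ^ (-δ) ≤ t0 ^ (-δ) = M0/m0`, and the smaller value is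
`gi A0 A1 s1 * gi t0 t1 s1 ^ max q0 q1 ≤ max m0 m1`. So `(x - y)^2/(8 min) = min (r - 1)^2/8 ≤ max m0 m1 (M0/m0 - 1)^2/8`.
If `m0` is tiny (`qg` uses `M + 16`): the error is at most the largest of the four values. -/
theorem interp_mv (A0 A1 t0 t1 q0 q1 s1 s2 : ℝ) (hA0 : 0 < A0) (hA1 : 0 < A1) (ht0 : 0 < t0) (ht : t0 ≤ t1)
    (ht1 : t1 ≤ 1) (hq0 : 0 ≤ q0) (hq1 : 0 ≤ q1) (h1 : |s1| ≤ 1) (h2 : |s2| ≤ 1) (v : Bool → Bool → ℕ)
    (hv : ∀ b1 b2, |(v b1 b2 : ℝ) - 2 ^ 40 * vM A0 A1 t0 t1 q0 q1 b1 b2| ≤ 6) :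
    psM A0 A1 t0 t1 q0 q1 s1 s2 ≤ ∑ b1 : Bool, ∑ b2 : Bool, w1 s1 b1 * w1 s2 b2 * vM A0 A1 t0 t1 q0 q1 b1 b2 ∧
    2 ^ 40 * (∑ b1 : Bool, ∑ b2 : Bool, w1 s1 b1 * w1 s2 b2 * vM A0 A1 t0 t1 q0 q1 b1 b2 -
      psM A0 A1 t0 t1 q0 q1 s1 s2) ≤
      (maxN (qf (dist (v false false) (v true false)) (minN (v false false) (v true false)))
        (qf (dist (v false true) (v true true)) (minN (v false true) (v true true))) : ℕ) +
      (qg (maxN (v false false) (v false true)) (minN (v false false) (v false true))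
        (maxN (minN (v false false) (v false true)) (minN (v true false) (v true true)))
        (maxN (maxN (v false false) (v false true)) (maxN (v true false) (v true true))) : ℕ) := by
  have ht1' : 0 < t1 := lt_of_lt_of_le ht0 ht
  -- the four values
  set Vff := A0 * t0 ^ q0 with hVff
  set Vft := A0 * t0 ^ q1 with hVft
  set Vtf := A1 * t1 ^ q0 with hVtf
  set Vtt := A1 * t1 ^ q1 with hVtt
  have pff : 0 < Vff := by positivity
  have pft : 0 < Vft := by positivity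
  have ptf : 0 < Vtf := by positivity
  have ptt : 0 < Vtt := by positivity
  have hff : |(v false false : ℝ) - 2 ^ 40 * Vff| ≤ 6 := by simpa [vM] using hv false false
  have hft : |(v false true : ℝ) - 2 ^ 40 * Vft| ≤ 6 := by simpa [vM] using hv false true
  have htf : |(v true false : ℝ) - 2 ^ 40 * Vtf| ≤ 6 := by simpa [vM] using hv true false
  have htt : |(v true true : ℝ) - 2 ^ 40 * Vtt| ≤ 6 := by simpa [vM] using hv true true
  set G := gi t0 t1 s1 with hG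
  set A := gi A0 A1 s1 with hA
  have pG : 0 < G := gi_pos _ _ _ ht0 ht1'
  have pA : 0 < A := gi_pos _ _ _ hA0 hA1
  have hG1 : G ≤ 1 := (gi_le_max t0 t1 s1 h1 ht0 ht1').trans (max_le (ht.trans ht1) ht1)
  have hG0 : t0 ≤ G := by
    have := le_gi t0 t1 s1 h1 ht0 ht1'
    rwa [min_eq_left ht] at this
  set x0 := A * G ^ q0 with hx0
  set x1 := A * G ^ q1 with hx1
  have px0 : 0 < x0 := by positivity
  have px1 : 0 < x1 := by positivity
  have ex0 : gi Vff Vtf s1 = x0 := by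
    rw [hVff, hVtf, gi_mul _ _ _ _ _ hA0 hA1 (by positivity) (by positivity), gi_rpow _ _ _ _ ht0 ht1']
  have ex1 : gi Vft Vtt s1 = x1 := by
    rw [hVft, hVtt, gi_mul _ _ _ _ _ hA0 hA1 (by positivity) (by positivity), gi_rpow _ _ _ _ ht0 ht1']
  have eps' : psM A0 A1 t0 t1 q0 q1 s1 s2 = gi x0 x1 s2 := by
    rw [hx0, hx1, gi_mul _ _ _ _ _ pA pA (by positivity) (by positivity), gi_self _ _ pA]
    unfold psM
    congr 1
    rw [← hG]
    unfold gi ai
    rw [← Real.rpow_mul pG.le, ← Real.rpow_mul pG.le, ← Real.rpow_add pG]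
    congr 1; ring
  have eS : ∑ b1 : Bool, ∑ b2 : Bool, w1 s1 b1 * w1 s2 b2 * vM A0 A1 t0 t1 q0 q1 b1 b2 =
      ai (ai Vff Vtf s1) (ai Vft Vtt s1) s2 := by
    simp only [Fintype.sum_bool, vM, w1, ai, hVff, hVft, hVtf, hVtt]
    simp
    ring
  rw [eS, eps']
  have hs2 := abs_le.1 h2
  have hs1 := abs_le.1 h1
  have c0 : 0 ≤ (1 - s2) / 2 := by linarith
  have c1 : 0 ≤ (1 + s2) / 2 := by linarith
  have g0 : x0 ≤ ai Vff Vtf s1 := by rw [← ex0]; exact gi_le_ai _ _ _ h1 pff ptf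
  have g1 : x1 ≤ ai Vft Vtt s1 := by rw [← ex1]; exact gi_le_ai _ _ _ h1 pft ptt
  have g2 : gi x0 x1 s2 ≤ ai x0 x1 s2 := gi_le_ai _ _ _ h2 px0 px1
  have g3 : ai x0 x1 s2 ≤ ai (ai Vff Vtf s1) (ai Vft Vtt s1) s2 := by
    have e : ∀ a b : ℝ, ai a b s2 = (1 - s2) / 2 * a + (1 + s2) / 2 * b := fun a b => rfl
    rw [e, e]
    exact add_le_add (mul_le_mul_of_nonneg_left g0 c0) (mul_le_mul_of_nonneg_left g1 c1)
  refine ⟨g2.trans g3, ?_⟩
  -- first part
  have f0 : 2 ^ 40 * (ai Vff Vtf s1 - x0) ≤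
      (qf (dist (v false false) (v true false)) (minN (v false false) (v true false)) : ℕ) := by
    rw [← ex0]; exact qf_ge Vff Vtf _ _ hff htf pff ptf s1 h1
  have f1 : 2 ^ 40 * (ai Vft Vtt s1 - x1) ≤
      (qf (dist (v false true) (v true true)) (minN (v false true) (v true true)) : ℕ) := by
    rw [← ex1]; exact qf_ge Vft Vtt _ _ hft htt pft ptt s1 h1
  have F : 2 ^ 40 * (ai (ai Vff Vtf s1) (ai Vft Vtt s1) s2 - ai x0 x1 s2) ≤
      (maxN (qf (dist (v false false) (v true false)) (minN (v false false) (v true false)))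
        (qf (dist (v false true) (v true true)) (minN (v false true) (v true true))) : ℕ) := by
    rw [maxN_eq, Nat.cast_max]
    set M := max ((qf (dist (v false false) (v true false)) (minN (v false false) (v true false)) : ℕ) : ℝ)
      ((qf (dist (v false true) (v true true)) (minN (v false true) (v true true)) : ℕ) : ℝ) with hM
    have m0 := f0.trans (le_max_left _ ((qf (dist (v false true) (v true true)) (minN (v false true) (v true true)) : ℕ) : ℝ))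
    have m1 := f1.trans (le_max_right ((qf (dist (v false false) (v true false)) (minN (v false false) (v true false)) : ℕ) : ℝ) _)
    rw [← hM] at m0 m1
    have e : ∀ a b : ℝ, ai a b s2 = (1 - s2) / 2 * a + (1 + s2) / 2 * b := fun a b => rfl
    rw [e, e]
    calc _ = (1 - s2) / 2 * (2 ^ 40 * (ai Vff Vtf s1 - x0)) + (1 + s2) / 2 * (2 ^ 40 * (ai Vft Vtt s1 - x1)) := by ring
      _ ≤ (1 - s2) / 2 * M + (1 + s2) / 2 * M :=
          add_le_add (mul_le_mul_of_nonneg_left m0 c0) (mul_le_mul_of_nonneg_left m1 c1)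
      _ = M := by ring
  -- second part
  have H : 2 ^ 40 * (ai x0 x1 s2 - gi x0 x1 s2) ≤
      (qg (maxN (v false false) (v false true)) (minN (v false false) (v false true))
        (maxN (minN (v false false) (v false true)) (minN (v true false) (v true true)))
        (maxN (maxN (v false false) (v false true)) (maxN (v true false) (v true true))) : ℕ) := by
    have mx0 : x0 ≤ max Vff Vtf := by rw [← ex0]; exact gi_le_max _ _ _ h1 pff ptf
    have mx1 : x1 ≤ max Vft Vtt := by rw [← ex1]; exact gi_le_max _ _ _ h1 pft ptt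
    simp only [maxN_eq, minN_eq]
    rw [abs_le] at hff hft htf htt
    by_cases hm : min (v false false) (v false true) ≤ 16
    · rw [SlA_qg1 _ _ _ _ hm]
      have b1 : ai x0 x1 s2 - gi x0 x1 s2 ≤ |x1 - x0| := ai_sub_gi_le' _ _ _ h2 px0 px1
      have b2 : |x1 - x0| ≤ max x0 x1 := by
        rw [abs_le]
        constructor
        · have := le_max_left x0 x1; linarith
        · have := le_max_right x0 x1; linarith
      have b3 : 2 ^ 40 * max x0 x1 ≤
          ((max (max (v false false) (v false true)) (max (v true false) (v true true)) + 16 : ℕ) : ℝ) :=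
        SlA_mx x0 x1 Vff Vft Vtf Vtt _ _ _ _ mx0 mx1 (by linarith) (by linarith) (by linarith) (by linarith)
      linarith
    · push Not at hm
      refine le_trans ?_ (SlA_qg2 _ _ _ _ hm)
      have b1 : ai x0 x1 s2 - gi x0 x1 s2 ≤ (x1 - x0) ^ 2 / (8 * min x0 x1) := ai_sub_gi_le _ _ _ h2 px0 px1
      refine (mul_le_mul_of_nonneg_left b1 (by norm_num)).trans ?_
      rcases le_total q0 q1 with hq | hq
      · -- `x1 ≤ x0`
        have o1 : x1 ≤ x0 := by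
          rw [hx0, hx1]
          exact mul_le_mul_of_nonneg_left (Real.rpow_le_rpow_of_exponent_ge pG hG1 hq) pA.le
        have o2 : Vft ≤ Vff := mul_le_mul_of_nonneg_left
          (Real.rpow_le_rpow_of_exponent_ge ht0 (ht.trans ht1) hq) hA0.le
        have o3 : Vtt ≤ Vtf := mul_le_mul_of_nonneg_left
          (Real.rpow_le_rpow_of_exponent_ge ht1' ht1 hq) hA1.le
        have hr : x0 * Vft ≤ Vff * x1 := SlA_quot A A0 t0 G q0 q1 pA hA0 ht0 hG0 hq
        rw [min_eq_right o1, show (x1 - x0) ^ 2 = (x0 - x1) ^ 2 by ring]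
        refine SlA_br x0 x1 Vff Vft _ _ _ (v false false) (v false true) px1 o1 pft hr ?_ (abs_le.2 hff) (abs_le.2 hft)
          (le_max_left _ _) (min_le_right _ _) hm
        refine SlA_small x1 Vff Vft Vtf Vtt _ _ _ _ ?_ (by linarith) (by linarith) (by linarith) (by linarith)
        rw [min_eq_right o2, min_eq_right o3]; exact mx1
      · have o1 : x0 ≤ x1 := by
          rw [hx0, hx1]
          exact mul_le_mul_of_nonneg_left (Real.rpow_le_rpow_of_exponent_ge pG hG1 hq) pA.le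
        have o2 : Vff ≤ Vft := mul_le_mul_of_nonneg_left
          (Real.rpow_le_rpow_of_exponent_ge ht0 (ht.trans ht1) hq) hA0.le
        have o3 : Vtf ≤ Vtt := mul_le_mul_of_nonneg_left
          (Real.rpow_le_rpow_of_exponent_ge ht1' ht1 hq) hA1.le
        have hr : x1 * Vff ≤ Vft * x0 := SlA_quot A A0 t0 G q1 q0 pA hA0 ht0 hG0 hq
        rw [min_eq_left o1]
        refine SlA_br x1 x0 Vft Vff _ _ _ (v false true) (v false false) px0 o1 pff hr ?_ (abs_le.2 hft) (abs_le.2 hff)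
          (le_max_right _ _) (min_le_left _ _) hm
        refine SlA_small x0 Vff Vft Vtf Vtt _ _ _ _ ?_ (by linarith) (by linarith) (by linarith) (by linarith)
        rw [min_eq_left o2, min_eq_left o3]; exact mx0
  calc _ = 2 ^ 40 * (ai (ai Vff Vtf s1) (ai Vft Vtt s1) s2 - ai x0 x1 s2) + 2 ^ 40 * (ai x0 x1 s2 - gi x0 x1 s2) := by ring
    _ ≤ _ := add_le_add F H

end Pool.Agent.MaxTerm59b
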