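import Mathlib
import Pool.Agent.MaxTerm59b.GenF2

/-! Meaning of the packed data: rows, tables, vertices, slots. -/

namespace Pool.Agent.MaxTerm59b
open Finset
open scoped ComplexConjugate

/-- Gaussian integers -/
abbrev GI := GaussianInt

/-- entry `a` of the vector `g` of a row (`n + 1` entries) -/
def gF (n x a : ℕ) : GI :=
  ⟨((x / 2048 ^ (2 * (n - a)) % 2048 : ℕ) : ℤ) - 1024, ((x / 2048 ^ (2 * (n - a) + 1) % 2048 : ℕ) : ℤ) - 1024⟩

/-- entry `b` of the vector `h` of a row -/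
def hF (n x b : ℕ) : GI :=
  ⟨((x / 2048 ^ (2 * (n + 1)) / 2048 ^ (2 * b) % 2048 : ℕ) : ℤ) - 1024,
    ((x / 2048 ^ (2 * (n + 1)) / 2048 ^ (2 * b + 1) % 2048 : ℕ) : ℤ) - 1024⟩

/-- component `k` of the multiplier of a row -/
def mF (cx : Bool) (n x k : ℕ) : GI :=
  ⟨((x / 2048 ^ (4 * (n + 1)) / 67108864 ^ (2 * (Kc cx - 1 - k)) % 67108864 : ℕ) : ℤ) - 33554432,
    ((x / 2048 ^ (4 * (n + 1)) / 67108864 ^ (2 * (Kc cx - 1 - k) + 1) % 67108864 : ℕ) : ℤ) - 33554432⟩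

/-- coefficient of the class `e - n`: `∑_{a - b = e - n} conj (h b) g a` -/
def gam (n x e : ℕ) : GI :=
  ∑ a ∈ range (n + 1), ∑ b ∈ range (n + 1), if a + n = e + b then star (hF n x b) * gF n x a else 0

/-- entry of the trigonometric table -/
def tcF (T j : ℕ) : ℤ := (tabG T j : ℤ) - 2199023255552

/-- table value of `2^40 z^p`, `z = e^{i (k - 31) θ}` -/
def zI (TC TS k : ℕ) (p : ℤ) : GI :=
  ⟨tcF TC (((k : ℤ) - 31) * p).natAbs,
    if 0 ≤ ((k : ℤ) - 31) * p then tcF TS (((k : ℤ) - 31) * p).natAbs else -tcF TS (((k : ℤ) - 31) * p).natAbs⟩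

/-- coefficient (class `e - n`, power `p`, component `k`) of a row -/
def rowT (cx : Bool) (TC TS n nd x e : ℕ) (p : ℤ) (k : ℕ) : GI := gam n x e * mF cx n x k * zI TC TS nd p

/-- coefficient of the functional of a side given by the list `l` of nodes and rows -/
def TI (cx : Bool) (TC TS n : ℕ) (l : List (ℕ × List ℕ)) (e : ℕ) (p : ℤ) (k : ℕ) : GI :=
  (l.map fun nd => (nd.2.map fun x => rowT cx TC TS n nd.1 x e p k).sum).sum

/-- the table belonging to a list of rows -/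
def tabOf (cx : Bool) (TC TS P n : ℕ) (l : List (ℕ × List ℕ)) : Tab :=
  mkTab cx TC TS P (mkSC cx n) (nsum (mkSC cx n).M (nodes cx (mkSC cx n) l))

/-- sign of component `k` at a vertex -/
def sv (b1 b2 b3 : Bool) (k : ℕ) : ℤ :=
  if k = 0 then 1 else if k = 1 then (if b1 then 1 else -1) else if k = 2 then (if b2 then 1 else -1)
  else (if b3 then 1 else -1)

/-- the affine parameters -/
def sig (s1 s2 s3 : ℝ) (k : ℕ) : ℝ := if k = 0 then 1 else if k = 1 then s1 else if k = 2 then s2 else s3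

/-- weight of a coordinate -/
noncomputable def w1 (s : ℝ) (b : Bool) : ℝ := if b then (1 + s) / 2 else (1 - s) / 2

/-- weight of a vertex -/
noncomputable def wt (s1 s2 s3 : ℝ) (b1 b2 b3 : Bool) : ℝ := w1 s1 b1 * w1 s2 b2 * w1 s3 b3

/-- `∑` over the vertices -/
noncomputable def vs (s1 s2 s3 : ℝ) (f : Bool → Bool → Bool → ℝ) : ℝ :=
  ∑ b1 : Bool, ∑ b2 : Bool, ∑ b3 : Bool, wt s1 s2 s3 b1 b2 b3 * f b1 b2 b3
noncomputable def vsC (s1 s2 s3 : ℝ) (f : Bool → Bool → Bool → ℂ) : ℂ :=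
  ∑ b1 : Bool, ∑ b2 : Bool, ∑ b3 : Bool, (wt s1 s2 s3 b1 b2 b3 : ℂ) * f b1 b2 b3

/-- real part if `cx = false` -/
noncomputable def Pc (cx : Bool) (z : ℂ) : ℂ := if cx then z else (z.re : ℂ)

/-- component `k` of the functional at a slot (scale `2^86`) -/
noncomputable def slD (cx : Bool) (s : Slot) (k : ℕ) : ℂ :=
  ⟨(dg s.t.re s.t.c s.cl s.pw k : ℝ) - 2 ^ 99, if cx then (dg s.t.im s.t.c s.cl s.pw k : ℝ) - 2 ^ 99 else 0⟩

/-- the functional at a slot for the affine parameters -/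
noncomputable def slT (cx : Bool) (s1 s2 s3 : ℝ) (s : Slot) : ℂ :=
  ∑ k ∈ range (Kc cx), (sig s1 s2 s3 k : ℂ) * slD cx s k

def slE (s : Slot) (k : ℕ) : ℕ := if k = 0 then s.e0 else if k = 1 then s.e1 else if k = 2 then s.e2 else s.e3

/-- the values of the slot interpolate `ψ` (scale `2^40`) with the errors `e0 .. e3` -/
def SlotOK (cx : Bool) (s1 s2 s3 : ℝ) (s : Slot) (ψ : ℝ) : Prop :=
  ∀ k < Kc cx,
    |ψ * sig s1 s2 s3 k * 2 ^ 40 - vs s1 s2 s3 (fun b1 b2 b3 => (s.ph b1 b2 b3 : ℝ) * (sv b1 b2 b3 k : ℝ))| ≤ (slE s k : ℝ)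

/-- the same for a constant -/
def CSlotOK (cx : Bool) (s1 s2 s3 : ℝ) (s : CSlot) (ζ : ℂ) : Prop :=
  (cx = false → ∀ b1 b2 b3, s.im b1 b2 b3 = 2199023255552) ∧
  ∀ k < Kc cx, ‖ζ * (sig s1 s2 s3 k : ℂ) * 2 ^ 40 - vsC s1 s2 s3 (fun b1 b2 b3 =>
    (⟨(s.re b1 b2 b3 : ℝ) - 2199023255552, (s.im b1 b2 b3 : ℝ) - 2199023255552⟩ : ℂ) * (sv b1 b2 b3 k : ℂ))‖ ≤ (slE s.s k : ℝ)

/-- row inequality of a side: class functions `∑ c d p z^p`, `|d| ≤ n` -/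
structure RowHyp (n : ℕ) (c : ℤ → ℤ → ℂ) : Prop where
  summ : ∀ d : ℤ, |d| ≤ n → Summable fun p => ‖c d p‖
  row : ∀ z : ℂ, ‖z‖ = 1 → ∀ g h : ℕ → ℂ,
    ‖∑ a ∈ range (n + 1), ∑ b ∈ range (n + 1), conj (h b) * g a * ∑' p : ℤ, c ((a : ℤ) - b) p * z ^ p‖ ≤
      170919 / 100000 * (Real.sqrt (∑ a ∈ range (n + 1), ‖g a‖ ^ 2) * Real.sqrt (∑ b ∈ range (n + 1), ‖h b‖ ^ 2))

/-- `w0 = (399 + 40 i)/401` -/
noncomputable def w0 : ℂ := ⟨399 / 401, 40 / 401⟩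

end Pool.Agent.MaxTerm59b
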