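import Pool.Agent.MaxTerm59b.MomS

/-! The digits of the tables. -/

namespace Pool.Agent.MaxTerm59b
open Finset

private theorem TabA_rec (TC TS P : ℕ) (c : SC) (nd : List Ns) (a b cnt acc : ℕ) (A B : ℕ → ℕ)
    (hM : c.M = 2 ^ (100 * c.D))
    (hA : ∀ p, A p = ((nd.map fun x => x.pr * tabG TC (absS x.k 31 * p)).sum + b +
        subM c.M c.OFF ((nd.map fun x => x.pi *
          sg 4398046511104 (tabG TS (absS x.k 31 * p)) (Nat.ble 31 x.k)).sum + a)) % c.M)
    (hB : ∀ p, B p = ((nd.map fun x => x.pr * tabG TC (absS x.k 31 * p)).sum +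
        (nd.map fun x => x.pi * sg 4398046511104 (tabG TS (absS x.k 31 * p)) (Nat.ble 31 x.k)).sum +
        subM c.M c.OFF (a + b)) % c.M) :
    momR TC TS P c nd a b cnt acc = acc + ∑ p ∈ range cnt, (A p * c.M ^ (P + p) +
      if p = 0 then 0 else B p * c.M ^ (P - p)) := by
  induction cnt generalizing acc with
  | zero => simp [momR]
  | succ p ih =>
    have hstep : momR TC TS P c nd a b (p + 1) acc =
        momS TC TS p nd 0 0 0 0 fun rc _ _ is =>
          momR TC TS P c nd a b p (acc + (((rc + b + subM c.M c.OFF (is + a)) % c.M) <<< (100 * c.D * (P + p)) +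
            cond (Nat.beq p 0) 0 (((rc + is + subM c.M c.OFF (a + b)) % c.M) <<< (100 * c.D * (P - p))))) := rfl
    rw [hstep, momS_eq, ih, sum_range_succ, hA p, hB p]
    simp only [zero_add]
    have h1 : ∀ x e : ℕ, x <<< (100 * c.D * e) = x * c.M ^ e := by
      intro x e
      rw [Nat.shiftLeft_eq, hM, ← pow_mul]
    rw [h1, h1]
    rcases Nat.eq_zero_or_pos p with hp | hp
    · subst hp
      simp only [if_true, range_zero, sum_empty]
      have h2 : Nat.beq 0 0 = true := rfl
      rw [h2, cond_true]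
      ring
    · have h2 : Nat.beq p 0 = false := by
        cases hb : Nat.beq p 0 with
        | true => exact absurd (Nat.eq_of_beq_eq_true hb) (by omega)
        | false => rfl
      rw [h2, cond_false, if_neg (by omega)]
      ring

private theorem TabA_sum (P : ℕ) (A B : ℕ → ℕ) (M : ℕ) :
    ∑ p ∈ range (P + 1), (A p * M ^ (P + p) + if p = 0 then 0 else B p * M ^ (P - p)) =
      ∑ i ∈ range (2 * P + 1), (if P ≤ i then A (i - P) else B (P - i)) * M ^ i := by
  have h1 : 2 * P + 1 = P + (P + 1) := by ring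
  rw [h1, sum_range_add (fun i => (if P ≤ i then A (i - P) else B (P - i)) * M ^ i) P (P + 1),
    sum_add_distrib, add_comm]
  refine congrArg₂ (fun x y : ℕ => x + y) ?_ ?_
  · rw [sum_range_succ', ← sum_range_reflect]
    simp only [if_true, add_zero]
    refine sum_congr rfl fun i hi => ?_
    have hi' := mem_range.1 hi
    rw [if_neg (by omega), if_neg (by omega)]
    have h2 : P - 1 - i + 1 = P - i := by omega
    have h3 : P - (P - i) = i := by omega
    rw [h2, h3]
  · refine sum_congr rfl fun i _ => ?_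
    rw [if_pos (by omega)]
    have h2 : P + i - P = i := by omega
    rw [h2]

/-- blocks of a table: `∑_{i ≤ 2P} blk i · M^i` with blocks smaller than `M`; block of the power `p` at the index
`p + P`. Hint: general lemma on the recursion `momR` by induction on `cnt` with an accumulator: after `cnt` steps the
blocks with `|p| < cnt` have been added; `100 D` bits per block, `M = 2^(100 D)`. -/
theorem momR_blocks (TC TS P : ℕ) (cx : Bool) (n : ℕ) (nd : List Ns) (a b : ℕ) :
    ∃ blk : ℕ → ℕ, (∀ i, blk i < (mkSC cx n).M) ∧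
      momR TC TS P (mkSC cx n) nd a b (Nat.succ P) 0 = ∑ i ∈ range (2 * P + 1), blk i * (mkSC cx n).M ^ i ∧
      (∀ p ≤ P, blk (P + p) = ((nd.map fun x => x.pr * tabG TC (absS x.k 31 * p)).sum + b +
        subM (mkSC cx n).M (mkSC cx n).OFF ((nd.map fun x => x.pi *
          sg 4398046511104 (tabG TS (absS x.k 31 * p)) (Nat.ble 31 x.k)).sum + a)) % (mkSC cx n).M) ∧
      (∀ p, 1 ≤ p → p ≤ P → blk (P - p) = ((nd.map fun x => x.pr * tabG TC (absS x.k 31 * p)).sum +
        (nd.map fun x => x.pi * sg 4398046511104 (tabG TS (absS x.k 31 * p)) (Nat.ble 31 x.k)).sum +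
        subM (mkSC cx n).M (mkSC cx n).OFF (a + b)) % (mkSC cx n).M) := by
  have hM : (mkSC cx n).M = 2 ^ (100 * (mkSC cx n).D) := by
    rw [mkSC_M, mkSC_D, Y100_eq, ← pow_mul]
  have hM0 : 0 < (mkSC cx n).M := by
    rw [hM]
    positivity
  set A : ℕ → ℕ := fun p => ((nd.map fun x => x.pr * tabG TC (absS x.k 31 * p)).sum + b +
        subM (mkSC cx n).M (mkSC cx n).OFF ((nd.map fun x => x.pi *
          sg 4398046511104 (tabG TS (absS x.k 31 * p)) (Nat.ble 31 x.k)).sum + a)) % (mkSC cx n).M with hA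
  set B : ℕ → ℕ := fun p => ((nd.map fun x => x.pr * tabG TC (absS x.k 31 * p)).sum +
        (nd.map fun x => x.pi * sg 4398046511104 (tabG TS (absS x.k 31 * p)) (Nat.ble 31 x.k)).sum +
        subM (mkSC cx n).M (mkSC cx n).OFF (a + b)) % (mkSC cx n).M with hB
  refine ⟨fun i => if P ≤ i then A (i - P) else B (P - i), ?_, ?_, ?_, ?_⟩
  · intro i
    dsimp only
    split_ifs
    · exact Nat.mod_lt _ hM0
    · exact Nat.mod_lt _ hM0
  · rw [Nat.succ_eq_add_one, TabA_rec TC TS P (mkSC cx n) nd a b (P + 1) 0 A B hM (fun p => rfl) (fun p => rfl),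
      zero_add, TabA_sum]
  · intro p _
    dsimp only
    rw [if_pos (by omega), Nat.add_sub_cancel_left]
  · intro p h1 h2
    dsimp only
    rw [if_neg (by omega)]
    have h3 : P - (P - p) = p := by omega
    rw [h3]

end Pool.Agent.MaxTerm59b
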