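import Pool.Agent.MaxTerm59b.MomS
import Pool.Agent.MaxTerm59b.Trig

/-! Correctness of the trigonometric table. -/

namespace Pool.Agent.MaxTerm59b

theorem norm_w0 : ‖w0‖ = 1 := by
  have h : ‖w0‖ ^ 2 = 1 := by
    rw [← Complex.normSq_eq_norm_sq, Complex.normSq_apply]
    unfold w0
    norm_num
  have h0 := norm_nonneg w0
  nlinarith

/-- one entry -/
private def TrigS_ok (j : ℕ) (c s : ℤ) : Bool :=
  decide (c - 2 ^ 40 * tcF TC j ≤ 2 ^ 39) && (decide (-(2 ^ 39) ≤ c - 2 ^ 40 * tcF TC j) &&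
    (decide (s - 2 ^ 40 * tcF TS j ≤ 2 ^ 39) && (decide (-(2 ^ 39) ≤ s - 2 ^ 40 * tcF TS j) &&
      (decide (tcF TC j ≤ 2 ^ 40) && (decide (-(2 ^ 40) ≤ tcF TC j) &&
        (decide (tcF TS j ≤ 2 ^ 40) && decide (-(2 ^ 40) ≤ tcF TS j)))))))

/-- the loop -/
private def TrigS_loop : ℕ → ℕ → ℤ → ℤ → Bool
  | 0, _, _, _ => true
  | n + 1, j, c, s => TrigS_ok j c s && TrigS_loop n (j + 1) ((399 * c - 40 * s) / 401) ((40 * c + 399 * s) / 401)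

set_option maxRecDepth 100000 in
private theorem TrigS_run : TrigS_loop 1241 0 (2 ^ 80) 0 = true := by decide +kernel

private theorem TrigS_okf {j : ℕ} {c s : ℤ} (h : TrigS_ok j c s = true) :
    |c - 2 ^ 40 * tcF TC j| ≤ 2 ^ 39 ∧ |s - 2 ^ 40 * tcF TS j| ≤ 2 ^ 39 ∧ |tcF TC j| ≤ 2 ^ 40 ∧ |tcF TS j| ≤ 2 ^ 40 := by
  unfold TrigS_ok at h
  simp only [Bool.and_eq_true, decide_eq_true_eq] at h
  obtain ⟨h1, h2, h3, h4, h5, h6, h7, h8⟩ := h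
  exact ⟨abs_le.2 ⟨h2, h1⟩, abs_le.2 ⟨h4, h3⟩, abs_le.2 ⟨h6, h5⟩, abs_le.2 ⟨h8, h7⟩⟩

private theorem TrigS_step (c s : ℤ) (W : ℂ) (r : ℝ) (h : ‖(⟨(c : ℝ), (s : ℝ)⟩ : ℂ) - W‖ ≤ r) :
    ‖(⟨(((399 * c - 40 * s) / 401 : ℤ) : ℝ), (((40 * c + 399 * s) / 401 : ℤ) : ℝ)⟩ : ℂ) - W * w0‖ ≤ r + 2 := by
  have e : ∀ x : ℤ, |((x / 401 : ℤ) : ℝ) - (x : ℝ) / 401| ≤ 1 := by
    intro x
    have h1 := Int.mul_ediv_add_emod x 401
    have h2 := Int.emod_nonneg x (by norm_num : (401 : ℤ) ≠ 0)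
    have h3 := Int.emod_lt_of_pos x (by norm_num : (0 : ℤ) < 401)
    have h1' : (401 : ℝ) * ((x / 401 : ℤ) : ℝ) + ((x % 401 : ℤ) : ℝ) = (x : ℝ) := by exact_mod_cast h1
    have h2' : (0 : ℝ) ≤ ((x % 401 : ℤ) : ℝ) := by exact_mod_cast h2
    have h3' : ((x % 401 : ℤ) : ℝ) < 401 := by exact_mod_cast h3
    rw [abs_le]
    constructor <;> linarith
  have hs : (⟨(((399 * c - 40 * s) / 401 : ℤ) : ℝ), (((40 * c + 399 * s) / 401 : ℤ) : ℝ)⟩ : ℂ) - W * w0 =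
      ((⟨(c : ℝ), (s : ℝ)⟩ : ℂ) - W) * w0 +
        (⟨(((399 * c - 40 * s) / 401 : ℤ) : ℝ) - ((399 * c - 40 * s : ℤ) : ℝ) / 401,
          (((40 * c + 399 * s) / 401 : ℤ) : ℝ) - ((40 * c + 399 * s : ℤ) : ℝ) / 401⟩ : ℂ) := by
    apply Complex.ext
    · simp only [Complex.add_re, Complex.sub_re, Complex.mul_re, Complex.sub_im, w0]
      push_cast
      ring
    · simp only [Complex.add_im, Complex.sub_im, Complex.mul_im, Complex.sub_re, w0]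
      push_cast
      ring
  rw [hs]
  refine (norm_add_le _ _).trans (add_le_add ?_ ?_)
  · rw [norm_mul, norm_w0, mul_one]
    exact h
  · refine (Complex.norm_le_abs_re_add_abs_im _).trans ?_
    have h1 := e (399 * c - 40 * s)
    have h2 := e (40 * c + 399 * s)
    simp only
    linarith

private theorem TrigS_all (n : ℕ) : ∀ (j : ℕ) (c s : ℤ), TrigS_loop n j c s = true →
    ‖(⟨(c : ℝ), (s : ℝ)⟩ : ℂ) - 2 ^ 80 * w0 ^ j‖ ≤ 2 * j → ∀ i < n,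
    ∃ c' s' : ℤ, TrigS_ok (j + i) c' s' = true ∧ ‖(⟨(c' : ℝ), (s' : ℝ)⟩ : ℂ) - 2 ^ 80 * w0 ^ (j + i)‖ ≤ 2 * (j + i : ℕ) := by
  induction n with
  | zero => intro j c s _ _ i hi; omega
  | succ n ih =>
    intro j c s h hn i hi
    unfold TrigS_loop at h
    rw [Bool.and_eq_true] at h
    rcases i with _ | i
    · exact ⟨c, s, h.1, by simpa using hn⟩
    · have h1 := TrigS_step c s _ _ hn
      have h2 : (2 : ℂ) ^ 80 * w0 ^ j * w0 = 2 ^ 80 * w0 ^ (j + 1) := by ring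
      rw [h2] at h1
      obtain ⟨c', s', h3, h4⟩ := ih (j + 1) _ _ h.2 (by push_cast; linarith) i (by omega)
      refine ⟨c', s', ?_, ?_⟩
      · rw [show j + (i + 1) = j + 1 + i by ring]
        exact h3
      · rw [show j + (i + 1) = j + 1 + i by ring]
        exact h4

private theorem TrigS_get (j : ℕ) (hj : j ≤ 1240) : ∃ c' s' : ℤ, TrigS_ok j c' s' = true ∧
    ‖(⟨(c' : ℝ), (s' : ℝ)⟩ : ℂ) - 2 ^ 80 * w0 ^ j‖ ≤ 2 * j := by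
  have h0 : ‖(⟨((2 ^ 80 : ℤ) : ℝ), ((0 : ℤ) : ℝ)⟩ : ℂ) - 2 ^ 80 * w0 ^ 0‖ ≤ 2 * (0 : ℕ) := by
    have : (⟨((2 ^ 80 : ℤ) : ℝ), ((0 : ℤ) : ℝ)⟩ : ℂ) - 2 ^ 80 * w0 ^ 0 = 0 := by
      apply Complex.ext
      · norm_num
      · norm_num
    rw [this, norm_zero]
    norm_num
  have h := TrigS_all 1241 0 (2 ^ 80) 0 TrigS_run h0 j (by omega)
  simpa using h

theorem tabOK : TabOK TC TS := by
  refine ⟨by decide +kernel, fun j hj => ?_⟩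
  obtain ⟨c, s, h, -⟩ := TrigS_get j hj
  have := TrigS_okf h
  exact ⟨this.2.2.1, this.2.2.2⟩

theorem tab_close (j : ℕ) (hj : j ≤ 1240) : ‖(⟨(tcF TC j : ℝ), (tcF TS j : ℝ)⟩ : ℂ) - 2 ^ 40 * w0 ^ j‖ ≤ 1 := by
  obtain ⟨c, s, h, hn⟩ := TrigS_get j hj
  obtain ⟨h1, h2, -, -⟩ := TrigS_okf h
  have h1' : |(c : ℝ) - 2 ^ 40 * (tcF TC j : ℝ)| ≤ 2 ^ 39 := by exact_mod_cast h1
  have h2' : |(s : ℝ) - 2 ^ 40 * (tcF TS j : ℝ)| ≤ 2 ^ 39 := by exact_mod_cast h2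
  have e : (2 : ℂ) ^ 40 * ((⟨(tcF TC j : ℝ), (tcF TS j : ℝ)⟩ : ℂ) - 2 ^ 40 * w0 ^ j) =
      ((⟨(c : ℝ), (s : ℝ)⟩ : ℂ) - 2 ^ 80 * w0 ^ j) -
        (⟨(c : ℝ) - 2 ^ 40 * (tcF TC j : ℝ), (s : ℝ) - 2 ^ 40 * (tcF TS j : ℝ)⟩ : ℂ) := by
    have h80 : (2 : ℂ) ^ 80 = 2 ^ 40 * 2 ^ 40 := by norm_num
    have e1 : (2 : ℂ) ^ 40 * (⟨(tcF TC j : ℝ), (tcF TS j : ℝ)⟩ : ℂ) = (⟨(c : ℝ), (s : ℝ)⟩ : ℂ) -
        (⟨(c : ℝ) - 2 ^ 40 * (tcF TC j : ℝ), (s : ℝ) - 2 ^ 40 * (tcF TS j : ℝ)⟩ : ℂ) := by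
      have e2 : (2 : ℂ) ^ 40 = ((2 ^ 40 : ℝ) : ℂ) := by norm_num
      rw [e2]
      apply Complex.ext
      · rw [Complex.re_ofReal_mul]
        simp only [Complex.sub_re]
        ring
      · rw [Complex.im_ofReal_mul]
        simp only [Complex.sub_im]
        ring
    rw [mul_sub, e1, h80]
    ring
  have hsq : ‖(⟨(c : ℝ) - 2 ^ 40 * (tcF TC j : ℝ), (s : ℝ) - 2 ^ 40 * (tcF TS j : ℝ)⟩ : ℂ)‖ ≤ 3 / 4 * 2 ^ 40 := by
    have h3 : ‖(⟨(c : ℝ) - 2 ^ 40 * (tcF TC j : ℝ), (s : ℝ) - 2 ^ 40 * (tcF TS j : ℝ)⟩ : ℂ)‖ ^ 2 ≤ (3 / 4 * 2 ^ 40) ^ 2 := by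
      rw [← Complex.normSq_eq_norm_sq, Complex.normSq_apply]
      simp only
      have h4 := sq_le_sq' (neg_le_of_abs_le h1') (le_of_abs_le h1')
      have h5 := sq_le_sq' (neg_le_of_abs_le h2') (le_of_abs_le h2')
      nlinarith
    exact le_of_pow_le_pow_left₀ (by norm_num) (by norm_num) h3
  have hj' : (2 : ℝ) * j ≤ 2480 := by
    have : (j : ℝ) ≤ 1240 := by exact_mod_cast hj
    linarith
  have h6 : ‖(2 : ℂ) ^ 40 * ((⟨(tcF TC j : ℝ), (tcF TS j : ℝ)⟩ : ℂ) - 2 ^ 40 * w0 ^ j)‖ ≤ 2 ^ 40 := by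
    rw [e]
    refine (norm_sub_le _ _).trans ?_
    refine (add_le_add hn hsq).trans ?_
    linarith
  rw [norm_mul, norm_pow] at h6
  norm_num at h6 ⊢
  linarith

/-- Hint: `w0⁻¹ = conj w0`. -/
theorem zI_close (k : ℕ) (hk : k ≤ 62) (p : ℤ) (hp : |p| ≤ 40) :
    ‖((zI TC TS k p : GI) : ℂ) - 2 ^ 40 * (w0 ^ ((k : ℤ) - 31)) ^ p‖ ≤ 1 := by
  have hq : (((k : ℤ) - 31) * p).natAbs ≤ 1240 := by
    have h1 : |((k : ℤ) - 31) * p| ≤ 31 * 40 := by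
      rw [abs_mul]
      refine mul_le_mul ?_ hp (abs_nonneg _) (by norm_num)
      rw [abs_le]
      constructor <;> omega
    have h2 := abs_le.1 h1
    omega
  have h := tab_close _ hq
  rw [← zpow_mul]
  set q : ℤ := ((k : ℤ) - 31) * p with hqd
  by_cases h0 : 0 ≤ q
  · have e1 : ((zI TC TS k p : GI) : ℂ) = (⟨(tcF TC q.natAbs : ℝ), (tcF TS q.natAbs : ℝ)⟩ : ℂ) := by
      unfold zI
      rw [← hqd, if_pos h0]
      apply Complex.ext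
      · simp [GaussianInt.toComplex_def]
      · simp [GaussianInt.toComplex_def]
    have e2 : w0 ^ q = w0 ^ q.natAbs := by
      rw [← zpow_natCast, Int.natAbs_of_nonneg h0]
    rw [e1, e2]
    exact h
  · have e1 : ((zI TC TS k p : GI) : ℂ) = (starRingEnd ℂ) (⟨(tcF TC q.natAbs : ℝ), (tcF TS q.natAbs : ℝ)⟩ : ℂ) := by
      unfold zI
      rw [← hqd, if_neg h0]
      apply Complex.ext
      · simp [GaussianInt.toComplex_def]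
      · simp [GaussianInt.toComplex_def]
    have e2 : w0 ^ q = (starRingEnd ℂ) (w0 ^ q.natAbs) := by
      rw [map_pow, ← Complex.inv_eq_conj norm_w0, inv_pow, ← zpow_natCast, ← zpow_neg]
      congr 1
      omega
    have e3 : (2 : ℂ) ^ 40 = (starRingEnd ℂ) (2 ^ 40) := by
      rw [map_pow, Complex.conj_ofNat]
    rw [e1, e2, e3, ← map_mul, ← map_sub, RCLike.norm_conj]
    exact h

end Pool.Agent.MaxTerm59b
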